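import Pool.Agent.H698.TT.Defs

/-!
The classification from the auxiliary statements.
-/

namespace Pool.Agent.H698.TT

open Finset Classical Pool.Agent.Q102.Trade

theorem domV_iff {a b : Fin 3 → ℕ} : DomV a b ↔
    b 0 ≤ a 0 ∧ b 0 + b 1 ≤ a 0 + a 1 ∧ b 0 + b 1 + b 2 ≤ a 0 + a 1 + a 2 := by
  have h0 : ∀ c : Fin 3 → ℕ, psum c 0 = c 0 := by
    intro c
    have : (Finset.univ.filter fun i : Fin 3 => i ≤ 0) = {0} := by decide
    unfold psum; rw [this]; simp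
  have h1 : ∀ c : Fin 3 → ℕ, psum c 1 = c 0 + c 1 := by
    intro c
    have : (Finset.univ.filter fun i : Fin 3 => i ≤ 1) = {0, 1} := by decide
    unfold psum; rw [this]; simp
  have h2 : ∀ c : Fin 3 → ℕ, psum c 2 = c 0 + c 1 + c 2 := by
    intro c
    have : (Finset.univ.filter fun i : Fin 3 => i ≤ 2) = {0, 1, 2} := by decide
    unfold psum; rw [this]
    rw [Finset.sum_insert (by decide), Finset.sum_insert (by decide), Finset.sum_singleton]
    omega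
  unfold DomV
  constructor
  · intro h
    have a0 := h 0
    have a1 := h 1
    have a2 := h 2
    rw [h0, h0] at a0
    rw [h1, h1] at a1
    rw [h2, h2] at a2
    exact ⟨a0, a1, a2⟩
  · rintro ⟨a0, a1, a2⟩ k
    fin_cases k
    · show psum b 0 ≤ psum a 0
      rw [h0, h0]; exact a0
    · show psum b 1 ≤ psum a 1
      rw [h1, h1]; exact a1
    · show psum b 2 ≤ psum a 2
      rw [h2, h2]; exact a2

theorem fun3 {a : Fin 3 → ℕ} {x y z : ℕ} (h0 : a 0 = x) (h1 : a 1 = y) (h2 : a 2 = z) :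
    a = ![x, y, z] := by
  funext k
  fin_cases k
  · exact h0
  · exact h1
  · exact h2

/-- the ordered case -/
theorem ordered (hT2 : S_noTwo) (hT3 : S_three) (hcore : S_core)
    (n a b : Fin 3 → ℕ) (hn : ∀ k, 1 ≤ n k) (ha : ∀ k, a k ≤ n k) (hb : ∀ k, b k ≤ n k)
    (hnab : ¬ DomV b a) (hlex : b 0 < a 0 ∨ (b 0 = a 0 ∧ b 0 + b 1 < a 0 + a 1))
    (ht1 : (0 < a 0 ∧ a 1 < n 1) ∨ (0 < b 0 ∧ b 1 < n 1))
    (ht2 : (0 < a 1 ∧ a 2 < n 2) ∨ (0 < b 1 ∧ b 2 < n 2)) (hinc : ¬ DomV a b)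
    (h2 : TradeRobust 2 (rgame n {a, b})) (h3 : ¬ TradeRobust 3 (rgame n {a, b})) :
    (∃ k1 k2 k3 l : ℕ, n = n1 k1 k2 k3 l ∧ ({a, b} : Finset (Fin 3 → ℕ)) = R1 k1 k2 k3 l) ∨
    (∃ k1 k2 l : ℕ, n = n2 k1 k2 l ∧ ({a, b} : Finset (Fin 3 → ℕ)) = R2 l) := by
  have hNT := hT2 n a b hn ha hb h2
  have hTh := hT3 n a b h2 h3
  have n0 := hn 0
  have n1' := hn 1
  have n2' := hn 2
  have a0 := ha 0
  have a1 := ha 1
  have a2 := ha 2
  have b0 := hb 0
  have b1 := hb 1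
  have b2 := hb 2
  rw [domV_iff] at hinc
  have := hcore (n 0) (n 1) (n 2) (a 0) (a 0 + a 1) (a 0 + a 1 + a 2)
    (b 0) (b 0 + b 1) (b 0 + b 1 + b 2) (by omega) (by omega) (by omega)
    (by unfold Lat; omega) (by unfold Lat; omega) (by omega) (by omega) (by omega) (by omega)
    hNT hTh
  rcases this with h | h
  · left
    refine ⟨n 0 - 2 * (n 0 - a 0 - 1) - 3, n 1 - 3, n 2 - 2 * (n 0 - a 0 - 1) - 5,
      n 0 - a 0 - 1, ?_, ?_⟩
    · exact fun3 (by omega) (by omega) (by omega)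
    · unfold R1
      rw [← fun3 (a := a) (by omega) (by omega) (by omega),
        ← fun3 (a := b) (by omega) (by omega) (by omega)]
  · right
    refine ⟨n 0 - 2 * (a 0 - 1) - 3, n 1 - 3, a 0 - 1, ?_, ?_⟩
    · exact fun3 (by omega) (by omega) (by omega)
    · unfold R2
      rw [← fun3 (a := a) (by omega) (by omega) (by omega),
        ← fun3 (a := b) (by omega) (by omega) (by omega)]

/-- **The classification.** -/
theorem assemble (hT2 : S_noTwo) (hT3 : S_three) (hT6 : S_rep) (hT7 : S_iso) (hcore : S_core)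
    (N : Type) [Fintype N] [DecidableEq N] (W : Finset N → Prop) (hW : IsSimple W)
    (hc : Complete W) (ht : numTypes W = 3) (hr : numShiftMin W = 2) (h2 : TradeRobust 2 W)
    (h3 : ¬ TradeRobust 3 W) :
    (∃ k1 k2 k3 l : ℕ, Iso W (rgame (n1 k1 k2 k3 l) (R1 k1 k2 k3 l))) ∨
    ∃ k1 k2 l : ℕ, Iso W (rgame (n2 k1 k2 l) (R2 l)) := by
  obtain ⟨n, V, hn, ⟨e, he⟩, hVs, hge, hVm, hV2, hV3⟩ := hT7 N W hW hc ht hr h2 h3
  obtain ⟨a, b, hab, ha, hb, hnab, hnba, hV, ht12, ht23⟩ := hT6 n V hn hVs hge hVm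
  have hVe : V = rgame n {a, b} := funext fun S => propext (hV S)
  subst hVe
  have hdec : (b 0 < a 0 ∨ (b 0 = a 0 ∧ b 0 + b 1 < a 0 + a 1)) ∨
      (a 0 < b 0 ∨ (a 0 = b 0 ∧ a 0 + a 1 < b 0 + b 1)) := by
    rw [domV_iff] at hnab hnba
    omega
  rcases hdec with hlex | hlex
  · rcases ordered hT2 hT3 hcore n a b hn ha hb hnba hlex ht12 ht23 hnab hV2 hV3 with
      ⟨k1, k2, k3, l, h, h'⟩ | ⟨k1, k2, l, h, h'⟩
    · subst h
      rw [h'] at he
      exact Or.inl ⟨k1, k2, k3, l, e, he⟩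
    · subst h
      rw [h'] at he
      exact Or.inr ⟨k1, k2, l, e, he⟩
  · rw [Finset.pair_comm] at hV2 hV3 he
    rcases ordered hT2 hT3 hcore n b a hn hb ha hnab hlex ht12.symm ht23.symm hnba hV2 hV3 with
      ⟨k1, k2, k3, l, h, h'⟩ | ⟨k1, k2, l, h, h'⟩
    · subst h
      rw [h'] at he
      exact Or.inl ⟨k1, k2, k3, l, e, he⟩
    · subst h
      rw [h'] at he
      exact Or.inr ⟨k1, k2, l, e, he⟩

end Pool.Agent.H698.TT
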