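import Pool.Agent.H698.TT.Defs

/-!
Common hypotheses of the generated case analysis.
-/

namespace Pool.Agent.H698.TT

/-- the vectors `A`, `B` are vectors of partial sums, and consecutive types are different -/
abbrev Base (n1 n2 n3 A1 A2 A3 B1 B2 B3 : ℤ) : Prop :=
  1 ≤ n1 ∧ 1 ≤ n2 ∧ 1 ≤ n3 ∧ Lat n1 n2 n3 A1 A2 A3 ∧ Lat n1 n2 n3 B1 B2 B3 ∧
  ((0 < A1 ∧ A2 - A1 < n2) ∨ (0 < B1 ∧ B2 - B1 < n2)) ∧
  ((0 < A2 - A1 ∧ A3 - A2 < n3) ∨ (0 < B2 - B1 ∧ B3 - B2 < n3))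

end Pool.Agent.H698.TT
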