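import Pool.Agent.H698.TT.Base

/-!
Generated case analysis: three losing vectors of prescribed kinds whose sum is at least the sum of
three rows (part of the classification of MP_5465ec_co Q2).
-/

set_option linter.unusedVariables false
set_option linter.style.longLine false

namespace Pool.Agent.H698.TT

theorem P2_BBB_M12_M12_M12 (n1 n2 n3 A1 A2 A3 B1 B2 B3 : ℤ)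
    (hb : Base n1 n2 n3 A1 A2 A3 B1 B2 B3)
    (hp : B1 < A1 ∧ A2 < B2 ∧ A3 ≤ B3)
    (he : 1 ≤ A1)
    (hs : B1 + B1 + B1 ≤ (A1 - 1) + (A1 - 1) + (A1 - 1) ∧ B2 + B2 + B2 ≤ (A1 - 1 + n2) + (A1 - 1 + n2) + (A1 - 1 + n2) ∧ B2 + B2 + B2 ≤ (A1 - 1 + n2) + (A1 - 1 + n2) + (B2 - 1) ∧ B2 + B2 + B2 ≤ (A1 - 1 + n2) + (B2 - 1) + (A1 - 1 + n2) ∧ B2 + B2 + B2 ≤ (A1 - 1 + n2) + (B2 - 1) + (B2 - 1) ∧ B2 + B2 + B2 ≤ (B2 - 1) + (A1 - 1 + n2) + (A1 - 1 + n2) ∧ B2 + B2 + B2 ≤ (B2 - 1) + (A1 - 1 + n2) + (B2 - 1) ∧ B2 + B2 + B2 ≤ (B2 - 1) + (B2 - 1) + (A1 - 1 + n2) ∧ B2 + B2 + B2 ≤ (B2 - 1) + (B2 - 1) + (B2 - 1) ∧ B3 + B3 + B3 ≤ (A1 - 1 + n2 + n3) + (A1 - 1 + n2 + n3) + (A1 - 1 + n2 + n3)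 ∧ B3 + B3 + B3 ≤ (A1 - 1 + n2 + n3) + (A1 - 1 + n2 + n3) + (B2 - 1 + n3) ∧ B3 + B3 + B3 ≤ (A1 - 1 + n2 + n3) + (B2 - 1 + n3) + (A1 - 1 + n2 + n3) ∧ B3 + B3 + B3 ≤ (A1 - 1 + n2 + n3) + (B2 - 1 + n3) + (B2 - 1 + n3) ∧ B3 + B3 + B3 ≤ (B2 - 1 + n3) + (A1 - 1 + n2 + n3) + (A1 - 1 + n2 + n3) ∧ B3 + B3 + B3 ≤ (B2 - 1 + n3) + (A1 - 1 + n2 + n3) + (B2 - 1 + n3) ∧ B3 + B3 + B3 ≤ (B2 - 1 + n3) + (B2 - 1 + n3) + (A1 - 1 + n2 + n3) ∧ B3 + B3 + B3 ≤ (B2 - 1 + n3) + (B2 - 1 + n3) + (B2 - 1 + n3))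
    : False := by
  omega

theorem P2_BBB_M12_M12_M13 (n1 n2 n3 A1 A2 A3 B1 B2 B3 : ℤ)
    (hb : Base n1 n2 n3 A1 A2 A3 B1 B2 B3)
    (hp : B1 < A1 ∧ A2 < B2 ∧ A3 ≤ B3)
    (he : 1 ≤ A1)
    (hs : B1 + B1 + B1 ≤ (A1 - 1) + (A1 - 1) + (A1 - 1) ∧ B2 + B2 + B2 ≤ (A1 - 1 + n2) + (A1 - 1 + n2) + (A1 - 1 + n2) ∧ B2 + B2 + B2 ≤ (A1 - 1 + n2) + (A1 - 1 + n2) + (B3 - 1) ∧ B2 + B2 + B2 ≤ (A1 - 1 + n2) + (B2 - 1) + (A1 - 1 + n2) ∧ B2 + B2 + B2 ≤ (A1 - 1 + n2) + (B2 - 1) + (B3 - 1) ∧ B2 + B2 + B2 ≤ (B2 - 1) + (A1 - 1 + n2) + (A1 - 1 + n2) ∧ B2 + B2 + B2 ≤ (B2 - 1) + (A1 - 1 + n2) + (B3 - 1) ∧ B2 + B2 + B2 ≤ (B2 - 1) + (B2 - 1) + (A1 - 1 + n2) ∧ B2 + B2 + B2 ≤ (B2 - 1) + (B2 - 1) +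 (B3 - 1) ∧ B3 + B3 + B3 ≤ (A1 - 1 + n2 + n3) + (A1 - 1 + n2 + n3) + (A1 - 1 + n2 + n3) ∧ B3 + B3 + B3 ≤ (A1 - 1 + n2 + n3) + (A1 - 1 + n2 + n3) + (B3 - 1) ∧ B3 + B3 + B3 ≤ (A1 - 1 + n2 + n3) + (B2 - 1 + n3) + (A1 - 1 + n2 + n3) ∧ B3 + B3 + B3 ≤ (A1 - 1 + n2 + n3) + (B2 - 1 + n3) + (B3 - 1) ∧ B3 + B3 + B3 ≤ (B2 - 1 + n3) + (A1 - 1 + n2 + n3) + (A1 - 1 + n2 + n3) ∧ B3 + B3 + B3 ≤ (B2 - 1 + n3) + (A1 - 1 + n2 + n3) + (B3 - 1) ∧ B3 + B3 + B3 ≤ (B2 - 1 + n3) + (B2 - 1 + n3) + (A1 - 1 + n2 + n3) ∧ B3 + B3 + B3 ≤ (B2 - 1 + n3) + (B2 - 1 + n3) + (B3 - 1))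
    (h0 : (A1 ≤ 0 ∨ A1 ≤ 0 ∨ (A1 - 1) + (A1 - 1) < B1 + B1 ∨ (min (A1 - 1 + n2) (B2 - 1)) + (min (A1 - 1 + n2) (B3 - 1)) < B2 + B2 ∨ (min (A1 - 1 + n2 + n3) (B2 - 1 + n3)) + (min (A1 - 1 + n2 + n3) (B3 - 1)) < B3 + B3))
    : False := by
  omega

theorem P2_BBB_M12_M13_M13 (n1 n2 n3 A1 A2 A3 B1 B2 B3 : ℤ)
    (hb : Base n1 n2 n3 A1 A2 A3 B1 B2 B3)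
    (hp : B1 < A1 ∧ A2 < B2 ∧ A3 ≤ B3)
    (he : 1 ≤ A1)
    (hs : B1 + B1 + B1 ≤ (A1 - 1) + (A1 - 1) + (A1 - 1) ∧ B2 + B2 + B2 ≤ (A1 - 1 + n2) + (A1 - 1 + n2) + (A1 - 1 + n2) ∧ B2 + B2 + B2 ≤ (A1 - 1 + n2) + (A1 - 1 + n2) + (B3 - 1) ∧ B2 + B2 + B2 ≤ (A1 - 1 + n2) + (B3 - 1) + (A1 - 1 + n2) ∧ B2 + B2 + B2 ≤ (A1 - 1 + n2) + (B3 - 1) + (B3 - 1) ∧ B2 + B2 + B2 ≤ (B2 - 1) + (A1 - 1 + n2) + (A1 - 1 + n2) ∧ B2 + B2 + B2 ≤ (B2 - 1) + (A1 - 1 + n2) + (B3 - 1) ∧ B2 + B2 + B2 ≤ (B2 - 1) + (B3 - 1) + (A1 - 1 + n2) ∧ B2 + B2 + B2 ≤ (B2 - 1) + (B3 - 1) + (B3 - 1) ∧ B3 + B3 + B3 ≤ (A1 - 1 + n2 + n3) + (A1 - 1 + n2 + n3) + (A1 - 1 + n2 + n3) ∧ B3 + B3 + B3 ≤ (A1 - 1 + n2 + n3) + (A1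 - 1 + n2 + n3) + (B3 - 1) ∧ B3 + B3 + B3 ≤ (A1 - 1 + n2 + n3) + (B3 - 1) + (A1 - 1 + n2 + n3) ∧ B3 + B3 + B3 ≤ (A1 - 1 + n2 + n3) + (B3 - 1) + (B3 - 1) ∧ B3 + B3 + B3 ≤ (B2 - 1 + n3) + (A1 - 1 + n2 + n3) + (A1 - 1 + n2 + n3) ∧ B3 + B3 + B3 ≤ (B2 - 1 + n3) + (A1 - 1 + n2 + n3) + (B3 - 1) ∧ B3 + B3 + B3 ≤ (B2 - 1 + n3) + (B3 - 1) + (A1 - 1 + n2 + n3) ∧ B3 + B3 + B3 ≤ (B2 - 1 + n3) + (B3 - 1) + (B3 - 1))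
    (h0 : (A1 ≤ 0 ∨ A1 ≤ 0 ∨ (A1 - 1) + (A1 - 1) < B1 + B1 ∨ (min (A1 - 1 + n2) (B2 - 1)) + (min (A1 - 1 + n2) (B3 - 1)) < B2 + B2 ∨ (min (A1 - 1 + n2 + n3) (B2 - 1 + n3)) + (min (A1 - 1 + n2 + n3) (B3 - 1)) < B3 + B3))
    : False := by
  omega

theorem P2_BBB_M13_M13_M13 (n1 n2 n3 A1 A2 A3 B1 B2 B3 : ℤ)
    (hb : Base n1 n2 n3 A1 A2 A3 B1 B2 B3)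
    (hp : B1 < A1 ∧ A2 < B2 ∧ A3 ≤ B3)
    (he : 1 ≤ A1)
    (hs : B1 + B1 + B1 ≤ (A1 - 1) + (A1 - 1) + (A1 - 1) ∧ B2 + B2 + B2 ≤ (A1 - 1 + n2) + (A1 - 1 + n2) + (A1 - 1 + n2) ∧ B2 + B2 + B2 ≤ (A1 - 1 + n2) + (A1 - 1 + n2) + (B3 - 1) ∧ B2 + B2 + B2 ≤ (A1 - 1 + n2) + (B3 - 1) + (A1 - 1 + n2) ∧ B2 + B2 + B2 ≤ (A1 - 1 + n2) + (B3 - 1) + (B3 - 1) ∧ B2 + B2 + B2 ≤ (B3 - 1) + (A1 - 1 + n2) + (A1 - 1 + n2) ∧ B2 + B2 + B2 ≤ (B3 - 1) + (A1 - 1 + n2) + (B3 - 1) ∧ B2 + B2 + B2 ≤ (B3 - 1) + (B3 - 1) + (A1 - 1 + n2) ∧ B2 + B2 + B2 ≤ (B3 - 1) + (B3 - 1) + (B3 - 1) ∧ B3 + B3 + B3 ≤ (A1 - 1 + n2 + n3) + (A1 - 1 + n2 + n3) + (A1 - 1 + n2 + n3) ∧ B3 + B3 + B3 ≤ (A1 - 1 + n2 + n3) + (A1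 - 1 + n2 + n3) + (B3 - 1) ∧ B3 + B3 + B3 ≤ (A1 - 1 + n2 + n3) + (B3 - 1) + (A1 - 1 + n2 + n3) ∧ B3 + B3 + B3 ≤ (A1 - 1 + n2 + n3) + (B3 - 1) + (B3 - 1) ∧ B3 + B3 + B3 ≤ (B3 - 1) + (A1 - 1 + n2 + n3) + (A1 - 1 + n2 + n3) ∧ B3 + B3 + B3 ≤ (B3 - 1) + (A1 - 1 + n2 + n3) + (B3 - 1) ∧ B3 + B3 + B3 ≤ (B3 - 1) + (B3 - 1) + (A1 - 1 + n2 + n3) ∧ B3 + B3 + B3 ≤ (B3 - 1) + (B3 - 1) + (B3 - 1))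
    : False := by
  omega

theorem P2_BBB_S1_M12_M12 (n1 n2 n3 A1 A2 A3 B1 B2 B3 : ℤ)
    (hb : Base n1 n2 n3 A1 A2 A3 B1 B2 B3)
    (hp : B1 < A1 ∧ A2 < B2 ∧ A3 ≤ B3)
    (he : 1 ≤ A1 ∧ 1 ≤ B1)
    (hs : B1 + B1 + B1 ≤ (B1 - 1) + (A1 - 1) + (A1 - 1) ∧ B2 + B2 + B2 ≤ (B1 - 1 + n2) + (A1 - 1 + n2) + (A1 - 1 + n2) ∧ B2 + B2 + B2 ≤ (B1 - 1 + n2) + (A1 - 1 + n2) + (B2 - 1) ∧ B2 + B2 + B2 ≤ (B1 - 1 + n2) + (B2 - 1) + (A1 - 1 + n2) ∧ B2 + B2 + B2 ≤ (B1 - 1 + n2) + (B2 - 1) + (B2 - 1) ∧ B3 + B3 + B3 ≤ (B1 - 1 + n2 + n3) + (A1 - 1 + n2 + n3) + (A1 - 1 + n2 + n3) ∧ B3 + B3 + B3 ≤ (B1 - 1 + n2 + n3) + (A1 - 1 + n2 + n3) + (B2 - 1 + n3) ∧ B3 + B3 + B3 ≤ (B1 - 1 + n2 + n3) + (B2 -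 1 + n3) + (A1 - 1 + n2 + n3) ∧ B3 + B3 + B3 ≤ (B1 - 1 + n2 + n3) + (B2 - 1 + n3) + (B2 - 1 + n3))
    (h0 : (B1 ≤ 0 ∨ A1 ≤ 0 ∨ (B1 - 1) + (A1 - 1) < B1 + B1 ∨ (B1 - 1 + n2) + (min (A1 - 1 + n2) (B2 - 1)) < B2 + B2 ∨ (B1 - 1 + n2 + n3) + (min (A1 - 1 + n2 + n3) (B2 - 1 + n3)) < B3 + B3))
    : False := by
  omega

theorem P2_BBB_S1_M12_M13 (n1 n2 n3 A1 A2 A3 B1 B2 B3 : ℤ)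
    (hb : Base n1 n2 n3 A1 A2 A3 B1 B2 B3)
    (hp : B1 < A1 ∧ A2 < B2 ∧ A3 ≤ B3)
    (he : 1 ≤ A1 ∧ 1 ≤ B1)
    (hs : B1 + B1 + B1 ≤ (B1 - 1) + (A1 - 1) + (A1 - 1) ∧ B2 + B2 + B2 ≤ (B1 - 1 + n2) + (A1 - 1 + n2) + (A1 - 1 + n2) ∧ B2 + B2 + B2 ≤ (B1 - 1 + n2) + (A1 - 1 + n2) + (B3 - 1) ∧ B2 + B2 + B2 ≤ (B1 - 1 + n2) + (B2 - 1) + (A1 - 1 + n2) ∧ B2 + B2 + B2 ≤ (B1 - 1 + n2) + (B2 - 1) + (B3 - 1) ∧ B3 + B3 + B3 ≤ (B1 - 1 + n2 + n3) + (A1 - 1 + n2 + n3) + (A1 - 1 + n2 + n3) ∧ B3 + B3 + B3 ≤ (B1 - 1 + n2 + n3) + (A1 - 1 + n2 + n3) + (B3 - 1) ∧ B3 + B3 + B3 ≤ (B1 - 1 + n2 + n3) + (B2 - 1 + n3) + (A1 - 1 + n2 + n3) ∧ B3 + B3 + B3 ≤ (B1 - 1 + n2 + n3) + (B2 - 1 + n3) + (B3 - 1))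
    (h0 : (B1 ≤ 0 ∨ A1 ≤ 0 ∨ (B1 - 1) + (A1 - 1) < B1 + B1 ∨ (B1 - 1 + n2) + (min (A1 - 1 + n2) (B3 - 1)) < B2 + B2 ∨ (B1 - 1 + n2 + n3) + (min (A1 - 1 + n2 + n3) (B3 - 1)) < B3 + B3))
    : False := by
  omega

theorem P2_BBB_S1_M13_M13 (n1 n2 n3 A1 A2 A3 B1 B2 B3 : ℤ)
    (hb : Base n1 n2 n3 A1 A2 A3 B1 B2 B3)
    (hp : B1 < A1 ∧ A2 < B2 ∧ A3 ≤ B3)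
    (he : 1 ≤ A1 ∧ 1 ≤ B1)
    (hs : B1 + B1 + B1 ≤ (B1 - 1) + (A1 - 1) + (A1 - 1) ∧ B2 + B2 + B2 ≤ (B1 - 1 + n2) + (A1 - 1 + n2) + (A1 - 1 + n2) ∧ B2 + B2 + B2 ≤ (B1 - 1 + n2) + (A1 - 1 + n2) + (B3 - 1) ∧ B2 + B2 + B2 ≤ (B1 - 1 + n2) + (B3 - 1) + (A1 - 1 + n2) ∧ B2 + B2 + B2 ≤ (B1 - 1 + n2) + (B3 - 1) + (B3 - 1) ∧ B3 + B3 + B3 ≤ (B1 - 1 + n2 + n3) + (A1 - 1 + n2 + n3) + (A1 - 1 + n2 + n3) ∧ B3 + B3 + B3 ≤ (B1 - 1 + n2 + n3) + (A1 - 1 + n2 + n3) + (B3 - 1) ∧ B3 + B3 + B3 ≤ (B1 - 1 + n2 + n3) + (B3 - 1) + (A1 - 1 + n2 + n3) ∧ B3 + B3 + B3 ≤ (B1 - 1 + n2 + n3) + (B3 - 1) + (B3 - 1))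
    (h0 : (B1 ≤ 0 ∨ A1 ≤ 0 ∨ (B1 - 1) + (A1 - 1) < B1 + B1 ∨ (B1 - 1 + n2) + (min (A1 - 1 + n2) (B3 - 1)) < B2 + B2 ∨ (B1 - 1 + n2 + n3) + (min (A1 - 1 + n2 + n3) (B3 - 1)) < B3 + B3))
    : False := by
  omega

theorem P2_BBB_S1_S1_M12 (n1 n2 n3 A1 A2 A3 B1 B2 B3 : ℤ)
    (hb : Base n1 n2 n3 A1 A2 A3 B1 B2 B3)
    (hp : B1 < A1 ∧ A2 < B2 ∧ A3 ≤ B3)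
    (he : 1 ≤ A1 ∧ 1 ≤ B1)
    (hs : B1 + B1 + B1 ≤ (B1 - 1) + (B1 - 1) + (A1 - 1) ∧ B2 + B2 + B2 ≤ (B1 - 1 + n2) + (B1 - 1 + n2) + (A1 - 1 + n2) ∧ B2 + B2 + B2 ≤ (B1 - 1 + n2) + (B1 - 1 + n2) + (B2 - 1) ∧ B3 + B3 + B3 ≤ (B1 - 1 + n2 + n3) + (B1 - 1 + n2 + n3) + (A1 - 1 + n2 + n3) ∧ B3 + B3 + B3 ≤ (B1 - 1 + n2 + n3) + (B1 - 1 + n2 + n3) + (B2 - 1 + n3))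
    (h0 : (B1 ≤ 0 ∨ A1 ≤ 0 ∨ (B1 - 1) + (A1 - 1) < B1 + B1 ∨ (B1 - 1 + n2) + (min (A1 - 1 + n2) (B2 - 1)) < B2 + B2 ∨ (B1 - 1 + n2 + n3) + (min (A1 - 1 + n2 + n3) (B2 - 1 + n3)) < B3 + B3))
    : False := by
  omega

theorem P2_BBB_S1_S1_M13 (n1 n2 n3 A1 A2 A3 B1 B2 B3 : ℤ)
    (hb : Base n1 n2 n3 A1 A2 A3 B1 B2 B3)
    (hp : B1 < A1 ∧ A2 < B2 ∧ A3 ≤ B3)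
    (he : 1 ≤ A1 ∧ 1 ≤ B1)
    (hs : B1 + B1 + B1 ≤ (B1 - 1) + (B1 - 1) + (A1 - 1) ∧ B2 + B2 + B2 ≤ (B1 - 1 + n2) + (B1 - 1 + n2) + (A1 - 1 + n2) ∧ B2 + B2 + B2 ≤ (B1 - 1 + n2) + (B1 - 1 + n2) + (B3 - 1) ∧ B3 + B3 + B3 ≤ (B1 - 1 + n2 + n3) + (B1 - 1 + n2 + n3) + (A1 - 1 + n2 + n3) ∧ B3 + B3 + B3 ≤ (B1 - 1 + n2 + n3) + (B1 - 1 + n2 + n3) + (B3 - 1))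
    (h0 : (B1 ≤ 0 ∨ A1 ≤ 0 ∨ (B1 - 1) + (A1 - 1) < B1 + B1 ∨ (B1 - 1 + n2) + (min (A1 - 1 + n2) (B3 - 1)) < B2 + B2 ∨ (B1 - 1 + n2 + n3) + (min (A1 - 1 + n2 + n3) (B3 - 1)) < B3 + B3))
    : False := by
  omega

theorem P2_BBB_S1_S1_S1 (n1 n2 n3 A1 A2 A3 B1 B2 B3 : ℤ)
    (hb : Base n1 n2 n3 A1 A2 A3 B1 B2 B3)
    (hp : B1 < A1 ∧ A2 < B2 ∧ A3 ≤ B3)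
    (he : 1 ≤ B1)
    (hs : B1 + B1 + B1 ≤ (B1 - 1) + (B1 - 1) + (B1 - 1) ∧ B2 + B2 + B2 ≤ (B1 - 1 + n2) + (B1 - 1 + n2) + (B1 - 1 + n2) ∧ B3 + B3 + B3 ≤ (B1 - 1 + n2 + n3) + (B1 - 1 + n2 + n3) + (B1 - 1 + n2 + n3))
    : False := by
  omega

theorem P2_BBB_S1_S1_S2 (n1 n2 n3 A1 A2 A3 B1 B2 B3 : ℤ)
    (hb : Base n1 n2 n3 A1 A2 A3 B1 B2 B3)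
    (hp : B1 < A1 ∧ A2 < B2 ∧ A3 ≤ B3)
    (he : 1 ≤ A2 ∧ 1 ≤ B1)
    (hs : B1 + B1 + B1 ≤ (B1 - 1) + (B1 - 1) + n1 ∧ B1 + B1 + B1 ≤ (B1 - 1) + (B1 - 1) + (A2 - 1) ∧ B2 + B2 + B2 ≤ (B1 - 1 + n2) + (B1 - 1 + n2) + (A2 - 1) ∧ B3 + B3 + B3 ≤ (B1 - 1 + n2 + n3) + (B1 - 1 + n2 + n3) + (A2 - 1 + n3))
    (h0 : (B1 ≤ 0 ∨ A2 ≤ 0 ∨ (B1 - 1) + (min n1 (A2 - 1)) < A1 + B1 ∨ (B1 - 1 + n2) + (A2 - 1) < A2 + B2 ∨ (B1 - 1 + n2 + n3) + (A2 - 1 + n3) < A3 + B3))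
    (h1 : (B1 ≤ 0 ∨ A1 ≤ 0 ∨ (B1 - 1) + (A1 - 1) < B1 + B1 ∨ (B1 - 1 + n2) + (min (A1 - 1 + n2) (B2 - 1)) < B2 + B2 ∨ (B1 - 1 + n2 + n3) + (min (A1 - 1 + n2 + n3) (B2 - 1 + n3)) < B3 + B3))
    : False := by
  omega

theorem P2_BBB_S1_S1_S3 (n1 n2 n3 A1 A2 A3 B1 B2 B3 : ℤ)
    (hb : Base n1 n2 n3 A1 A2 A3 B1 B2 B3)
    (hp : B1 < A1 ∧ A2 < B2 ∧ A3 ≤ B3)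
    (he : 1 ≤ A3 ∧ 1 ≤ B1)
    (hs : B1 + B1 + B1 ≤ (B1 - 1) + (B1 - 1) + n1 ∧ B1 + B1 + B1 ≤ (B1 - 1) + (B1 - 1) + (A3 - 1) ∧ B2 + B2 + B2 ≤ (B1 - 1 + n2) + (B1 - 1 + n2) + (n1 + n2) ∧ B2 + B2 + B2 ≤ (B1 - 1 + n2) + (B1 - 1 + n2) + (A3 - 1) ∧ B3 + B3 + B3 ≤ (B1 - 1 + n2 + n3) + (B1 - 1 + n2 + n3) + (A3 - 1))
    (h0 : (B1 ≤ 0 ∨ A3 ≤ 0 ∨ (B1 - 1) + (min n1 (A3 - 1)) < A1 + B1 ∨ (B1 - 1 + n2) + (min (n1 + n2) (A3 - 1)) < A2 + B2 ∨ (B1 - 1 + n2 + n3) + (A3 - 1) < A3 + B3))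
    (h1 : (B1 ≤ 0 ∨ A1 ≤ 0 ∨ (B1 - 1) + (A1 - 1) < B1 + B1 ∨ (B1 - 1 + n2) + (min (A1 - 1 + n2) (B3 - 1)) < B2 + B2 ∨ (B1 - 1 + n2 + n3) + (min (A1 - 1 + n2 + n3) (B3 - 1)) < B3 + B3))
    : False := by
  omega

theorem P2_BBB_S1_S2_M12 (n1 n2 n3 A1 A2 A3 B1 B2 B3 : ℤ)
    (hb : Base n1 n2 n3 A1 A2 A3 B1 B2 B3)
    (hp : B1 < A1 ∧ A2 < B2 ∧ A3 ≤ B3)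
    (he : 1 ≤ A1 ∧ 1 ≤ A2 ∧ 1 ≤ B1)
    (hs : B1 + B1 + B1 ≤ (B1 - 1) + n1 + (A1 - 1) ∧ B1 + B1 + B1 ≤ (B1 - 1) + (A2 - 1) + (A1 - 1) ∧ B2 + B2 + B2 ≤ (B1 - 1 + n2) + (A2 - 1) + (A1 - 1 + n2) ∧ B2 + B2 + B2 ≤ (B1 - 1 + n2) + (A2 - 1) + (B2 - 1) ∧ B3 + B3 + B3 ≤ (B1 - 1 + n2 + n3) + (A2 - 1 + n3) + (A1 - 1 + n2 + n3) ∧ B3 + B3 + B3 ≤ (B1 - 1 + n2 + n3) + (A2 - 1 + n3) + (B2 - 1 + n3))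
    (h0 : (B1 ≤ 0 ∨ A2 ≤ 0 ∨ (B1 - 1) + (min n1 (A2 - 1)) < B1 + B1 ∨ (B1 - 1 + n2) + (A2 - 1) < B2 + B2 ∨ (B1 - 1 + n2 + n3) + (A2 - 1 + n3) < B3 + B3))
    : False := by
  omega

theorem P2_BBB_S1_S2_M13 (n1 n2 n3 A1 A2 A3 B1 B2 B3 : ℤ)
    (hb : Base n1 n2 n3 A1 A2 A3 B1 B2 B3)
    (hp : B1 < A1 ∧ A2 < B2 ∧ A3 ≤ B3)
    (he : 1 ≤ A1 ∧ 1 ≤ A2 ∧ 1 ≤ B1)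
    (hs : B1 + B1 + B1 ≤ (B1 - 1) + n1 + (A1 - 1) ∧ B1 + B1 + B1 ≤ (B1 - 1) + (A2 - 1) + (A1 - 1) ∧ B2 + B2 + B2 ≤ (B1 - 1 + n2) + (A2 - 1) + (A1 - 1 + n2) ∧ B2 + B2 + B2 ≤ (B1 - 1 + n2) + (A2 - 1) + (B3 - 1) ∧ B3 + B3 + B3 ≤ (B1 - 1 + n2 + n3) + (A2 - 1 + n3) + (A1 - 1 + n2 + n3) ∧ B3 + B3 + B3 ≤ (B1 - 1 + n2 + n3) + (A2 - 1 + n3) + (B3 - 1))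
    (h0 : (A2 ≤ 0 ∨ A1 ≤ 0 ∨ (min n1 (A2 - 1)) + (A1 - 1) < A1 + B1 ∨ (A2 - 1) + (min (A1 - 1 + n2) (B3 - 1)) < A2 + B2 ∨ (A2 - 1 + n3) + (min (A1 - 1 + n2 + n3) (B3 - 1)) < A3 + B3))
    (h1 : (B1 ≤ 0 ∨ A3 ≤ 0 ∨ (B1 - 1) + (min n1 (A3 - 1)) < B1 + B1 ∨ (B1 - 1 + n2) + (min (n1 + n2) (A3 - 1)) < B2 + B2 ∨ (B1 - 1 + n2 + n3) + (A3 - 1) < B3 + B3))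
    : False := by
  omega

theorem P2_BBB_S1_S2_S2 (n1 n2 n3 A1 A2 A3 B1 B2 B3 : ℤ)
    (hb : Base n1 n2 n3 A1 A2 A3 B1 B2 B3)
    (hp : B1 < A1 ∧ A2 < B2 ∧ A3 ≤ B3)
    (he : 1 ≤ A2 ∧ 1 ≤ B1)
    (hs : B1 + B1 + B1 ≤ (B1 - 1) + n1 + n1 ∧ B1 + B1 + B1 ≤ (B1 - 1) + n1 + (A2 - 1) ∧ B1 + B1 + B1 ≤ (B1 - 1) + (A2 - 1) + n1 ∧ B1 + B1 + B1 ≤ (B1 - 1) + (A2 - 1) + (A2 - 1) ∧ B2 + B2 + B2 ≤ (B1 - 1 + n2) + (A2 - 1) + (A2 - 1) ∧ B3 + B3 + B3 ≤ (B1 - 1 + n2 + n3) + (A2 - 1 + n3) + (A2 - 1 + n3))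
    (h0 : (B1 ≤ 0 ∨ A2 ≤ 0 ∨ (B1 - 1) + (min n1 (A2 - 1)) < B1 + B1 ∨ (B1 - 1 + n2) + (A2 - 1) < B2 + B2 ∨ (B1 - 1 + n2 + n3) + (A2 - 1 + n3) < B3 + B3))
    : False := by
  omega

theorem P2_BBB_S1_S2_S3 (n1 n2 n3 A1 A2 A3 B1 B2 B3 : ℤ)
    (hb : Base n1 n2 n3 A1 A2 A3 B1 B2 B3)
    (hp : B1 < A1 ∧ A2 < B2 ∧ A3 ≤ B3)
    (he : 1 ≤ A2 ∧ 1 ≤ A3 ∧ 1 ≤ B1)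
    (hs : B1 + B1 + B1 ≤ (B1 - 1) + n1 + n1 ∧ B1 + B1 + B1 ≤ (B1 - 1) + n1 + (A3 - 1) ∧ B1 + B1 + B1 ≤ (B1 - 1) + (A2 - 1) + n1 ∧ B1 + B1 + B1 ≤ (B1 - 1) + (A2 - 1) + (A3 - 1) ∧ B2 + B2 + B2 ≤ (B1 - 1 + n2) + (A2 - 1) + (n1 + n2) ∧ B2 + B2 + B2 ≤ (B1 - 1 + n2) + (A2 - 1) + (A3 - 1) ∧ B3 + B3 + B3 ≤ (B1 - 1 + n2 + n3) + (A2 - 1 + n3) + (A3 - 1))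
    (h0 : (B1 ≤ 0 ∨ A3 ≤ 0 ∨ (B1 - 1) + (min n1 (A3 - 1)) < B1 + B1 ∨ (B1 - 1 + n2) + (min (n1 + n2) (A3 - 1)) < B2 + B2 ∨ (B1 - 1 + n2 + n3) + (A3 - 1) < B3 + B3))
    (h1 : (A2 ≤ 0 ∨ A1 ≤ 0 ∨ (min n1 (A2 - 1)) + (A1 - 1) < B1 + B1 ∨ (A2 - 1) + (min (A1 - 1 + n2) (B3 - 1)) < B2 + B2 ∨ (A2 - 1 + n3) + (min (A1 - 1 + n2 + n3) (B3 - 1)) < B3 + B3))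
    (h2 : (A2 ≤ 0 ∨ A3 ≤ 0 ∨ (min n1 (A2 - 1)) + (min n1 (A3 - 1)) < A1 + B1 ∨ (A2 - 1) + (min (n1 + n2) (A3 - 1)) < A2 + B2 ∨ (A2 - 1 + n3) + (A3 - 1) < A3 + B3))
    : False := by
  omega

theorem P2_BBB_S1_S3_M12 (n1 n2 n3 A1 A2 A3 B1 B2 B3 : ℤ)
    (hb : Base n1 n2 n3 A1 A2 A3 B1 B2 B3)
    (hp : B1 < A1 ∧ A2 < B2 ∧ A3 ≤ B3)
    (he : 1 ≤ A1 ∧ 1 ≤ A3 ∧ 1 ≤ B1)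
    (hs : B1 + B1 + B1 ≤ (B1 - 1) + n1 + (A1 - 1) ∧ B1 + B1 + B1 ≤ (B1 - 1) + (A3 - 1) + (A1 - 1) ∧ B2 + B2 + B2 ≤ (B1 - 1 + n2) + (n1 + n2) + (A1 - 1 + n2) ∧ B2 + B2 + B2 ≤ (B1 - 1 + n2) + (n1 + n2) + (B2 - 1) ∧ B2 + B2 + B2 ≤ (B1 - 1 + n2) + (A3 - 1) + (A1 - 1 + n2) ∧ B2 + B2 + B2 ≤ (B1 - 1 + n2) + (A3 - 1) + (B2 - 1) ∧ B3 + B3 + B3 ≤ (B1 - 1 + n2 + n3) + (A3 - 1) + (A1 - 1 + n2 + n3) ∧ B3 + B3 + B3 ≤ (B1 - 1 + n2 + n3) + (A3 - 1) + (B2 - 1 + n3))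
    (h0 : (B1 ≤ 0 ∨ A3 ≤ 0 ∨ (B1 - 1) + (min n1 (A3 - 1)) < B1 + B1 ∨ (B1 - 1 + n2) + (min (n1 + n2) (A3 - 1)) < B2 + B2 ∨ (B1 - 1 + n2 + n3) + (A3 - 1) < B3 + B3))
    (h1 : (A1 ≤ 0 ∨ A1 ≤ 0 ∨ (A1 - 1) + (A1 - 1) < B1 + B1 ∨ (min (A1 - 1 + n2) (B2 - 1)) + (min (A1 - 1 + n2) (B3 - 1)) < B2 + B2 ∨ (min (A1 - 1 + n2 + n3) (B2 - 1 + n3)) + (min (A1 - 1 + n2 + n3) (B3 - 1)) < B3 + B3))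
    (h2 : (A3 ≤ 0 ∨ A1 ≤ 0 ∨ (min n1 (A3 - 1)) + (A1 - 1) < A1 + A1 ∨ (min (n1 + n2) (A3 - 1)) + (min (A1 - 1 + n2) (B2 - 1)) < A2 + A2 ∨ (A3 - 1) + (min (A1 - 1 + n2 + n3) (B2 - 1 + n3)) < A3 + A3))
    : False := by
  omega

theorem P2_BBB_S1_S3_M13 (n1 n2 n3 A1 A2 A3 B1 B2 B3 : ℤ)
    (hb : Base n1 n2 n3 A1 A2 A3 B1 B2 B3)
    (hp : B1 < A1 ∧ A2 < B2 ∧ A3 ≤ B3)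
    (he : 1 ≤ A1 ∧ 1 ≤ A3 ∧ 1 ≤ B1)
    (hs : B1 + B1 + B1 ≤ (B1 - 1) + n1 + (A1 - 1) ∧ B1 + B1 + B1 ≤ (B1 - 1) + (A3 - 1) + (A1 - 1) ∧ B2 + B2 + B2 ≤ (B1 - 1 + n2) + (n1 + n2) + (A1 - 1 + n2) ∧ B2 + B2 + B2 ≤ (B1 - 1 + n2) + (n1 + n2) + (B3 - 1) ∧ B2 + B2 + B2 ≤ (B1 - 1 + n2) + (A3 - 1) + (A1 - 1 + n2) ∧ B2 + B2 + B2 ≤ (B1 - 1 + n2) + (A3 - 1) + (B3 - 1) ∧ B3 + B3 + B3 ≤ (B1 - 1 + n2 + n3) + (A3 - 1) + (A1 - 1 + n2 + n3) ∧ B3 + B3 + B3 ≤ (B1 - 1 + n2 + n3) + (A3 - 1) + (B3 - 1))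
    (h0 : (B1 ≤ 0 ∨ A3 ≤ 0 ∨ (B1 - 1) + (min n1 (A3 - 1)) < B1 + B1 ∨ (B1 - 1 + n2) + (min (n1 + n2) (A3 - 1)) < B2 + B2 ∨ (B1 - 1 + n2 + n3) + (A3 - 1) < B3 + B3))
    (h1 : (A1 ≤ 0 ∨ A1 ≤ 0 ∨ (A1 - 1) + (A1 - 1) < B1 + B1 ∨ (min (A1 - 1 + n2) (B2 - 1)) + (min (A1 - 1 + n2) (B3 - 1)) < B2 + B2 ∨ (min (A1 - 1 + n2 + n3) (B2 - 1 + n3)) + (min (A1 - 1 + n2 + n3) (B3 - 1)) < B3 + B3))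
    : False := by
  omega

theorem P2_BBB_S1_S3_S3 (n1 n2 n3 A1 A2 A3 B1 B2 B3 : ℤ)
    (hb : Base n1 n2 n3 A1 A2 A3 B1 B2 B3)
    (hp : B1 < A1 ∧ A2 < B2 ∧ A3 ≤ B3)
    (he : 1 ≤ A3 ∧ 1 ≤ B1)
    (hs : B1 + B1 + B1 ≤ (B1 - 1) + n1 + n1 ∧ B1 + B1 + B1 ≤ (B1 - 1) + n1 + (A3 - 1) ∧ B1 + B1 + B1 ≤ (B1 - 1) + (A3 - 1) + n1 ∧ B1 + B1 + B1 ≤ (B1 - 1) + (A3 - 1) + (A3 - 1) ∧ B2 + B2 + B2 ≤ (B1 - 1 + n2) + (n1 + n2) + (n1 + n2) ∧ B2 + B2 + B2 ≤ (B1 - 1 + n2) + (n1 + n2) + (A3 - 1) ∧ B2 + B2 + B2 ≤ (B1 - 1 + n2) + (A3 - 1) + (n1 + n2) ∧ B2 + B2 + B2 ≤ (B1 - 1 + n2) + (A3 - 1) + (A3 - 1) ∧ B3 + B3 + B3 ≤ (B1 - 1 + n2 + n3) + (A3 - 1) + (A3 - 1))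
    (h0 : (B1 ≤ 0 ∨ A3 ≤ 0 ∨ (B1 - 1) + (min n1 (A3 - 1)) < B1 + B1 ∨ (B1 - 1 + n2) + (min (n1 + n2) (A3 - 1)) < B2 + B2 ∨ (B1 - 1 + n2 + n3) + (A3 - 1) < B3 + B3))
    : False := by
  omega

theorem P2_BBB_S2_M12_M12 (n1 n2 n3 A1 A2 A3 B1 B2 B3 : ℤ)
    (hb : Base n1 n2 n3 A1 A2 A3 B1 B2 B3)
    (hp : B1 < A1 ∧ A2 < B2 ∧ A3 ≤ B3)
    (he : 1 ≤ A1 ∧ 1 ≤ A2)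
    (hs : B1 + B1 + B1 ≤ n1 + (A1 - 1) + (A1 - 1) ∧ B1 + B1 + B1 ≤ (A2 - 1) + (A1 - 1) + (A1 - 1) ∧ B2 + B2 + B2 ≤ (A2 - 1) + (A1 - 1 + n2) + (A1 - 1 + n2) ∧ B2 + B2 + B2 ≤ (A2 - 1) + (A1 - 1 + n2) + (B2 - 1) ∧ B2 + B2 + B2 ≤ (A2 - 1) + (B2 - 1) + (A1 - 1 + n2) ∧ B2 + B2 + B2 ≤ (A2 - 1) + (B2 - 1) + (B2 - 1) ∧ B3 + B3 + B3 ≤ (A2 - 1 + n3) + (A1 - 1 + n2 + n3) + (A1 - 1 + n2 + n3) ∧ B3 + B3 + B3 ≤ (A2 - 1 + n3) + (A1 - 1 + n2 + n3) + (B2 - 1 + n3) ∧ B3 + B3 + B3 ≤ (A2 - 1 + n3) + (B2 - 1 + n3) + (A1 - 1 + n2 + n3) ∧ B3 + B3 + B3 ≤ (A2 - 1 + n3) + (B2 - 1 + n3) + (B2 - 1 + n3))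
    : False := by
  omega

theorem P2_BBB_S2_M12_M13 (n1 n2 n3 A1 A2 A3 B1 B2 B3 : ℤ)
    (hb : Base n1 n2 n3 A1 A2 A3 B1 B2 B3)
    (hp : B1 < A1 ∧ A2 < B2 ∧ A3 ≤ B3)
    (he : 1 ≤ A1 ∧ 1 ≤ A2)
    (hs : B1 + B1 + B1 ≤ n1 + (A1 - 1) + (A1 - 1) ∧ B1 + B1 + B1 ≤ (A2 - 1) + (A1 - 1) + (A1 - 1) ∧ B2 + B2 + B2 ≤ (A2 - 1) + (A1 - 1 + n2) + (A1 - 1 + n2) ∧ B2 + B2 + B2 ≤ (A2 - 1) + (A1 - 1 + n2) + (B3 - 1) ∧ B2 + B2 + B2 ≤ (A2 - 1) + (B2 - 1) + (A1 - 1 + n2) ∧ B2 + B2 + B2 ≤ (A2 - 1) + (B2 - 1) + (B3 - 1) ∧ B3 + B3 + B3 ≤ (A2 - 1 + n3) + (A1 - 1 + n2 + n3) + (A1 - 1 + n2 + n3) ∧ B3 + B3 + B3 ≤ (A2 - 1 + n3) + (A1 - 1 + n2 + n3) + (B3 - 1) ∧ B3 + B3 + B3 ≤ (A2 - 1 + n3) + (B2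 - 1 + n3) + (A1 - 1 + n2 + n3) ∧ B3 + B3 + B3 ≤ (A2 - 1 + n3) + (B2 - 1 + n3) + (B3 - 1))
    (h0 : (A1 ≤ 0 ∨ A1 ≤ 0 ∨ (A1 - 1) + (A1 - 1) < B1 + B1 ∨ (min (A1 - 1 + n2) (B2 - 1)) + (min (A1 - 1 + n2) (B3 - 1)) < B2 + B2 ∨ (min (A1 - 1 + n2 + n3) (B2 - 1 + n3)) + (min (A1 - 1 + n2 + n3) (B3 - 1)) < B3 + B3))
    : False := by
  omega

theorem P2_BBB_S2_M13_M13 (n1 n2 n3 A1 A2 A3 B1 B2 B3 : ℤ)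
    (hb : Base n1 n2 n3 A1 A2 A3 B1 B2 B3)
    (hp : B1 < A1 ∧ A2 < B2 ∧ A3 ≤ B3)
    (he : 1 ≤ A1 ∧ 1 ≤ A2)
    (hs : B1 + B1 + B1 ≤ n1 + (A1 - 1) + (A1 - 1) ∧ B1 + B1 + B1 ≤ (A2 - 1) + (A1 - 1) + (A1 - 1) ∧ B2 + B2 + B2 ≤ (A2 - 1) + (A1 - 1 + n2) + (A1 - 1 + n2) ∧ B2 + B2 + B2 ≤ (A2 - 1) + (A1 - 1 + n2) + (B3 - 1) ∧ B2 + B2 + B2 ≤ (A2 - 1) + (B3 - 1) + (A1 - 1 + n2) ∧ B2 + B2 + B2 ≤ (A2 - 1) + (B3 - 1) + (B3 - 1) ∧ B3 + B3 + B3 ≤ (A2 - 1 + n3) + (A1 - 1 + n2 + n3) + (A1 - 1 + n2 + n3) ∧ B3 + B3 + B3 ≤ (A2 - 1 + n3) + (A1 - 1 + n2 + n3) + (B3 - 1) ∧ B3 + B3 + B3 ≤ (A2 - 1 + n3) + (B3 - 1) + (A1 - 1 + n2 + n3) ∧ B3 + B3 + B3 ≤ (A2 - 1 + n3) + (B3 - 1) + (B3 - 1))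
    (h0 : (A1 ≤ 0 ∨ A1 ≤ 0 ∨ (A1 - 1) + (A1 - 1) < B1 + B1 ∨ (min (A1 - 1 + n2) (B2 - 1)) + (min (A1 - 1 + n2) (B3 - 1)) < B2 + B2 ∨ (min (A1 - 1 + n2 + n3) (B2 - 1 + n3)) + (min (A1 - 1 + n2 + n3) (B3 - 1)) < B3 + B3))
    : False := by
  omega

theorem P2_BBB_S2_S2_M12 (n1 n2 n3 A1 A2 A3 B1 B2 B3 : ℤ)
    (hb : Base n1 n2 n3 A1 A2 A3 B1 B2 B3)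
    (hp : B1 < A1 ∧ A2 < B2 ∧ A3 ≤ B3)
    (he : 1 ≤ A1 ∧ 1 ≤ A2)
    (hs : B1 + B1 + B1 ≤ n1 + n1 + (A1 - 1) ∧ B1 + B1 + B1 ≤ n1 + (A2 - 1) + (A1 - 1) ∧ B1 + B1 + B1 ≤ (A2 - 1) + n1 + (A1 - 1) ∧ B1 + B1 + B1 ≤ (A2 - 1) + (A2 - 1) + (A1 - 1) ∧ B2 + B2 + B2 ≤ (A2 - 1) + (A2 - 1) + (A1 - 1 + n2) ∧ B2 + B2 + B2 ≤ (A2 - 1) + (A2 - 1) + (B2 - 1) ∧ B3 + B3 + B3 ≤ (A2 - 1 + n3) + (A2 - 1 + n3) + (A1 - 1 + n2 + n3) ∧ B3 + B3 + B3 ≤ (A2 - 1 + n3) + (A2 - 1 + n3) + (B2 - 1 + n3))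
    : False := by
  omega

theorem P2_BBB_S2_S2_M13 (n1 n2 n3 A1 A2 A3 B1 B2 B3 : ℤ)
    (hb : Base n1 n2 n3 A1 A2 A3 B1 B2 B3)
    (hp : B1 < A1 ∧ A2 < B2 ∧ A3 ≤ B3)
    (he : 1 ≤ A1 ∧ 1 ≤ A2)
    (hs : B1 + B1 + B1 ≤ n1 + n1 + (A1 - 1) ∧ B1 + B1 + B1 ≤ n1 + (A2 - 1) + (A1 - 1) ∧ B1 + B1 + B1 ≤ (A2 - 1) + n1 + (A1 - 1) ∧ B1 + B1 + B1 ≤ (A2 - 1) + (A2 - 1) + (A1 - 1) ∧ B2 + B2 + B2 ≤ (A2 - 1) + (A2 - 1) + (A1 - 1 + n2) ∧ B2 + B2 + B2 ≤ (A2 - 1) + (A2 - 1) + (B3 - 1) ∧ B3 + B3 + B3 ≤ (A2 - 1 + n3) + (A2 - 1 + n3) + (A1 - 1 + n2 + n3) ∧ B3 + B3 + B3 ≤ (A2 - 1 + n3) + (A2 - 1 + n3) + (B3 - 1))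
    (h0 : (A2 ≤ 0 ∨ A1 ≤ 0 ∨ (min n1 (A2 - 1)) + (A1 - 1) < B1 + B1 ∨ (A2 - 1) + (min (A1 - 1 + n2) (B3 - 1)) < B2 + B2 ∨ (A2 - 1 + n3) + (min (A1 - 1 + n2 + n3) (B3 - 1)) < B3 + B3))
    : False := by
  omega

theorem P2_BBB_S2_S2_S2 (n1 n2 n3 A1 A2 A3 B1 B2 B3 : ℤ)
    (hb : Base n1 n2 n3 A1 A2 A3 B1 B2 B3)
    (hp : B1 < A1 ∧ A2 < B2 ∧ A3 ≤ B3)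
    (he : 1 ≤ A2)
    (hs : B1 + B1 + B1 ≤ n1 + n1 + n1 ∧ B1 + B1 + B1 ≤ n1 + n1 + (A2 - 1) ∧ B1 + B1 + B1 ≤ n1 + (A2 - 1) + n1 ∧ B1 + B1 + B1 ≤ n1 + (A2 - 1) + (A2 - 1) ∧ B1 + B1 + B1 ≤ (A2 - 1) + n1 + n1 ∧ B1 + B1 + B1 ≤ (A2 - 1) + n1 + (A2 - 1) ∧ B1 + B1 + B1 ≤ (A2 - 1) + (A2 - 1) + n1 ∧ B1 + B1 + B1 ≤ (A2 - 1) + (A2 - 1) + (A2 - 1) ∧ B2 + B2 + B2 ≤ (A2 - 1) + (A2 - 1) + (A2 - 1) ∧ B3 + B3 + B3 ≤ (A2 - 1 + n3) + (A2 - 1 + n3) + (A2 - 1 + n3))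
    : False := by
  omega

theorem P2_BBB_S2_S2_S3 (n1 n2 n3 A1 A2 A3 B1 B2 B3 : ℤ)
    (hb : Base n1 n2 n3 A1 A2 A3 B1 B2 B3)
    (hp : B1 < A1 ∧ A2 < B2 ∧ A3 ≤ B3)
    (he : 1 ≤ A2 ∧ 1 ≤ A3)
    (hs : B1 + B1 + B1 ≤ n1 + n1 + n1 ∧ B1 + B1 + B1 ≤ n1 + n1 + (A3 - 1) ∧ B1 + B1 + B1 ≤ n1 + (A2 - 1) + n1 ∧ B1 + B1 + B1 ≤ n1 + (A2 - 1) + (A3 - 1) ∧ B1 + B1 + B1 ≤ (A2 - 1) + n1 + n1 ∧ B1 + B1 + B1 ≤ (A2 - 1) + n1 + (A3 - 1) ∧ B1 + B1 + B1 ≤ (A2 - 1) + (A2 - 1) + n1 ∧ B1 + B1 + B1 ≤ (A2 - 1) + (A2 - 1) + (A3 - 1) ∧ B2 + B2 + B2 ≤ (A2 - 1) + (A2 - 1) + (n1 + n2) ∧ B2 + B2 + B2 ≤ (A2 - 1) + (A2 - 1) + (A3 - 1) ∧ B3 + B3 + B3 ≤ (A2 - 1 + n3) + (A2 - 1 + n3) + (A3 - 1))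
    (h0 : (A2 ≤ 0 ∨ A3 ≤ 0 ∨ (min n1 (A2 - 1)) + (min n1 (A3 - 1)) < A1 + B1 ∨ (A2 - 1) + (min (n1 + n2) (A3 - 1)) < A2 + B2 ∨ (A2 - 1 + n3) + (A3 - 1) < A3 + B3))
    : False := by
  omega

theorem P2_BBB_S2_S3_M12 (n1 n2 n3 A1 A2 A3 B1 B2 B3 : ℤ)
    (hb : Base n1 n2 n3 A1 A2 A3 B1 B2 B3)
    (hp : B1 < A1 ∧ A2 < B2 ∧ A3 ≤ B3)
    (he : 1 ≤ A1 ∧ 1 ≤ A2 ∧ 1 ≤ A3)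
    (hs : B1 + B1 + B1 ≤ n1 + n1 + (A1 - 1) ∧ B1 + B1 + B1 ≤ n1 + (A3 - 1) + (A1 - 1) ∧ B1 + B1 + B1 ≤ (A2 - 1) + n1 + (A1 - 1) ∧ B1 + B1 + B1 ≤ (A2 - 1) + (A3 - 1) + (A1 - 1) ∧ B2 + B2 + B2 ≤ (A2 - 1) + (n1 + n2) + (A1 - 1 + n2) ∧ B2 + B2 + B2 ≤ (A2 - 1) + (n1 + n2) + (B2 - 1) ∧ B2 + B2 + B2 ≤ (A2 - 1) + (A3 - 1) + (A1 - 1 + n2) ∧ B2 + B2 + B2 ≤ (A2 - 1) + (A3 - 1) + (B2 - 1) ∧ B3 + B3 + B3 ≤ (A2 - 1 + n3) + (A3 - 1) + (A1 - 1 + n2 + n3) ∧ B3 + B3 + B3 ≤ (A2 - 1 + n3) + (A3 - 1) + (B2 - 1 + n3))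
    (h0 : (A3 ≤ 0 ∨ A1 ≤ 0 ∨ (min n1 (A3 - 1)) + (A1 - 1) < A1 + B1 ∨ (min (n1 + n2) (A3 - 1)) + (min (A1 - 1 + n2) (B2 - 1)) < A2 + B2 ∨ (A3 - 1) + (min (A1 - 1 + n2 + n3) (B2 - 1 + n3)) < A3 + B3))
    : False := by
  omega

theorem P2_BBB_S2_S3_M13 (n1 n2 n3 A1 A2 A3 B1 B2 B3 : ℤ)
    (hb : Base n1 n2 n3 A1 A2 A3 B1 B2 B3)
    (hp : B1 < A1 ∧ A2 < B2 ∧ A3 ≤ B3)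
    (he : 1 ≤ A1 ∧ 1 ≤ A2 ∧ 1 ≤ A3)
    (hs : B1 + B1 + B1 ≤ n1 + n1 + (A1 - 1) ∧ B1 + B1 + B1 ≤ n1 + (A3 - 1) + (A1 - 1) ∧ B1 + B1 + B1 ≤ (A2 - 1) + n1 + (A1 - 1) ∧ B1 + B1 + B1 ≤ (A2 - 1) + (A3 - 1) + (A1 - 1) ∧ B2 + B2 + B2 ≤ (A2 - 1) + (n1 + n2) + (A1 - 1 + n2) ∧ B2 + B2 + B2 ≤ (A2 - 1) + (n1 + n2) + (B3 - 1) ∧ B2 + B2 + B2 ≤ (A2 - 1) + (A3 - 1) + (A1 - 1 + n2) ∧ B2 + B2 + B2 ≤ (A2 - 1) + (A3 - 1) + (B3 - 1) ∧ B3 + B3 + B3 ≤ (A2 - 1 + n3) + (A3 - 1) + (A1 - 1 + n2 + n3) ∧ B3 + B3 + B3 ≤ (A2 - 1 + n3) + (A3 - 1) + (B3 - 1))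
    (h0 : (A2 ≤ 0 ∨ A1 ≤ 0 ∨ (min n1 (A2 - 1)) + (A1 - 1) < B1 + B1 ∨ (A2 - 1) + (min (A1 - 1 + n2) (B3 - 1)) < B2 + B2 ∨ (A2 - 1 + n3) + (min (A1 - 1 + n2 + n3) (B3 - 1)) < B3 + B3))
    (h1 : (A2 ≤ 0 ∨ A3 ≤ 0 ∨ (min n1 (A2 - 1)) + (min n1 (A3 - 1)) < A1 + B1 ∨ (A2 - 1) + (min (n1 + n2) (A3 - 1)) < A2 + B2 ∨ (A2 - 1 + n3) + (A3 - 1) < A3 + B3))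
    : False := by
  omega

theorem P2_BBB_S2_S3_S3 (n1 n2 n3 A1 A2 A3 B1 B2 B3 : ℤ)
    (hb : Base n1 n2 n3 A1 A2 A3 B1 B2 B3)
    (hp : B1 < A1 ∧ A2 < B2 ∧ A3 ≤ B3)
    (he : 1 ≤ A2 ∧ 1 ≤ A3)
    (hs : B1 + B1 + B1 ≤ n1 + n1 + n1 ∧ B1 + B1 + B1 ≤ n1 + n1 + (A3 - 1) ∧ B1 + B1 + B1 ≤ n1 + (A3 - 1) + n1 ∧ B1 + B1 + B1 ≤ n1 + (A3 - 1) + (A3 - 1) ∧ B1 + B1 + B1 ≤ (A2 - 1) + n1 + n1 ∧ B1 + B1 + B1 ≤ (A2 - 1) + n1 + (A3 - 1) ∧ B1 + B1 + B1 ≤ (A2 - 1) + (A3 - 1) + n1 ∧ B1 + B1 + B1 ≤ (A2 - 1) + (A3 - 1) + (A3 - 1) ∧ B2 + B2 + B2 ≤ (A2 - 1) + (n1 + n2) + (n1 + n2) ∧ B2 + B2 + B2 ≤ (A2 - 1) + (n1 + n2) + (A3 - 1) ∧ B2 + B2 + B2 ≤ (A2 - 1) + (A3 - 1) + (n1 + n2) ∧ B2 + B2 + B2 ≤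 (A2 - 1) + (A3 - 1) + (A3 - 1) ∧ B3 + B3 + B3 ≤ (A2 - 1 + n3) + (A3 - 1) + (A3 - 1))
    (h0 : (A2 ≤ 0 ∨ A3 ≤ 0 ∨ (min n1 (A2 - 1)) + (min n1 (A3 - 1)) < A1 + B1 ∨ (A2 - 1) + (min (n1 + n2) (A3 - 1)) < A2 + B2 ∨ (A2 - 1 + n3) + (A3 - 1) < A3 + B3))
    : False := by
  omega

theorem P2_BBB_S3_M12_M12 (n1 n2 n3 A1 A2 A3 B1 B2 B3 : ℤ)
    (hb : Base n1 n2 n3 A1 A2 A3 B1 B2 B3)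
    (hp : B1 < A1 ∧ A2 < B2 ∧ A3 ≤ B3)
    (he : 1 ≤ A1 ∧ 1 ≤ A3)
    (hs : B1 + B1 + B1 ≤ n1 + (A1 - 1) + (A1 - 1) ∧ B1 + B1 + B1 ≤ (A3 - 1) + (A1 - 1) + (A1 - 1) ∧ B2 + B2 + B2 ≤ (n1 + n2) + (A1 - 1 + n2) + (A1 - 1 + n2) ∧ B2 + B2 + B2 ≤ (n1 + n2) + (A1 - 1 + n2) + (B2 - 1) ∧ B2 + B2 + B2 ≤ (n1 + n2) + (B2 - 1) + (A1 - 1 + n2) ∧ B2 + B2 + B2 ≤ (n1 + n2) + (B2 - 1) + (B2 - 1) ∧ B2 + B2 + B2 ≤ (A3 - 1) + (A1 - 1 + n2) + (A1 - 1 + n2) ∧ B2 + B2 + B2 ≤ (A3 - 1) + (A1 - 1 + n2) + (B2 - 1) ∧ B2 + B2 + B2 ≤ (A3 - 1) + (B2 - 1) + (A1 - 1 + n2) ∧ B2 + B2 + B2 ≤ (A3 - 1) + (B2 - 1) + (B2 - 1) ∧ B3 + B3 + B3 ≤ (A3 - 1) + (A1 - 1 + n2 + n3) + (A1 - 1 + n2 + n3) ∧ B3 + B3 + B3 ≤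 (A3 - 1) + (A1 - 1 + n2 + n3) + (B2 - 1 + n3) ∧ B3 + B3 + B3 ≤ (A3 - 1) + (B2 - 1 + n3) + (A1 - 1 + n2 + n3) ∧ B3 + B3 + B3 ≤ (A3 - 1) + (B2 - 1 + n3) + (B2 - 1 + n3))
    (h0 : (A3 ≤ 0 ∨ A1 ≤ 0 ∨ (min n1 (A3 - 1)) + (A1 - 1) < A1 + B1 ∨ (min (n1 + n2) (A3 - 1)) + (min (A1 - 1 + n2) (B2 - 1)) < A2 + B2 ∨ (A3 - 1) + (min (A1 - 1 + n2 + n3) (B2 - 1 + n3)) < A3 + B3))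
    : False := by
  omega

theorem P2_BBB_S3_M12_M13 (n1 n2 n3 A1 A2 A3 B1 B2 B3 : ℤ)
    (hb : Base n1 n2 n3 A1 A2 A3 B1 B2 B3)
    (hp : B1 < A1 ∧ A2 < B2 ∧ A3 ≤ B3)
    (he : 1 ≤ A1 ∧ 1 ≤ A3)
    (hs : B1 + B1 + B1 ≤ n1 + (A1 - 1) + (A1 - 1) ∧ B1 + B1 + B1 ≤ (A3 - 1) + (A1 - 1) + (A1 - 1) ∧ B2 + B2 + B2 ≤ (n1 + n2) + (A1 - 1 + n2) + (A1 - 1 + n2) ∧ B2 + B2 + B2 ≤ (n1 + n2) + (A1 - 1 + n2) + (B3 - 1) ∧ B2 + B2 + B2 ≤ (n1 + n2) + (B2 - 1) + (A1 - 1 + n2) ∧ B2 + B2 + B2 ≤ (n1 + n2) + (B2 - 1) + (B3 - 1) ∧ B2 + B2 + B2 ≤ (A3 - 1) + (A1 - 1 + n2) + (A1 - 1 + n2) ∧ B2 + B2 + B2 ≤ (A3 - 1) + (A1 - 1 + n2) + (B3 - 1) ∧ B2 + B2 + B2 ≤ (A3 - 1) + (B2 - 1) + (A1 - 1 + n2) ∧ B2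 + B2 + B2 ≤ (A3 - 1) + (B2 - 1) + (B3 - 1) ∧ B3 + B3 + B3 ≤ (A3 - 1) + (A1 - 1 + n2 + n3) + (A1 - 1 + n2 + n3) ∧ B3 + B3 + B3 ≤ (A3 - 1) + (A1 - 1 + n2 + n3) + (B3 - 1) ∧ B3 + B3 + B3 ≤ (A3 - 1) + (B2 - 1 + n3) + (A1 - 1 + n2 + n3) ∧ B3 + B3 + B3 ≤ (A3 - 1) + (B2 - 1 + n3) + (B3 - 1))
    (h0 : (A3 ≤ 0 ∨ A1 ≤ 0 ∨ (min n1 (A3 - 1)) + (A1 - 1) < A1 + B1 ∨ (min (n1 + n2) (A3 - 1)) + (min (A1 - 1 + n2) (B2 - 1)) < A2 + B2 ∨ (A3 - 1) + (min (A1 - 1 + n2 + n3) (B2 - 1 + n3)) < A3 + B3))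
    (h1 : (A2 ≤ 0 ∨ A1 ≤ 0 ∨ (min n1 (A2 - 1)) + (A1 - 1) < B1 + B1 ∨ (A2 - 1) + (min (A1 - 1 + n2) (B3 - 1)) < B2 + B2 ∨ (A2 - 1 + n3) + (min (A1 - 1 + n2 + n3) (B3 - 1)) < B3 + B3))
    : False := by
  omega

theorem P2_BBB_S3_M13_M13 (n1 n2 n3 A1 A2 A3 B1 B2 B3 : ℤ)
    (hb : Base n1 n2 n3 A1 A2 A3 B1 B2 B3)
    (hp : B1 < A1 ∧ A2 < B2 ∧ A3 ≤ B3)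
    (he : 1 ≤ A1 ∧ 1 ≤ A3)
    (hs : B1 + B1 + B1 ≤ n1 + (A1 - 1) + (A1 - 1) ∧ B1 + B1 + B1 ≤ (A3 - 1) + (A1 - 1) + (A1 - 1) ∧ B2 + B2 + B2 ≤ (n1 + n2) + (A1 - 1 + n2) + (A1 - 1 + n2) ∧ B2 + B2 + B2 ≤ (n1 + n2) + (A1 - 1 + n2) + (B3 - 1) ∧ B2 + B2 + B2 ≤ (n1 + n2) + (B3 - 1) + (A1 - 1 + n2) ∧ B2 + B2 + B2 ≤ (n1 + n2) + (B3 - 1) + (B3 - 1) ∧ B2 + B2 + B2 ≤ (A3 - 1) + (A1 - 1 + n2) + (A1 - 1 + n2) ∧ B2 + B2 + B2 ≤ (A3 - 1) + (A1 - 1 + n2) + (B3 - 1) ∧ B2 + B2 + B2 ≤ (A3 - 1) + (B3 - 1) + (A1 - 1 + n2) ∧ B2 + B2 + B2 ≤ (A3 - 1) + (B3 - 1) + (B3 - 1) ∧ B3 + B3 + B3 ≤ (A3 - 1) + (A1 - 1 + n2 + n3) + (A1 - 1 + n2 + n3) ∧ B3 + B3 + B3 ≤ (A3 - 1) + (A1 - 1 + n2 + n3) + (B3 - 1)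 ∧ B3 + B3 + B3 ≤ (A3 - 1) + (B3 - 1) + (A1 - 1 + n2 + n3) ∧ B3 + B3 + B3 ≤ (A3 - 1) + (B3 - 1) + (B3 - 1))
    : False := by
  omega

theorem P2_BBB_S3_S3_M12 (n1 n2 n3 A1 A2 A3 B1 B2 B3 : ℤ)
    (hb : Base n1 n2 n3 A1 A2 A3 B1 B2 B3)
    (hp : B1 < A1 ∧ A2 < B2 ∧ A3 ≤ B3)
    (he : 1 ≤ A1 ∧ 1 ≤ A3)
    (hs : B1 + B1 + B1 ≤ n1 + n1 + (A1 - 1) ∧ B1 + B1 + B1 ≤ n1 + (A3 - 1) + (A1 - 1) ∧ B1 + B1 + B1 ≤ (A3 - 1) + n1 + (A1 - 1) ∧ B1 + B1 + B1 ≤ (A3 - 1) + (A3 - 1) + (A1 - 1) ∧ B2 + B2 + B2 ≤ (n1 + n2) + (n1 + n2) + (A1 - 1 + n2) ∧ B2 + B2 + B2 ≤ (n1 + n2) + (n1 + n2) + (B2 - 1) ∧ B2 + B2 + B2 ≤ (n1 + n2) + (A3 - 1) + (A1 - 1 + n2) ∧ B2 + B2 + B2 ≤ (n1 + n2) + (A3 - 1) + (B2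 - 1) ∧ B2 + B2 + B2 ≤ (A3 - 1) + (n1 + n2) + (A1 - 1 + n2) ∧ B2 + B2 + B2 ≤ (A3 - 1) + (n1 + n2) + (B2 - 1) ∧ B2 + B2 + B2 ≤ (A3 - 1) + (A3 - 1) + (A1 - 1 + n2) ∧ B2 + B2 + B2 ≤ (A3 - 1) + (A3 - 1) + (B2 - 1) ∧ B3 + B3 + B3 ≤ (A3 - 1) + (A3 - 1) + (A1 - 1 + n2 + n3) ∧ B3 + B3 + B3 ≤ (A3 - 1) + (A3 - 1) + (B2 - 1 + n3))
    (h0 : (A3 ≤ 0 ∨ A1 ≤ 0 ∨ (min n1 (A3 - 1)) + (A1 - 1) < A1 + B1 ∨ (min (n1 + n2) (A3 - 1)) + (min (A1 - 1 + n2) (B2 - 1)) < A2 + B2 ∨ (A3 - 1) + (min (A1 - 1 + n2 + n3) (B2 - 1 + n3)) < A3 + B3))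
    : False := by
  omega

theorem P2_BBB_S3_S3_M13 (n1 n2 n3 A1 A2 A3 B1 B2 B3 : ℤ)
    (hb : Base n1 n2 n3 A1 A2 A3 B1 B2 B3)
    (hp : B1 < A1 ∧ A2 < B2 ∧ A3 ≤ B3)
    (he : 1 ≤ A1 ∧ 1 ≤ A3)
    (hs : B1 + B1 + B1 ≤ n1 + n1 + (A1 - 1) ∧ B1 + B1 + B1 ≤ n1 + (A3 - 1) + (A1 - 1) ∧ B1 + B1 + B1 ≤ (A3 - 1) + n1 + (A1 - 1) ∧ B1 + B1 + B1 ≤ (A3 - 1) + (A3 - 1) + (A1 - 1) ∧ B2 + B2 + B2 ≤ (n1 + n2) + (n1 + n2) + (A1 - 1 + n2) ∧ B2 + B2 + B2 ≤ (n1 + n2) + (n1 + n2) + (B3 - 1) ∧ B2 + B2 + B2 ≤ (n1 + n2) + (A3 - 1) + (A1 - 1 + n2) ∧ B2 + B2 + B2 ≤ (n1 + n2) + (A3 - 1) + (B3 - 1) ∧ B2 + B2 + B2 ≤ (A3 - 1) + (n1 + n2) + (A1 - 1 + n2) ∧ B2 + B2 + B2 ≤ (A3 - 1) + (n1 + n2) + (B3 -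 1) ∧ B2 + B2 + B2 ≤ (A3 - 1) + (A3 - 1) + (A1 - 1 + n2) ∧ B2 + B2 + B2 ≤ (A3 - 1) + (A3 - 1) + (B3 - 1) ∧ B3 + B3 + B3 ≤ (A3 - 1) + (A3 - 1) + (A1 - 1 + n2 + n3) ∧ B3 + B3 + B3 ≤ (A3 - 1) + (A3 - 1) + (B3 - 1))
    : False := by
  omega

theorem P2_BBB_S3_S3_S3 (n1 n2 n3 A1 A2 A3 B1 B2 B3 : ℤ)
    (hb : Base n1 n2 n3 A1 A2 A3 B1 B2 B3)
    (hp : B1 < A1 ∧ A2 < B2 ∧ A3 ≤ B3)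
    (he : 1 ≤ A3)
    (hs : B1 + B1 + B1 ≤ n1 + n1 + n1 ∧ B1 + B1 + B1 ≤ n1 + n1 + (A3 - 1) ∧ B1 + B1 + B1 ≤ n1 + (A3 - 1) + n1 ∧ B1 + B1 + B1 ≤ n1 + (A3 - 1) + (A3 - 1) ∧ B1 + B1 + B1 ≤ (A3 - 1) + n1 + n1 ∧ B1 + B1 + B1 ≤ (A3 - 1) + n1 + (A3 - 1) ∧ B1 + B1 + B1 ≤ (A3 - 1) + (A3 - 1) + n1 ∧ B1 + B1 + B1 ≤ (A3 - 1) + (A3 - 1) + (A3 - 1) ∧ B2 + B2 + B2 ≤ (n1 + n2) + (n1 + n2) + (n1 + n2) ∧ B2 + B2 + B2 ≤ (n1 + n2) + (n1 + n2) + (A3 - 1) ∧ B2 + B2 + B2 ≤ (n1 + n2) + (A3 - 1) + (n1 + n2) ∧ B2 + B2 + B2 ≤ (n1 + n2) + (A3 - 1) + (A3 - 1) ∧ B2 + B2 + B2 ≤ (A3 - 1) + (n1 + n2) + (n1 + n2) ∧ B2 + B2 + B2 ≤ (A3 - 1) + (n1 + n2) + (A3 - 1) ∧ B2 + B2 + B2 ≤ (A3 - 1) + (A3 - 1) + (n1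 + n2) ∧ B2 + B2 + B2 ≤ (A3 - 1) + (A3 - 1) + (A3 - 1) ∧ B3 + B3 + B3 ≤ (A3 - 1) + (A3 - 1) + (A3 - 1))
    : False := by
  omega

end Pool.Agent.H698.TT
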