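import Pool.Agent.H698.TT.CoreP1
import Pool.Agent.H698.TT.CoreP2
import Pool.Agent.H698.TT.CoreP3

/-!
The arithmetic core of the classification.
-/

namespace Pool.Agent.H698.TT

theorem core : S_core := by
  intro n1 n2 n3 A1 A2 A3 B1 B2 B3 hn1 hn2 hn3 hA hB ht1 ht2 hlex hinc hNT hTh
  have hb : Base n1 n2 n3 A1 A2 A3 B1 B2 B3 := ⟨hn1, hn2, hn3, hA, hB, ht1, ht2⟩
  have h : (B1 ≤ A1 ∧ B2 ≤ A2 ∧ A3 < B3 ∧ (B1 < A1 ∨ B2 < A2)) ∨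
      (B1 < A1 ∧ A2 < B2 ∧ A3 ≤ B3) ∨ (B1 < A1 ∧ A2 < B2 ∧ B3 < A3) := by
    clear hNT hTh hb hA hB ht1 ht2
    omega
  rcases h with h | h | h
  · exact coreP1 n1 n2 n3 A1 A2 A3 B1 B2 B3 hb h hNT hTh
  · exact coreP2 n1 n2 n3 A1 A2 A3 B1 B2 B3 hb h hNT hTh
  · exact coreP3 n1 n2 n3 A1 A2 A3 B1 B2 B3 hb h hNT hTh

end Pool.Agent.H698.TT
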