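import Pool.Agent.H698.TT.GenP1AAA
import Pool.Agent.H698.TT.GenP1AAB
import Pool.Agent.H698.TT.GenP1ABB
import Pool.Agent.H698.TT.GenP1BBB

/-!
Generated assembly of the case analysis for one sign pattern of `A - B`.
-/

set_option linter.unusedVariables false
set_option linter.style.longLine false

namespace Pool.Agent.H698.TT

/-- the kinds of losing vectors -/
abbrev KindP1 (n1 n2 n3 A1 A2 A3 B1 B2 B3 y1 y2 y3 : ℤ) : Prop :=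
  (1 ≤ B1 ∧ y1 ≤ B1 - 1 ∧ y2 ≤ B1 - 1 + n2 ∧ y3 ≤ B1 - 1 + n2 + n3) ∨
  (1 ≤ B2 ∧ y1 ≤ n1 ∧ y1 ≤ B2 - 1 ∧ y2 ≤ B2 - 1 ∧ y3 ≤ B2 - 1 + n3) ∨
  (1 ≤ A3 ∧ y1 ≤ n1 ∧ y1 ≤ A3 - 1 ∧ y2 ≤ n1 + n2 ∧ y2 ≤ A3 - 1 ∧ y3 ≤ A3 - 1) ∨
  (1 ≤ A1 ∧ y1 ≤ A1 - 1 ∧ y2 ≤ A1 - 1 + n2 ∧ y2 ≤ B3 - 1 ∧ y3 ≤ A1 - 1 + n2 + n3 ∧ y3 ≤ B3 - 1) ∨
  (1 ≤ A2 ∧ y1 ≤ n1 ∧ y1 ≤ A2 - 1 ∧ y2 ≤ A2 - 1 ∧ y3 ≤ A2 - 1 + n3 ∧ y3 ≤ B3 - 1)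

theorem kindP1 (n1 n2 n3 A1 A2 A3 B1 B2 B3 y1 y2 y3 : ℤ) (hb : Base n1 n2 n3 A1 A2 A3 B1 B2 B3) (hp : B1 ≤ A1 ∧ B2 ≤ A2 ∧ A3 < B3 ∧ (B1 < A1 ∨ B2 < A2))
    (hl : Lat n1 n2 n3 y1 y2 y3) (hw : ¬ Win A1 A2 A3 B1 B2 B3 y1 y2 y3) :
    KindP1 n1 n2 n3 A1 A2 A3 B1 B2 B3 y1 y2 y3 := by
  have h : (y1 < A1 ∨ y2 < A2 ∨ y3 < A3) ∧ (y1 < B1 ∨ y2 < B2 ∨ y3 < B3) := by omega
  clear hw
  obtain ⟨h1, h2⟩ := h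
  obtain ⟨b1, b2, b3, b4, b5, -, -⟩ := hb
  rcases h1 with h1 | h1 | h1 <;> rcases h2 with h2 | h2 | h2 <;>
    first
    | exact Or.inl (by omega)
    | exact Or.inr (Or.inl (by omega))
    | exact Or.inr (Or.inr (Or.inl (by omega)))
    | exact Or.inr (Or.inr (Or.inr (Or.inl (by omega))))
    | exact Or.inr (Or.inr (Or.inr (Or.inr (by omega))))

theorem NP1_AA_M13_M23 (n1 n2 n3 A1 A2 A3 B1 B2 B3 : ℤ) (hb : Base n1 n2 n3 A1 A2 A3 B1 B2 B3) (hp : B1 ≤ A1 ∧ B2 ≤ A2 ∧ A3 < B3 ∧ (B1 < A1 ∨ B2 < A2))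
    (hNT : NoTwo n1 n2 n3 A1 A2 A3 B1 B2 B3) :
    (A1 ≤ 0 ∨ A2 ≤ 0 ∨ (A1 - 1) + (min n1 (A2 - 1)) < A1 + A1 ∨ (min (A1 - 1 + n2) (B3 - 1)) + (A2 - 1) < A2 + A2 ∨ (min (A1 - 1 + n2 + n3) (B3 - 1)) + (min (A2 - 1 + n3) (B3 - 1)) < A3 + A3) := by
  obtain ⟨b1, b2, b3, b4, b5, -, -⟩ := hb
  by_contra hc
  exact (hNT (A1 - 1) (min (A1 - 1 + n2) (B3 - 1)) (min (A1 - 1 + n2 + n3) (B3 - 1)) (min n1 (A2 - 1)) (A2 - 1) (min (A2 - 1 + n3) (B3 - 1)) (by omega) (by omega) (by omega) (by omega)).1 ⟨by omega, by omega, by omega⟩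

theorem NP1_AA_S1_S3 (n1 n2 n3 A1 A2 A3 B1 B2 B3 : ℤ) (hb : Base n1 n2 n3 A1 A2 A3 B1 B2 B3) (hp : B1 ≤ A1 ∧ B2 ≤ A2 ∧ A3 < B3 ∧ (B1 < A1 ∨ B2 < A2))
    (hNT : NoTwo n1 n2 n3 A1 A2 A3 B1 B2 B3) :
    (B1 ≤ 0 ∨ A3 ≤ 0 ∨ (B1 - 1) + (min n1 (A3 - 1)) < A1 + A1 ∨ (B1 - 1 + n2) + (min (n1 + n2) (A3 - 1)) < A2 + A2 ∨ (B1 - 1 + n2 + n3) + (A3 - 1) < A3 + A3) := by
  obtain ⟨b1, b2, b3, b4, b5, -, -⟩ := hb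
  by_contra hc
  exact (hNT (B1 - 1) (B1 - 1 + n2) (B1 - 1 + n2 + n3) (min n1 (A3 - 1)) (min (n1 + n2) (A3 - 1)) (A3 - 1) (by omega) (by omega) (by omega) (by omega)).1 ⟨by omega, by omega, by omega⟩

theorem NP1_AA_S3_M13 (n1 n2 n3 A1 A2 A3 B1 B2 B3 : ℤ) (hb : Base n1 n2 n3 A1 A2 A3 B1 B2 B3) (hp : B1 ≤ A1 ∧ B2 ≤ A2 ∧ A3 < B3 ∧ (B1 < A1 ∨ B2 < A2))
    (hNT : NoTwo n1 n2 n3 A1 A2 A3 B1 B2 B3) :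
    (A3 ≤ 0 ∨ A1 ≤ 0 ∨ (min n1 (A3 - 1)) + (A1 - 1) < A1 + A1 ∨ (min (n1 + n2) (A3 - 1)) + (min (A1 - 1 + n2) (B3 - 1)) < A2 + A2 ∨ (A3 - 1) + (min (A1 - 1 + n2 + n3) (B3 - 1)) < A3 + A3) := by
  obtain ⟨b1, b2, b3, b4, b5, -, -⟩ := hb
  by_contra hc
  exact (hNT (min n1 (A3 - 1)) (min (n1 + n2) (A3 - 1)) (A3 - 1) (A1 - 1) (min (A1 - 1 + n2) (B3 - 1)) (min (A1 - 1 + n2 + n3) (B3 - 1)) (by omega) (by omega) (by omega) (by omega)).1 ⟨by omega, by omega, by omega⟩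

theorem NP1_AB_S1_S3 (n1 n2 n3 A1 A2 A3 B1 B2 B3 : ℤ) (hb : Base n1 n2 n3 A1 A2 A3 B1 B2 B3) (hp : B1 ≤ A1 ∧ B2 ≤ A2 ∧ A3 < B3 ∧ (B1 < A1 ∨ B2 < A2))
    (hNT : NoTwo n1 n2 n3 A1 A2 A3 B1 B2 B3) :
    (B1 ≤ 0 ∨ A3 ≤ 0 ∨ (B1 - 1) + (min n1 (A3 - 1)) < A1 + B1 ∨ (B1 - 1 + n2) + (min (n1 + n2) (A3 - 1)) < A2 + B2 ∨ (B1 - 1 + n2 + n3) + (A3 - 1) < A3 + B3) := by
  obtain ⟨b1, b2, b3, b4, b5, -, -⟩ := hb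
  by_contra hc
  exact (hNT (B1 - 1) (B1 - 1 + n2) (B1 - 1 + n2 + n3) (min n1 (A3 - 1)) (min (n1 + n2) (A3 - 1)) (A3 - 1) (by omega) (by omega) (by omega) (by omega)).2.1 ⟨by omega, by omega, by omega⟩

theorem NP1_AA_S2_M13 (n1 n2 n3 A1 A2 A3 B1 B2 B3 : ℤ) (hb : Base n1 n2 n3 A1 A2 A3 B1 B2 B3) (hp : B1 ≤ A1 ∧ B2 ≤ A2 ∧ A3 < B3 ∧ (B1 < A1 ∨ B2 < A2))
    (hNT : NoTwo n1 n2 n3 A1 A2 A3 B1 B2 B3) :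
    (B2 ≤ 0 ∨ A1 ≤ 0 ∨ (min n1 (B2 - 1)) + (A1 - 1) < A1 + A1 ∨ (B2 - 1) + (min (A1 - 1 + n2) (B3 - 1)) < A2 + A2 ∨ (B2 - 1 + n3) + (min (A1 - 1 + n2 + n3) (B3 - 1)) < A3 + A3) := by
  obtain ⟨b1, b2, b3, b4, b5, -, -⟩ := hb
  by_contra hc
  exact (hNT (min n1 (B2 - 1)) (B2 - 1) (B2 - 1 + n3) (A1 - 1) (min (A1 - 1 + n2) (B3 - 1)) (min (A1 - 1 + n2 + n3) (B3 - 1)) (by omega) (by omega) (by omega) (by omega)).1 ⟨by omega, by omega, by omega⟩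

theorem NP1_AB_S1_S2 (n1 n2 n3 A1 A2 A3 B1 B2 B3 : ℤ) (hb : Base n1 n2 n3 A1 A2 A3 B1 B2 B3) (hp : B1 ≤ A1 ∧ B2 ≤ A2 ∧ A3 < B3 ∧ (B1 < A1 ∨ B2 < A2))
    (hNT : NoTwo n1 n2 n3 A1 A2 A3 B1 B2 B3) :
    (B1 ≤ 0 ∨ B2 ≤ 0 ∨ (B1 - 1) + (min n1 (B2 - 1)) < A1 + B1 ∨ (B1 - 1 + n2) + (B2 - 1) < A2 + B2 ∨ (B1 - 1 + n2 + n3) + (B2 - 1 + n3) < A3 + B3) := by
  obtain ⟨b1, b2, b3, b4, b5, -, -⟩ := hb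
  by_contra hc
  exact (hNT (B1 - 1) (B1 - 1 + n2) (B1 - 1 + n2 + n3) (min n1 (B2 - 1)) (B2 - 1) (B2 - 1 + n3) (by omega) (by omega) (by omega) (by omega)).2.1 ⟨by omega, by omega, by omega⟩

theorem NP1_AA_S2_S3 (n1 n2 n3 A1 A2 A3 B1 B2 B3 : ℤ) (hb : Base n1 n2 n3 A1 A2 A3 B1 B2 B3) (hp : B1 ≤ A1 ∧ B2 ≤ A2 ∧ A3 < B3 ∧ (B1 < A1 ∨ B2 < A2))
    (hNT : NoTwo n1 n2 n3 A1 A2 A3 B1 B2 B3) :
    (B2 ≤ 0 ∨ A3 ≤ 0 ∨ (min n1 (B2 - 1)) + (min n1 (A3 - 1)) < A1 + A1 ∨ (B2 - 1) + (min (n1 + n2) (A3 - 1)) < A2 + A2 ∨ (B2 - 1 + n3) + (A3 - 1) < A3 + A3) := by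
  obtain ⟨b1, b2, b3, b4, b5, -, -⟩ := hb
  by_contra hc
  exact (hNT (min n1 (B2 - 1)) (B2 - 1) (B2 - 1 + n3) (min n1 (A3 - 1)) (min (n1 + n2) (A3 - 1)) (A3 - 1) (by omega) (by omega) (by omega) (by omega)).1 ⟨by omega, by omega, by omega⟩

theorem NP1_AB_S2_M13 (n1 n2 n3 A1 A2 A3 B1 B2 B3 : ℤ) (hb : Base n1 n2 n3 A1 A2 A3 B1 B2 B3) (hp : B1 ≤ A1 ∧ B2 ≤ A2 ∧ A3 < B3 ∧ (B1 < A1 ∨ B2 < A2))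
    (hNT : NoTwo n1 n2 n3 A1 A2 A3 B1 B2 B3) :
    (B2 ≤ 0 ∨ A1 ≤ 0 ∨ (min n1 (B2 - 1)) + (A1 - 1) < A1 + B1 ∨ (B2 - 1) + (min (A1 - 1 + n2) (B3 - 1)) < A2 + B2 ∨ (B2 - 1 + n3) + (min (A1 - 1 + n2 + n3) (B3 - 1)) < A3 + B3) := by
  obtain ⟨b1, b2, b3, b4, b5, -, -⟩ := hb
  by_contra hc
  exact (hNT (min n1 (B2 - 1)) (B2 - 1) (B2 - 1 + n3) (A1 - 1) (min (A1 - 1 + n2) (B3 - 1)) (min (A1 - 1 + n2 + n3) (B3 - 1)) (by omega) (by omega) (by omega) (by omega)).2.1 ⟨by omega, by omega, by omega⟩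

theorem NP1_AB_S2_S3 (n1 n2 n3 A1 A2 A3 B1 B2 B3 : ℤ) (hb : Base n1 n2 n3 A1 A2 A3 B1 B2 B3) (hp : B1 ≤ A1 ∧ B2 ≤ A2 ∧ A3 < B3 ∧ (B1 < A1 ∨ B2 < A2))
    (hNT : NoTwo n1 n2 n3 A1 A2 A3 B1 B2 B3) :
    (B2 ≤ 0 ∨ A3 ≤ 0 ∨ (min n1 (B2 - 1)) + (min n1 (A3 - 1)) < A1 + B1 ∨ (B2 - 1) + (min (n1 + n2) (A3 - 1)) < A2 + B2 ∨ (B2 - 1 + n3) + (A3 - 1) < A3 + B3) := by
  obtain ⟨b1, b2, b3, b4, b5, -, -⟩ := hb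
  by_contra hc
  exact (hNT (min n1 (B2 - 1)) (B2 - 1) (B2 - 1 + n3) (min n1 (A3 - 1)) (min (n1 + n2) (A3 - 1)) (A3 - 1) (by omega) (by omega) (by omega) (by omega)).2.1 ⟨by omega, by omega, by omega⟩

theorem NP1_AA_S3_M23 (n1 n2 n3 A1 A2 A3 B1 B2 B3 : ℤ) (hb : Base n1 n2 n3 A1 A2 A3 B1 B2 B3) (hp : B1 ≤ A1 ∧ B2 ≤ A2 ∧ A3 < B3 ∧ (B1 < A1 ∨ B2 < A2))
    (hNT : NoTwo n1 n2 n3 A1 A2 A3 B1 B2 B3) :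
    (A3 ≤ 0 ∨ A2 ≤ 0 ∨ (min n1 (A3 - 1)) + (min n1 (A2 - 1)) < A1 + A1 ∨ (min (n1 + n2) (A3 - 1)) + (A2 - 1) < A2 + A2 ∨ (A3 - 1) + (min (A2 - 1 + n3) (B3 - 1)) < A3 + A3) := by
  obtain ⟨b1, b2, b3, b4, b5, -, -⟩ := hb
  by_contra hc
  exact (hNT (min n1 (A3 - 1)) (min (n1 + n2) (A3 - 1)) (A3 - 1) (min n1 (A2 - 1)) (A2 - 1) (min (A2 - 1 + n3) (B3 - 1)) (by omega) (by omega) (by omega) (by omega)).1 ⟨by omega, by omega, by omega⟩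

theorem NP1_AB_M13_M13 (n1 n2 n3 A1 A2 A3 B1 B2 B3 : ℤ) (hb : Base n1 n2 n3 A1 A2 A3 B1 B2 B3) (hp : B1 ≤ A1 ∧ B2 ≤ A2 ∧ A3 < B3 ∧ (B1 < A1 ∨ B2 < A2))
    (hNT : NoTwo n1 n2 n3 A1 A2 A3 B1 B2 B3) :
    (A1 ≤ 0 ∨ (A1 - 1) + (A1 - 1) < A1 + B1 ∨ (min (A1 - 1 + n2) (B3 - 1)) + (min (A1 - 1 + n2) (B3 - 1)) < A2 + B2 ∨ (min (A1 - 1 + n2 + n3) (B3 - 1)) + (min (A1 - 1 + n2 + n3) (B3 - 1)) < A3 + B3) := by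
  obtain ⟨b1, b2, b3, b4, b5, -, -⟩ := hb
  by_contra hc
  exact (hNT (A1 - 1) (min (A1 - 1 + n2) (B3 - 1)) (min (A1 - 1 + n2 + n3) (B3 - 1)) (A1 - 1) (min (A1 - 1 + n2) (B3 - 1)) (min (A1 - 1 + n2 + n3) (B3 - 1)) (by omega) (by omega) (by omega) (by omega)).2.1 ⟨by omega, by omega, by omega⟩

theorem NP1_AB_M13_M23 (n1 n2 n3 A1 A2 A3 B1 B2 B3 : ℤ) (hb : Base n1 n2 n3 A1 A2 A3 B1 B2 B3) (hp : B1 ≤ A1 ∧ B2 ≤ A2 ∧ A3 < B3 ∧ (B1 < A1 ∨ B2 < A2))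
    (hNT : NoTwo n1 n2 n3 A1 A2 A3 B1 B2 B3) :
    (A1 ≤ 0 ∨ A2 ≤ 0 ∨ (A1 - 1) + (min n1 (A2 - 1)) < A1 + B1 ∨ (min (A1 - 1 + n2) (B3 - 1)) + (A2 - 1) < A2 + B2 ∨ (min (A1 - 1 + n2 + n3) (B3 - 1)) + (min (A2 - 1 + n3) (B3 - 1)) < A3 + B3) := by
  obtain ⟨b1, b2, b3, b4, b5, -, -⟩ := hb
  by_contra hc
  exact (hNT (A1 - 1) (min (A1 - 1 + n2) (B3 - 1)) (min (A1 - 1 + n2 + n3) (B3 - 1)) (min n1 (A2 - 1)) (A2 - 1) (min (A2 - 1 + n3) (B3 - 1)) (by omega) (by omega) (by omega) (by omega)).2.1 ⟨by omega, by omega, by omega⟩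

theorem NP1_AB_M23_M23 (n1 n2 n3 A1 A2 A3 B1 B2 B3 : ℤ) (hb : Base n1 n2 n3 A1 A2 A3 B1 B2 B3) (hp : B1 ≤ A1 ∧ B2 ≤ A2 ∧ A3 < B3 ∧ (B1 < A1 ∨ B2 < A2))
    (hNT : NoTwo n1 n2 n3 A1 A2 A3 B1 B2 B3) :
    (A2 ≤ 0 ∨ (min n1 (A2 - 1)) + (min n1 (A2 - 1)) < A1 + B1 ∨ (A2 - 1) + (A2 - 1) < A2 + B2 ∨ (min (A2 - 1 + n3) (B3 - 1)) + (min (A2 - 1 + n3) (B3 - 1)) < A3 + B3) := by
  obtain ⟨b1, b2, b3, b4, b5, -, -⟩ := hb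
  by_contra hc
  exact (hNT (min n1 (A2 - 1)) (A2 - 1) (min (A2 - 1 + n3) (B3 - 1)) (min n1 (A2 - 1)) (A2 - 1) (min (A2 - 1 + n3) (B3 - 1)) (by omega) (by omega) (by omega) (by omega)).2.1 ⟨by omega, by omega, by omega⟩

theorem NP1_BB_S2_M13 (n1 n2 n3 A1 A2 A3 B1 B2 B3 : ℤ) (hb : Base n1 n2 n3 A1 A2 A3 B1 B2 B3) (hp : B1 ≤ A1 ∧ B2 ≤ A2 ∧ A3 < B3 ∧ (B1 < A1 ∨ B2 < A2))
    (hNT : NoTwo n1 n2 n3 A1 A2 A3 B1 B2 B3) :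
    (B2 ≤ 0 ∨ A1 ≤ 0 ∨ (min n1 (B2 - 1)) + (A1 - 1) < B1 + B1 ∨ (B2 - 1) + (min (A1 - 1 + n2) (B3 - 1)) < B2 + B2 ∨ (B2 - 1 + n3) + (min (A1 - 1 + n2 + n3) (B3 - 1)) < B3 + B3) := by
  obtain ⟨b1, b2, b3, b4, b5, -, -⟩ := hb
  by_contra hc
  exact (hNT (min n1 (B2 - 1)) (B2 - 1) (B2 - 1 + n3) (A1 - 1) (min (A1 - 1 + n2) (B3 - 1)) (min (A1 - 1 + n2 + n3) (B3 - 1)) (by omega) (by omega) (by omega) (by omega)).2.2 ⟨by omega, by omega, by omega⟩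

theorem NP1_BB_S1_M13 (n1 n2 n3 A1 A2 A3 B1 B2 B3 : ℤ) (hb : Base n1 n2 n3 A1 A2 A3 B1 B2 B3) (hp : B1 ≤ A1 ∧ B2 ≤ A2 ∧ A3 < B3 ∧ (B1 < A1 ∨ B2 < A2))
    (hNT : NoTwo n1 n2 n3 A1 A2 A3 B1 B2 B3) :
    (B1 ≤ 0 ∨ A1 ≤ 0 ∨ (B1 - 1) + (A1 - 1) < B1 + B1 ∨ (B1 - 1 + n2) + (min (A1 - 1 + n2) (B3 - 1)) < B2 + B2 ∨ (B1 - 1 + n2 + n3) + (min (A1 - 1 + n2 + n3) (B3 - 1)) < B3 + B3) := by
  obtain ⟨b1, b2, b3, b4, b5, -, -⟩ := hb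
  by_contra hc
  exact (hNT (B1 - 1) (B1 - 1 + n2) (B1 - 1 + n2 + n3) (A1 - 1) (min (A1 - 1 + n2) (B3 - 1)) (min (A1 - 1 + n2 + n3) (B3 - 1)) (by omega) (by omega) (by omega) (by omega)).2.2 ⟨by omega, by omega, by omega⟩

theorem NP1_BB_S1_M23 (n1 n2 n3 A1 A2 A3 B1 B2 B3 : ℤ) (hb : Base n1 n2 n3 A1 A2 A3 B1 B2 B3) (hp : B1 ≤ A1 ∧ B2 ≤ A2 ∧ A3 < B3 ∧ (B1 < A1 ∨ B2 < A2))
    (hNT : NoTwo n1 n2 n3 A1 A2 A3 B1 B2 B3) :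
    (B1 ≤ 0 ∨ A2 ≤ 0 ∨ (B1 - 1) + (min n1 (A2 - 1)) < B1 + B1 ∨ (B1 - 1 + n2) + (A2 - 1) < B2 + B2 ∨ (B1 - 1 + n2 + n3) + (min (A2 - 1 + n3) (B3 - 1)) < B3 + B3) := by
  obtain ⟨b1, b2, b3, b4, b5, -, -⟩ := hb
  by_contra hc
  exact (hNT (B1 - 1) (B1 - 1 + n2) (B1 - 1 + n2 + n3) (min n1 (A2 - 1)) (A2 - 1) (min (A2 - 1 + n3) (B3 - 1)) (by omega) (by omega) (by omega) (by omega)).2.2 ⟨by omega, by omega, by omega⟩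

theorem NP1_BB_S1_S2 (n1 n2 n3 A1 A2 A3 B1 B2 B3 : ℤ) (hb : Base n1 n2 n3 A1 A2 A3 B1 B2 B3) (hp : B1 ≤ A1 ∧ B2 ≤ A2 ∧ A3 < B3 ∧ (B1 < A1 ∨ B2 < A2))
    (hNT : NoTwo n1 n2 n3 A1 A2 A3 B1 B2 B3) :
    (B1 ≤ 0 ∨ B2 ≤ 0 ∨ (B1 - 1) + (min n1 (B2 - 1)) < B1 + B1 ∨ (B1 - 1 + n2) + (B2 - 1) < B2 + B2 ∨ (B1 - 1 + n2 + n3) + (B2 - 1 + n3) < B3 + B3) := by
  obtain ⟨b1, b2, b3, b4, b5, -, -⟩ := hb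
  by_contra hc
  exact (hNT (B1 - 1) (B1 - 1 + n2) (B1 - 1 + n2 + n3) (min n1 (B2 - 1)) (B2 - 1) (B2 - 1 + n3) (by omega) (by omega) (by omega) (by omega)).2.2 ⟨by omega, by omega, by omega⟩

theorem NP1_BB_S1_S3 (n1 n2 n3 A1 A2 A3 B1 B2 B3 : ℤ) (hb : Base n1 n2 n3 A1 A2 A3 B1 B2 B3) (hp : B1 ≤ A1 ∧ B2 ≤ A2 ∧ A3 < B3 ∧ (B1 < A1 ∨ B2 < A2))
    (hNT : NoTwo n1 n2 n3 A1 A2 A3 B1 B2 B3) :
    (B1 ≤ 0 ∨ A3 ≤ 0 ∨ (B1 - 1) + (min n1 (A3 - 1)) < B1 + B1 ∨ (B1 - 1 + n2) + (min (n1 + n2) (A3 - 1)) < B2 + B2 ∨ (B1 - 1 + n2 + n3) + (A3 - 1) < B3 + B3) := by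
  obtain ⟨b1, b2, b3, b4, b5, -, -⟩ := hb
  by_contra hc
  exact (hNT (B1 - 1) (B1 - 1 + n2) (B1 - 1 + n2 + n3) (min n1 (A3 - 1)) (min (n1 + n2) (A3 - 1)) (A3 - 1) (by omega) (by omega) (by omega) (by omega)).2.2 ⟨by omega, by omega, by omega⟩

theorem NP1_BB_S2_M23 (n1 n2 n3 A1 A2 A3 B1 B2 B3 : ℤ) (hb : Base n1 n2 n3 A1 A2 A3 B1 B2 B3) (hp : B1 ≤ A1 ∧ B2 ≤ A2 ∧ A3 < B3 ∧ (B1 < A1 ∨ B2 < A2))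
    (hNT : NoTwo n1 n2 n3 A1 A2 A3 B1 B2 B3) :
    (B2 ≤ 0 ∨ A2 ≤ 0 ∨ (min n1 (B2 - 1)) + (min n1 (A2 - 1)) < B1 + B1 ∨ (B2 - 1) + (A2 - 1) < B2 + B2 ∨ (B2 - 1 + n3) + (min (A2 - 1 + n3) (B3 - 1)) < B3 + B3) := by
  obtain ⟨b1, b2, b3, b4, b5, -, -⟩ := hb
  by_contra hc
  exact (hNT (min n1 (B2 - 1)) (B2 - 1) (B2 - 1 + n3) (min n1 (A2 - 1)) (A2 - 1) (min (A2 - 1 + n3) (B3 - 1)) (by omega) (by omega) (by omega) (by omega)).2.2 ⟨by omega, by omega, by omega⟩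

theorem NP1_BB_S2_S3 (n1 n2 n3 A1 A2 A3 B1 B2 B3 : ℤ) (hb : Base n1 n2 n3 A1 A2 A3 B1 B2 B3) (hp : B1 ≤ A1 ∧ B2 ≤ A2 ∧ A3 < B3 ∧ (B1 < A1 ∨ B2 < A2))
    (hNT : NoTwo n1 n2 n3 A1 A2 A3 B1 B2 B3) :
    (B2 ≤ 0 ∨ A3 ≤ 0 ∨ (min n1 (B2 - 1)) + (min n1 (A3 - 1)) < B1 + B1 ∨ (B2 - 1) + (min (n1 + n2) (A3 - 1)) < B2 + B2 ∨ (B2 - 1 + n3) + (A3 - 1) < B3 + B3) := by
  obtain ⟨b1, b2, b3, b4, b5, -, -⟩ := hb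
  by_contra hc
  exact (hNT (min n1 (B2 - 1)) (B2 - 1) (B2 - 1 + n3) (min n1 (A3 - 1)) (min (n1 + n2) (A3 - 1)) (A3 - 1) (by omega) (by omega) (by omega) (by omega)).2.2 ⟨by omega, by omega, by omega⟩

theorem coreP1AAA (n1 n2 n3 A1 A2 A3 B1 B2 B3 y1 y2 y3 z1 z2 z3 w1 w2 w3 : ℤ) (hb : Base n1 n2 n3 A1 A2 A3 B1 B2 B3) (hp : B1 ≤ A1 ∧ B2 ≤ A2 ∧ A3 < B3 ∧ (B1 < A1 ∨ B2 < A2))
    (hNT : NoTwo n1 n2 n3 A1 A2 A3 B1 B2 B3)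
    (hy : KindP1 n1 n2 n3 A1 A2 A3 B1 B2 B3 y1 y2 y3) (hz : KindP1 n1 n2 n3 A1 A2 A3 B1 B2 B3 z1 z2 z3) (hw : KindP1 n1 n2 n3 A1 A2 A3 B1 B2 B3 w1 w2 w3)
    (hs : A1 + A1 + A1 ≤ y1 + z1 + w1 ∧ A2 + A2 + A2 ≤ y2 + z2 + w2 ∧ A3 + A3 + A3 ≤ y3 + z3 + w3) :
    Fam n1 n2 n3 A1 A2 A3 B1 B2 B3 := by
  have m_AA_M13_M23 := NP1_AA_M13_M23 n1 n2 n3 A1 A2 A3 B1 B2 B3 hb hp hNT
  have m_AA_S1_S3 := NP1_AA_S1_S3 n1 n2 n3 A1 A2 A3 B1 B2 B3 hb hp hNT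
  have m_AA_S3_M13 := NP1_AA_S3_M13 n1 n2 n3 A1 A2 A3 B1 B2 B3 hb hp hNT
  have m_AB_S1_S3 := NP1_AB_S1_S3 n1 n2 n3 A1 A2 A3 B1 B2 B3 hb hp hNT
  have m_AA_S2_M13 := NP1_AA_S2_M13 n1 n2 n3 A1 A2 A3 B1 B2 B3 hb hp hNT
  have m_AB_S1_S2 := NP1_AB_S1_S2 n1 n2 n3 A1 A2 A3 B1 B2 B3 hb hp hNT
  have m_AA_S2_S3 := NP1_AA_S2_S3 n1 n2 n3 A1 A2 A3 B1 B2 B3 hb hp hNT
  have m_AB_S2_M13 := NP1_AB_S2_M13 n1 n2 n3 A1 A2 A3 B1 B2 B3 hb hp hNT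
  have m_AB_S2_S3 := NP1_AB_S2_S3 n1 n2 n3 A1 A2 A3 B1 B2 B3 hb hp hNT
  have m_AA_S3_M23 := NP1_AA_S3_M23 n1 n2 n3 A1 A2 A3 B1 B2 B3 hb hp hNT
  have hs_ywz : A1 + A1 + A1 ≤ y1 + w1 + z1 ∧ A2 + A2 + A2 ≤ y2 + w2 + z2 ∧ A3 + A3 + A3 ≤ y3 + w3 + z3 := by
    clear m_AA_M13_M23 m_AA_S1_S3 m_AA_S3_M13 m_AB_S1_S3 m_AA_S2_M13 m_AB_S1_S2 m_AA_S2_S3 m_AB_S2_M13 m_AB_S2_S3 m_AA_S3_M23 hy hz hw hNT hb hp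
    omega
  have hs_zyw : A1 + A1 + A1 ≤ z1 + y1 + w1 ∧ A2 + A2 + A2 ≤ z2 + y2 + w2 ∧ A3 + A3 + A3 ≤ z3 + y3 + w3 := by
    clear m_AA_M13_M23 m_AA_S1_S3 m_AA_S3_M13 m_AB_S1_S3 m_AA_S2_M13 m_AB_S1_S2 m_AA_S2_S3 m_AB_S2_M13 m_AB_S2_S3 m_AA_S3_M23 hy hz hw hNT hb hp
    omega
  have hs_zwy : A1 + A1 + A1 ≤ z1 + w1 + y1 ∧ A2 + A2 + A2 ≤ z2 + w2 + y2 ∧ A3 + A3 + A3 ≤ z3 + w3 + y3 := by
    clear m_AA_M13_M23 m_AA_S1_S3 m_AA_S3_M13 m_AB_S1_S3 m_AA_S2_M13 m_AB_S1_S2 m_AA_S2_S3 m_AB_S2_M13 m_AB_S2_S3 m_AA_S3_M23 hy hz hw hNT hb hp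
    omega
  have hs_wyz : A1 + A1 + A1 ≤ w1 + y1 + z1 ∧ A2 + A2 + A2 ≤ w2 + y2 + z2 ∧ A3 + A3 + A3 ≤ w3 + y3 + z3 := by
    clear m_AA_M13_M23 m_AA_S1_S3 m_AA_S3_M13 m_AB_S1_S3 m_AA_S2_M13 m_AB_S1_S2 m_AA_S2_S3 m_AB_S2_M13 m_AB_S2_S3 m_AA_S3_M23 hy hz hw hNT hb hp
    omega
  have hs_wzy : A1 + A1 + A1 ≤ w1 + z1 + y1 ∧ A2 + A2 + A2 ≤ w2 + z2 + y2 ∧ A3 + A3 + A3 ≤ w3 + z3 + y3 := by
    clear m_AA_M13_M23 m_AA_S1_S3 m_AA_S3_M13 m_AB_S1_S3 m_AA_S2_M13 m_AB_S1_S2 m_AA_S2_S3 m_AB_S2_M13 m_AB_S2_S3 m_AA_S3_M23 hy hz hw hNT hb hp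
    omega
  rcases hy with hy | hy | hy | hy | hy <;> rcases hz with hz | hz | hz | hz | hz <;>
    rcases hw with hw | hw | hw | hw | hw
  · exact (P1_AAA_S1_S1_S1 n1 n2 n3 A1 A2 A3 B1 B2 B3 hb hp hy.1 ⟨hs.1.trans (add_le_add (add_le_add hy.2.1 hz.2.1) hw.2.1), hs.2.1.trans (add_le_add (add_le_add hy.2.2.1 hz.2.2.1) hw.2.2.1), hs.2.2.trans (add_le_add (add_le_add hy.2.2.2 hz.2.2.2) hw.2.2.2)⟩ ).elim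
  · exact (P1_AAA_S1_S1_S2 n1 n2 n3 A1 A2 A3 B1 B2 B3 hb hp ⟨hy.1, hw.1⟩ ⟨hs.1.trans (add_le_add (add_le_add hy.2.1 hz.2.1) hw.2.1), hs.1.trans (add_le_add (add_le_add hy.2.1 hz.2.1) hw.2.2.1), hs.2.1.trans (add_le_add (add_le_add hy.2.2.1 hz.2.2.1) hw.2.2.2.1), hs.2.2.trans (add_le_add (add_le_add hy.2.2.2 hz.2.2.2) hw.2.2.2.2)⟩ m_AA_S1_S3).elim
  · exact (P1_AAA_S1_S1_S3 n1 n2 n3 A1 A2 A3 B1 B2 B3 hb hp ⟨hw.1, hy.1⟩ ⟨hs.1.trans (add_le_add (add_le_add hy.2.1 hz.2.1) hw.2.1), hs.1.trans (add_le_add (add_le_add hy.2.1 hz.2.1) hw.2.2.1), hs.2.1.trans (add_le_add (add_le_add hy.2.2.1 hz.2.2.1) hw.2.2.2.1), hs.2.1.trans (add_le_add (add_le_add hy.2.2.1 hz.2.2.1) hw.2.2.2.2.1), hs.2.2.trans (add_le_add (add_le_add hy.2.2.2 hz.2.2.2) hw.2.2.2.2.2)⟩ m_AA_S1_S3).elim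
  · exact (P1_AAA_S1_S1_M13 n1 n2 n3 A1 A2 A3 B1 B2 B3 hb hp ⟨hw.1, hy.1⟩ ⟨hs.1.trans (add_le_add (add_le_add hy.2.1 hz.2.1) hw.2.1), hs.2.1.trans (add_le_add (add_le_add hy.2.2.1 hz.2.2.1) hw.2.2.1), hs.2.1.trans (add_le_add (add_le_add hy.2.2.1 hz.2.2.1) hw.2.2.2.1), hs.2.2.trans (add_le_add (add_le_add hy.2.2.2 hz.2.2.2) hw.2.2.2.2.1), hs.2.2.trans (add_le_add (add_le_add hy.2.2.2 hz.2.2.2) hw.2.2.2.2.2)⟩ ).elim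
  · exact (P1_AAA_S1_S1_M23 n1 n2 n3 A1 A2 A3 B1 B2 B3 hb hp ⟨hw.1, hy.1⟩ ⟨hs.1.trans (add_le_add (add_le_add hy.2.1 hz.2.1) hw.2.1), hs.1.trans (add_le_add (add_le_add hy.2.1 hz.2.1) hw.2.2.1), hs.2.1.trans (add_le_add (add_le_add hy.2.2.1 hz.2.2.1) hw.2.2.2.1), hs.2.2.trans (add_le_add (add_le_add hy.2.2.2 hz.2.2.2) hw.2.2.2.2.1), hs.2.2.trans (add_le_add (add_le_add hy.2.2.2 hz.2.2.2) hw.2.2.2.2.2)⟩ m_AA_S1_S3).elim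
  · exact (P1_AAA_S1_S1_S2 n1 n2 n3 A1 A2 A3 B1 B2 B3 hb hp ⟨hy.1, hz.1⟩ ⟨hs_ywz.1.trans (add_le_add (add_le_add hy.2.1 hw.2.1) hz.2.1), hs_ywz.1.trans (add_le_add (add_le_add hy.2.1 hw.2.1) hz.2.2.1), hs_ywz.2.1.trans (add_le_add (add_le_add hy.2.2.1 hw.2.2.1) hz.2.2.2.1), hs_ywz.2.2.trans (add_le_add (add_le_add hy.2.2.2 hw.2.2.2) hz.2.2.2.2)⟩ m_AA_S1_S3).elim
  · exact (P1_AAA_S1_S2_S2 n1 n2 n3 A1 A2 A3 B1 B2 B3 hb hp ⟨hy.1, hz.1⟩ ⟨hs.1.trans (add_le_add (add_le_add hy.2.1 hz.2.1) hw.2.1), hs.1.trans (add_le_add (add_le_add hy.2.1 hz.2.1) hw.2.2.1), hs.1.trans (add_le_add (add_le_add hy.2.1 hz.2.2.1) hw.2.1), hs.1.trans (add_le_add (add_le_add hy.2.1 hz.2.2.1) hw.2.2.1), hs.2.1.trans (add_le_add (add_le_add hy.2.2.1 hz.2.2.2.1) hw.2.2.2.1), hs.2.2.trans (add_le_add (add_le_add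 hy.2.2.2 hz.2.2.2.2) hw.2.2.2.2)⟩ m_AB_S1_S2).elim
  · exact (P1_AAA_S1_S2_S3 n1 n2 n3 A1 A2 A3 B1 B2 B3 hb hp ⟨hw.1, hy.1, hz.1⟩ ⟨hs.1.trans (add_le_add (add_le_add hy.2.1 hz.2.1) hw.2.1), hs.1.trans (add_le_add (add_le_add hy.2.1 hz.2.1) hw.2.2.1), hs.1.trans (add_le_add (add_le_add hy.2.1 hz.2.2.1) hw.2.1), hs.1.trans (add_le_add (add_le_add hy.2.1 hz.2.2.1) hw.2.2.1), hs.2.1.trans (add_le_add (add_le_add hy.2.2.1 hz.2.2.2.1) hw.2.2.2.1), hs.2.1.trans (add_le_add (add_le_add hy.2.2.1 hz.2.2.2.1) hw.2.2.2.2.1), hs.2.2.trans (add_le_add (add_le_add hy.2.2.2 hz.2.2.2.2) hw.2.2.2.2.2)⟩ m_AA_S1_S3 m_AA_S2_S3 m_AA_M13_M23 m_AB_S1_S2).elim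
  · exact (P1_AAA_S1_S2_M13 n1 n2 n3 A1 A2 A3 B1 B2 B3 hb hp ⟨hw.1, hy.1, hz.1⟩ ⟨hs.1.trans (add_le_add (add_le_add hy.2.1 hz.2.1) hw.2.1), hs.1.trans (add_le_add (add_le_add hy.2.1 hz.2.2.1) hw.2.1), hs.2.1.trans (add_le_add (add_le_add hy.2.2.1 hz.2.2.2.1) hw.2.2.1), hs.2.1.trans (add_le_add (add_le_add hy.2.2.1 hz.2.2.2.1) hw.2.2.2.1), hs.2.2.trans (add_le_add (add_le_add hy.2.2.2 hz.2.2.2.2) hw.2.2.2.2.1), hs.2.2.trans (add_le_add (add_le_add hy.2.2.2 hz.2.2.2.2) hw.2.2.2.2.2)⟩ m_AA_S1_S3 m_AA_S2_M13).elim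
  · exact (P1_AAA_S1_S2_M23 n1 n2 n3 A1 A2 A3 B1 B2 B3 hb hp ⟨hw.1, hy.1, hz.1⟩ ⟨hs.1.trans (add_le_add (add_le_add hy.2.1 hz.2.1) hw.2.1), hs.1.trans (add_le_add (add_le_add hy.2.1 hz.2.1) hw.2.2.1), hs.1.trans (add_le_add (add_le_add hy.2.1 hz.2.2.1) hw.2.1), hs.1.trans (add_le_add (add_le_add hy.2.1 hz.2.2.1) hw.2.2.1), hs.2.1.trans (add_le_add (add_le_add hy.2.2.1 hz.2.2.2.1) hw.2.2.2.1), hs.2.2.trans (add_le_add (add_le_add hy.2.2.2 hz.2.2.2.2) hw.2.2.2.2.1), hs.2.2.trans (add_le_add (add_le_add hy.2.2.2 hz.2.2.2.2) hw.2.2.2.2.2)⟩ m_AB_S1_S3).elim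
  · exact (P1_AAA_S1_S1_S3 n1 n2 n3 A1 A2 A3 B1 B2 B3 hb hp ⟨hz.1, hy.1⟩ ⟨hs_ywz.1.trans (add_le_add (add_le_add hy.2.1 hw.2.1) hz.2.1), hs_ywz.1.trans (add_le_add (add_le_add hy.2.1 hw.2.1) hz.2.2.1), hs_ywz.2.1.trans (add_le_add (add_le_add hy.2.2.1 hw.2.2.1) hz.2.2.2.1), hs_ywz.2.1.trans (add_le_add (add_le_add hy.2.2.1 hw.2.2.1) hz.2.2.2.2.1), hs_ywz.2.2.trans (add_le_add (add_le_add hy.2.2.2 hw.2.2.2) hz.2.2.2.2.2)⟩ m_AA_S1_S3).elim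
  · exact (P1_AAA_S1_S2_S3 n1 n2 n3 A1 A2 A3 B1 B2 B3 hb hp ⟨hz.1, hy.1, hw.1⟩ ⟨hs_ywz.1.trans (add_le_add (add_le_add hy.2.1 hw.2.1) hz.2.1), hs_ywz.1.trans (add_le_add (add_le_add hy.2.1 hw.2.1) hz.2.2.1), hs_ywz.1.trans (add_le_add (add_le_add hy.2.1 hw.2.2.1) hz.2.1), hs_ywz.1.trans (add_le_add (add_le_add hy.2.1 hw.2.2.1) hz.2.2.1), hs_ywz.2.1.trans (add_le_add (add_le_add hy.2.2.1 hw.2.2.2.1) hz.2.2.2.1), hs_ywz.2.1.trans (add_le_add (add_le_add hy.2.2.1 hw.2.2.2.1) hz.2.2.2.2.1), hs_ywz.2.2.trans (add_le_add (add_le_add hy.2.2.2 hw.2.2.2.2) hz.2.2.2.2.2)⟩ m_AA_S1_S3 m_AA_S2_S3 m_AA_M13_M23 m_AB_S1_S2).elim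
  · exact (P1_AAA_S1_S3_S3 n1 n2 n3 A1 A2 A3 B1 B2 B3 hb hp ⟨hz.1, hy.1⟩ ⟨hs.1.trans (add_le_add (add_le_add hy.2.1 hz.2.1) hw.2.1), hs.1.trans (add_le_add (add_le_add hy.2.1 hz.2.1) hw.2.2.1), hs.1.trans (add_le_add (add_le_add hy.2.1 hz.2.2.1) hw.2.1), hs.1.trans (add_le_add (add_le_add hy.2.1 hz.2.2.1) hw.2.2.1), hs.2.1.trans (add_le_add (add_le_add hy.2.2.1 hz.2.2.2.1) hw.2.2.2.1), hs.2.1.trans (add_le_add (add_le_add hy.2.2.1 hz.2.2.2.1) hw.2.2.2.2.1), hs.2.1.trans (add_le_add (add_le_add hy.2.2.1 hz.2.2.2.2.1) hw.2.2.2.1), hs.2.1.trans (add_le_add (add_le_add hy.2.2.1 hz.2.2.2.2.1) hw.2.2.2.2.1), hs.2.2.trans (add_le_add (add_le_add hy.2.2.2 hz.2.2.2.2.2) hw.2.2.2.2.2)⟩ m_AB_S1_S3 m_AA_S3_M13).elim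
  · exact (P1_AAA_S1_S3_M13 n1 n2 n3 A1 A2 A3 B1 B2 B3 hb hp ⟨hw.1, hz.1, hy.1⟩ ⟨hs.1.trans (add_le_add (add_le_add hy.2.1 hz.2.1) hw.2.1), hs.1.trans (add_le_add (add_le_add hy.2.1 hz.2.2.1) hw.2.1), hs.2.1.trans (add_le_add (add_le_add hy.2.2.1 hz.2.2.2.1) hw.2.2.1), hs.2.1.trans (add_le_add (add_le_add hy.2.2.1 hz.2.2.2.1) hw.2.2.2.1), hs.2.1.trans (add_le_add (add_le_add hy.2.2.1 hz.2.2.2.2.1) hw.2.2.1), hs.2.1.trans (add_le_add (add_le_add hy.2.2.1 hz.2.2.2.2.1) hw.2.2.2.1), hs.2.2.trans (add_le_add (add_le_add hy.2.2.2 hz.2.2.2.2.2) hw.2.2.2.2.1), hs.2.2.trans (add_le_add (add_le_add hy.2.2.2 hz.2.2.2.2.2) hw.2.2.2.2.2)⟩ m_AA_S1_S3 m_AA_M13_M23).elim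
  · exact P1_AAA_S1_S3_M23 n1 n2 n3 A1 A2 A3 B1 B2 B3 hb hp ⟨hw.1, hz.1, hy.1⟩ ⟨hs.1.trans (add_le_add (add_le_add hy.2.1 hz.2.1) hw.2.1), hs.1.trans (add_le_add (add_le_add hy.2.1 hz.2.1) hw.2.2.1), hs.1.trans (add_le_add (add_le_add hy.2.1 hz.2.2.1) hw.2.1), hs.1.trans (add_le_add (add_le_add hy.2.1 hz.2.2.1) hw.2.2.1), hs.2.1.trans (add_le_add (add_le_add hy.2.2.1 hz.2.2.2.1) hw.2.2.2.1), hs.2.1.trans (add_le_add (add_le_add hy.2.2.1 hz.2.2.2.2.1) hw.2.2.2.1), hs.2.2.trans (add_le_add (add_le_add hy.2.2.2 hz.2.2.2.2.2) hw.2.2.2.2.1), hs.2.2.trans (add_le_add (add_le_add hy.2.2.2 hz.2.2.2.2.2) hw.2.2.2.2.2)⟩ m_AA_S1_S3 m_AA_S2_S3 m_AA_M13_M23 m_AB_S1_S3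
  · exact (P1_AAA_S1_S1_M13 n1 n2 n3 A1 A2 A3 B1 B2 B3 hb hp ⟨hz.1, hy.1⟩ ⟨hs_ywz.1.trans (add_le_add (add_le_add hy.2.1 hw.2.1) hz.2.1), hs_ywz.2.1.trans (add_le_add (add_le_add hy.2.2.1 hw.2.2.1) hz.2.2.1), hs_ywz.2.1.trans (add_le_add (add_le_add hy.2.2.1 hw.2.2.1) hz.2.2.2.1), hs_ywz.2.2.trans (add_le_add (add_le_add hy.2.2.2 hw.2.2.2) hz.2.2.2.2.1), hs_ywz.2.2.trans (add_le_add (add_le_add hy.2.2.2 hw.2.2.2) hz.2.2.2.2.2)⟩ ).elim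
  · exact (P1_AAA_S1_S2_M13 n1 n2 n3 A1 A2 A3 B1 B2 B3 hb hp ⟨hz.1, hy.1, hw.1⟩ ⟨hs_ywz.1.trans (add_le_add (add_le_add hy.2.1 hw.2.1) hz.2.1), hs_ywz.1.trans (add_le_add (add_le_add hy.2.1 hw.2.2.1) hz.2.1), hs_ywz.2.1.trans (add_le_add (add_le_add hy.2.2.1 hw.2.2.2.1) hz.2.2.1), hs_ywz.2.1.trans (add_le_add (add_le_add hy.2.2.1 hw.2.2.2.1) hz.2.2.2.1), hs_ywz.2.2.trans (add_le_add (add_le_add hy.2.2.2 hw.2.2.2.2) hz.2.2.2.2.1), hs_ywz.2.2.trans (add_le_add (add_le_add hy.2.2.2 hw.2.2.2.2) hz.2.2.2.2.2)⟩ m_AA_S1_S3 m_AA_S2_M13).elim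
  · exact (P1_AAA_S1_S3_M13 n1 n2 n3 A1 A2 A3 B1 B2 B3 hb hp ⟨hz.1, hw.1, hy.1⟩ ⟨hs_ywz.1.trans (add_le_add (add_le_add hy.2.1 hw.2.1) hz.2.1), hs_ywz.1.trans (add_le_add (add_le_add hy.2.1 hw.2.2.1) hz.2.1), hs_ywz.2.1.trans (add_le_add (add_le_add hy.2.2.1 hw.2.2.2.1) hz.2.2.1), hs_ywz.2.1.trans (add_le_add (add_le_add hy.2.2.1 hw.2.2.2.1) hz.2.2.2.1), hs_ywz.2.1.trans (add_le_add (add_le_add hy.2.2.1 hw.2.2.2.2.1) hz.2.2.1), hs_ywz.2.1.trans (add_le_add (add_le_add hy.2.2.1 hw.2.2.2.2.1) hz.2.2.2.1), hs_ywz.2.2.trans (add_le_add (add_le_add hy.2.2.2 hw.2.2.2.2.2) hz.2.2.2.2.1), hs_ywz.2.2.trans (add_le_add (add_le_add hy.2.2.2 hw.2.2.2.2.2) hz.2.2.2.2.2)⟩ m_AA_S1_S3 m_AA_M13_M23).elim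
  · exact (P1_AAA_S1_M13_M13 n1 n2 n3 A1 A2 A3 B1 B2 B3 hb hp ⟨hz.1, hy.1⟩ ⟨hs.1.trans (add_le_add (add_le_add hy.2.1 hz.2.1) hw.2.1), hs.2.1.trans (add_le_add (add_le_add hy.2.2.1 hz.2.2.1) hw.2.2.1), hs.2.1.trans (add_le_add (add_le_add hy.2.2.1 hz.2.2.1) hw.2.2.2.1), hs.2.1.trans (add_le_add (add_le_add hy.2.2.1 hz.2.2.2.1) hw.2.2.1), hs.2.1.trans (add_le_add (add_le_add hy.2.2.1 hz.2.2.2.1) hw.2.2.2.1), hs.2.2.trans (add_le_add (add_le_add hy.2.2.2 hz.2.2.2.2.1) hw.2.2.2.2.1), hs.2.2.trans (add_le_add (add_le_add hy.2.2.2 hz.2.2.2.2.1) hw.2.2.2.2.2), hs.2.2.trans (add_le_add (add_le_add hy.2.2.2 hz.2.2.2.2.2) hw.2.2.2.2.1), hs.2.2.trans (add_le_add (add_le_add hy.2.2.2 hz.2.2.2.2.2) hw.2.2.2.2.2)⟩ ).elim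
  · exact (P1_AAA_S1_M13_M23 n1 n2 n3 A1 A2 A3 B1 B2 B3 hb hp ⟨hz.1, hw.1, hy.1⟩ ⟨hs.1.trans (add_le_add (add_le_add hy.2.1 hz.2.1) hw.2.1), hs.1.trans (add_le_add (add_le_add hy.2.1 hz.2.1) hw.2.2.1), hs.2.1.trans (add_le_add (add_le_add hy.2.2.1 hz.2.2.1) hw.2.2.2.1), hs.2.1.trans (add_le_add (add_le_add hy.2.2.1 hz.2.2.2.1) hw.2.2.2.1), hs.2.2.trans (add_le_add (add_le_add hy.2.2.2 hz.2.2.2.2.1) hw.2.2.2.2.1), hs.2.2.trans (add_le_add (add_le_add hy.2.2.2 hz.2.2.2.2.1) hw.2.2.2.2.2), hs.2.2.trans (add_le_add (add_le_add hy.2.2.2 hz.2.2.2.2.2) hw.2.2.2.2.1), hs.2.2.trans (add_le_add (add_le_add hy.2.2.2 hz.2.2.2.2.2) hw.2.2.2.2.2)⟩ m_AA_S1_S3 m_AA_S3_M13 m_AA_M13_M23).elim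
  · exact (P1_AAA_S1_S1_M23 n1 n2 n3 A1 A2 A3 B1 B2 B3 hb hp ⟨hz.1, hy.1⟩ ⟨hs_ywz.1.trans (add_le_add (add_le_add hy.2.1 hw.2.1) hz.2.1), hs_ywz.1.trans (add_le_add (add_le_add hy.2.1 hw.2.1) hz.2.2.1), hs_ywz.2.1.trans (add_le_add (add_le_add hy.2.2.1 hw.2.2.1) hz.2.2.2.1), hs_ywz.2.2.trans (add_le_add (add_le_add hy.2.2.2 hw.2.2.2) hz.2.2.2.2.1), hs_ywz.2.2.trans (add_le_add (add_le_add hy.2.2.2 hw.2.2.2) hz.2.2.2.2.2)⟩ m_AA_S1_S3).elim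
  · exact (P1_AAA_S1_S2_M23 n1 n2 n3 A1 A2 A3 B1 B2 B3 hb hp ⟨hz.1, hy.1, hw.1⟩ ⟨hs_ywz.1.trans (add_le_add (add_le_add hy.2.1 hw.2.1) hz.2.1), hs_ywz.1.trans (add_le_add (add_le_add hy.2.1 hw.2.1) hz.2.2.1), hs_ywz.1.trans (add_le_add (add_le_add hy.2.1 hw.2.2.1) hz.2.1), hs_ywz.1.trans (add_le_add (add_le_add hy.2.1 hw.2.2.1) hz.2.2.1), hs_ywz.2.1.trans (add_le_add (add_le_add hy.2.2.1 hw.2.2.2.1) hz.2.2.2.1), hs_ywz.2.2.trans (add_le_add (add_le_add hy.2.2.2 hw.2.2.2.2) hz.2.2.2.2.1), hs_ywz.2.2.trans (add_le_add (add_le_add hy.2.2.2 hw.2.2.2.2) hz.2.2.2.2.2)⟩ m_AB_S1_S3).elim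
  · exact P1_AAA_S1_S3_M23 n1 n2 n3 A1 A2 A3 B1 B2 B3 hb hp ⟨hz.1, hw.1, hy.1⟩ ⟨hs_ywz.1.trans (add_le_add (add_le_add hy.2.1 hw.2.1) hz.2.1), hs_ywz.1.trans (add_le_add (add_le_add hy.2.1 hw.2.1) hz.2.2.1), hs_ywz.1.trans (add_le_add (add_le_add hy.2.1 hw.2.2.1) hz.2.1), hs_ywz.1.trans (add_le_add (add_le_add hy.2.1 hw.2.2.1) hz.2.2.1), hs_ywz.2.1.trans (add_le_add (add_le_add hy.2.2.1 hw.2.2.2.1) hz.2.2.2.1), hs_ywz.2.1.trans (add_le_add (add_le_add hy.2.2.1 hw.2.2.2.2.1) hz.2.2.2.1), hs_ywz.2.2.trans (add_le_add (add_le_add hy.2.2.2 hw.2.2.2.2.2) hz.2.2.2.2.1), hs_ywz.2.2.trans (add_le_add (add_le_add hy.2.2.2 hw.2.2.2.2.2) hz.2.2.2.2.2)⟩ m_AA_S1_S3 m_AA_S2_S3 m_AA_M13_M23 m_AB_S1_S3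
  · exact (P1_AAA_S1_M13_M23 n1 n2 n3 A1 A2 A3 B1 B2 B3 hb hp ⟨hw.1, hz.1, hy.1⟩ ⟨hs_ywz.1.trans (add_le_add (add_le_add hy.2.1 hw.2.1) hz.2.1), hs_ywz.1.trans (add_le_add (add_le_add hy.2.1 hw.2.1) hz.2.2.1), hs_ywz.2.1.trans (add_le_add (add_le_add hy.2.2.1 hw.2.2.1) hz.2.2.2.1), hs_ywz.2.1.trans (add_le_add (add_le_add hy.2.2.1 hw.2.2.2.1) hz.2.2.2.1), hs_ywz.2.2.trans (add_le_add (add_le_add hy.2.2.2 hw.2.2.2.2.1) hz.2.2.2.2.1), hs_ywz.2.2.trans (add_le_add (add_le_add hy.2.2.2 hw.2.2.2.2.1) hz.2.2.2.2.2), hs_ywz.2.2.trans (add_le_add (add_le_add hy.2.2.2 hw.2.2.2.2.2) hz.2.2.2.2.1), hs_ywz.2.2.trans (add_le_add (add_le_add hy.2.2.2 hw.2.2.2.2.2) hz.2.2.2.2.2)⟩ m_AA_S1_S3 m_AA_S3_M13 m_AA_M13_M23).elim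
  · exact (P1_AAA_S1_M23_M23 n1 n2 n3 A1 A2 A3 B1 B2 B3 hb hp ⟨hz.1, hy.1⟩ ⟨hs.1.trans (add_le_add (add_le_add hy.2.1 hz.2.1) hw.2.1), hs.1.trans (add_le_add (add_le_add hy.2.1 hz.2.1) hw.2.2.1), hs.1.trans (add_le_add (add_le_add hy.2.1 hz.2.2.1) hw.2.1), hs.1.trans (add_le_add (add_le_add hy.2.1 hz.2.2.1) hw.2.2.1), hs.2.1.trans (add_le_add (add_le_add hy.2.2.1 hz.2.2.2.1) hw.2.2.2.1), hs.2.2.trans (add_le_add (add_le_add hy.2.2.2 hz.2.2.2.2.1) hw.2.2.2.2.1), hs.2.2.trans (add_le_add (add_le_add hy.2.2.2 hz.2.2.2.2.1) hw.2.2.2.2.2), hs.2.2.trans (add_le_add (add_le_add hy.2.2.2 hz.2.2.2.2.2) hw.2.2.2.2.1), hs.2.2.trans (add_le_add (add_le_add hy.2.2.2 hz.2.2.2.2.2) hw.2.2.2.2.2)⟩ m_AB_S1_S3).elim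
  · exact (P1_AAA_S1_S1_S2 n1 n2 n3 A1 A2 A3 B1 B2 B3 hb hp ⟨hz.1, hy.1⟩ ⟨hs_zwy.1.trans (add_le_add (add_le_add hz.2.1 hw.2.1) hy.2.1), hs_zwy.1.trans (add_le_add (add_le_add hz.2.1 hw.2.1) hy.2.2.1), hs_zwy.2.1.trans (add_le_add (add_le_add hz.2.2.1 hw.2.2.1) hy.2.2.2.1), hs_zwy.2.2.trans (add_le_add (add_le_add hz.2.2.2 hw.2.2.2) hy.2.2.2.2)⟩ m_AA_S1_S3).elim
  · exact (P1_AAA_S1_S2_S2 n1 n2 n3 A1 A2 A3 B1 B2 B3 hb hp ⟨hz.1, hy.1⟩ ⟨hs_zyw.1.trans (add_le_add (add_le_add hz.2.1 hy.2.1) hw.2.1), hs_zyw.1.trans (add_le_add (add_le_add hz.2.1 hy.2.1) hw.2.2.1), hs_zyw.1.trans (add_le_add (add_le_add hz.2.1 hy.2.2.1) hw.2.1), hs_zyw.1.trans (add_le_add (add_le_add hz.2.1 hy.2.2.1) hw.2.2.1), hs_zyw.2.1.trans (add_le_add (add_le_add hz.2.2.1 hy.2.2.2.1) hw.2.2.2.1), hs_zyw.2.2.trans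 (add_le_add (add_le_add hz.2.2.2 hy.2.2.2.2) hw.2.2.2.2)⟩ m_AB_S1_S2).elim
  · exact (P1_AAA_S1_S2_S3 n1 n2 n3 A1 A2 A3 B1 B2 B3 hb hp ⟨hw.1, hz.1, hy.1⟩ ⟨hs_zyw.1.trans (add_le_add (add_le_add hz.2.1 hy.2.1) hw.2.1), hs_zyw.1.trans (add_le_add (add_le_add hz.2.1 hy.2.1) hw.2.2.1), hs_zyw.1.trans (add_le_add (add_le_add hz.2.1 hy.2.2.1) hw.2.1), hs_zyw.1.trans (add_le_add (add_le_add hz.2.1 hy.2.2.1) hw.2.2.1), hs_zyw.2.1.trans (add_le_add (add_le_add hz.2.2.1 hy.2.2.2.1) hw.2.2.2.1), hs_zyw.2.1.trans (add_le_add (add_le_add hz.2.2.1 hy.2.2.2.1) hw.2.2.2.2.1), hs_zyw.2.2.trans (add_le_add (add_le_add hz.2.2.2 hy.2.2.2.2) hw.2.2.2.2.2)⟩ m_AA_S1_S3 m_AA_S2_S3 m_AA_M13_M23 m_AB_S1_S2).elim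
  · exact (P1_AAA_S1_S2_M13 n1 n2 n3 A1 A2 A3 B1 B2 B3 hb hp ⟨hw.1, hz.1, hy.1⟩ ⟨hs_zyw.1.trans (add_le_add (add_le_add hz.2.1 hy.2.1) hw.2.1), hs_zyw.1.trans (add_le_add (add_le_add hz.2.1 hy.2.2.1) hw.2.1), hs_zyw.2.1.trans (add_le_add (add_le_add hz.2.2.1 hy.2.2.2.1) hw.2.2.1), hs_zyw.2.1.trans (add_le_add (add_le_add hz.2.2.1 hy.2.2.2.1) hw.2.2.2.1), hs_zyw.2.2.trans (add_le_add (add_le_add hz.2.2.2 hy.2.2.2.2) hw.2.2.2.2.1), hs_zyw.2.2.trans (add_le_add (add_le_add hz.2.2.2 hy.2.2.2.2) hw.2.2.2.2.2)⟩ m_AA_S1_S3 m_AA_S2_M13).elim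
  · exact (P1_AAA_S1_S2_M23 n1 n2 n3 A1 A2 A3 B1 B2 B3 hb hp ⟨hw.1, hz.1, hy.1⟩ ⟨hs_zyw.1.trans (add_le_add (add_le_add hz.2.1 hy.2.1) hw.2.1), hs_zyw.1.trans (add_le_add (add_le_add hz.2.1 hy.2.1) hw.2.2.1), hs_zyw.1.trans (add_le_add (add_le_add hz.2.1 hy.2.2.1) hw.2.1), hs_zyw.1.trans (add_le_add (add_le_add hz.2.1 hy.2.2.1) hw.2.2.1), hs_zyw.2.1.trans (add_le_add (add_le_add hz.2.2.1 hy.2.2.2.1) hw.2.2.2.1), hs_zyw.2.2.trans (add_le_add (add_le_add hz.2.2.2 hy.2.2.2.2) hw.2.2.2.2.1), hs_zyw.2.2.trans (add_le_add (add_le_add hz.2.2.2 hy.2.2.2.2) hw.2.2.2.2.2)⟩ m_AB_S1_S3).elim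
  · exact (P1_AAA_S1_S2_S2 n1 n2 n3 A1 A2 A3 B1 B2 B3 hb hp ⟨hw.1, hy.1⟩ ⟨hs_wyz.1.trans (add_le_add (add_le_add hw.2.1 hy.2.1) hz.2.1), hs_wyz.1.trans (add_le_add (add_le_add hw.2.1 hy.2.1) hz.2.2.1), hs_wyz.1.trans (add_le_add (add_le_add hw.2.1 hy.2.2.1) hz.2.1), hs_wyz.1.trans (add_le_add (add_le_add hw.2.1 hy.2.2.1) hz.2.2.1), hs_wyz.2.1.trans (add_le_add (add_le_add hw.2.2.1 hy.2.2.2.1) hz.2.2.2.1), hs_wyz.2.2.trans (add_le_add (add_le_add hw.2.2.2 hy.2.2.2.2) hz.2.2.2.2)⟩ m_AB_S1_S2).elim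
  · exact (P1_AAA_S2_S2_S2 n1 n2 n3 A1 A2 A3 B1 B2 B3 hb hp hy.1 ⟨hs.1.trans (add_le_add (add_le_add hy.2.1 hz.2.1) hw.2.1), hs.1.trans (add_le_add (add_le_add hy.2.1 hz.2.1) hw.2.2.1), hs.1.trans (add_le_add (add_le_add hy.2.1 hz.2.2.1) hw.2.1), hs.1.trans (add_le_add (add_le_add hy.2.1 hz.2.2.1) hw.2.2.1), hs.1.trans (add_le_add (add_le_add hy.2.2.1 hz.2.1) hw.2.1), hs.1.trans (add_le_add (add_le_add hy.2.2.1 hz.2.1) hw.2.2.1), hs.1.trans (add_le_add (add_le_add hy.2.2.1 hz.2.2.1) hw.2.1), hs.1.trans (add_le_add (add_le_add hy.2.2.1 hz.2.2.1) hw.2.2.1), hs.2.1.trans (add_le_add (add_le_add hy.2.2.2.1 hz.2.2.2.1) hw.2.2.2.1), hs.2.2.trans (add_le_add (add_le_add hy.2.2.2.2 hz.2.2.2.2) hw.2.2.2.2)⟩ ).elim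
  · exact (P1_AAA_S2_S2_S3 n1 n2 n3 A1 A2 A3 B1 B2 B3 hb hp ⟨hw.1, hy.1⟩ ⟨hs.1.trans (add_le_add (add_le_add hy.2.1 hz.2.1) hw.2.1), hs.1.trans (add_le_add (add_le_add hy.2.1 hz.2.1) hw.2.2.1), hs.1.trans (add_le_add (add_le_add hy.2.1 hz.2.2.1) hw.2.1), hs.1.trans (add_le_add (add_le_add hy.2.1 hz.2.2.1) hw.2.2.1), hs.1.trans (add_le_add (add_le_add hy.2.2.1 hz.2.1) hw.2.1), hs.1.trans (add_le_add (add_le_add hy.2.2.1 hz.2.1) hw.2.2.1), hs.1.trans (add_le_add (add_le_add hy.2.2.1 hz.2.2.1) hw.2.1), hs.1.trans (add_le_add (add_le_add hy.2.2.1 hz.2.2.1) hw.2.2.1), hs.2.1.trans (add_le_add (add_le_add hy.2.2.2.1 hz.2.2.2.1) hw.2.2.2.1), hs.2.1.trans (add_le_add (add_le_add hy.2.2.2.1 hz.2.2.2.1) hw.2.2.2.2.1), hs.2.2.trans (add_le_add (add_le_add hy.2.2.2.2 hz.2.2.2.2) hw.2.2.2.2.2)⟩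 m_AA_S2_S3).elim
  · exact (P1_AAA_S2_S2_M13 n1 n2 n3 A1 A2 A3 B1 B2 B3 hb hp ⟨hw.1, hy.1⟩ ⟨hs.1.trans (add_le_add (add_le_add hy.2.1 hz.2.1) hw.2.1), hs.1.trans (add_le_add (add_le_add hy.2.1 hz.2.2.1) hw.2.1), hs.1.trans (add_le_add (add_le_add hy.2.2.1 hz.2.1) hw.2.1), hs.1.trans (add_le_add (add_le_add hy.2.2.1 hz.2.2.1) hw.2.1), hs.2.1.trans (add_le_add (add_le_add hy.2.2.2.1 hz.2.2.2.1) hw.2.2.1), hs.2.1.trans (add_le_add (add_le_add hy.2.2.2.1 hz.2.2.2.1) hw.2.2.2.1), hs.2.2.trans (add_le_add (add_le_add hy.2.2.2.2 hz.2.2.2.2) hw.2.2.2.2.1), hs.2.2.trans (add_le_add (add_le_add hy.2.2.2.2 hz.2.2.2.2) hw.2.2.2.2.2)⟩ m_AA_S2_M13).elim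
  · exact (P1_AAA_S2_S2_M23 n1 n2 n3 A1 A2 A3 B1 B2 B3 hb hp ⟨hw.1, hy.1⟩ ⟨hs.1.trans (add_le_add (add_le_add hy.2.1 hz.2.1) hw.2.1), hs.1.trans (add_le_add (add_le_add hy.2.1 hz.2.1) hw.2.2.1), hs.1.trans (add_le_add (add_le_add hy.2.1 hz.2.2.1) hw.2.1), hs.1.trans (add_le_add (add_le_add hy.2.1 hz.2.2.1) hw.2.2.1), hs.1.trans (add_le_add (add_le_add hy.2.2.1 hz.2.1) hw.2.1), hs.1.trans (add_le_add (add_le_add hy.2.2.1 hz.2.1) hw.2.2.1), hs.1.trans (add_le_add (add_le_add hy.2.2.1 hz.2.2.1) hw.2.1), hs.1.trans (add_le_add (add_le_add hy.2.2.1 hz.2.2.1) hw.2.2.1), hs.2.1.trans (add_le_add (add_le_add hy.2.2.2.1 hz.2.2.2.1) hw.2.2.2.1), hs.2.2.trans (add_le_add (add_le_add hy.2.2.2.2 hz.2.2.2.2) hw.2.2.2.2.1), hs.2.2.trans (add_le_add (add_le_add hy.2.2.2.2 hz.2.2.2.2) hw.2.2.2.2.2)⟩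 ).elim
  · exact (P1_AAA_S1_S2_S3 n1 n2 n3 A1 A2 A3 B1 B2 B3 hb hp ⟨hz.1, hw.1, hy.1⟩ ⟨hs_wyz.1.trans (add_le_add (add_le_add hw.2.1 hy.2.1) hz.2.1), hs_wyz.1.trans (add_le_add (add_le_add hw.2.1 hy.2.1) hz.2.2.1), hs_wyz.1.trans (add_le_add (add_le_add hw.2.1 hy.2.2.1) hz.2.1), hs_wyz.1.trans (add_le_add (add_le_add hw.2.1 hy.2.2.1) hz.2.2.1), hs_wyz.2.1.trans (add_le_add (add_le_add hw.2.2.1 hy.2.2.2.1) hz.2.2.2.1), hs_wyz.2.1.trans (add_le_add (add_le_add hw.2.2.1 hy.2.2.2.1) hz.2.2.2.2.1), hs_wyz.2.2.trans (add_le_add (add_le_add hw.2.2.2 hy.2.2.2.2) hz.2.2.2.2.2)⟩ m_AA_S1_S3 m_AA_S2_S3 m_AA_M13_M23 m_AB_S1_S2).elim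
  · exact (P1_AAA_S2_S2_S3 n1 n2 n3 A1 A2 A3 B1 B2 B3 hb hp ⟨hz.1, hy.1⟩ ⟨hs_ywz.1.trans (add_le_add (add_le_add hy.2.1 hw.2.1) hz.2.1), hs_ywz.1.trans (add_le_add (add_le_add hy.2.1 hw.2.1) hz.2.2.1), hs_ywz.1.trans (add_le_add (add_le_add hy.2.1 hw.2.2.1) hz.2.1), hs_ywz.1.trans (add_le_add (add_le_add hy.2.1 hw.2.2.1) hz.2.2.1), hs_ywz.1.trans (add_le_add (add_le_add hy.2.2.1 hw.2.1) hz.2.1), hs_ywz.1.trans (add_le_add (add_le_add hy.2.2.1 hw.2.1) hz.2.2.1), hs_ywz.1.trans (add_le_add (add_le_add hy.2.2.1 hw.2.2.1) hz.2.1), hs_ywz.1.trans (add_le_add (add_le_add hy.2.2.1 hw.2.2.1) hz.2.2.1), hs_ywz.2.1.trans (add_le_add (add_le_add hy.2.2.2.1 hw.2.2.2.1) hz.2.2.2.1), hs_ywz.2.1.trans (add_le_add (add_le_add hy.2.2.2.1 hw.2.2.2.1) hz.2.2.2.2.1), hs_ywz.2.2.trans (add_le_add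 (add_le_add hy.2.2.2.2 hw.2.2.2.2) hz.2.2.2.2.2)⟩ m_AA_S2_S3).elim
  · exact (P1_AAA_S2_S3_S3 n1 n2 n3 A1 A2 A3 B1 B2 B3 hb hp ⟨hz.1, hy.1⟩ ⟨hs.1.trans (add_le_add (add_le_add hy.2.1 hz.2.1) hw.2.1), hs.1.trans (add_le_add (add_le_add hy.2.1 hz.2.1) hw.2.2.1), hs.1.trans (add_le_add (add_le_add hy.2.1 hz.2.2.1) hw.2.1), hs.1.trans (add_le_add (add_le_add hy.2.1 hz.2.2.1) hw.2.2.1), hs.1.trans (add_le_add (add_le_add hy.2.2.1 hz.2.1) hw.2.1), hs.1.trans (add_le_add (add_le_add hy.2.2.1 hz.2.1) hw.2.2.1), hs.1.trans (add_le_add (add_le_add hy.2.2.1 hz.2.2.1) hw.2.1), hs.1.trans (add_le_add (add_le_add hy.2.2.1 hz.2.2.1) hw.2.2.1), hs.2.1.trans (add_le_add (add_le_add hy.2.2.2.1 hz.2.2.2.1) hw.2.2.2.1), hs.2.1.trans (add_le_add (add_le_add hy.2.2.2.1 hz.2.2.2.1) hw.2.2.2.2.1),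 hs.2.1.trans (add_le_add (add_le_add hy.2.2.2.1 hz.2.2.2.2.1) hw.2.2.2.1), hs.2.1.trans (add_le_add (add_le_add hy.2.2.2.1 hz.2.2.2.2.1) hw.2.2.2.2.1), hs.2.2.trans (add_le_add (add_le_add hy.2.2.2.2 hz.2.2.2.2.2) hw.2.2.2.2.2)⟩ m_AA_S3_M23 m_AB_S2_S3).elim
  · exact P1_AAA_S2_S3_M13 n1 n2 n3 A1 A2 A3 B1 B2 B3 hb hp ⟨hw.1, hz.1, hy.1⟩ ⟨hs.1.trans (add_le_add (add_le_add hy.2.1 hz.2.1) hw.2.1), hs.1.trans (add_le_add (add_le_add hy.2.1 hz.2.2.1) hw.2.1), hs.1.trans (add_le_add (add_le_add hy.2.2.1 hz.2.1) hw.2.1), hs.1.trans (add_le_add (add_le_add hy.2.2.1 hz.2.2.1) hw.2.1), hs.2.1.trans (add_le_add (add_le_add hy.2.2.2.1 hz.2.2.2.1) hw.2.2.1), hs.2.1.trans (add_le_add (add_le_add hy.2.2.2.1 hz.2.2.2.1) hw.2.2.2.1), hs.2.1.trans (add_le_add (add_le_add hy.2.2.2.1 hz.2.2.2.2.1)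 hw.2.2.1), hs.2.1.trans (add_le_add (add_le_add hy.2.2.2.1 hz.2.2.2.2.1) hw.2.2.2.1), hs.2.2.trans (add_le_add (add_le_add hy.2.2.2.2 hz.2.2.2.2.2) hw.2.2.2.2.1), hs.2.2.trans (add_le_add (add_le_add hy.2.2.2.2 hz.2.2.2.2.2) hw.2.2.2.2.2)⟩ m_AA_S2_S3 m_AA_M13_M23 m_AB_S2_M13 m_AB_S2_S3 m_AA_S3_M13 m_AA_S1_S3
  · exact (P1_AAA_S2_S3_M23 n1 n2 n3 A1 A2 A3 B1 B2 B3 hb hp ⟨hw.1, hz.1, hy.1⟩ ⟨hs.1.trans (add_le_add (add_le_add hy.2.1 hz.2.1) hw.2.1), hs.1.trans (add_le_add (add_le_add hy.2.1 hz.2.1) hw.2.2.1), hs.1.trans (add_le_add (add_le_add hy.2.1 hz.2.2.1) hw.2.1), hs.1.trans (add_le_add (add_le_add hy.2.1 hz.2.2.1) hw.2.2.1), hs.1.trans (add_le_add (add_le_add hy.2.2.1 hz.2.1) hw.2.1), hs.1.trans (add_le_add (add_le_add hy.2.2.1 hz.2.1) hw.2.2.1), hs.1.trans (add_le_add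 (add_le_add hy.2.2.1 hz.2.2.1) hw.2.1), hs.1.trans (add_le_add (add_le_add hy.2.2.1 hz.2.2.1) hw.2.2.1), hs.2.1.trans (add_le_add (add_le_add hy.2.2.2.1 hz.2.2.2.1) hw.2.2.2.1), hs.2.1.trans (add_le_add (add_le_add hy.2.2.2.1 hz.2.2.2.2.1) hw.2.2.2.1), hs.2.2.trans (add_le_add (add_le_add hy.2.2.2.2 hz.2.2.2.2.2) hw.2.2.2.2.1), hs.2.2.trans (add_le_add (add_le_add hy.2.2.2.2 hz.2.2.2.2.2) hw.2.2.2.2.2)⟩ m_AA_S2_S3 m_AA_M13_M23).elim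
  · exact (P1_AAA_S1_S2_M13 n1 n2 n3 A1 A2 A3 B1 B2 B3 hb hp ⟨hz.1, hw.1, hy.1⟩ ⟨hs_wyz.1.trans (add_le_add (add_le_add hw.2.1 hy.2.1) hz.2.1), hs_wyz.1.trans (add_le_add (add_le_add hw.2.1 hy.2.2.1) hz.2.1), hs_wyz.2.1.trans (add_le_add (add_le_add hw.2.2.1 hy.2.2.2.1) hz.2.2.1), hs_wyz.2.1.trans (add_le_add (add_le_add hw.2.2.1 hy.2.2.2.1) hz.2.2.2.1), hs_wyz.2.2.trans (add_le_add (add_le_add hw.2.2.2 hy.2.2.2.2) hz.2.2.2.2.1), hs_wyz.2.2.trans (add_le_add (add_le_add hw.2.2.2 hy.2.2.2.2) hz.2.2.2.2.2)⟩ m_AA_S1_S3 m_AA_S2_M13).elim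
  · exact (P1_AAA_S2_S2_M13 n1 n2 n3 A1 A2 A3 B1 B2 B3 hb hp ⟨hz.1, hy.1⟩ ⟨hs_ywz.1.trans (add_le_add (add_le_add hy.2.1 hw.2.1) hz.2.1), hs_ywz.1.trans (add_le_add (add_le_add hy.2.1 hw.2.2.1) hz.2.1), hs_ywz.1.trans (add_le_add (add_le_add hy.2.2.1 hw.2.1) hz.2.1), hs_ywz.1.trans (add_le_add (add_le_add hy.2.2.1 hw.2.2.1) hz.2.1), hs_ywz.2.1.trans (add_le_add (add_le_add hy.2.2.2.1 hw.2.2.2.1) hz.2.2.1), hs_ywz.2.1.trans (add_le_add (add_le_add hy.2.2.2.1 hw.2.2.2.1) hz.2.2.2.1), hs_ywz.2.2.trans (add_le_add (add_le_add hy.2.2.2.2 hw.2.2.2.2) hz.2.2.2.2.1), hs_ywz.2.2.trans (add_le_add (add_le_add hy.2.2.2.2 hw.2.2.2.2) hz.2.2.2.2.2)⟩ m_AA_S2_M13).elim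
  · exact P1_AAA_S2_S3_M13 n1 n2 n3 A1 A2 A3 B1 B2 B3 hb hp ⟨hz.1, hw.1, hy.1⟩ ⟨hs_ywz.1.trans (add_le_add (add_le_add hy.2.1 hw.2.1) hz.2.1), hs_ywz.1.trans (add_le_add (add_le_add hy.2.1 hw.2.2.1) hz.2.1), hs_ywz.1.trans (add_le_add (add_le_add hy.2.2.1 hw.2.1) hz.2.1), hs_ywz.1.trans (add_le_add (add_le_add hy.2.2.1 hw.2.2.1) hz.2.1), hs_ywz.2.1.trans (add_le_add (add_le_add hy.2.2.2.1 hw.2.2.2.1) hz.2.2.1), hs_ywz.2.1.trans (add_le_add (add_le_add hy.2.2.2.1 hw.2.2.2.1) hz.2.2.2.1), hs_ywz.2.1.trans (add_le_add (add_le_add hy.2.2.2.1 hw.2.2.2.2.1) hz.2.2.1), hs_ywz.2.1.trans (add_le_add (add_le_add hy.2.2.2.1 hw.2.2.2.2.1) hz.2.2.2.1), hs_ywz.2.2.trans (add_le_add (add_le_add hy.2.2.2.2 hw.2.2.2.2.2) hz.2.2.2.2.1), hs_ywz.2.2.trans (add_le_add (add_le_add hy.2.2.2.2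 hw.2.2.2.2.2) hz.2.2.2.2.2)⟩ m_AA_S2_S3 m_AA_M13_M23 m_AB_S2_M13 m_AB_S2_S3 m_AA_S3_M13 m_AA_S1_S3
  · exact (P1_AAA_S2_M13_M13 n1 n2 n3 A1 A2 A3 B1 B2 B3 hb hp ⟨hz.1, hy.1⟩ ⟨hs.1.trans (add_le_add (add_le_add hy.2.1 hz.2.1) hw.2.1), hs.1.trans (add_le_add (add_le_add hy.2.2.1 hz.2.1) hw.2.1), hs.2.1.trans (add_le_add (add_le_add hy.2.2.2.1 hz.2.2.1) hw.2.2.1), hs.2.1.trans (add_le_add (add_le_add hy.2.2.2.1 hz.2.2.1) hw.2.2.2.1), hs.2.1.trans (add_le_add (add_le_add hy.2.2.2.1 hz.2.2.2.1) hw.2.2.1), hs.2.1.trans (add_le_add (add_le_add hy.2.2.2.1 hz.2.2.2.1) hw.2.2.2.1), hs.2.2.trans (add_le_add (add_le_add hy.2.2.2.2 hz.2.2.2.2.1) hw.2.2.2.2.1), hs.2.2.trans (add_le_add (add_le_add hy.2.2.2.2 hz.2.2.2.2.1) hw.2.2.2.2.2), hs.2.2.trans (add_le_add (add_le_add hy.2.2.2.2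 hz.2.2.2.2.2) hw.2.2.2.2.1), hs.2.2.trans (add_le_add (add_le_add hy.2.2.2.2 hz.2.2.2.2.2) hw.2.2.2.2.2)⟩ m_AA_M13_M23).elim
  · exact (P1_AAA_S2_M13_M23 n1 n2 n3 A1 A2 A3 B1 B2 B3 hb hp ⟨hz.1, hw.1, hy.1⟩ ⟨hs.1.trans (add_le_add (add_le_add hy.2.1 hz.2.1) hw.2.1), hs.1.trans (add_le_add (add_le_add hy.2.1 hz.2.1) hw.2.2.1), hs.1.trans (add_le_add (add_le_add hy.2.2.1 hz.2.1) hw.2.1), hs.1.trans (add_le_add (add_le_add hy.2.2.1 hz.2.1) hw.2.2.1), hs.2.1.trans (add_le_add (add_le_add hy.2.2.2.1 hz.2.2.1) hw.2.2.2.1), hs.2.1.trans (add_le_add (add_le_add hy.2.2.2.1 hz.2.2.2.1) hw.2.2.2.1), hs.2.2.trans (add_le_add (add_le_add hy.2.2.2.2 hz.2.2.2.2.1) hw.2.2.2.2.1), hs.2.2.trans (add_le_add (add_le_add hy.2.2.2.2 hz.2.2.2.2.1) hw.2.2.2.2.2), hs.2.2.trans (add_le_add (add_le_add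 hy.2.2.2.2 hz.2.2.2.2.2) hw.2.2.2.2.1), hs.2.2.trans (add_le_add (add_le_add hy.2.2.2.2 hz.2.2.2.2.2) hw.2.2.2.2.2)⟩ m_AA_M13_M23).elim
  · exact (P1_AAA_S1_S2_M23 n1 n2 n3 A1 A2 A3 B1 B2 B3 hb hp ⟨hz.1, hw.1, hy.1⟩ ⟨hs_wyz.1.trans (add_le_add (add_le_add hw.2.1 hy.2.1) hz.2.1), hs_wyz.1.trans (add_le_add (add_le_add hw.2.1 hy.2.1) hz.2.2.1), hs_wyz.1.trans (add_le_add (add_le_add hw.2.1 hy.2.2.1) hz.2.1), hs_wyz.1.trans (add_le_add (add_le_add hw.2.1 hy.2.2.1) hz.2.2.1), hs_wyz.2.1.trans (add_le_add (add_le_add hw.2.2.1 hy.2.2.2.1) hz.2.2.2.1), hs_wyz.2.2.trans (add_le_add (add_le_add hw.2.2.2 hy.2.2.2.2) hz.2.2.2.2.1), hs_wyz.2.2.trans (add_le_add (add_le_add hw.2.2.2 hy.2.2.2.2) hz.2.2.2.2.2)⟩ m_AB_S1_S3).elim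
  · exact (P1_AAA_S2_S2_M23 n1 n2 n3 A1 A2 A3 B1 B2 B3 hb hp ⟨hz.1, hy.1⟩ ⟨hs_ywz.1.trans (add_le_add (add_le_add hy.2.1 hw.2.1) hz.2.1), hs_ywz.1.trans (add_le_add (add_le_add hy.2.1 hw.2.1) hz.2.2.1), hs_ywz.1.trans (add_le_add (add_le_add hy.2.1 hw.2.2.1) hz.2.1), hs_ywz.1.trans (add_le_add (add_le_add hy.2.1 hw.2.2.1) hz.2.2.1), hs_ywz.1.trans (add_le_add (add_le_add hy.2.2.1 hw.2.1) hz.2.1), hs_ywz.1.trans (add_le_add (add_le_add hy.2.2.1 hw.2.1) hz.2.2.1), hs_ywz.1.trans (add_le_add (add_le_add hy.2.2.1 hw.2.2.1) hz.2.1), hs_ywz.1.trans (add_le_add (add_le_add hy.2.2.1 hw.2.2.1) hz.2.2.1), hs_ywz.2.1.trans (add_le_add (add_le_add hy.2.2.2.1 hw.2.2.2.1) hz.2.2.2.1), hs_ywz.2.2.trans (add_le_add (add_le_add hy.2.2.2.2 hw.2.2.2.2) hz.2.2.2.2.1), hs_ywz.2.2.trans (add_le_add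 (add_le_add hy.2.2.2.2 hw.2.2.2.2) hz.2.2.2.2.2)⟩ ).elim
  · exact (P1_AAA_S2_S3_M23 n1 n2 n3 A1 A2 A3 B1 B2 B3 hb hp ⟨hz.1, hw.1, hy.1⟩ ⟨hs_ywz.1.trans (add_le_add (add_le_add hy.2.1 hw.2.1) hz.2.1), hs_ywz.1.trans (add_le_add (add_le_add hy.2.1 hw.2.1) hz.2.2.1), hs_ywz.1.trans (add_le_add (add_le_add hy.2.1 hw.2.2.1) hz.2.1), hs_ywz.1.trans (add_le_add (add_le_add hy.2.1 hw.2.2.1) hz.2.2.1), hs_ywz.1.trans (add_le_add (add_le_add hy.2.2.1 hw.2.1) hz.2.1), hs_ywz.1.trans (add_le_add (add_le_add hy.2.2.1 hw.2.1) hz.2.2.1), hs_ywz.1.trans (add_le_add (add_le_add hy.2.2.1 hw.2.2.1) hz.2.1), hs_ywz.1.trans (add_le_add (add_le_add hy.2.2.1 hw.2.2.1) hz.2.2.1), hs_ywz.2.1.trans (add_le_add (add_le_add hy.2.2.2.1 hw.2.2.2.1) hz.2.2.2.1), hs_ywz.2.1.trans (add_le_add (add_le_add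 hy.2.2.2.1 hw.2.2.2.2.1) hz.2.2.2.1), hs_ywz.2.2.trans (add_le_add (add_le_add hy.2.2.2.2 hw.2.2.2.2.2) hz.2.2.2.2.1), hs_ywz.2.2.trans (add_le_add (add_le_add hy.2.2.2.2 hw.2.2.2.2.2) hz.2.2.2.2.2)⟩ m_AA_S2_S3 m_AA_M13_M23).elim
  · exact (P1_AAA_S2_M13_M23 n1 n2 n3 A1 A2 A3 B1 B2 B3 hb hp ⟨hw.1, hz.1, hy.1⟩ ⟨hs_ywz.1.trans (add_le_add (add_le_add hy.2.1 hw.2.1) hz.2.1), hs_ywz.1.trans (add_le_add (add_le_add hy.2.1 hw.2.1) hz.2.2.1), hs_ywz.1.trans (add_le_add (add_le_add hy.2.2.1 hw.2.1) hz.2.1), hs_ywz.1.trans (add_le_add (add_le_add hy.2.2.1 hw.2.1) hz.2.2.1), hs_ywz.2.1.trans (add_le_add (add_le_add hy.2.2.2.1 hw.2.2.1) hz.2.2.2.1), hs_ywz.2.1.trans (add_le_add (add_le_add hy.2.2.2.1 hw.2.2.2.1) hz.2.2.2.1), hs_ywz.2.2.trans (add_le_add (add_le_add hy.2.2.2.2 hw.2.2.2.2.1)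 hz.2.2.2.2.1), hs_ywz.2.2.trans (add_le_add (add_le_add hy.2.2.2.2 hw.2.2.2.2.1) hz.2.2.2.2.2), hs_ywz.2.2.trans (add_le_add (add_le_add hy.2.2.2.2 hw.2.2.2.2.2) hz.2.2.2.2.1), hs_ywz.2.2.trans (add_le_add (add_le_add hy.2.2.2.2 hw.2.2.2.2.2) hz.2.2.2.2.2)⟩ m_AA_M13_M23).elim
  · exact (P1_AAA_S2_M23_M23 n1 n2 n3 A1 A2 A3 B1 B2 B3 hb hp ⟨hz.1, hy.1⟩ ⟨hs.1.trans (add_le_add (add_le_add hy.2.1 hz.2.1) hw.2.1), hs.1.trans (add_le_add (add_le_add hy.2.1 hz.2.1) hw.2.2.1), hs.1.trans (add_le_add (add_le_add hy.2.1 hz.2.2.1) hw.2.1), hs.1.trans (add_le_add (add_le_add hy.2.1 hz.2.2.1) hw.2.2.1), hs.1.trans (add_le_add (add_le_add hy.2.2.1 hz.2.1) hw.2.1), hs.1.trans (add_le_add (add_le_add hy.2.2.1 hz.2.1) hw.2.2.1), hs.1.trans (add_le_add (add_le_add hy.2.2.1 hz.2.2.1) hw.2.1),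 hs.1.trans (add_le_add (add_le_add hy.2.2.1 hz.2.2.1) hw.2.2.1), hs.2.1.trans (add_le_add (add_le_add hy.2.2.2.1 hz.2.2.2.1) hw.2.2.2.1), hs.2.2.trans (add_le_add (add_le_add hy.2.2.2.2 hz.2.2.2.2.1) hw.2.2.2.2.1), hs.2.2.trans (add_le_add (add_le_add hy.2.2.2.2 hz.2.2.2.2.1) hw.2.2.2.2.2), hs.2.2.trans (add_le_add (add_le_add hy.2.2.2.2 hz.2.2.2.2.2) hw.2.2.2.2.1), hs.2.2.trans (add_le_add (add_le_add hy.2.2.2.2 hz.2.2.2.2.2) hw.2.2.2.2.2)⟩ ).elim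
  · exact (P1_AAA_S1_S1_S3 n1 n2 n3 A1 A2 A3 B1 B2 B3 hb hp ⟨hy.1, hz.1⟩ ⟨hs_zwy.1.trans (add_le_add (add_le_add hz.2.1 hw.2.1) hy.2.1), hs_zwy.1.trans (add_le_add (add_le_add hz.2.1 hw.2.1) hy.2.2.1), hs_zwy.2.1.trans (add_le_add (add_le_add hz.2.2.1 hw.2.2.1) hy.2.2.2.1), hs_zwy.2.1.trans (add_le_add (add_le_add hz.2.2.1 hw.2.2.1) hy.2.2.2.2.1), hs_zwy.2.2.trans (add_le_add (add_le_add hz.2.2.2 hw.2.2.2) hy.2.2.2.2.2)⟩ m_AA_S1_S3).elim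
  · exact (P1_AAA_S1_S2_S3 n1 n2 n3 A1 A2 A3 B1 B2 B3 hb hp ⟨hy.1, hz.1, hw.1⟩ ⟨hs_zwy.1.trans (add_le_add (add_le_add hz.2.1 hw.2.1) hy.2.1), hs_zwy.1.trans (add_le_add (add_le_add hz.2.1 hw.2.1) hy.2.2.1), hs_zwy.1.trans (add_le_add (add_le_add hz.2.1 hw.2.2.1) hy.2.1), hs_zwy.1.trans (add_le_add (add_le_add hz.2.1 hw.2.2.1) hy.2.2.1), hs_zwy.2.1.trans (add_le_add (add_le_add hz.2.2.1 hw.2.2.2.1) hy.2.2.2.1), hs_zwy.2.1.trans (add_le_add (add_le_add hz.2.2.1 hw.2.2.2.1) hy.2.2.2.2.1), hs_zwy.2.2.trans (add_le_add (add_le_add hz.2.2.2 hw.2.2.2.2) hy.2.2.2.2.2)⟩ m_AA_S1_S3 m_AA_S2_S3 m_AA_M13_M23 m_AB_S1_S2).elim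
  · exact (P1_AAA_S1_S3_S3 n1 n2 n3 A1 A2 A3 B1 B2 B3 hb hp ⟨hy.1, hz.1⟩ ⟨hs_zyw.1.trans (add_le_add (add_le_add hz.2.1 hy.2.1) hw.2.1), hs_zyw.1.trans (add_le_add (add_le_add hz.2.1 hy.2.1) hw.2.2.1), hs_zyw.1.trans (add_le_add (add_le_add hz.2.1 hy.2.2.1) hw.2.1), hs_zyw.1.trans (add_le_add (add_le_add hz.2.1 hy.2.2.1) hw.2.2.1), hs_zyw.2.1.trans (add_le_add (add_le_add hz.2.2.1 hy.2.2.2.1) hw.2.2.2.1), hs_zyw.2.1.trans (add_le_add (add_le_add hz.2.2.1 hy.2.2.2.1) hw.2.2.2.2.1), hs_zyw.2.1.trans (add_le_add (add_le_add hz.2.2.1 hy.2.2.2.2.1) hw.2.2.2.1), hs_zyw.2.1.trans (add_le_add (add_le_add hz.2.2.1 hy.2.2.2.2.1) hw.2.2.2.2.1), hs_zyw.2.2.trans (add_le_add (add_le_add hz.2.2.2 hy.2.2.2.2.2) hw.2.2.2.2.2)⟩ m_AB_S1_S3 m_AA_S3_M13).elim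
  · exact (P1_AAA_S1_S3_M13 n1 n2 n3 A1 A2 A3 B1 B2 B3 hb hp ⟨hw.1, hy.1, hz.1⟩ ⟨hs_zyw.1.trans (add_le_add (add_le_add hz.2.1 hy.2.1) hw.2.1), hs_zyw.1.trans (add_le_add (add_le_add hz.2.1 hy.2.2.1) hw.2.1), hs_zyw.2.1.trans (add_le_add (add_le_add hz.2.2.1 hy.2.2.2.1) hw.2.2.1), hs_zyw.2.1.trans (add_le_add (add_le_add hz.2.2.1 hy.2.2.2.1) hw.2.2.2.1), hs_zyw.2.1.trans (add_le_add (add_le_add hz.2.2.1 hy.2.2.2.2.1) hw.2.2.1), hs_zyw.2.1.trans (add_le_add (add_le_add hz.2.2.1 hy.2.2.2.2.1) hw.2.2.2.1), hs_zyw.2.2.trans (add_le_add (add_le_add hz.2.2.2 hy.2.2.2.2.2) hw.2.2.2.2.1), hs_zyw.2.2.trans (add_le_add (add_le_add hz.2.2.2 hy.2.2.2.2.2) hw.2.2.2.2.2)⟩ m_AA_S1_S3 m_AA_M13_M23).elim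
  · exact P1_AAA_S1_S3_M23 n1 n2 n3 A1 A2 A3 B1 B2 B3 hb hp ⟨hw.1, hy.1, hz.1⟩ ⟨hs_zyw.1.trans (add_le_add (add_le_add hz.2.1 hy.2.1) hw.2.1), hs_zyw.1.trans (add_le_add (add_le_add hz.2.1 hy.2.1) hw.2.2.1), hs_zyw.1.trans (add_le_add (add_le_add hz.2.1 hy.2.2.1) hw.2.1), hs_zyw.1.trans (add_le_add (add_le_add hz.2.1 hy.2.2.1) hw.2.2.1), hs_zyw.2.1.trans (add_le_add (add_le_add hz.2.2.1 hy.2.2.2.1) hw.2.2.2.1), hs_zyw.2.1.trans (add_le_add (add_le_add hz.2.2.1 hy.2.2.2.2.1) hw.2.2.2.1), hs_zyw.2.2.trans (add_le_add (add_le_add hz.2.2.2 hy.2.2.2.2.2) hw.2.2.2.2.1), hs_zyw.2.2.trans (add_le_add (add_le_add hz.2.2.2 hy.2.2.2.2.2) hw.2.2.2.2.2)⟩ m_AA_S1_S3 m_AA_S2_S3 m_AA_M13_M23 m_AB_S1_S3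
  · exact (P1_AAA_S1_S2_S3 n1 n2 n3 A1 A2 A3 B1 B2 B3 hb hp ⟨hy.1, hw.1, hz.1⟩ ⟨hs_wzy.1.trans (add_le_add (add_le_add hw.2.1 hz.2.1) hy.2.1), hs_wzy.1.trans (add_le_add (add_le_add hw.2.1 hz.2.1) hy.2.2.1), hs_wzy.1.trans (add_le_add (add_le_add hw.2.1 hz.2.2.1) hy.2.1), hs_wzy.1.trans (add_le_add (add_le_add hw.2.1 hz.2.2.1) hy.2.2.1), hs_wzy.2.1.trans (add_le_add (add_le_add hw.2.2.1 hz.2.2.2.1) hy.2.2.2.1), hs_wzy.2.1.trans (add_le_add (add_le_add hw.2.2.1 hz.2.2.2.1) hy.2.2.2.2.1), hs_wzy.2.2.trans (add_le_add (add_le_add hw.2.2.2 hz.2.2.2.2) hy.2.2.2.2.2)⟩ m_AA_S1_S3 m_AA_S2_S3 m_AA_M13_M23 m_AB_S1_S2).elim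
  · exact (P1_AAA_S2_S2_S3 n1 n2 n3 A1 A2 A3 B1 B2 B3 hb hp ⟨hy.1, hz.1⟩ ⟨hs_zwy.1.trans (add_le_add (add_le_add hz.2.1 hw.2.1) hy.2.1), hs_zwy.1.trans (add_le_add (add_le_add hz.2.1 hw.2.1) hy.2.2.1), hs_zwy.1.trans (add_le_add (add_le_add hz.2.1 hw.2.2.1) hy.2.1), hs_zwy.1.trans (add_le_add (add_le_add hz.2.1 hw.2.2.1) hy.2.2.1), hs_zwy.1.trans (add_le_add (add_le_add hz.2.2.1 hw.2.1) hy.2.1), hs_zwy.1.trans (add_le_add (add_le_add hz.2.2.1 hw.2.1) hy.2.2.1), hs_zwy.1.trans (add_le_add (add_le_add hz.2.2.1 hw.2.2.1) hy.2.1), hs_zwy.1.trans (add_le_add (add_le_add hz.2.2.1 hw.2.2.1) hy.2.2.1), hs_zwy.2.1.trans (add_le_add (add_le_add hz.2.2.2.1 hw.2.2.2.1) hy.2.2.2.1), hs_zwy.2.1.trans (add_le_add (add_le_add hz.2.2.2.1 hw.2.2.2.1) hy.2.2.2.2.1), hs_zwy.2.2.trans (add_le_add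 (add_le_add hz.2.2.2.2 hw.2.2.2.2) hy.2.2.2.2.2)⟩ m_AA_S2_S3).elim
  · exact (P1_AAA_S2_S3_S3 n1 n2 n3 A1 A2 A3 B1 B2 B3 hb hp ⟨hy.1, hz.1⟩ ⟨hs_zyw.1.trans (add_le_add (add_le_add hz.2.1 hy.2.1) hw.2.1), hs_zyw.1.trans (add_le_add (add_le_add hz.2.1 hy.2.1) hw.2.2.1), hs_zyw.1.trans (add_le_add (add_le_add hz.2.1 hy.2.2.1) hw.2.1), hs_zyw.1.trans (add_le_add (add_le_add hz.2.1 hy.2.2.1) hw.2.2.1), hs_zyw.1.trans (add_le_add (add_le_add hz.2.2.1 hy.2.1) hw.2.1), hs_zyw.1.trans (add_le_add (add_le_add hz.2.2.1 hy.2.1) hw.2.2.1), hs_zyw.1.trans (add_le_add (add_le_add hz.2.2.1 hy.2.2.1) hw.2.1), hs_zyw.1.trans (add_le_add (add_le_add hz.2.2.1 hy.2.2.1) hw.2.2.1), hs_zyw.2.1.trans (add_le_add (add_le_add hz.2.2.2.1 hy.2.2.2.1) hw.2.2.2.1), hs_zyw.2.1.trans (add_le_add (add_le_add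 hz.2.2.2.1 hy.2.2.2.1) hw.2.2.2.2.1), hs_zyw.2.1.trans (add_le_add (add_le_add hz.2.2.2.1 hy.2.2.2.2.1) hw.2.2.2.1), hs_zyw.2.1.trans (add_le_add (add_le_add hz.2.2.2.1 hy.2.2.2.2.1) hw.2.2.2.2.1), hs_zyw.2.2.trans (add_le_add (add_le_add hz.2.2.2.2 hy.2.2.2.2.2) hw.2.2.2.2.2)⟩ m_AA_S3_M23 m_AB_S2_S3).elim
  · exact P1_AAA_S2_S3_M13 n1 n2 n3 A1 A2 A3 B1 B2 B3 hb hp ⟨hw.1, hy.1, hz.1⟩ ⟨hs_zyw.1.trans (add_le_add (add_le_add hz.2.1 hy.2.1) hw.2.1), hs_zyw.1.trans (add_le_add (add_le_add hz.2.1 hy.2.2.1) hw.2.1), hs_zyw.1.trans (add_le_add (add_le_add hz.2.2.1 hy.2.1) hw.2.1), hs_zyw.1.trans (add_le_add (add_le_add hz.2.2.1 hy.2.2.1) hw.2.1), hs_zyw.2.1.trans (add_le_add (add_le_add hz.2.2.2.1 hy.2.2.2.1) hw.2.2.1), hs_zyw.2.1.trans (add_le_add (add_le_add hz.2.2.2.1 hy.2.2.2.1)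 hw.2.2.2.1), hs_zyw.2.1.trans (add_le_add (add_le_add hz.2.2.2.1 hy.2.2.2.2.1) hw.2.2.1), hs_zyw.2.1.trans (add_le_add (add_le_add hz.2.2.2.1 hy.2.2.2.2.1) hw.2.2.2.1), hs_zyw.2.2.trans (add_le_add (add_le_add hz.2.2.2.2 hy.2.2.2.2.2) hw.2.2.2.2.1), hs_zyw.2.2.trans (add_le_add (add_le_add hz.2.2.2.2 hy.2.2.2.2.2) hw.2.2.2.2.2)⟩ m_AA_S2_S3 m_AA_M13_M23 m_AB_S2_M13 m_AB_S2_S3 m_AA_S3_M13 m_AA_S1_S3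
  · exact (P1_AAA_S2_S3_M23 n1 n2 n3 A1 A2 A3 B1 B2 B3 hb hp ⟨hw.1, hy.1, hz.1⟩ ⟨hs_zyw.1.trans (add_le_add (add_le_add hz.2.1 hy.2.1) hw.2.1), hs_zyw.1.trans (add_le_add (add_le_add hz.2.1 hy.2.1) hw.2.2.1), hs_zyw.1.trans (add_le_add (add_le_add hz.2.1 hy.2.2.1) hw.2.1), hs_zyw.1.trans (add_le_add (add_le_add hz.2.1 hy.2.2.1) hw.2.2.1), hs_zyw.1.trans (add_le_add (add_le_add hz.2.2.1 hy.2.1) hw.2.1), hs_zyw.1.trans (add_le_add (add_le_add hz.2.2.1 hy.2.1) hw.2.2.1), hs_zyw.1.trans (add_le_add (add_le_add hz.2.2.1 hy.2.2.1) hw.2.1), hs_zyw.1.trans (add_le_add (add_le_add hz.2.2.1 hy.2.2.1) hw.2.2.1), hs_zyw.2.1.trans (add_le_add (add_le_add hz.2.2.2.1 hy.2.2.2.1) hw.2.2.2.1), hs_zyw.2.1.trans (add_le_add (add_le_add hz.2.2.2.1 hy.2.2.2.2.1) hw.2.2.2.1), hs_zyw.2.2.trans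 (add_le_add (add_le_add hz.2.2.2.2 hy.2.2.2.2.2) hw.2.2.2.2.1), hs_zyw.2.2.trans (add_le_add (add_le_add hz.2.2.2.2 hy.2.2.2.2.2) hw.2.2.2.2.2)⟩ m_AA_S2_S3 m_AA_M13_M23).elim
  · exact (P1_AAA_S1_S3_S3 n1 n2 n3 A1 A2 A3 B1 B2 B3 hb hp ⟨hy.1, hw.1⟩ ⟨hs_wyz.1.trans (add_le_add (add_le_add hw.2.1 hy.2.1) hz.2.1), hs_wyz.1.trans (add_le_add (add_le_add hw.2.1 hy.2.1) hz.2.2.1), hs_wyz.1.trans (add_le_add (add_le_add hw.2.1 hy.2.2.1) hz.2.1), hs_wyz.1.trans (add_le_add (add_le_add hw.2.1 hy.2.2.1) hz.2.2.1), hs_wyz.2.1.trans (add_le_add (add_le_add hw.2.2.1 hy.2.2.2.1) hz.2.2.2.1), hs_wyz.2.1.trans (add_le_add (add_le_add hw.2.2.1 hy.2.2.2.1) hz.2.2.2.2.1), hs_wyz.2.1.trans (add_le_add (add_le_add hw.2.2.1 hy.2.2.2.2.1) hz.2.2.2.1), hs_wyz.2.1.trans (add_le_add (add_le_add hw.2.2.1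 hy.2.2.2.2.1) hz.2.2.2.2.1), hs_wyz.2.2.trans (add_le_add (add_le_add hw.2.2.2 hy.2.2.2.2.2) hz.2.2.2.2.2)⟩ m_AB_S1_S3 m_AA_S3_M13).elim
  · exact (P1_AAA_S2_S3_S3 n1 n2 n3 A1 A2 A3 B1 B2 B3 hb hp ⟨hy.1, hw.1⟩ ⟨hs_wyz.1.trans (add_le_add (add_le_add hw.2.1 hy.2.1) hz.2.1), hs_wyz.1.trans (add_le_add (add_le_add hw.2.1 hy.2.1) hz.2.2.1), hs_wyz.1.trans (add_le_add (add_le_add hw.2.1 hy.2.2.1) hz.2.1), hs_wyz.1.trans (add_le_add (add_le_add hw.2.1 hy.2.2.1) hz.2.2.1), hs_wyz.1.trans (add_le_add (add_le_add hw.2.2.1 hy.2.1) hz.2.1), hs_wyz.1.trans (add_le_add (add_le_add hw.2.2.1 hy.2.1) hz.2.2.1), hs_wyz.1.trans (add_le_add (add_le_add hw.2.2.1 hy.2.2.1) hz.2.1), hs_wyz.1.trans (add_le_add (add_le_add hw.2.2.1 hy.2.2.1) hz.2.2.1), hs_wyz.2.1.trans (add_le_add (add_le_add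 hw.2.2.2.1 hy.2.2.2.1) hz.2.2.2.1), hs_wyz.2.1.trans (add_le_add (add_le_add hw.2.2.2.1 hy.2.2.2.1) hz.2.2.2.2.1), hs_wyz.2.1.trans (add_le_add (add_le_add hw.2.2.2.1 hy.2.2.2.2.1) hz.2.2.2.1), hs_wyz.2.1.trans (add_le_add (add_le_add hw.2.2.2.1 hy.2.2.2.2.1) hz.2.2.2.2.1), hs_wyz.2.2.trans (add_le_add (add_le_add hw.2.2.2.2 hy.2.2.2.2.2) hz.2.2.2.2.2)⟩ m_AA_S3_M23 m_AB_S2_S3).elim
  · exact (P1_AAA_S3_S3_S3 n1 n2 n3 A1 A2 A3 B1 B2 B3 hb hp hy.1 ⟨hs.1.trans (add_le_add (add_le_add hy.2.1 hz.2.1) hw.2.1), hs.1.trans (add_le_add (add_le_add hy.2.1 hz.2.1) hw.2.2.1), hs.1.trans (add_le_add (add_le_add hy.2.1 hz.2.2.1) hw.2.1), hs.1.trans (add_le_add (add_le_add hy.2.1 hz.2.2.1) hw.2.2.1), hs.1.trans (add_le_add (add_le_add hy.2.2.1 hz.2.1) hw.2.1), hs.1.trans (add_le_add (add_le_add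 hy.2.2.1 hz.2.1) hw.2.2.1), hs.1.trans (add_le_add (add_le_add hy.2.2.1 hz.2.2.1) hw.2.1), hs.1.trans (add_le_add (add_le_add hy.2.2.1 hz.2.2.1) hw.2.2.1), hs.2.1.trans (add_le_add (add_le_add hy.2.2.2.1 hz.2.2.2.1) hw.2.2.2.1), hs.2.1.trans (add_le_add (add_le_add hy.2.2.2.1 hz.2.2.2.1) hw.2.2.2.2.1), hs.2.1.trans (add_le_add (add_le_add hy.2.2.2.1 hz.2.2.2.2.1) hw.2.2.2.1), hs.2.1.trans (add_le_add (add_le_add hy.2.2.2.1 hz.2.2.2.2.1) hw.2.2.2.2.1), hs.2.1.trans (add_le_add (add_le_add hy.2.2.2.2.1 hz.2.2.2.1) hw.2.2.2.1), hs.2.1.trans (add_le_add (add_le_add hy.2.2.2.2.1 hz.2.2.2.1) hw.2.2.2.2.1), hs.2.1.trans (add_le_add (add_le_add hy.2.2.2.2.1 hz.2.2.2.2.1) hw.2.2.2.1), hs.2.1.trans (add_le_add (add_le_add hy.2.2.2.2.1 hz.2.2.2.2.1) hw.2.2.2.2.1), hs.2.2.trans (add_le_add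 (add_le_add hy.2.2.2.2.2 hz.2.2.2.2.2) hw.2.2.2.2.2)⟩ ).elim
  · exact (P1_AAA_S3_S3_M13 n1 n2 n3 A1 A2 A3 B1 B2 B3 hb hp ⟨hw.1, hy.1⟩ ⟨hs.1.trans (add_le_add (add_le_add hy.2.1 hz.2.1) hw.2.1), hs.1.trans (add_le_add (add_le_add hy.2.1 hz.2.2.1) hw.2.1), hs.1.trans (add_le_add (add_le_add hy.2.2.1 hz.2.1) hw.2.1), hs.1.trans (add_le_add (add_le_add hy.2.2.1 hz.2.2.1) hw.2.1), hs.2.1.trans (add_le_add (add_le_add hy.2.2.2.1 hz.2.2.2.1) hw.2.2.1), hs.2.1.trans (add_le_add (add_le_add hy.2.2.2.1 hz.2.2.2.1) hw.2.2.2.1), hs.2.1.trans (add_le_add (add_le_add hy.2.2.2.1 hz.2.2.2.2.1) hw.2.2.1), hs.2.1.trans (add_le_add (add_le_add hy.2.2.2.1 hz.2.2.2.2.1) hw.2.2.2.1), hs.2.1.trans (add_le_add (add_le_add hy.2.2.2.2.1 hz.2.2.2.1) hw.2.2.1), hs.2.1.trans (add_le_add (add_le_add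 hy.2.2.2.2.1 hz.2.2.2.1) hw.2.2.2.1), hs.2.1.trans (add_le_add (add_le_add hy.2.2.2.2.1 hz.2.2.2.2.1) hw.2.2.1), hs.2.1.trans (add_le_add (add_le_add hy.2.2.2.2.1 hz.2.2.2.2.1) hw.2.2.2.1), hs.2.2.trans (add_le_add (add_le_add hy.2.2.2.2.2 hz.2.2.2.2.2) hw.2.2.2.2.1), hs.2.2.trans (add_le_add (add_le_add hy.2.2.2.2.2 hz.2.2.2.2.2) hw.2.2.2.2.2)⟩ m_AA_S3_M13).elim
  · exact (P1_AAA_S3_S3_M23 n1 n2 n3 A1 A2 A3 B1 B2 B3 hb hp ⟨hw.1, hy.1⟩ ⟨hs.1.trans (add_le_add (add_le_add hy.2.1 hz.2.1) hw.2.1), hs.1.trans (add_le_add (add_le_add hy.2.1 hz.2.1) hw.2.2.1), hs.1.trans (add_le_add (add_le_add hy.2.1 hz.2.2.1) hw.2.1), hs.1.trans (add_le_add (add_le_add hy.2.1 hz.2.2.1) hw.2.2.1), hs.1.trans (add_le_add (add_le_add hy.2.2.1 hz.2.1) hw.2.1), hs.1.trans (add_le_add (add_le_add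 hy.2.2.1 hz.2.1) hw.2.2.1), hs.1.trans (add_le_add (add_le_add hy.2.2.1 hz.2.2.1) hw.2.1), hs.1.trans (add_le_add (add_le_add hy.2.2.1 hz.2.2.1) hw.2.2.1), hs.2.1.trans (add_le_add (add_le_add hy.2.2.2.1 hz.2.2.2.1) hw.2.2.2.1), hs.2.1.trans (add_le_add (add_le_add hy.2.2.2.1 hz.2.2.2.2.1) hw.2.2.2.1), hs.2.1.trans (add_le_add (add_le_add hy.2.2.2.2.1 hz.2.2.2.1) hw.2.2.2.1), hs.2.1.trans (add_le_add (add_le_add hy.2.2.2.2.1 hz.2.2.2.2.1) hw.2.2.2.1), hs.2.2.trans (add_le_add (add_le_add hy.2.2.2.2.2 hz.2.2.2.2.2) hw.2.2.2.2.1), hs.2.2.trans (add_le_add (add_le_add hy.2.2.2.2.2 hz.2.2.2.2.2) hw.2.2.2.2.2)⟩ m_AA_S3_M23).elim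
  · exact (P1_AAA_S1_S3_M13 n1 n2 n3 A1 A2 A3 B1 B2 B3 hb hp ⟨hz.1, hy.1, hw.1⟩ ⟨hs_wyz.1.trans (add_le_add (add_le_add hw.2.1 hy.2.1) hz.2.1), hs_wyz.1.trans (add_le_add (add_le_add hw.2.1 hy.2.2.1) hz.2.1), hs_wyz.2.1.trans (add_le_add (add_le_add hw.2.2.1 hy.2.2.2.1) hz.2.2.1), hs_wyz.2.1.trans (add_le_add (add_le_add hw.2.2.1 hy.2.2.2.1) hz.2.2.2.1), hs_wyz.2.1.trans (add_le_add (add_le_add hw.2.2.1 hy.2.2.2.2.1) hz.2.2.1), hs_wyz.2.1.trans (add_le_add (add_le_add hw.2.2.1 hy.2.2.2.2.1) hz.2.2.2.1), hs_wyz.2.2.trans (add_le_add (add_le_add hw.2.2.2 hy.2.2.2.2.2) hz.2.2.2.2.1), hs_wyz.2.2.trans (add_le_add (add_le_add hw.2.2.2 hy.2.2.2.2.2) hz.2.2.2.2.2)⟩ m_AA_S1_S3 m_AA_M13_M23).elim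
  · exact P1_AAA_S2_S3_M13 n1 n2 n3 A1 A2 A3 B1 B2 B3 hb hp ⟨hz.1, hy.1, hw.1⟩ ⟨hs_wyz.1.trans (add_le_add (add_le_add hw.2.1 hy.2.1) hz.2.1), hs_wyz.1.trans (add_le_add (add_le_add hw.2.1 hy.2.2.1) hz.2.1), hs_wyz.1.trans (add_le_add (add_le_add hw.2.2.1 hy.2.1) hz.2.1), hs_wyz.1.trans (add_le_add (add_le_add hw.2.2.1 hy.2.2.1) hz.2.1), hs_wyz.2.1.trans (add_le_add (add_le_add hw.2.2.2.1 hy.2.2.2.1) hz.2.2.1), hs_wyz.2.1.trans (add_le_add (add_le_add hw.2.2.2.1 hy.2.2.2.1) hz.2.2.2.1), hs_wyz.2.1.trans (add_le_add (add_le_add hw.2.2.2.1 hy.2.2.2.2.1) hz.2.2.1), hs_wyz.2.1.trans (add_le_add (add_le_add hw.2.2.2.1 hy.2.2.2.2.1) hz.2.2.2.1), hs_wyz.2.2.trans (add_le_add (add_le_add hw.2.2.2.2 hy.2.2.2.2.2) hz.2.2.2.2.1), hs_wyz.2.2.trans (add_le_add (add_le_add hw.2.2.2.2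 hy.2.2.2.2.2) hz.2.2.2.2.2)⟩ m_AA_S2_S3 m_AA_M13_M23 m_AB_S2_M13 m_AB_S2_S3 m_AA_S3_M13 m_AA_S1_S3
  · exact (P1_AAA_S3_S3_M13 n1 n2 n3 A1 A2 A3 B1 B2 B3 hb hp ⟨hz.1, hy.1⟩ ⟨hs_ywz.1.trans (add_le_add (add_le_add hy.2.1 hw.2.1) hz.2.1), hs_ywz.1.trans (add_le_add (add_le_add hy.2.1 hw.2.2.1) hz.2.1), hs_ywz.1.trans (add_le_add (add_le_add hy.2.2.1 hw.2.1) hz.2.1), hs_ywz.1.trans (add_le_add (add_le_add hy.2.2.1 hw.2.2.1) hz.2.1), hs_ywz.2.1.trans (add_le_add (add_le_add hy.2.2.2.1 hw.2.2.2.1) hz.2.2.1), hs_ywz.2.1.trans (add_le_add (add_le_add hy.2.2.2.1 hw.2.2.2.1) hz.2.2.2.1), hs_ywz.2.1.trans (add_le_add (add_le_add hy.2.2.2.1 hw.2.2.2.2.1) hz.2.2.1), hs_ywz.2.1.trans (add_le_add (add_le_add hy.2.2.2.1 hw.2.2.2.2.1) hz.2.2.2.1), hs_ywz.2.1.trans (add_le_add (add_le_add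 hy.2.2.2.2.1 hw.2.2.2.1) hz.2.2.1), hs_ywz.2.1.trans (add_le_add (add_le_add hy.2.2.2.2.1 hw.2.2.2.1) hz.2.2.2.1), hs_ywz.2.1.trans (add_le_add (add_le_add hy.2.2.2.2.1 hw.2.2.2.2.1) hz.2.2.1), hs_ywz.2.1.trans (add_le_add (add_le_add hy.2.2.2.2.1 hw.2.2.2.2.1) hz.2.2.2.1), hs_ywz.2.2.trans (add_le_add (add_le_add hy.2.2.2.2.2 hw.2.2.2.2.2) hz.2.2.2.2.1), hs_ywz.2.2.trans (add_le_add (add_le_add hy.2.2.2.2.2 hw.2.2.2.2.2) hz.2.2.2.2.2)⟩ m_AA_S3_M13).elim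
  · exact (P1_AAA_S3_M13_M13 n1 n2 n3 A1 A2 A3 B1 B2 B3 hb hp ⟨hz.1, hy.1⟩ ⟨hs.1.trans (add_le_add (add_le_add hy.2.1 hz.2.1) hw.2.1), hs.1.trans (add_le_add (add_le_add hy.2.2.1 hz.2.1) hw.2.1), hs.2.1.trans (add_le_add (add_le_add hy.2.2.2.1 hz.2.2.1) hw.2.2.1), hs.2.1.trans (add_le_add (add_le_add hy.2.2.2.1 hz.2.2.1) hw.2.2.2.1), hs.2.1.trans (add_le_add (add_le_add hy.2.2.2.1 hz.2.2.2.1) hw.2.2.1), hs.2.1.trans (add_le_add (add_le_add hy.2.2.2.1 hz.2.2.2.1) hw.2.2.2.1), hs.2.1.trans (add_le_add (add_le_add hy.2.2.2.2.1 hz.2.2.1) hw.2.2.1), hs.2.1.trans (add_le_add (add_le_add hy.2.2.2.2.1 hz.2.2.1) hw.2.2.2.1), hs.2.1.trans (add_le_add (add_le_add hy.2.2.2.2.1 hz.2.2.2.1) hw.2.2.1), hs.2.1.trans (add_le_add (add_le_add hy.2.2.2.2.1 hz.2.2.2.1) hw.2.2.2.1), hs.2.2.trans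 (add_le_add (add_le_add hy.2.2.2.2.2 hz.2.2.2.2.1) hw.2.2.2.2.1), hs.2.2.trans (add_le_add (add_le_add hy.2.2.2.2.2 hz.2.2.2.2.1) hw.2.2.2.2.2), hs.2.2.trans (add_le_add (add_le_add hy.2.2.2.2.2 hz.2.2.2.2.2) hw.2.2.2.2.1), hs.2.2.trans (add_le_add (add_le_add hy.2.2.2.2.2 hz.2.2.2.2.2) hw.2.2.2.2.2)⟩ m_AA_S3_M13).elim
  · exact (P1_AAA_S3_M13_M23 n1 n2 n3 A1 A2 A3 B1 B2 B3 hb hp ⟨hz.1, hw.1, hy.1⟩ ⟨hs.1.trans (add_le_add (add_le_add hy.2.1 hz.2.1) hw.2.1), hs.1.trans (add_le_add (add_le_add hy.2.1 hz.2.1) hw.2.2.1), hs.1.trans (add_le_add (add_le_add hy.2.2.1 hz.2.1) hw.2.1), hs.1.trans (add_le_add (add_le_add hy.2.2.1 hz.2.1) hw.2.2.1), hs.2.1.trans (add_le_add (add_le_add hy.2.2.2.1 hz.2.2.1) hw.2.2.2.1), hs.2.1.trans (add_le_add (add_le_add hy.2.2.2.1 hz.2.2.2.1) hw.2.2.2.1),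 hs.2.1.trans (add_le_add (add_le_add hy.2.2.2.2.1 hz.2.2.1) hw.2.2.2.1), hs.2.1.trans (add_le_add (add_le_add hy.2.2.2.2.1 hz.2.2.2.1) hw.2.2.2.1), hs.2.2.trans (add_le_add (add_le_add hy.2.2.2.2.2 hz.2.2.2.2.1) hw.2.2.2.2.1), hs.2.2.trans (add_le_add (add_le_add hy.2.2.2.2.2 hz.2.2.2.2.1) hw.2.2.2.2.2), hs.2.2.trans (add_le_add (add_le_add hy.2.2.2.2.2 hz.2.2.2.2.2) hw.2.2.2.2.1), hs.2.2.trans (add_le_add (add_le_add hy.2.2.2.2.2 hz.2.2.2.2.2) hw.2.2.2.2.2)⟩ m_AA_S3_M13).elim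
  · exact P1_AAA_S1_S3_M23 n1 n2 n3 A1 A2 A3 B1 B2 B3 hb hp ⟨hz.1, hy.1, hw.1⟩ ⟨hs_wyz.1.trans (add_le_add (add_le_add hw.2.1 hy.2.1) hz.2.1), hs_wyz.1.trans (add_le_add (add_le_add hw.2.1 hy.2.1) hz.2.2.1), hs_wyz.1.trans (add_le_add (add_le_add hw.2.1 hy.2.2.1) hz.2.1), hs_wyz.1.trans (add_le_add (add_le_add hw.2.1 hy.2.2.1) hz.2.2.1), hs_wyz.2.1.trans (add_le_add (add_le_add hw.2.2.1 hy.2.2.2.1) hz.2.2.2.1), hs_wyz.2.1.trans (add_le_add (add_le_add hw.2.2.1 hy.2.2.2.2.1) hz.2.2.2.1), hs_wyz.2.2.trans (add_le_add (add_le_add hw.2.2.2 hy.2.2.2.2.2) hz.2.2.2.2.1), hs_wyz.2.2.trans (add_le_add (add_le_add hw.2.2.2 hy.2.2.2.2.2) hz.2.2.2.2.2)⟩ m_AA_S1_S3 m_AA_S2_S3 m_AA_M13_M23 m_AB_S1_S3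
  · exact (P1_AAA_S2_S3_M23 n1 n2 n3 A1 A2 A3 B1 B2 B3 hb hp ⟨hz.1, hy.1, hw.1⟩ ⟨hs_wyz.1.trans (add_le_add (add_le_add hw.2.1 hy.2.1) hz.2.1), hs_wyz.1.trans (add_le_add (add_le_add hw.2.1 hy.2.1) hz.2.2.1), hs_wyz.1.trans (add_le_add (add_le_add hw.2.1 hy.2.2.1) hz.2.1), hs_wyz.1.trans (add_le_add (add_le_add hw.2.1 hy.2.2.1) hz.2.2.1), hs_wyz.1.trans (add_le_add (add_le_add hw.2.2.1 hy.2.1) hz.2.1), hs_wyz.1.trans (add_le_add (add_le_add hw.2.2.1 hy.2.1) hz.2.2.1), hs_wyz.1.trans (add_le_add (add_le_add hw.2.2.1 hy.2.2.1) hz.2.1), hs_wyz.1.trans (add_le_add (add_le_add hw.2.2.1 hy.2.2.1) hz.2.2.1), hs_wyz.2.1.trans (add_le_add (add_le_add hw.2.2.2.1 hy.2.2.2.1) hz.2.2.2.1), hs_wyz.2.1.trans (add_le_add (add_le_add hw.2.2.2.1 hy.2.2.2.2.1) hz.2.2.2.1), hs_wyz.2.2.trans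 (add_le_add (add_le_add hw.2.2.2.2 hy.2.2.2.2.2) hz.2.2.2.2.1), hs_wyz.2.2.trans (add_le_add (add_le_add hw.2.2.2.2 hy.2.2.2.2.2) hz.2.2.2.2.2)⟩ m_AA_S2_S3 m_AA_M13_M23).elim
  · exact (P1_AAA_S3_S3_M23 n1 n2 n3 A1 A2 A3 B1 B2 B3 hb hp ⟨hz.1, hy.1⟩ ⟨hs_ywz.1.trans (add_le_add (add_le_add hy.2.1 hw.2.1) hz.2.1), hs_ywz.1.trans (add_le_add (add_le_add hy.2.1 hw.2.1) hz.2.2.1), hs_ywz.1.trans (add_le_add (add_le_add hy.2.1 hw.2.2.1) hz.2.1), hs_ywz.1.trans (add_le_add (add_le_add hy.2.1 hw.2.2.1) hz.2.2.1), hs_ywz.1.trans (add_le_add (add_le_add hy.2.2.1 hw.2.1) hz.2.1), hs_ywz.1.trans (add_le_add (add_le_add hy.2.2.1 hw.2.1) hz.2.2.1), hs_ywz.1.trans (add_le_add (add_le_add hy.2.2.1 hw.2.2.1) hz.2.1), hs_ywz.1.trans (add_le_add (add_le_add hy.2.2.1 hw.2.2.1) hz.2.2.1), hs_ywz.2.1.trans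 (add_le_add (add_le_add hy.2.2.2.1 hw.2.2.2.1) hz.2.2.2.1), hs_ywz.2.1.trans (add_le_add (add_le_add hy.2.2.2.1 hw.2.2.2.2.1) hz.2.2.2.1), hs_ywz.2.1.trans (add_le_add (add_le_add hy.2.2.2.2.1 hw.2.2.2.1) hz.2.2.2.1), hs_ywz.2.1.trans (add_le_add (add_le_add hy.2.2.2.2.1 hw.2.2.2.2.1) hz.2.2.2.1), hs_ywz.2.2.trans (add_le_add (add_le_add hy.2.2.2.2.2 hw.2.2.2.2.2) hz.2.2.2.2.1), hs_ywz.2.2.trans (add_le_add (add_le_add hy.2.2.2.2.2 hw.2.2.2.2.2) hz.2.2.2.2.2)⟩ m_AA_S3_M23).elim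
  · exact (P1_AAA_S3_M13_M23 n1 n2 n3 A1 A2 A3 B1 B2 B3 hb hp ⟨hw.1, hz.1, hy.1⟩ ⟨hs_ywz.1.trans (add_le_add (add_le_add hy.2.1 hw.2.1) hz.2.1), hs_ywz.1.trans (add_le_add (add_le_add hy.2.1 hw.2.1) hz.2.2.1), hs_ywz.1.trans (add_le_add (add_le_add hy.2.2.1 hw.2.1) hz.2.1), hs_ywz.1.trans (add_le_add (add_le_add hy.2.2.1 hw.2.1) hz.2.2.1), hs_ywz.2.1.trans (add_le_add (add_le_add hy.2.2.2.1 hw.2.2.1) hz.2.2.2.1), hs_ywz.2.1.trans (add_le_add (add_le_add hy.2.2.2.1 hw.2.2.2.1) hz.2.2.2.1), hs_ywz.2.1.trans (add_le_add (add_le_add hy.2.2.2.2.1 hw.2.2.1) hz.2.2.2.1), hs_ywz.2.1.trans (add_le_add (add_le_add hy.2.2.2.2.1 hw.2.2.2.1) hz.2.2.2.1), hs_ywz.2.2.trans (add_le_add (add_le_add hy.2.2.2.2.2 hw.2.2.2.2.1) hz.2.2.2.2.1), hs_ywz.2.2.trans (add_le_add (add_le_add hy.2.2.2.2.2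 hw.2.2.2.2.1) hz.2.2.2.2.2), hs_ywz.2.2.trans (add_le_add (add_le_add hy.2.2.2.2.2 hw.2.2.2.2.2) hz.2.2.2.2.1), hs_ywz.2.2.trans (add_le_add (add_le_add hy.2.2.2.2.2 hw.2.2.2.2.2) hz.2.2.2.2.2)⟩ m_AA_S3_M13).elim
  · exact (P1_AAA_S3_M23_M23 n1 n2 n3 A1 A2 A3 B1 B2 B3 hb hp ⟨hz.1, hy.1⟩ ⟨hs.1.trans (add_le_add (add_le_add hy.2.1 hz.2.1) hw.2.1), hs.1.trans (add_le_add (add_le_add hy.2.1 hz.2.1) hw.2.2.1), hs.1.trans (add_le_add (add_le_add hy.2.1 hz.2.2.1) hw.2.1), hs.1.trans (add_le_add (add_le_add hy.2.1 hz.2.2.1) hw.2.2.1), hs.1.trans (add_le_add (add_le_add hy.2.2.1 hz.2.1) hw.2.1), hs.1.trans (add_le_add (add_le_add hy.2.2.1 hz.2.1) hw.2.2.1), hs.1.trans (add_le_add (add_le_add hy.2.2.1 hz.2.2.1) hw.2.1), hs.1.trans (add_le_add (add_le_add hy.2.2.1 hz.2.2.1) hw.2.2.1),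 hs.2.1.trans (add_le_add (add_le_add hy.2.2.2.1 hz.2.2.2.1) hw.2.2.2.1), hs.2.1.trans (add_le_add (add_le_add hy.2.2.2.2.1 hz.2.2.2.1) hw.2.2.2.1), hs.2.2.trans (add_le_add (add_le_add hy.2.2.2.2.2 hz.2.2.2.2.1) hw.2.2.2.2.1), hs.2.2.trans (add_le_add (add_le_add hy.2.2.2.2.2 hz.2.2.2.2.1) hw.2.2.2.2.2), hs.2.2.trans (add_le_add (add_le_add hy.2.2.2.2.2 hz.2.2.2.2.2) hw.2.2.2.2.1), hs.2.2.trans (add_le_add (add_le_add hy.2.2.2.2.2 hz.2.2.2.2.2) hw.2.2.2.2.2)⟩ m_AA_S3_M23).elim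
  · exact (P1_AAA_S1_S1_M13 n1 n2 n3 A1 A2 A3 B1 B2 B3 hb hp ⟨hy.1, hz.1⟩ ⟨hs_zwy.1.trans (add_le_add (add_le_add hz.2.1 hw.2.1) hy.2.1), hs_zwy.2.1.trans (add_le_add (add_le_add hz.2.2.1 hw.2.2.1) hy.2.2.1), hs_zwy.2.1.trans (add_le_add (add_le_add hz.2.2.1 hw.2.2.1) hy.2.2.2.1), hs_zwy.2.2.trans (add_le_add (add_le_add hz.2.2.2 hw.2.2.2) hy.2.2.2.2.1), hs_zwy.2.2.trans (add_le_add (add_le_add hz.2.2.2 hw.2.2.2) hy.2.2.2.2.2)⟩ ).elim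
  · exact (P1_AAA_S1_S2_M13 n1 n2 n3 A1 A2 A3 B1 B2 B3 hb hp ⟨hy.1, hz.1, hw.1⟩ ⟨hs_zwy.1.trans (add_le_add (add_le_add hz.2.1 hw.2.1) hy.2.1), hs_zwy.1.trans (add_le_add (add_le_add hz.2.1 hw.2.2.1) hy.2.1), hs_zwy.2.1.trans (add_le_add (add_le_add hz.2.2.1 hw.2.2.2.1) hy.2.2.1), hs_zwy.2.1.trans (add_le_add (add_le_add hz.2.2.1 hw.2.2.2.1) hy.2.2.2.1), hs_zwy.2.2.trans (add_le_add (add_le_add hz.2.2.2 hw.2.2.2.2) hy.2.2.2.2.1), hs_zwy.2.2.trans (add_le_add (add_le_add hz.2.2.2 hw.2.2.2.2) hy.2.2.2.2.2)⟩ m_AA_S1_S3 m_AA_S2_M13).elim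
  · exact (P1_AAA_S1_S3_M13 n1 n2 n3 A1 A2 A3 B1 B2 B3 hb hp ⟨hy.1, hw.1, hz.1⟩ ⟨hs_zwy.1.trans (add_le_add (add_le_add hz.2.1 hw.2.1) hy.2.1), hs_zwy.1.trans (add_le_add (add_le_add hz.2.1 hw.2.2.1) hy.2.1), hs_zwy.2.1.trans (add_le_add (add_le_add hz.2.2.1 hw.2.2.2.1) hy.2.2.1), hs_zwy.2.1.trans (add_le_add (add_le_add hz.2.2.1 hw.2.2.2.1) hy.2.2.2.1), hs_zwy.2.1.trans (add_le_add (add_le_add hz.2.2.1 hw.2.2.2.2.1) hy.2.2.1), hs_zwy.2.1.trans (add_le_add (add_le_add hz.2.2.1 hw.2.2.2.2.1) hy.2.2.2.1), hs_zwy.2.2.trans (add_le_add (add_le_add hz.2.2.2 hw.2.2.2.2.2) hy.2.2.2.2.1), hs_zwy.2.2.trans (add_le_add (add_le_add hz.2.2.2 hw.2.2.2.2.2) hy.2.2.2.2.2)⟩ m_AA_S1_S3 m_AA_M13_M23).elim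
  · exact (P1_AAA_S1_M13_M13 n1 n2 n3 A1 A2 A3 B1 B2 B3 hb hp ⟨hy.1, hz.1⟩ ⟨hs_zyw.1.trans (add_le_add (add_le_add hz.2.1 hy.2.1) hw.2.1), hs_zyw.2.1.trans (add_le_add (add_le_add hz.2.2.1 hy.2.2.1) hw.2.2.1), hs_zyw.2.1.trans (add_le_add (add_le_add hz.2.2.1 hy.2.2.1) hw.2.2.2.1), hs_zyw.2.1.trans (add_le_add (add_le_add hz.2.2.1 hy.2.2.2.1) hw.2.2.1), hs_zyw.2.1.trans (add_le_add (add_le_add hz.2.2.1 hy.2.2.2.1) hw.2.2.2.1), hs_zyw.2.2.trans (add_le_add (add_le_add hz.2.2.2 hy.2.2.2.2.1) hw.2.2.2.2.1), hs_zyw.2.2.trans (add_le_add (add_le_add hz.2.2.2 hy.2.2.2.2.1) hw.2.2.2.2.2), hs_zyw.2.2.trans (add_le_add (add_le_add hz.2.2.2 hy.2.2.2.2.2) hw.2.2.2.2.1), hs_zyw.2.2.trans (add_le_add (add_le_add hz.2.2.2 hy.2.2.2.2.2) hw.2.2.2.2.2)⟩ ).elim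
  · exact (P1_AAA_S1_M13_M23 n1 n2 n3 A1 A2 A3 B1 B2 B3 hb hp ⟨hy.1, hw.1, hz.1⟩ ⟨hs_zyw.1.trans (add_le_add (add_le_add hz.2.1 hy.2.1) hw.2.1), hs_zyw.1.trans (add_le_add (add_le_add hz.2.1 hy.2.1) hw.2.2.1), hs_zyw.2.1.trans (add_le_add (add_le_add hz.2.2.1 hy.2.2.1) hw.2.2.2.1), hs_zyw.2.1.trans (add_le_add (add_le_add hz.2.2.1 hy.2.2.2.1) hw.2.2.2.1), hs_zyw.2.2.trans (add_le_add (add_le_add hz.2.2.2 hy.2.2.2.2.1) hw.2.2.2.2.1), hs_zyw.2.2.trans (add_le_add (add_le_add hz.2.2.2 hy.2.2.2.2.1) hw.2.2.2.2.2), hs_zyw.2.2.trans (add_le_add (add_le_add hz.2.2.2 hy.2.2.2.2.2) hw.2.2.2.2.1), hs_zyw.2.2.trans (add_le_add (add_le_add hz.2.2.2 hy.2.2.2.2.2) hw.2.2.2.2.2)⟩ m_AA_S1_S3 m_AA_S3_M13 m_AA_M13_M23).elim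
  · exact (P1_AAA_S1_S2_M13 n1 n2 n3 A1 A2 A3 B1 B2 B3 hb hp ⟨hy.1, hw.1, hz.1⟩ ⟨hs_wzy.1.trans (add_le_add (add_le_add hw.2.1 hz.2.1) hy.2.1), hs_wzy.1.trans (add_le_add (add_le_add hw.2.1 hz.2.2.1) hy.2.1), hs_wzy.2.1.trans (add_le_add (add_le_add hw.2.2.1 hz.2.2.2.1) hy.2.2.1), hs_wzy.2.1.trans (add_le_add (add_le_add hw.2.2.1 hz.2.2.2.1) hy.2.2.2.1), hs_wzy.2.2.trans (add_le_add (add_le_add hw.2.2.2 hz.2.2.2.2) hy.2.2.2.2.1), hs_wzy.2.2.trans (add_le_add (add_le_add hw.2.2.2 hz.2.2.2.2) hy.2.2.2.2.2)⟩ m_AA_S1_S3 m_AA_S2_M13).elim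
  · exact (P1_AAA_S2_S2_M13 n1 n2 n3 A1 A2 A3 B1 B2 B3 hb hp ⟨hy.1, hz.1⟩ ⟨hs_zwy.1.trans (add_le_add (add_le_add hz.2.1 hw.2.1) hy.2.1), hs_zwy.1.trans (add_le_add (add_le_add hz.2.1 hw.2.2.1) hy.2.1), hs_zwy.1.trans (add_le_add (add_le_add hz.2.2.1 hw.2.1) hy.2.1), hs_zwy.1.trans (add_le_add (add_le_add hz.2.2.1 hw.2.2.1) hy.2.1), hs_zwy.2.1.trans (add_le_add (add_le_add hz.2.2.2.1 hw.2.2.2.1) hy.2.2.1), hs_zwy.2.1.trans (add_le_add (add_le_add hz.2.2.2.1 hw.2.2.2.1) hy.2.2.2.1), hs_zwy.2.2.trans (add_le_add (add_le_add hz.2.2.2.2 hw.2.2.2.2) hy.2.2.2.2.1), hs_zwy.2.2.trans (add_le_add (add_le_add hz.2.2.2.2 hw.2.2.2.2) hy.2.2.2.2.2)⟩ m_AA_S2_M13).elim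
  · exact P1_AAA_S2_S3_M13 n1 n2 n3 A1 A2 A3 B1 B2 B3 hb hp ⟨hy.1, hw.1, hz.1⟩ ⟨hs_zwy.1.trans (add_le_add (add_le_add hz.2.1 hw.2.1) hy.2.1), hs_zwy.1.trans (add_le_add (add_le_add hz.2.1 hw.2.2.1) hy.2.1), hs_zwy.1.trans (add_le_add (add_le_add hz.2.2.1 hw.2.1) hy.2.1), hs_zwy.1.trans (add_le_add (add_le_add hz.2.2.1 hw.2.2.1) hy.2.1), hs_zwy.2.1.trans (add_le_add (add_le_add hz.2.2.2.1 hw.2.2.2.1) hy.2.2.1), hs_zwy.2.1.trans (add_le_add (add_le_add hz.2.2.2.1 hw.2.2.2.1) hy.2.2.2.1), hs_zwy.2.1.trans (add_le_add (add_le_add hz.2.2.2.1 hw.2.2.2.2.1) hy.2.2.1), hs_zwy.2.1.trans (add_le_add (add_le_add hz.2.2.2.1 hw.2.2.2.2.1) hy.2.2.2.1), hs_zwy.2.2.trans (add_le_add (add_le_add hz.2.2.2.2 hw.2.2.2.2.2) hy.2.2.2.2.1), hs_zwy.2.2.trans (add_le_add (add_le_add hz.2.2.2.2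 hw.2.2.2.2.2) hy.2.2.2.2.2)⟩ m_AA_S2_S3 m_AA_M13_M23 m_AB_S2_M13 m_AB_S2_S3 m_AA_S3_M13 m_AA_S1_S3
  · exact (P1_AAA_S2_M13_M13 n1 n2 n3 A1 A2 A3 B1 B2 B3 hb hp ⟨hy.1, hz.1⟩ ⟨hs_zyw.1.trans (add_le_add (add_le_add hz.2.1 hy.2.1) hw.2.1), hs_zyw.1.trans (add_le_add (add_le_add hz.2.2.1 hy.2.1) hw.2.1), hs_zyw.2.1.trans (add_le_add (add_le_add hz.2.2.2.1 hy.2.2.1) hw.2.2.1), hs_zyw.2.1.trans (add_le_add (add_le_add hz.2.2.2.1 hy.2.2.1) hw.2.2.2.1), hs_zyw.2.1.trans (add_le_add (add_le_add hz.2.2.2.1 hy.2.2.2.1) hw.2.2.1), hs_zyw.2.1.trans (add_le_add (add_le_add hz.2.2.2.1 hy.2.2.2.1) hw.2.2.2.1), hs_zyw.2.2.trans (add_le_add (add_le_add hz.2.2.2.2 hy.2.2.2.2.1) hw.2.2.2.2.1), hs_zyw.2.2.trans (add_le_add (add_le_add hz.2.2.2.2 hy.2.2.2.2.1) hw.2.2.2.2.2), hs_zyw.2.2.trans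 (add_le_add (add_le_add hz.2.2.2.2 hy.2.2.2.2.2) hw.2.2.2.2.1), hs_zyw.2.2.trans (add_le_add (add_le_add hz.2.2.2.2 hy.2.2.2.2.2) hw.2.2.2.2.2)⟩ m_AA_M13_M23).elim
  · exact (P1_AAA_S2_M13_M23 n1 n2 n3 A1 A2 A3 B1 B2 B3 hb hp ⟨hy.1, hw.1, hz.1⟩ ⟨hs_zyw.1.trans (add_le_add (add_le_add hz.2.1 hy.2.1) hw.2.1), hs_zyw.1.trans (add_le_add (add_le_add hz.2.1 hy.2.1) hw.2.2.1), hs_zyw.1.trans (add_le_add (add_le_add hz.2.2.1 hy.2.1) hw.2.1), hs_zyw.1.trans (add_le_add (add_le_add hz.2.2.1 hy.2.1) hw.2.2.1), hs_zyw.2.1.trans (add_le_add (add_le_add hz.2.2.2.1 hy.2.2.1) hw.2.2.2.1), hs_zyw.2.1.trans (add_le_add (add_le_add hz.2.2.2.1 hy.2.2.2.1) hw.2.2.2.1), hs_zyw.2.2.trans (add_le_add (add_le_add hz.2.2.2.2 hy.2.2.2.2.1) hw.2.2.2.2.1), hs_zyw.2.2.trans (add_le_add (add_le_add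 hz.2.2.2.2 hy.2.2.2.2.1) hw.2.2.2.2.2), hs_zyw.2.2.trans (add_le_add (add_le_add hz.2.2.2.2 hy.2.2.2.2.2) hw.2.2.2.2.1), hs_zyw.2.2.trans (add_le_add (add_le_add hz.2.2.2.2 hy.2.2.2.2.2) hw.2.2.2.2.2)⟩ m_AA_M13_M23).elim
  · exact (P1_AAA_S1_S3_M13 n1 n2 n3 A1 A2 A3 B1 B2 B3 hb hp ⟨hy.1, hz.1, hw.1⟩ ⟨hs_wzy.1.trans (add_le_add (add_le_add hw.2.1 hz.2.1) hy.2.1), hs_wzy.1.trans (add_le_add (add_le_add hw.2.1 hz.2.2.1) hy.2.1), hs_wzy.2.1.trans (add_le_add (add_le_add hw.2.2.1 hz.2.2.2.1) hy.2.2.1), hs_wzy.2.1.trans (add_le_add (add_le_add hw.2.2.1 hz.2.2.2.1) hy.2.2.2.1), hs_wzy.2.1.trans (add_le_add (add_le_add hw.2.2.1 hz.2.2.2.2.1) hy.2.2.1), hs_wzy.2.1.trans (add_le_add (add_le_add hw.2.2.1 hz.2.2.2.2.1) hy.2.2.2.1), hs_wzy.2.2.trans (add_le_add (add_le_add hw.2.2.2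 hz.2.2.2.2.2) hy.2.2.2.2.1), hs_wzy.2.2.trans (add_le_add (add_le_add hw.2.2.2 hz.2.2.2.2.2) hy.2.2.2.2.2)⟩ m_AA_S1_S3 m_AA_M13_M23).elim
  · exact P1_AAA_S2_S3_M13 n1 n2 n3 A1 A2 A3 B1 B2 B3 hb hp ⟨hy.1, hz.1, hw.1⟩ ⟨hs_wzy.1.trans (add_le_add (add_le_add hw.2.1 hz.2.1) hy.2.1), hs_wzy.1.trans (add_le_add (add_le_add hw.2.1 hz.2.2.1) hy.2.1), hs_wzy.1.trans (add_le_add (add_le_add hw.2.2.1 hz.2.1) hy.2.1), hs_wzy.1.trans (add_le_add (add_le_add hw.2.2.1 hz.2.2.1) hy.2.1), hs_wzy.2.1.trans (add_le_add (add_le_add hw.2.2.2.1 hz.2.2.2.1) hy.2.2.1), hs_wzy.2.1.trans (add_le_add (add_le_add hw.2.2.2.1 hz.2.2.2.1) hy.2.2.2.1), hs_wzy.2.1.trans (add_le_add (add_le_add hw.2.2.2.1 hz.2.2.2.2.1) hy.2.2.1), hs_wzy.2.1.trans (add_le_add (add_le_add hw.2.2.2.1 hz.2.2.2.2.1) hy.2.2.2.1),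 hs_wzy.2.2.trans (add_le_add (add_le_add hw.2.2.2.2 hz.2.2.2.2.2) hy.2.2.2.2.1), hs_wzy.2.2.trans (add_le_add (add_le_add hw.2.2.2.2 hz.2.2.2.2.2) hy.2.2.2.2.2)⟩ m_AA_S2_S3 m_AA_M13_M23 m_AB_S2_M13 m_AB_S2_S3 m_AA_S3_M13 m_AA_S1_S3
  · exact (P1_AAA_S3_S3_M13 n1 n2 n3 A1 A2 A3 B1 B2 B3 hb hp ⟨hy.1, hz.1⟩ ⟨hs_zwy.1.trans (add_le_add (add_le_add hz.2.1 hw.2.1) hy.2.1), hs_zwy.1.trans (add_le_add (add_le_add hz.2.1 hw.2.2.1) hy.2.1), hs_zwy.1.trans (add_le_add (add_le_add hz.2.2.1 hw.2.1) hy.2.1), hs_zwy.1.trans (add_le_add (add_le_add hz.2.2.1 hw.2.2.1) hy.2.1), hs_zwy.2.1.trans (add_le_add (add_le_add hz.2.2.2.1 hw.2.2.2.1) hy.2.2.1), hs_zwy.2.1.trans (add_le_add (add_le_add hz.2.2.2.1 hw.2.2.2.1) hy.2.2.2.1), hs_zwy.2.1.trans (add_le_add (add_le_add hz.2.2.2.1 hw.2.2.2.2.1)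 hy.2.2.1), hs_zwy.2.1.trans (add_le_add (add_le_add hz.2.2.2.1 hw.2.2.2.2.1) hy.2.2.2.1), hs_zwy.2.1.trans (add_le_add (add_le_add hz.2.2.2.2.1 hw.2.2.2.1) hy.2.2.1), hs_zwy.2.1.trans (add_le_add (add_le_add hz.2.2.2.2.1 hw.2.2.2.1) hy.2.2.2.1), hs_zwy.2.1.trans (add_le_add (add_le_add hz.2.2.2.2.1 hw.2.2.2.2.1) hy.2.2.1), hs_zwy.2.1.trans (add_le_add (add_le_add hz.2.2.2.2.1 hw.2.2.2.2.1) hy.2.2.2.1), hs_zwy.2.2.trans (add_le_add (add_le_add hz.2.2.2.2.2 hw.2.2.2.2.2) hy.2.2.2.2.1), hs_zwy.2.2.trans (add_le_add (add_le_add hz.2.2.2.2.2 hw.2.2.2.2.2) hy.2.2.2.2.2)⟩ m_AA_S3_M13).elim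
  · exact (P1_AAA_S3_M13_M13 n1 n2 n3 A1 A2 A3 B1 B2 B3 hb hp ⟨hy.1, hz.1⟩ ⟨hs_zyw.1.trans (add_le_add (add_le_add hz.2.1 hy.2.1) hw.2.1), hs_zyw.1.trans (add_le_add (add_le_add hz.2.2.1 hy.2.1) hw.2.1), hs_zyw.2.1.trans (add_le_add (add_le_add hz.2.2.2.1 hy.2.2.1) hw.2.2.1), hs_zyw.2.1.trans (add_le_add (add_le_add hz.2.2.2.1 hy.2.2.1) hw.2.2.2.1), hs_zyw.2.1.trans (add_le_add (add_le_add hz.2.2.2.1 hy.2.2.2.1) hw.2.2.1), hs_zyw.2.1.trans (add_le_add (add_le_add hz.2.2.2.1 hy.2.2.2.1) hw.2.2.2.1), hs_zyw.2.1.trans (add_le_add (add_le_add hz.2.2.2.2.1 hy.2.2.1) hw.2.2.1), hs_zyw.2.1.trans (add_le_add (add_le_add hz.2.2.2.2.1 hy.2.2.1) hw.2.2.2.1), hs_zyw.2.1.trans (add_le_add (add_le_add hz.2.2.2.2.1 hy.2.2.2.1) hw.2.2.1), hs_zyw.2.1.trans (add_le_add (add_le_add hz.2.2.2.2.1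 hy.2.2.2.1) hw.2.2.2.1), hs_zyw.2.2.trans (add_le_add (add_le_add hz.2.2.2.2.2 hy.2.2.2.2.1) hw.2.2.2.2.1), hs_zyw.2.2.trans (add_le_add (add_le_add hz.2.2.2.2.2 hy.2.2.2.2.1) hw.2.2.2.2.2), hs_zyw.2.2.trans (add_le_add (add_le_add hz.2.2.2.2.2 hy.2.2.2.2.2) hw.2.2.2.2.1), hs_zyw.2.2.trans (add_le_add (add_le_add hz.2.2.2.2.2 hy.2.2.2.2.2) hw.2.2.2.2.2)⟩ m_AA_S3_M13).elim
  · exact (P1_AAA_S3_M13_M23 n1 n2 n3 A1 A2 A3 B1 B2 B3 hb hp ⟨hy.1, hw.1, hz.1⟩ ⟨hs_zyw.1.trans (add_le_add (add_le_add hz.2.1 hy.2.1) hw.2.1), hs_zyw.1.trans (add_le_add (add_le_add hz.2.1 hy.2.1) hw.2.2.1), hs_zyw.1.trans (add_le_add (add_le_add hz.2.2.1 hy.2.1) hw.2.1), hs_zyw.1.trans (add_le_add (add_le_add hz.2.2.1 hy.2.1) hw.2.2.1), hs_zyw.2.1.trans (add_le_add (add_le_add hz.2.2.2.1 hy.2.2.1) hw.2.2.2.1),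 hs_zyw.2.1.trans (add_le_add (add_le_add hz.2.2.2.1 hy.2.2.2.1) hw.2.2.2.1), hs_zyw.2.1.trans (add_le_add (add_le_add hz.2.2.2.2.1 hy.2.2.1) hw.2.2.2.1), hs_zyw.2.1.trans (add_le_add (add_le_add hz.2.2.2.2.1 hy.2.2.2.1) hw.2.2.2.1), hs_zyw.2.2.trans (add_le_add (add_le_add hz.2.2.2.2.2 hy.2.2.2.2.1) hw.2.2.2.2.1), hs_zyw.2.2.trans (add_le_add (add_le_add hz.2.2.2.2.2 hy.2.2.2.2.1) hw.2.2.2.2.2), hs_zyw.2.2.trans (add_le_add (add_le_add hz.2.2.2.2.2 hy.2.2.2.2.2) hw.2.2.2.2.1), hs_zyw.2.2.trans (add_le_add (add_le_add hz.2.2.2.2.2 hy.2.2.2.2.2) hw.2.2.2.2.2)⟩ m_AA_S3_M13).elim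
  · exact (P1_AAA_S1_M13_M13 n1 n2 n3 A1 A2 A3 B1 B2 B3 hb hp ⟨hy.1, hw.1⟩ ⟨hs_wyz.1.trans (add_le_add (add_le_add hw.2.1 hy.2.1) hz.2.1), hs_wyz.2.1.trans (add_le_add (add_le_add hw.2.2.1 hy.2.2.1) hz.2.2.1), hs_wyz.2.1.trans (add_le_add (add_le_add hw.2.2.1 hy.2.2.1) hz.2.2.2.1), hs_wyz.2.1.trans (add_le_add (add_le_add hw.2.2.1 hy.2.2.2.1) hz.2.2.1), hs_wyz.2.1.trans (add_le_add (add_le_add hw.2.2.1 hy.2.2.2.1) hz.2.2.2.1), hs_wyz.2.2.trans (add_le_add (add_le_add hw.2.2.2 hy.2.2.2.2.1) hz.2.2.2.2.1), hs_wyz.2.2.trans (add_le_add (add_le_add hw.2.2.2 hy.2.2.2.2.1) hz.2.2.2.2.2), hs_wyz.2.2.trans (add_le_add (add_le_add hw.2.2.2 hy.2.2.2.2.2) hz.2.2.2.2.1), hs_wyz.2.2.trans (add_le_add (add_le_add hw.2.2.2 hy.2.2.2.2.2) hz.2.2.2.2.2)⟩ ).elim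
  · exact (P1_AAA_S2_M13_M13 n1 n2 n3 A1 A2 A3 B1 B2 B3 hb hp ⟨hy.1, hw.1⟩ ⟨hs_wyz.1.trans (add_le_add (add_le_add hw.2.1 hy.2.1) hz.2.1), hs_wyz.1.trans (add_le_add (add_le_add hw.2.2.1 hy.2.1) hz.2.1), hs_wyz.2.1.trans (add_le_add (add_le_add hw.2.2.2.1 hy.2.2.1) hz.2.2.1), hs_wyz.2.1.trans (add_le_add (add_le_add hw.2.2.2.1 hy.2.2.1) hz.2.2.2.1), hs_wyz.2.1.trans (add_le_add (add_le_add hw.2.2.2.1 hy.2.2.2.1) hz.2.2.1), hs_wyz.2.1.trans (add_le_add (add_le_add hw.2.2.2.1 hy.2.2.2.1) hz.2.2.2.1), hs_wyz.2.2.trans (add_le_add (add_le_add hw.2.2.2.2 hy.2.2.2.2.1) hz.2.2.2.2.1), hs_wyz.2.2.trans (add_le_add (add_le_add hw.2.2.2.2 hy.2.2.2.2.1) hz.2.2.2.2.2), hs_wyz.2.2.trans (add_le_add (add_le_add hw.2.2.2.2 hy.2.2.2.2.2) hz.2.2.2.2.1), hs_wyz.2.2.trans (add_le_add (add_le_add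 hw.2.2.2.2 hy.2.2.2.2.2) hz.2.2.2.2.2)⟩ m_AA_M13_M23).elim
  · exact (P1_AAA_S3_M13_M13 n1 n2 n3 A1 A2 A3 B1 B2 B3 hb hp ⟨hy.1, hw.1⟩ ⟨hs_wyz.1.trans (add_le_add (add_le_add hw.2.1 hy.2.1) hz.2.1), hs_wyz.1.trans (add_le_add (add_le_add hw.2.2.1 hy.2.1) hz.2.1), hs_wyz.2.1.trans (add_le_add (add_le_add hw.2.2.2.1 hy.2.2.1) hz.2.2.1), hs_wyz.2.1.trans (add_le_add (add_le_add hw.2.2.2.1 hy.2.2.1) hz.2.2.2.1), hs_wyz.2.1.trans (add_le_add (add_le_add hw.2.2.2.1 hy.2.2.2.1) hz.2.2.1), hs_wyz.2.1.trans (add_le_add (add_le_add hw.2.2.2.1 hy.2.2.2.1) hz.2.2.2.1), hs_wyz.2.1.trans (add_le_add (add_le_add hw.2.2.2.2.1 hy.2.2.1) hz.2.2.1), hs_wyz.2.1.trans (add_le_add (add_le_add hw.2.2.2.2.1 hy.2.2.1) hz.2.2.2.1), hs_wyz.2.1.trans (add_le_add (add_le_add hw.2.2.2.2.1 hy.2.2.2.1)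 hz.2.2.1), hs_wyz.2.1.trans (add_le_add (add_le_add hw.2.2.2.2.1 hy.2.2.2.1) hz.2.2.2.1), hs_wyz.2.2.trans (add_le_add (add_le_add hw.2.2.2.2.2 hy.2.2.2.2.1) hz.2.2.2.2.1), hs_wyz.2.2.trans (add_le_add (add_le_add hw.2.2.2.2.2 hy.2.2.2.2.1) hz.2.2.2.2.2), hs_wyz.2.2.trans (add_le_add (add_le_add hw.2.2.2.2.2 hy.2.2.2.2.2) hz.2.2.2.2.1), hs_wyz.2.2.trans (add_le_add (add_le_add hw.2.2.2.2.2 hy.2.2.2.2.2) hz.2.2.2.2.2)⟩ m_AA_S3_M13).elim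
  · exact (P1_AAA_M13_M13_M13 n1 n2 n3 A1 A2 A3 B1 B2 B3 hb hp hy.1 ⟨hs.1.trans (add_le_add (add_le_add hy.2.1 hz.2.1) hw.2.1), hs.2.1.trans (add_le_add (add_le_add hy.2.2.1 hz.2.2.1) hw.2.2.1), hs.2.1.trans (add_le_add (add_le_add hy.2.2.1 hz.2.2.1) hw.2.2.2.1), hs.2.1.trans (add_le_add (add_le_add hy.2.2.1 hz.2.2.2.1) hw.2.2.1), hs.2.1.trans (add_le_add (add_le_add hy.2.2.1 hz.2.2.2.1) hw.2.2.2.1), hs.2.1.trans (add_le_add (add_le_add hy.2.2.2.1 hz.2.2.1) hw.2.2.1), hs.2.1.trans (add_le_add (add_le_add hy.2.2.2.1 hz.2.2.1) hw.2.2.2.1), hs.2.1.trans (add_le_add (add_le_add hy.2.2.2.1 hz.2.2.2.1) hw.2.2.1), hs.2.1.trans (add_le_add (add_le_add hy.2.2.2.1 hz.2.2.2.1) hw.2.2.2.1), hs.2.2.trans (add_le_add (add_le_add hy.2.2.2.2.1 hz.2.2.2.2.1) hw.2.2.2.2.1), hs.2.2.trans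 (add_le_add (add_le_add hy.2.2.2.2.1 hz.2.2.2.2.1) hw.2.2.2.2.2), hs.2.2.trans (add_le_add (add_le_add hy.2.2.2.2.1 hz.2.2.2.2.2) hw.2.2.2.2.1), hs.2.2.trans (add_le_add (add_le_add hy.2.2.2.2.1 hz.2.2.2.2.2) hw.2.2.2.2.2), hs.2.2.trans (add_le_add (add_le_add hy.2.2.2.2.2 hz.2.2.2.2.1) hw.2.2.2.2.1), hs.2.2.trans (add_le_add (add_le_add hy.2.2.2.2.2 hz.2.2.2.2.1) hw.2.2.2.2.2), hs.2.2.trans (add_le_add (add_le_add hy.2.2.2.2.2 hz.2.2.2.2.2) hw.2.2.2.2.1), hs.2.2.trans (add_le_add (add_le_add hy.2.2.2.2.2 hz.2.2.2.2.2) hw.2.2.2.2.2)⟩ ).elim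
  · exact (P1_AAA_M13_M13_M23 n1 n2 n3 A1 A2 A3 B1 B2 B3 hb hp ⟨hy.1, hw.1⟩ ⟨hs.1.trans (add_le_add (add_le_add hy.2.1 hz.2.1) hw.2.1), hs.1.trans (add_le_add (add_le_add hy.2.1 hz.2.1) hw.2.2.1), hs.2.1.trans (add_le_add (add_le_add hy.2.2.1 hz.2.2.1) hw.2.2.2.1), hs.2.1.trans (add_le_add (add_le_add hy.2.2.1 hz.2.2.2.1) hw.2.2.2.1), hs.2.1.trans (add_le_add (add_le_add hy.2.2.2.1 hz.2.2.1) hw.2.2.2.1), hs.2.1.trans (add_le_add (add_le_add hy.2.2.2.1 hz.2.2.2.1) hw.2.2.2.1), hs.2.2.trans (add_le_add (add_le_add hy.2.2.2.2.1 hz.2.2.2.2.1) hw.2.2.2.2.1), hs.2.2.trans (add_le_add (add_le_add hy.2.2.2.2.1 hz.2.2.2.2.1) hw.2.2.2.2.2), hs.2.2.trans (add_le_add (add_le_add hy.2.2.2.2.1 hz.2.2.2.2.2) hw.2.2.2.2.1), hs.2.2.trans (add_le_add (add_le_add hy.2.2.2.2.1 hz.2.2.2.2.2)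 hw.2.2.2.2.2), hs.2.2.trans (add_le_add (add_le_add hy.2.2.2.2.2 hz.2.2.2.2.1) hw.2.2.2.2.1), hs.2.2.trans (add_le_add (add_le_add hy.2.2.2.2.2 hz.2.2.2.2.1) hw.2.2.2.2.2), hs.2.2.trans (add_le_add (add_le_add hy.2.2.2.2.2 hz.2.2.2.2.2) hw.2.2.2.2.1), hs.2.2.trans (add_le_add (add_le_add hy.2.2.2.2.2 hz.2.2.2.2.2) hw.2.2.2.2.2)⟩ m_AA_M13_M23).elim
  · exact (P1_AAA_S1_M13_M23 n1 n2 n3 A1 A2 A3 B1 B2 B3 hb hp ⟨hy.1, hz.1, hw.1⟩ ⟨hs_wyz.1.trans (add_le_add (add_le_add hw.2.1 hy.2.1) hz.2.1), hs_wyz.1.trans (add_le_add (add_le_add hw.2.1 hy.2.1) hz.2.2.1), hs_wyz.2.1.trans (add_le_add (add_le_add hw.2.2.1 hy.2.2.1) hz.2.2.2.1), hs_wyz.2.1.trans (add_le_add (add_le_add hw.2.2.1 hy.2.2.2.1) hz.2.2.2.1), hs_wyz.2.2.trans (add_le_add (add_le_add hw.2.2.2 hy.2.2.2.2.1) hz.2.2.2.2.1),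 hs_wyz.2.2.trans (add_le_add (add_le_add hw.2.2.2 hy.2.2.2.2.1) hz.2.2.2.2.2), hs_wyz.2.2.trans (add_le_add (add_le_add hw.2.2.2 hy.2.2.2.2.2) hz.2.2.2.2.1), hs_wyz.2.2.trans (add_le_add (add_le_add hw.2.2.2 hy.2.2.2.2.2) hz.2.2.2.2.2)⟩ m_AA_S1_S3 m_AA_S3_M13 m_AA_M13_M23).elim
  · exact (P1_AAA_S2_M13_M23 n1 n2 n3 A1 A2 A3 B1 B2 B3 hb hp ⟨hy.1, hz.1, hw.1⟩ ⟨hs_wyz.1.trans (add_le_add (add_le_add hw.2.1 hy.2.1) hz.2.1), hs_wyz.1.trans (add_le_add (add_le_add hw.2.1 hy.2.1) hz.2.2.1), hs_wyz.1.trans (add_le_add (add_le_add hw.2.2.1 hy.2.1) hz.2.1), hs_wyz.1.trans (add_le_add (add_le_add hw.2.2.1 hy.2.1) hz.2.2.1), hs_wyz.2.1.trans (add_le_add (add_le_add hw.2.2.2.1 hy.2.2.1) hz.2.2.2.1), hs_wyz.2.1.trans (add_le_add (add_le_add hw.2.2.2.1 hy.2.2.2.1) hz.2.2.2.1), hs_wyz.2.2.trans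 (add_le_add (add_le_add hw.2.2.2.2 hy.2.2.2.2.1) hz.2.2.2.2.1), hs_wyz.2.2.trans (add_le_add (add_le_add hw.2.2.2.2 hy.2.2.2.2.1) hz.2.2.2.2.2), hs_wyz.2.2.trans (add_le_add (add_le_add hw.2.2.2.2 hy.2.2.2.2.2) hz.2.2.2.2.1), hs_wyz.2.2.trans (add_le_add (add_le_add hw.2.2.2.2 hy.2.2.2.2.2) hz.2.2.2.2.2)⟩ m_AA_M13_M23).elim
  · exact (P1_AAA_S3_M13_M23 n1 n2 n3 A1 A2 A3 B1 B2 B3 hb hp ⟨hy.1, hz.1, hw.1⟩ ⟨hs_wyz.1.trans (add_le_add (add_le_add hw.2.1 hy.2.1) hz.2.1), hs_wyz.1.trans (add_le_add (add_le_add hw.2.1 hy.2.1) hz.2.2.1), hs_wyz.1.trans (add_le_add (add_le_add hw.2.2.1 hy.2.1) hz.2.1), hs_wyz.1.trans (add_le_add (add_le_add hw.2.2.1 hy.2.1) hz.2.2.1), hs_wyz.2.1.trans (add_le_add (add_le_add hw.2.2.2.1 hy.2.2.1) hz.2.2.2.1), hs_wyz.2.1.trans (add_le_add (add_le_add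 hw.2.2.2.1 hy.2.2.2.1) hz.2.2.2.1), hs_wyz.2.1.trans (add_le_add (add_le_add hw.2.2.2.2.1 hy.2.2.1) hz.2.2.2.1), hs_wyz.2.1.trans (add_le_add (add_le_add hw.2.2.2.2.1 hy.2.2.2.1) hz.2.2.2.1), hs_wyz.2.2.trans (add_le_add (add_le_add hw.2.2.2.2.2 hy.2.2.2.2.1) hz.2.2.2.2.1), hs_wyz.2.2.trans (add_le_add (add_le_add hw.2.2.2.2.2 hy.2.2.2.2.1) hz.2.2.2.2.2), hs_wyz.2.2.trans (add_le_add (add_le_add hw.2.2.2.2.2 hy.2.2.2.2.2) hz.2.2.2.2.1), hs_wyz.2.2.trans (add_le_add (add_le_add hw.2.2.2.2.2 hy.2.2.2.2.2) hz.2.2.2.2.2)⟩ m_AA_S3_M13).elim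
  · exact (P1_AAA_M13_M13_M23 n1 n2 n3 A1 A2 A3 B1 B2 B3 hb hp ⟨hy.1, hz.1⟩ ⟨hs_ywz.1.trans (add_le_add (add_le_add hy.2.1 hw.2.1) hz.2.1), hs_ywz.1.trans (add_le_add (add_le_add hy.2.1 hw.2.1) hz.2.2.1), hs_ywz.2.1.trans (add_le_add (add_le_add hy.2.2.1 hw.2.2.1) hz.2.2.2.1), hs_ywz.2.1.trans (add_le_add (add_le_add hy.2.2.1 hw.2.2.2.1) hz.2.2.2.1), hs_ywz.2.1.trans (add_le_add (add_le_add hy.2.2.2.1 hw.2.2.1) hz.2.2.2.1), hs_ywz.2.1.trans (add_le_add (add_le_add hy.2.2.2.1 hw.2.2.2.1) hz.2.2.2.1), hs_ywz.2.2.trans (add_le_add (add_le_add hy.2.2.2.2.1 hw.2.2.2.2.1) hz.2.2.2.2.1), hs_ywz.2.2.trans (add_le_add (add_le_add hy.2.2.2.2.1 hw.2.2.2.2.1) hz.2.2.2.2.2), hs_ywz.2.2.trans (add_le_add (add_le_add hy.2.2.2.2.1 hw.2.2.2.2.2) hz.2.2.2.2.1), hs_ywz.2.2.trans (add_le_add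 (add_le_add hy.2.2.2.2.1 hw.2.2.2.2.2) hz.2.2.2.2.2), hs_ywz.2.2.trans (add_le_add (add_le_add hy.2.2.2.2.2 hw.2.2.2.2.1) hz.2.2.2.2.1), hs_ywz.2.2.trans (add_le_add (add_le_add hy.2.2.2.2.2 hw.2.2.2.2.1) hz.2.2.2.2.2), hs_ywz.2.2.trans (add_le_add (add_le_add hy.2.2.2.2.2 hw.2.2.2.2.2) hz.2.2.2.2.1), hs_ywz.2.2.trans (add_le_add (add_le_add hy.2.2.2.2.2 hw.2.2.2.2.2) hz.2.2.2.2.2)⟩ m_AA_M13_M23).elim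
  · exact (P1_AAA_M13_M23_M23 n1 n2 n3 A1 A2 A3 B1 B2 B3 hb hp ⟨hy.1, hz.1⟩ ⟨hs.1.trans (add_le_add (add_le_add hy.2.1 hz.2.1) hw.2.1), hs.1.trans (add_le_add (add_le_add hy.2.1 hz.2.1) hw.2.2.1), hs.1.trans (add_le_add (add_le_add hy.2.1 hz.2.2.1) hw.2.1), hs.1.trans (add_le_add (add_le_add hy.2.1 hz.2.2.1) hw.2.2.1), hs.2.1.trans (add_le_add (add_le_add hy.2.2.1 hz.2.2.2.1) hw.2.2.2.1), hs.2.1.trans (add_le_add (add_le_add hy.2.2.2.1 hz.2.2.2.1) hw.2.2.2.1), hs.2.2.trans (add_le_add (add_le_add hy.2.2.2.2.1 hz.2.2.2.2.1) hw.2.2.2.2.1), hs.2.2.trans (add_le_add (add_le_add hy.2.2.2.2.1 hz.2.2.2.2.1) hw.2.2.2.2.2), hs.2.2.trans (add_le_add (add_le_add hy.2.2.2.2.1 hz.2.2.2.2.2) hw.2.2.2.2.1), hs.2.2.trans (add_le_add (add_le_add hy.2.2.2.2.1 hz.2.2.2.2.2) hw.2.2.2.2.2),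 hs.2.2.trans (add_le_add (add_le_add hy.2.2.2.2.2 hz.2.2.2.2.1) hw.2.2.2.2.1), hs.2.2.trans (add_le_add (add_le_add hy.2.2.2.2.2 hz.2.2.2.2.1) hw.2.2.2.2.2), hs.2.2.trans (add_le_add (add_le_add hy.2.2.2.2.2 hz.2.2.2.2.2) hw.2.2.2.2.1), hs.2.2.trans (add_le_add (add_le_add hy.2.2.2.2.2 hz.2.2.2.2.2) hw.2.2.2.2.2)⟩ m_AA_M13_M23).elim
  · exact (P1_AAA_S1_S1_M23 n1 n2 n3 A1 A2 A3 B1 B2 B3 hb hp ⟨hy.1, hz.1⟩ ⟨hs_zwy.1.trans (add_le_add (add_le_add hz.2.1 hw.2.1) hy.2.1), hs_zwy.1.trans (add_le_add (add_le_add hz.2.1 hw.2.1) hy.2.2.1), hs_zwy.2.1.trans (add_le_add (add_le_add hz.2.2.1 hw.2.2.1) hy.2.2.2.1), hs_zwy.2.2.trans (add_le_add (add_le_add hz.2.2.2 hw.2.2.2) hy.2.2.2.2.1), hs_zwy.2.2.trans (add_le_add (add_le_add hz.2.2.2 hw.2.2.2) hy.2.2.2.2.2)⟩ m_AA_S1_S3).elim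
  · exact (P1_AAA_S1_S2_M23 n1 n2 n3 A1 A2 A3 B1 B2 B3 hb hp ⟨hy.1, hz.1, hw.1⟩ ⟨hs_zwy.1.trans (add_le_add (add_le_add hz.2.1 hw.2.1) hy.2.1), hs_zwy.1.trans (add_le_add (add_le_add hz.2.1 hw.2.1) hy.2.2.1), hs_zwy.1.trans (add_le_add (add_le_add hz.2.1 hw.2.2.1) hy.2.1), hs_zwy.1.trans (add_le_add (add_le_add hz.2.1 hw.2.2.1) hy.2.2.1), hs_zwy.2.1.trans (add_le_add (add_le_add hz.2.2.1 hw.2.2.2.1) hy.2.2.2.1), hs_zwy.2.2.trans (add_le_add (add_le_add hz.2.2.2 hw.2.2.2.2) hy.2.2.2.2.1), hs_zwy.2.2.trans (add_le_add (add_le_add hz.2.2.2 hw.2.2.2.2) hy.2.2.2.2.2)⟩ m_AB_S1_S3).elim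
  · exact P1_AAA_S1_S3_M23 n1 n2 n3 A1 A2 A3 B1 B2 B3 hb hp ⟨hy.1, hw.1, hz.1⟩ ⟨hs_zwy.1.trans (add_le_add (add_le_add hz.2.1 hw.2.1) hy.2.1), hs_zwy.1.trans (add_le_add (add_le_add hz.2.1 hw.2.1) hy.2.2.1), hs_zwy.1.trans (add_le_add (add_le_add hz.2.1 hw.2.2.1) hy.2.1), hs_zwy.1.trans (add_le_add (add_le_add hz.2.1 hw.2.2.1) hy.2.2.1), hs_zwy.2.1.trans (add_le_add (add_le_add hz.2.2.1 hw.2.2.2.1) hy.2.2.2.1), hs_zwy.2.1.trans (add_le_add (add_le_add hz.2.2.1 hw.2.2.2.2.1) hy.2.2.2.1), hs_zwy.2.2.trans (add_le_add (add_le_add hz.2.2.2 hw.2.2.2.2.2) hy.2.2.2.2.1), hs_zwy.2.2.trans (add_le_add (add_le_add hz.2.2.2 hw.2.2.2.2.2) hy.2.2.2.2.2)⟩ m_AA_S1_S3 m_AA_S2_S3 m_AA_M13_M23 m_AB_S1_S3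
  · exact (P1_AAA_S1_M13_M23 n1 n2 n3 A1 A2 A3 B1 B2 B3 hb hp ⟨hw.1, hy.1, hz.1⟩ ⟨hs_zwy.1.trans (add_le_add (add_le_add hz.2.1 hw.2.1) hy.2.1), hs_zwy.1.trans (add_le_add (add_le_add hz.2.1 hw.2.1) hy.2.2.1), hs_zwy.2.1.trans (add_le_add (add_le_add hz.2.2.1 hw.2.2.1) hy.2.2.2.1), hs_zwy.2.1.trans (add_le_add (add_le_add hz.2.2.1 hw.2.2.2.1) hy.2.2.2.1), hs_zwy.2.2.trans (add_le_add (add_le_add hz.2.2.2 hw.2.2.2.2.1) hy.2.2.2.2.1), hs_zwy.2.2.trans (add_le_add (add_le_add hz.2.2.2 hw.2.2.2.2.1) hy.2.2.2.2.2), hs_zwy.2.2.trans (add_le_add (add_le_add hz.2.2.2 hw.2.2.2.2.2) hy.2.2.2.2.1), hs_zwy.2.2.trans (add_le_add (add_le_add hz.2.2.2 hw.2.2.2.2.2) hy.2.2.2.2.2)⟩ m_AA_S1_S3 m_AA_S3_M13 m_AA_M13_M23).elim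
  · exact (P1_AAA_S1_M23_M23 n1 n2 n3 A1 A2 A3 B1 B2 B3 hb hp ⟨hy.1, hz.1⟩ ⟨hs_zyw.1.trans (add_le_add (add_le_add hz.2.1 hy.2.1) hw.2.1), hs_zyw.1.trans (add_le_add (add_le_add hz.2.1 hy.2.1) hw.2.2.1), hs_zyw.1.trans (add_le_add (add_le_add hz.2.1 hy.2.2.1) hw.2.1), hs_zyw.1.trans (add_le_add (add_le_add hz.2.1 hy.2.2.1) hw.2.2.1), hs_zyw.2.1.trans (add_le_add (add_le_add hz.2.2.1 hy.2.2.2.1) hw.2.2.2.1), hs_zyw.2.2.trans (add_le_add (add_le_add hz.2.2.2 hy.2.2.2.2.1) hw.2.2.2.2.1), hs_zyw.2.2.trans (add_le_add (add_le_add hz.2.2.2 hy.2.2.2.2.1) hw.2.2.2.2.2), hs_zyw.2.2.trans (add_le_add (add_le_add hz.2.2.2 hy.2.2.2.2.2) hw.2.2.2.2.1), hs_zyw.2.2.trans (add_le_add (add_le_add hz.2.2.2 hy.2.2.2.2.2) hw.2.2.2.2.2)⟩ m_AB_S1_S3).elim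
  · exact (P1_AAA_S1_S2_M23 n1 n2 n3 A1 A2 A3 B1 B2 B3 hb hp ⟨hy.1, hw.1, hz.1⟩ ⟨hs_wzy.1.trans (add_le_add (add_le_add hw.2.1 hz.2.1) hy.2.1), hs_wzy.1.trans (add_le_add (add_le_add hw.2.1 hz.2.1) hy.2.2.1), hs_wzy.1.trans (add_le_add (add_le_add hw.2.1 hz.2.2.1) hy.2.1), hs_wzy.1.trans (add_le_add (add_le_add hw.2.1 hz.2.2.1) hy.2.2.1), hs_wzy.2.1.trans (add_le_add (add_le_add hw.2.2.1 hz.2.2.2.1) hy.2.2.2.1), hs_wzy.2.2.trans (add_le_add (add_le_add hw.2.2.2 hz.2.2.2.2) hy.2.2.2.2.1), hs_wzy.2.2.trans (add_le_add (add_le_add hw.2.2.2 hz.2.2.2.2) hy.2.2.2.2.2)⟩ m_AB_S1_S3).elim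
  · exact (P1_AAA_S2_S2_M23 n1 n2 n3 A1 A2 A3 B1 B2 B3 hb hp ⟨hy.1, hz.1⟩ ⟨hs_zwy.1.trans (add_le_add (add_le_add hz.2.1 hw.2.1) hy.2.1), hs_zwy.1.trans (add_le_add (add_le_add hz.2.1 hw.2.1) hy.2.2.1), hs_zwy.1.trans (add_le_add (add_le_add hz.2.1 hw.2.2.1) hy.2.1), hs_zwy.1.trans (add_le_add (add_le_add hz.2.1 hw.2.2.1) hy.2.2.1), hs_zwy.1.trans (add_le_add (add_le_add hz.2.2.1 hw.2.1) hy.2.1), hs_zwy.1.trans (add_le_add (add_le_add hz.2.2.1 hw.2.1) hy.2.2.1), hs_zwy.1.trans (add_le_add (add_le_add hz.2.2.1 hw.2.2.1) hy.2.1), hs_zwy.1.trans (add_le_add (add_le_add hz.2.2.1 hw.2.2.1) hy.2.2.1), hs_zwy.2.1.trans (add_le_add (add_le_add hz.2.2.2.1 hw.2.2.2.1) hy.2.2.2.1), hs_zwy.2.2.trans (add_le_add (add_le_add hz.2.2.2.2 hw.2.2.2.2) hy.2.2.2.2.1), hs_zwy.2.2.trans (add_le_add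 (add_le_add hz.2.2.2.2 hw.2.2.2.2) hy.2.2.2.2.2)⟩ ).elim
  · exact (P1_AAA_S2_S3_M23 n1 n2 n3 A1 A2 A3 B1 B2 B3 hb hp ⟨hy.1, hw.1, hz.1⟩ ⟨hs_zwy.1.trans (add_le_add (add_le_add hz.2.1 hw.2.1) hy.2.1), hs_zwy.1.trans (add_le_add (add_le_add hz.2.1 hw.2.1) hy.2.2.1), hs_zwy.1.trans (add_le_add (add_le_add hz.2.1 hw.2.2.1) hy.2.1), hs_zwy.1.trans (add_le_add (add_le_add hz.2.1 hw.2.2.1) hy.2.2.1), hs_zwy.1.trans (add_le_add (add_le_add hz.2.2.1 hw.2.1) hy.2.1), hs_zwy.1.trans (add_le_add (add_le_add hz.2.2.1 hw.2.1) hy.2.2.1), hs_zwy.1.trans (add_le_add (add_le_add hz.2.2.1 hw.2.2.1) hy.2.1), hs_zwy.1.trans (add_le_add (add_le_add hz.2.2.1 hw.2.2.1) hy.2.2.1), hs_zwy.2.1.trans (add_le_add (add_le_add hz.2.2.2.1 hw.2.2.2.1) hy.2.2.2.1), hs_zwy.2.1.trans (add_le_add (add_le_add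 hz.2.2.2.1 hw.2.2.2.2.1) hy.2.2.2.1), hs_zwy.2.2.trans (add_le_add (add_le_add hz.2.2.2.2 hw.2.2.2.2.2) hy.2.2.2.2.1), hs_zwy.2.2.trans (add_le_add (add_le_add hz.2.2.2.2 hw.2.2.2.2.2) hy.2.2.2.2.2)⟩ m_AA_S2_S3 m_AA_M13_M23).elim
  · exact (P1_AAA_S2_M13_M23 n1 n2 n3 A1 A2 A3 B1 B2 B3 hb hp ⟨hw.1, hy.1, hz.1⟩ ⟨hs_zwy.1.trans (add_le_add (add_le_add hz.2.1 hw.2.1) hy.2.1), hs_zwy.1.trans (add_le_add (add_le_add hz.2.1 hw.2.1) hy.2.2.1), hs_zwy.1.trans (add_le_add (add_le_add hz.2.2.1 hw.2.1) hy.2.1), hs_zwy.1.trans (add_le_add (add_le_add hz.2.2.1 hw.2.1) hy.2.2.1), hs_zwy.2.1.trans (add_le_add (add_le_add hz.2.2.2.1 hw.2.2.1) hy.2.2.2.1), hs_zwy.2.1.trans (add_le_add (add_le_add hz.2.2.2.1 hw.2.2.2.1) hy.2.2.2.1), hs_zwy.2.2.trans (add_le_add (add_le_add hz.2.2.2.2 hw.2.2.2.2.1)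 hy.2.2.2.2.1), hs_zwy.2.2.trans (add_le_add (add_le_add hz.2.2.2.2 hw.2.2.2.2.1) hy.2.2.2.2.2), hs_zwy.2.2.trans (add_le_add (add_le_add hz.2.2.2.2 hw.2.2.2.2.2) hy.2.2.2.2.1), hs_zwy.2.2.trans (add_le_add (add_le_add hz.2.2.2.2 hw.2.2.2.2.2) hy.2.2.2.2.2)⟩ m_AA_M13_M23).elim
  · exact (P1_AAA_S2_M23_M23 n1 n2 n3 A1 A2 A3 B1 B2 B3 hb hp ⟨hy.1, hz.1⟩ ⟨hs_zyw.1.trans (add_le_add (add_le_add hz.2.1 hy.2.1) hw.2.1), hs_zyw.1.trans (add_le_add (add_le_add hz.2.1 hy.2.1) hw.2.2.1), hs_zyw.1.trans (add_le_add (add_le_add hz.2.1 hy.2.2.1) hw.2.1), hs_zyw.1.trans (add_le_add (add_le_add hz.2.1 hy.2.2.1) hw.2.2.1), hs_zyw.1.trans (add_le_add (add_le_add hz.2.2.1 hy.2.1) hw.2.1), hs_zyw.1.trans (add_le_add (add_le_add hz.2.2.1 hy.2.1) hw.2.2.1), hs_zyw.1.trans (add_le_add (add_le_add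 hz.2.2.1 hy.2.2.1) hw.2.1), hs_zyw.1.trans (add_le_add (add_le_add hz.2.2.1 hy.2.2.1) hw.2.2.1), hs_zyw.2.1.trans (add_le_add (add_le_add hz.2.2.2.1 hy.2.2.2.1) hw.2.2.2.1), hs_zyw.2.2.trans (add_le_add (add_le_add hz.2.2.2.2 hy.2.2.2.2.1) hw.2.2.2.2.1), hs_zyw.2.2.trans (add_le_add (add_le_add hz.2.2.2.2 hy.2.2.2.2.1) hw.2.2.2.2.2), hs_zyw.2.2.trans (add_le_add (add_le_add hz.2.2.2.2 hy.2.2.2.2.2) hw.2.2.2.2.1), hs_zyw.2.2.trans (add_le_add (add_le_add hz.2.2.2.2 hy.2.2.2.2.2) hw.2.2.2.2.2)⟩ ).elim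
  · exact P1_AAA_S1_S3_M23 n1 n2 n3 A1 A2 A3 B1 B2 B3 hb hp ⟨hy.1, hz.1, hw.1⟩ ⟨hs_wzy.1.trans (add_le_add (add_le_add hw.2.1 hz.2.1) hy.2.1), hs_wzy.1.trans (add_le_add (add_le_add hw.2.1 hz.2.1) hy.2.2.1), hs_wzy.1.trans (add_le_add (add_le_add hw.2.1 hz.2.2.1) hy.2.1), hs_wzy.1.trans (add_le_add (add_le_add hw.2.1 hz.2.2.1) hy.2.2.1), hs_wzy.2.1.trans (add_le_add (add_le_add hw.2.2.1 hz.2.2.2.1) hy.2.2.2.1), hs_wzy.2.1.trans (add_le_add (add_le_add hw.2.2.1 hz.2.2.2.2.1) hy.2.2.2.1), hs_wzy.2.2.trans (add_le_add (add_le_add hw.2.2.2 hz.2.2.2.2.2) hy.2.2.2.2.1), hs_wzy.2.2.trans (add_le_add (add_le_add hw.2.2.2 hz.2.2.2.2.2) hy.2.2.2.2.2)⟩ m_AA_S1_S3 m_AA_S2_S3 m_AA_M13_M23 m_AB_S1_S3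
  · exact (P1_AAA_S2_S3_M23 n1 n2 n3 A1 A2 A3 B1 B2 B3 hb hp ⟨hy.1, hz.1, hw.1⟩ ⟨hs_wzy.1.trans (add_le_add (add_le_add hw.2.1 hz.2.1) hy.2.1), hs_wzy.1.trans (add_le_add (add_le_add hw.2.1 hz.2.1) hy.2.2.1), hs_wzy.1.trans (add_le_add (add_le_add hw.2.1 hz.2.2.1) hy.2.1), hs_wzy.1.trans (add_le_add (add_le_add hw.2.1 hz.2.2.1) hy.2.2.1), hs_wzy.1.trans (add_le_add (add_le_add hw.2.2.1 hz.2.1) hy.2.1), hs_wzy.1.trans (add_le_add (add_le_add hw.2.2.1 hz.2.1) hy.2.2.1), hs_wzy.1.trans (add_le_add (add_le_add hw.2.2.1 hz.2.2.1) hy.2.1), hs_wzy.1.trans (add_le_add (add_le_add hw.2.2.1 hz.2.2.1) hy.2.2.1), hs_wzy.2.1.trans (add_le_add (add_le_add hw.2.2.2.1 hz.2.2.2.1) hy.2.2.2.1), hs_wzy.2.1.trans (add_le_add (add_le_add hw.2.2.2.1 hz.2.2.2.2.1) hy.2.2.2.1), hs_wzy.2.2.trans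 (add_le_add (add_le_add hw.2.2.2.2 hz.2.2.2.2.2) hy.2.2.2.2.1), hs_wzy.2.2.trans (add_le_add (add_le_add hw.2.2.2.2 hz.2.2.2.2.2) hy.2.2.2.2.2)⟩ m_AA_S2_S3 m_AA_M13_M23).elim
  · exact (P1_AAA_S3_S3_M23 n1 n2 n3 A1 A2 A3 B1 B2 B3 hb hp ⟨hy.1, hz.1⟩ ⟨hs_zwy.1.trans (add_le_add (add_le_add hz.2.1 hw.2.1) hy.2.1), hs_zwy.1.trans (add_le_add (add_le_add hz.2.1 hw.2.1) hy.2.2.1), hs_zwy.1.trans (add_le_add (add_le_add hz.2.1 hw.2.2.1) hy.2.1), hs_zwy.1.trans (add_le_add (add_le_add hz.2.1 hw.2.2.1) hy.2.2.1), hs_zwy.1.trans (add_le_add (add_le_add hz.2.2.1 hw.2.1) hy.2.1), hs_zwy.1.trans (add_le_add (add_le_add hz.2.2.1 hw.2.1) hy.2.2.1), hs_zwy.1.trans (add_le_add (add_le_add hz.2.2.1 hw.2.2.1) hy.2.1), hs_zwy.1.trans (add_le_add (add_le_add hz.2.2.1 hw.2.2.1) hy.2.2.1), hs_zwy.2.1.trans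 (add_le_add (add_le_add hz.2.2.2.1 hw.2.2.2.1) hy.2.2.2.1), hs_zwy.2.1.trans (add_le_add (add_le_add hz.2.2.2.1 hw.2.2.2.2.1) hy.2.2.2.1), hs_zwy.2.1.trans (add_le_add (add_le_add hz.2.2.2.2.1 hw.2.2.2.1) hy.2.2.2.1), hs_zwy.2.1.trans (add_le_add (add_le_add hz.2.2.2.2.1 hw.2.2.2.2.1) hy.2.2.2.1), hs_zwy.2.2.trans (add_le_add (add_le_add hz.2.2.2.2.2 hw.2.2.2.2.2) hy.2.2.2.2.1), hs_zwy.2.2.trans (add_le_add (add_le_add hz.2.2.2.2.2 hw.2.2.2.2.2) hy.2.2.2.2.2)⟩ m_AA_S3_M23).elim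
  · exact (P1_AAA_S3_M13_M23 n1 n2 n3 A1 A2 A3 B1 B2 B3 hb hp ⟨hw.1, hy.1, hz.1⟩ ⟨hs_zwy.1.trans (add_le_add (add_le_add hz.2.1 hw.2.1) hy.2.1), hs_zwy.1.trans (add_le_add (add_le_add hz.2.1 hw.2.1) hy.2.2.1), hs_zwy.1.trans (add_le_add (add_le_add hz.2.2.1 hw.2.1) hy.2.1), hs_zwy.1.trans (add_le_add (add_le_add hz.2.2.1 hw.2.1) hy.2.2.1), hs_zwy.2.1.trans (add_le_add (add_le_add hz.2.2.2.1 hw.2.2.1) hy.2.2.2.1), hs_zwy.2.1.trans (add_le_add (add_le_add hz.2.2.2.1 hw.2.2.2.1) hy.2.2.2.1), hs_zwy.2.1.trans (add_le_add (add_le_add hz.2.2.2.2.1 hw.2.2.1) hy.2.2.2.1), hs_zwy.2.1.trans (add_le_add (add_le_add hz.2.2.2.2.1 hw.2.2.2.1) hy.2.2.2.1), hs_zwy.2.2.trans (add_le_add (add_le_add hz.2.2.2.2.2 hw.2.2.2.2.1) hy.2.2.2.2.1), hs_zwy.2.2.trans (add_le_add (add_le_add hz.2.2.2.2.2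 hw.2.2.2.2.1) hy.2.2.2.2.2), hs_zwy.2.2.trans (add_le_add (add_le_add hz.2.2.2.2.2 hw.2.2.2.2.2) hy.2.2.2.2.1), hs_zwy.2.2.trans (add_le_add (add_le_add hz.2.2.2.2.2 hw.2.2.2.2.2) hy.2.2.2.2.2)⟩ m_AA_S3_M13).elim
  · exact (P1_AAA_S3_M23_M23 n1 n2 n3 A1 A2 A3 B1 B2 B3 hb hp ⟨hy.1, hz.1⟩ ⟨hs_zyw.1.trans (add_le_add (add_le_add hz.2.1 hy.2.1) hw.2.1), hs_zyw.1.trans (add_le_add (add_le_add hz.2.1 hy.2.1) hw.2.2.1), hs_zyw.1.trans (add_le_add (add_le_add hz.2.1 hy.2.2.1) hw.2.1), hs_zyw.1.trans (add_le_add (add_le_add hz.2.1 hy.2.2.1) hw.2.2.1), hs_zyw.1.trans (add_le_add (add_le_add hz.2.2.1 hy.2.1) hw.2.1), hs_zyw.1.trans (add_le_add (add_le_add hz.2.2.1 hy.2.1) hw.2.2.1), hs_zyw.1.trans (add_le_add (add_le_add hz.2.2.1 hy.2.2.1) hw.2.1), hs_zyw.1.trans (add_le_add (add_le_add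 hz.2.2.1 hy.2.2.1) hw.2.2.1), hs_zyw.2.1.trans (add_le_add (add_le_add hz.2.2.2.1 hy.2.2.2.1) hw.2.2.2.1), hs_zyw.2.1.trans (add_le_add (add_le_add hz.2.2.2.2.1 hy.2.2.2.1) hw.2.2.2.1), hs_zyw.2.2.trans (add_le_add (add_le_add hz.2.2.2.2.2 hy.2.2.2.2.1) hw.2.2.2.2.1), hs_zyw.2.2.trans (add_le_add (add_le_add hz.2.2.2.2.2 hy.2.2.2.2.1) hw.2.2.2.2.2), hs_zyw.2.2.trans (add_le_add (add_le_add hz.2.2.2.2.2 hy.2.2.2.2.2) hw.2.2.2.2.1), hs_zyw.2.2.trans (add_le_add (add_le_add hz.2.2.2.2.2 hy.2.2.2.2.2) hw.2.2.2.2.2)⟩ m_AA_S3_M23).elim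
  · exact (P1_AAA_S1_M13_M23 n1 n2 n3 A1 A2 A3 B1 B2 B3 hb hp ⟨hz.1, hy.1, hw.1⟩ ⟨hs_wzy.1.trans (add_le_add (add_le_add hw.2.1 hz.2.1) hy.2.1), hs_wzy.1.trans (add_le_add (add_le_add hw.2.1 hz.2.1) hy.2.2.1), hs_wzy.2.1.trans (add_le_add (add_le_add hw.2.2.1 hz.2.2.1) hy.2.2.2.1), hs_wzy.2.1.trans (add_le_add (add_le_add hw.2.2.1 hz.2.2.2.1) hy.2.2.2.1), hs_wzy.2.2.trans (add_le_add (add_le_add hw.2.2.2 hz.2.2.2.2.1) hy.2.2.2.2.1), hs_wzy.2.2.trans (add_le_add (add_le_add hw.2.2.2 hz.2.2.2.2.1) hy.2.2.2.2.2), hs_wzy.2.2.trans (add_le_add (add_le_add hw.2.2.2 hz.2.2.2.2.2) hy.2.2.2.2.1), hs_wzy.2.2.trans (add_le_add (add_le_add hw.2.2.2 hz.2.2.2.2.2) hy.2.2.2.2.2)⟩ m_AA_S1_S3 m_AA_S3_M13 m_AA_M13_M23).elim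
  · exact (P1_AAA_S2_M13_M23 n1 n2 n3 A1 A2 A3 B1 B2 B3 hb hp ⟨hz.1, hy.1, hw.1⟩ ⟨hs_wzy.1.trans (add_le_add (add_le_add hw.2.1 hz.2.1) hy.2.1), hs_wzy.1.trans (add_le_add (add_le_add hw.2.1 hz.2.1) hy.2.2.1), hs_wzy.1.trans (add_le_add (add_le_add hw.2.2.1 hz.2.1) hy.2.1), hs_wzy.1.trans (add_le_add (add_le_add hw.2.2.1 hz.2.1) hy.2.2.1), hs_wzy.2.1.trans (add_le_add (add_le_add hw.2.2.2.1 hz.2.2.1) hy.2.2.2.1), hs_wzy.2.1.trans (add_le_add (add_le_add hw.2.2.2.1 hz.2.2.2.1) hy.2.2.2.1), hs_wzy.2.2.trans (add_le_add (add_le_add hw.2.2.2.2 hz.2.2.2.2.1) hy.2.2.2.2.1), hs_wzy.2.2.trans (add_le_add (add_le_add hw.2.2.2.2 hz.2.2.2.2.1) hy.2.2.2.2.2), hs_wzy.2.2.trans (add_le_add (add_le_add hw.2.2.2.2 hz.2.2.2.2.2) hy.2.2.2.2.1), hs_wzy.2.2.trans (add_le_add (add_le_add hw.2.2.2.2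 hz.2.2.2.2.2) hy.2.2.2.2.2)⟩ m_AA_M13_M23).elim
  · exact (P1_AAA_S3_M13_M23 n1 n2 n3 A1 A2 A3 B1 B2 B3 hb hp ⟨hz.1, hy.1, hw.1⟩ ⟨hs_wzy.1.trans (add_le_add (add_le_add hw.2.1 hz.2.1) hy.2.1), hs_wzy.1.trans (add_le_add (add_le_add hw.2.1 hz.2.1) hy.2.2.1), hs_wzy.1.trans (add_le_add (add_le_add hw.2.2.1 hz.2.1) hy.2.1), hs_wzy.1.trans (add_le_add (add_le_add hw.2.2.1 hz.2.1) hy.2.2.1), hs_wzy.2.1.trans (add_le_add (add_le_add hw.2.2.2.1 hz.2.2.1) hy.2.2.2.1), hs_wzy.2.1.trans (add_le_add (add_le_add hw.2.2.2.1 hz.2.2.2.1) hy.2.2.2.1), hs_wzy.2.1.trans (add_le_add (add_le_add hw.2.2.2.2.1 hz.2.2.1) hy.2.2.2.1), hs_wzy.2.1.trans (add_le_add (add_le_add hw.2.2.2.2.1 hz.2.2.2.1) hy.2.2.2.1), hs_wzy.2.2.trans (add_le_add (add_le_add hw.2.2.2.2.2 hz.2.2.2.2.1) hy.2.2.2.2.1),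 hs_wzy.2.2.trans (add_le_add (add_le_add hw.2.2.2.2.2 hz.2.2.2.2.1) hy.2.2.2.2.2), hs_wzy.2.2.trans (add_le_add (add_le_add hw.2.2.2.2.2 hz.2.2.2.2.2) hy.2.2.2.2.1), hs_wzy.2.2.trans (add_le_add (add_le_add hw.2.2.2.2.2 hz.2.2.2.2.2) hy.2.2.2.2.2)⟩ m_AA_S3_M13).elim
  · exact (P1_AAA_M13_M13_M23 n1 n2 n3 A1 A2 A3 B1 B2 B3 hb hp ⟨hz.1, hy.1⟩ ⟨hs_zwy.1.trans (add_le_add (add_le_add hz.2.1 hw.2.1) hy.2.1), hs_zwy.1.trans (add_le_add (add_le_add hz.2.1 hw.2.1) hy.2.2.1), hs_zwy.2.1.trans (add_le_add (add_le_add hz.2.2.1 hw.2.2.1) hy.2.2.2.1), hs_zwy.2.1.trans (add_le_add (add_le_add hz.2.2.1 hw.2.2.2.1) hy.2.2.2.1), hs_zwy.2.1.trans (add_le_add (add_le_add hz.2.2.2.1 hw.2.2.1) hy.2.2.2.1), hs_zwy.2.1.trans (add_le_add (add_le_add hz.2.2.2.1 hw.2.2.2.1) hy.2.2.2.1), hs_zwy.2.2.trans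 (add_le_add (add_le_add hz.2.2.2.2.1 hw.2.2.2.2.1) hy.2.2.2.2.1), hs_zwy.2.2.trans (add_le_add (add_le_add hz.2.2.2.2.1 hw.2.2.2.2.1) hy.2.2.2.2.2), hs_zwy.2.2.trans (add_le_add (add_le_add hz.2.2.2.2.1 hw.2.2.2.2.2) hy.2.2.2.2.1), hs_zwy.2.2.trans (add_le_add (add_le_add hz.2.2.2.2.1 hw.2.2.2.2.2) hy.2.2.2.2.2), hs_zwy.2.2.trans (add_le_add (add_le_add hz.2.2.2.2.2 hw.2.2.2.2.1) hy.2.2.2.2.1), hs_zwy.2.2.trans (add_le_add (add_le_add hz.2.2.2.2.2 hw.2.2.2.2.1) hy.2.2.2.2.2), hs_zwy.2.2.trans (add_le_add (add_le_add hz.2.2.2.2.2 hw.2.2.2.2.2) hy.2.2.2.2.1), hs_zwy.2.2.trans (add_le_add (add_le_add hz.2.2.2.2.2 hw.2.2.2.2.2) hy.2.2.2.2.2)⟩ m_AA_M13_M23).elim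
  · exact (P1_AAA_M13_M23_M23 n1 n2 n3 A1 A2 A3 B1 B2 B3 hb hp ⟨hz.1, hy.1⟩ ⟨hs_zyw.1.trans (add_le_add (add_le_add hz.2.1 hy.2.1) hw.2.1), hs_zyw.1.trans (add_le_add (add_le_add hz.2.1 hy.2.1) hw.2.2.1), hs_zyw.1.trans (add_le_add (add_le_add hz.2.1 hy.2.2.1) hw.2.1), hs_zyw.1.trans (add_le_add (add_le_add hz.2.1 hy.2.2.1) hw.2.2.1), hs_zyw.2.1.trans (add_le_add (add_le_add hz.2.2.1 hy.2.2.2.1) hw.2.2.2.1), hs_zyw.2.1.trans (add_le_add (add_le_add hz.2.2.2.1 hy.2.2.2.1) hw.2.2.2.1), hs_zyw.2.2.trans (add_le_add (add_le_add hz.2.2.2.2.1 hy.2.2.2.2.1) hw.2.2.2.2.1), hs_zyw.2.2.trans (add_le_add (add_le_add hz.2.2.2.2.1 hy.2.2.2.2.1) hw.2.2.2.2.2), hs_zyw.2.2.trans (add_le_add (add_le_add hz.2.2.2.2.1 hy.2.2.2.2.2) hw.2.2.2.2.1), hs_zyw.2.2.trans (add_le_add (add_le_add hz.2.2.2.2.1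 hy.2.2.2.2.2) hw.2.2.2.2.2), hs_zyw.2.2.trans (add_le_add (add_le_add hz.2.2.2.2.2 hy.2.2.2.2.1) hw.2.2.2.2.1), hs_zyw.2.2.trans (add_le_add (add_le_add hz.2.2.2.2.2 hy.2.2.2.2.1) hw.2.2.2.2.2), hs_zyw.2.2.trans (add_le_add (add_le_add hz.2.2.2.2.2 hy.2.2.2.2.2) hw.2.2.2.2.1), hs_zyw.2.2.trans (add_le_add (add_le_add hz.2.2.2.2.2 hy.2.2.2.2.2) hw.2.2.2.2.2)⟩ m_AA_M13_M23).elim
  · exact (P1_AAA_S1_M23_M23 n1 n2 n3 A1 A2 A3 B1 B2 B3 hb hp ⟨hy.1, hw.1⟩ ⟨hs_wyz.1.trans (add_le_add (add_le_add hw.2.1 hy.2.1) hz.2.1), hs_wyz.1.trans (add_le_add (add_le_add hw.2.1 hy.2.1) hz.2.2.1), hs_wyz.1.trans (add_le_add (add_le_add hw.2.1 hy.2.2.1) hz.2.1), hs_wyz.1.trans (add_le_add (add_le_add hw.2.1 hy.2.2.1) hz.2.2.1), hs_wyz.2.1.trans (add_le_add (add_le_add hw.2.2.1 hy.2.2.2.1) hz.2.2.2.1),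 hs_wyz.2.2.trans (add_le_add (add_le_add hw.2.2.2 hy.2.2.2.2.1) hz.2.2.2.2.1), hs_wyz.2.2.trans (add_le_add (add_le_add hw.2.2.2 hy.2.2.2.2.1) hz.2.2.2.2.2), hs_wyz.2.2.trans (add_le_add (add_le_add hw.2.2.2 hy.2.2.2.2.2) hz.2.2.2.2.1), hs_wyz.2.2.trans (add_le_add (add_le_add hw.2.2.2 hy.2.2.2.2.2) hz.2.2.2.2.2)⟩ m_AB_S1_S3).elim
  · exact (P1_AAA_S2_M23_M23 n1 n2 n3 A1 A2 A3 B1 B2 B3 hb hp ⟨hy.1, hw.1⟩ ⟨hs_wyz.1.trans (add_le_add (add_le_add hw.2.1 hy.2.1) hz.2.1), hs_wyz.1.trans (add_le_add (add_le_add hw.2.1 hy.2.1) hz.2.2.1), hs_wyz.1.trans (add_le_add (add_le_add hw.2.1 hy.2.2.1) hz.2.1), hs_wyz.1.trans (add_le_add (add_le_add hw.2.1 hy.2.2.1) hz.2.2.1), hs_wyz.1.trans (add_le_add (add_le_add hw.2.2.1 hy.2.1) hz.2.1), hs_wyz.1.trans (add_le_add (add_le_add hw.2.2.1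 hy.2.1) hz.2.2.1), hs_wyz.1.trans (add_le_add (add_le_add hw.2.2.1 hy.2.2.1) hz.2.1), hs_wyz.1.trans (add_le_add (add_le_add hw.2.2.1 hy.2.2.1) hz.2.2.1), hs_wyz.2.1.trans (add_le_add (add_le_add hw.2.2.2.1 hy.2.2.2.1) hz.2.2.2.1), hs_wyz.2.2.trans (add_le_add (add_le_add hw.2.2.2.2 hy.2.2.2.2.1) hz.2.2.2.2.1), hs_wyz.2.2.trans (add_le_add (add_le_add hw.2.2.2.2 hy.2.2.2.2.1) hz.2.2.2.2.2), hs_wyz.2.2.trans (add_le_add (add_le_add hw.2.2.2.2 hy.2.2.2.2.2) hz.2.2.2.2.1), hs_wyz.2.2.trans (add_le_add (add_le_add hw.2.2.2.2 hy.2.2.2.2.2) hz.2.2.2.2.2)⟩ ).elim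
  · exact (P1_AAA_S3_M23_M23 n1 n2 n3 A1 A2 A3 B1 B2 B3 hb hp ⟨hy.1, hw.1⟩ ⟨hs_wyz.1.trans (add_le_add (add_le_add hw.2.1 hy.2.1) hz.2.1), hs_wyz.1.trans (add_le_add (add_le_add hw.2.1 hy.2.1) hz.2.2.1), hs_wyz.1.trans (add_le_add (add_le_add hw.2.1 hy.2.2.1) hz.2.1), hs_wyz.1.trans (add_le_add (add_le_add hw.2.1 hy.2.2.1) hz.2.2.1), hs_wyz.1.trans (add_le_add (add_le_add hw.2.2.1 hy.2.1) hz.2.1), hs_wyz.1.trans (add_le_add (add_le_add hw.2.2.1 hy.2.1) hz.2.2.1), hs_wyz.1.trans (add_le_add (add_le_add hw.2.2.1 hy.2.2.1) hz.2.1), hs_wyz.1.trans (add_le_add (add_le_add hw.2.2.1 hy.2.2.1) hz.2.2.1), hs_wyz.2.1.trans (add_le_add (add_le_add hw.2.2.2.1 hy.2.2.2.1) hz.2.2.2.1), hs_wyz.2.1.trans (add_le_add (add_le_add hw.2.2.2.2.1 hy.2.2.2.1) hz.2.2.2.1), hs_wyz.2.2.trans (add_le_add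 (add_le_add hw.2.2.2.2.2 hy.2.2.2.2.1) hz.2.2.2.2.1), hs_wyz.2.2.trans (add_le_add (add_le_add hw.2.2.2.2.2 hy.2.2.2.2.1) hz.2.2.2.2.2), hs_wyz.2.2.trans (add_le_add (add_le_add hw.2.2.2.2.2 hy.2.2.2.2.2) hz.2.2.2.2.1), hs_wyz.2.2.trans (add_le_add (add_le_add hw.2.2.2.2.2 hy.2.2.2.2.2) hz.2.2.2.2.2)⟩ m_AA_S3_M23).elim
  · exact (P1_AAA_M13_M23_M23 n1 n2 n3 A1 A2 A3 B1 B2 B3 hb hp ⟨hw.1, hy.1⟩ ⟨hs_wyz.1.trans (add_le_add (add_le_add hw.2.1 hy.2.1) hz.2.1), hs_wyz.1.trans (add_le_add (add_le_add hw.2.1 hy.2.1) hz.2.2.1), hs_wyz.1.trans (add_le_add (add_le_add hw.2.1 hy.2.2.1) hz.2.1), hs_wyz.1.trans (add_le_add (add_le_add hw.2.1 hy.2.2.1) hz.2.2.1), hs_wyz.2.1.trans (add_le_add (add_le_add hw.2.2.1 hy.2.2.2.1) hz.2.2.2.1), hs_wyz.2.1.trans (add_le_add (add_le_add hw.2.2.2.1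 hy.2.2.2.1) hz.2.2.2.1), hs_wyz.2.2.trans (add_le_add (add_le_add hw.2.2.2.2.1 hy.2.2.2.2.1) hz.2.2.2.2.1), hs_wyz.2.2.trans (add_le_add (add_le_add hw.2.2.2.2.1 hy.2.2.2.2.1) hz.2.2.2.2.2), hs_wyz.2.2.trans (add_le_add (add_le_add hw.2.2.2.2.1 hy.2.2.2.2.2) hz.2.2.2.2.1), hs_wyz.2.2.trans (add_le_add (add_le_add hw.2.2.2.2.1 hy.2.2.2.2.2) hz.2.2.2.2.2), hs_wyz.2.2.trans (add_le_add (add_le_add hw.2.2.2.2.2 hy.2.2.2.2.1) hz.2.2.2.2.1), hs_wyz.2.2.trans (add_le_add (add_le_add hw.2.2.2.2.2 hy.2.2.2.2.1) hz.2.2.2.2.2), hs_wyz.2.2.trans (add_le_add (add_le_add hw.2.2.2.2.2 hy.2.2.2.2.2) hz.2.2.2.2.1), hs_wyz.2.2.trans (add_le_add (add_le_add hw.2.2.2.2.2 hy.2.2.2.2.2) hz.2.2.2.2.2)⟩ m_AA_M13_M23).elim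
  · exact (P1_AAA_M23_M23_M23 n1 n2 n3 A1 A2 A3 B1 B2 B3 hb hp hy.1 ⟨hs.1.trans (add_le_add (add_le_add hy.2.1 hz.2.1) hw.2.1), hs.1.trans (add_le_add (add_le_add hy.2.1 hz.2.1) hw.2.2.1), hs.1.trans (add_le_add (add_le_add hy.2.1 hz.2.2.1) hw.2.1), hs.1.trans (add_le_add (add_le_add hy.2.1 hz.2.2.1) hw.2.2.1), hs.1.trans (add_le_add (add_le_add hy.2.2.1 hz.2.1) hw.2.1), hs.1.trans (add_le_add (add_le_add hy.2.2.1 hz.2.1) hw.2.2.1), hs.1.trans (add_le_add (add_le_add hy.2.2.1 hz.2.2.1) hw.2.1), hs.1.trans (add_le_add (add_le_add hy.2.2.1 hz.2.2.1) hw.2.2.1), hs.2.1.trans (add_le_add (add_le_add hy.2.2.2.1 hz.2.2.2.1) hw.2.2.2.1), hs.2.2.trans (add_le_add (add_le_add hy.2.2.2.2.1 hz.2.2.2.2.1) hw.2.2.2.2.1), hs.2.2.trans (add_le_add (add_le_add hy.2.2.2.2.1 hz.2.2.2.2.1)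 hw.2.2.2.2.2), hs.2.2.trans (add_le_add (add_le_add hy.2.2.2.2.1 hz.2.2.2.2.2) hw.2.2.2.2.1), hs.2.2.trans (add_le_add (add_le_add hy.2.2.2.2.1 hz.2.2.2.2.2) hw.2.2.2.2.2), hs.2.2.trans (add_le_add (add_le_add hy.2.2.2.2.2 hz.2.2.2.2.1) hw.2.2.2.2.1), hs.2.2.trans (add_le_add (add_le_add hy.2.2.2.2.2 hz.2.2.2.2.1) hw.2.2.2.2.2), hs.2.2.trans (add_le_add (add_le_add hy.2.2.2.2.2 hz.2.2.2.2.2) hw.2.2.2.2.1), hs.2.2.trans (add_le_add (add_le_add hy.2.2.2.2.2 hz.2.2.2.2.2) hw.2.2.2.2.2)⟩ ).elim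

theorem coreP1AAB (n1 n2 n3 A1 A2 A3 B1 B2 B3 y1 y2 y3 z1 z2 z3 w1 w2 w3 : ℤ) (hb : Base n1 n2 n3 A1 A2 A3 B1 B2 B3) (hp : B1 ≤ A1 ∧ B2 ≤ A2 ∧ A3 < B3 ∧ (B1 < A1 ∨ B2 < A2))
    (hNT : NoTwo n1 n2 n3 A1 A2 A3 B1 B2 B3)
    (hy : KindP1 n1 n2 n3 A1 A2 A3 B1 B2 B3 y1 y2 y3) (hz : KindP1 n1 n2 n3 A1 A2 A3 B1 B2 B3 z1 z2 z3) (hw : KindP1 n1 n2 n3 A1 A2 A3 B1 B2 B3 w1 w2 w3)
    (hs : A1 + A1 + B1 ≤ y1 + z1 + w1 ∧ A2 + A2 + B2 ≤ y2 + z2 + w2 ∧ A3 + A3 + B3 ≤ y3 + z3 + w3) :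
    Fam n1 n2 n3 A1 A2 A3 B1 B2 B3 := by
  have m_AB_M13_M13 := NP1_AB_M13_M13 n1 n2 n3 A1 A2 A3 B1 B2 B3 hb hp hNT
  have m_AB_M13_M23 := NP1_AB_M13_M23 n1 n2 n3 A1 A2 A3 B1 B2 B3 hb hp hNT
  have m_AB_M23_M23 := NP1_AB_M23_M23 n1 n2 n3 A1 A2 A3 B1 B2 B3 hb hp hNT
  have m_AA_M13_M23 := NP1_AA_M13_M23 n1 n2 n3 A1 A2 A3 B1 B2 B3 hb hp hNT
  have m_AB_S1_S3 := NP1_AB_S1_S3 n1 n2 n3 A1 A2 A3 B1 B2 B3 hb hp hNT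
  have m_AA_S1_S3 := NP1_AA_S1_S3 n1 n2 n3 A1 A2 A3 B1 B2 B3 hb hp hNT
  have m_AA_S2_M13 := NP1_AA_S2_M13 n1 n2 n3 A1 A2 A3 B1 B2 B3 hb hp hNT
  have m_AB_S1_S2 := NP1_AB_S1_S2 n1 n2 n3 A1 A2 A3 B1 B2 B3 hb hp hNT
  have m_AA_S2_S3 := NP1_AA_S2_S3 n1 n2 n3 A1 A2 A3 B1 B2 B3 hb hp hNT
  have m_AA_S3_M13 := NP1_AA_S3_M13 n1 n2 n3 A1 A2 A3 B1 B2 B3 hb hp hNT
  have m_AB_S2_M13 := NP1_AB_S2_M13 n1 n2 n3 A1 A2 A3 B1 B2 B3 hb hp hNT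
  have m_BB_S2_M13 := NP1_BB_S2_M13 n1 n2 n3 A1 A2 A3 B1 B2 B3 hb hp hNT
  have m_AA_S3_M23 := NP1_AA_S3_M23 n1 n2 n3 A1 A2 A3 B1 B2 B3 hb hp hNT
  have m_AB_S2_S3 := NP1_AB_S2_S3 n1 n2 n3 A1 A2 A3 B1 B2 B3 hb hp hNT
  have hs_ywz : A1 + A1 + B1 ≤ y1 + w1 + z1 ∧ A2 + A2 + B2 ≤ y2 + w2 + z2 ∧ A3 + A3 + B3 ≤ y3 + w3 + z3 := by
    clear m_AB_M13_M13 m_AB_M13_M23 m_AB_M23_M23 m_AA_M13_M23 m_AB_S1_S3 m_AA_S1_S3 m_AA_S2_M13 m_AB_S1_S2 m_AA_S2_S3 m_AA_S3_M13 m_AB_S2_M13 m_BB_S2_M13 m_AA_S3_M23 m_AB_S2_S3 hy hz hw hNT hb hp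
    omega
  have hs_zyw : A1 + A1 + B1 ≤ z1 + y1 + w1 ∧ A2 + A2 + B2 ≤ z2 + y2 + w2 ∧ A3 + A3 + B3 ≤ z3 + y3 + w3 := by
    clear m_AB_M13_M13 m_AB_M13_M23 m_AB_M23_M23 m_AA_M13_M23 m_AB_S1_S3 m_AA_S1_S3 m_AA_S2_M13 m_AB_S1_S2 m_AA_S2_S3 m_AA_S3_M13 m_AB_S2_M13 m_BB_S2_M13 m_AA_S3_M23 m_AB_S2_S3 hy hz hw hNT hb hp
    omega
  have hs_zwy : A1 + A1 + B1 ≤ z1 + w1 + y1 ∧ A2 + A2 + B2 ≤ z2 + w2 + y2 ∧ A3 + A3 + B3 ≤ z3 + w3 + y3 := by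
    clear m_AB_M13_M13 m_AB_M13_M23 m_AB_M23_M23 m_AA_M13_M23 m_AB_S1_S3 m_AA_S1_S3 m_AA_S2_M13 m_AB_S1_S2 m_AA_S2_S3 m_AA_S3_M13 m_AB_S2_M13 m_BB_S2_M13 m_AA_S3_M23 m_AB_S2_S3 hy hz hw hNT hb hp
    omega
  have hs_wyz : A1 + A1 + B1 ≤ w1 + y1 + z1 ∧ A2 + A2 + B2 ≤ w2 + y2 + z2 ∧ A3 + A3 + B3 ≤ w3 + y3 + z3 := by
    clear m_AB_M13_M13 m_AB_M13_M23 m_AB_M23_M23 m_AA_M13_M23 m_AB_S1_S3 m_AA_S1_S3 m_AA_S2_M13 m_AB_S1_S2 m_AA_S2_S3 m_AA_S3_M13 m_AB_S2_M13 m_BB_S2_M13 m_AA_S3_M23 m_AB_S2_S3 hy hz hw hNT hb hp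
    omega
  have hs_wzy : A1 + A1 + B1 ≤ w1 + z1 + y1 ∧ A2 + A2 + B2 ≤ w2 + z2 + y2 ∧ A3 + A3 + B3 ≤ w3 + z3 + y3 := by
    clear m_AB_M13_M13 m_AB_M13_M23 m_AB_M23_M23 m_AA_M13_M23 m_AB_S1_S3 m_AA_S1_S3 m_AA_S2_M13 m_AB_S1_S2 m_AA_S2_S3 m_AA_S3_M13 m_AB_S2_M13 m_BB_S2_M13 m_AA_S3_M23 m_AB_S2_S3 hy hz hw hNT hb hp
    omega
  rcases hy with hy | hy | hy | hy | hy <;> rcases hz with hz | hz | hz | hz | hz <;>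
    rcases hw with hw | hw | hw | hw | hw
  · exact (P1_AAB_S1_S1_S1 n1 n2 n3 A1 A2 A3 B1 B2 B3 hb hp hy.1 ⟨hs.1.trans (add_le_add (add_le_add hy.2.1 hz.2.1) hw.2.1), hs.2.1.trans (add_le_add (add_le_add hy.2.2.1 hz.2.2.1) hw.2.2.1), hs.2.2.trans (add_le_add (add_le_add hy.2.2.2 hz.2.2.2) hw.2.2.2)⟩ ).elim
  · exact (P1_AAB_S1_S1_S2 n1 n2 n3 A1 A2 A3 B1 B2 B3 hb hp ⟨hy.1, hw.1⟩ ⟨hs.1.trans (add_le_add (add_le_add hy.2.1 hz.2.1) hw.2.1), hs.1.trans (add_le_add (add_le_add hy.2.1 hz.2.1) hw.2.2.1), hs.2.1.trans (add_le_add (add_le_add hy.2.2.1 hz.2.2.1) hw.2.2.2.1), hs.2.2.trans (add_le_add (add_le_add hy.2.2.2 hz.2.2.2) hw.2.2.2.2)⟩ m_AA_S1_S3).elim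
  · exact (P1_AAB_S1_S1_S3 n1 n2 n3 A1 A2 A3 B1 B2 B3 hb hp ⟨hw.1, hy.1⟩ ⟨hs.1.trans (add_le_add (add_le_add hy.2.1 hz.2.1) hw.2.1), hs.1.trans (add_le_add (add_le_add hy.2.1 hz.2.1) hw.2.2.1), hs.2.1.trans (add_le_add (add_le_add hy.2.2.1 hz.2.2.1) hw.2.2.2.1), hs.2.1.trans (add_le_add (add_le_add hy.2.2.1 hz.2.2.1) hw.2.2.2.2.1), hs.2.2.trans (add_le_add (add_le_add hy.2.2.2 hz.2.2.2) hw.2.2.2.2.2)⟩ m_AA_S1_S3 m_AB_S1_S3).elim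
  · exact (P1_AAB_S1_S1_M13 n1 n2 n3 A1 A2 A3 B1 B2 B3 hb hp ⟨hw.1, hy.1⟩ ⟨hs.1.trans (add_le_add (add_le_add hy.2.1 hz.2.1) hw.2.1), hs.2.1.trans (add_le_add (add_le_add hy.2.2.1 hz.2.2.1) hw.2.2.1), hs.2.1.trans (add_le_add (add_le_add hy.2.2.1 hz.2.2.1) hw.2.2.2.1), hs.2.2.trans (add_le_add (add_le_add hy.2.2.2 hz.2.2.2) hw.2.2.2.2.1), hs.2.2.trans (add_le_add (add_le_add hy.2.2.2 hz.2.2.2) hw.2.2.2.2.2)⟩ ).elim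
  · exact (P1_AAB_S1_S1_M23 n1 n2 n3 A1 A2 A3 B1 B2 B3 hb hp ⟨hw.1, hy.1⟩ ⟨hs.1.trans (add_le_add (add_le_add hy.2.1 hz.2.1) hw.2.1), hs.1.trans (add_le_add (add_le_add hy.2.1 hz.2.1) hw.2.2.1), hs.2.1.trans (add_le_add (add_le_add hy.2.2.1 hz.2.2.1) hw.2.2.2.1), hs.2.2.trans (add_le_add (add_le_add hy.2.2.2 hz.2.2.2) hw.2.2.2.2.1), hs.2.2.trans (add_le_add (add_le_add hy.2.2.2 hz.2.2.2) hw.2.2.2.2.2)⟩ m_AB_S1_S3).elim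
  · exact (P1_AAB_S1_S1_S2 n1 n2 n3 A1 A2 A3 B1 B2 B3 hb hp ⟨hy.1, hz.1⟩ ⟨hs_ywz.1.trans (add_le_add (add_le_add hy.2.1 hw.2.1) hz.2.1), hs_ywz.1.trans (add_le_add (add_le_add hy.2.1 hw.2.1) hz.2.2.1), hs_ywz.2.1.trans (add_le_add (add_le_add hy.2.2.1 hw.2.2.1) hz.2.2.2.1), hs_ywz.2.2.trans (add_le_add (add_le_add hy.2.2.2 hw.2.2.2) hz.2.2.2.2)⟩ m_AA_S1_S3).elim
  · exact (P1_AAB_S1_S2_S2 n1 n2 n3 A1 A2 A3 B1 B2 B3 hb hp ⟨hy.1, hz.1⟩ ⟨hs.1.trans (add_le_add (add_le_add hy.2.1 hz.2.1) hw.2.1), hs.1.trans (add_le_add (add_le_add hy.2.1 hz.2.1) hw.2.2.1), hs.1.trans (add_le_add (add_le_add hy.2.1 hz.2.2.1) hw.2.1), hs.1.trans (add_le_add (add_le_add hy.2.1 hz.2.2.1) hw.2.2.1), hs.2.1.trans (add_le_add (add_le_add hy.2.2.1 hz.2.2.2.1) hw.2.2.2.1), hs.2.2.trans (add_le_add (add_le_add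 hy.2.2.2 hz.2.2.2.2) hw.2.2.2.2)⟩ m_AB_S1_S2).elim
  · exact (P1_AAB_S1_S2_S3 n1 n2 n3 A1 A2 A3 B1 B2 B3 hb hp ⟨hw.1, hy.1, hz.1⟩ ⟨hs.1.trans (add_le_add (add_le_add hy.2.1 hz.2.1) hw.2.1), hs.1.trans (add_le_add (add_le_add hy.2.1 hz.2.1) hw.2.2.1), hs.1.trans (add_le_add (add_le_add hy.2.1 hz.2.2.1) hw.2.1), hs.1.trans (add_le_add (add_le_add hy.2.1 hz.2.2.1) hw.2.2.1), hs.2.1.trans (add_le_add (add_le_add hy.2.2.1 hz.2.2.2.1) hw.2.2.2.1), hs.2.1.trans (add_le_add (add_le_add hy.2.2.1 hz.2.2.2.1) hw.2.2.2.2.1), hs.2.2.trans (add_le_add (add_le_add hy.2.2.2 hz.2.2.2.2) hw.2.2.2.2.2)⟩ m_AA_S2_S3 m_AB_S1_S3).elim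
  · exact (P1_AAB_S1_S2_M13 n1 n2 n3 A1 A2 A3 B1 B2 B3 hb hp ⟨hw.1, hy.1, hz.1⟩ ⟨hs.1.trans (add_le_add (add_le_add hy.2.1 hz.2.1) hw.2.1), hs.1.trans (add_le_add (add_le_add hy.2.1 hz.2.2.1) hw.2.1), hs.2.1.trans (add_le_add (add_le_add hy.2.2.1 hz.2.2.2.1) hw.2.2.1), hs.2.1.trans (add_le_add (add_le_add hy.2.2.1 hz.2.2.2.1) hw.2.2.2.1), hs.2.2.trans (add_le_add (add_le_add hy.2.2.2 hz.2.2.2.2) hw.2.2.2.2.1), hs.2.2.trans (add_le_add (add_le_add hy.2.2.2 hz.2.2.2.2) hw.2.2.2.2.2)⟩ m_AA_S2_M13 m_AB_S1_S3).elim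
  · exact (P1_AAB_S1_S2_M23 n1 n2 n3 A1 A2 A3 B1 B2 B3 hb hp ⟨hw.1, hy.1, hz.1⟩ ⟨hs.1.trans (add_le_add (add_le_add hy.2.1 hz.2.1) hw.2.1), hs.1.trans (add_le_add (add_le_add hy.2.1 hz.2.1) hw.2.2.1), hs.1.trans (add_le_add (add_le_add hy.2.1 hz.2.2.1) hw.2.1), hs.1.trans (add_le_add (add_le_add hy.2.1 hz.2.2.1) hw.2.2.1), hs.2.1.trans (add_le_add (add_le_add hy.2.2.1 hz.2.2.2.1) hw.2.2.2.1), hs.2.2.trans (add_le_add (add_le_add hy.2.2.2 hz.2.2.2.2) hw.2.2.2.2.1), hs.2.2.trans (add_le_add (add_le_add hy.2.2.2 hz.2.2.2.2) hw.2.2.2.2.2)⟩ m_AB_S1_S3).elim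
  · exact (P1_AAB_S1_S1_S3 n1 n2 n3 A1 A2 A3 B1 B2 B3 hb hp ⟨hz.1, hy.1⟩ ⟨hs_ywz.1.trans (add_le_add (add_le_add hy.2.1 hw.2.1) hz.2.1), hs_ywz.1.trans (add_le_add (add_le_add hy.2.1 hw.2.1) hz.2.2.1), hs_ywz.2.1.trans (add_le_add (add_le_add hy.2.2.1 hw.2.2.1) hz.2.2.2.1), hs_ywz.2.1.trans (add_le_add (add_le_add hy.2.2.1 hw.2.2.1) hz.2.2.2.2.1), hs_ywz.2.2.trans (add_le_add (add_le_add hy.2.2.2 hw.2.2.2) hz.2.2.2.2.2)⟩ m_AA_S1_S3 m_AB_S1_S3).elim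
  · exact (P1_AAB_S1_S2_S3 n1 n2 n3 A1 A2 A3 B1 B2 B3 hb hp ⟨hz.1, hy.1, hw.1⟩ ⟨hs_ywz.1.trans (add_le_add (add_le_add hy.2.1 hw.2.1) hz.2.1), hs_ywz.1.trans (add_le_add (add_le_add hy.2.1 hw.2.1) hz.2.2.1), hs_ywz.1.trans (add_le_add (add_le_add hy.2.1 hw.2.2.1) hz.2.1), hs_ywz.1.trans (add_le_add (add_le_add hy.2.1 hw.2.2.1) hz.2.2.1), hs_ywz.2.1.trans (add_le_add (add_le_add hy.2.2.1 hw.2.2.2.1) hz.2.2.2.1), hs_ywz.2.1.trans (add_le_add (add_le_add hy.2.2.1 hw.2.2.2.1) hz.2.2.2.2.1), hs_ywz.2.2.trans (add_le_add (add_le_add hy.2.2.2 hw.2.2.2.2) hz.2.2.2.2.2)⟩ m_AA_S2_S3 m_AB_S1_S3).elim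
  · exact (P1_AAB_S1_S3_S3 n1 n2 n3 A1 A2 A3 B1 B2 B3 hb hp ⟨hz.1, hy.1⟩ ⟨hs.1.trans (add_le_add (add_le_add hy.2.1 hz.2.1) hw.2.1), hs.1.trans (add_le_add (add_le_add hy.2.1 hz.2.1) hw.2.2.1), hs.1.trans (add_le_add (add_le_add hy.2.1 hz.2.2.1) hw.2.1), hs.1.trans (add_le_add (add_le_add hy.2.1 hz.2.2.1) hw.2.2.1), hs.2.1.trans (add_le_add (add_le_add hy.2.2.1 hz.2.2.2.1) hw.2.2.2.1), hs.2.1.trans (add_le_add (add_le_add hy.2.2.1 hz.2.2.2.1) hw.2.2.2.2.1), hs.2.1.trans (add_le_add (add_le_add hy.2.2.1 hz.2.2.2.2.1) hw.2.2.2.1), hs.2.1.trans (add_le_add (add_le_add hy.2.2.1 hz.2.2.2.2.1) hw.2.2.2.2.1), hs.2.2.trans (add_le_add (add_le_add hy.2.2.2 hz.2.2.2.2.2) hw.2.2.2.2.2)⟩ m_AB_S1_S3).elim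
  · exact (P1_AAB_S1_S3_M13 n1 n2 n3 A1 A2 A3 B1 B2 B3 hb hp ⟨hw.1, hz.1, hy.1⟩ ⟨hs.1.trans (add_le_add (add_le_add hy.2.1 hz.2.1) hw.2.1), hs.1.trans (add_le_add (add_le_add hy.2.1 hz.2.2.1) hw.2.1), hs.2.1.trans (add_le_add (add_le_add hy.2.2.1 hz.2.2.2.1) hw.2.2.1), hs.2.1.trans (add_le_add (add_le_add hy.2.2.1 hz.2.2.2.1) hw.2.2.2.1), hs.2.1.trans (add_le_add (add_le_add hy.2.2.1 hz.2.2.2.2.1) hw.2.2.1), hs.2.1.trans (add_le_add (add_le_add hy.2.2.1 hz.2.2.2.2.1) hw.2.2.2.1), hs.2.2.trans (add_le_add (add_le_add hy.2.2.2 hz.2.2.2.2.2) hw.2.2.2.2.1), hs.2.2.trans (add_le_add (add_le_add hy.2.2.2 hz.2.2.2.2.2) hw.2.2.2.2.2)⟩ m_AB_S1_S3 m_AA_S3_M13 m_AA_M13_M23).elim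
  · exact (P1_AAB_S1_S3_M23 n1 n2 n3 A1 A2 A3 B1 B2 B3 hb hp ⟨hw.1, hz.1, hy.1⟩ ⟨hs.1.trans (add_le_add (add_le_add hy.2.1 hz.2.1) hw.2.1), hs.1.trans (add_le_add (add_le_add hy.2.1 hz.2.1) hw.2.2.1), hs.1.trans (add_le_add (add_le_add hy.2.1 hz.2.2.1) hw.2.1), hs.1.trans (add_le_add (add_le_add hy.2.1 hz.2.2.1) hw.2.2.1), hs.2.1.trans (add_le_add (add_le_add hy.2.2.1 hz.2.2.2.1) hw.2.2.2.1), hs.2.1.trans (add_le_add (add_le_add hy.2.2.1 hz.2.2.2.2.1) hw.2.2.2.1), hs.2.2.trans (add_le_add (add_le_add hy.2.2.2 hz.2.2.2.2.2) hw.2.2.2.2.1), hs.2.2.trans (add_le_add (add_le_add hy.2.2.2 hz.2.2.2.2.2) hw.2.2.2.2.2)⟩ m_AB_S1_S3 m_AA_S3_M13).elim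
  · exact (P1_AAB_S1_S1_M13 n1 n2 n3 A1 A2 A3 B1 B2 B3 hb hp ⟨hz.1, hy.1⟩ ⟨hs_ywz.1.trans (add_le_add (add_le_add hy.2.1 hw.2.1) hz.2.1), hs_ywz.2.1.trans (add_le_add (add_le_add hy.2.2.1 hw.2.2.1) hz.2.2.1), hs_ywz.2.1.trans (add_le_add (add_le_add hy.2.2.1 hw.2.2.1) hz.2.2.2.1), hs_ywz.2.2.trans (add_le_add (add_le_add hy.2.2.2 hw.2.2.2) hz.2.2.2.2.1), hs_ywz.2.2.trans (add_le_add (add_le_add hy.2.2.2 hw.2.2.2) hz.2.2.2.2.2)⟩ ).elim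
  · exact (P1_AAB_S1_S2_M13 n1 n2 n3 A1 A2 A3 B1 B2 B3 hb hp ⟨hz.1, hy.1, hw.1⟩ ⟨hs_ywz.1.trans (add_le_add (add_le_add hy.2.1 hw.2.1) hz.2.1), hs_ywz.1.trans (add_le_add (add_le_add hy.2.1 hw.2.2.1) hz.2.1), hs_ywz.2.1.trans (add_le_add (add_le_add hy.2.2.1 hw.2.2.2.1) hz.2.2.1), hs_ywz.2.1.trans (add_le_add (add_le_add hy.2.2.1 hw.2.2.2.1) hz.2.2.2.1), hs_ywz.2.2.trans (add_le_add (add_le_add hy.2.2.2 hw.2.2.2.2) hz.2.2.2.2.1), hs_ywz.2.2.trans (add_le_add (add_le_add hy.2.2.2 hw.2.2.2.2) hz.2.2.2.2.2)⟩ m_AA_S2_M13 m_AB_S1_S3).elim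
  · exact (P1_AAB_S1_S3_M13 n1 n2 n3 A1 A2 A3 B1 B2 B3 hb hp ⟨hz.1, hw.1, hy.1⟩ ⟨hs_ywz.1.trans (add_le_add (add_le_add hy.2.1 hw.2.1) hz.2.1), hs_ywz.1.trans (add_le_add (add_le_add hy.2.1 hw.2.2.1) hz.2.1), hs_ywz.2.1.trans (add_le_add (add_le_add hy.2.2.1 hw.2.2.2.1) hz.2.2.1), hs_ywz.2.1.trans (add_le_add (add_le_add hy.2.2.1 hw.2.2.2.1) hz.2.2.2.1), hs_ywz.2.1.trans (add_le_add (add_le_add hy.2.2.1 hw.2.2.2.2.1) hz.2.2.1), hs_ywz.2.1.trans (add_le_add (add_le_add hy.2.2.1 hw.2.2.2.2.1) hz.2.2.2.1), hs_ywz.2.2.trans (add_le_add (add_le_add hy.2.2.2 hw.2.2.2.2.2) hz.2.2.2.2.1), hs_ywz.2.2.trans (add_le_add (add_le_add hy.2.2.2 hw.2.2.2.2.2) hz.2.2.2.2.2)⟩ m_AB_S1_S3 m_AA_S3_M13 m_AA_M13_M23).elim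
  · exact (P1_AAB_S1_M13_M13 n1 n2 n3 A1 A2 A3 B1 B2 B3 hb hp ⟨hz.1, hy.1⟩ ⟨hs.1.trans (add_le_add (add_le_add hy.2.1 hz.2.1) hw.2.1), hs.2.1.trans (add_le_add (add_le_add hy.2.2.1 hz.2.2.1) hw.2.2.1), hs.2.1.trans (add_le_add (add_le_add hy.2.2.1 hz.2.2.1) hw.2.2.2.1), hs.2.1.trans (add_le_add (add_le_add hy.2.2.1 hz.2.2.2.1) hw.2.2.1), hs.2.1.trans (add_le_add (add_le_add hy.2.2.1 hz.2.2.2.1) hw.2.2.2.1), hs.2.2.trans (add_le_add (add_le_add hy.2.2.2 hz.2.2.2.2.1) hw.2.2.2.2.1), hs.2.2.trans (add_le_add (add_le_add hy.2.2.2 hz.2.2.2.2.1) hw.2.2.2.2.2), hs.2.2.trans (add_le_add (add_le_add hy.2.2.2 hz.2.2.2.2.2) hw.2.2.2.2.1), hs.2.2.trans (add_le_add (add_le_add hy.2.2.2 hz.2.2.2.2.2) hw.2.2.2.2.2)⟩ ).elim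
  · exact (P1_AAB_S1_M13_M23 n1 n2 n3 A1 A2 A3 B1 B2 B3 hb hp ⟨hz.1, hw.1, hy.1⟩ ⟨hs.1.trans (add_le_add (add_le_add hy.2.1 hz.2.1) hw.2.1), hs.1.trans (add_le_add (add_le_add hy.2.1 hz.2.1) hw.2.2.1), hs.2.1.trans (add_le_add (add_le_add hy.2.2.1 hz.2.2.1) hw.2.2.2.1), hs.2.1.trans (add_le_add (add_le_add hy.2.2.1 hz.2.2.2.1) hw.2.2.2.1), hs.2.2.trans (add_le_add (add_le_add hy.2.2.2 hz.2.2.2.2.1) hw.2.2.2.2.1), hs.2.2.trans (add_le_add (add_le_add hy.2.2.2 hz.2.2.2.2.1) hw.2.2.2.2.2), hs.2.2.trans (add_le_add (add_le_add hy.2.2.2 hz.2.2.2.2.2) hw.2.2.2.2.1), hs.2.2.trans (add_le_add (add_le_add hy.2.2.2 hz.2.2.2.2.2) hw.2.2.2.2.2)⟩ m_AA_M13_M23 m_AB_S1_S3).elim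
  · exact (P1_AAB_S1_S1_M23 n1 n2 n3 A1 A2 A3 B1 B2 B3 hb hp ⟨hz.1, hy.1⟩ ⟨hs_ywz.1.trans (add_le_add (add_le_add hy.2.1 hw.2.1) hz.2.1), hs_ywz.1.trans (add_le_add (add_le_add hy.2.1 hw.2.1) hz.2.2.1), hs_ywz.2.1.trans (add_le_add (add_le_add hy.2.2.1 hw.2.2.1) hz.2.2.2.1), hs_ywz.2.2.trans (add_le_add (add_le_add hy.2.2.2 hw.2.2.2) hz.2.2.2.2.1), hs_ywz.2.2.trans (add_le_add (add_le_add hy.2.2.2 hw.2.2.2) hz.2.2.2.2.2)⟩ m_AB_S1_S3).elim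
  · exact (P1_AAB_S1_S2_M23 n1 n2 n3 A1 A2 A3 B1 B2 B3 hb hp ⟨hz.1, hy.1, hw.1⟩ ⟨hs_ywz.1.trans (add_le_add (add_le_add hy.2.1 hw.2.1) hz.2.1), hs_ywz.1.trans (add_le_add (add_le_add hy.2.1 hw.2.1) hz.2.2.1), hs_ywz.1.trans (add_le_add (add_le_add hy.2.1 hw.2.2.1) hz.2.1), hs_ywz.1.trans (add_le_add (add_le_add hy.2.1 hw.2.2.1) hz.2.2.1), hs_ywz.2.1.trans (add_le_add (add_le_add hy.2.2.1 hw.2.2.2.1) hz.2.2.2.1), hs_ywz.2.2.trans (add_le_add (add_le_add hy.2.2.2 hw.2.2.2.2) hz.2.2.2.2.1), hs_ywz.2.2.trans (add_le_add (add_le_add hy.2.2.2 hw.2.2.2.2) hz.2.2.2.2.2)⟩ m_AB_S1_S3).elim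
  · exact (P1_AAB_S1_S3_M23 n1 n2 n3 A1 A2 A3 B1 B2 B3 hb hp ⟨hz.1, hw.1, hy.1⟩ ⟨hs_ywz.1.trans (add_le_add (add_le_add hy.2.1 hw.2.1) hz.2.1), hs_ywz.1.trans (add_le_add (add_le_add hy.2.1 hw.2.1) hz.2.2.1), hs_ywz.1.trans (add_le_add (add_le_add hy.2.1 hw.2.2.1) hz.2.1), hs_ywz.1.trans (add_le_add (add_le_add hy.2.1 hw.2.2.1) hz.2.2.1), hs_ywz.2.1.trans (add_le_add (add_le_add hy.2.2.1 hw.2.2.2.1) hz.2.2.2.1), hs_ywz.2.1.trans (add_le_add (add_le_add hy.2.2.1 hw.2.2.2.2.1) hz.2.2.2.1), hs_ywz.2.2.trans (add_le_add (add_le_add hy.2.2.2 hw.2.2.2.2.2) hz.2.2.2.2.1), hs_ywz.2.2.trans (add_le_add (add_le_add hy.2.2.2 hw.2.2.2.2.2) hz.2.2.2.2.2)⟩ m_AB_S1_S3 m_AA_S3_M13).elim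
  · exact (P1_AAB_S1_M13_M23 n1 n2 n3 A1 A2 A3 B1 B2 B3 hb hp ⟨hw.1, hz.1, hy.1⟩ ⟨hs_ywz.1.trans (add_le_add (add_le_add hy.2.1 hw.2.1) hz.2.1), hs_ywz.1.trans (add_le_add (add_le_add hy.2.1 hw.2.1) hz.2.2.1), hs_ywz.2.1.trans (add_le_add (add_le_add hy.2.2.1 hw.2.2.1) hz.2.2.2.1), hs_ywz.2.1.trans (add_le_add (add_le_add hy.2.2.1 hw.2.2.2.1) hz.2.2.2.1), hs_ywz.2.2.trans (add_le_add (add_le_add hy.2.2.2 hw.2.2.2.2.1) hz.2.2.2.2.1), hs_ywz.2.2.trans (add_le_add (add_le_add hy.2.2.2 hw.2.2.2.2.1) hz.2.2.2.2.2), hs_ywz.2.2.trans (add_le_add (add_le_add hy.2.2.2 hw.2.2.2.2.2) hz.2.2.2.2.1), hs_ywz.2.2.trans (add_le_add (add_le_add hy.2.2.2 hw.2.2.2.2.2) hz.2.2.2.2.2)⟩ m_AA_M13_M23 m_AB_S1_S3).elim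
  · exact (P1_AAB_S1_M23_M23 n1 n2 n3 A1 A2 A3 B1 B2 B3 hb hp ⟨hz.1, hy.1⟩ ⟨hs.1.trans (add_le_add (add_le_add hy.2.1 hz.2.1) hw.2.1), hs.1.trans (add_le_add (add_le_add hy.2.1 hz.2.1) hw.2.2.1), hs.1.trans (add_le_add (add_le_add hy.2.1 hz.2.2.1) hw.2.1), hs.1.trans (add_le_add (add_le_add hy.2.1 hz.2.2.1) hw.2.2.1), hs.2.1.trans (add_le_add (add_le_add hy.2.2.1 hz.2.2.2.1) hw.2.2.2.1), hs.2.2.trans (add_le_add (add_le_add hy.2.2.2 hz.2.2.2.2.1) hw.2.2.2.2.1), hs.2.2.trans (add_le_add (add_le_add hy.2.2.2 hz.2.2.2.2.1) hw.2.2.2.2.2), hs.2.2.trans (add_le_add (add_le_add hy.2.2.2 hz.2.2.2.2.2) hw.2.2.2.2.1), hs.2.2.trans (add_le_add (add_le_add hy.2.2.2 hz.2.2.2.2.2) hw.2.2.2.2.2)⟩ m_AB_S1_S3).elim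
  · exact (P1_AAB_S1_S1_S2 n1 n2 n3 A1 A2 A3 B1 B2 B3 hb hp ⟨hz.1, hy.1⟩ ⟨hs_zwy.1.trans (add_le_add (add_le_add hz.2.1 hw.2.1) hy.2.1), hs_zwy.1.trans (add_le_add (add_le_add hz.2.1 hw.2.1) hy.2.2.1), hs_zwy.2.1.trans (add_le_add (add_le_add hz.2.2.1 hw.2.2.1) hy.2.2.2.1), hs_zwy.2.2.trans (add_le_add (add_le_add hz.2.2.2 hw.2.2.2) hy.2.2.2.2)⟩ m_AA_S1_S3).elim
  · exact (P1_AAB_S1_S2_S2 n1 n2 n3 A1 A2 A3 B1 B2 B3 hb hp ⟨hz.1, hy.1⟩ ⟨hs_zyw.1.trans (add_le_add (add_le_add hz.2.1 hy.2.1) hw.2.1), hs_zyw.1.trans (add_le_add (add_le_add hz.2.1 hy.2.1) hw.2.2.1), hs_zyw.1.trans (add_le_add (add_le_add hz.2.1 hy.2.2.1) hw.2.1), hs_zyw.1.trans (add_le_add (add_le_add hz.2.1 hy.2.2.1) hw.2.2.1), hs_zyw.2.1.trans (add_le_add (add_le_add hz.2.2.1 hy.2.2.2.1) hw.2.2.2.1), hs_zyw.2.2.trans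 (add_le_add (add_le_add hz.2.2.2 hy.2.2.2.2) hw.2.2.2.2)⟩ m_AB_S1_S2).elim
  · exact (P1_AAB_S1_S2_S3 n1 n2 n3 A1 A2 A3 B1 B2 B3 hb hp ⟨hw.1, hz.1, hy.1⟩ ⟨hs_zyw.1.trans (add_le_add (add_le_add hz.2.1 hy.2.1) hw.2.1), hs_zyw.1.trans (add_le_add (add_le_add hz.2.1 hy.2.1) hw.2.2.1), hs_zyw.1.trans (add_le_add (add_le_add hz.2.1 hy.2.2.1) hw.2.1), hs_zyw.1.trans (add_le_add (add_le_add hz.2.1 hy.2.2.1) hw.2.2.1), hs_zyw.2.1.trans (add_le_add (add_le_add hz.2.2.1 hy.2.2.2.1) hw.2.2.2.1), hs_zyw.2.1.trans (add_le_add (add_le_add hz.2.2.1 hy.2.2.2.1) hw.2.2.2.2.1), hs_zyw.2.2.trans (add_le_add (add_le_add hz.2.2.2 hy.2.2.2.2) hw.2.2.2.2.2)⟩ m_AA_S2_S3 m_AB_S1_S3).elim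
  · exact (P1_AAB_S1_S2_M13 n1 n2 n3 A1 A2 A3 B1 B2 B3 hb hp ⟨hw.1, hz.1, hy.1⟩ ⟨hs_zyw.1.trans (add_le_add (add_le_add hz.2.1 hy.2.1) hw.2.1), hs_zyw.1.trans (add_le_add (add_le_add hz.2.1 hy.2.2.1) hw.2.1), hs_zyw.2.1.trans (add_le_add (add_le_add hz.2.2.1 hy.2.2.2.1) hw.2.2.1), hs_zyw.2.1.trans (add_le_add (add_le_add hz.2.2.1 hy.2.2.2.1) hw.2.2.2.1), hs_zyw.2.2.trans (add_le_add (add_le_add hz.2.2.2 hy.2.2.2.2) hw.2.2.2.2.1), hs_zyw.2.2.trans (add_le_add (add_le_add hz.2.2.2 hy.2.2.2.2) hw.2.2.2.2.2)⟩ m_AA_S2_M13 m_AB_S1_S3).elim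
  · exact (P1_AAB_S1_S2_M23 n1 n2 n3 A1 A2 A3 B1 B2 B3 hb hp ⟨hw.1, hz.1, hy.1⟩ ⟨hs_zyw.1.trans (add_le_add (add_le_add hz.2.1 hy.2.1) hw.2.1), hs_zyw.1.trans (add_le_add (add_le_add hz.2.1 hy.2.1) hw.2.2.1), hs_zyw.1.trans (add_le_add (add_le_add hz.2.1 hy.2.2.1) hw.2.1), hs_zyw.1.trans (add_le_add (add_le_add hz.2.1 hy.2.2.1) hw.2.2.1), hs_zyw.2.1.trans (add_le_add (add_le_add hz.2.2.1 hy.2.2.2.1) hw.2.2.2.1), hs_zyw.2.2.trans (add_le_add (add_le_add hz.2.2.2 hy.2.2.2.2) hw.2.2.2.2.1), hs_zyw.2.2.trans (add_le_add (add_le_add hz.2.2.2 hy.2.2.2.2) hw.2.2.2.2.2)⟩ m_AB_S1_S3).elim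
  · exact (P1_AAB_S1_S2_S2 n1 n2 n3 A1 A2 A3 B1 B2 B3 hb hp ⟨hw.1, hy.1⟩ ⟨hs_wyz.1.trans (add_le_add (add_le_add hw.2.1 hy.2.1) hz.2.1), hs_wyz.1.trans (add_le_add (add_le_add hw.2.1 hy.2.1) hz.2.2.1), hs_wyz.1.trans (add_le_add (add_le_add hw.2.1 hy.2.2.1) hz.2.1), hs_wyz.1.trans (add_le_add (add_le_add hw.2.1 hy.2.2.1) hz.2.2.1), hs_wyz.2.1.trans (add_le_add (add_le_add hw.2.2.1 hy.2.2.2.1) hz.2.2.2.1), hs_wyz.2.2.trans (add_le_add (add_le_add hw.2.2.2 hy.2.2.2.2) hz.2.2.2.2)⟩ m_AB_S1_S2).elim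
  · exact (P1_AAB_S2_S2_S2 n1 n2 n3 A1 A2 A3 B1 B2 B3 hb hp hy.1 ⟨hs.1.trans (add_le_add (add_le_add hy.2.1 hz.2.1) hw.2.1), hs.1.trans (add_le_add (add_le_add hy.2.1 hz.2.1) hw.2.2.1), hs.1.trans (add_le_add (add_le_add hy.2.1 hz.2.2.1) hw.2.1), hs.1.trans (add_le_add (add_le_add hy.2.1 hz.2.2.1) hw.2.2.1), hs.1.trans (add_le_add (add_le_add hy.2.2.1 hz.2.1) hw.2.1), hs.1.trans (add_le_add (add_le_add hy.2.2.1 hz.2.1) hw.2.2.1), hs.1.trans (add_le_add (add_le_add hy.2.2.1 hz.2.2.1) hw.2.1), hs.1.trans (add_le_add (add_le_add hy.2.2.1 hz.2.2.1) hw.2.2.1), hs.2.1.trans (add_le_add (add_le_add hy.2.2.2.1 hz.2.2.2.1) hw.2.2.2.1), hs.2.2.trans (add_le_add (add_le_add hy.2.2.2.2 hz.2.2.2.2) hw.2.2.2.2)⟩ ).elim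
  · exact (P1_AAB_S2_S2_S3 n1 n2 n3 A1 A2 A3 B1 B2 B3 hb hp ⟨hw.1, hy.1⟩ ⟨hs.1.trans (add_le_add (add_le_add hy.2.1 hz.2.1) hw.2.1), hs.1.trans (add_le_add (add_le_add hy.2.1 hz.2.1) hw.2.2.1), hs.1.trans (add_le_add (add_le_add hy.2.1 hz.2.2.1) hw.2.1), hs.1.trans (add_le_add (add_le_add hy.2.1 hz.2.2.1) hw.2.2.1), hs.1.trans (add_le_add (add_le_add hy.2.2.1 hz.2.1) hw.2.1), hs.1.trans (add_le_add (add_le_add hy.2.2.1 hz.2.1) hw.2.2.1), hs.1.trans (add_le_add (add_le_add hy.2.2.1 hz.2.2.1) hw.2.1), hs.1.trans (add_le_add (add_le_add hy.2.2.1 hz.2.2.1) hw.2.2.1), hs.2.1.trans (add_le_add (add_le_add hy.2.2.2.1 hz.2.2.2.1) hw.2.2.2.1), hs.2.1.trans (add_le_add (add_le_add hy.2.2.2.1 hz.2.2.2.1) hw.2.2.2.2.1), hs.2.2.trans (add_le_add (add_le_add hy.2.2.2.2 hz.2.2.2.2) hw.2.2.2.2.2)⟩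 m_AA_S2_S3 m_AB_S2_M13).elim
  · exact (P1_AAB_S2_S2_M13 n1 n2 n3 A1 A2 A3 B1 B2 B3 hb hp ⟨hw.1, hy.1⟩ ⟨hs.1.trans (add_le_add (add_le_add hy.2.1 hz.2.1) hw.2.1), hs.1.trans (add_le_add (add_le_add hy.2.1 hz.2.2.1) hw.2.1), hs.1.trans (add_le_add (add_le_add hy.2.2.1 hz.2.1) hw.2.1), hs.1.trans (add_le_add (add_le_add hy.2.2.1 hz.2.2.1) hw.2.1), hs.2.1.trans (add_le_add (add_le_add hy.2.2.2.1 hz.2.2.2.1) hw.2.2.1), hs.2.1.trans (add_le_add (add_le_add hy.2.2.2.1 hz.2.2.2.1) hw.2.2.2.1), hs.2.2.trans (add_le_add (add_le_add hy.2.2.2.2 hz.2.2.2.2) hw.2.2.2.2.1), hs.2.2.trans (add_le_add (add_le_add hy.2.2.2.2 hz.2.2.2.2) hw.2.2.2.2.2)⟩ m_AB_S2_M13).elim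
  · exact (P1_AAB_S2_S2_M23 n1 n2 n3 A1 A2 A3 B1 B2 B3 hb hp ⟨hw.1, hy.1⟩ ⟨hs.1.trans (add_le_add (add_le_add hy.2.1 hz.2.1) hw.2.1), hs.1.trans (add_le_add (add_le_add hy.2.1 hz.2.1) hw.2.2.1), hs.1.trans (add_le_add (add_le_add hy.2.1 hz.2.2.1) hw.2.1), hs.1.trans (add_le_add (add_le_add hy.2.1 hz.2.2.1) hw.2.2.1), hs.1.trans (add_le_add (add_le_add hy.2.2.1 hz.2.1) hw.2.1), hs.1.trans (add_le_add (add_le_add hy.2.2.1 hz.2.1) hw.2.2.1), hs.1.trans (add_le_add (add_le_add hy.2.2.1 hz.2.2.1) hw.2.1), hs.1.trans (add_le_add (add_le_add hy.2.2.1 hz.2.2.1) hw.2.2.1), hs.2.1.trans (add_le_add (add_le_add hy.2.2.2.1 hz.2.2.2.1) hw.2.2.2.1), hs.2.2.trans (add_le_add (add_le_add hy.2.2.2.2 hz.2.2.2.2) hw.2.2.2.2.1), hs.2.2.trans (add_le_add (add_le_add hy.2.2.2.2 hz.2.2.2.2) hw.2.2.2.2.2)⟩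 ).elim
  · exact (P1_AAB_S1_S2_S3 n1 n2 n3 A1 A2 A3 B1 B2 B3 hb hp ⟨hz.1, hw.1, hy.1⟩ ⟨hs_wyz.1.trans (add_le_add (add_le_add hw.2.1 hy.2.1) hz.2.1), hs_wyz.1.trans (add_le_add (add_le_add hw.2.1 hy.2.1) hz.2.2.1), hs_wyz.1.trans (add_le_add (add_le_add hw.2.1 hy.2.2.1) hz.2.1), hs_wyz.1.trans (add_le_add (add_le_add hw.2.1 hy.2.2.1) hz.2.2.1), hs_wyz.2.1.trans (add_le_add (add_le_add hw.2.2.1 hy.2.2.2.1) hz.2.2.2.1), hs_wyz.2.1.trans (add_le_add (add_le_add hw.2.2.1 hy.2.2.2.1) hz.2.2.2.2.1), hs_wyz.2.2.trans (add_le_add (add_le_add hw.2.2.2 hy.2.2.2.2) hz.2.2.2.2.2)⟩ m_AA_S2_S3 m_AB_S1_S3).elim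
  · exact (P1_AAB_S2_S2_S3 n1 n2 n3 A1 A2 A3 B1 B2 B3 hb hp ⟨hz.1, hy.1⟩ ⟨hs_ywz.1.trans (add_le_add (add_le_add hy.2.1 hw.2.1) hz.2.1), hs_ywz.1.trans (add_le_add (add_le_add hy.2.1 hw.2.1) hz.2.2.1), hs_ywz.1.trans (add_le_add (add_le_add hy.2.1 hw.2.2.1) hz.2.1), hs_ywz.1.trans (add_le_add (add_le_add hy.2.1 hw.2.2.1) hz.2.2.1), hs_ywz.1.trans (add_le_add (add_le_add hy.2.2.1 hw.2.1) hz.2.1), hs_ywz.1.trans (add_le_add (add_le_add hy.2.2.1 hw.2.1) hz.2.2.1), hs_ywz.1.trans (add_le_add (add_le_add hy.2.2.1 hw.2.2.1) hz.2.1), hs_ywz.1.trans (add_le_add (add_le_add hy.2.2.1 hw.2.2.1) hz.2.2.1), hs_ywz.2.1.trans (add_le_add (add_le_add hy.2.2.2.1 hw.2.2.2.1) hz.2.2.2.1), hs_ywz.2.1.trans (add_le_add (add_le_add hy.2.2.2.1 hw.2.2.2.1) hz.2.2.2.2.1), hs_ywz.2.2.trans (add_le_add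 (add_le_add hy.2.2.2.2 hw.2.2.2.2) hz.2.2.2.2.2)⟩ m_AA_S2_S3 m_AB_S2_M13).elim
  · exact (P1_AAB_S2_S3_S3 n1 n2 n3 A1 A2 A3 B1 B2 B3 hb hp ⟨hz.1, hy.1⟩ ⟨hs.1.trans (add_le_add (add_le_add hy.2.1 hz.2.1) hw.2.1), hs.1.trans (add_le_add (add_le_add hy.2.1 hz.2.1) hw.2.2.1), hs.1.trans (add_le_add (add_le_add hy.2.1 hz.2.2.1) hw.2.1), hs.1.trans (add_le_add (add_le_add hy.2.1 hz.2.2.1) hw.2.2.1), hs.1.trans (add_le_add (add_le_add hy.2.2.1 hz.2.1) hw.2.1), hs.1.trans (add_le_add (add_le_add hy.2.2.1 hz.2.1) hw.2.2.1), hs.1.trans (add_le_add (add_le_add hy.2.2.1 hz.2.2.1) hw.2.1), hs.1.trans (add_le_add (add_le_add hy.2.2.1 hz.2.2.1) hw.2.2.1), hs.2.1.trans (add_le_add (add_le_add hy.2.2.2.1 hz.2.2.2.1) hw.2.2.2.1), hs.2.1.trans (add_le_add (add_le_add hy.2.2.2.1 hz.2.2.2.1)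 hw.2.2.2.2.1), hs.2.1.trans (add_le_add (add_le_add hy.2.2.2.1 hz.2.2.2.2.1) hw.2.2.2.1), hs.2.1.trans (add_le_add (add_le_add hy.2.2.2.1 hz.2.2.2.2.1) hw.2.2.2.2.1), hs.2.2.trans (add_le_add (add_le_add hy.2.2.2.2 hz.2.2.2.2.2) hw.2.2.2.2.2)⟩ m_AB_S2_S3).elim
  · exact (P1_AAB_S2_S3_M13 n1 n2 n3 A1 A2 A3 B1 B2 B3 hb hp ⟨hw.1, hz.1, hy.1⟩ ⟨hs.1.trans (add_le_add (add_le_add hy.2.1 hz.2.1) hw.2.1), hs.1.trans (add_le_add (add_le_add hy.2.1 hz.2.2.1) hw.2.1), hs.1.trans (add_le_add (add_le_add hy.2.2.1 hz.2.1) hw.2.1), hs.1.trans (add_le_add (add_le_add hy.2.2.1 hz.2.2.1) hw.2.1), hs.2.1.trans (add_le_add (add_le_add hy.2.2.2.1 hz.2.2.2.1) hw.2.2.1), hs.2.1.trans (add_le_add (add_le_add hy.2.2.2.1 hz.2.2.2.1) hw.2.2.2.1), hs.2.1.trans (add_le_add (add_le_add hy.2.2.2.1 hz.2.2.2.2.1)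 hw.2.2.1), hs.2.1.trans (add_le_add (add_le_add hy.2.2.2.1 hz.2.2.2.2.1) hw.2.2.2.1), hs.2.2.trans (add_le_add (add_le_add hy.2.2.2.2 hz.2.2.2.2.2) hw.2.2.2.2.1), hs.2.2.trans (add_le_add (add_le_add hy.2.2.2.2 hz.2.2.2.2.2) hw.2.2.2.2.2)⟩ m_BB_S2_M13 m_AA_S2_S3 m_AB_M13_M23 m_AA_S1_S3).elim
  · exact (P1_AAB_S2_S3_M23 n1 n2 n3 A1 A2 A3 B1 B2 B3 hb hp ⟨hw.1, hz.1, hy.1⟩ ⟨hs.1.trans (add_le_add (add_le_add hy.2.1 hz.2.1) hw.2.1), hs.1.trans (add_le_add (add_le_add hy.2.1 hz.2.1) hw.2.2.1), hs.1.trans (add_le_add (add_le_add hy.2.1 hz.2.2.1) hw.2.1), hs.1.trans (add_le_add (add_le_add hy.2.1 hz.2.2.1) hw.2.2.1), hs.1.trans (add_le_add (add_le_add hy.2.2.1 hz.2.1) hw.2.1), hs.1.trans (add_le_add (add_le_add hy.2.2.1 hz.2.1) hw.2.2.1), hs.1.trans (add_le_add (add_le_add hy.2.2.1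 hz.2.2.1) hw.2.1), hs.1.trans (add_le_add (add_le_add hy.2.2.1 hz.2.2.1) hw.2.2.1), hs.2.1.trans (add_le_add (add_le_add hy.2.2.2.1 hz.2.2.2.1) hw.2.2.2.1), hs.2.1.trans (add_le_add (add_le_add hy.2.2.2.1 hz.2.2.2.2.1) hw.2.2.2.1), hs.2.2.trans (add_le_add (add_le_add hy.2.2.2.2 hz.2.2.2.2.2) hw.2.2.2.2.1), hs.2.2.trans (add_le_add (add_le_add hy.2.2.2.2 hz.2.2.2.2.2) hw.2.2.2.2.2)⟩ m_AA_S3_M23 m_AB_S2_S3 m_AB_S2_M13).elim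
  · exact (P1_AAB_S1_S2_M13 n1 n2 n3 A1 A2 A3 B1 B2 B3 hb hp ⟨hz.1, hw.1, hy.1⟩ ⟨hs_wyz.1.trans (add_le_add (add_le_add hw.2.1 hy.2.1) hz.2.1), hs_wyz.1.trans (add_le_add (add_le_add hw.2.1 hy.2.2.1) hz.2.1), hs_wyz.2.1.trans (add_le_add (add_le_add hw.2.2.1 hy.2.2.2.1) hz.2.2.1), hs_wyz.2.1.trans (add_le_add (add_le_add hw.2.2.1 hy.2.2.2.1) hz.2.2.2.1), hs_wyz.2.2.trans (add_le_add (add_le_add hw.2.2.2 hy.2.2.2.2) hz.2.2.2.2.1), hs_wyz.2.2.trans (add_le_add (add_le_add hw.2.2.2 hy.2.2.2.2) hz.2.2.2.2.2)⟩ m_AA_S2_M13 m_AB_S1_S3).elim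
  · exact (P1_AAB_S2_S2_M13 n1 n2 n3 A1 A2 A3 B1 B2 B3 hb hp ⟨hz.1, hy.1⟩ ⟨hs_ywz.1.trans (add_le_add (add_le_add hy.2.1 hw.2.1) hz.2.1), hs_ywz.1.trans (add_le_add (add_le_add hy.2.1 hw.2.2.1) hz.2.1), hs_ywz.1.trans (add_le_add (add_le_add hy.2.2.1 hw.2.1) hz.2.1), hs_ywz.1.trans (add_le_add (add_le_add hy.2.2.1 hw.2.2.1) hz.2.1), hs_ywz.2.1.trans (add_le_add (add_le_add hy.2.2.2.1 hw.2.2.2.1) hz.2.2.1), hs_ywz.2.1.trans (add_le_add (add_le_add hy.2.2.2.1 hw.2.2.2.1) hz.2.2.2.1), hs_ywz.2.2.trans (add_le_add (add_le_add hy.2.2.2.2 hw.2.2.2.2) hz.2.2.2.2.1), hs_ywz.2.2.trans (add_le_add (add_le_add hy.2.2.2.2 hw.2.2.2.2) hz.2.2.2.2.2)⟩ m_AB_S2_M13).elim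
  · exact (P1_AAB_S2_S3_M13 n1 n2 n3 A1 A2 A3 B1 B2 B3 hb hp ⟨hz.1, hw.1, hy.1⟩ ⟨hs_ywz.1.trans (add_le_add (add_le_add hy.2.1 hw.2.1) hz.2.1), hs_ywz.1.trans (add_le_add (add_le_add hy.2.1 hw.2.2.1) hz.2.1), hs_ywz.1.trans (add_le_add (add_le_add hy.2.2.1 hw.2.1) hz.2.1), hs_ywz.1.trans (add_le_add (add_le_add hy.2.2.1 hw.2.2.1) hz.2.1), hs_ywz.2.1.trans (add_le_add (add_le_add hy.2.2.2.1 hw.2.2.2.1) hz.2.2.1), hs_ywz.2.1.trans (add_le_add (add_le_add hy.2.2.2.1 hw.2.2.2.1) hz.2.2.2.1), hs_ywz.2.1.trans (add_le_add (add_le_add hy.2.2.2.1 hw.2.2.2.2.1) hz.2.2.1), hs_ywz.2.1.trans (add_le_add (add_le_add hy.2.2.2.1 hw.2.2.2.2.1) hz.2.2.2.1), hs_ywz.2.2.trans (add_le_add (add_le_add hy.2.2.2.2 hw.2.2.2.2.2) hz.2.2.2.2.1), hs_ywz.2.2.trans (add_le_add (add_le_add hy.2.2.2.2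 hw.2.2.2.2.2) hz.2.2.2.2.2)⟩ m_BB_S2_M13 m_AA_S2_S3 m_AB_M13_M23 m_AA_S1_S3).elim
  · exact (P1_AAB_S2_M13_M13 n1 n2 n3 A1 A2 A3 B1 B2 B3 hb hp ⟨hz.1, hy.1⟩ ⟨hs.1.trans (add_le_add (add_le_add hy.2.1 hz.2.1) hw.2.1), hs.1.trans (add_le_add (add_le_add hy.2.2.1 hz.2.1) hw.2.1), hs.2.1.trans (add_le_add (add_le_add hy.2.2.2.1 hz.2.2.1) hw.2.2.1), hs.2.1.trans (add_le_add (add_le_add hy.2.2.2.1 hz.2.2.1) hw.2.2.2.1), hs.2.1.trans (add_le_add (add_le_add hy.2.2.2.1 hz.2.2.2.1) hw.2.2.1), hs.2.1.trans (add_le_add (add_le_add hy.2.2.2.1 hz.2.2.2.1) hw.2.2.2.1), hs.2.2.trans (add_le_add (add_le_add hy.2.2.2.2 hz.2.2.2.2.1) hw.2.2.2.2.1), hs.2.2.trans (add_le_add (add_le_add hy.2.2.2.2 hz.2.2.2.2.1) hw.2.2.2.2.2), hs.2.2.trans (add_le_add (add_le_add hy.2.2.2.2 hz.2.2.2.2.2) hw.2.2.2.2.1),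 hs.2.2.trans (add_le_add (add_le_add hy.2.2.2.2 hz.2.2.2.2.2) hw.2.2.2.2.2)⟩ m_AB_S2_M13).elim
  · exact (P1_AAB_S2_M13_M23 n1 n2 n3 A1 A2 A3 B1 B2 B3 hb hp ⟨hz.1, hw.1, hy.1⟩ ⟨hs.1.trans (add_le_add (add_le_add hy.2.1 hz.2.1) hw.2.1), hs.1.trans (add_le_add (add_le_add hy.2.1 hz.2.1) hw.2.2.1), hs.1.trans (add_le_add (add_le_add hy.2.2.1 hz.2.1) hw.2.1), hs.1.trans (add_le_add (add_le_add hy.2.2.1 hz.2.1) hw.2.2.1), hs.2.1.trans (add_le_add (add_le_add hy.2.2.2.1 hz.2.2.1) hw.2.2.2.1), hs.2.1.trans (add_le_add (add_le_add hy.2.2.2.1 hz.2.2.2.1) hw.2.2.2.1), hs.2.2.trans (add_le_add (add_le_add hy.2.2.2.2 hz.2.2.2.2.1) hw.2.2.2.2.1), hs.2.2.trans (add_le_add (add_le_add hy.2.2.2.2 hz.2.2.2.2.1) hw.2.2.2.2.2), hs.2.2.trans (add_le_add (add_le_add hy.2.2.2.2 hz.2.2.2.2.2)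 hw.2.2.2.2.1), hs.2.2.trans (add_le_add (add_le_add hy.2.2.2.2 hz.2.2.2.2.2) hw.2.2.2.2.2)⟩ m_AA_M13_M23 m_AB_S2_M13).elim
  · exact (P1_AAB_S1_S2_M23 n1 n2 n3 A1 A2 A3 B1 B2 B3 hb hp ⟨hz.1, hw.1, hy.1⟩ ⟨hs_wyz.1.trans (add_le_add (add_le_add hw.2.1 hy.2.1) hz.2.1), hs_wyz.1.trans (add_le_add (add_le_add hw.2.1 hy.2.1) hz.2.2.1), hs_wyz.1.trans (add_le_add (add_le_add hw.2.1 hy.2.2.1) hz.2.1), hs_wyz.1.trans (add_le_add (add_le_add hw.2.1 hy.2.2.1) hz.2.2.1), hs_wyz.2.1.trans (add_le_add (add_le_add hw.2.2.1 hy.2.2.2.1) hz.2.2.2.1), hs_wyz.2.2.trans (add_le_add (add_le_add hw.2.2.2 hy.2.2.2.2) hz.2.2.2.2.1), hs_wyz.2.2.trans (add_le_add (add_le_add hw.2.2.2 hy.2.2.2.2) hz.2.2.2.2.2)⟩ m_AB_S1_S3).elim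
  · exact (P1_AAB_S2_S2_M23 n1 n2 n3 A1 A2 A3 B1 B2 B3 hb hp ⟨hz.1, hy.1⟩ ⟨hs_ywz.1.trans (add_le_add (add_le_add hy.2.1 hw.2.1) hz.2.1), hs_ywz.1.trans (add_le_add (add_le_add hy.2.1 hw.2.1) hz.2.2.1), hs_ywz.1.trans (add_le_add (add_le_add hy.2.1 hw.2.2.1) hz.2.1), hs_ywz.1.trans (add_le_add (add_le_add hy.2.1 hw.2.2.1) hz.2.2.1), hs_ywz.1.trans (add_le_add (add_le_add hy.2.2.1 hw.2.1) hz.2.1), hs_ywz.1.trans (add_le_add (add_le_add hy.2.2.1 hw.2.1) hz.2.2.1), hs_ywz.1.trans (add_le_add (add_le_add hy.2.2.1 hw.2.2.1) hz.2.1), hs_ywz.1.trans (add_le_add (add_le_add hy.2.2.1 hw.2.2.1) hz.2.2.1), hs_ywz.2.1.trans (add_le_add (add_le_add hy.2.2.2.1 hw.2.2.2.1) hz.2.2.2.1), hs_ywz.2.2.trans (add_le_add (add_le_add hy.2.2.2.2 hw.2.2.2.2) hz.2.2.2.2.1), hs_ywz.2.2.trans (add_le_add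 (add_le_add hy.2.2.2.2 hw.2.2.2.2) hz.2.2.2.2.2)⟩ ).elim
  · exact (P1_AAB_S2_S3_M23 n1 n2 n3 A1 A2 A3 B1 B2 B3 hb hp ⟨hz.1, hw.1, hy.1⟩ ⟨hs_ywz.1.trans (add_le_add (add_le_add hy.2.1 hw.2.1) hz.2.1), hs_ywz.1.trans (add_le_add (add_le_add hy.2.1 hw.2.1) hz.2.2.1), hs_ywz.1.trans (add_le_add (add_le_add hy.2.1 hw.2.2.1) hz.2.1), hs_ywz.1.trans (add_le_add (add_le_add hy.2.1 hw.2.2.1) hz.2.2.1), hs_ywz.1.trans (add_le_add (add_le_add hy.2.2.1 hw.2.1) hz.2.1), hs_ywz.1.trans (add_le_add (add_le_add hy.2.2.1 hw.2.1) hz.2.2.1), hs_ywz.1.trans (add_le_add (add_le_add hy.2.2.1 hw.2.2.1) hz.2.1), hs_ywz.1.trans (add_le_add (add_le_add hy.2.2.1 hw.2.2.1) hz.2.2.1), hs_ywz.2.1.trans (add_le_add (add_le_add hy.2.2.2.1 hw.2.2.2.1) hz.2.2.2.1), hs_ywz.2.1.trans (add_le_add (add_le_add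 hy.2.2.2.1 hw.2.2.2.2.1) hz.2.2.2.1), hs_ywz.2.2.trans (add_le_add (add_le_add hy.2.2.2.2 hw.2.2.2.2.2) hz.2.2.2.2.1), hs_ywz.2.2.trans (add_le_add (add_le_add hy.2.2.2.2 hw.2.2.2.2.2) hz.2.2.2.2.2)⟩ m_AA_S3_M23 m_AB_S2_S3 m_AB_S2_M13).elim
  · exact (P1_AAB_S2_M13_M23 n1 n2 n3 A1 A2 A3 B1 B2 B3 hb hp ⟨hw.1, hz.1, hy.1⟩ ⟨hs_ywz.1.trans (add_le_add (add_le_add hy.2.1 hw.2.1) hz.2.1), hs_ywz.1.trans (add_le_add (add_le_add hy.2.1 hw.2.1) hz.2.2.1), hs_ywz.1.trans (add_le_add (add_le_add hy.2.2.1 hw.2.1) hz.2.1), hs_ywz.1.trans (add_le_add (add_le_add hy.2.2.1 hw.2.1) hz.2.2.1), hs_ywz.2.1.trans (add_le_add (add_le_add hy.2.2.2.1 hw.2.2.1) hz.2.2.2.1), hs_ywz.2.1.trans (add_le_add (add_le_add hy.2.2.2.1 hw.2.2.2.1) hz.2.2.2.1), hs_ywz.2.2.trans (add_le_add (add_le_add hy.2.2.2.2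 hw.2.2.2.2.1) hz.2.2.2.2.1), hs_ywz.2.2.trans (add_le_add (add_le_add hy.2.2.2.2 hw.2.2.2.2.1) hz.2.2.2.2.2), hs_ywz.2.2.trans (add_le_add (add_le_add hy.2.2.2.2 hw.2.2.2.2.2) hz.2.2.2.2.1), hs_ywz.2.2.trans (add_le_add (add_le_add hy.2.2.2.2 hw.2.2.2.2.2) hz.2.2.2.2.2)⟩ m_AA_M13_M23 m_AB_S2_M13).elim
  · exact (P1_AAB_S2_M23_M23 n1 n2 n3 A1 A2 A3 B1 B2 B3 hb hp ⟨hz.1, hy.1⟩ ⟨hs.1.trans (add_le_add (add_le_add hy.2.1 hz.2.1) hw.2.1), hs.1.trans (add_le_add (add_le_add hy.2.1 hz.2.1) hw.2.2.1), hs.1.trans (add_le_add (add_le_add hy.2.1 hz.2.2.1) hw.2.1), hs.1.trans (add_le_add (add_le_add hy.2.1 hz.2.2.1) hw.2.2.1), hs.1.trans (add_le_add (add_le_add hy.2.2.1 hz.2.1) hw.2.1), hs.1.trans (add_le_add (add_le_add hy.2.2.1 hz.2.1) hw.2.2.1), hs.1.trans (add_le_add (add_le_add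 hy.2.2.1 hz.2.2.1) hw.2.1), hs.1.trans (add_le_add (add_le_add hy.2.2.1 hz.2.2.1) hw.2.2.1), hs.2.1.trans (add_le_add (add_le_add hy.2.2.2.1 hz.2.2.2.1) hw.2.2.2.1), hs.2.2.trans (add_le_add (add_le_add hy.2.2.2.2 hz.2.2.2.2.1) hw.2.2.2.2.1), hs.2.2.trans (add_le_add (add_le_add hy.2.2.2.2 hz.2.2.2.2.1) hw.2.2.2.2.2), hs.2.2.trans (add_le_add (add_le_add hy.2.2.2.2 hz.2.2.2.2.2) hw.2.2.2.2.1), hs.2.2.trans (add_le_add (add_le_add hy.2.2.2.2 hz.2.2.2.2.2) hw.2.2.2.2.2)⟩ ).elim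
  · exact (P1_AAB_S1_S1_S3 n1 n2 n3 A1 A2 A3 B1 B2 B3 hb hp ⟨hy.1, hz.1⟩ ⟨hs_zwy.1.trans (add_le_add (add_le_add hz.2.1 hw.2.1) hy.2.1), hs_zwy.1.trans (add_le_add (add_le_add hz.2.1 hw.2.1) hy.2.2.1), hs_zwy.2.1.trans (add_le_add (add_le_add hz.2.2.1 hw.2.2.1) hy.2.2.2.1), hs_zwy.2.1.trans (add_le_add (add_le_add hz.2.2.1 hw.2.2.1) hy.2.2.2.2.1), hs_zwy.2.2.trans (add_le_add (add_le_add hz.2.2.2 hw.2.2.2) hy.2.2.2.2.2)⟩ m_AA_S1_S3 m_AB_S1_S3).elim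
  · exact (P1_AAB_S1_S2_S3 n1 n2 n3 A1 A2 A3 B1 B2 B3 hb hp ⟨hy.1, hz.1, hw.1⟩ ⟨hs_zwy.1.trans (add_le_add (add_le_add hz.2.1 hw.2.1) hy.2.1), hs_zwy.1.trans (add_le_add (add_le_add hz.2.1 hw.2.1) hy.2.2.1), hs_zwy.1.trans (add_le_add (add_le_add hz.2.1 hw.2.2.1) hy.2.1), hs_zwy.1.trans (add_le_add (add_le_add hz.2.1 hw.2.2.1) hy.2.2.1), hs_zwy.2.1.trans (add_le_add (add_le_add hz.2.2.1 hw.2.2.2.1) hy.2.2.2.1), hs_zwy.2.1.trans (add_le_add (add_le_add hz.2.2.1 hw.2.2.2.1) hy.2.2.2.2.1), hs_zwy.2.2.trans (add_le_add (add_le_add hz.2.2.2 hw.2.2.2.2) hy.2.2.2.2.2)⟩ m_AA_S2_S3 m_AB_S1_S3).elim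
  · exact (P1_AAB_S1_S3_S3 n1 n2 n3 A1 A2 A3 B1 B2 B3 hb hp ⟨hy.1, hz.1⟩ ⟨hs_zyw.1.trans (add_le_add (add_le_add hz.2.1 hy.2.1) hw.2.1), hs_zyw.1.trans (add_le_add (add_le_add hz.2.1 hy.2.1) hw.2.2.1), hs_zyw.1.trans (add_le_add (add_le_add hz.2.1 hy.2.2.1) hw.2.1), hs_zyw.1.trans (add_le_add (add_le_add hz.2.1 hy.2.2.1) hw.2.2.1), hs_zyw.2.1.trans (add_le_add (add_le_add hz.2.2.1 hy.2.2.2.1) hw.2.2.2.1), hs_zyw.2.1.trans (add_le_add (add_le_add hz.2.2.1 hy.2.2.2.1) hw.2.2.2.2.1), hs_zyw.2.1.trans (add_le_add (add_le_add hz.2.2.1 hy.2.2.2.2.1) hw.2.2.2.1), hs_zyw.2.1.trans (add_le_add (add_le_add hz.2.2.1 hy.2.2.2.2.1) hw.2.2.2.2.1), hs_zyw.2.2.trans (add_le_add (add_le_add hz.2.2.2 hy.2.2.2.2.2) hw.2.2.2.2.2)⟩ m_AB_S1_S3).elim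
  · exact (P1_AAB_S1_S3_M13 n1 n2 n3 A1 A2 A3 B1 B2 B3 hb hp ⟨hw.1, hy.1, hz.1⟩ ⟨hs_zyw.1.trans (add_le_add (add_le_add hz.2.1 hy.2.1) hw.2.1), hs_zyw.1.trans (add_le_add (add_le_add hz.2.1 hy.2.2.1) hw.2.1), hs_zyw.2.1.trans (add_le_add (add_le_add hz.2.2.1 hy.2.2.2.1) hw.2.2.1), hs_zyw.2.1.trans (add_le_add (add_le_add hz.2.2.1 hy.2.2.2.1) hw.2.2.2.1), hs_zyw.2.1.trans (add_le_add (add_le_add hz.2.2.1 hy.2.2.2.2.1) hw.2.2.1), hs_zyw.2.1.trans (add_le_add (add_le_add hz.2.2.1 hy.2.2.2.2.1) hw.2.2.2.1), hs_zyw.2.2.trans (add_le_add (add_le_add hz.2.2.2 hy.2.2.2.2.2) hw.2.2.2.2.1), hs_zyw.2.2.trans (add_le_add (add_le_add hz.2.2.2 hy.2.2.2.2.2) hw.2.2.2.2.2)⟩ m_AB_S1_S3 m_AA_S3_M13 m_AA_M13_M23).elim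
  · exact (P1_AAB_S1_S3_M23 n1 n2 n3 A1 A2 A3 B1 B2 B3 hb hp ⟨hw.1, hy.1, hz.1⟩ ⟨hs_zyw.1.trans (add_le_add (add_le_add hz.2.1 hy.2.1) hw.2.1), hs_zyw.1.trans (add_le_add (add_le_add hz.2.1 hy.2.1) hw.2.2.1), hs_zyw.1.trans (add_le_add (add_le_add hz.2.1 hy.2.2.1) hw.2.1), hs_zyw.1.trans (add_le_add (add_le_add hz.2.1 hy.2.2.1) hw.2.2.1), hs_zyw.2.1.trans (add_le_add (add_le_add hz.2.2.1 hy.2.2.2.1) hw.2.2.2.1), hs_zyw.2.1.trans (add_le_add (add_le_add hz.2.2.1 hy.2.2.2.2.1) hw.2.2.2.1), hs_zyw.2.2.trans (add_le_add (add_le_add hz.2.2.2 hy.2.2.2.2.2) hw.2.2.2.2.1), hs_zyw.2.2.trans (add_le_add (add_le_add hz.2.2.2 hy.2.2.2.2.2) hw.2.2.2.2.2)⟩ m_AB_S1_S3 m_AA_S3_M13).elim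
  · exact (P1_AAB_S1_S2_S3 n1 n2 n3 A1 A2 A3 B1 B2 B3 hb hp ⟨hy.1, hw.1, hz.1⟩ ⟨hs_wzy.1.trans (add_le_add (add_le_add hw.2.1 hz.2.1) hy.2.1), hs_wzy.1.trans (add_le_add (add_le_add hw.2.1 hz.2.1) hy.2.2.1), hs_wzy.1.trans (add_le_add (add_le_add hw.2.1 hz.2.2.1) hy.2.1), hs_wzy.1.trans (add_le_add (add_le_add hw.2.1 hz.2.2.1) hy.2.2.1), hs_wzy.2.1.trans (add_le_add (add_le_add hw.2.2.1 hz.2.2.2.1) hy.2.2.2.1), hs_wzy.2.1.trans (add_le_add (add_le_add hw.2.2.1 hz.2.2.2.1) hy.2.2.2.2.1), hs_wzy.2.2.trans (add_le_add (add_le_add hw.2.2.2 hz.2.2.2.2) hy.2.2.2.2.2)⟩ m_AA_S2_S3 m_AB_S1_S3).elim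
  · exact (P1_AAB_S2_S2_S3 n1 n2 n3 A1 A2 A3 B1 B2 B3 hb hp ⟨hy.1, hz.1⟩ ⟨hs_zwy.1.trans (add_le_add (add_le_add hz.2.1 hw.2.1) hy.2.1), hs_zwy.1.trans (add_le_add (add_le_add hz.2.1 hw.2.1) hy.2.2.1), hs_zwy.1.trans (add_le_add (add_le_add hz.2.1 hw.2.2.1) hy.2.1), hs_zwy.1.trans (add_le_add (add_le_add hz.2.1 hw.2.2.1) hy.2.2.1), hs_zwy.1.trans (add_le_add (add_le_add hz.2.2.1 hw.2.1) hy.2.1), hs_zwy.1.trans (add_le_add (add_le_add hz.2.2.1 hw.2.1) hy.2.2.1), hs_zwy.1.trans (add_le_add (add_le_add hz.2.2.1 hw.2.2.1) hy.2.1), hs_zwy.1.trans (add_le_add (add_le_add hz.2.2.1 hw.2.2.1) hy.2.2.1), hs_zwy.2.1.trans (add_le_add (add_le_add hz.2.2.2.1 hw.2.2.2.1) hy.2.2.2.1), hs_zwy.2.1.trans (add_le_add (add_le_add hz.2.2.2.1 hw.2.2.2.1) hy.2.2.2.2.1), hs_zwy.2.2.trans (add_le_add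 (add_le_add hz.2.2.2.2 hw.2.2.2.2) hy.2.2.2.2.2)⟩ m_AA_S2_S3 m_AB_S2_M13).elim
  · exact (P1_AAB_S2_S3_S3 n1 n2 n3 A1 A2 A3 B1 B2 B3 hb hp ⟨hy.1, hz.1⟩ ⟨hs_zyw.1.trans (add_le_add (add_le_add hz.2.1 hy.2.1) hw.2.1), hs_zyw.1.trans (add_le_add (add_le_add hz.2.1 hy.2.1) hw.2.2.1), hs_zyw.1.trans (add_le_add (add_le_add hz.2.1 hy.2.2.1) hw.2.1), hs_zyw.1.trans (add_le_add (add_le_add hz.2.1 hy.2.2.1) hw.2.2.1), hs_zyw.1.trans (add_le_add (add_le_add hz.2.2.1 hy.2.1) hw.2.1), hs_zyw.1.trans (add_le_add (add_le_add hz.2.2.1 hy.2.1) hw.2.2.1), hs_zyw.1.trans (add_le_add (add_le_add hz.2.2.1 hy.2.2.1) hw.2.1), hs_zyw.1.trans (add_le_add (add_le_add hz.2.2.1 hy.2.2.1) hw.2.2.1), hs_zyw.2.1.trans (add_le_add (add_le_add hz.2.2.2.1 hy.2.2.2.1) hw.2.2.2.1), hs_zyw.2.1.trans (add_le_add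 (add_le_add hz.2.2.2.1 hy.2.2.2.1) hw.2.2.2.2.1), hs_zyw.2.1.trans (add_le_add (add_le_add hz.2.2.2.1 hy.2.2.2.2.1) hw.2.2.2.1), hs_zyw.2.1.trans (add_le_add (add_le_add hz.2.2.2.1 hy.2.2.2.2.1) hw.2.2.2.2.1), hs_zyw.2.2.trans (add_le_add (add_le_add hz.2.2.2.2 hy.2.2.2.2.2) hw.2.2.2.2.2)⟩ m_AB_S2_S3).elim
  · exact (P1_AAB_S2_S3_M13 n1 n2 n3 A1 A2 A3 B1 B2 B3 hb hp ⟨hw.1, hy.1, hz.1⟩ ⟨hs_zyw.1.trans (add_le_add (add_le_add hz.2.1 hy.2.1) hw.2.1), hs_zyw.1.trans (add_le_add (add_le_add hz.2.1 hy.2.2.1) hw.2.1), hs_zyw.1.trans (add_le_add (add_le_add hz.2.2.1 hy.2.1) hw.2.1), hs_zyw.1.trans (add_le_add (add_le_add hz.2.2.1 hy.2.2.1) hw.2.1), hs_zyw.2.1.trans (add_le_add (add_le_add hz.2.2.2.1 hy.2.2.2.1) hw.2.2.1), hs_zyw.2.1.trans (add_le_add (add_le_add hz.2.2.2.1 hy.2.2.2.1)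 hw.2.2.2.1), hs_zyw.2.1.trans (add_le_add (add_le_add hz.2.2.2.1 hy.2.2.2.2.1) hw.2.2.1), hs_zyw.2.1.trans (add_le_add (add_le_add hz.2.2.2.1 hy.2.2.2.2.1) hw.2.2.2.1), hs_zyw.2.2.trans (add_le_add (add_le_add hz.2.2.2.2 hy.2.2.2.2.2) hw.2.2.2.2.1), hs_zyw.2.2.trans (add_le_add (add_le_add hz.2.2.2.2 hy.2.2.2.2.2) hw.2.2.2.2.2)⟩ m_BB_S2_M13 m_AA_S2_S3 m_AB_M13_M23 m_AA_S1_S3).elim
  · exact (P1_AAB_S2_S3_M23 n1 n2 n3 A1 A2 A3 B1 B2 B3 hb hp ⟨hw.1, hy.1, hz.1⟩ ⟨hs_zyw.1.trans (add_le_add (add_le_add hz.2.1 hy.2.1) hw.2.1), hs_zyw.1.trans (add_le_add (add_le_add hz.2.1 hy.2.1) hw.2.2.1), hs_zyw.1.trans (add_le_add (add_le_add hz.2.1 hy.2.2.1) hw.2.1), hs_zyw.1.trans (add_le_add (add_le_add hz.2.1 hy.2.2.1) hw.2.2.1), hs_zyw.1.trans (add_le_add (add_le_add hz.2.2.1 hy.2.1)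 hw.2.1), hs_zyw.1.trans (add_le_add (add_le_add hz.2.2.1 hy.2.1) hw.2.2.1), hs_zyw.1.trans (add_le_add (add_le_add hz.2.2.1 hy.2.2.1) hw.2.1), hs_zyw.1.trans (add_le_add (add_le_add hz.2.2.1 hy.2.2.1) hw.2.2.1), hs_zyw.2.1.trans (add_le_add (add_le_add hz.2.2.2.1 hy.2.2.2.1) hw.2.2.2.1), hs_zyw.2.1.trans (add_le_add (add_le_add hz.2.2.2.1 hy.2.2.2.2.1) hw.2.2.2.1), hs_zyw.2.2.trans (add_le_add (add_le_add hz.2.2.2.2 hy.2.2.2.2.2) hw.2.2.2.2.1), hs_zyw.2.2.trans (add_le_add (add_le_add hz.2.2.2.2 hy.2.2.2.2.2) hw.2.2.2.2.2)⟩ m_AA_S3_M23 m_AB_S2_S3 m_AB_S2_M13).elim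
  · exact (P1_AAB_S1_S3_S3 n1 n2 n3 A1 A2 A3 B1 B2 B3 hb hp ⟨hy.1, hw.1⟩ ⟨hs_wyz.1.trans (add_le_add (add_le_add hw.2.1 hy.2.1) hz.2.1), hs_wyz.1.trans (add_le_add (add_le_add hw.2.1 hy.2.1) hz.2.2.1), hs_wyz.1.trans (add_le_add (add_le_add hw.2.1 hy.2.2.1) hz.2.1), hs_wyz.1.trans (add_le_add (add_le_add hw.2.1 hy.2.2.1) hz.2.2.1), hs_wyz.2.1.trans (add_le_add (add_le_add hw.2.2.1 hy.2.2.2.1) hz.2.2.2.1), hs_wyz.2.1.trans (add_le_add (add_le_add hw.2.2.1 hy.2.2.2.1) hz.2.2.2.2.1), hs_wyz.2.1.trans (add_le_add (add_le_add hw.2.2.1 hy.2.2.2.2.1) hz.2.2.2.1), hs_wyz.2.1.trans (add_le_add (add_le_add hw.2.2.1 hy.2.2.2.2.1) hz.2.2.2.2.1), hs_wyz.2.2.trans (add_le_add (add_le_add hw.2.2.2 hy.2.2.2.2.2) hz.2.2.2.2.2)⟩ m_AB_S1_S3).elim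
  · exact (P1_AAB_S2_S3_S3 n1 n2 n3 A1 A2 A3 B1 B2 B3 hb hp ⟨hy.1, hw.1⟩ ⟨hs_wyz.1.trans (add_le_add (add_le_add hw.2.1 hy.2.1) hz.2.1), hs_wyz.1.trans (add_le_add (add_le_add hw.2.1 hy.2.1) hz.2.2.1), hs_wyz.1.trans (add_le_add (add_le_add hw.2.1 hy.2.2.1) hz.2.1), hs_wyz.1.trans (add_le_add (add_le_add hw.2.1 hy.2.2.1) hz.2.2.1), hs_wyz.1.trans (add_le_add (add_le_add hw.2.2.1 hy.2.1) hz.2.1), hs_wyz.1.trans (add_le_add (add_le_add hw.2.2.1 hy.2.1) hz.2.2.1), hs_wyz.1.trans (add_le_add (add_le_add hw.2.2.1 hy.2.2.1) hz.2.1), hs_wyz.1.trans (add_le_add (add_le_add hw.2.2.1 hy.2.2.1) hz.2.2.1), hs_wyz.2.1.trans (add_le_add (add_le_add hw.2.2.2.1 hy.2.2.2.1) hz.2.2.2.1), hs_wyz.2.1.trans (add_le_add (add_le_add hw.2.2.2.1 hy.2.2.2.1) hz.2.2.2.2.1), hs_wyz.2.1.trans (add_le_add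 (add_le_add hw.2.2.2.1 hy.2.2.2.2.1) hz.2.2.2.1), hs_wyz.2.1.trans (add_le_add (add_le_add hw.2.2.2.1 hy.2.2.2.2.1) hz.2.2.2.2.1), hs_wyz.2.2.trans (add_le_add (add_le_add hw.2.2.2.2 hy.2.2.2.2.2) hz.2.2.2.2.2)⟩ m_AB_S2_S3).elim
  · exact (P1_AAB_S3_S3_S3 n1 n2 n3 A1 A2 A3 B1 B2 B3 hb hp hy.1 ⟨hs.1.trans (add_le_add (add_le_add hy.2.1 hz.2.1) hw.2.1), hs.1.trans (add_le_add (add_le_add hy.2.1 hz.2.1) hw.2.2.1), hs.1.trans (add_le_add (add_le_add hy.2.1 hz.2.2.1) hw.2.1), hs.1.trans (add_le_add (add_le_add hy.2.1 hz.2.2.1) hw.2.2.1), hs.1.trans (add_le_add (add_le_add hy.2.2.1 hz.2.1) hw.2.1), hs.1.trans (add_le_add (add_le_add hy.2.2.1 hz.2.1) hw.2.2.1), hs.1.trans (add_le_add (add_le_add hy.2.2.1 hz.2.2.1) hw.2.1), hs.1.trans (add_le_add (add_le_add hy.2.2.1 hz.2.2.1)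 hw.2.2.1), hs.2.1.trans (add_le_add (add_le_add hy.2.2.2.1 hz.2.2.2.1) hw.2.2.2.1), hs.2.1.trans (add_le_add (add_le_add hy.2.2.2.1 hz.2.2.2.1) hw.2.2.2.2.1), hs.2.1.trans (add_le_add (add_le_add hy.2.2.2.1 hz.2.2.2.2.1) hw.2.2.2.1), hs.2.1.trans (add_le_add (add_le_add hy.2.2.2.1 hz.2.2.2.2.1) hw.2.2.2.2.1), hs.2.1.trans (add_le_add (add_le_add hy.2.2.2.2.1 hz.2.2.2.1) hw.2.2.2.1), hs.2.1.trans (add_le_add (add_le_add hy.2.2.2.2.1 hz.2.2.2.1) hw.2.2.2.2.1), hs.2.1.trans (add_le_add (add_le_add hy.2.2.2.2.1 hz.2.2.2.2.1) hw.2.2.2.1), hs.2.1.trans (add_le_add (add_le_add hy.2.2.2.2.1 hz.2.2.2.2.1) hw.2.2.2.2.1), hs.2.2.trans (add_le_add (add_le_add hy.2.2.2.2.2 hz.2.2.2.2.2) hw.2.2.2.2.2)⟩ ).elim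
  · exact (P1_AAB_S3_S3_M13 n1 n2 n3 A1 A2 A3 B1 B2 B3 hb hp ⟨hw.1, hy.1⟩ ⟨hs.1.trans (add_le_add (add_le_add hy.2.1 hz.2.1) hw.2.1), hs.1.trans (add_le_add (add_le_add hy.2.1 hz.2.2.1) hw.2.1), hs.1.trans (add_le_add (add_le_add hy.2.2.1 hz.2.1) hw.2.1), hs.1.trans (add_le_add (add_le_add hy.2.2.1 hz.2.2.1) hw.2.1), hs.2.1.trans (add_le_add (add_le_add hy.2.2.2.1 hz.2.2.2.1) hw.2.2.1), hs.2.1.trans (add_le_add (add_le_add hy.2.2.2.1 hz.2.2.2.1) hw.2.2.2.1), hs.2.1.trans (add_le_add (add_le_add hy.2.2.2.1 hz.2.2.2.2.1) hw.2.2.1), hs.2.1.trans (add_le_add (add_le_add hy.2.2.2.1 hz.2.2.2.2.1) hw.2.2.2.1), hs.2.1.trans (add_le_add (add_le_add hy.2.2.2.2.1 hz.2.2.2.1) hw.2.2.1), hs.2.1.trans (add_le_add (add_le_add hy.2.2.2.2.1 hz.2.2.2.1) hw.2.2.2.1), hs.2.1.trans (add_le_add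 (add_le_add hy.2.2.2.2.1 hz.2.2.2.2.1) hw.2.2.1), hs.2.1.trans (add_le_add (add_le_add hy.2.2.2.2.1 hz.2.2.2.2.1) hw.2.2.2.1), hs.2.2.trans (add_le_add (add_le_add hy.2.2.2.2.2 hz.2.2.2.2.2) hw.2.2.2.2.1), hs.2.2.trans (add_le_add (add_le_add hy.2.2.2.2.2 hz.2.2.2.2.2) hw.2.2.2.2.2)⟩ ).elim
  · exact (P1_AAB_S3_S3_M23 n1 n2 n3 A1 A2 A3 B1 B2 B3 hb hp ⟨hw.1, hy.1⟩ ⟨hs.1.trans (add_le_add (add_le_add hy.2.1 hz.2.1) hw.2.1), hs.1.trans (add_le_add (add_le_add hy.2.1 hz.2.1) hw.2.2.1), hs.1.trans (add_le_add (add_le_add hy.2.1 hz.2.2.1) hw.2.1), hs.1.trans (add_le_add (add_le_add hy.2.1 hz.2.2.1) hw.2.2.1), hs.1.trans (add_le_add (add_le_add hy.2.2.1 hz.2.1) hw.2.1), hs.1.trans (add_le_add (add_le_add hy.2.2.1 hz.2.1) hw.2.2.1), hs.1.trans (add_le_add (add_le_add hy.2.2.1 hz.2.2.1)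 hw.2.1), hs.1.trans (add_le_add (add_le_add hy.2.2.1 hz.2.2.1) hw.2.2.1), hs.2.1.trans (add_le_add (add_le_add hy.2.2.2.1 hz.2.2.2.1) hw.2.2.2.1), hs.2.1.trans (add_le_add (add_le_add hy.2.2.2.1 hz.2.2.2.2.1) hw.2.2.2.1), hs.2.1.trans (add_le_add (add_le_add hy.2.2.2.2.1 hz.2.2.2.1) hw.2.2.2.1), hs.2.1.trans (add_le_add (add_le_add hy.2.2.2.2.1 hz.2.2.2.2.1) hw.2.2.2.1), hs.2.2.trans (add_le_add (add_le_add hy.2.2.2.2.2 hz.2.2.2.2.2) hw.2.2.2.2.1), hs.2.2.trans (add_le_add (add_le_add hy.2.2.2.2.2 hz.2.2.2.2.2) hw.2.2.2.2.2)⟩ ).elim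
  · exact (P1_AAB_S1_S3_M13 n1 n2 n3 A1 A2 A3 B1 B2 B3 hb hp ⟨hz.1, hy.1, hw.1⟩ ⟨hs_wyz.1.trans (add_le_add (add_le_add hw.2.1 hy.2.1) hz.2.1), hs_wyz.1.trans (add_le_add (add_le_add hw.2.1 hy.2.2.1) hz.2.1), hs_wyz.2.1.trans (add_le_add (add_le_add hw.2.2.1 hy.2.2.2.1) hz.2.2.1), hs_wyz.2.1.trans (add_le_add (add_le_add hw.2.2.1 hy.2.2.2.1) hz.2.2.2.1), hs_wyz.2.1.trans (add_le_add (add_le_add hw.2.2.1 hy.2.2.2.2.1) hz.2.2.1), hs_wyz.2.1.trans (add_le_add (add_le_add hw.2.2.1 hy.2.2.2.2.1) hz.2.2.2.1), hs_wyz.2.2.trans (add_le_add (add_le_add hw.2.2.2 hy.2.2.2.2.2) hz.2.2.2.2.1), hs_wyz.2.2.trans (add_le_add (add_le_add hw.2.2.2 hy.2.2.2.2.2) hz.2.2.2.2.2)⟩ m_AB_S1_S3 m_AA_S3_M13 m_AA_M13_M23).elim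
  · exact (P1_AAB_S2_S3_M13 n1 n2 n3 A1 A2 A3 B1 B2 B3 hb hp ⟨hz.1, hy.1, hw.1⟩ ⟨hs_wyz.1.trans (add_le_add (add_le_add hw.2.1 hy.2.1) hz.2.1), hs_wyz.1.trans (add_le_add (add_le_add hw.2.1 hy.2.2.1) hz.2.1), hs_wyz.1.trans (add_le_add (add_le_add hw.2.2.1 hy.2.1) hz.2.1), hs_wyz.1.trans (add_le_add (add_le_add hw.2.2.1 hy.2.2.1) hz.2.1), hs_wyz.2.1.trans (add_le_add (add_le_add hw.2.2.2.1 hy.2.2.2.1) hz.2.2.1), hs_wyz.2.1.trans (add_le_add (add_le_add hw.2.2.2.1 hy.2.2.2.1) hz.2.2.2.1), hs_wyz.2.1.trans (add_le_add (add_le_add hw.2.2.2.1 hy.2.2.2.2.1) hz.2.2.1), hs_wyz.2.1.trans (add_le_add (add_le_add hw.2.2.2.1 hy.2.2.2.2.1) hz.2.2.2.1), hs_wyz.2.2.trans (add_le_add (add_le_add hw.2.2.2.2 hy.2.2.2.2.2) hz.2.2.2.2.1), hs_wyz.2.2.trans (add_le_add (add_le_add hw.2.2.2.2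 hy.2.2.2.2.2) hz.2.2.2.2.2)⟩ m_BB_S2_M13 m_AA_S2_S3 m_AB_M13_M23 m_AA_S1_S3).elim
  · exact (P1_AAB_S3_S3_M13 n1 n2 n3 A1 A2 A3 B1 B2 B3 hb hp ⟨hz.1, hy.1⟩ ⟨hs_ywz.1.trans (add_le_add (add_le_add hy.2.1 hw.2.1) hz.2.1), hs_ywz.1.trans (add_le_add (add_le_add hy.2.1 hw.2.2.1) hz.2.1), hs_ywz.1.trans (add_le_add (add_le_add hy.2.2.1 hw.2.1) hz.2.1), hs_ywz.1.trans (add_le_add (add_le_add hy.2.2.1 hw.2.2.1) hz.2.1), hs_ywz.2.1.trans (add_le_add (add_le_add hy.2.2.2.1 hw.2.2.2.1) hz.2.2.1), hs_ywz.2.1.trans (add_le_add (add_le_add hy.2.2.2.1 hw.2.2.2.1) hz.2.2.2.1), hs_ywz.2.1.trans (add_le_add (add_le_add hy.2.2.2.1 hw.2.2.2.2.1) hz.2.2.1), hs_ywz.2.1.trans (add_le_add (add_le_add hy.2.2.2.1 hw.2.2.2.2.1) hz.2.2.2.1), hs_ywz.2.1.trans (add_le_add (add_le_add hy.2.2.2.2.1 hw.2.2.2.1)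 hz.2.2.1), hs_ywz.2.1.trans (add_le_add (add_le_add hy.2.2.2.2.1 hw.2.2.2.1) hz.2.2.2.1), hs_ywz.2.1.trans (add_le_add (add_le_add hy.2.2.2.2.1 hw.2.2.2.2.1) hz.2.2.1), hs_ywz.2.1.trans (add_le_add (add_le_add hy.2.2.2.2.1 hw.2.2.2.2.1) hz.2.2.2.1), hs_ywz.2.2.trans (add_le_add (add_le_add hy.2.2.2.2.2 hw.2.2.2.2.2) hz.2.2.2.2.1), hs_ywz.2.2.trans (add_le_add (add_le_add hy.2.2.2.2.2 hw.2.2.2.2.2) hz.2.2.2.2.2)⟩ ).elim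
  · exact (P1_AAB_S3_M13_M13 n1 n2 n3 A1 A2 A3 B1 B2 B3 hb hp ⟨hz.1, hy.1⟩ ⟨hs.1.trans (add_le_add (add_le_add hy.2.1 hz.2.1) hw.2.1), hs.1.trans (add_le_add (add_le_add hy.2.2.1 hz.2.1) hw.2.1), hs.2.1.trans (add_le_add (add_le_add hy.2.2.2.1 hz.2.2.1) hw.2.2.1), hs.2.1.trans (add_le_add (add_le_add hy.2.2.2.1 hz.2.2.1) hw.2.2.2.1), hs.2.1.trans (add_le_add (add_le_add hy.2.2.2.1 hz.2.2.2.1) hw.2.2.1), hs.2.1.trans (add_le_add (add_le_add hy.2.2.2.1 hz.2.2.2.1) hw.2.2.2.1), hs.2.1.trans (add_le_add (add_le_add hy.2.2.2.2.1 hz.2.2.1) hw.2.2.1), hs.2.1.trans (add_le_add (add_le_add hy.2.2.2.2.1 hz.2.2.1) hw.2.2.2.1), hs.2.1.trans (add_le_add (add_le_add hy.2.2.2.2.1 hz.2.2.2.1) hw.2.2.1), hs.2.1.trans (add_le_add (add_le_add hy.2.2.2.2.1 hz.2.2.2.1) hw.2.2.2.1), hs.2.2.trans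 (add_le_add (add_le_add hy.2.2.2.2.2 hz.2.2.2.2.1) hw.2.2.2.2.1), hs.2.2.trans (add_le_add (add_le_add hy.2.2.2.2.2 hz.2.2.2.2.1) hw.2.2.2.2.2), hs.2.2.trans (add_le_add (add_le_add hy.2.2.2.2.2 hz.2.2.2.2.2) hw.2.2.2.2.1), hs.2.2.trans (add_le_add (add_le_add hy.2.2.2.2.2 hz.2.2.2.2.2) hw.2.2.2.2.2)⟩ m_AA_S3_M13 m_AB_M13_M23).elim
  · exact (P1_AAB_S3_M13_M23 n1 n2 n3 A1 A2 A3 B1 B2 B3 hb hp ⟨hz.1, hw.1, hy.1⟩ ⟨hs.1.trans (add_le_add (add_le_add hy.2.1 hz.2.1) hw.2.1), hs.1.trans (add_le_add (add_le_add hy.2.1 hz.2.1) hw.2.2.1), hs.1.trans (add_le_add (add_le_add hy.2.2.1 hz.2.1) hw.2.1), hs.1.trans (add_le_add (add_le_add hy.2.2.1 hz.2.1) hw.2.2.1), hs.2.1.trans (add_le_add (add_le_add hy.2.2.2.1 hz.2.2.1) hw.2.2.2.1), hs.2.1.trans (add_le_add (add_le_add hy.2.2.2.1 hz.2.2.2.1)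 hw.2.2.2.1), hs.2.1.trans (add_le_add (add_le_add hy.2.2.2.2.1 hz.2.2.1) hw.2.2.2.1), hs.2.1.trans (add_le_add (add_le_add hy.2.2.2.2.1 hz.2.2.2.1) hw.2.2.2.1), hs.2.2.trans (add_le_add (add_le_add hy.2.2.2.2.2 hz.2.2.2.2.1) hw.2.2.2.2.1), hs.2.2.trans (add_le_add (add_le_add hy.2.2.2.2.2 hz.2.2.2.2.1) hw.2.2.2.2.2), hs.2.2.trans (add_le_add (add_le_add hy.2.2.2.2.2 hz.2.2.2.2.2) hw.2.2.2.2.1), hs.2.2.trans (add_le_add (add_le_add hy.2.2.2.2.2 hz.2.2.2.2.2) hw.2.2.2.2.2)⟩ m_AB_M13_M23 m_AA_S2_S3 m_AA_S1_S3).elim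
  · exact (P1_AAB_S1_S3_M23 n1 n2 n3 A1 A2 A3 B1 B2 B3 hb hp ⟨hz.1, hy.1, hw.1⟩ ⟨hs_wyz.1.trans (add_le_add (add_le_add hw.2.1 hy.2.1) hz.2.1), hs_wyz.1.trans (add_le_add (add_le_add hw.2.1 hy.2.1) hz.2.2.1), hs_wyz.1.trans (add_le_add (add_le_add hw.2.1 hy.2.2.1) hz.2.1), hs_wyz.1.trans (add_le_add (add_le_add hw.2.1 hy.2.2.1) hz.2.2.1), hs_wyz.2.1.trans (add_le_add (add_le_add hw.2.2.1 hy.2.2.2.1) hz.2.2.2.1), hs_wyz.2.1.trans (add_le_add (add_le_add hw.2.2.1 hy.2.2.2.2.1) hz.2.2.2.1), hs_wyz.2.2.trans (add_le_add (add_le_add hw.2.2.2 hy.2.2.2.2.2) hz.2.2.2.2.1), hs_wyz.2.2.trans (add_le_add (add_le_add hw.2.2.2 hy.2.2.2.2.2) hz.2.2.2.2.2)⟩ m_AB_S1_S3 m_AA_S3_M13).elim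
  · exact (P1_AAB_S2_S3_M23 n1 n2 n3 A1 A2 A3 B1 B2 B3 hb hp ⟨hz.1, hy.1, hw.1⟩ ⟨hs_wyz.1.trans (add_le_add (add_le_add hw.2.1 hy.2.1) hz.2.1), hs_wyz.1.trans (add_le_add (add_le_add hw.2.1 hy.2.1) hz.2.2.1), hs_wyz.1.trans (add_le_add (add_le_add hw.2.1 hy.2.2.1) hz.2.1), hs_wyz.1.trans (add_le_add (add_le_add hw.2.1 hy.2.2.1) hz.2.2.1), hs_wyz.1.trans (add_le_add (add_le_add hw.2.2.1 hy.2.1) hz.2.1), hs_wyz.1.trans (add_le_add (add_le_add hw.2.2.1 hy.2.1) hz.2.2.1), hs_wyz.1.trans (add_le_add (add_le_add hw.2.2.1 hy.2.2.1) hz.2.1), hs_wyz.1.trans (add_le_add (add_le_add hw.2.2.1 hy.2.2.1) hz.2.2.1), hs_wyz.2.1.trans (add_le_add (add_le_add hw.2.2.2.1 hy.2.2.2.1) hz.2.2.2.1), hs_wyz.2.1.trans (add_le_add (add_le_add hw.2.2.2.1 hy.2.2.2.2.1) hz.2.2.2.1), hs_wyz.2.2.trans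 (add_le_add (add_le_add hw.2.2.2.2 hy.2.2.2.2.2) hz.2.2.2.2.1), hs_wyz.2.2.trans (add_le_add (add_le_add hw.2.2.2.2 hy.2.2.2.2.2) hz.2.2.2.2.2)⟩ m_AA_S3_M23 m_AB_S2_S3 m_AB_S2_M13).elim
  · exact (P1_AAB_S3_S3_M23 n1 n2 n3 A1 A2 A3 B1 B2 B3 hb hp ⟨hz.1, hy.1⟩ ⟨hs_ywz.1.trans (add_le_add (add_le_add hy.2.1 hw.2.1) hz.2.1), hs_ywz.1.trans (add_le_add (add_le_add hy.2.1 hw.2.1) hz.2.2.1), hs_ywz.1.trans (add_le_add (add_le_add hy.2.1 hw.2.2.1) hz.2.1), hs_ywz.1.trans (add_le_add (add_le_add hy.2.1 hw.2.2.1) hz.2.2.1), hs_ywz.1.trans (add_le_add (add_le_add hy.2.2.1 hw.2.1) hz.2.1), hs_ywz.1.trans (add_le_add (add_le_add hy.2.2.1 hw.2.1) hz.2.2.1), hs_ywz.1.trans (add_le_add (add_le_add hy.2.2.1 hw.2.2.1) hz.2.1), hs_ywz.1.trans (add_le_add (add_le_add hy.2.2.1 hw.2.2.1) hz.2.2.1),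 hs_ywz.2.1.trans (add_le_add (add_le_add hy.2.2.2.1 hw.2.2.2.1) hz.2.2.2.1), hs_ywz.2.1.trans (add_le_add (add_le_add hy.2.2.2.1 hw.2.2.2.2.1) hz.2.2.2.1), hs_ywz.2.1.trans (add_le_add (add_le_add hy.2.2.2.2.1 hw.2.2.2.1) hz.2.2.2.1), hs_ywz.2.1.trans (add_le_add (add_le_add hy.2.2.2.2.1 hw.2.2.2.2.1) hz.2.2.2.1), hs_ywz.2.2.trans (add_le_add (add_le_add hy.2.2.2.2.2 hw.2.2.2.2.2) hz.2.2.2.2.1), hs_ywz.2.2.trans (add_le_add (add_le_add hy.2.2.2.2.2 hw.2.2.2.2.2) hz.2.2.2.2.2)⟩ ).elim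
  · exact (P1_AAB_S3_M13_M23 n1 n2 n3 A1 A2 A3 B1 B2 B3 hb hp ⟨hw.1, hz.1, hy.1⟩ ⟨hs_ywz.1.trans (add_le_add (add_le_add hy.2.1 hw.2.1) hz.2.1), hs_ywz.1.trans (add_le_add (add_le_add hy.2.1 hw.2.1) hz.2.2.1), hs_ywz.1.trans (add_le_add (add_le_add hy.2.2.1 hw.2.1) hz.2.1), hs_ywz.1.trans (add_le_add (add_le_add hy.2.2.1 hw.2.1) hz.2.2.1), hs_ywz.2.1.trans (add_le_add (add_le_add hy.2.2.2.1 hw.2.2.1) hz.2.2.2.1), hs_ywz.2.1.trans (add_le_add (add_le_add hy.2.2.2.1 hw.2.2.2.1) hz.2.2.2.1), hs_ywz.2.1.trans (add_le_add (add_le_add hy.2.2.2.2.1 hw.2.2.1) hz.2.2.2.1), hs_ywz.2.1.trans (add_le_add (add_le_add hy.2.2.2.2.1 hw.2.2.2.1) hz.2.2.2.1), hs_ywz.2.2.trans (add_le_add (add_le_add hy.2.2.2.2.2 hw.2.2.2.2.1) hz.2.2.2.2.1), hs_ywz.2.2.trans (add_le_add (add_le_add hy.2.2.2.2.2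 hw.2.2.2.2.1) hz.2.2.2.2.2), hs_ywz.2.2.trans (add_le_add (add_le_add hy.2.2.2.2.2 hw.2.2.2.2.2) hz.2.2.2.2.1), hs_ywz.2.2.trans (add_le_add (add_le_add hy.2.2.2.2.2 hw.2.2.2.2.2) hz.2.2.2.2.2)⟩ m_AB_M13_M23 m_AA_S2_S3 m_AA_S1_S3).elim
  · exact (P1_AAB_S3_M23_M23 n1 n2 n3 A1 A2 A3 B1 B2 B3 hb hp ⟨hz.1, hy.1⟩ ⟨hs.1.trans (add_le_add (add_le_add hy.2.1 hz.2.1) hw.2.1), hs.1.trans (add_le_add (add_le_add hy.2.1 hz.2.1) hw.2.2.1), hs.1.trans (add_le_add (add_le_add hy.2.1 hz.2.2.1) hw.2.1), hs.1.trans (add_le_add (add_le_add hy.2.1 hz.2.2.1) hw.2.2.1), hs.1.trans (add_le_add (add_le_add hy.2.2.1 hz.2.1) hw.2.1), hs.1.trans (add_le_add (add_le_add hy.2.2.1 hz.2.1) hw.2.2.1), hs.1.trans (add_le_add (add_le_add hy.2.2.1 hz.2.2.1) hw.2.1), hs.1.trans (add_le_add (add_le_add hy.2.2.1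 hz.2.2.1) hw.2.2.1), hs.2.1.trans (add_le_add (add_le_add hy.2.2.2.1 hz.2.2.2.1) hw.2.2.2.1), hs.2.1.trans (add_le_add (add_le_add hy.2.2.2.2.1 hz.2.2.2.1) hw.2.2.2.1), hs.2.2.trans (add_le_add (add_le_add hy.2.2.2.2.2 hz.2.2.2.2.1) hw.2.2.2.2.1), hs.2.2.trans (add_le_add (add_le_add hy.2.2.2.2.2 hz.2.2.2.2.1) hw.2.2.2.2.2), hs.2.2.trans (add_le_add (add_le_add hy.2.2.2.2.2 hz.2.2.2.2.2) hw.2.2.2.2.1), hs.2.2.trans (add_le_add (add_le_add hy.2.2.2.2.2 hz.2.2.2.2.2) hw.2.2.2.2.2)⟩ m_AA_S3_M23 m_AB_M23_M23 m_AB_M13_M13).elim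
  · exact (P1_AAB_S1_S1_M13 n1 n2 n3 A1 A2 A3 B1 B2 B3 hb hp ⟨hy.1, hz.1⟩ ⟨hs_zwy.1.trans (add_le_add (add_le_add hz.2.1 hw.2.1) hy.2.1), hs_zwy.2.1.trans (add_le_add (add_le_add hz.2.2.1 hw.2.2.1) hy.2.2.1), hs_zwy.2.1.trans (add_le_add (add_le_add hz.2.2.1 hw.2.2.1) hy.2.2.2.1), hs_zwy.2.2.trans (add_le_add (add_le_add hz.2.2.2 hw.2.2.2) hy.2.2.2.2.1), hs_zwy.2.2.trans (add_le_add (add_le_add hz.2.2.2 hw.2.2.2) hy.2.2.2.2.2)⟩ ).elim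
  · exact (P1_AAB_S1_S2_M13 n1 n2 n3 A1 A2 A3 B1 B2 B3 hb hp ⟨hy.1, hz.1, hw.1⟩ ⟨hs_zwy.1.trans (add_le_add (add_le_add hz.2.1 hw.2.1) hy.2.1), hs_zwy.1.trans (add_le_add (add_le_add hz.2.1 hw.2.2.1) hy.2.1), hs_zwy.2.1.trans (add_le_add (add_le_add hz.2.2.1 hw.2.2.2.1) hy.2.2.1), hs_zwy.2.1.trans (add_le_add (add_le_add hz.2.2.1 hw.2.2.2.1) hy.2.2.2.1), hs_zwy.2.2.trans (add_le_add (add_le_add hz.2.2.2 hw.2.2.2.2) hy.2.2.2.2.1), hs_zwy.2.2.trans (add_le_add (add_le_add hz.2.2.2 hw.2.2.2.2) hy.2.2.2.2.2)⟩ m_AA_S2_M13 m_AB_S1_S3).elim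
  · exact (P1_AAB_S1_S3_M13 n1 n2 n3 A1 A2 A3 B1 B2 B3 hb hp ⟨hy.1, hw.1, hz.1⟩ ⟨hs_zwy.1.trans (add_le_add (add_le_add hz.2.1 hw.2.1) hy.2.1), hs_zwy.1.trans (add_le_add (add_le_add hz.2.1 hw.2.2.1) hy.2.1), hs_zwy.2.1.trans (add_le_add (add_le_add hz.2.2.1 hw.2.2.2.1) hy.2.2.1), hs_zwy.2.1.trans (add_le_add (add_le_add hz.2.2.1 hw.2.2.2.1) hy.2.2.2.1), hs_zwy.2.1.trans (add_le_add (add_le_add hz.2.2.1 hw.2.2.2.2.1) hy.2.2.1), hs_zwy.2.1.trans (add_le_add (add_le_add hz.2.2.1 hw.2.2.2.2.1) hy.2.2.2.1), hs_zwy.2.2.trans (add_le_add (add_le_add hz.2.2.2 hw.2.2.2.2.2) hy.2.2.2.2.1), hs_zwy.2.2.trans (add_le_add (add_le_add hz.2.2.2 hw.2.2.2.2.2) hy.2.2.2.2.2)⟩ m_AB_S1_S3 m_AA_S3_M13 m_AA_M13_M23).elim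
  · exact (P1_AAB_S1_M13_M13 n1 n2 n3 A1 A2 A3 B1 B2 B3 hb hp ⟨hy.1, hz.1⟩ ⟨hs_zyw.1.trans (add_le_add (add_le_add hz.2.1 hy.2.1) hw.2.1), hs_zyw.2.1.trans (add_le_add (add_le_add hz.2.2.1 hy.2.2.1) hw.2.2.1), hs_zyw.2.1.trans (add_le_add (add_le_add hz.2.2.1 hy.2.2.1) hw.2.2.2.1), hs_zyw.2.1.trans (add_le_add (add_le_add hz.2.2.1 hy.2.2.2.1) hw.2.2.1), hs_zyw.2.1.trans (add_le_add (add_le_add hz.2.2.1 hy.2.2.2.1) hw.2.2.2.1), hs_zyw.2.2.trans (add_le_add (add_le_add hz.2.2.2 hy.2.2.2.2.1) hw.2.2.2.2.1), hs_zyw.2.2.trans (add_le_add (add_le_add hz.2.2.2 hy.2.2.2.2.1) hw.2.2.2.2.2), hs_zyw.2.2.trans (add_le_add (add_le_add hz.2.2.2 hy.2.2.2.2.2) hw.2.2.2.2.1), hs_zyw.2.2.trans (add_le_add (add_le_add hz.2.2.2 hy.2.2.2.2.2) hw.2.2.2.2.2)⟩ ).elim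
  · exact (P1_AAB_S1_M13_M23 n1 n2 n3 A1 A2 A3 B1 B2 B3 hb hp ⟨hy.1, hw.1, hz.1⟩ ⟨hs_zyw.1.trans (add_le_add (add_le_add hz.2.1 hy.2.1) hw.2.1), hs_zyw.1.trans (add_le_add (add_le_add hz.2.1 hy.2.1) hw.2.2.1), hs_zyw.2.1.trans (add_le_add (add_le_add hz.2.2.1 hy.2.2.1) hw.2.2.2.1), hs_zyw.2.1.trans (add_le_add (add_le_add hz.2.2.1 hy.2.2.2.1) hw.2.2.2.1), hs_zyw.2.2.trans (add_le_add (add_le_add hz.2.2.2 hy.2.2.2.2.1) hw.2.2.2.2.1), hs_zyw.2.2.trans (add_le_add (add_le_add hz.2.2.2 hy.2.2.2.2.1) hw.2.2.2.2.2), hs_zyw.2.2.trans (add_le_add (add_le_add hz.2.2.2 hy.2.2.2.2.2) hw.2.2.2.2.1), hs_zyw.2.2.trans (add_le_add (add_le_add hz.2.2.2 hy.2.2.2.2.2) hw.2.2.2.2.2)⟩ m_AA_M13_M23 m_AB_S1_S3).elim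
  · exact (P1_AAB_S1_S2_M13 n1 n2 n3 A1 A2 A3 B1 B2 B3 hb hp ⟨hy.1, hw.1, hz.1⟩ ⟨hs_wzy.1.trans (add_le_add (add_le_add hw.2.1 hz.2.1) hy.2.1), hs_wzy.1.trans (add_le_add (add_le_add hw.2.1 hz.2.2.1) hy.2.1), hs_wzy.2.1.trans (add_le_add (add_le_add hw.2.2.1 hz.2.2.2.1) hy.2.2.1), hs_wzy.2.1.trans (add_le_add (add_le_add hw.2.2.1 hz.2.2.2.1) hy.2.2.2.1), hs_wzy.2.2.trans (add_le_add (add_le_add hw.2.2.2 hz.2.2.2.2) hy.2.2.2.2.1), hs_wzy.2.2.trans (add_le_add (add_le_add hw.2.2.2 hz.2.2.2.2) hy.2.2.2.2.2)⟩ m_AA_S2_M13 m_AB_S1_S3).elim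
  · exact (P1_AAB_S2_S2_M13 n1 n2 n3 A1 A2 A3 B1 B2 B3 hb hp ⟨hy.1, hz.1⟩ ⟨hs_zwy.1.trans (add_le_add (add_le_add hz.2.1 hw.2.1) hy.2.1), hs_zwy.1.trans (add_le_add (add_le_add hz.2.1 hw.2.2.1) hy.2.1), hs_zwy.1.trans (add_le_add (add_le_add hz.2.2.1 hw.2.1) hy.2.1), hs_zwy.1.trans (add_le_add (add_le_add hz.2.2.1 hw.2.2.1) hy.2.1), hs_zwy.2.1.trans (add_le_add (add_le_add hz.2.2.2.1 hw.2.2.2.1) hy.2.2.1), hs_zwy.2.1.trans (add_le_add (add_le_add hz.2.2.2.1 hw.2.2.2.1) hy.2.2.2.1), hs_zwy.2.2.trans (add_le_add (add_le_add hz.2.2.2.2 hw.2.2.2.2) hy.2.2.2.2.1), hs_zwy.2.2.trans (add_le_add (add_le_add hz.2.2.2.2 hw.2.2.2.2) hy.2.2.2.2.2)⟩ m_AB_S2_M13).elim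
  · exact (P1_AAB_S2_S3_M13 n1 n2 n3 A1 A2 A3 B1 B2 B3 hb hp ⟨hy.1, hw.1, hz.1⟩ ⟨hs_zwy.1.trans (add_le_add (add_le_add hz.2.1 hw.2.1) hy.2.1), hs_zwy.1.trans (add_le_add (add_le_add hz.2.1 hw.2.2.1) hy.2.1), hs_zwy.1.trans (add_le_add (add_le_add hz.2.2.1 hw.2.1) hy.2.1), hs_zwy.1.trans (add_le_add (add_le_add hz.2.2.1 hw.2.2.1) hy.2.1), hs_zwy.2.1.trans (add_le_add (add_le_add hz.2.2.2.1 hw.2.2.2.1) hy.2.2.1), hs_zwy.2.1.trans (add_le_add (add_le_add hz.2.2.2.1 hw.2.2.2.1) hy.2.2.2.1), hs_zwy.2.1.trans (add_le_add (add_le_add hz.2.2.2.1 hw.2.2.2.2.1) hy.2.2.1), hs_zwy.2.1.trans (add_le_add (add_le_add hz.2.2.2.1 hw.2.2.2.2.1) hy.2.2.2.1), hs_zwy.2.2.trans (add_le_add (add_le_add hz.2.2.2.2 hw.2.2.2.2.2) hy.2.2.2.2.1), hs_zwy.2.2.trans (add_le_add (add_le_add hz.2.2.2.2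 hw.2.2.2.2.2) hy.2.2.2.2.2)⟩ m_BB_S2_M13 m_AA_S2_S3 m_AB_M13_M23 m_AA_S1_S3).elim
  · exact (P1_AAB_S2_M13_M13 n1 n2 n3 A1 A2 A3 B1 B2 B3 hb hp ⟨hy.1, hz.1⟩ ⟨hs_zyw.1.trans (add_le_add (add_le_add hz.2.1 hy.2.1) hw.2.1), hs_zyw.1.trans (add_le_add (add_le_add hz.2.2.1 hy.2.1) hw.2.1), hs_zyw.2.1.trans (add_le_add (add_le_add hz.2.2.2.1 hy.2.2.1) hw.2.2.1), hs_zyw.2.1.trans (add_le_add (add_le_add hz.2.2.2.1 hy.2.2.1) hw.2.2.2.1), hs_zyw.2.1.trans (add_le_add (add_le_add hz.2.2.2.1 hy.2.2.2.1) hw.2.2.1), hs_zyw.2.1.trans (add_le_add (add_le_add hz.2.2.2.1 hy.2.2.2.1) hw.2.2.2.1), hs_zyw.2.2.trans (add_le_add (add_le_add hz.2.2.2.2 hy.2.2.2.2.1) hw.2.2.2.2.1), hs_zyw.2.2.trans (add_le_add (add_le_add hz.2.2.2.2 hy.2.2.2.2.1) hw.2.2.2.2.2), hs_zyw.2.2.trans (add_le_add (add_le_add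 hz.2.2.2.2 hy.2.2.2.2.2) hw.2.2.2.2.1), hs_zyw.2.2.trans (add_le_add (add_le_add hz.2.2.2.2 hy.2.2.2.2.2) hw.2.2.2.2.2)⟩ m_AB_S2_M13).elim
  · exact (P1_AAB_S2_M13_M23 n1 n2 n3 A1 A2 A3 B1 B2 B3 hb hp ⟨hy.1, hw.1, hz.1⟩ ⟨hs_zyw.1.trans (add_le_add (add_le_add hz.2.1 hy.2.1) hw.2.1), hs_zyw.1.trans (add_le_add (add_le_add hz.2.1 hy.2.1) hw.2.2.1), hs_zyw.1.trans (add_le_add (add_le_add hz.2.2.1 hy.2.1) hw.2.1), hs_zyw.1.trans (add_le_add (add_le_add hz.2.2.1 hy.2.1) hw.2.2.1), hs_zyw.2.1.trans (add_le_add (add_le_add hz.2.2.2.1 hy.2.2.1) hw.2.2.2.1), hs_zyw.2.1.trans (add_le_add (add_le_add hz.2.2.2.1 hy.2.2.2.1) hw.2.2.2.1), hs_zyw.2.2.trans (add_le_add (add_le_add hz.2.2.2.2 hy.2.2.2.2.1) hw.2.2.2.2.1), hs_zyw.2.2.trans (add_le_add (add_le_add hz.2.2.2.2 hy.2.2.2.2.1)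 hw.2.2.2.2.2), hs_zyw.2.2.trans (add_le_add (add_le_add hz.2.2.2.2 hy.2.2.2.2.2) hw.2.2.2.2.1), hs_zyw.2.2.trans (add_le_add (add_le_add hz.2.2.2.2 hy.2.2.2.2.2) hw.2.2.2.2.2)⟩ m_AA_M13_M23 m_AB_S2_M13).elim
  · exact (P1_AAB_S1_S3_M13 n1 n2 n3 A1 A2 A3 B1 B2 B3 hb hp ⟨hy.1, hz.1, hw.1⟩ ⟨hs_wzy.1.trans (add_le_add (add_le_add hw.2.1 hz.2.1) hy.2.1), hs_wzy.1.trans (add_le_add (add_le_add hw.2.1 hz.2.2.1) hy.2.1), hs_wzy.2.1.trans (add_le_add (add_le_add hw.2.2.1 hz.2.2.2.1) hy.2.2.1), hs_wzy.2.1.trans (add_le_add (add_le_add hw.2.2.1 hz.2.2.2.1) hy.2.2.2.1), hs_wzy.2.1.trans (add_le_add (add_le_add hw.2.2.1 hz.2.2.2.2.1) hy.2.2.1), hs_wzy.2.1.trans (add_le_add (add_le_add hw.2.2.1 hz.2.2.2.2.1) hy.2.2.2.1), hs_wzy.2.2.trans (add_le_add (add_le_add hw.2.2.2 hz.2.2.2.2.2)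 hy.2.2.2.2.1), hs_wzy.2.2.trans (add_le_add (add_le_add hw.2.2.2 hz.2.2.2.2.2) hy.2.2.2.2.2)⟩ m_AB_S1_S3 m_AA_S3_M13 m_AA_M13_M23).elim
  · exact (P1_AAB_S2_S3_M13 n1 n2 n3 A1 A2 A3 B1 B2 B3 hb hp ⟨hy.1, hz.1, hw.1⟩ ⟨hs_wzy.1.trans (add_le_add (add_le_add hw.2.1 hz.2.1) hy.2.1), hs_wzy.1.trans (add_le_add (add_le_add hw.2.1 hz.2.2.1) hy.2.1), hs_wzy.1.trans (add_le_add (add_le_add hw.2.2.1 hz.2.1) hy.2.1), hs_wzy.1.trans (add_le_add (add_le_add hw.2.2.1 hz.2.2.1) hy.2.1), hs_wzy.2.1.trans (add_le_add (add_le_add hw.2.2.2.1 hz.2.2.2.1) hy.2.2.1), hs_wzy.2.1.trans (add_le_add (add_le_add hw.2.2.2.1 hz.2.2.2.1) hy.2.2.2.1), hs_wzy.2.1.trans (add_le_add (add_le_add hw.2.2.2.1 hz.2.2.2.2.1) hy.2.2.1), hs_wzy.2.1.trans (add_le_add (add_le_add hw.2.2.2.1 hz.2.2.2.2.1) hy.2.2.2.1),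 hs_wzy.2.2.trans (add_le_add (add_le_add hw.2.2.2.2 hz.2.2.2.2.2) hy.2.2.2.2.1), hs_wzy.2.2.trans (add_le_add (add_le_add hw.2.2.2.2 hz.2.2.2.2.2) hy.2.2.2.2.2)⟩ m_BB_S2_M13 m_AA_S2_S3 m_AB_M13_M23 m_AA_S1_S3).elim
  · exact (P1_AAB_S3_S3_M13 n1 n2 n3 A1 A2 A3 B1 B2 B3 hb hp ⟨hy.1, hz.1⟩ ⟨hs_zwy.1.trans (add_le_add (add_le_add hz.2.1 hw.2.1) hy.2.1), hs_zwy.1.trans (add_le_add (add_le_add hz.2.1 hw.2.2.1) hy.2.1), hs_zwy.1.trans (add_le_add (add_le_add hz.2.2.1 hw.2.1) hy.2.1), hs_zwy.1.trans (add_le_add (add_le_add hz.2.2.1 hw.2.2.1) hy.2.1), hs_zwy.2.1.trans (add_le_add (add_le_add hz.2.2.2.1 hw.2.2.2.1) hy.2.2.1), hs_zwy.2.1.trans (add_le_add (add_le_add hz.2.2.2.1 hw.2.2.2.1) hy.2.2.2.1), hs_zwy.2.1.trans (add_le_add (add_le_add hz.2.2.2.1 hw.2.2.2.2.1) hy.2.2.1), hs_zwy.2.1.trans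 (add_le_add (add_le_add hz.2.2.2.1 hw.2.2.2.2.1) hy.2.2.2.1), hs_zwy.2.1.trans (add_le_add (add_le_add hz.2.2.2.2.1 hw.2.2.2.1) hy.2.2.1), hs_zwy.2.1.trans (add_le_add (add_le_add hz.2.2.2.2.1 hw.2.2.2.1) hy.2.2.2.1), hs_zwy.2.1.trans (add_le_add (add_le_add hz.2.2.2.2.1 hw.2.2.2.2.1) hy.2.2.1), hs_zwy.2.1.trans (add_le_add (add_le_add hz.2.2.2.2.1 hw.2.2.2.2.1) hy.2.2.2.1), hs_zwy.2.2.trans (add_le_add (add_le_add hz.2.2.2.2.2 hw.2.2.2.2.2) hy.2.2.2.2.1), hs_zwy.2.2.trans (add_le_add (add_le_add hz.2.2.2.2.2 hw.2.2.2.2.2) hy.2.2.2.2.2)⟩ ).elim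
  · exact (P1_AAB_S3_M13_M13 n1 n2 n3 A1 A2 A3 B1 B2 B3 hb hp ⟨hy.1, hz.1⟩ ⟨hs_zyw.1.trans (add_le_add (add_le_add hz.2.1 hy.2.1) hw.2.1), hs_zyw.1.trans (add_le_add (add_le_add hz.2.2.1 hy.2.1) hw.2.1), hs_zyw.2.1.trans (add_le_add (add_le_add hz.2.2.2.1 hy.2.2.1) hw.2.2.1), hs_zyw.2.1.trans (add_le_add (add_le_add hz.2.2.2.1 hy.2.2.1) hw.2.2.2.1), hs_zyw.2.1.trans (add_le_add (add_le_add hz.2.2.2.1 hy.2.2.2.1) hw.2.2.1), hs_zyw.2.1.trans (add_le_add (add_le_add hz.2.2.2.1 hy.2.2.2.1) hw.2.2.2.1), hs_zyw.2.1.trans (add_le_add (add_le_add hz.2.2.2.2.1 hy.2.2.1) hw.2.2.1), hs_zyw.2.1.trans (add_le_add (add_le_add hz.2.2.2.2.1 hy.2.2.1) hw.2.2.2.1), hs_zyw.2.1.trans (add_le_add (add_le_add hz.2.2.2.2.1 hy.2.2.2.1) hw.2.2.1), hs_zyw.2.1.trans (add_le_add (add_le_add hz.2.2.2.2.1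 hy.2.2.2.1) hw.2.2.2.1), hs_zyw.2.2.trans (add_le_add (add_le_add hz.2.2.2.2.2 hy.2.2.2.2.1) hw.2.2.2.2.1), hs_zyw.2.2.trans (add_le_add (add_le_add hz.2.2.2.2.2 hy.2.2.2.2.1) hw.2.2.2.2.2), hs_zyw.2.2.trans (add_le_add (add_le_add hz.2.2.2.2.2 hy.2.2.2.2.2) hw.2.2.2.2.1), hs_zyw.2.2.trans (add_le_add (add_le_add hz.2.2.2.2.2 hy.2.2.2.2.2) hw.2.2.2.2.2)⟩ m_AA_S3_M13 m_AB_M13_M23).elim
  · exact (P1_AAB_S3_M13_M23 n1 n2 n3 A1 A2 A3 B1 B2 B3 hb hp ⟨hy.1, hw.1, hz.1⟩ ⟨hs_zyw.1.trans (add_le_add (add_le_add hz.2.1 hy.2.1) hw.2.1), hs_zyw.1.trans (add_le_add (add_le_add hz.2.1 hy.2.1) hw.2.2.1), hs_zyw.1.trans (add_le_add (add_le_add hz.2.2.1 hy.2.1) hw.2.1), hs_zyw.1.trans (add_le_add (add_le_add hz.2.2.1 hy.2.1) hw.2.2.1), hs_zyw.2.1.trans (add_le_add (add_le_add hz.2.2.2.1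 hy.2.2.1) hw.2.2.2.1), hs_zyw.2.1.trans (add_le_add (add_le_add hz.2.2.2.1 hy.2.2.2.1) hw.2.2.2.1), hs_zyw.2.1.trans (add_le_add (add_le_add hz.2.2.2.2.1 hy.2.2.1) hw.2.2.2.1), hs_zyw.2.1.trans (add_le_add (add_le_add hz.2.2.2.2.1 hy.2.2.2.1) hw.2.2.2.1), hs_zyw.2.2.trans (add_le_add (add_le_add hz.2.2.2.2.2 hy.2.2.2.2.1) hw.2.2.2.2.1), hs_zyw.2.2.trans (add_le_add (add_le_add hz.2.2.2.2.2 hy.2.2.2.2.1) hw.2.2.2.2.2), hs_zyw.2.2.trans (add_le_add (add_le_add hz.2.2.2.2.2 hy.2.2.2.2.2) hw.2.2.2.2.1), hs_zyw.2.2.trans (add_le_add (add_le_add hz.2.2.2.2.2 hy.2.2.2.2.2) hw.2.2.2.2.2)⟩ m_AB_M13_M23 m_AA_S2_S3 m_AA_S1_S3).elim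
  · exact (P1_AAB_S1_M13_M13 n1 n2 n3 A1 A2 A3 B1 B2 B3 hb hp ⟨hy.1, hw.1⟩ ⟨hs_wyz.1.trans (add_le_add (add_le_add hw.2.1 hy.2.1) hz.2.1), hs_wyz.2.1.trans (add_le_add (add_le_add hw.2.2.1 hy.2.2.1) hz.2.2.1), hs_wyz.2.1.trans (add_le_add (add_le_add hw.2.2.1 hy.2.2.1) hz.2.2.2.1), hs_wyz.2.1.trans (add_le_add (add_le_add hw.2.2.1 hy.2.2.2.1) hz.2.2.1), hs_wyz.2.1.trans (add_le_add (add_le_add hw.2.2.1 hy.2.2.2.1) hz.2.2.2.1), hs_wyz.2.2.trans (add_le_add (add_le_add hw.2.2.2 hy.2.2.2.2.1) hz.2.2.2.2.1), hs_wyz.2.2.trans (add_le_add (add_le_add hw.2.2.2 hy.2.2.2.2.1) hz.2.2.2.2.2), hs_wyz.2.2.trans (add_le_add (add_le_add hw.2.2.2 hy.2.2.2.2.2) hz.2.2.2.2.1), hs_wyz.2.2.trans (add_le_add (add_le_add hw.2.2.2 hy.2.2.2.2.2) hz.2.2.2.2.2)⟩ ).elim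
  · exact (P1_AAB_S2_M13_M13 n1 n2 n3 A1 A2 A3 B1 B2 B3 hb hp ⟨hy.1, hw.1⟩ ⟨hs_wyz.1.trans (add_le_add (add_le_add hw.2.1 hy.2.1) hz.2.1), hs_wyz.1.trans (add_le_add (add_le_add hw.2.2.1 hy.2.1) hz.2.1), hs_wyz.2.1.trans (add_le_add (add_le_add hw.2.2.2.1 hy.2.2.1) hz.2.2.1), hs_wyz.2.1.trans (add_le_add (add_le_add hw.2.2.2.1 hy.2.2.1) hz.2.2.2.1), hs_wyz.2.1.trans (add_le_add (add_le_add hw.2.2.2.1 hy.2.2.2.1) hz.2.2.1), hs_wyz.2.1.trans (add_le_add (add_le_add hw.2.2.2.1 hy.2.2.2.1) hz.2.2.2.1), hs_wyz.2.2.trans (add_le_add (add_le_add hw.2.2.2.2 hy.2.2.2.2.1) hz.2.2.2.2.1), hs_wyz.2.2.trans (add_le_add (add_le_add hw.2.2.2.2 hy.2.2.2.2.1) hz.2.2.2.2.2), hs_wyz.2.2.trans (add_le_add (add_le_add hw.2.2.2.2 hy.2.2.2.2.2) hz.2.2.2.2.1), hs_wyz.2.2.trans (add_le_add (add_le_add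 hw.2.2.2.2 hy.2.2.2.2.2) hz.2.2.2.2.2)⟩ m_AB_S2_M13).elim
  · exact (P1_AAB_S3_M13_M13 n1 n2 n3 A1 A2 A3 B1 B2 B3 hb hp ⟨hy.1, hw.1⟩ ⟨hs_wyz.1.trans (add_le_add (add_le_add hw.2.1 hy.2.1) hz.2.1), hs_wyz.1.trans (add_le_add (add_le_add hw.2.2.1 hy.2.1) hz.2.1), hs_wyz.2.1.trans (add_le_add (add_le_add hw.2.2.2.1 hy.2.2.1) hz.2.2.1), hs_wyz.2.1.trans (add_le_add (add_le_add hw.2.2.2.1 hy.2.2.1) hz.2.2.2.1), hs_wyz.2.1.trans (add_le_add (add_le_add hw.2.2.2.1 hy.2.2.2.1) hz.2.2.1), hs_wyz.2.1.trans (add_le_add (add_le_add hw.2.2.2.1 hy.2.2.2.1) hz.2.2.2.1), hs_wyz.2.1.trans (add_le_add (add_le_add hw.2.2.2.2.1 hy.2.2.1) hz.2.2.1), hs_wyz.2.1.trans (add_le_add (add_le_add hw.2.2.2.2.1 hy.2.2.1) hz.2.2.2.1), hs_wyz.2.1.trans (add_le_add (add_le_add hw.2.2.2.2.1 hy.2.2.2.1)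 hz.2.2.1), hs_wyz.2.1.trans (add_le_add (add_le_add hw.2.2.2.2.1 hy.2.2.2.1) hz.2.2.2.1), hs_wyz.2.2.trans (add_le_add (add_le_add hw.2.2.2.2.2 hy.2.2.2.2.1) hz.2.2.2.2.1), hs_wyz.2.2.trans (add_le_add (add_le_add hw.2.2.2.2.2 hy.2.2.2.2.1) hz.2.2.2.2.2), hs_wyz.2.2.trans (add_le_add (add_le_add hw.2.2.2.2.2 hy.2.2.2.2.2) hz.2.2.2.2.1), hs_wyz.2.2.trans (add_le_add (add_le_add hw.2.2.2.2.2 hy.2.2.2.2.2) hz.2.2.2.2.2)⟩ m_AA_S3_M13 m_AB_M13_M23).elim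
  · exact (P1_AAB_M13_M13_M13 n1 n2 n3 A1 A2 A3 B1 B2 B3 hb hp hy.1 ⟨hs.1.trans (add_le_add (add_le_add hy.2.1 hz.2.1) hw.2.1), hs.2.1.trans (add_le_add (add_le_add hy.2.2.1 hz.2.2.1) hw.2.2.1), hs.2.1.trans (add_le_add (add_le_add hy.2.2.1 hz.2.2.1) hw.2.2.2.1), hs.2.1.trans (add_le_add (add_le_add hy.2.2.1 hz.2.2.2.1) hw.2.2.1), hs.2.1.trans (add_le_add (add_le_add hy.2.2.1 hz.2.2.2.1) hw.2.2.2.1), hs.2.1.trans (add_le_add (add_le_add hy.2.2.2.1 hz.2.2.1) hw.2.2.1), hs.2.1.trans (add_le_add (add_le_add hy.2.2.2.1 hz.2.2.1) hw.2.2.2.1), hs.2.1.trans (add_le_add (add_le_add hy.2.2.2.1 hz.2.2.2.1) hw.2.2.1), hs.2.1.trans (add_le_add (add_le_add hy.2.2.2.1 hz.2.2.2.1) hw.2.2.2.1), hs.2.2.trans (add_le_add (add_le_add hy.2.2.2.2.1 hz.2.2.2.2.1) hw.2.2.2.2.1), hs.2.2.trans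 (add_le_add (add_le_add hy.2.2.2.2.1 hz.2.2.2.2.1) hw.2.2.2.2.2), hs.2.2.trans (add_le_add (add_le_add hy.2.2.2.2.1 hz.2.2.2.2.2) hw.2.2.2.2.1), hs.2.2.trans (add_le_add (add_le_add hy.2.2.2.2.1 hz.2.2.2.2.2) hw.2.2.2.2.2), hs.2.2.trans (add_le_add (add_le_add hy.2.2.2.2.2 hz.2.2.2.2.1) hw.2.2.2.2.1), hs.2.2.trans (add_le_add (add_le_add hy.2.2.2.2.2 hz.2.2.2.2.1) hw.2.2.2.2.2), hs.2.2.trans (add_le_add (add_le_add hy.2.2.2.2.2 hz.2.2.2.2.2) hw.2.2.2.2.1), hs.2.2.trans (add_le_add (add_le_add hy.2.2.2.2.2 hz.2.2.2.2.2) hw.2.2.2.2.2)⟩ m_AB_M13_M13).elim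
  · exact (P1_AAB_M13_M13_M23 n1 n2 n3 A1 A2 A3 B1 B2 B3 hb hp ⟨hy.1, hw.1⟩ ⟨hs.1.trans (add_le_add (add_le_add hy.2.1 hz.2.1) hw.2.1), hs.1.trans (add_le_add (add_le_add hy.2.1 hz.2.1) hw.2.2.1), hs.2.1.trans (add_le_add (add_le_add hy.2.2.1 hz.2.2.1) hw.2.2.2.1), hs.2.1.trans (add_le_add (add_le_add hy.2.2.1 hz.2.2.2.1) hw.2.2.2.1), hs.2.1.trans (add_le_add (add_le_add hy.2.2.2.1 hz.2.2.1) hw.2.2.2.1), hs.2.1.trans (add_le_add (add_le_add hy.2.2.2.1 hz.2.2.2.1) hw.2.2.2.1), hs.2.2.trans (add_le_add (add_le_add hy.2.2.2.2.1 hz.2.2.2.2.1) hw.2.2.2.2.1), hs.2.2.trans (add_le_add (add_le_add hy.2.2.2.2.1 hz.2.2.2.2.1) hw.2.2.2.2.2), hs.2.2.trans (add_le_add (add_le_add hy.2.2.2.2.1 hz.2.2.2.2.2) hw.2.2.2.2.1), hs.2.2.trans (add_le_add (add_le_add hy.2.2.2.2.1 hz.2.2.2.2.2)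 hw.2.2.2.2.2), hs.2.2.trans (add_le_add (add_le_add hy.2.2.2.2.2 hz.2.2.2.2.1) hw.2.2.2.2.1), hs.2.2.trans (add_le_add (add_le_add hy.2.2.2.2.2 hz.2.2.2.2.1) hw.2.2.2.2.2), hs.2.2.trans (add_le_add (add_le_add hy.2.2.2.2.2 hz.2.2.2.2.2) hw.2.2.2.2.1), hs.2.2.trans (add_le_add (add_le_add hy.2.2.2.2.2 hz.2.2.2.2.2) hw.2.2.2.2.2)⟩ m_AB_M13_M23).elim
  · exact (P1_AAB_S1_M13_M23 n1 n2 n3 A1 A2 A3 B1 B2 B3 hb hp ⟨hy.1, hz.1, hw.1⟩ ⟨hs_wyz.1.trans (add_le_add (add_le_add hw.2.1 hy.2.1) hz.2.1), hs_wyz.1.trans (add_le_add (add_le_add hw.2.1 hy.2.1) hz.2.2.1), hs_wyz.2.1.trans (add_le_add (add_le_add hw.2.2.1 hy.2.2.1) hz.2.2.2.1), hs_wyz.2.1.trans (add_le_add (add_le_add hw.2.2.1 hy.2.2.2.1) hz.2.2.2.1), hs_wyz.2.2.trans (add_le_add (add_le_add hw.2.2.2 hy.2.2.2.2.1) hz.2.2.2.2.1),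 hs_wyz.2.2.trans (add_le_add (add_le_add hw.2.2.2 hy.2.2.2.2.1) hz.2.2.2.2.2), hs_wyz.2.2.trans (add_le_add (add_le_add hw.2.2.2 hy.2.2.2.2.2) hz.2.2.2.2.1), hs_wyz.2.2.trans (add_le_add (add_le_add hw.2.2.2 hy.2.2.2.2.2) hz.2.2.2.2.2)⟩ m_AA_M13_M23 m_AB_S1_S3).elim
  · exact (P1_AAB_S2_M13_M23 n1 n2 n3 A1 A2 A3 B1 B2 B3 hb hp ⟨hy.1, hz.1, hw.1⟩ ⟨hs_wyz.1.trans (add_le_add (add_le_add hw.2.1 hy.2.1) hz.2.1), hs_wyz.1.trans (add_le_add (add_le_add hw.2.1 hy.2.1) hz.2.2.1), hs_wyz.1.trans (add_le_add (add_le_add hw.2.2.1 hy.2.1) hz.2.1), hs_wyz.1.trans (add_le_add (add_le_add hw.2.2.1 hy.2.1) hz.2.2.1), hs_wyz.2.1.trans (add_le_add (add_le_add hw.2.2.2.1 hy.2.2.1) hz.2.2.2.1), hs_wyz.2.1.trans (add_le_add (add_le_add hw.2.2.2.1 hy.2.2.2.1) hz.2.2.2.1), hs_wyz.2.2.trans (add_le_add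 (add_le_add hw.2.2.2.2 hy.2.2.2.2.1) hz.2.2.2.2.1), hs_wyz.2.2.trans (add_le_add (add_le_add hw.2.2.2.2 hy.2.2.2.2.1) hz.2.2.2.2.2), hs_wyz.2.2.trans (add_le_add (add_le_add hw.2.2.2.2 hy.2.2.2.2.2) hz.2.2.2.2.1), hs_wyz.2.2.trans (add_le_add (add_le_add hw.2.2.2.2 hy.2.2.2.2.2) hz.2.2.2.2.2)⟩ m_AA_M13_M23 m_AB_S2_M13).elim
  · exact (P1_AAB_S3_M13_M23 n1 n2 n3 A1 A2 A3 B1 B2 B3 hb hp ⟨hy.1, hz.1, hw.1⟩ ⟨hs_wyz.1.trans (add_le_add (add_le_add hw.2.1 hy.2.1) hz.2.1), hs_wyz.1.trans (add_le_add (add_le_add hw.2.1 hy.2.1) hz.2.2.1), hs_wyz.1.trans (add_le_add (add_le_add hw.2.2.1 hy.2.1) hz.2.1), hs_wyz.1.trans (add_le_add (add_le_add hw.2.2.1 hy.2.1) hz.2.2.1), hs_wyz.2.1.trans (add_le_add (add_le_add hw.2.2.2.1 hy.2.2.1) hz.2.2.2.1), hs_wyz.2.1.trans (add_le_add (add_le_add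 hw.2.2.2.1 hy.2.2.2.1) hz.2.2.2.1), hs_wyz.2.1.trans (add_le_add (add_le_add hw.2.2.2.2.1 hy.2.2.1) hz.2.2.2.1), hs_wyz.2.1.trans (add_le_add (add_le_add hw.2.2.2.2.1 hy.2.2.2.1) hz.2.2.2.1), hs_wyz.2.2.trans (add_le_add (add_le_add hw.2.2.2.2.2 hy.2.2.2.2.1) hz.2.2.2.2.1), hs_wyz.2.2.trans (add_le_add (add_le_add hw.2.2.2.2.2 hy.2.2.2.2.1) hz.2.2.2.2.2), hs_wyz.2.2.trans (add_le_add (add_le_add hw.2.2.2.2.2 hy.2.2.2.2.2) hz.2.2.2.2.1), hs_wyz.2.2.trans (add_le_add (add_le_add hw.2.2.2.2.2 hy.2.2.2.2.2) hz.2.2.2.2.2)⟩ m_AB_M13_M23 m_AA_S2_S3 m_AA_S1_S3).elim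
  · exact (P1_AAB_M13_M13_M23 n1 n2 n3 A1 A2 A3 B1 B2 B3 hb hp ⟨hy.1, hz.1⟩ ⟨hs_ywz.1.trans (add_le_add (add_le_add hy.2.1 hw.2.1) hz.2.1), hs_ywz.1.trans (add_le_add (add_le_add hy.2.1 hw.2.1) hz.2.2.1), hs_ywz.2.1.trans (add_le_add (add_le_add hy.2.2.1 hw.2.2.1) hz.2.2.2.1), hs_ywz.2.1.trans (add_le_add (add_le_add hy.2.2.1 hw.2.2.2.1) hz.2.2.2.1), hs_ywz.2.1.trans (add_le_add (add_le_add hy.2.2.2.1 hw.2.2.1) hz.2.2.2.1), hs_ywz.2.1.trans (add_le_add (add_le_add hy.2.2.2.1 hw.2.2.2.1) hz.2.2.2.1), hs_ywz.2.2.trans (add_le_add (add_le_add hy.2.2.2.2.1 hw.2.2.2.2.1) hz.2.2.2.2.1), hs_ywz.2.2.trans (add_le_add (add_le_add hy.2.2.2.2.1 hw.2.2.2.2.1) hz.2.2.2.2.2), hs_ywz.2.2.trans (add_le_add (add_le_add hy.2.2.2.2.1 hw.2.2.2.2.2) hz.2.2.2.2.1), hs_ywz.2.2.trans (add_le_add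 (add_le_add hy.2.2.2.2.1 hw.2.2.2.2.2) hz.2.2.2.2.2), hs_ywz.2.2.trans (add_le_add (add_le_add hy.2.2.2.2.2 hw.2.2.2.2.1) hz.2.2.2.2.1), hs_ywz.2.2.trans (add_le_add (add_le_add hy.2.2.2.2.2 hw.2.2.2.2.1) hz.2.2.2.2.2), hs_ywz.2.2.trans (add_le_add (add_le_add hy.2.2.2.2.2 hw.2.2.2.2.2) hz.2.2.2.2.1), hs_ywz.2.2.trans (add_le_add (add_le_add hy.2.2.2.2.2 hw.2.2.2.2.2) hz.2.2.2.2.2)⟩ m_AB_M13_M23).elim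
  · exact (P1_AAB_M13_M23_M23 n1 n2 n3 A1 A2 A3 B1 B2 B3 hb hp ⟨hy.1, hz.1⟩ ⟨hs.1.trans (add_le_add (add_le_add hy.2.1 hz.2.1) hw.2.1), hs.1.trans (add_le_add (add_le_add hy.2.1 hz.2.1) hw.2.2.1), hs.1.trans (add_le_add (add_le_add hy.2.1 hz.2.2.1) hw.2.1), hs.1.trans (add_le_add (add_le_add hy.2.1 hz.2.2.1) hw.2.2.1), hs.2.1.trans (add_le_add (add_le_add hy.2.2.1 hz.2.2.2.1) hw.2.2.2.1), hs.2.1.trans (add_le_add (add_le_add hy.2.2.2.1 hz.2.2.2.1) hw.2.2.2.1), hs.2.2.trans (add_le_add (add_le_add hy.2.2.2.2.1 hz.2.2.2.2.1) hw.2.2.2.2.1), hs.2.2.trans (add_le_add (add_le_add hy.2.2.2.2.1 hz.2.2.2.2.1) hw.2.2.2.2.2), hs.2.2.trans (add_le_add (add_le_add hy.2.2.2.2.1 hz.2.2.2.2.2) hw.2.2.2.2.1), hs.2.2.trans (add_le_add (add_le_add hy.2.2.2.2.1 hz.2.2.2.2.2) hw.2.2.2.2.2),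 hs.2.2.trans (add_le_add (add_le_add hy.2.2.2.2.2 hz.2.2.2.2.1) hw.2.2.2.2.1), hs.2.2.trans (add_le_add (add_le_add hy.2.2.2.2.2 hz.2.2.2.2.1) hw.2.2.2.2.2), hs.2.2.trans (add_le_add (add_le_add hy.2.2.2.2.2 hz.2.2.2.2.2) hw.2.2.2.2.1), hs.2.2.trans (add_le_add (add_le_add hy.2.2.2.2.2 hz.2.2.2.2.2) hw.2.2.2.2.2)⟩ m_AB_M13_M23).elim
  · exact (P1_AAB_S1_S1_M23 n1 n2 n3 A1 A2 A3 B1 B2 B3 hb hp ⟨hy.1, hz.1⟩ ⟨hs_zwy.1.trans (add_le_add (add_le_add hz.2.1 hw.2.1) hy.2.1), hs_zwy.1.trans (add_le_add (add_le_add hz.2.1 hw.2.1) hy.2.2.1), hs_zwy.2.1.trans (add_le_add (add_le_add hz.2.2.1 hw.2.2.1) hy.2.2.2.1), hs_zwy.2.2.trans (add_le_add (add_le_add hz.2.2.2 hw.2.2.2) hy.2.2.2.2.1), hs_zwy.2.2.trans (add_le_add (add_le_add hz.2.2.2 hw.2.2.2) hy.2.2.2.2.2)⟩ m_AB_S1_S3).elim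
  · exact (P1_AAB_S1_S2_M23 n1 n2 n3 A1 A2 A3 B1 B2 B3 hb hp ⟨hy.1, hz.1, hw.1⟩ ⟨hs_zwy.1.trans (add_le_add (add_le_add hz.2.1 hw.2.1) hy.2.1), hs_zwy.1.trans (add_le_add (add_le_add hz.2.1 hw.2.1) hy.2.2.1), hs_zwy.1.trans (add_le_add (add_le_add hz.2.1 hw.2.2.1) hy.2.1), hs_zwy.1.trans (add_le_add (add_le_add hz.2.1 hw.2.2.1) hy.2.2.1), hs_zwy.2.1.trans (add_le_add (add_le_add hz.2.2.1 hw.2.2.2.1) hy.2.2.2.1), hs_zwy.2.2.trans (add_le_add (add_le_add hz.2.2.2 hw.2.2.2.2) hy.2.2.2.2.1), hs_zwy.2.2.trans (add_le_add (add_le_add hz.2.2.2 hw.2.2.2.2) hy.2.2.2.2.2)⟩ m_AB_S1_S3).elim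
  · exact (P1_AAB_S1_S3_M23 n1 n2 n3 A1 A2 A3 B1 B2 B3 hb hp ⟨hy.1, hw.1, hz.1⟩ ⟨hs_zwy.1.trans (add_le_add (add_le_add hz.2.1 hw.2.1) hy.2.1), hs_zwy.1.trans (add_le_add (add_le_add hz.2.1 hw.2.1) hy.2.2.1), hs_zwy.1.trans (add_le_add (add_le_add hz.2.1 hw.2.2.1) hy.2.1), hs_zwy.1.trans (add_le_add (add_le_add hz.2.1 hw.2.2.1) hy.2.2.1), hs_zwy.2.1.trans (add_le_add (add_le_add hz.2.2.1 hw.2.2.2.1) hy.2.2.2.1), hs_zwy.2.1.trans (add_le_add (add_le_add hz.2.2.1 hw.2.2.2.2.1) hy.2.2.2.1), hs_zwy.2.2.trans (add_le_add (add_le_add hz.2.2.2 hw.2.2.2.2.2) hy.2.2.2.2.1), hs_zwy.2.2.trans (add_le_add (add_le_add hz.2.2.2 hw.2.2.2.2.2) hy.2.2.2.2.2)⟩ m_AB_S1_S3 m_AA_S3_M13).elim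
  · exact (P1_AAB_S1_M13_M23 n1 n2 n3 A1 A2 A3 B1 B2 B3 hb hp ⟨hw.1, hy.1, hz.1⟩ ⟨hs_zwy.1.trans (add_le_add (add_le_add hz.2.1 hw.2.1) hy.2.1), hs_zwy.1.trans (add_le_add (add_le_add hz.2.1 hw.2.1) hy.2.2.1), hs_zwy.2.1.trans (add_le_add (add_le_add hz.2.2.1 hw.2.2.1) hy.2.2.2.1), hs_zwy.2.1.trans (add_le_add (add_le_add hz.2.2.1 hw.2.2.2.1) hy.2.2.2.1), hs_zwy.2.2.trans (add_le_add (add_le_add hz.2.2.2 hw.2.2.2.2.1) hy.2.2.2.2.1), hs_zwy.2.2.trans (add_le_add (add_le_add hz.2.2.2 hw.2.2.2.2.1) hy.2.2.2.2.2), hs_zwy.2.2.trans (add_le_add (add_le_add hz.2.2.2 hw.2.2.2.2.2) hy.2.2.2.2.1), hs_zwy.2.2.trans (add_le_add (add_le_add hz.2.2.2 hw.2.2.2.2.2) hy.2.2.2.2.2)⟩ m_AA_M13_M23 m_AB_S1_S3).elim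
  · exact (P1_AAB_S1_M23_M23 n1 n2 n3 A1 A2 A3 B1 B2 B3 hb hp ⟨hy.1, hz.1⟩ ⟨hs_zyw.1.trans (add_le_add (add_le_add hz.2.1 hy.2.1) hw.2.1), hs_zyw.1.trans (add_le_add (add_le_add hz.2.1 hy.2.1) hw.2.2.1), hs_zyw.1.trans (add_le_add (add_le_add hz.2.1 hy.2.2.1) hw.2.1), hs_zyw.1.trans (add_le_add (add_le_add hz.2.1 hy.2.2.1) hw.2.2.1), hs_zyw.2.1.trans (add_le_add (add_le_add hz.2.2.1 hy.2.2.2.1) hw.2.2.2.1), hs_zyw.2.2.trans (add_le_add (add_le_add hz.2.2.2 hy.2.2.2.2.1) hw.2.2.2.2.1), hs_zyw.2.2.trans (add_le_add (add_le_add hz.2.2.2 hy.2.2.2.2.1) hw.2.2.2.2.2), hs_zyw.2.2.trans (add_le_add (add_le_add hz.2.2.2 hy.2.2.2.2.2) hw.2.2.2.2.1), hs_zyw.2.2.trans (add_le_add (add_le_add hz.2.2.2 hy.2.2.2.2.2) hw.2.2.2.2.2)⟩ m_AB_S1_S3).elim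
  · exact (P1_AAB_S1_S2_M23 n1 n2 n3 A1 A2 A3 B1 B2 B3 hb hp ⟨hy.1, hw.1, hz.1⟩ ⟨hs_wzy.1.trans (add_le_add (add_le_add hw.2.1 hz.2.1) hy.2.1), hs_wzy.1.trans (add_le_add (add_le_add hw.2.1 hz.2.1) hy.2.2.1), hs_wzy.1.trans (add_le_add (add_le_add hw.2.1 hz.2.2.1) hy.2.1), hs_wzy.1.trans (add_le_add (add_le_add hw.2.1 hz.2.2.1) hy.2.2.1), hs_wzy.2.1.trans (add_le_add (add_le_add hw.2.2.1 hz.2.2.2.1) hy.2.2.2.1), hs_wzy.2.2.trans (add_le_add (add_le_add hw.2.2.2 hz.2.2.2.2) hy.2.2.2.2.1), hs_wzy.2.2.trans (add_le_add (add_le_add hw.2.2.2 hz.2.2.2.2) hy.2.2.2.2.2)⟩ m_AB_S1_S3).elim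
  · exact (P1_AAB_S2_S2_M23 n1 n2 n3 A1 A2 A3 B1 B2 B3 hb hp ⟨hy.1, hz.1⟩ ⟨hs_zwy.1.trans (add_le_add (add_le_add hz.2.1 hw.2.1) hy.2.1), hs_zwy.1.trans (add_le_add (add_le_add hz.2.1 hw.2.1) hy.2.2.1), hs_zwy.1.trans (add_le_add (add_le_add hz.2.1 hw.2.2.1) hy.2.1), hs_zwy.1.trans (add_le_add (add_le_add hz.2.1 hw.2.2.1) hy.2.2.1), hs_zwy.1.trans (add_le_add (add_le_add hz.2.2.1 hw.2.1) hy.2.1), hs_zwy.1.trans (add_le_add (add_le_add hz.2.2.1 hw.2.1) hy.2.2.1), hs_zwy.1.trans (add_le_add (add_le_add hz.2.2.1 hw.2.2.1) hy.2.1), hs_zwy.1.trans (add_le_add (add_le_add hz.2.2.1 hw.2.2.1) hy.2.2.1), hs_zwy.2.1.trans (add_le_add (add_le_add hz.2.2.2.1 hw.2.2.2.1) hy.2.2.2.1), hs_zwy.2.2.trans (add_le_add (add_le_add hz.2.2.2.2 hw.2.2.2.2) hy.2.2.2.2.1), hs_zwy.2.2.trans (add_le_add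 (add_le_add hz.2.2.2.2 hw.2.2.2.2) hy.2.2.2.2.2)⟩ ).elim
  · exact (P1_AAB_S2_S3_M23 n1 n2 n3 A1 A2 A3 B1 B2 B3 hb hp ⟨hy.1, hw.1, hz.1⟩ ⟨hs_zwy.1.trans (add_le_add (add_le_add hz.2.1 hw.2.1) hy.2.1), hs_zwy.1.trans (add_le_add (add_le_add hz.2.1 hw.2.1) hy.2.2.1), hs_zwy.1.trans (add_le_add (add_le_add hz.2.1 hw.2.2.1) hy.2.1), hs_zwy.1.trans (add_le_add (add_le_add hz.2.1 hw.2.2.1) hy.2.2.1), hs_zwy.1.trans (add_le_add (add_le_add hz.2.2.1 hw.2.1) hy.2.1), hs_zwy.1.trans (add_le_add (add_le_add hz.2.2.1 hw.2.1) hy.2.2.1), hs_zwy.1.trans (add_le_add (add_le_add hz.2.2.1 hw.2.2.1) hy.2.1), hs_zwy.1.trans (add_le_add (add_le_add hz.2.2.1 hw.2.2.1) hy.2.2.1), hs_zwy.2.1.trans (add_le_add (add_le_add hz.2.2.2.1 hw.2.2.2.1) hy.2.2.2.1), hs_zwy.2.1.trans (add_le_add (add_le_add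 hz.2.2.2.1 hw.2.2.2.2.1) hy.2.2.2.1), hs_zwy.2.2.trans (add_le_add (add_le_add hz.2.2.2.2 hw.2.2.2.2.2) hy.2.2.2.2.1), hs_zwy.2.2.trans (add_le_add (add_le_add hz.2.2.2.2 hw.2.2.2.2.2) hy.2.2.2.2.2)⟩ m_AA_S3_M23 m_AB_S2_S3 m_AB_S2_M13).elim
  · exact (P1_AAB_S2_M13_M23 n1 n2 n3 A1 A2 A3 B1 B2 B3 hb hp ⟨hw.1, hy.1, hz.1⟩ ⟨hs_zwy.1.trans (add_le_add (add_le_add hz.2.1 hw.2.1) hy.2.1), hs_zwy.1.trans (add_le_add (add_le_add hz.2.1 hw.2.1) hy.2.2.1), hs_zwy.1.trans (add_le_add (add_le_add hz.2.2.1 hw.2.1) hy.2.1), hs_zwy.1.trans (add_le_add (add_le_add hz.2.2.1 hw.2.1) hy.2.2.1), hs_zwy.2.1.trans (add_le_add (add_le_add hz.2.2.2.1 hw.2.2.1) hy.2.2.2.1), hs_zwy.2.1.trans (add_le_add (add_le_add hz.2.2.2.1 hw.2.2.2.1) hy.2.2.2.1), hs_zwy.2.2.trans (add_le_add (add_le_add hz.2.2.2.2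 hw.2.2.2.2.1) hy.2.2.2.2.1), hs_zwy.2.2.trans (add_le_add (add_le_add hz.2.2.2.2 hw.2.2.2.2.1) hy.2.2.2.2.2), hs_zwy.2.2.trans (add_le_add (add_le_add hz.2.2.2.2 hw.2.2.2.2.2) hy.2.2.2.2.1), hs_zwy.2.2.trans (add_le_add (add_le_add hz.2.2.2.2 hw.2.2.2.2.2) hy.2.2.2.2.2)⟩ m_AA_M13_M23 m_AB_S2_M13).elim
  · exact (P1_AAB_S2_M23_M23 n1 n2 n3 A1 A2 A3 B1 B2 B3 hb hp ⟨hy.1, hz.1⟩ ⟨hs_zyw.1.trans (add_le_add (add_le_add hz.2.1 hy.2.1) hw.2.1), hs_zyw.1.trans (add_le_add (add_le_add hz.2.1 hy.2.1) hw.2.2.1), hs_zyw.1.trans (add_le_add (add_le_add hz.2.1 hy.2.2.1) hw.2.1), hs_zyw.1.trans (add_le_add (add_le_add hz.2.1 hy.2.2.1) hw.2.2.1), hs_zyw.1.trans (add_le_add (add_le_add hz.2.2.1 hy.2.1) hw.2.1), hs_zyw.1.trans (add_le_add (add_le_add hz.2.2.1 hy.2.1) hw.2.2.1), hs_zyw.1.trans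 (add_le_add (add_le_add hz.2.2.1 hy.2.2.1) hw.2.1), hs_zyw.1.trans (add_le_add (add_le_add hz.2.2.1 hy.2.2.1) hw.2.2.1), hs_zyw.2.1.trans (add_le_add (add_le_add hz.2.2.2.1 hy.2.2.2.1) hw.2.2.2.1), hs_zyw.2.2.trans (add_le_add (add_le_add hz.2.2.2.2 hy.2.2.2.2.1) hw.2.2.2.2.1), hs_zyw.2.2.trans (add_le_add (add_le_add hz.2.2.2.2 hy.2.2.2.2.1) hw.2.2.2.2.2), hs_zyw.2.2.trans (add_le_add (add_le_add hz.2.2.2.2 hy.2.2.2.2.2) hw.2.2.2.2.1), hs_zyw.2.2.trans (add_le_add (add_le_add hz.2.2.2.2 hy.2.2.2.2.2) hw.2.2.2.2.2)⟩ ).elim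
  · exact (P1_AAB_S1_S3_M23 n1 n2 n3 A1 A2 A3 B1 B2 B3 hb hp ⟨hy.1, hz.1, hw.1⟩ ⟨hs_wzy.1.trans (add_le_add (add_le_add hw.2.1 hz.2.1) hy.2.1), hs_wzy.1.trans (add_le_add (add_le_add hw.2.1 hz.2.1) hy.2.2.1), hs_wzy.1.trans (add_le_add (add_le_add hw.2.1 hz.2.2.1) hy.2.1), hs_wzy.1.trans (add_le_add (add_le_add hw.2.1 hz.2.2.1) hy.2.2.1), hs_wzy.2.1.trans (add_le_add (add_le_add hw.2.2.1 hz.2.2.2.1) hy.2.2.2.1), hs_wzy.2.1.trans (add_le_add (add_le_add hw.2.2.1 hz.2.2.2.2.1) hy.2.2.2.1), hs_wzy.2.2.trans (add_le_add (add_le_add hw.2.2.2 hz.2.2.2.2.2) hy.2.2.2.2.1), hs_wzy.2.2.trans (add_le_add (add_le_add hw.2.2.2 hz.2.2.2.2.2) hy.2.2.2.2.2)⟩ m_AB_S1_S3 m_AA_S3_M13).elim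
  · exact (P1_AAB_S2_S3_M23 n1 n2 n3 A1 A2 A3 B1 B2 B3 hb hp ⟨hy.1, hz.1, hw.1⟩ ⟨hs_wzy.1.trans (add_le_add (add_le_add hw.2.1 hz.2.1) hy.2.1), hs_wzy.1.trans (add_le_add (add_le_add hw.2.1 hz.2.1) hy.2.2.1), hs_wzy.1.trans (add_le_add (add_le_add hw.2.1 hz.2.2.1) hy.2.1), hs_wzy.1.trans (add_le_add (add_le_add hw.2.1 hz.2.2.1) hy.2.2.1), hs_wzy.1.trans (add_le_add (add_le_add hw.2.2.1 hz.2.1) hy.2.1), hs_wzy.1.trans (add_le_add (add_le_add hw.2.2.1 hz.2.1) hy.2.2.1), hs_wzy.1.trans (add_le_add (add_le_add hw.2.2.1 hz.2.2.1) hy.2.1), hs_wzy.1.trans (add_le_add (add_le_add hw.2.2.1 hz.2.2.1) hy.2.2.1), hs_wzy.2.1.trans (add_le_add (add_le_add hw.2.2.2.1 hz.2.2.2.1) hy.2.2.2.1), hs_wzy.2.1.trans (add_le_add (add_le_add hw.2.2.2.1 hz.2.2.2.2.1) hy.2.2.2.1), hs_wzy.2.2.trans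 (add_le_add (add_le_add hw.2.2.2.2 hz.2.2.2.2.2) hy.2.2.2.2.1), hs_wzy.2.2.trans (add_le_add (add_le_add hw.2.2.2.2 hz.2.2.2.2.2) hy.2.2.2.2.2)⟩ m_AA_S3_M23 m_AB_S2_S3 m_AB_S2_M13).elim
  · exact (P1_AAB_S3_S3_M23 n1 n2 n3 A1 A2 A3 B1 B2 B3 hb hp ⟨hy.1, hz.1⟩ ⟨hs_zwy.1.trans (add_le_add (add_le_add hz.2.1 hw.2.1) hy.2.1), hs_zwy.1.trans (add_le_add (add_le_add hz.2.1 hw.2.1) hy.2.2.1), hs_zwy.1.trans (add_le_add (add_le_add hz.2.1 hw.2.2.1) hy.2.1), hs_zwy.1.trans (add_le_add (add_le_add hz.2.1 hw.2.2.1) hy.2.2.1), hs_zwy.1.trans (add_le_add (add_le_add hz.2.2.1 hw.2.1) hy.2.1), hs_zwy.1.trans (add_le_add (add_le_add hz.2.2.1 hw.2.1) hy.2.2.1), hs_zwy.1.trans (add_le_add (add_le_add hz.2.2.1 hw.2.2.1) hy.2.1), hs_zwy.1.trans (add_le_add (add_le_add hz.2.2.1 hw.2.2.1) hy.2.2.1),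 hs_zwy.2.1.trans (add_le_add (add_le_add hz.2.2.2.1 hw.2.2.2.1) hy.2.2.2.1), hs_zwy.2.1.trans (add_le_add (add_le_add hz.2.2.2.1 hw.2.2.2.2.1) hy.2.2.2.1), hs_zwy.2.1.trans (add_le_add (add_le_add hz.2.2.2.2.1 hw.2.2.2.1) hy.2.2.2.1), hs_zwy.2.1.trans (add_le_add (add_le_add hz.2.2.2.2.1 hw.2.2.2.2.1) hy.2.2.2.1), hs_zwy.2.2.trans (add_le_add (add_le_add hz.2.2.2.2.2 hw.2.2.2.2.2) hy.2.2.2.2.1), hs_zwy.2.2.trans (add_le_add (add_le_add hz.2.2.2.2.2 hw.2.2.2.2.2) hy.2.2.2.2.2)⟩ ).elim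
  · exact (P1_AAB_S3_M13_M23 n1 n2 n3 A1 A2 A3 B1 B2 B3 hb hp ⟨hw.1, hy.1, hz.1⟩ ⟨hs_zwy.1.trans (add_le_add (add_le_add hz.2.1 hw.2.1) hy.2.1), hs_zwy.1.trans (add_le_add (add_le_add hz.2.1 hw.2.1) hy.2.2.1), hs_zwy.1.trans (add_le_add (add_le_add hz.2.2.1 hw.2.1) hy.2.1), hs_zwy.1.trans (add_le_add (add_le_add hz.2.2.1 hw.2.1) hy.2.2.1), hs_zwy.2.1.trans (add_le_add (add_le_add hz.2.2.2.1 hw.2.2.1) hy.2.2.2.1), hs_zwy.2.1.trans (add_le_add (add_le_add hz.2.2.2.1 hw.2.2.2.1) hy.2.2.2.1), hs_zwy.2.1.trans (add_le_add (add_le_add hz.2.2.2.2.1 hw.2.2.1) hy.2.2.2.1), hs_zwy.2.1.trans (add_le_add (add_le_add hz.2.2.2.2.1 hw.2.2.2.1) hy.2.2.2.1), hs_zwy.2.2.trans (add_le_add (add_le_add hz.2.2.2.2.2 hw.2.2.2.2.1) hy.2.2.2.2.1), hs_zwy.2.2.trans (add_le_add (add_le_add hz.2.2.2.2.2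 hw.2.2.2.2.1) hy.2.2.2.2.2), hs_zwy.2.2.trans (add_le_add (add_le_add hz.2.2.2.2.2 hw.2.2.2.2.2) hy.2.2.2.2.1), hs_zwy.2.2.trans (add_le_add (add_le_add hz.2.2.2.2.2 hw.2.2.2.2.2) hy.2.2.2.2.2)⟩ m_AB_M13_M23 m_AA_S2_S3 m_AA_S1_S3).elim
  · exact (P1_AAB_S3_M23_M23 n1 n2 n3 A1 A2 A3 B1 B2 B3 hb hp ⟨hy.1, hz.1⟩ ⟨hs_zyw.1.trans (add_le_add (add_le_add hz.2.1 hy.2.1) hw.2.1), hs_zyw.1.trans (add_le_add (add_le_add hz.2.1 hy.2.1) hw.2.2.1), hs_zyw.1.trans (add_le_add (add_le_add hz.2.1 hy.2.2.1) hw.2.1), hs_zyw.1.trans (add_le_add (add_le_add hz.2.1 hy.2.2.1) hw.2.2.1), hs_zyw.1.trans (add_le_add (add_le_add hz.2.2.1 hy.2.1) hw.2.1), hs_zyw.1.trans (add_le_add (add_le_add hz.2.2.1 hy.2.1) hw.2.2.1), hs_zyw.1.trans (add_le_add (add_le_add hz.2.2.1 hy.2.2.1) hw.2.1), hs_zyw.1.trans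 (add_le_add (add_le_add hz.2.2.1 hy.2.2.1) hw.2.2.1), hs_zyw.2.1.trans (add_le_add (add_le_add hz.2.2.2.1 hy.2.2.2.1) hw.2.2.2.1), hs_zyw.2.1.trans (add_le_add (add_le_add hz.2.2.2.2.1 hy.2.2.2.1) hw.2.2.2.1), hs_zyw.2.2.trans (add_le_add (add_le_add hz.2.2.2.2.2 hy.2.2.2.2.1) hw.2.2.2.2.1), hs_zyw.2.2.trans (add_le_add (add_le_add hz.2.2.2.2.2 hy.2.2.2.2.1) hw.2.2.2.2.2), hs_zyw.2.2.trans (add_le_add (add_le_add hz.2.2.2.2.2 hy.2.2.2.2.2) hw.2.2.2.2.1), hs_zyw.2.2.trans (add_le_add (add_le_add hz.2.2.2.2.2 hy.2.2.2.2.2) hw.2.2.2.2.2)⟩ m_AA_S3_M23 m_AB_M23_M23 m_AB_M13_M13).elim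
  · exact (P1_AAB_S1_M13_M23 n1 n2 n3 A1 A2 A3 B1 B2 B3 hb hp ⟨hz.1, hy.1, hw.1⟩ ⟨hs_wzy.1.trans (add_le_add (add_le_add hw.2.1 hz.2.1) hy.2.1), hs_wzy.1.trans (add_le_add (add_le_add hw.2.1 hz.2.1) hy.2.2.1), hs_wzy.2.1.trans (add_le_add (add_le_add hw.2.2.1 hz.2.2.1) hy.2.2.2.1), hs_wzy.2.1.trans (add_le_add (add_le_add hw.2.2.1 hz.2.2.2.1) hy.2.2.2.1), hs_wzy.2.2.trans (add_le_add (add_le_add hw.2.2.2 hz.2.2.2.2.1) hy.2.2.2.2.1), hs_wzy.2.2.trans (add_le_add (add_le_add hw.2.2.2 hz.2.2.2.2.1) hy.2.2.2.2.2), hs_wzy.2.2.trans (add_le_add (add_le_add hw.2.2.2 hz.2.2.2.2.2) hy.2.2.2.2.1), hs_wzy.2.2.trans (add_le_add (add_le_add hw.2.2.2 hz.2.2.2.2.2) hy.2.2.2.2.2)⟩ m_AA_M13_M23 m_AB_S1_S3).elim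
  · exact (P1_AAB_S2_M13_M23 n1 n2 n3 A1 A2 A3 B1 B2 B3 hb hp ⟨hz.1, hy.1, hw.1⟩ ⟨hs_wzy.1.trans (add_le_add (add_le_add hw.2.1 hz.2.1) hy.2.1), hs_wzy.1.trans (add_le_add (add_le_add hw.2.1 hz.2.1) hy.2.2.1), hs_wzy.1.trans (add_le_add (add_le_add hw.2.2.1 hz.2.1) hy.2.1), hs_wzy.1.trans (add_le_add (add_le_add hw.2.2.1 hz.2.1) hy.2.2.1), hs_wzy.2.1.trans (add_le_add (add_le_add hw.2.2.2.1 hz.2.2.1) hy.2.2.2.1), hs_wzy.2.1.trans (add_le_add (add_le_add hw.2.2.2.1 hz.2.2.2.1) hy.2.2.2.1), hs_wzy.2.2.trans (add_le_add (add_le_add hw.2.2.2.2 hz.2.2.2.2.1) hy.2.2.2.2.1), hs_wzy.2.2.trans (add_le_add (add_le_add hw.2.2.2.2 hz.2.2.2.2.1) hy.2.2.2.2.2), hs_wzy.2.2.trans (add_le_add (add_le_add hw.2.2.2.2 hz.2.2.2.2.2) hy.2.2.2.2.1), hs_wzy.2.2.trans (add_le_add (add_le_add hw.2.2.2.2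 hz.2.2.2.2.2) hy.2.2.2.2.2)⟩ m_AA_M13_M23 m_AB_S2_M13).elim
  · exact (P1_AAB_S3_M13_M23 n1 n2 n3 A1 A2 A3 B1 B2 B3 hb hp ⟨hz.1, hy.1, hw.1⟩ ⟨hs_wzy.1.trans (add_le_add (add_le_add hw.2.1 hz.2.1) hy.2.1), hs_wzy.1.trans (add_le_add (add_le_add hw.2.1 hz.2.1) hy.2.2.1), hs_wzy.1.trans (add_le_add (add_le_add hw.2.2.1 hz.2.1) hy.2.1), hs_wzy.1.trans (add_le_add (add_le_add hw.2.2.1 hz.2.1) hy.2.2.1), hs_wzy.2.1.trans (add_le_add (add_le_add hw.2.2.2.1 hz.2.2.1) hy.2.2.2.1), hs_wzy.2.1.trans (add_le_add (add_le_add hw.2.2.2.1 hz.2.2.2.1) hy.2.2.2.1), hs_wzy.2.1.trans (add_le_add (add_le_add hw.2.2.2.2.1 hz.2.2.1) hy.2.2.2.1), hs_wzy.2.1.trans (add_le_add (add_le_add hw.2.2.2.2.1 hz.2.2.2.1) hy.2.2.2.1), hs_wzy.2.2.trans (add_le_add (add_le_add hw.2.2.2.2.2 hz.2.2.2.2.1) hy.2.2.2.2.1),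 hs_wzy.2.2.trans (add_le_add (add_le_add hw.2.2.2.2.2 hz.2.2.2.2.1) hy.2.2.2.2.2), hs_wzy.2.2.trans (add_le_add (add_le_add hw.2.2.2.2.2 hz.2.2.2.2.2) hy.2.2.2.2.1), hs_wzy.2.2.trans (add_le_add (add_le_add hw.2.2.2.2.2 hz.2.2.2.2.2) hy.2.2.2.2.2)⟩ m_AB_M13_M23 m_AA_S2_S3 m_AA_S1_S3).elim
  · exact (P1_AAB_M13_M13_M23 n1 n2 n3 A1 A2 A3 B1 B2 B3 hb hp ⟨hz.1, hy.1⟩ ⟨hs_zwy.1.trans (add_le_add (add_le_add hz.2.1 hw.2.1) hy.2.1), hs_zwy.1.trans (add_le_add (add_le_add hz.2.1 hw.2.1) hy.2.2.1), hs_zwy.2.1.trans (add_le_add (add_le_add hz.2.2.1 hw.2.2.1) hy.2.2.2.1), hs_zwy.2.1.trans (add_le_add (add_le_add hz.2.2.1 hw.2.2.2.1) hy.2.2.2.1), hs_zwy.2.1.trans (add_le_add (add_le_add hz.2.2.2.1 hw.2.2.1) hy.2.2.2.1), hs_zwy.2.1.trans (add_le_add (add_le_add hz.2.2.2.1 hw.2.2.2.1)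 hy.2.2.2.1), hs_zwy.2.2.trans (add_le_add (add_le_add hz.2.2.2.2.1 hw.2.2.2.2.1) hy.2.2.2.2.1), hs_zwy.2.2.trans (add_le_add (add_le_add hz.2.2.2.2.1 hw.2.2.2.2.1) hy.2.2.2.2.2), hs_zwy.2.2.trans (add_le_add (add_le_add hz.2.2.2.2.1 hw.2.2.2.2.2) hy.2.2.2.2.1), hs_zwy.2.2.trans (add_le_add (add_le_add hz.2.2.2.2.1 hw.2.2.2.2.2) hy.2.2.2.2.2), hs_zwy.2.2.trans (add_le_add (add_le_add hz.2.2.2.2.2 hw.2.2.2.2.1) hy.2.2.2.2.1), hs_zwy.2.2.trans (add_le_add (add_le_add hz.2.2.2.2.2 hw.2.2.2.2.1) hy.2.2.2.2.2), hs_zwy.2.2.trans (add_le_add (add_le_add hz.2.2.2.2.2 hw.2.2.2.2.2) hy.2.2.2.2.1), hs_zwy.2.2.trans (add_le_add (add_le_add hz.2.2.2.2.2 hw.2.2.2.2.2) hy.2.2.2.2.2)⟩ m_AB_M13_M23).elim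
  · exact (P1_AAB_M13_M23_M23 n1 n2 n3 A1 A2 A3 B1 B2 B3 hb hp ⟨hz.1, hy.1⟩ ⟨hs_zyw.1.trans (add_le_add (add_le_add hz.2.1 hy.2.1) hw.2.1), hs_zyw.1.trans (add_le_add (add_le_add hz.2.1 hy.2.1) hw.2.2.1), hs_zyw.1.trans (add_le_add (add_le_add hz.2.1 hy.2.2.1) hw.2.1), hs_zyw.1.trans (add_le_add (add_le_add hz.2.1 hy.2.2.1) hw.2.2.1), hs_zyw.2.1.trans (add_le_add (add_le_add hz.2.2.1 hy.2.2.2.1) hw.2.2.2.1), hs_zyw.2.1.trans (add_le_add (add_le_add hz.2.2.2.1 hy.2.2.2.1) hw.2.2.2.1), hs_zyw.2.2.trans (add_le_add (add_le_add hz.2.2.2.2.1 hy.2.2.2.2.1) hw.2.2.2.2.1), hs_zyw.2.2.trans (add_le_add (add_le_add hz.2.2.2.2.1 hy.2.2.2.2.1) hw.2.2.2.2.2), hs_zyw.2.2.trans (add_le_add (add_le_add hz.2.2.2.2.1 hy.2.2.2.2.2) hw.2.2.2.2.1), hs_zyw.2.2.trans (add_le_add (add_le_add hz.2.2.2.2.1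 hy.2.2.2.2.2) hw.2.2.2.2.2), hs_zyw.2.2.trans (add_le_add (add_le_add hz.2.2.2.2.2 hy.2.2.2.2.1) hw.2.2.2.2.1), hs_zyw.2.2.trans (add_le_add (add_le_add hz.2.2.2.2.2 hy.2.2.2.2.1) hw.2.2.2.2.2), hs_zyw.2.2.trans (add_le_add (add_le_add hz.2.2.2.2.2 hy.2.2.2.2.2) hw.2.2.2.2.1), hs_zyw.2.2.trans (add_le_add (add_le_add hz.2.2.2.2.2 hy.2.2.2.2.2) hw.2.2.2.2.2)⟩ m_AB_M13_M23).elim
  · exact (P1_AAB_S1_M23_M23 n1 n2 n3 A1 A2 A3 B1 B2 B3 hb hp ⟨hy.1, hw.1⟩ ⟨hs_wyz.1.trans (add_le_add (add_le_add hw.2.1 hy.2.1) hz.2.1), hs_wyz.1.trans (add_le_add (add_le_add hw.2.1 hy.2.1) hz.2.2.1), hs_wyz.1.trans (add_le_add (add_le_add hw.2.1 hy.2.2.1) hz.2.1), hs_wyz.1.trans (add_le_add (add_le_add hw.2.1 hy.2.2.1) hz.2.2.1), hs_wyz.2.1.trans (add_le_add (add_le_add hw.2.2.1 hy.2.2.2.1) hz.2.2.2.1),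 hs_wyz.2.2.trans (add_le_add (add_le_add hw.2.2.2 hy.2.2.2.2.1) hz.2.2.2.2.1), hs_wyz.2.2.trans (add_le_add (add_le_add hw.2.2.2 hy.2.2.2.2.1) hz.2.2.2.2.2), hs_wyz.2.2.trans (add_le_add (add_le_add hw.2.2.2 hy.2.2.2.2.2) hz.2.2.2.2.1), hs_wyz.2.2.trans (add_le_add (add_le_add hw.2.2.2 hy.2.2.2.2.2) hz.2.2.2.2.2)⟩ m_AB_S1_S3).elim
  · exact (P1_AAB_S2_M23_M23 n1 n2 n3 A1 A2 A3 B1 B2 B3 hb hp ⟨hy.1, hw.1⟩ ⟨hs_wyz.1.trans (add_le_add (add_le_add hw.2.1 hy.2.1) hz.2.1), hs_wyz.1.trans (add_le_add (add_le_add hw.2.1 hy.2.1) hz.2.2.1), hs_wyz.1.trans (add_le_add (add_le_add hw.2.1 hy.2.2.1) hz.2.1), hs_wyz.1.trans (add_le_add (add_le_add hw.2.1 hy.2.2.1) hz.2.2.1), hs_wyz.1.trans (add_le_add (add_le_add hw.2.2.1 hy.2.1) hz.2.1), hs_wyz.1.trans (add_le_add (add_le_add hw.2.2.1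 hy.2.1) hz.2.2.1), hs_wyz.1.trans (add_le_add (add_le_add hw.2.2.1 hy.2.2.1) hz.2.1), hs_wyz.1.trans (add_le_add (add_le_add hw.2.2.1 hy.2.2.1) hz.2.2.1), hs_wyz.2.1.trans (add_le_add (add_le_add hw.2.2.2.1 hy.2.2.2.1) hz.2.2.2.1), hs_wyz.2.2.trans (add_le_add (add_le_add hw.2.2.2.2 hy.2.2.2.2.1) hz.2.2.2.2.1), hs_wyz.2.2.trans (add_le_add (add_le_add hw.2.2.2.2 hy.2.2.2.2.1) hz.2.2.2.2.2), hs_wyz.2.2.trans (add_le_add (add_le_add hw.2.2.2.2 hy.2.2.2.2.2) hz.2.2.2.2.1), hs_wyz.2.2.trans (add_le_add (add_le_add hw.2.2.2.2 hy.2.2.2.2.2) hz.2.2.2.2.2)⟩ ).elim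
  · exact (P1_AAB_S3_M23_M23 n1 n2 n3 A1 A2 A3 B1 B2 B3 hb hp ⟨hy.1, hw.1⟩ ⟨hs_wyz.1.trans (add_le_add (add_le_add hw.2.1 hy.2.1) hz.2.1), hs_wyz.1.trans (add_le_add (add_le_add hw.2.1 hy.2.1) hz.2.2.1), hs_wyz.1.trans (add_le_add (add_le_add hw.2.1 hy.2.2.1) hz.2.1), hs_wyz.1.trans (add_le_add (add_le_add hw.2.1 hy.2.2.1) hz.2.2.1), hs_wyz.1.trans (add_le_add (add_le_add hw.2.2.1 hy.2.1) hz.2.1), hs_wyz.1.trans (add_le_add (add_le_add hw.2.2.1 hy.2.1) hz.2.2.1), hs_wyz.1.trans (add_le_add (add_le_add hw.2.2.1 hy.2.2.1) hz.2.1), hs_wyz.1.trans (add_le_add (add_le_add hw.2.2.1 hy.2.2.1) hz.2.2.1), hs_wyz.2.1.trans (add_le_add (add_le_add hw.2.2.2.1 hy.2.2.2.1) hz.2.2.2.1), hs_wyz.2.1.trans (add_le_add (add_le_add hw.2.2.2.2.1 hy.2.2.2.1) hz.2.2.2.1), hs_wyz.2.2.trans (add_le_add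 (add_le_add hw.2.2.2.2.2 hy.2.2.2.2.1) hz.2.2.2.2.1), hs_wyz.2.2.trans (add_le_add (add_le_add hw.2.2.2.2.2 hy.2.2.2.2.1) hz.2.2.2.2.2), hs_wyz.2.2.trans (add_le_add (add_le_add hw.2.2.2.2.2 hy.2.2.2.2.2) hz.2.2.2.2.1), hs_wyz.2.2.trans (add_le_add (add_le_add hw.2.2.2.2.2 hy.2.2.2.2.2) hz.2.2.2.2.2)⟩ m_AA_S3_M23 m_AB_M23_M23 m_AB_M13_M13).elim
  · exact (P1_AAB_M13_M23_M23 n1 n2 n3 A1 A2 A3 B1 B2 B3 hb hp ⟨hw.1, hy.1⟩ ⟨hs_wyz.1.trans (add_le_add (add_le_add hw.2.1 hy.2.1) hz.2.1), hs_wyz.1.trans (add_le_add (add_le_add hw.2.1 hy.2.1) hz.2.2.1), hs_wyz.1.trans (add_le_add (add_le_add hw.2.1 hy.2.2.1) hz.2.1), hs_wyz.1.trans (add_le_add (add_le_add hw.2.1 hy.2.2.1) hz.2.2.1), hs_wyz.2.1.trans (add_le_add (add_le_add hw.2.2.1 hy.2.2.2.1) hz.2.2.2.1), hs_wyz.2.1.trans (add_le_add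 (add_le_add hw.2.2.2.1 hy.2.2.2.1) hz.2.2.2.1), hs_wyz.2.2.trans (add_le_add (add_le_add hw.2.2.2.2.1 hy.2.2.2.2.1) hz.2.2.2.2.1), hs_wyz.2.2.trans (add_le_add (add_le_add hw.2.2.2.2.1 hy.2.2.2.2.1) hz.2.2.2.2.2), hs_wyz.2.2.trans (add_le_add (add_le_add hw.2.2.2.2.1 hy.2.2.2.2.2) hz.2.2.2.2.1), hs_wyz.2.2.trans (add_le_add (add_le_add hw.2.2.2.2.1 hy.2.2.2.2.2) hz.2.2.2.2.2), hs_wyz.2.2.trans (add_le_add (add_le_add hw.2.2.2.2.2 hy.2.2.2.2.1) hz.2.2.2.2.1), hs_wyz.2.2.trans (add_le_add (add_le_add hw.2.2.2.2.2 hy.2.2.2.2.1) hz.2.2.2.2.2), hs_wyz.2.2.trans (add_le_add (add_le_add hw.2.2.2.2.2 hy.2.2.2.2.2) hz.2.2.2.2.1), hs_wyz.2.2.trans (add_le_add (add_le_add hw.2.2.2.2.2 hy.2.2.2.2.2) hz.2.2.2.2.2)⟩ m_AB_M13_M23).elim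
  · exact (P1_AAB_M23_M23_M23 n1 n2 n3 A1 A2 A3 B1 B2 B3 hb hp hy.1 ⟨hs.1.trans (add_le_add (add_le_add hy.2.1 hz.2.1) hw.2.1), hs.1.trans (add_le_add (add_le_add hy.2.1 hz.2.1) hw.2.2.1), hs.1.trans (add_le_add (add_le_add hy.2.1 hz.2.2.1) hw.2.1), hs.1.trans (add_le_add (add_le_add hy.2.1 hz.2.2.1) hw.2.2.1), hs.1.trans (add_le_add (add_le_add hy.2.2.1 hz.2.1) hw.2.1), hs.1.trans (add_le_add (add_le_add hy.2.2.1 hz.2.1) hw.2.2.1), hs.1.trans (add_le_add (add_le_add hy.2.2.1 hz.2.2.1) hw.2.1), hs.1.trans (add_le_add (add_le_add hy.2.2.1 hz.2.2.1) hw.2.2.1), hs.2.1.trans (add_le_add (add_le_add hy.2.2.2.1 hz.2.2.2.1) hw.2.2.2.1), hs.2.2.trans (add_le_add (add_le_add hy.2.2.2.2.1 hz.2.2.2.2.1) hw.2.2.2.2.1), hs.2.2.trans (add_le_add (add_le_add hy.2.2.2.2.1 hz.2.2.2.2.1)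 hw.2.2.2.2.2), hs.2.2.trans (add_le_add (add_le_add hy.2.2.2.2.1 hz.2.2.2.2.2) hw.2.2.2.2.1), hs.2.2.trans (add_le_add (add_le_add hy.2.2.2.2.1 hz.2.2.2.2.2) hw.2.2.2.2.2), hs.2.2.trans (add_le_add (add_le_add hy.2.2.2.2.2 hz.2.2.2.2.1) hw.2.2.2.2.1), hs.2.2.trans (add_le_add (add_le_add hy.2.2.2.2.2 hz.2.2.2.2.1) hw.2.2.2.2.2), hs.2.2.trans (add_le_add (add_le_add hy.2.2.2.2.2 hz.2.2.2.2.2) hw.2.2.2.2.1), hs.2.2.trans (add_le_add (add_le_add hy.2.2.2.2.2 hz.2.2.2.2.2) hw.2.2.2.2.2)⟩ m_AB_M23_M23).elim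

theorem coreP1ABB (n1 n2 n3 A1 A2 A3 B1 B2 B3 y1 y2 y3 z1 z2 z3 w1 w2 w3 : ℤ) (hb : Base n1 n2 n3 A1 A2 A3 B1 B2 B3) (hp : B1 ≤ A1 ∧ B2 ≤ A2 ∧ A3 < B3 ∧ (B1 < A1 ∨ B2 < A2))
    (hNT : NoTwo n1 n2 n3 A1 A2 A3 B1 B2 B3)
    (hy : KindP1 n1 n2 n3 A1 A2 A3 B1 B2 B3 y1 y2 y3) (hz : KindP1 n1 n2 n3 A1 A2 A3 B1 B2 B3 z1 z2 z3) (hw : KindP1 n1 n2 n3 A1 A2 A3 B1 B2 B3 w1 w2 w3)
    (hs : A1 + B1 + B1 ≤ y1 + z1 + w1 ∧ A2 + B2 + B2 ≤ y2 + z2 + w2 ∧ A3 + B3 + B3 ≤ y3 + z3 + w3) :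
    Fam n1 n2 n3 A1 A2 A3 B1 B2 B3 := by
  have m_AB_M13_M13 := NP1_AB_M13_M13 n1 n2 n3 A1 A2 A3 B1 B2 B3 hb hp hNT
  have m_AB_M13_M23 := NP1_AB_M13_M23 n1 n2 n3 A1 A2 A3 B1 B2 B3 hb hp hNT
  have m_AB_M23_M23 := NP1_AB_M23_M23 n1 n2 n3 A1 A2 A3 B1 B2 B3 hb hp hNT
  have m_BB_S1_M13 := NP1_BB_S1_M13 n1 n2 n3 A1 A2 A3 B1 B2 B3 hb hp hNT
  have m_BB_S1_M23 := NP1_BB_S1_M23 n1 n2 n3 A1 A2 A3 B1 B2 B3 hb hp hNT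
  have m_AB_S2_M13 := NP1_AB_S2_M13 n1 n2 n3 A1 A2 A3 B1 B2 B3 hb hp hNT
  have m_AB_S1_S3 := NP1_AB_S1_S3 n1 n2 n3 A1 A2 A3 B1 B2 B3 hb hp hNT
  have m_BB_S1_S2 := NP1_BB_S1_S2 n1 n2 n3 A1 A2 A3 B1 B2 B3 hb hp hNT
  have m_BB_S2_M13 := NP1_BB_S2_M13 n1 n2 n3 A1 A2 A3 B1 B2 B3 hb hp hNT
  have m_BB_S1_S3 := NP1_BB_S1_S3 n1 n2 n3 A1 A2 A3 B1 B2 B3 hb hp hNT
  have m_BB_S2_M23 := NP1_BB_S2_M23 n1 n2 n3 A1 A2 A3 B1 B2 B3 hb hp hNT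
  have m_AB_S2_S3 := NP1_AB_S2_S3 n1 n2 n3 A1 A2 A3 B1 B2 B3 hb hp hNT
  have m_BB_S2_S3 := NP1_BB_S2_S3 n1 n2 n3 A1 A2 A3 B1 B2 B3 hb hp hNT
  have hs_ywz : A1 + B1 + B1 ≤ y1 + w1 + z1 ∧ A2 + B2 + B2 ≤ y2 + w2 + z2 ∧ A3 + B3 + B3 ≤ y3 + w3 + z3 := by
    clear m_AB_M13_M13 m_AB_M13_M23 m_AB_M23_M23 m_BB_S1_M13 m_BB_S1_M23 m_AB_S2_M13 m_AB_S1_S3 m_BB_S1_S2 m_BB_S2_M13 m_BB_S1_S3 m_BB_S2_M23 m_AB_S2_S3 m_BB_S2_S3 hy hz hw hNT hb hp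
    omega
  have hs_zyw : A1 + B1 + B1 ≤ z1 + y1 + w1 ∧ A2 + B2 + B2 ≤ z2 + y2 + w2 ∧ A3 + B3 + B3 ≤ z3 + y3 + w3 := by
    clear m_AB_M13_M13 m_AB_M13_M23 m_AB_M23_M23 m_BB_S1_M13 m_BB_S1_M23 m_AB_S2_M13 m_AB_S1_S3 m_BB_S1_S2 m_BB_S2_M13 m_BB_S1_S3 m_BB_S2_M23 m_AB_S2_S3 m_BB_S2_S3 hy hz hw hNT hb hp
    omega
  have hs_zwy : A1 + B1 + B1 ≤ z1 + w1 + y1 ∧ A2 + B2 + B2 ≤ z2 + w2 + y2 ∧ A3 + B3 + B3 ≤ z3 + w3 + y3 := by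
    clear m_AB_M13_M13 m_AB_M13_M23 m_AB_M23_M23 m_BB_S1_M13 m_BB_S1_M23 m_AB_S2_M13 m_AB_S1_S3 m_BB_S1_S2 m_BB_S2_M13 m_BB_S1_S3 m_BB_S2_M23 m_AB_S2_S3 m_BB_S2_S3 hy hz hw hNT hb hp
    omega
  have hs_wyz : A1 + B1 + B1 ≤ w1 + y1 + z1 ∧ A2 + B2 + B2 ≤ w2 + y2 + z2 ∧ A3 + B3 + B3 ≤ w3 + y3 + z3 := by
    clear m_AB_M13_M13 m_AB_M13_M23 m_AB_M23_M23 m_BB_S1_M13 m_BB_S1_M23 m_AB_S2_M13 m_AB_S1_S3 m_BB_S1_S2 m_BB_S2_M13 m_BB_S1_S3 m_BB_S2_M23 m_AB_S2_S3 m_BB_S2_S3 hy hz hw hNT hb hp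
    omega
  have hs_wzy : A1 + B1 + B1 ≤ w1 + z1 + y1 ∧ A2 + B2 + B2 ≤ w2 + z2 + y2 ∧ A3 + B3 + B3 ≤ w3 + z3 + y3 := by
    clear m_AB_M13_M13 m_AB_M13_M23 m_AB_M23_M23 m_BB_S1_M13 m_BB_S1_M23 m_AB_S2_M13 m_AB_S1_S3 m_BB_S1_S2 m_BB_S2_M13 m_BB_S1_S3 m_BB_S2_M23 m_AB_S2_S3 m_BB_S2_S3 hy hz hw hNT hb hp
    omega
  rcases hy with hy | hy | hy | hy | hy <;> rcases hz with hz | hz | hz | hz | hz <;>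
    rcases hw with hw | hw | hw | hw | hw
  · exact (P1_ABB_S1_S1_S1 n1 n2 n3 A1 A2 A3 B1 B2 B3 hb hp hy.1 ⟨hs.1.trans (add_le_add (add_le_add hy.2.1 hz.2.1) hw.2.1), hs.2.1.trans (add_le_add (add_le_add hy.2.2.1 hz.2.2.1) hw.2.2.1), hs.2.2.trans (add_le_add (add_le_add hy.2.2.2 hz.2.2.2) hw.2.2.2)⟩ ).elim
  · exact (P1_ABB_S1_S1_S2 n1 n2 n3 A1 A2 A3 B1 B2 B3 hb hp ⟨hy.1, hw.1⟩ ⟨hs.1.trans (add_le_add (add_le_add hy.2.1 hz.2.1) hw.2.1), hs.1.trans (add_le_add (add_le_add hy.2.1 hz.2.1) hw.2.2.1), hs.2.1.trans (add_le_add (add_le_add hy.2.2.1 hz.2.2.1) hw.2.2.2.1), hs.2.2.trans (add_le_add (add_le_add hy.2.2.2 hz.2.2.2) hw.2.2.2.2)⟩ m_AB_S1_S3).elim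
  · exact (P1_ABB_S1_S1_S3 n1 n2 n3 A1 A2 A3 B1 B2 B3 hb hp ⟨hw.1, hy.1⟩ ⟨hs.1.trans (add_le_add (add_le_add hy.2.1 hz.2.1) hw.2.1), hs.1.trans (add_le_add (add_le_add hy.2.1 hz.2.1) hw.2.2.1), hs.2.1.trans (add_le_add (add_le_add hy.2.2.1 hz.2.2.1) hw.2.2.2.1), hs.2.1.trans (add_le_add (add_le_add hy.2.2.1 hz.2.2.1) hw.2.2.2.2.1), hs.2.2.trans (add_le_add (add_le_add hy.2.2.2 hz.2.2.2) hw.2.2.2.2.2)⟩ m_AB_S1_S3).elim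
  · exact (P1_ABB_S1_S1_M13 n1 n2 n3 A1 A2 A3 B1 B2 B3 hb hp ⟨hw.1, hy.1⟩ ⟨hs.1.trans (add_le_add (add_le_add hy.2.1 hz.2.1) hw.2.1), hs.2.1.trans (add_le_add (add_le_add hy.2.2.1 hz.2.2.1) hw.2.2.1), hs.2.1.trans (add_le_add (add_le_add hy.2.2.1 hz.2.2.1) hw.2.2.2.1), hs.2.2.trans (add_le_add (add_le_add hy.2.2.2 hz.2.2.2) hw.2.2.2.2.1), hs.2.2.trans (add_le_add (add_le_add hy.2.2.2 hz.2.2.2) hw.2.2.2.2.2)⟩ ).elim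
  · exact (P1_ABB_S1_S1_M23 n1 n2 n3 A1 A2 A3 B1 B2 B3 hb hp ⟨hw.1, hy.1⟩ ⟨hs.1.trans (add_le_add (add_le_add hy.2.1 hz.2.1) hw.2.1), hs.1.trans (add_le_add (add_le_add hy.2.1 hz.2.1) hw.2.2.1), hs.2.1.trans (add_le_add (add_le_add hy.2.2.1 hz.2.2.1) hw.2.2.2.1), hs.2.2.trans (add_le_add (add_le_add hy.2.2.2 hz.2.2.2) hw.2.2.2.2.1), hs.2.2.trans (add_le_add (add_le_add hy.2.2.2 hz.2.2.2) hw.2.2.2.2.2)⟩ m_AB_S1_S3).elim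
  · exact (P1_ABB_S1_S1_S2 n1 n2 n3 A1 A2 A3 B1 B2 B3 hb hp ⟨hy.1, hz.1⟩ ⟨hs_ywz.1.trans (add_le_add (add_le_add hy.2.1 hw.2.1) hz.2.1), hs_ywz.1.trans (add_le_add (add_le_add hy.2.1 hw.2.1) hz.2.2.1), hs_ywz.2.1.trans (add_le_add (add_le_add hy.2.2.1 hw.2.2.1) hz.2.2.2.1), hs_ywz.2.2.trans (add_le_add (add_le_add hy.2.2.2 hw.2.2.2) hz.2.2.2.2)⟩ m_AB_S1_S3).elim
  · exact (P1_ABB_S1_S2_S2 n1 n2 n3 A1 A2 A3 B1 B2 B3 hb hp ⟨hy.1, hz.1⟩ ⟨hs.1.trans (add_le_add (add_le_add hy.2.1 hz.2.1) hw.2.1), hs.1.trans (add_le_add (add_le_add hy.2.1 hz.2.1) hw.2.2.1), hs.1.trans (add_le_add (add_le_add hy.2.1 hz.2.2.1) hw.2.1), hs.1.trans (add_le_add (add_le_add hy.2.1 hz.2.2.1) hw.2.2.1), hs.2.1.trans (add_le_add (add_le_add hy.2.2.1 hz.2.2.2.1) hw.2.2.2.1), hs.2.2.trans (add_le_add (add_le_add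 hy.2.2.2 hz.2.2.2.2) hw.2.2.2.2)⟩ m_BB_S1_S2).elim
  · exact (P1_ABB_S1_S2_S3 n1 n2 n3 A1 A2 A3 B1 B2 B3 hb hp ⟨hw.1, hy.1, hz.1⟩ ⟨hs.1.trans (add_le_add (add_le_add hy.2.1 hz.2.1) hw.2.1), hs.1.trans (add_le_add (add_le_add hy.2.1 hz.2.1) hw.2.2.1), hs.1.trans (add_le_add (add_le_add hy.2.1 hz.2.2.1) hw.2.1), hs.1.trans (add_le_add (add_le_add hy.2.1 hz.2.2.1) hw.2.2.1), hs.2.1.trans (add_le_add (add_le_add hy.2.2.1 hz.2.2.2.1) hw.2.2.2.1), hs.2.1.trans (add_le_add (add_le_add hy.2.2.1 hz.2.2.2.1) hw.2.2.2.2.1), hs.2.2.trans (add_le_add (add_le_add hy.2.2.2 hz.2.2.2.2) hw.2.2.2.2.2)⟩ m_BB_S1_M23 m_AB_S1_S3 m_AB_S2_M13).elim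
  · exact (P1_ABB_S1_S2_M13 n1 n2 n3 A1 A2 A3 B1 B2 B3 hb hp ⟨hw.1, hy.1, hz.1⟩ ⟨hs.1.trans (add_le_add (add_le_add hy.2.1 hz.2.1) hw.2.1), hs.1.trans (add_le_add (add_le_add hy.2.1 hz.2.2.1) hw.2.1), hs.2.1.trans (add_le_add (add_le_add hy.2.2.1 hz.2.2.2.1) hw.2.2.1), hs.2.1.trans (add_le_add (add_le_add hy.2.2.1 hz.2.2.2.1) hw.2.2.2.1), hs.2.2.trans (add_le_add (add_le_add hy.2.2.2 hz.2.2.2.2) hw.2.2.2.2.1), hs.2.2.trans (add_le_add (add_le_add hy.2.2.2 hz.2.2.2.2) hw.2.2.2.2.2)⟩ m_AB_S2_M13 m_BB_S1_S2).elim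
  · exact (P1_ABB_S1_S2_M23 n1 n2 n3 A1 A2 A3 B1 B2 B3 hb hp ⟨hw.1, hy.1, hz.1⟩ ⟨hs.1.trans (add_le_add (add_le_add hy.2.1 hz.2.1) hw.2.1), hs.1.trans (add_le_add (add_le_add hy.2.1 hz.2.1) hw.2.2.1), hs.1.trans (add_le_add (add_le_add hy.2.1 hz.2.2.1) hw.2.1), hs.1.trans (add_le_add (add_le_add hy.2.1 hz.2.2.1) hw.2.2.1), hs.2.1.trans (add_le_add (add_le_add hy.2.2.1 hz.2.2.2.1) hw.2.2.2.1), hs.2.2.trans (add_le_add (add_le_add hy.2.2.2 hz.2.2.2.2) hw.2.2.2.2.1), hs.2.2.trans (add_le_add (add_le_add hy.2.2.2 hz.2.2.2.2) hw.2.2.2.2.2)⟩ m_BB_S1_M23).elim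
  · exact (P1_ABB_S1_S1_S3 n1 n2 n3 A1 A2 A3 B1 B2 B3 hb hp ⟨hz.1, hy.1⟩ ⟨hs_ywz.1.trans (add_le_add (add_le_add hy.2.1 hw.2.1) hz.2.1), hs_ywz.1.trans (add_le_add (add_le_add hy.2.1 hw.2.1) hz.2.2.1), hs_ywz.2.1.trans (add_le_add (add_le_add hy.2.2.1 hw.2.2.1) hz.2.2.2.1), hs_ywz.2.1.trans (add_le_add (add_le_add hy.2.2.1 hw.2.2.1) hz.2.2.2.2.1), hs_ywz.2.2.trans (add_le_add (add_le_add hy.2.2.2 hw.2.2.2) hz.2.2.2.2.2)⟩ m_AB_S1_S3).elim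
  · exact (P1_ABB_S1_S2_S3 n1 n2 n3 A1 A2 A3 B1 B2 B3 hb hp ⟨hz.1, hy.1, hw.1⟩ ⟨hs_ywz.1.trans (add_le_add (add_le_add hy.2.1 hw.2.1) hz.2.1), hs_ywz.1.trans (add_le_add (add_le_add hy.2.1 hw.2.1) hz.2.2.1), hs_ywz.1.trans (add_le_add (add_le_add hy.2.1 hw.2.2.1) hz.2.1), hs_ywz.1.trans (add_le_add (add_le_add hy.2.1 hw.2.2.1) hz.2.2.1), hs_ywz.2.1.trans (add_le_add (add_le_add hy.2.2.1 hw.2.2.2.1) hz.2.2.2.1), hs_ywz.2.1.trans (add_le_add (add_le_add hy.2.2.1 hw.2.2.2.1) hz.2.2.2.2.1), hs_ywz.2.2.trans (add_le_add (add_le_add hy.2.2.2 hw.2.2.2.2) hz.2.2.2.2.2)⟩ m_BB_S1_M23 m_AB_S1_S3 m_AB_S2_M13).elim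
  · exact (P1_ABB_S1_S3_S3 n1 n2 n3 A1 A2 A3 B1 B2 B3 hb hp ⟨hz.1, hy.1⟩ ⟨hs.1.trans (add_le_add (add_le_add hy.2.1 hz.2.1) hw.2.1), hs.1.trans (add_le_add (add_le_add hy.2.1 hz.2.1) hw.2.2.1), hs.1.trans (add_le_add (add_le_add hy.2.1 hz.2.2.1) hw.2.1), hs.1.trans (add_le_add (add_le_add hy.2.1 hz.2.2.1) hw.2.2.1), hs.2.1.trans (add_le_add (add_le_add hy.2.2.1 hz.2.2.2.1) hw.2.2.2.1), hs.2.1.trans (add_le_add (add_le_add hy.2.2.1 hz.2.2.2.1) hw.2.2.2.2.1), hs.2.1.trans (add_le_add (add_le_add hy.2.2.1 hz.2.2.2.2.1) hw.2.2.2.1), hs.2.1.trans (add_le_add (add_le_add hy.2.2.1 hz.2.2.2.2.1) hw.2.2.2.2.1), hs.2.2.trans (add_le_add (add_le_add hy.2.2.2 hz.2.2.2.2.2) hw.2.2.2.2.2)⟩ m_BB_S1_S3).elim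
  · exact (P1_ABB_S1_S3_M13 n1 n2 n3 A1 A2 A3 B1 B2 B3 hb hp ⟨hw.1, hz.1, hy.1⟩ ⟨hs.1.trans (add_le_add (add_le_add hy.2.1 hz.2.1) hw.2.1), hs.1.trans (add_le_add (add_le_add hy.2.1 hz.2.2.1) hw.2.1), hs.2.1.trans (add_le_add (add_le_add hy.2.2.1 hz.2.2.2.1) hw.2.2.1), hs.2.1.trans (add_le_add (add_le_add hy.2.2.1 hz.2.2.2.1) hw.2.2.2.1), hs.2.1.trans (add_le_add (add_le_add hy.2.2.1 hz.2.2.2.2.1) hw.2.2.1), hs.2.1.trans (add_le_add (add_le_add hy.2.2.1 hz.2.2.2.2.1) hw.2.2.2.1), hs.2.2.trans (add_le_add (add_le_add hy.2.2.2 hz.2.2.2.2.2) hw.2.2.2.2.1), hs.2.2.trans (add_le_add (add_le_add hy.2.2.2 hz.2.2.2.2.2) hw.2.2.2.2.2)⟩ m_AB_S1_S3 m_BB_S1_M13 m_BB_S2_M13).elim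
  · exact (P1_ABB_S1_S3_M23 n1 n2 n3 A1 A2 A3 B1 B2 B3 hb hp ⟨hw.1, hz.1, hy.1⟩ ⟨hs.1.trans (add_le_add (add_le_add hy.2.1 hz.2.1) hw.2.1), hs.1.trans (add_le_add (add_le_add hy.2.1 hz.2.1) hw.2.2.1), hs.1.trans (add_le_add (add_le_add hy.2.1 hz.2.2.1) hw.2.1), hs.1.trans (add_le_add (add_le_add hy.2.1 hz.2.2.1) hw.2.2.1), hs.2.1.trans (add_le_add (add_le_add hy.2.2.1 hz.2.2.2.1) hw.2.2.2.1), hs.2.1.trans (add_le_add (add_le_add hy.2.2.1 hz.2.2.2.2.1) hw.2.2.2.1), hs.2.2.trans (add_le_add (add_le_add hy.2.2.2 hz.2.2.2.2.2) hw.2.2.2.2.1), hs.2.2.trans (add_le_add (add_le_add hy.2.2.2 hz.2.2.2.2.2) hw.2.2.2.2.2)⟩ m_AB_S1_S3 m_AB_M13_M23 m_BB_S1_S3).elim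
  · exact (P1_ABB_S1_S1_M13 n1 n2 n3 A1 A2 A3 B1 B2 B3 hb hp ⟨hz.1, hy.1⟩ ⟨hs_ywz.1.trans (add_le_add (add_le_add hy.2.1 hw.2.1) hz.2.1), hs_ywz.2.1.trans (add_le_add (add_le_add hy.2.2.1 hw.2.2.1) hz.2.2.1), hs_ywz.2.1.trans (add_le_add (add_le_add hy.2.2.1 hw.2.2.1) hz.2.2.2.1), hs_ywz.2.2.trans (add_le_add (add_le_add hy.2.2.2 hw.2.2.2) hz.2.2.2.2.1), hs_ywz.2.2.trans (add_le_add (add_le_add hy.2.2.2 hw.2.2.2) hz.2.2.2.2.2)⟩ ).elim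
  · exact (P1_ABB_S1_S2_M13 n1 n2 n3 A1 A2 A3 B1 B2 B3 hb hp ⟨hz.1, hy.1, hw.1⟩ ⟨hs_ywz.1.trans (add_le_add (add_le_add hy.2.1 hw.2.1) hz.2.1), hs_ywz.1.trans (add_le_add (add_le_add hy.2.1 hw.2.2.1) hz.2.1), hs_ywz.2.1.trans (add_le_add (add_le_add hy.2.2.1 hw.2.2.2.1) hz.2.2.1), hs_ywz.2.1.trans (add_le_add (add_le_add hy.2.2.1 hw.2.2.2.1) hz.2.2.2.1), hs_ywz.2.2.trans (add_le_add (add_le_add hy.2.2.2 hw.2.2.2.2) hz.2.2.2.2.1), hs_ywz.2.2.trans (add_le_add (add_le_add hy.2.2.2 hw.2.2.2.2) hz.2.2.2.2.2)⟩ m_AB_S2_M13 m_BB_S1_S2).elim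
  · exact (P1_ABB_S1_S3_M13 n1 n2 n3 A1 A2 A3 B1 B2 B3 hb hp ⟨hz.1, hw.1, hy.1⟩ ⟨hs_ywz.1.trans (add_le_add (add_le_add hy.2.1 hw.2.1) hz.2.1), hs_ywz.1.trans (add_le_add (add_le_add hy.2.1 hw.2.2.1) hz.2.1), hs_ywz.2.1.trans (add_le_add (add_le_add hy.2.2.1 hw.2.2.2.1) hz.2.2.1), hs_ywz.2.1.trans (add_le_add (add_le_add hy.2.2.1 hw.2.2.2.1) hz.2.2.2.1), hs_ywz.2.1.trans (add_le_add (add_le_add hy.2.2.1 hw.2.2.2.2.1) hz.2.2.1), hs_ywz.2.1.trans (add_le_add (add_le_add hy.2.2.1 hw.2.2.2.2.1) hz.2.2.2.1), hs_ywz.2.2.trans (add_le_add (add_le_add hy.2.2.2 hw.2.2.2.2.2) hz.2.2.2.2.1), hs_ywz.2.2.trans (add_le_add (add_le_add hy.2.2.2 hw.2.2.2.2.2) hz.2.2.2.2.2)⟩ m_AB_S1_S3 m_BB_S1_M13 m_BB_S2_M13).elim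
  · exact (P1_ABB_S1_M13_M13 n1 n2 n3 A1 A2 A3 B1 B2 B3 hb hp ⟨hz.1, hy.1⟩ ⟨hs.1.trans (add_le_add (add_le_add hy.2.1 hz.2.1) hw.2.1), hs.2.1.trans (add_le_add (add_le_add hy.2.2.1 hz.2.2.1) hw.2.2.1), hs.2.1.trans (add_le_add (add_le_add hy.2.2.1 hz.2.2.1) hw.2.2.2.1), hs.2.1.trans (add_le_add (add_le_add hy.2.2.1 hz.2.2.2.1) hw.2.2.1), hs.2.1.trans (add_le_add (add_le_add hy.2.2.1 hz.2.2.2.1) hw.2.2.2.1), hs.2.2.trans (add_le_add (add_le_add hy.2.2.2 hz.2.2.2.2.1) hw.2.2.2.2.1), hs.2.2.trans (add_le_add (add_le_add hy.2.2.2 hz.2.2.2.2.1) hw.2.2.2.2.2), hs.2.2.trans (add_le_add (add_le_add hy.2.2.2 hz.2.2.2.2.2) hw.2.2.2.2.1), hs.2.2.trans (add_le_add (add_le_add hy.2.2.2 hz.2.2.2.2.2) hw.2.2.2.2.2)⟩ m_BB_S1_M13 m_AB_M13_M13).elim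
  · exact (P1_ABB_S1_M13_M23 n1 n2 n3 A1 A2 A3 B1 B2 B3 hb hp ⟨hz.1, hw.1, hy.1⟩ ⟨hs.1.trans (add_le_add (add_le_add hy.2.1 hz.2.1) hw.2.1), hs.1.trans (add_le_add (add_le_add hy.2.1 hz.2.1) hw.2.2.1), hs.2.1.trans (add_le_add (add_le_add hy.2.2.1 hz.2.2.1) hw.2.2.2.1), hs.2.1.trans (add_le_add (add_le_add hy.2.2.1 hz.2.2.2.1) hw.2.2.2.1), hs.2.2.trans (add_le_add (add_le_add hy.2.2.2 hz.2.2.2.2.1) hw.2.2.2.2.1), hs.2.2.trans (add_le_add (add_le_add hy.2.2.2 hz.2.2.2.2.1) hw.2.2.2.2.2), hs.2.2.trans (add_le_add (add_le_add hy.2.2.2 hz.2.2.2.2.2) hw.2.2.2.2.1), hs.2.2.trans (add_le_add (add_le_add hy.2.2.2 hz.2.2.2.2.2) hw.2.2.2.2.2)⟩ m_AB_M13_M23 m_BB_S1_M23 m_AB_S2_M13).elim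
  · exact (P1_ABB_S1_S1_M23 n1 n2 n3 A1 A2 A3 B1 B2 B3 hb hp ⟨hz.1, hy.1⟩ ⟨hs_ywz.1.trans (add_le_add (add_le_add hy.2.1 hw.2.1) hz.2.1), hs_ywz.1.trans (add_le_add (add_le_add hy.2.1 hw.2.1) hz.2.2.1), hs_ywz.2.1.trans (add_le_add (add_le_add hy.2.2.1 hw.2.2.1) hz.2.2.2.1), hs_ywz.2.2.trans (add_le_add (add_le_add hy.2.2.2 hw.2.2.2) hz.2.2.2.2.1), hs_ywz.2.2.trans (add_le_add (add_le_add hy.2.2.2 hw.2.2.2) hz.2.2.2.2.2)⟩ m_AB_S1_S3).elim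
  · exact (P1_ABB_S1_S2_M23 n1 n2 n3 A1 A2 A3 B1 B2 B3 hb hp ⟨hz.1, hy.1, hw.1⟩ ⟨hs_ywz.1.trans (add_le_add (add_le_add hy.2.1 hw.2.1) hz.2.1), hs_ywz.1.trans (add_le_add (add_le_add hy.2.1 hw.2.1) hz.2.2.1), hs_ywz.1.trans (add_le_add (add_le_add hy.2.1 hw.2.2.1) hz.2.1), hs_ywz.1.trans (add_le_add (add_le_add hy.2.1 hw.2.2.1) hz.2.2.1), hs_ywz.2.1.trans (add_le_add (add_le_add hy.2.2.1 hw.2.2.2.1) hz.2.2.2.1), hs_ywz.2.2.trans (add_le_add (add_le_add hy.2.2.2 hw.2.2.2.2) hz.2.2.2.2.1), hs_ywz.2.2.trans (add_le_add (add_le_add hy.2.2.2 hw.2.2.2.2) hz.2.2.2.2.2)⟩ m_BB_S1_M23).elim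
  · exact (P1_ABB_S1_S3_M23 n1 n2 n3 A1 A2 A3 B1 B2 B3 hb hp ⟨hz.1, hw.1, hy.1⟩ ⟨hs_ywz.1.trans (add_le_add (add_le_add hy.2.1 hw.2.1) hz.2.1), hs_ywz.1.trans (add_le_add (add_le_add hy.2.1 hw.2.1) hz.2.2.1), hs_ywz.1.trans (add_le_add (add_le_add hy.2.1 hw.2.2.1) hz.2.1), hs_ywz.1.trans (add_le_add (add_le_add hy.2.1 hw.2.2.1) hz.2.2.1), hs_ywz.2.1.trans (add_le_add (add_le_add hy.2.2.1 hw.2.2.2.1) hz.2.2.2.1), hs_ywz.2.1.trans (add_le_add (add_le_add hy.2.2.1 hw.2.2.2.2.1) hz.2.2.2.1), hs_ywz.2.2.trans (add_le_add (add_le_add hy.2.2.2 hw.2.2.2.2.2) hz.2.2.2.2.1), hs_ywz.2.2.trans (add_le_add (add_le_add hy.2.2.2 hw.2.2.2.2.2) hz.2.2.2.2.2)⟩ m_AB_S1_S3 m_AB_M13_M23 m_BB_S1_S3).elim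
  · exact (P1_ABB_S1_M13_M23 n1 n2 n3 A1 A2 A3 B1 B2 B3 hb hp ⟨hw.1, hz.1, hy.1⟩ ⟨hs_ywz.1.trans (add_le_add (add_le_add hy.2.1 hw.2.1) hz.2.1), hs_ywz.1.trans (add_le_add (add_le_add hy.2.1 hw.2.1) hz.2.2.1), hs_ywz.2.1.trans (add_le_add (add_le_add hy.2.2.1 hw.2.2.1) hz.2.2.2.1), hs_ywz.2.1.trans (add_le_add (add_le_add hy.2.2.1 hw.2.2.2.1) hz.2.2.2.1), hs_ywz.2.2.trans (add_le_add (add_le_add hy.2.2.2 hw.2.2.2.2.1) hz.2.2.2.2.1), hs_ywz.2.2.trans (add_le_add (add_le_add hy.2.2.2 hw.2.2.2.2.1) hz.2.2.2.2.2), hs_ywz.2.2.trans (add_le_add (add_le_add hy.2.2.2 hw.2.2.2.2.2) hz.2.2.2.2.1), hs_ywz.2.2.trans (add_le_add (add_le_add hy.2.2.2 hw.2.2.2.2.2) hz.2.2.2.2.2)⟩ m_AB_M13_M23 m_BB_S1_M23 m_AB_S2_M13).elim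
  · exact (P1_ABB_S1_M23_M23 n1 n2 n3 A1 A2 A3 B1 B2 B3 hb hp ⟨hz.1, hy.1⟩ ⟨hs.1.trans (add_le_add (add_le_add hy.2.1 hz.2.1) hw.2.1), hs.1.trans (add_le_add (add_le_add hy.2.1 hz.2.1) hw.2.2.1), hs.1.trans (add_le_add (add_le_add hy.2.1 hz.2.2.1) hw.2.1), hs.1.trans (add_le_add (add_le_add hy.2.1 hz.2.2.1) hw.2.2.1), hs.2.1.trans (add_le_add (add_le_add hy.2.2.1 hz.2.2.2.1) hw.2.2.2.1), hs.2.2.trans (add_le_add (add_le_add hy.2.2.2 hz.2.2.2.2.1) hw.2.2.2.2.1), hs.2.2.trans (add_le_add (add_le_add hy.2.2.2 hz.2.2.2.2.1) hw.2.2.2.2.2), hs.2.2.trans (add_le_add (add_le_add hy.2.2.2 hz.2.2.2.2.2) hw.2.2.2.2.1), hs.2.2.trans (add_le_add (add_le_add hy.2.2.2 hz.2.2.2.2.2) hw.2.2.2.2.2)⟩ m_BB_S1_M23 m_AB_M13_M23).elim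
  · exact (P1_ABB_S1_S1_S2 n1 n2 n3 A1 A2 A3 B1 B2 B3 hb hp ⟨hz.1, hy.1⟩ ⟨hs_zwy.1.trans (add_le_add (add_le_add hz.2.1 hw.2.1) hy.2.1), hs_zwy.1.trans (add_le_add (add_le_add hz.2.1 hw.2.1) hy.2.2.1), hs_zwy.2.1.trans (add_le_add (add_le_add hz.2.2.1 hw.2.2.1) hy.2.2.2.1), hs_zwy.2.2.trans (add_le_add (add_le_add hz.2.2.2 hw.2.2.2) hy.2.2.2.2)⟩ m_AB_S1_S3).elim
  · exact (P1_ABB_S1_S2_S2 n1 n2 n3 A1 A2 A3 B1 B2 B3 hb hp ⟨hz.1, hy.1⟩ ⟨hs_zyw.1.trans (add_le_add (add_le_add hz.2.1 hy.2.1) hw.2.1), hs_zyw.1.trans (add_le_add (add_le_add hz.2.1 hy.2.1) hw.2.2.1), hs_zyw.1.trans (add_le_add (add_le_add hz.2.1 hy.2.2.1) hw.2.1), hs_zyw.1.trans (add_le_add (add_le_add hz.2.1 hy.2.2.1) hw.2.2.1), hs_zyw.2.1.trans (add_le_add (add_le_add hz.2.2.1 hy.2.2.2.1) hw.2.2.2.1), hs_zyw.2.2.trans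 (add_le_add (add_le_add hz.2.2.2 hy.2.2.2.2) hw.2.2.2.2)⟩ m_BB_S1_S2).elim
  · exact (P1_ABB_S1_S2_S3 n1 n2 n3 A1 A2 A3 B1 B2 B3 hb hp ⟨hw.1, hz.1, hy.1⟩ ⟨hs_zyw.1.trans (add_le_add (add_le_add hz.2.1 hy.2.1) hw.2.1), hs_zyw.1.trans (add_le_add (add_le_add hz.2.1 hy.2.1) hw.2.2.1), hs_zyw.1.trans (add_le_add (add_le_add hz.2.1 hy.2.2.1) hw.2.1), hs_zyw.1.trans (add_le_add (add_le_add hz.2.1 hy.2.2.1) hw.2.2.1), hs_zyw.2.1.trans (add_le_add (add_le_add hz.2.2.1 hy.2.2.2.1) hw.2.2.2.1), hs_zyw.2.1.trans (add_le_add (add_le_add hz.2.2.1 hy.2.2.2.1) hw.2.2.2.2.1), hs_zyw.2.2.trans (add_le_add (add_le_add hz.2.2.2 hy.2.2.2.2) hw.2.2.2.2.2)⟩ m_BB_S1_M23 m_AB_S1_S3 m_AB_S2_M13).elim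
  · exact (P1_ABB_S1_S2_M13 n1 n2 n3 A1 A2 A3 B1 B2 B3 hb hp ⟨hw.1, hz.1, hy.1⟩ ⟨hs_zyw.1.trans (add_le_add (add_le_add hz.2.1 hy.2.1) hw.2.1), hs_zyw.1.trans (add_le_add (add_le_add hz.2.1 hy.2.2.1) hw.2.1), hs_zyw.2.1.trans (add_le_add (add_le_add hz.2.2.1 hy.2.2.2.1) hw.2.2.1), hs_zyw.2.1.trans (add_le_add (add_le_add hz.2.2.1 hy.2.2.2.1) hw.2.2.2.1), hs_zyw.2.2.trans (add_le_add (add_le_add hz.2.2.2 hy.2.2.2.2) hw.2.2.2.2.1), hs_zyw.2.2.trans (add_le_add (add_le_add hz.2.2.2 hy.2.2.2.2) hw.2.2.2.2.2)⟩ m_AB_S2_M13 m_BB_S1_S2).elim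
  · exact (P1_ABB_S1_S2_M23 n1 n2 n3 A1 A2 A3 B1 B2 B3 hb hp ⟨hw.1, hz.1, hy.1⟩ ⟨hs_zyw.1.trans (add_le_add (add_le_add hz.2.1 hy.2.1) hw.2.1), hs_zyw.1.trans (add_le_add (add_le_add hz.2.1 hy.2.1) hw.2.2.1), hs_zyw.1.trans (add_le_add (add_le_add hz.2.1 hy.2.2.1) hw.2.1), hs_zyw.1.trans (add_le_add (add_le_add hz.2.1 hy.2.2.1) hw.2.2.1), hs_zyw.2.1.trans (add_le_add (add_le_add hz.2.2.1 hy.2.2.2.1) hw.2.2.2.1), hs_zyw.2.2.trans (add_le_add (add_le_add hz.2.2.2 hy.2.2.2.2) hw.2.2.2.2.1), hs_zyw.2.2.trans (add_le_add (add_le_add hz.2.2.2 hy.2.2.2.2) hw.2.2.2.2.2)⟩ m_BB_S1_M23).elim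
  · exact (P1_ABB_S1_S2_S2 n1 n2 n3 A1 A2 A3 B1 B2 B3 hb hp ⟨hw.1, hy.1⟩ ⟨hs_wyz.1.trans (add_le_add (add_le_add hw.2.1 hy.2.1) hz.2.1), hs_wyz.1.trans (add_le_add (add_le_add hw.2.1 hy.2.1) hz.2.2.1), hs_wyz.1.trans (add_le_add (add_le_add hw.2.1 hy.2.2.1) hz.2.1), hs_wyz.1.trans (add_le_add (add_le_add hw.2.1 hy.2.2.1) hz.2.2.1), hs_wyz.2.1.trans (add_le_add (add_le_add hw.2.2.1 hy.2.2.2.1) hz.2.2.2.1), hs_wyz.2.2.trans (add_le_add (add_le_add hw.2.2.2 hy.2.2.2.2) hz.2.2.2.2)⟩ m_BB_S1_S2).elim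
  · exact (P1_ABB_S2_S2_S2 n1 n2 n3 A1 A2 A3 B1 B2 B3 hb hp hy.1 ⟨hs.1.trans (add_le_add (add_le_add hy.2.1 hz.2.1) hw.2.1), hs.1.trans (add_le_add (add_le_add hy.2.1 hz.2.1) hw.2.2.1), hs.1.trans (add_le_add (add_le_add hy.2.1 hz.2.2.1) hw.2.1), hs.1.trans (add_le_add (add_le_add hy.2.1 hz.2.2.1) hw.2.2.1), hs.1.trans (add_le_add (add_le_add hy.2.2.1 hz.2.1) hw.2.1), hs.1.trans (add_le_add (add_le_add hy.2.2.1 hz.2.1) hw.2.2.1), hs.1.trans (add_le_add (add_le_add hy.2.2.1 hz.2.2.1) hw.2.1), hs.1.trans (add_le_add (add_le_add hy.2.2.1 hz.2.2.1) hw.2.2.1), hs.2.1.trans (add_le_add (add_le_add hy.2.2.2.1 hz.2.2.2.1) hw.2.2.2.1), hs.2.2.trans (add_le_add (add_le_add hy.2.2.2.2 hz.2.2.2.2) hw.2.2.2.2)⟩ ).elim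
  · exact (P1_ABB_S2_S2_S3 n1 n2 n3 A1 A2 A3 B1 B2 B3 hb hp ⟨hw.1, hy.1⟩ ⟨hs.1.trans (add_le_add (add_le_add hy.2.1 hz.2.1) hw.2.1), hs.1.trans (add_le_add (add_le_add hy.2.1 hz.2.1) hw.2.2.1), hs.1.trans (add_le_add (add_le_add hy.2.1 hz.2.2.1) hw.2.1), hs.1.trans (add_le_add (add_le_add hy.2.1 hz.2.2.1) hw.2.2.1), hs.1.trans (add_le_add (add_le_add hy.2.2.1 hz.2.1) hw.2.1), hs.1.trans (add_le_add (add_le_add hy.2.2.1 hz.2.1) hw.2.2.1), hs.1.trans (add_le_add (add_le_add hy.2.2.1 hz.2.2.1) hw.2.1), hs.1.trans (add_le_add (add_le_add hy.2.2.1 hz.2.2.1) hw.2.2.1), hs.2.1.trans (add_le_add (add_le_add hy.2.2.2.1 hz.2.2.2.1) hw.2.2.2.1), hs.2.1.trans (add_le_add (add_le_add hy.2.2.2.1 hz.2.2.2.1) hw.2.2.2.2.1), hs.2.2.trans (add_le_add (add_le_add hy.2.2.2.2 hz.2.2.2.2) hw.2.2.2.2.2)⟩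 m_AB_S2_S3).elim
  · exact (P1_ABB_S2_S2_M13 n1 n2 n3 A1 A2 A3 B1 B2 B3 hb hp ⟨hw.1, hy.1⟩ ⟨hs.1.trans (add_le_add (add_le_add hy.2.1 hz.2.1) hw.2.1), hs.1.trans (add_le_add (add_le_add hy.2.1 hz.2.2.1) hw.2.1), hs.1.trans (add_le_add (add_le_add hy.2.2.1 hz.2.1) hw.2.1), hs.1.trans (add_le_add (add_le_add hy.2.2.1 hz.2.2.1) hw.2.1), hs.2.1.trans (add_le_add (add_le_add hy.2.2.2.1 hz.2.2.2.1) hw.2.2.1), hs.2.1.trans (add_le_add (add_le_add hy.2.2.2.1 hz.2.2.2.1) hw.2.2.2.1), hs.2.2.trans (add_le_add (add_le_add hy.2.2.2.2 hz.2.2.2.2) hw.2.2.2.2.1), hs.2.2.trans (add_le_add (add_le_add hy.2.2.2.2 hz.2.2.2.2) hw.2.2.2.2.2)⟩ m_AB_S2_M13).elim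
  · exact (P1_ABB_S2_S2_M23 n1 n2 n3 A1 A2 A3 B1 B2 B3 hb hp ⟨hw.1, hy.1⟩ ⟨hs.1.trans (add_le_add (add_le_add hy.2.1 hz.2.1) hw.2.1), hs.1.trans (add_le_add (add_le_add hy.2.1 hz.2.1) hw.2.2.1), hs.1.trans (add_le_add (add_le_add hy.2.1 hz.2.2.1) hw.2.1), hs.1.trans (add_le_add (add_le_add hy.2.1 hz.2.2.1) hw.2.2.1), hs.1.trans (add_le_add (add_le_add hy.2.2.1 hz.2.1) hw.2.1), hs.1.trans (add_le_add (add_le_add hy.2.2.1 hz.2.1) hw.2.2.1), hs.1.trans (add_le_add (add_le_add hy.2.2.1 hz.2.2.1) hw.2.1), hs.1.trans (add_le_add (add_le_add hy.2.2.1 hz.2.2.1) hw.2.2.1), hs.2.1.trans (add_le_add (add_le_add hy.2.2.2.1 hz.2.2.2.1) hw.2.2.2.1), hs.2.2.trans (add_le_add (add_le_add hy.2.2.2.2 hz.2.2.2.2) hw.2.2.2.2.1), hs.2.2.trans (add_le_add (add_le_add hy.2.2.2.2 hz.2.2.2.2) hw.2.2.2.2.2)⟩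 ).elim
  · exact (P1_ABB_S1_S2_S3 n1 n2 n3 A1 A2 A3 B1 B2 B3 hb hp ⟨hz.1, hw.1, hy.1⟩ ⟨hs_wyz.1.trans (add_le_add (add_le_add hw.2.1 hy.2.1) hz.2.1), hs_wyz.1.trans (add_le_add (add_le_add hw.2.1 hy.2.1) hz.2.2.1), hs_wyz.1.trans (add_le_add (add_le_add hw.2.1 hy.2.2.1) hz.2.1), hs_wyz.1.trans (add_le_add (add_le_add hw.2.1 hy.2.2.1) hz.2.2.1), hs_wyz.2.1.trans (add_le_add (add_le_add hw.2.2.1 hy.2.2.2.1) hz.2.2.2.1), hs_wyz.2.1.trans (add_le_add (add_le_add hw.2.2.1 hy.2.2.2.1) hz.2.2.2.2.1), hs_wyz.2.2.trans (add_le_add (add_le_add hw.2.2.2 hy.2.2.2.2) hz.2.2.2.2.2)⟩ m_BB_S1_M23 m_AB_S1_S3 m_AB_S2_M13).elim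
  · exact (P1_ABB_S2_S2_S3 n1 n2 n3 A1 A2 A3 B1 B2 B3 hb hp ⟨hz.1, hy.1⟩ ⟨hs_ywz.1.trans (add_le_add (add_le_add hy.2.1 hw.2.1) hz.2.1), hs_ywz.1.trans (add_le_add (add_le_add hy.2.1 hw.2.1) hz.2.2.1), hs_ywz.1.trans (add_le_add (add_le_add hy.2.1 hw.2.2.1) hz.2.1), hs_ywz.1.trans (add_le_add (add_le_add hy.2.1 hw.2.2.1) hz.2.2.1), hs_ywz.1.trans (add_le_add (add_le_add hy.2.2.1 hw.2.1) hz.2.1), hs_ywz.1.trans (add_le_add (add_le_add hy.2.2.1 hw.2.1) hz.2.2.1), hs_ywz.1.trans (add_le_add (add_le_add hy.2.2.1 hw.2.2.1) hz.2.1), hs_ywz.1.trans (add_le_add (add_le_add hy.2.2.1 hw.2.2.1) hz.2.2.1), hs_ywz.2.1.trans (add_le_add (add_le_add hy.2.2.2.1 hw.2.2.2.1) hz.2.2.2.1), hs_ywz.2.1.trans (add_le_add (add_le_add hy.2.2.2.1 hw.2.2.2.1) hz.2.2.2.2.1), hs_ywz.2.2.trans (add_le_add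 (add_le_add hy.2.2.2.2 hw.2.2.2.2) hz.2.2.2.2.2)⟩ m_AB_S2_S3).elim
  · exact (P1_ABB_S2_S3_S3 n1 n2 n3 A1 A2 A3 B1 B2 B3 hb hp ⟨hz.1, hy.1⟩ ⟨hs.1.trans (add_le_add (add_le_add hy.2.1 hz.2.1) hw.2.1), hs.1.trans (add_le_add (add_le_add hy.2.1 hz.2.1) hw.2.2.1), hs.1.trans (add_le_add (add_le_add hy.2.1 hz.2.2.1) hw.2.1), hs.1.trans (add_le_add (add_le_add hy.2.1 hz.2.2.1) hw.2.2.1), hs.1.trans (add_le_add (add_le_add hy.2.2.1 hz.2.1) hw.2.1), hs.1.trans (add_le_add (add_le_add hy.2.2.1 hz.2.1) hw.2.2.1), hs.1.trans (add_le_add (add_le_add hy.2.2.1 hz.2.2.1) hw.2.1), hs.1.trans (add_le_add (add_le_add hy.2.2.1 hz.2.2.1) hw.2.2.1), hs.2.1.trans (add_le_add (add_le_add hy.2.2.2.1 hz.2.2.2.1) hw.2.2.2.1), hs.2.1.trans (add_le_add (add_le_add hy.2.2.2.1 hz.2.2.2.1) hw.2.2.2.2.1),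 hs.2.1.trans (add_le_add (add_le_add hy.2.2.2.1 hz.2.2.2.2.1) hw.2.2.2.1), hs.2.1.trans (add_le_add (add_le_add hy.2.2.2.1 hz.2.2.2.2.1) hw.2.2.2.2.1), hs.2.2.trans (add_le_add (add_le_add hy.2.2.2.2 hz.2.2.2.2.2) hw.2.2.2.2.2)⟩ m_BB_S2_S3).elim
  · exact (P1_ABB_S2_S3_M13 n1 n2 n3 A1 A2 A3 B1 B2 B3 hb hp ⟨hw.1, hz.1, hy.1⟩ ⟨hs.1.trans (add_le_add (add_le_add hy.2.1 hz.2.1) hw.2.1), hs.1.trans (add_le_add (add_le_add hy.2.1 hz.2.2.1) hw.2.1), hs.1.trans (add_le_add (add_le_add hy.2.2.1 hz.2.1) hw.2.1), hs.1.trans (add_le_add (add_le_add hy.2.2.1 hz.2.2.1) hw.2.1), hs.2.1.trans (add_le_add (add_le_add hy.2.2.2.1 hz.2.2.2.1) hw.2.2.1), hs.2.1.trans (add_le_add (add_le_add hy.2.2.2.1 hz.2.2.2.1) hw.2.2.2.1), hs.2.1.trans (add_le_add (add_le_add hy.2.2.2.1 hz.2.2.2.2.1) hw.2.2.1),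 hs.2.1.trans (add_le_add (add_le_add hy.2.2.2.1 hz.2.2.2.2.1) hw.2.2.2.1), hs.2.2.trans (add_le_add (add_le_add hy.2.2.2.2 hz.2.2.2.2.2) hw.2.2.2.2.1), hs.2.2.trans (add_le_add (add_le_add hy.2.2.2.2 hz.2.2.2.2.2) hw.2.2.2.2.2)⟩ m_AB_S2_S3 m_BB_S2_M13 m_AB_S1_S3).elim
  · exact (P1_ABB_S2_S3_M23 n1 n2 n3 A1 A2 A3 B1 B2 B3 hb hp ⟨hw.1, hz.1, hy.1⟩ ⟨hs.1.trans (add_le_add (add_le_add hy.2.1 hz.2.1) hw.2.1), hs.1.trans (add_le_add (add_le_add hy.2.1 hz.2.1) hw.2.2.1), hs.1.trans (add_le_add (add_le_add hy.2.1 hz.2.2.1) hw.2.1), hs.1.trans (add_le_add (add_le_add hy.2.1 hz.2.2.1) hw.2.2.1), hs.1.trans (add_le_add (add_le_add hy.2.2.1 hz.2.1) hw.2.1), hs.1.trans (add_le_add (add_le_add hy.2.2.1 hz.2.1) hw.2.2.1), hs.1.trans (add_le_add (add_le_add hy.2.2.1 hz.2.2.1) hw.2.1),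 hs.1.trans (add_le_add (add_le_add hy.2.2.1 hz.2.2.1) hw.2.2.1), hs.2.1.trans (add_le_add (add_le_add hy.2.2.2.1 hz.2.2.2.1) hw.2.2.2.1), hs.2.1.trans (add_le_add (add_le_add hy.2.2.2.1 hz.2.2.2.2.1) hw.2.2.2.1), hs.2.2.trans (add_le_add (add_le_add hy.2.2.2.2 hz.2.2.2.2.2) hw.2.2.2.2.1), hs.2.2.trans (add_le_add (add_le_add hy.2.2.2.2 hz.2.2.2.2.2) hw.2.2.2.2.2)⟩ m_AB_S2_S3 m_BB_S2_M23).elim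
  · exact (P1_ABB_S1_S2_M13 n1 n2 n3 A1 A2 A3 B1 B2 B3 hb hp ⟨hz.1, hw.1, hy.1⟩ ⟨hs_wyz.1.trans (add_le_add (add_le_add hw.2.1 hy.2.1) hz.2.1), hs_wyz.1.trans (add_le_add (add_le_add hw.2.1 hy.2.2.1) hz.2.1), hs_wyz.2.1.trans (add_le_add (add_le_add hw.2.2.1 hy.2.2.2.1) hz.2.2.1), hs_wyz.2.1.trans (add_le_add (add_le_add hw.2.2.1 hy.2.2.2.1) hz.2.2.2.1), hs_wyz.2.2.trans (add_le_add (add_le_add hw.2.2.2 hy.2.2.2.2) hz.2.2.2.2.1), hs_wyz.2.2.trans (add_le_add (add_le_add hw.2.2.2 hy.2.2.2.2) hz.2.2.2.2.2)⟩ m_AB_S2_M13 m_BB_S1_S2).elim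
  · exact (P1_ABB_S2_S2_M13 n1 n2 n3 A1 A2 A3 B1 B2 B3 hb hp ⟨hz.1, hy.1⟩ ⟨hs_ywz.1.trans (add_le_add (add_le_add hy.2.1 hw.2.1) hz.2.1), hs_ywz.1.trans (add_le_add (add_le_add hy.2.1 hw.2.2.1) hz.2.1), hs_ywz.1.trans (add_le_add (add_le_add hy.2.2.1 hw.2.1) hz.2.1), hs_ywz.1.trans (add_le_add (add_le_add hy.2.2.1 hw.2.2.1) hz.2.1), hs_ywz.2.1.trans (add_le_add (add_le_add hy.2.2.2.1 hw.2.2.2.1) hz.2.2.1), hs_ywz.2.1.trans (add_le_add (add_le_add hy.2.2.2.1 hw.2.2.2.1) hz.2.2.2.1), hs_ywz.2.2.trans (add_le_add (add_le_add hy.2.2.2.2 hw.2.2.2.2) hz.2.2.2.2.1), hs_ywz.2.2.trans (add_le_add (add_le_add hy.2.2.2.2 hw.2.2.2.2) hz.2.2.2.2.2)⟩ m_AB_S2_M13).elim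
  · exact (P1_ABB_S2_S3_M13 n1 n2 n3 A1 A2 A3 B1 B2 B3 hb hp ⟨hz.1, hw.1, hy.1⟩ ⟨hs_ywz.1.trans (add_le_add (add_le_add hy.2.1 hw.2.1) hz.2.1), hs_ywz.1.trans (add_le_add (add_le_add hy.2.1 hw.2.2.1) hz.2.1), hs_ywz.1.trans (add_le_add (add_le_add hy.2.2.1 hw.2.1) hz.2.1), hs_ywz.1.trans (add_le_add (add_le_add hy.2.2.1 hw.2.2.1) hz.2.1), hs_ywz.2.1.trans (add_le_add (add_le_add hy.2.2.2.1 hw.2.2.2.1) hz.2.2.1), hs_ywz.2.1.trans (add_le_add (add_le_add hy.2.2.2.1 hw.2.2.2.1) hz.2.2.2.1), hs_ywz.2.1.trans (add_le_add (add_le_add hy.2.2.2.1 hw.2.2.2.2.1) hz.2.2.1), hs_ywz.2.1.trans (add_le_add (add_le_add hy.2.2.2.1 hw.2.2.2.2.1) hz.2.2.2.1), hs_ywz.2.2.trans (add_le_add (add_le_add hy.2.2.2.2 hw.2.2.2.2.2) hz.2.2.2.2.1), hs_ywz.2.2.trans (add_le_add (add_le_add hy.2.2.2.2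 hw.2.2.2.2.2) hz.2.2.2.2.2)⟩ m_AB_S2_S3 m_BB_S2_M13 m_AB_S1_S3).elim
  · exact (P1_ABB_S2_M13_M13 n1 n2 n3 A1 A2 A3 B1 B2 B3 hb hp ⟨hz.1, hy.1⟩ ⟨hs.1.trans (add_le_add (add_le_add hy.2.1 hz.2.1) hw.2.1), hs.1.trans (add_le_add (add_le_add hy.2.2.1 hz.2.1) hw.2.1), hs.2.1.trans (add_le_add (add_le_add hy.2.2.2.1 hz.2.2.1) hw.2.2.1), hs.2.1.trans (add_le_add (add_le_add hy.2.2.2.1 hz.2.2.1) hw.2.2.2.1), hs.2.1.trans (add_le_add (add_le_add hy.2.2.2.1 hz.2.2.2.1) hw.2.2.1), hs.2.1.trans (add_le_add (add_le_add hy.2.2.2.1 hz.2.2.2.1) hw.2.2.2.1), hs.2.2.trans (add_le_add (add_le_add hy.2.2.2.2 hz.2.2.2.2.1) hw.2.2.2.2.1), hs.2.2.trans (add_le_add (add_le_add hy.2.2.2.2 hz.2.2.2.2.1) hw.2.2.2.2.2), hs.2.2.trans (add_le_add (add_le_add hy.2.2.2.2 hz.2.2.2.2.2) hw.2.2.2.2.1),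 hs.2.2.trans (add_le_add (add_le_add hy.2.2.2.2 hz.2.2.2.2.2) hw.2.2.2.2.2)⟩ m_AB_M13_M23 m_BB_S2_M13).elim
  · exact (P1_ABB_S2_M13_M23 n1 n2 n3 A1 A2 A3 B1 B2 B3 hb hp ⟨hz.1, hw.1, hy.1⟩ ⟨hs.1.trans (add_le_add (add_le_add hy.2.1 hz.2.1) hw.2.1), hs.1.trans (add_le_add (add_le_add hy.2.1 hz.2.1) hw.2.2.1), hs.1.trans (add_le_add (add_le_add hy.2.2.1 hz.2.1) hw.2.1), hs.1.trans (add_le_add (add_le_add hy.2.2.1 hz.2.1) hw.2.2.1), hs.2.1.trans (add_le_add (add_le_add hy.2.2.2.1 hz.2.2.1) hw.2.2.2.1), hs.2.1.trans (add_le_add (add_le_add hy.2.2.2.1 hz.2.2.2.1) hw.2.2.2.1), hs.2.2.trans (add_le_add (add_le_add hy.2.2.2.2 hz.2.2.2.2.1) hw.2.2.2.2.1), hs.2.2.trans (add_le_add (add_le_add hy.2.2.2.2 hz.2.2.2.2.1) hw.2.2.2.2.2), hs.2.2.trans (add_le_add (add_le_add hy.2.2.2.2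 hz.2.2.2.2.2) hw.2.2.2.2.1), hs.2.2.trans (add_le_add (add_le_add hy.2.2.2.2 hz.2.2.2.2.2) hw.2.2.2.2.2)⟩ m_AB_M13_M23 m_BB_S2_M13 m_AB_S1_S3).elim
  · exact (P1_ABB_S1_S2_M23 n1 n2 n3 A1 A2 A3 B1 B2 B3 hb hp ⟨hz.1, hw.1, hy.1⟩ ⟨hs_wyz.1.trans (add_le_add (add_le_add hw.2.1 hy.2.1) hz.2.1), hs_wyz.1.trans (add_le_add (add_le_add hw.2.1 hy.2.1) hz.2.2.1), hs_wyz.1.trans (add_le_add (add_le_add hw.2.1 hy.2.2.1) hz.2.1), hs_wyz.1.trans (add_le_add (add_le_add hw.2.1 hy.2.2.1) hz.2.2.1), hs_wyz.2.1.trans (add_le_add (add_le_add hw.2.2.1 hy.2.2.2.1) hz.2.2.2.1), hs_wyz.2.2.trans (add_le_add (add_le_add hw.2.2.2 hy.2.2.2.2) hz.2.2.2.2.1), hs_wyz.2.2.trans (add_le_add (add_le_add hw.2.2.2 hy.2.2.2.2) hz.2.2.2.2.2)⟩ m_BB_S1_M23).elim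
  · exact (P1_ABB_S2_S2_M23 n1 n2 n3 A1 A2 A3 B1 B2 B3 hb hp ⟨hz.1, hy.1⟩ ⟨hs_ywz.1.trans (add_le_add (add_le_add hy.2.1 hw.2.1) hz.2.1), hs_ywz.1.trans (add_le_add (add_le_add hy.2.1 hw.2.1) hz.2.2.1), hs_ywz.1.trans (add_le_add (add_le_add hy.2.1 hw.2.2.1) hz.2.1), hs_ywz.1.trans (add_le_add (add_le_add hy.2.1 hw.2.2.1) hz.2.2.1), hs_ywz.1.trans (add_le_add (add_le_add hy.2.2.1 hw.2.1) hz.2.1), hs_ywz.1.trans (add_le_add (add_le_add hy.2.2.1 hw.2.1) hz.2.2.1), hs_ywz.1.trans (add_le_add (add_le_add hy.2.2.1 hw.2.2.1) hz.2.1), hs_ywz.1.trans (add_le_add (add_le_add hy.2.2.1 hw.2.2.1) hz.2.2.1), hs_ywz.2.1.trans (add_le_add (add_le_add hy.2.2.2.1 hw.2.2.2.1) hz.2.2.2.1), hs_ywz.2.2.trans (add_le_add (add_le_add hy.2.2.2.2 hw.2.2.2.2) hz.2.2.2.2.1), hs_ywz.2.2.trans (add_le_add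 (add_le_add hy.2.2.2.2 hw.2.2.2.2) hz.2.2.2.2.2)⟩ ).elim
  · exact (P1_ABB_S2_S3_M23 n1 n2 n3 A1 A2 A3 B1 B2 B3 hb hp ⟨hz.1, hw.1, hy.1⟩ ⟨hs_ywz.1.trans (add_le_add (add_le_add hy.2.1 hw.2.1) hz.2.1), hs_ywz.1.trans (add_le_add (add_le_add hy.2.1 hw.2.1) hz.2.2.1), hs_ywz.1.trans (add_le_add (add_le_add hy.2.1 hw.2.2.1) hz.2.1), hs_ywz.1.trans (add_le_add (add_le_add hy.2.1 hw.2.2.1) hz.2.2.1), hs_ywz.1.trans (add_le_add (add_le_add hy.2.2.1 hw.2.1) hz.2.1), hs_ywz.1.trans (add_le_add (add_le_add hy.2.2.1 hw.2.1) hz.2.2.1), hs_ywz.1.trans (add_le_add (add_le_add hy.2.2.1 hw.2.2.1) hz.2.1), hs_ywz.1.trans (add_le_add (add_le_add hy.2.2.1 hw.2.2.1) hz.2.2.1), hs_ywz.2.1.trans (add_le_add (add_le_add hy.2.2.2.1 hw.2.2.2.1) hz.2.2.2.1), hs_ywz.2.1.trans (add_le_add (add_le_add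 hy.2.2.2.1 hw.2.2.2.2.1) hz.2.2.2.1), hs_ywz.2.2.trans (add_le_add (add_le_add hy.2.2.2.2 hw.2.2.2.2.2) hz.2.2.2.2.1), hs_ywz.2.2.trans (add_le_add (add_le_add hy.2.2.2.2 hw.2.2.2.2.2) hz.2.2.2.2.2)⟩ m_AB_S2_S3 m_BB_S2_M23).elim
  · exact (P1_ABB_S2_M13_M23 n1 n2 n3 A1 A2 A3 B1 B2 B3 hb hp ⟨hw.1, hz.1, hy.1⟩ ⟨hs_ywz.1.trans (add_le_add (add_le_add hy.2.1 hw.2.1) hz.2.1), hs_ywz.1.trans (add_le_add (add_le_add hy.2.1 hw.2.1) hz.2.2.1), hs_ywz.1.trans (add_le_add (add_le_add hy.2.2.1 hw.2.1) hz.2.1), hs_ywz.1.trans (add_le_add (add_le_add hy.2.2.1 hw.2.1) hz.2.2.1), hs_ywz.2.1.trans (add_le_add (add_le_add hy.2.2.2.1 hw.2.2.1) hz.2.2.2.1), hs_ywz.2.1.trans (add_le_add (add_le_add hy.2.2.2.1 hw.2.2.2.1) hz.2.2.2.1), hs_ywz.2.2.trans (add_le_add (add_le_add hy.2.2.2.2 hw.2.2.2.2.1)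 hz.2.2.2.2.1), hs_ywz.2.2.trans (add_le_add (add_le_add hy.2.2.2.2 hw.2.2.2.2.1) hz.2.2.2.2.2), hs_ywz.2.2.trans (add_le_add (add_le_add hy.2.2.2.2 hw.2.2.2.2.2) hz.2.2.2.2.1), hs_ywz.2.2.trans (add_le_add (add_le_add hy.2.2.2.2 hw.2.2.2.2.2) hz.2.2.2.2.2)⟩ m_AB_M13_M23 m_BB_S2_M13 m_AB_S1_S3).elim
  · exact (P1_ABB_S2_M23_M23 n1 n2 n3 A1 A2 A3 B1 B2 B3 hb hp ⟨hz.1, hy.1⟩ ⟨hs.1.trans (add_le_add (add_le_add hy.2.1 hz.2.1) hw.2.1), hs.1.trans (add_le_add (add_le_add hy.2.1 hz.2.1) hw.2.2.1), hs.1.trans (add_le_add (add_le_add hy.2.1 hz.2.2.1) hw.2.1), hs.1.trans (add_le_add (add_le_add hy.2.1 hz.2.2.1) hw.2.2.1), hs.1.trans (add_le_add (add_le_add hy.2.2.1 hz.2.1) hw.2.1), hs.1.trans (add_le_add (add_le_add hy.2.2.1 hz.2.1) hw.2.2.1), hs.1.trans (add_le_add (add_le_add hy.2.2.1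 hz.2.2.1) hw.2.1), hs.1.trans (add_le_add (add_le_add hy.2.2.1 hz.2.2.1) hw.2.2.1), hs.2.1.trans (add_le_add (add_le_add hy.2.2.2.1 hz.2.2.2.1) hw.2.2.2.1), hs.2.2.trans (add_le_add (add_le_add hy.2.2.2.2 hz.2.2.2.2.1) hw.2.2.2.2.1), hs.2.2.trans (add_le_add (add_le_add hy.2.2.2.2 hz.2.2.2.2.1) hw.2.2.2.2.2), hs.2.2.trans (add_le_add (add_le_add hy.2.2.2.2 hz.2.2.2.2.2) hw.2.2.2.2.1), hs.2.2.trans (add_le_add (add_le_add hy.2.2.2.2 hz.2.2.2.2.2) hw.2.2.2.2.2)⟩ m_AB_M23_M23 m_BB_S2_M23).elim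
  · exact (P1_ABB_S1_S1_S3 n1 n2 n3 A1 A2 A3 B1 B2 B3 hb hp ⟨hy.1, hz.1⟩ ⟨hs_zwy.1.trans (add_le_add (add_le_add hz.2.1 hw.2.1) hy.2.1), hs_zwy.1.trans (add_le_add (add_le_add hz.2.1 hw.2.1) hy.2.2.1), hs_zwy.2.1.trans (add_le_add (add_le_add hz.2.2.1 hw.2.2.1) hy.2.2.2.1), hs_zwy.2.1.trans (add_le_add (add_le_add hz.2.2.1 hw.2.2.1) hy.2.2.2.2.1), hs_zwy.2.2.trans (add_le_add (add_le_add hz.2.2.2 hw.2.2.2) hy.2.2.2.2.2)⟩ m_AB_S1_S3).elim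
  · exact (P1_ABB_S1_S2_S3 n1 n2 n3 A1 A2 A3 B1 B2 B3 hb hp ⟨hy.1, hz.1, hw.1⟩ ⟨hs_zwy.1.trans (add_le_add (add_le_add hz.2.1 hw.2.1) hy.2.1), hs_zwy.1.trans (add_le_add (add_le_add hz.2.1 hw.2.1) hy.2.2.1), hs_zwy.1.trans (add_le_add (add_le_add hz.2.1 hw.2.2.1) hy.2.1), hs_zwy.1.trans (add_le_add (add_le_add hz.2.1 hw.2.2.1) hy.2.2.1), hs_zwy.2.1.trans (add_le_add (add_le_add hz.2.2.1 hw.2.2.2.1) hy.2.2.2.1), hs_zwy.2.1.trans (add_le_add (add_le_add hz.2.2.1 hw.2.2.2.1) hy.2.2.2.2.1), hs_zwy.2.2.trans (add_le_add (add_le_add hz.2.2.2 hw.2.2.2.2) hy.2.2.2.2.2)⟩ m_BB_S1_M23 m_AB_S1_S3 m_AB_S2_M13).elim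
  · exact (P1_ABB_S1_S3_S3 n1 n2 n3 A1 A2 A3 B1 B2 B3 hb hp ⟨hy.1, hz.1⟩ ⟨hs_zyw.1.trans (add_le_add (add_le_add hz.2.1 hy.2.1) hw.2.1), hs_zyw.1.trans (add_le_add (add_le_add hz.2.1 hy.2.1) hw.2.2.1), hs_zyw.1.trans (add_le_add (add_le_add hz.2.1 hy.2.2.1) hw.2.1), hs_zyw.1.trans (add_le_add (add_le_add hz.2.1 hy.2.2.1) hw.2.2.1), hs_zyw.2.1.trans (add_le_add (add_le_add hz.2.2.1 hy.2.2.2.1) hw.2.2.2.1), hs_zyw.2.1.trans (add_le_add (add_le_add hz.2.2.1 hy.2.2.2.1) hw.2.2.2.2.1), hs_zyw.2.1.trans (add_le_add (add_le_add hz.2.2.1 hy.2.2.2.2.1) hw.2.2.2.1), hs_zyw.2.1.trans (add_le_add (add_le_add hz.2.2.1 hy.2.2.2.2.1) hw.2.2.2.2.1), hs_zyw.2.2.trans (add_le_add (add_le_add hz.2.2.2 hy.2.2.2.2.2) hw.2.2.2.2.2)⟩ m_BB_S1_S3).elim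
  · exact (P1_ABB_S1_S3_M13 n1 n2 n3 A1 A2 A3 B1 B2 B3 hb hp ⟨hw.1, hy.1, hz.1⟩ ⟨hs_zyw.1.trans (add_le_add (add_le_add hz.2.1 hy.2.1) hw.2.1), hs_zyw.1.trans (add_le_add (add_le_add hz.2.1 hy.2.2.1) hw.2.1), hs_zyw.2.1.trans (add_le_add (add_le_add hz.2.2.1 hy.2.2.2.1) hw.2.2.1), hs_zyw.2.1.trans (add_le_add (add_le_add hz.2.2.1 hy.2.2.2.1) hw.2.2.2.1), hs_zyw.2.1.trans (add_le_add (add_le_add hz.2.2.1 hy.2.2.2.2.1) hw.2.2.1), hs_zyw.2.1.trans (add_le_add (add_le_add hz.2.2.1 hy.2.2.2.2.1) hw.2.2.2.1), hs_zyw.2.2.trans (add_le_add (add_le_add hz.2.2.2 hy.2.2.2.2.2) hw.2.2.2.2.1), hs_zyw.2.2.trans (add_le_add (add_le_add hz.2.2.2 hy.2.2.2.2.2) hw.2.2.2.2.2)⟩ m_AB_S1_S3 m_BB_S1_M13 m_BB_S2_M13).elim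
  · exact (P1_ABB_S1_S3_M23 n1 n2 n3 A1 A2 A3 B1 B2 B3 hb hp ⟨hw.1, hy.1, hz.1⟩ ⟨hs_zyw.1.trans (add_le_add (add_le_add hz.2.1 hy.2.1) hw.2.1), hs_zyw.1.trans (add_le_add (add_le_add hz.2.1 hy.2.1) hw.2.2.1), hs_zyw.1.trans (add_le_add (add_le_add hz.2.1 hy.2.2.1) hw.2.1), hs_zyw.1.trans (add_le_add (add_le_add hz.2.1 hy.2.2.1) hw.2.2.1), hs_zyw.2.1.trans (add_le_add (add_le_add hz.2.2.1 hy.2.2.2.1) hw.2.2.2.1), hs_zyw.2.1.trans (add_le_add (add_le_add hz.2.2.1 hy.2.2.2.2.1) hw.2.2.2.1), hs_zyw.2.2.trans (add_le_add (add_le_add hz.2.2.2 hy.2.2.2.2.2) hw.2.2.2.2.1), hs_zyw.2.2.trans (add_le_add (add_le_add hz.2.2.2 hy.2.2.2.2.2) hw.2.2.2.2.2)⟩ m_AB_S1_S3 m_AB_M13_M23 m_BB_S1_S3).elim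
  · exact (P1_ABB_S1_S2_S3 n1 n2 n3 A1 A2 A3 B1 B2 B3 hb hp ⟨hy.1, hw.1, hz.1⟩ ⟨hs_wzy.1.trans (add_le_add (add_le_add hw.2.1 hz.2.1) hy.2.1), hs_wzy.1.trans (add_le_add (add_le_add hw.2.1 hz.2.1) hy.2.2.1), hs_wzy.1.trans (add_le_add (add_le_add hw.2.1 hz.2.2.1) hy.2.1), hs_wzy.1.trans (add_le_add (add_le_add hw.2.1 hz.2.2.1) hy.2.2.1), hs_wzy.2.1.trans (add_le_add (add_le_add hw.2.2.1 hz.2.2.2.1) hy.2.2.2.1), hs_wzy.2.1.trans (add_le_add (add_le_add hw.2.2.1 hz.2.2.2.1) hy.2.2.2.2.1), hs_wzy.2.2.trans (add_le_add (add_le_add hw.2.2.2 hz.2.2.2.2) hy.2.2.2.2.2)⟩ m_BB_S1_M23 m_AB_S1_S3 m_AB_S2_M13).elim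
  · exact (P1_ABB_S2_S2_S3 n1 n2 n3 A1 A2 A3 B1 B2 B3 hb hp ⟨hy.1, hz.1⟩ ⟨hs_zwy.1.trans (add_le_add (add_le_add hz.2.1 hw.2.1) hy.2.1), hs_zwy.1.trans (add_le_add (add_le_add hz.2.1 hw.2.1) hy.2.2.1), hs_zwy.1.trans (add_le_add (add_le_add hz.2.1 hw.2.2.1) hy.2.1), hs_zwy.1.trans (add_le_add (add_le_add hz.2.1 hw.2.2.1) hy.2.2.1), hs_zwy.1.trans (add_le_add (add_le_add hz.2.2.1 hw.2.1) hy.2.1), hs_zwy.1.trans (add_le_add (add_le_add hz.2.2.1 hw.2.1) hy.2.2.1), hs_zwy.1.trans (add_le_add (add_le_add hz.2.2.1 hw.2.2.1) hy.2.1), hs_zwy.1.trans (add_le_add (add_le_add hz.2.2.1 hw.2.2.1) hy.2.2.1), hs_zwy.2.1.trans (add_le_add (add_le_add hz.2.2.2.1 hw.2.2.2.1) hy.2.2.2.1), hs_zwy.2.1.trans (add_le_add (add_le_add hz.2.2.2.1 hw.2.2.2.1) hy.2.2.2.2.1), hs_zwy.2.2.trans (add_le_add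 (add_le_add hz.2.2.2.2 hw.2.2.2.2) hy.2.2.2.2.2)⟩ m_AB_S2_S3).elim
  · exact (P1_ABB_S2_S3_S3 n1 n2 n3 A1 A2 A3 B1 B2 B3 hb hp ⟨hy.1, hz.1⟩ ⟨hs_zyw.1.trans (add_le_add (add_le_add hz.2.1 hy.2.1) hw.2.1), hs_zyw.1.trans (add_le_add (add_le_add hz.2.1 hy.2.1) hw.2.2.1), hs_zyw.1.trans (add_le_add (add_le_add hz.2.1 hy.2.2.1) hw.2.1), hs_zyw.1.trans (add_le_add (add_le_add hz.2.1 hy.2.2.1) hw.2.2.1), hs_zyw.1.trans (add_le_add (add_le_add hz.2.2.1 hy.2.1) hw.2.1), hs_zyw.1.trans (add_le_add (add_le_add hz.2.2.1 hy.2.1) hw.2.2.1), hs_zyw.1.trans (add_le_add (add_le_add hz.2.2.1 hy.2.2.1) hw.2.1), hs_zyw.1.trans (add_le_add (add_le_add hz.2.2.1 hy.2.2.1) hw.2.2.1), hs_zyw.2.1.trans (add_le_add (add_le_add hz.2.2.2.1 hy.2.2.2.1) hw.2.2.2.1), hs_zyw.2.1.trans (add_le_add (add_le_add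 hz.2.2.2.1 hy.2.2.2.1) hw.2.2.2.2.1), hs_zyw.2.1.trans (add_le_add (add_le_add hz.2.2.2.1 hy.2.2.2.2.1) hw.2.2.2.1), hs_zyw.2.1.trans (add_le_add (add_le_add hz.2.2.2.1 hy.2.2.2.2.1) hw.2.2.2.2.1), hs_zyw.2.2.trans (add_le_add (add_le_add hz.2.2.2.2 hy.2.2.2.2.2) hw.2.2.2.2.2)⟩ m_BB_S2_S3).elim
  · exact (P1_ABB_S2_S3_M13 n1 n2 n3 A1 A2 A3 B1 B2 B3 hb hp ⟨hw.1, hy.1, hz.1⟩ ⟨hs_zyw.1.trans (add_le_add (add_le_add hz.2.1 hy.2.1) hw.2.1), hs_zyw.1.trans (add_le_add (add_le_add hz.2.1 hy.2.2.1) hw.2.1), hs_zyw.1.trans (add_le_add (add_le_add hz.2.2.1 hy.2.1) hw.2.1), hs_zyw.1.trans (add_le_add (add_le_add hz.2.2.1 hy.2.2.1) hw.2.1), hs_zyw.2.1.trans (add_le_add (add_le_add hz.2.2.2.1 hy.2.2.2.1) hw.2.2.1), hs_zyw.2.1.trans (add_le_add (add_le_add hz.2.2.2.1 hy.2.2.2.1) hw.2.2.2.1),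 hs_zyw.2.1.trans (add_le_add (add_le_add hz.2.2.2.1 hy.2.2.2.2.1) hw.2.2.1), hs_zyw.2.1.trans (add_le_add (add_le_add hz.2.2.2.1 hy.2.2.2.2.1) hw.2.2.2.1), hs_zyw.2.2.trans (add_le_add (add_le_add hz.2.2.2.2 hy.2.2.2.2.2) hw.2.2.2.2.1), hs_zyw.2.2.trans (add_le_add (add_le_add hz.2.2.2.2 hy.2.2.2.2.2) hw.2.2.2.2.2)⟩ m_AB_S2_S3 m_BB_S2_M13 m_AB_S1_S3).elim
  · exact (P1_ABB_S2_S3_M23 n1 n2 n3 A1 A2 A3 B1 B2 B3 hb hp ⟨hw.1, hy.1, hz.1⟩ ⟨hs_zyw.1.trans (add_le_add (add_le_add hz.2.1 hy.2.1) hw.2.1), hs_zyw.1.trans (add_le_add (add_le_add hz.2.1 hy.2.1) hw.2.2.1), hs_zyw.1.trans (add_le_add (add_le_add hz.2.1 hy.2.2.1) hw.2.1), hs_zyw.1.trans (add_le_add (add_le_add hz.2.1 hy.2.2.1) hw.2.2.1), hs_zyw.1.trans (add_le_add (add_le_add hz.2.2.1 hy.2.1) hw.2.1), hs_zyw.1.trans (add_le_add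 (add_le_add hz.2.2.1 hy.2.1) hw.2.2.1), hs_zyw.1.trans (add_le_add (add_le_add hz.2.2.1 hy.2.2.1) hw.2.1), hs_zyw.1.trans (add_le_add (add_le_add hz.2.2.1 hy.2.2.1) hw.2.2.1), hs_zyw.2.1.trans (add_le_add (add_le_add hz.2.2.2.1 hy.2.2.2.1) hw.2.2.2.1), hs_zyw.2.1.trans (add_le_add (add_le_add hz.2.2.2.1 hy.2.2.2.2.1) hw.2.2.2.1), hs_zyw.2.2.trans (add_le_add (add_le_add hz.2.2.2.2 hy.2.2.2.2.2) hw.2.2.2.2.1), hs_zyw.2.2.trans (add_le_add (add_le_add hz.2.2.2.2 hy.2.2.2.2.2) hw.2.2.2.2.2)⟩ m_AB_S2_S3 m_BB_S2_M23).elim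
  · exact (P1_ABB_S1_S3_S3 n1 n2 n3 A1 A2 A3 B1 B2 B3 hb hp ⟨hy.1, hw.1⟩ ⟨hs_wyz.1.trans (add_le_add (add_le_add hw.2.1 hy.2.1) hz.2.1), hs_wyz.1.trans (add_le_add (add_le_add hw.2.1 hy.2.1) hz.2.2.1), hs_wyz.1.trans (add_le_add (add_le_add hw.2.1 hy.2.2.1) hz.2.1), hs_wyz.1.trans (add_le_add (add_le_add hw.2.1 hy.2.2.1) hz.2.2.1), hs_wyz.2.1.trans (add_le_add (add_le_add hw.2.2.1 hy.2.2.2.1) hz.2.2.2.1), hs_wyz.2.1.trans (add_le_add (add_le_add hw.2.2.1 hy.2.2.2.1) hz.2.2.2.2.1), hs_wyz.2.1.trans (add_le_add (add_le_add hw.2.2.1 hy.2.2.2.2.1) hz.2.2.2.1), hs_wyz.2.1.trans (add_le_add (add_le_add hw.2.2.1 hy.2.2.2.2.1) hz.2.2.2.2.1), hs_wyz.2.2.trans (add_le_add (add_le_add hw.2.2.2 hy.2.2.2.2.2) hz.2.2.2.2.2)⟩ m_BB_S1_S3).elim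
  · exact (P1_ABB_S2_S3_S3 n1 n2 n3 A1 A2 A3 B1 B2 B3 hb hp ⟨hy.1, hw.1⟩ ⟨hs_wyz.1.trans (add_le_add (add_le_add hw.2.1 hy.2.1) hz.2.1), hs_wyz.1.trans (add_le_add (add_le_add hw.2.1 hy.2.1) hz.2.2.1), hs_wyz.1.trans (add_le_add (add_le_add hw.2.1 hy.2.2.1) hz.2.1), hs_wyz.1.trans (add_le_add (add_le_add hw.2.1 hy.2.2.1) hz.2.2.1), hs_wyz.1.trans (add_le_add (add_le_add hw.2.2.1 hy.2.1) hz.2.1), hs_wyz.1.trans (add_le_add (add_le_add hw.2.2.1 hy.2.1) hz.2.2.1), hs_wyz.1.trans (add_le_add (add_le_add hw.2.2.1 hy.2.2.1) hz.2.1), hs_wyz.1.trans (add_le_add (add_le_add hw.2.2.1 hy.2.2.1) hz.2.2.1), hs_wyz.2.1.trans (add_le_add (add_le_add hw.2.2.2.1 hy.2.2.2.1) hz.2.2.2.1), hs_wyz.2.1.trans (add_le_add (add_le_add hw.2.2.2.1 hy.2.2.2.1) hz.2.2.2.2.1), hs_wyz.2.1.trans (add_le_add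 (add_le_add hw.2.2.2.1 hy.2.2.2.2.1) hz.2.2.2.1), hs_wyz.2.1.trans (add_le_add (add_le_add hw.2.2.2.1 hy.2.2.2.2.1) hz.2.2.2.2.1), hs_wyz.2.2.trans (add_le_add (add_le_add hw.2.2.2.2 hy.2.2.2.2.2) hz.2.2.2.2.2)⟩ m_BB_S2_S3).elim
  · exact (P1_ABB_S3_S3_S3 n1 n2 n3 A1 A2 A3 B1 B2 B3 hb hp hy.1 ⟨hs.1.trans (add_le_add (add_le_add hy.2.1 hz.2.1) hw.2.1), hs.1.trans (add_le_add (add_le_add hy.2.1 hz.2.1) hw.2.2.1), hs.1.trans (add_le_add (add_le_add hy.2.1 hz.2.2.1) hw.2.1), hs.1.trans (add_le_add (add_le_add hy.2.1 hz.2.2.1) hw.2.2.1), hs.1.trans (add_le_add (add_le_add hy.2.2.1 hz.2.1) hw.2.1), hs.1.trans (add_le_add (add_le_add hy.2.2.1 hz.2.1) hw.2.2.1), hs.1.trans (add_le_add (add_le_add hy.2.2.1 hz.2.2.1) hw.2.1), hs.1.trans (add_le_add (add_le_add hy.2.2.1 hz.2.2.1)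 hw.2.2.1), hs.2.1.trans (add_le_add (add_le_add hy.2.2.2.1 hz.2.2.2.1) hw.2.2.2.1), hs.2.1.trans (add_le_add (add_le_add hy.2.2.2.1 hz.2.2.2.1) hw.2.2.2.2.1), hs.2.1.trans (add_le_add (add_le_add hy.2.2.2.1 hz.2.2.2.2.1) hw.2.2.2.1), hs.2.1.trans (add_le_add (add_le_add hy.2.2.2.1 hz.2.2.2.2.1) hw.2.2.2.2.1), hs.2.1.trans (add_le_add (add_le_add hy.2.2.2.2.1 hz.2.2.2.1) hw.2.2.2.1), hs.2.1.trans (add_le_add (add_le_add hy.2.2.2.2.1 hz.2.2.2.1) hw.2.2.2.2.1), hs.2.1.trans (add_le_add (add_le_add hy.2.2.2.2.1 hz.2.2.2.2.1) hw.2.2.2.1), hs.2.1.trans (add_le_add (add_le_add hy.2.2.2.2.1 hz.2.2.2.2.1) hw.2.2.2.2.1), hs.2.2.trans (add_le_add (add_le_add hy.2.2.2.2.2 hz.2.2.2.2.2) hw.2.2.2.2.2)⟩ ).elim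
  · exact (P1_ABB_S3_S3_M13 n1 n2 n3 A1 A2 A3 B1 B2 B3 hb hp ⟨hw.1, hy.1⟩ ⟨hs.1.trans (add_le_add (add_le_add hy.2.1 hz.2.1) hw.2.1), hs.1.trans (add_le_add (add_le_add hy.2.1 hz.2.2.1) hw.2.1), hs.1.trans (add_le_add (add_le_add hy.2.2.1 hz.2.1) hw.2.1), hs.1.trans (add_le_add (add_le_add hy.2.2.1 hz.2.2.1) hw.2.1), hs.2.1.trans (add_le_add (add_le_add hy.2.2.2.1 hz.2.2.2.1) hw.2.2.1), hs.2.1.trans (add_le_add (add_le_add hy.2.2.2.1 hz.2.2.2.1) hw.2.2.2.1), hs.2.1.trans (add_le_add (add_le_add hy.2.2.2.1 hz.2.2.2.2.1) hw.2.2.1), hs.2.1.trans (add_le_add (add_le_add hy.2.2.2.1 hz.2.2.2.2.1) hw.2.2.2.1), hs.2.1.trans (add_le_add (add_le_add hy.2.2.2.2.1 hz.2.2.2.1) hw.2.2.1), hs.2.1.trans (add_le_add (add_le_add hy.2.2.2.2.1 hz.2.2.2.1) hw.2.2.2.1), hs.2.1.trans (add_le_add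 (add_le_add hy.2.2.2.2.1 hz.2.2.2.2.1) hw.2.2.1), hs.2.1.trans (add_le_add (add_le_add hy.2.2.2.2.1 hz.2.2.2.2.1) hw.2.2.2.1), hs.2.2.trans (add_le_add (add_le_add hy.2.2.2.2.2 hz.2.2.2.2.2) hw.2.2.2.2.1), hs.2.2.trans (add_le_add (add_le_add hy.2.2.2.2.2 hz.2.2.2.2.2) hw.2.2.2.2.2)⟩ ).elim
  · exact (P1_ABB_S3_S3_M23 n1 n2 n3 A1 A2 A3 B1 B2 B3 hb hp ⟨hw.1, hy.1⟩ ⟨hs.1.trans (add_le_add (add_le_add hy.2.1 hz.2.1) hw.2.1), hs.1.trans (add_le_add (add_le_add hy.2.1 hz.2.1) hw.2.2.1), hs.1.trans (add_le_add (add_le_add hy.2.1 hz.2.2.1) hw.2.1), hs.1.trans (add_le_add (add_le_add hy.2.1 hz.2.2.1) hw.2.2.1), hs.1.trans (add_le_add (add_le_add hy.2.2.1 hz.2.1) hw.2.1), hs.1.trans (add_le_add (add_le_add hy.2.2.1 hz.2.1) hw.2.2.1), hs.1.trans (add_le_add (add_le_add hy.2.2.1 hz.2.2.1)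 hw.2.1), hs.1.trans (add_le_add (add_le_add hy.2.2.1 hz.2.2.1) hw.2.2.1), hs.2.1.trans (add_le_add (add_le_add hy.2.2.2.1 hz.2.2.2.1) hw.2.2.2.1), hs.2.1.trans (add_le_add (add_le_add hy.2.2.2.1 hz.2.2.2.2.1) hw.2.2.2.1), hs.2.1.trans (add_le_add (add_le_add hy.2.2.2.2.1 hz.2.2.2.1) hw.2.2.2.1), hs.2.1.trans (add_le_add (add_le_add hy.2.2.2.2.1 hz.2.2.2.2.1) hw.2.2.2.1), hs.2.2.trans (add_le_add (add_le_add hy.2.2.2.2.2 hz.2.2.2.2.2) hw.2.2.2.2.1), hs.2.2.trans (add_le_add (add_le_add hy.2.2.2.2.2 hz.2.2.2.2.2) hw.2.2.2.2.2)⟩ ).elim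
  · exact (P1_ABB_S1_S3_M13 n1 n2 n3 A1 A2 A3 B1 B2 B3 hb hp ⟨hz.1, hy.1, hw.1⟩ ⟨hs_wyz.1.trans (add_le_add (add_le_add hw.2.1 hy.2.1) hz.2.1), hs_wyz.1.trans (add_le_add (add_le_add hw.2.1 hy.2.2.1) hz.2.1), hs_wyz.2.1.trans (add_le_add (add_le_add hw.2.2.1 hy.2.2.2.1) hz.2.2.1), hs_wyz.2.1.trans (add_le_add (add_le_add hw.2.2.1 hy.2.2.2.1) hz.2.2.2.1), hs_wyz.2.1.trans (add_le_add (add_le_add hw.2.2.1 hy.2.2.2.2.1) hz.2.2.1), hs_wyz.2.1.trans (add_le_add (add_le_add hw.2.2.1 hy.2.2.2.2.1) hz.2.2.2.1), hs_wyz.2.2.trans (add_le_add (add_le_add hw.2.2.2 hy.2.2.2.2.2) hz.2.2.2.2.1), hs_wyz.2.2.trans (add_le_add (add_le_add hw.2.2.2 hy.2.2.2.2.2) hz.2.2.2.2.2)⟩ m_AB_S1_S3 m_BB_S1_M13 m_BB_S2_M13).elim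
  · exact (P1_ABB_S2_S3_M13 n1 n2 n3 A1 A2 A3 B1 B2 B3 hb hp ⟨hz.1, hy.1, hw.1⟩ ⟨hs_wyz.1.trans (add_le_add (add_le_add hw.2.1 hy.2.1) hz.2.1), hs_wyz.1.trans (add_le_add (add_le_add hw.2.1 hy.2.2.1) hz.2.1), hs_wyz.1.trans (add_le_add (add_le_add hw.2.2.1 hy.2.1) hz.2.1), hs_wyz.1.trans (add_le_add (add_le_add hw.2.2.1 hy.2.2.1) hz.2.1), hs_wyz.2.1.trans (add_le_add (add_le_add hw.2.2.2.1 hy.2.2.2.1) hz.2.2.1), hs_wyz.2.1.trans (add_le_add (add_le_add hw.2.2.2.1 hy.2.2.2.1) hz.2.2.2.1), hs_wyz.2.1.trans (add_le_add (add_le_add hw.2.2.2.1 hy.2.2.2.2.1) hz.2.2.1), hs_wyz.2.1.trans (add_le_add (add_le_add hw.2.2.2.1 hy.2.2.2.2.1) hz.2.2.2.1), hs_wyz.2.2.trans (add_le_add (add_le_add hw.2.2.2.2 hy.2.2.2.2.2) hz.2.2.2.2.1), hs_wyz.2.2.trans (add_le_add (add_le_add hw.2.2.2.2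 hy.2.2.2.2.2) hz.2.2.2.2.2)⟩ m_AB_S2_S3 m_BB_S2_M13 m_AB_S1_S3).elim
  · exact (P1_ABB_S3_S3_M13 n1 n2 n3 A1 A2 A3 B1 B2 B3 hb hp ⟨hz.1, hy.1⟩ ⟨hs_ywz.1.trans (add_le_add (add_le_add hy.2.1 hw.2.1) hz.2.1), hs_ywz.1.trans (add_le_add (add_le_add hy.2.1 hw.2.2.1) hz.2.1), hs_ywz.1.trans (add_le_add (add_le_add hy.2.2.1 hw.2.1) hz.2.1), hs_ywz.1.trans (add_le_add (add_le_add hy.2.2.1 hw.2.2.1) hz.2.1), hs_ywz.2.1.trans (add_le_add (add_le_add hy.2.2.2.1 hw.2.2.2.1) hz.2.2.1), hs_ywz.2.1.trans (add_le_add (add_le_add hy.2.2.2.1 hw.2.2.2.1) hz.2.2.2.1), hs_ywz.2.1.trans (add_le_add (add_le_add hy.2.2.2.1 hw.2.2.2.2.1) hz.2.2.1), hs_ywz.2.1.trans (add_le_add (add_le_add hy.2.2.2.1 hw.2.2.2.2.1) hz.2.2.2.1), hs_ywz.2.1.trans (add_le_add (add_le_add hy.2.2.2.2.1 hw.2.2.2.1) hz.2.2.1),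 hs_ywz.2.1.trans (add_le_add (add_le_add hy.2.2.2.2.1 hw.2.2.2.1) hz.2.2.2.1), hs_ywz.2.1.trans (add_le_add (add_le_add hy.2.2.2.2.1 hw.2.2.2.2.1) hz.2.2.1), hs_ywz.2.1.trans (add_le_add (add_le_add hy.2.2.2.2.1 hw.2.2.2.2.1) hz.2.2.2.1), hs_ywz.2.2.trans (add_le_add (add_le_add hy.2.2.2.2.2 hw.2.2.2.2.2) hz.2.2.2.2.1), hs_ywz.2.2.trans (add_le_add (add_le_add hy.2.2.2.2.2 hw.2.2.2.2.2) hz.2.2.2.2.2)⟩ ).elim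
  · exact (P1_ABB_S3_M13_M13 n1 n2 n3 A1 A2 A3 B1 B2 B3 hb hp ⟨hz.1, hy.1⟩ ⟨hs.1.trans (add_le_add (add_le_add hy.2.1 hz.2.1) hw.2.1), hs.1.trans (add_le_add (add_le_add hy.2.2.1 hz.2.1) hw.2.1), hs.2.1.trans (add_le_add (add_le_add hy.2.2.2.1 hz.2.2.1) hw.2.2.1), hs.2.1.trans (add_le_add (add_le_add hy.2.2.2.1 hz.2.2.1) hw.2.2.2.1), hs.2.1.trans (add_le_add (add_le_add hy.2.2.2.1 hz.2.2.2.1) hw.2.2.1), hs.2.1.trans (add_le_add (add_le_add hy.2.2.2.1 hz.2.2.2.1) hw.2.2.2.1), hs.2.1.trans (add_le_add (add_le_add hy.2.2.2.2.1 hz.2.2.1) hw.2.2.1), hs.2.1.trans (add_le_add (add_le_add hy.2.2.2.2.1 hz.2.2.1) hw.2.2.2.1), hs.2.1.trans (add_le_add (add_le_add hy.2.2.2.2.1 hz.2.2.2.1) hw.2.2.1), hs.2.1.trans (add_le_add (add_le_add hy.2.2.2.2.1 hz.2.2.2.1) hw.2.2.2.1), hs.2.2.trans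 (add_le_add (add_le_add hy.2.2.2.2.2 hz.2.2.2.2.1) hw.2.2.2.2.1), hs.2.2.trans (add_le_add (add_le_add hy.2.2.2.2.2 hz.2.2.2.2.1) hw.2.2.2.2.2), hs.2.2.trans (add_le_add (add_le_add hy.2.2.2.2.2 hz.2.2.2.2.2) hw.2.2.2.2.1), hs.2.2.trans (add_le_add (add_le_add hy.2.2.2.2.2 hz.2.2.2.2.2) hw.2.2.2.2.2)⟩ ).elim
  · exact (P1_ABB_S3_M13_M23 n1 n2 n3 A1 A2 A3 B1 B2 B3 hb hp ⟨hz.1, hw.1, hy.1⟩ ⟨hs.1.trans (add_le_add (add_le_add hy.2.1 hz.2.1) hw.2.1), hs.1.trans (add_le_add (add_le_add hy.2.1 hz.2.1) hw.2.2.1), hs.1.trans (add_le_add (add_le_add hy.2.2.1 hz.2.1) hw.2.1), hs.1.trans (add_le_add (add_le_add hy.2.2.1 hz.2.1) hw.2.2.1), hs.2.1.trans (add_le_add (add_le_add hy.2.2.2.1 hz.2.2.1) hw.2.2.2.1), hs.2.1.trans (add_le_add (add_le_add hy.2.2.2.1 hz.2.2.2.1) hw.2.2.2.1),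 hs.2.1.trans (add_le_add (add_le_add hy.2.2.2.2.1 hz.2.2.1) hw.2.2.2.1), hs.2.1.trans (add_le_add (add_le_add hy.2.2.2.2.1 hz.2.2.2.1) hw.2.2.2.1), hs.2.2.trans (add_le_add (add_le_add hy.2.2.2.2.2 hz.2.2.2.2.1) hw.2.2.2.2.1), hs.2.2.trans (add_le_add (add_le_add hy.2.2.2.2.2 hz.2.2.2.2.1) hw.2.2.2.2.2), hs.2.2.trans (add_le_add (add_le_add hy.2.2.2.2.2 hz.2.2.2.2.2) hw.2.2.2.2.1), hs.2.2.trans (add_le_add (add_le_add hy.2.2.2.2.2 hz.2.2.2.2.2) hw.2.2.2.2.2)⟩ ).elim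
  · exact (P1_ABB_S1_S3_M23 n1 n2 n3 A1 A2 A3 B1 B2 B3 hb hp ⟨hz.1, hy.1, hw.1⟩ ⟨hs_wyz.1.trans (add_le_add (add_le_add hw.2.1 hy.2.1) hz.2.1), hs_wyz.1.trans (add_le_add (add_le_add hw.2.1 hy.2.1) hz.2.2.1), hs_wyz.1.trans (add_le_add (add_le_add hw.2.1 hy.2.2.1) hz.2.1), hs_wyz.1.trans (add_le_add (add_le_add hw.2.1 hy.2.2.1) hz.2.2.1), hs_wyz.2.1.trans (add_le_add (add_le_add hw.2.2.1 hy.2.2.2.1) hz.2.2.2.1), hs_wyz.2.1.trans (add_le_add (add_le_add hw.2.2.1 hy.2.2.2.2.1) hz.2.2.2.1), hs_wyz.2.2.trans (add_le_add (add_le_add hw.2.2.2 hy.2.2.2.2.2) hz.2.2.2.2.1), hs_wyz.2.2.trans (add_le_add (add_le_add hw.2.2.2 hy.2.2.2.2.2) hz.2.2.2.2.2)⟩ m_AB_S1_S3 m_AB_M13_M23 m_BB_S1_S3).elim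
  · exact (P1_ABB_S2_S3_M23 n1 n2 n3 A1 A2 A3 B1 B2 B3 hb hp ⟨hz.1, hy.1, hw.1⟩ ⟨hs_wyz.1.trans (add_le_add (add_le_add hw.2.1 hy.2.1) hz.2.1), hs_wyz.1.trans (add_le_add (add_le_add hw.2.1 hy.2.1) hz.2.2.1), hs_wyz.1.trans (add_le_add (add_le_add hw.2.1 hy.2.2.1) hz.2.1), hs_wyz.1.trans (add_le_add (add_le_add hw.2.1 hy.2.2.1) hz.2.2.1), hs_wyz.1.trans (add_le_add (add_le_add hw.2.2.1 hy.2.1) hz.2.1), hs_wyz.1.trans (add_le_add (add_le_add hw.2.2.1 hy.2.1) hz.2.2.1), hs_wyz.1.trans (add_le_add (add_le_add hw.2.2.1 hy.2.2.1) hz.2.1), hs_wyz.1.trans (add_le_add (add_le_add hw.2.2.1 hy.2.2.1) hz.2.2.1), hs_wyz.2.1.trans (add_le_add (add_le_add hw.2.2.2.1 hy.2.2.2.1) hz.2.2.2.1), hs_wyz.2.1.trans (add_le_add (add_le_add hw.2.2.2.1 hy.2.2.2.2.1) hz.2.2.2.1), hs_wyz.2.2.trans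 (add_le_add (add_le_add hw.2.2.2.2 hy.2.2.2.2.2) hz.2.2.2.2.1), hs_wyz.2.2.trans (add_le_add (add_le_add hw.2.2.2.2 hy.2.2.2.2.2) hz.2.2.2.2.2)⟩ m_AB_S2_S3 m_BB_S2_M23).elim
  · exact (P1_ABB_S3_S3_M23 n1 n2 n3 A1 A2 A3 B1 B2 B3 hb hp ⟨hz.1, hy.1⟩ ⟨hs_ywz.1.trans (add_le_add (add_le_add hy.2.1 hw.2.1) hz.2.1), hs_ywz.1.trans (add_le_add (add_le_add hy.2.1 hw.2.1) hz.2.2.1), hs_ywz.1.trans (add_le_add (add_le_add hy.2.1 hw.2.2.1) hz.2.1), hs_ywz.1.trans (add_le_add (add_le_add hy.2.1 hw.2.2.1) hz.2.2.1), hs_ywz.1.trans (add_le_add (add_le_add hy.2.2.1 hw.2.1) hz.2.1), hs_ywz.1.trans (add_le_add (add_le_add hy.2.2.1 hw.2.1) hz.2.2.1), hs_ywz.1.trans (add_le_add (add_le_add hy.2.2.1 hw.2.2.1) hz.2.1), hs_ywz.1.trans (add_le_add (add_le_add hy.2.2.1 hw.2.2.1) hz.2.2.1), hs_ywz.2.1.trans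 (add_le_add (add_le_add hy.2.2.2.1 hw.2.2.2.1) hz.2.2.2.1), hs_ywz.2.1.trans (add_le_add (add_le_add hy.2.2.2.1 hw.2.2.2.2.1) hz.2.2.2.1), hs_ywz.2.1.trans (add_le_add (add_le_add hy.2.2.2.2.1 hw.2.2.2.1) hz.2.2.2.1), hs_ywz.2.1.trans (add_le_add (add_le_add hy.2.2.2.2.1 hw.2.2.2.2.1) hz.2.2.2.1), hs_ywz.2.2.trans (add_le_add (add_le_add hy.2.2.2.2.2 hw.2.2.2.2.2) hz.2.2.2.2.1), hs_ywz.2.2.trans (add_le_add (add_le_add hy.2.2.2.2.2 hw.2.2.2.2.2) hz.2.2.2.2.2)⟩ ).elim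
  · exact (P1_ABB_S3_M13_M23 n1 n2 n3 A1 A2 A3 B1 B2 B3 hb hp ⟨hw.1, hz.1, hy.1⟩ ⟨hs_ywz.1.trans (add_le_add (add_le_add hy.2.1 hw.2.1) hz.2.1), hs_ywz.1.trans (add_le_add (add_le_add hy.2.1 hw.2.1) hz.2.2.1), hs_ywz.1.trans (add_le_add (add_le_add hy.2.2.1 hw.2.1) hz.2.1), hs_ywz.1.trans (add_le_add (add_le_add hy.2.2.1 hw.2.1) hz.2.2.1), hs_ywz.2.1.trans (add_le_add (add_le_add hy.2.2.2.1 hw.2.2.1) hz.2.2.2.1), hs_ywz.2.1.trans (add_le_add (add_le_add hy.2.2.2.1 hw.2.2.2.1) hz.2.2.2.1), hs_ywz.2.1.trans (add_le_add (add_le_add hy.2.2.2.2.1 hw.2.2.1) hz.2.2.2.1), hs_ywz.2.1.trans (add_le_add (add_le_add hy.2.2.2.2.1 hw.2.2.2.1) hz.2.2.2.1), hs_ywz.2.2.trans (add_le_add (add_le_add hy.2.2.2.2.2 hw.2.2.2.2.1) hz.2.2.2.2.1), hs_ywz.2.2.trans (add_le_add (add_le_add hy.2.2.2.2.2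 hw.2.2.2.2.1) hz.2.2.2.2.2), hs_ywz.2.2.trans (add_le_add (add_le_add hy.2.2.2.2.2 hw.2.2.2.2.2) hz.2.2.2.2.1), hs_ywz.2.2.trans (add_le_add (add_le_add hy.2.2.2.2.2 hw.2.2.2.2.2) hz.2.2.2.2.2)⟩ ).elim
  · exact (P1_ABB_S3_M23_M23 n1 n2 n3 A1 A2 A3 B1 B2 B3 hb hp ⟨hz.1, hy.1⟩ ⟨hs.1.trans (add_le_add (add_le_add hy.2.1 hz.2.1) hw.2.1), hs.1.trans (add_le_add (add_le_add hy.2.1 hz.2.1) hw.2.2.1), hs.1.trans (add_le_add (add_le_add hy.2.1 hz.2.2.1) hw.2.1), hs.1.trans (add_le_add (add_le_add hy.2.1 hz.2.2.1) hw.2.2.1), hs.1.trans (add_le_add (add_le_add hy.2.2.1 hz.2.1) hw.2.1), hs.1.trans (add_le_add (add_le_add hy.2.2.1 hz.2.1) hw.2.2.1), hs.1.trans (add_le_add (add_le_add hy.2.2.1 hz.2.2.1) hw.2.1), hs.1.trans (add_le_add (add_le_add hy.2.2.1 hz.2.2.1) hw.2.2.1), hs.2.1.trans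 (add_le_add (add_le_add hy.2.2.2.1 hz.2.2.2.1) hw.2.2.2.1), hs.2.1.trans (add_le_add (add_le_add hy.2.2.2.2.1 hz.2.2.2.1) hw.2.2.2.1), hs.2.2.trans (add_le_add (add_le_add hy.2.2.2.2.2 hz.2.2.2.2.1) hw.2.2.2.2.1), hs.2.2.trans (add_le_add (add_le_add hy.2.2.2.2.2 hz.2.2.2.2.1) hw.2.2.2.2.2), hs.2.2.trans (add_le_add (add_le_add hy.2.2.2.2.2 hz.2.2.2.2.2) hw.2.2.2.2.1), hs.2.2.trans (add_le_add (add_le_add hy.2.2.2.2.2 hz.2.2.2.2.2) hw.2.2.2.2.2)⟩ ).elim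
  · exact (P1_ABB_S1_S1_M13 n1 n2 n3 A1 A2 A3 B1 B2 B3 hb hp ⟨hy.1, hz.1⟩ ⟨hs_zwy.1.trans (add_le_add (add_le_add hz.2.1 hw.2.1) hy.2.1), hs_zwy.2.1.trans (add_le_add (add_le_add hz.2.2.1 hw.2.2.1) hy.2.2.1), hs_zwy.2.1.trans (add_le_add (add_le_add hz.2.2.1 hw.2.2.1) hy.2.2.2.1), hs_zwy.2.2.trans (add_le_add (add_le_add hz.2.2.2 hw.2.2.2) hy.2.2.2.2.1), hs_zwy.2.2.trans (add_le_add (add_le_add hz.2.2.2 hw.2.2.2) hy.2.2.2.2.2)⟩ ).elim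
  · exact (P1_ABB_S1_S2_M13 n1 n2 n3 A1 A2 A3 B1 B2 B3 hb hp ⟨hy.1, hz.1, hw.1⟩ ⟨hs_zwy.1.trans (add_le_add (add_le_add hz.2.1 hw.2.1) hy.2.1), hs_zwy.1.trans (add_le_add (add_le_add hz.2.1 hw.2.2.1) hy.2.1), hs_zwy.2.1.trans (add_le_add (add_le_add hz.2.2.1 hw.2.2.2.1) hy.2.2.1), hs_zwy.2.1.trans (add_le_add (add_le_add hz.2.2.1 hw.2.2.2.1) hy.2.2.2.1), hs_zwy.2.2.trans (add_le_add (add_le_add hz.2.2.2 hw.2.2.2.2) hy.2.2.2.2.1), hs_zwy.2.2.trans (add_le_add (add_le_add hz.2.2.2 hw.2.2.2.2) hy.2.2.2.2.2)⟩ m_AB_S2_M13 m_BB_S1_S2).elim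
  · exact (P1_ABB_S1_S3_M13 n1 n2 n3 A1 A2 A3 B1 B2 B3 hb hp ⟨hy.1, hw.1, hz.1⟩ ⟨hs_zwy.1.trans (add_le_add (add_le_add hz.2.1 hw.2.1) hy.2.1), hs_zwy.1.trans (add_le_add (add_le_add hz.2.1 hw.2.2.1) hy.2.1), hs_zwy.2.1.trans (add_le_add (add_le_add hz.2.2.1 hw.2.2.2.1) hy.2.2.1), hs_zwy.2.1.trans (add_le_add (add_le_add hz.2.2.1 hw.2.2.2.1) hy.2.2.2.1), hs_zwy.2.1.trans (add_le_add (add_le_add hz.2.2.1 hw.2.2.2.2.1) hy.2.2.1), hs_zwy.2.1.trans (add_le_add (add_le_add hz.2.2.1 hw.2.2.2.2.1) hy.2.2.2.1), hs_zwy.2.2.trans (add_le_add (add_le_add hz.2.2.2 hw.2.2.2.2.2) hy.2.2.2.2.1), hs_zwy.2.2.trans (add_le_add (add_le_add hz.2.2.2 hw.2.2.2.2.2) hy.2.2.2.2.2)⟩ m_AB_S1_S3 m_BB_S1_M13 m_BB_S2_M13).elim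
  · exact (P1_ABB_S1_M13_M13 n1 n2 n3 A1 A2 A3 B1 B2 B3 hb hp ⟨hy.1, hz.1⟩ ⟨hs_zyw.1.trans (add_le_add (add_le_add hz.2.1 hy.2.1) hw.2.1), hs_zyw.2.1.trans (add_le_add (add_le_add hz.2.2.1 hy.2.2.1) hw.2.2.1), hs_zyw.2.1.trans (add_le_add (add_le_add hz.2.2.1 hy.2.2.1) hw.2.2.2.1), hs_zyw.2.1.trans (add_le_add (add_le_add hz.2.2.1 hy.2.2.2.1) hw.2.2.1), hs_zyw.2.1.trans (add_le_add (add_le_add hz.2.2.1 hy.2.2.2.1) hw.2.2.2.1), hs_zyw.2.2.trans (add_le_add (add_le_add hz.2.2.2 hy.2.2.2.2.1) hw.2.2.2.2.1), hs_zyw.2.2.trans (add_le_add (add_le_add hz.2.2.2 hy.2.2.2.2.1) hw.2.2.2.2.2), hs_zyw.2.2.trans (add_le_add (add_le_add hz.2.2.2 hy.2.2.2.2.2) hw.2.2.2.2.1), hs_zyw.2.2.trans (add_le_add (add_le_add hz.2.2.2 hy.2.2.2.2.2) hw.2.2.2.2.2)⟩ m_BB_S1_M13 m_AB_M13_M13).elim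
  · exact (P1_ABB_S1_M13_M23 n1 n2 n3 A1 A2 A3 B1 B2 B3 hb hp ⟨hy.1, hw.1, hz.1⟩ ⟨hs_zyw.1.trans (add_le_add (add_le_add hz.2.1 hy.2.1) hw.2.1), hs_zyw.1.trans (add_le_add (add_le_add hz.2.1 hy.2.1) hw.2.2.1), hs_zyw.2.1.trans (add_le_add (add_le_add hz.2.2.1 hy.2.2.1) hw.2.2.2.1), hs_zyw.2.1.trans (add_le_add (add_le_add hz.2.2.1 hy.2.2.2.1) hw.2.2.2.1), hs_zyw.2.2.trans (add_le_add (add_le_add hz.2.2.2 hy.2.2.2.2.1) hw.2.2.2.2.1), hs_zyw.2.2.trans (add_le_add (add_le_add hz.2.2.2 hy.2.2.2.2.1) hw.2.2.2.2.2), hs_zyw.2.2.trans (add_le_add (add_le_add hz.2.2.2 hy.2.2.2.2.2) hw.2.2.2.2.1), hs_zyw.2.2.trans (add_le_add (add_le_add hz.2.2.2 hy.2.2.2.2.2) hw.2.2.2.2.2)⟩ m_AB_M13_M23 m_BB_S1_M23 m_AB_S2_M13).elim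
  · exact (P1_ABB_S1_S2_M13 n1 n2 n3 A1 A2 A3 B1 B2 B3 hb hp ⟨hy.1, hw.1, hz.1⟩ ⟨hs_wzy.1.trans (add_le_add (add_le_add hw.2.1 hz.2.1) hy.2.1), hs_wzy.1.trans (add_le_add (add_le_add hw.2.1 hz.2.2.1) hy.2.1), hs_wzy.2.1.trans (add_le_add (add_le_add hw.2.2.1 hz.2.2.2.1) hy.2.2.1), hs_wzy.2.1.trans (add_le_add (add_le_add hw.2.2.1 hz.2.2.2.1) hy.2.2.2.1), hs_wzy.2.2.trans (add_le_add (add_le_add hw.2.2.2 hz.2.2.2.2) hy.2.2.2.2.1), hs_wzy.2.2.trans (add_le_add (add_le_add hw.2.2.2 hz.2.2.2.2) hy.2.2.2.2.2)⟩ m_AB_S2_M13 m_BB_S1_S2).elim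
  · exact (P1_ABB_S2_S2_M13 n1 n2 n3 A1 A2 A3 B1 B2 B3 hb hp ⟨hy.1, hz.1⟩ ⟨hs_zwy.1.trans (add_le_add (add_le_add hz.2.1 hw.2.1) hy.2.1), hs_zwy.1.trans (add_le_add (add_le_add hz.2.1 hw.2.2.1) hy.2.1), hs_zwy.1.trans (add_le_add (add_le_add hz.2.2.1 hw.2.1) hy.2.1), hs_zwy.1.trans (add_le_add (add_le_add hz.2.2.1 hw.2.2.1) hy.2.1), hs_zwy.2.1.trans (add_le_add (add_le_add hz.2.2.2.1 hw.2.2.2.1) hy.2.2.1), hs_zwy.2.1.trans (add_le_add (add_le_add hz.2.2.2.1 hw.2.2.2.1) hy.2.2.2.1), hs_zwy.2.2.trans (add_le_add (add_le_add hz.2.2.2.2 hw.2.2.2.2) hy.2.2.2.2.1), hs_zwy.2.2.trans (add_le_add (add_le_add hz.2.2.2.2 hw.2.2.2.2) hy.2.2.2.2.2)⟩ m_AB_S2_M13).elim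
  · exact (P1_ABB_S2_S3_M13 n1 n2 n3 A1 A2 A3 B1 B2 B3 hb hp ⟨hy.1, hw.1, hz.1⟩ ⟨hs_zwy.1.trans (add_le_add (add_le_add hz.2.1 hw.2.1) hy.2.1), hs_zwy.1.trans (add_le_add (add_le_add hz.2.1 hw.2.2.1) hy.2.1), hs_zwy.1.trans (add_le_add (add_le_add hz.2.2.1 hw.2.1) hy.2.1), hs_zwy.1.trans (add_le_add (add_le_add hz.2.2.1 hw.2.2.1) hy.2.1), hs_zwy.2.1.trans (add_le_add (add_le_add hz.2.2.2.1 hw.2.2.2.1) hy.2.2.1), hs_zwy.2.1.trans (add_le_add (add_le_add hz.2.2.2.1 hw.2.2.2.1) hy.2.2.2.1), hs_zwy.2.1.trans (add_le_add (add_le_add hz.2.2.2.1 hw.2.2.2.2.1) hy.2.2.1), hs_zwy.2.1.trans (add_le_add (add_le_add hz.2.2.2.1 hw.2.2.2.2.1) hy.2.2.2.1), hs_zwy.2.2.trans (add_le_add (add_le_add hz.2.2.2.2 hw.2.2.2.2.2) hy.2.2.2.2.1), hs_zwy.2.2.trans (add_le_add (add_le_add hz.2.2.2.2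 hw.2.2.2.2.2) hy.2.2.2.2.2)⟩ m_AB_S2_S3 m_BB_S2_M13 m_AB_S1_S3).elim
  · exact (P1_ABB_S2_M13_M13 n1 n2 n3 A1 A2 A3 B1 B2 B3 hb hp ⟨hy.1, hz.1⟩ ⟨hs_zyw.1.trans (add_le_add (add_le_add hz.2.1 hy.2.1) hw.2.1), hs_zyw.1.trans (add_le_add (add_le_add hz.2.2.1 hy.2.1) hw.2.1), hs_zyw.2.1.trans (add_le_add (add_le_add hz.2.2.2.1 hy.2.2.1) hw.2.2.1), hs_zyw.2.1.trans (add_le_add (add_le_add hz.2.2.2.1 hy.2.2.1) hw.2.2.2.1), hs_zyw.2.1.trans (add_le_add (add_le_add hz.2.2.2.1 hy.2.2.2.1) hw.2.2.1), hs_zyw.2.1.trans (add_le_add (add_le_add hz.2.2.2.1 hy.2.2.2.1) hw.2.2.2.1), hs_zyw.2.2.trans (add_le_add (add_le_add hz.2.2.2.2 hy.2.2.2.2.1) hw.2.2.2.2.1), hs_zyw.2.2.trans (add_le_add (add_le_add hz.2.2.2.2 hy.2.2.2.2.1) hw.2.2.2.2.2), hs_zyw.2.2.trans (add_le_add (add_le_add hz.2.2.2.2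 hy.2.2.2.2.2) hw.2.2.2.2.1), hs_zyw.2.2.trans (add_le_add (add_le_add hz.2.2.2.2 hy.2.2.2.2.2) hw.2.2.2.2.2)⟩ m_AB_M13_M23 m_BB_S2_M13).elim
  · exact (P1_ABB_S2_M13_M23 n1 n2 n3 A1 A2 A3 B1 B2 B3 hb hp ⟨hy.1, hw.1, hz.1⟩ ⟨hs_zyw.1.trans (add_le_add (add_le_add hz.2.1 hy.2.1) hw.2.1), hs_zyw.1.trans (add_le_add (add_le_add hz.2.1 hy.2.1) hw.2.2.1), hs_zyw.1.trans (add_le_add (add_le_add hz.2.2.1 hy.2.1) hw.2.1), hs_zyw.1.trans (add_le_add (add_le_add hz.2.2.1 hy.2.1) hw.2.2.1), hs_zyw.2.1.trans (add_le_add (add_le_add hz.2.2.2.1 hy.2.2.1) hw.2.2.2.1), hs_zyw.2.1.trans (add_le_add (add_le_add hz.2.2.2.1 hy.2.2.2.1) hw.2.2.2.1), hs_zyw.2.2.trans (add_le_add (add_le_add hz.2.2.2.2 hy.2.2.2.2.1) hw.2.2.2.2.1), hs_zyw.2.2.trans (add_le_add (add_le_add hz.2.2.2.2 hy.2.2.2.2.1)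 hw.2.2.2.2.2), hs_zyw.2.2.trans (add_le_add (add_le_add hz.2.2.2.2 hy.2.2.2.2.2) hw.2.2.2.2.1), hs_zyw.2.2.trans (add_le_add (add_le_add hz.2.2.2.2 hy.2.2.2.2.2) hw.2.2.2.2.2)⟩ m_AB_M13_M23 m_BB_S2_M13 m_AB_S1_S3).elim
  · exact (P1_ABB_S1_S3_M13 n1 n2 n3 A1 A2 A3 B1 B2 B3 hb hp ⟨hy.1, hz.1, hw.1⟩ ⟨hs_wzy.1.trans (add_le_add (add_le_add hw.2.1 hz.2.1) hy.2.1), hs_wzy.1.trans (add_le_add (add_le_add hw.2.1 hz.2.2.1) hy.2.1), hs_wzy.2.1.trans (add_le_add (add_le_add hw.2.2.1 hz.2.2.2.1) hy.2.2.1), hs_wzy.2.1.trans (add_le_add (add_le_add hw.2.2.1 hz.2.2.2.1) hy.2.2.2.1), hs_wzy.2.1.trans (add_le_add (add_le_add hw.2.2.1 hz.2.2.2.2.1) hy.2.2.1), hs_wzy.2.1.trans (add_le_add (add_le_add hw.2.2.1 hz.2.2.2.2.1) hy.2.2.2.1), hs_wzy.2.2.trans (add_le_add (add_le_add hw.2.2.2 hz.2.2.2.2.2)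 hy.2.2.2.2.1), hs_wzy.2.2.trans (add_le_add (add_le_add hw.2.2.2 hz.2.2.2.2.2) hy.2.2.2.2.2)⟩ m_AB_S1_S3 m_BB_S1_M13 m_BB_S2_M13).elim
  · exact (P1_ABB_S2_S3_M13 n1 n2 n3 A1 A2 A3 B1 B2 B3 hb hp ⟨hy.1, hz.1, hw.1⟩ ⟨hs_wzy.1.trans (add_le_add (add_le_add hw.2.1 hz.2.1) hy.2.1), hs_wzy.1.trans (add_le_add (add_le_add hw.2.1 hz.2.2.1) hy.2.1), hs_wzy.1.trans (add_le_add (add_le_add hw.2.2.1 hz.2.1) hy.2.1), hs_wzy.1.trans (add_le_add (add_le_add hw.2.2.1 hz.2.2.1) hy.2.1), hs_wzy.2.1.trans (add_le_add (add_le_add hw.2.2.2.1 hz.2.2.2.1) hy.2.2.1), hs_wzy.2.1.trans (add_le_add (add_le_add hw.2.2.2.1 hz.2.2.2.1) hy.2.2.2.1), hs_wzy.2.1.trans (add_le_add (add_le_add hw.2.2.2.1 hz.2.2.2.2.1) hy.2.2.1), hs_wzy.2.1.trans (add_le_add (add_le_add hw.2.2.2.1 hz.2.2.2.2.1) hy.2.2.2.1),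 hs_wzy.2.2.trans (add_le_add (add_le_add hw.2.2.2.2 hz.2.2.2.2.2) hy.2.2.2.2.1), hs_wzy.2.2.trans (add_le_add (add_le_add hw.2.2.2.2 hz.2.2.2.2.2) hy.2.2.2.2.2)⟩ m_AB_S2_S3 m_BB_S2_M13 m_AB_S1_S3).elim
  · exact (P1_ABB_S3_S3_M13 n1 n2 n3 A1 A2 A3 B1 B2 B3 hb hp ⟨hy.1, hz.1⟩ ⟨hs_zwy.1.trans (add_le_add (add_le_add hz.2.1 hw.2.1) hy.2.1), hs_zwy.1.trans (add_le_add (add_le_add hz.2.1 hw.2.2.1) hy.2.1), hs_zwy.1.trans (add_le_add (add_le_add hz.2.2.1 hw.2.1) hy.2.1), hs_zwy.1.trans (add_le_add (add_le_add hz.2.2.1 hw.2.2.1) hy.2.1), hs_zwy.2.1.trans (add_le_add (add_le_add hz.2.2.2.1 hw.2.2.2.1) hy.2.2.1), hs_zwy.2.1.trans (add_le_add (add_le_add hz.2.2.2.1 hw.2.2.2.1) hy.2.2.2.1), hs_zwy.2.1.trans (add_le_add (add_le_add hz.2.2.2.1 hw.2.2.2.2.1) hy.2.2.1), hs_zwy.2.1.trans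 (add_le_add (add_le_add hz.2.2.2.1 hw.2.2.2.2.1) hy.2.2.2.1), hs_zwy.2.1.trans (add_le_add (add_le_add hz.2.2.2.2.1 hw.2.2.2.1) hy.2.2.1), hs_zwy.2.1.trans (add_le_add (add_le_add hz.2.2.2.2.1 hw.2.2.2.1) hy.2.2.2.1), hs_zwy.2.1.trans (add_le_add (add_le_add hz.2.2.2.2.1 hw.2.2.2.2.1) hy.2.2.1), hs_zwy.2.1.trans (add_le_add (add_le_add hz.2.2.2.2.1 hw.2.2.2.2.1) hy.2.2.2.1), hs_zwy.2.2.trans (add_le_add (add_le_add hz.2.2.2.2.2 hw.2.2.2.2.2) hy.2.2.2.2.1), hs_zwy.2.2.trans (add_le_add (add_le_add hz.2.2.2.2.2 hw.2.2.2.2.2) hy.2.2.2.2.2)⟩ ).elim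
  · exact (P1_ABB_S3_M13_M13 n1 n2 n3 A1 A2 A3 B1 B2 B3 hb hp ⟨hy.1, hz.1⟩ ⟨hs_zyw.1.trans (add_le_add (add_le_add hz.2.1 hy.2.1) hw.2.1), hs_zyw.1.trans (add_le_add (add_le_add hz.2.2.1 hy.2.1) hw.2.1), hs_zyw.2.1.trans (add_le_add (add_le_add hz.2.2.2.1 hy.2.2.1) hw.2.2.1), hs_zyw.2.1.trans (add_le_add (add_le_add hz.2.2.2.1 hy.2.2.1) hw.2.2.2.1), hs_zyw.2.1.trans (add_le_add (add_le_add hz.2.2.2.1 hy.2.2.2.1) hw.2.2.1), hs_zyw.2.1.trans (add_le_add (add_le_add hz.2.2.2.1 hy.2.2.2.1) hw.2.2.2.1), hs_zyw.2.1.trans (add_le_add (add_le_add hz.2.2.2.2.1 hy.2.2.1) hw.2.2.1), hs_zyw.2.1.trans (add_le_add (add_le_add hz.2.2.2.2.1 hy.2.2.1) hw.2.2.2.1), hs_zyw.2.1.trans (add_le_add (add_le_add hz.2.2.2.2.1 hy.2.2.2.1) hw.2.2.1), hs_zyw.2.1.trans (add_le_add (add_le_add hz.2.2.2.2.1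 hy.2.2.2.1) hw.2.2.2.1), hs_zyw.2.2.trans (add_le_add (add_le_add hz.2.2.2.2.2 hy.2.2.2.2.1) hw.2.2.2.2.1), hs_zyw.2.2.trans (add_le_add (add_le_add hz.2.2.2.2.2 hy.2.2.2.2.1) hw.2.2.2.2.2), hs_zyw.2.2.trans (add_le_add (add_le_add hz.2.2.2.2.2 hy.2.2.2.2.2) hw.2.2.2.2.1), hs_zyw.2.2.trans (add_le_add (add_le_add hz.2.2.2.2.2 hy.2.2.2.2.2) hw.2.2.2.2.2)⟩ ).elim
  · exact (P1_ABB_S3_M13_M23 n1 n2 n3 A1 A2 A3 B1 B2 B3 hb hp ⟨hy.1, hw.1, hz.1⟩ ⟨hs_zyw.1.trans (add_le_add (add_le_add hz.2.1 hy.2.1) hw.2.1), hs_zyw.1.trans (add_le_add (add_le_add hz.2.1 hy.2.1) hw.2.2.1), hs_zyw.1.trans (add_le_add (add_le_add hz.2.2.1 hy.2.1) hw.2.1), hs_zyw.1.trans (add_le_add (add_le_add hz.2.2.1 hy.2.1) hw.2.2.1), hs_zyw.2.1.trans (add_le_add (add_le_add hz.2.2.2.1 hy.2.2.1) hw.2.2.2.1),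 hs_zyw.2.1.trans (add_le_add (add_le_add hz.2.2.2.1 hy.2.2.2.1) hw.2.2.2.1), hs_zyw.2.1.trans (add_le_add (add_le_add hz.2.2.2.2.1 hy.2.2.1) hw.2.2.2.1), hs_zyw.2.1.trans (add_le_add (add_le_add hz.2.2.2.2.1 hy.2.2.2.1) hw.2.2.2.1), hs_zyw.2.2.trans (add_le_add (add_le_add hz.2.2.2.2.2 hy.2.2.2.2.1) hw.2.2.2.2.1), hs_zyw.2.2.trans (add_le_add (add_le_add hz.2.2.2.2.2 hy.2.2.2.2.1) hw.2.2.2.2.2), hs_zyw.2.2.trans (add_le_add (add_le_add hz.2.2.2.2.2 hy.2.2.2.2.2) hw.2.2.2.2.1), hs_zyw.2.2.trans (add_le_add (add_le_add hz.2.2.2.2.2 hy.2.2.2.2.2) hw.2.2.2.2.2)⟩ ).elim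
  · exact (P1_ABB_S1_M13_M13 n1 n2 n3 A1 A2 A3 B1 B2 B3 hb hp ⟨hy.1, hw.1⟩ ⟨hs_wyz.1.trans (add_le_add (add_le_add hw.2.1 hy.2.1) hz.2.1), hs_wyz.2.1.trans (add_le_add (add_le_add hw.2.2.1 hy.2.2.1) hz.2.2.1), hs_wyz.2.1.trans (add_le_add (add_le_add hw.2.2.1 hy.2.2.1) hz.2.2.2.1), hs_wyz.2.1.trans (add_le_add (add_le_add hw.2.2.1 hy.2.2.2.1) hz.2.2.1), hs_wyz.2.1.trans (add_le_add (add_le_add hw.2.2.1 hy.2.2.2.1) hz.2.2.2.1), hs_wyz.2.2.trans (add_le_add (add_le_add hw.2.2.2 hy.2.2.2.2.1) hz.2.2.2.2.1), hs_wyz.2.2.trans (add_le_add (add_le_add hw.2.2.2 hy.2.2.2.2.1) hz.2.2.2.2.2), hs_wyz.2.2.trans (add_le_add (add_le_add hw.2.2.2 hy.2.2.2.2.2) hz.2.2.2.2.1), hs_wyz.2.2.trans (add_le_add (add_le_add hw.2.2.2 hy.2.2.2.2.2) hz.2.2.2.2.2)⟩ m_BB_S1_M13 m_AB_M13_M13).elim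
  · exact (P1_ABB_S2_M13_M13 n1 n2 n3 A1 A2 A3 B1 B2 B3 hb hp ⟨hy.1, hw.1⟩ ⟨hs_wyz.1.trans (add_le_add (add_le_add hw.2.1 hy.2.1) hz.2.1), hs_wyz.1.trans (add_le_add (add_le_add hw.2.2.1 hy.2.1) hz.2.1), hs_wyz.2.1.trans (add_le_add (add_le_add hw.2.2.2.1 hy.2.2.1) hz.2.2.1), hs_wyz.2.1.trans (add_le_add (add_le_add hw.2.2.2.1 hy.2.2.1) hz.2.2.2.1), hs_wyz.2.1.trans (add_le_add (add_le_add hw.2.2.2.1 hy.2.2.2.1) hz.2.2.1), hs_wyz.2.1.trans (add_le_add (add_le_add hw.2.2.2.1 hy.2.2.2.1) hz.2.2.2.1), hs_wyz.2.2.trans (add_le_add (add_le_add hw.2.2.2.2 hy.2.2.2.2.1) hz.2.2.2.2.1), hs_wyz.2.2.trans (add_le_add (add_le_add hw.2.2.2.2 hy.2.2.2.2.1) hz.2.2.2.2.2), hs_wyz.2.2.trans (add_le_add (add_le_add hw.2.2.2.2 hy.2.2.2.2.2) hz.2.2.2.2.1), hs_wyz.2.2.trans (add_le_add (add_le_add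 hw.2.2.2.2 hy.2.2.2.2.2) hz.2.2.2.2.2)⟩ m_AB_M13_M23 m_BB_S2_M13).elim
  · exact (P1_ABB_S3_M13_M13 n1 n2 n3 A1 A2 A3 B1 B2 B3 hb hp ⟨hy.1, hw.1⟩ ⟨hs_wyz.1.trans (add_le_add (add_le_add hw.2.1 hy.2.1) hz.2.1), hs_wyz.1.trans (add_le_add (add_le_add hw.2.2.1 hy.2.1) hz.2.1), hs_wyz.2.1.trans (add_le_add (add_le_add hw.2.2.2.1 hy.2.2.1) hz.2.2.1), hs_wyz.2.1.trans (add_le_add (add_le_add hw.2.2.2.1 hy.2.2.1) hz.2.2.2.1), hs_wyz.2.1.trans (add_le_add (add_le_add hw.2.2.2.1 hy.2.2.2.1) hz.2.2.1), hs_wyz.2.1.trans (add_le_add (add_le_add hw.2.2.2.1 hy.2.2.2.1) hz.2.2.2.1), hs_wyz.2.1.trans (add_le_add (add_le_add hw.2.2.2.2.1 hy.2.2.1) hz.2.2.1), hs_wyz.2.1.trans (add_le_add (add_le_add hw.2.2.2.2.1 hy.2.2.1) hz.2.2.2.1), hs_wyz.2.1.trans (add_le_add (add_le_add hw.2.2.2.2.1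 hy.2.2.2.1) hz.2.2.1), hs_wyz.2.1.trans (add_le_add (add_le_add hw.2.2.2.2.1 hy.2.2.2.1) hz.2.2.2.1), hs_wyz.2.2.trans (add_le_add (add_le_add hw.2.2.2.2.2 hy.2.2.2.2.1) hz.2.2.2.2.1), hs_wyz.2.2.trans (add_le_add (add_le_add hw.2.2.2.2.2 hy.2.2.2.2.1) hz.2.2.2.2.2), hs_wyz.2.2.trans (add_le_add (add_le_add hw.2.2.2.2.2 hy.2.2.2.2.2) hz.2.2.2.2.1), hs_wyz.2.2.trans (add_le_add (add_le_add hw.2.2.2.2.2 hy.2.2.2.2.2) hz.2.2.2.2.2)⟩ ).elim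
  · exact (P1_ABB_M13_M13_M13 n1 n2 n3 A1 A2 A3 B1 B2 B3 hb hp hy.1 ⟨hs.1.trans (add_le_add (add_le_add hy.2.1 hz.2.1) hw.2.1), hs.2.1.trans (add_le_add (add_le_add hy.2.2.1 hz.2.2.1) hw.2.2.1), hs.2.1.trans (add_le_add (add_le_add hy.2.2.1 hz.2.2.1) hw.2.2.2.1), hs.2.1.trans (add_le_add (add_le_add hy.2.2.1 hz.2.2.2.1) hw.2.2.1), hs.2.1.trans (add_le_add (add_le_add hy.2.2.1 hz.2.2.2.1) hw.2.2.2.1), hs.2.1.trans (add_le_add (add_le_add hy.2.2.2.1 hz.2.2.1) hw.2.2.1), hs.2.1.trans (add_le_add (add_le_add hy.2.2.2.1 hz.2.2.1) hw.2.2.2.1), hs.2.1.trans (add_le_add (add_le_add hy.2.2.2.1 hz.2.2.2.1) hw.2.2.1), hs.2.1.trans (add_le_add (add_le_add hy.2.2.2.1 hz.2.2.2.1) hw.2.2.2.1), hs.2.2.trans (add_le_add (add_le_add hy.2.2.2.2.1 hz.2.2.2.2.1) hw.2.2.2.2.1), hs.2.2.trans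 (add_le_add (add_le_add hy.2.2.2.2.1 hz.2.2.2.2.1) hw.2.2.2.2.2), hs.2.2.trans (add_le_add (add_le_add hy.2.2.2.2.1 hz.2.2.2.2.2) hw.2.2.2.2.1), hs.2.2.trans (add_le_add (add_le_add hy.2.2.2.2.1 hz.2.2.2.2.2) hw.2.2.2.2.2), hs.2.2.trans (add_le_add (add_le_add hy.2.2.2.2.2 hz.2.2.2.2.1) hw.2.2.2.2.1), hs.2.2.trans (add_le_add (add_le_add hy.2.2.2.2.2 hz.2.2.2.2.1) hw.2.2.2.2.2), hs.2.2.trans (add_le_add (add_le_add hy.2.2.2.2.2 hz.2.2.2.2.2) hw.2.2.2.2.1), hs.2.2.trans (add_le_add (add_le_add hy.2.2.2.2.2 hz.2.2.2.2.2) hw.2.2.2.2.2)⟩ m_AB_M13_M13).elim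
  · exact (P1_ABB_M13_M13_M23 n1 n2 n3 A1 A2 A3 B1 B2 B3 hb hp ⟨hy.1, hw.1⟩ ⟨hs.1.trans (add_le_add (add_le_add hy.2.1 hz.2.1) hw.2.1), hs.1.trans (add_le_add (add_le_add hy.2.1 hz.2.1) hw.2.2.1), hs.2.1.trans (add_le_add (add_le_add hy.2.2.1 hz.2.2.1) hw.2.2.2.1), hs.2.1.trans (add_le_add (add_le_add hy.2.2.1 hz.2.2.2.1) hw.2.2.2.1), hs.2.1.trans (add_le_add (add_le_add hy.2.2.2.1 hz.2.2.1) hw.2.2.2.1), hs.2.1.trans (add_le_add (add_le_add hy.2.2.2.1 hz.2.2.2.1) hw.2.2.2.1), hs.2.2.trans (add_le_add (add_le_add hy.2.2.2.2.1 hz.2.2.2.2.1) hw.2.2.2.2.1), hs.2.2.trans (add_le_add (add_le_add hy.2.2.2.2.1 hz.2.2.2.2.1) hw.2.2.2.2.2), hs.2.2.trans (add_le_add (add_le_add hy.2.2.2.2.1 hz.2.2.2.2.2) hw.2.2.2.2.1), hs.2.2.trans (add_le_add (add_le_add hy.2.2.2.2.1 hz.2.2.2.2.2)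 hw.2.2.2.2.2), hs.2.2.trans (add_le_add (add_le_add hy.2.2.2.2.2 hz.2.2.2.2.1) hw.2.2.2.2.1), hs.2.2.trans (add_le_add (add_le_add hy.2.2.2.2.2 hz.2.2.2.2.1) hw.2.2.2.2.2), hs.2.2.trans (add_le_add (add_le_add hy.2.2.2.2.2 hz.2.2.2.2.2) hw.2.2.2.2.1), hs.2.2.trans (add_le_add (add_le_add hy.2.2.2.2.2 hz.2.2.2.2.2) hw.2.2.2.2.2)⟩ m_AB_M13_M23).elim
  · exact (P1_ABB_S1_M13_M23 n1 n2 n3 A1 A2 A3 B1 B2 B3 hb hp ⟨hy.1, hz.1, hw.1⟩ ⟨hs_wyz.1.trans (add_le_add (add_le_add hw.2.1 hy.2.1) hz.2.1), hs_wyz.1.trans (add_le_add (add_le_add hw.2.1 hy.2.1) hz.2.2.1), hs_wyz.2.1.trans (add_le_add (add_le_add hw.2.2.1 hy.2.2.1) hz.2.2.2.1), hs_wyz.2.1.trans (add_le_add (add_le_add hw.2.2.1 hy.2.2.2.1) hz.2.2.2.1), hs_wyz.2.2.trans (add_le_add (add_le_add hw.2.2.2 hy.2.2.2.2.1) hz.2.2.2.2.1),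 hs_wyz.2.2.trans (add_le_add (add_le_add hw.2.2.2 hy.2.2.2.2.1) hz.2.2.2.2.2), hs_wyz.2.2.trans (add_le_add (add_le_add hw.2.2.2 hy.2.2.2.2.2) hz.2.2.2.2.1), hs_wyz.2.2.trans (add_le_add (add_le_add hw.2.2.2 hy.2.2.2.2.2) hz.2.2.2.2.2)⟩ m_AB_M13_M23 m_BB_S1_M23 m_AB_S2_M13).elim
  · exact (P1_ABB_S2_M13_M23 n1 n2 n3 A1 A2 A3 B1 B2 B3 hb hp ⟨hy.1, hz.1, hw.1⟩ ⟨hs_wyz.1.trans (add_le_add (add_le_add hw.2.1 hy.2.1) hz.2.1), hs_wyz.1.trans (add_le_add (add_le_add hw.2.1 hy.2.1) hz.2.2.1), hs_wyz.1.trans (add_le_add (add_le_add hw.2.2.1 hy.2.1) hz.2.1), hs_wyz.1.trans (add_le_add (add_le_add hw.2.2.1 hy.2.1) hz.2.2.1), hs_wyz.2.1.trans (add_le_add (add_le_add hw.2.2.2.1 hy.2.2.1) hz.2.2.2.1), hs_wyz.2.1.trans (add_le_add (add_le_add hw.2.2.2.1 hy.2.2.2.1) hz.2.2.2.1), hs_wyz.2.2.trans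 (add_le_add (add_le_add hw.2.2.2.2 hy.2.2.2.2.1) hz.2.2.2.2.1), hs_wyz.2.2.trans (add_le_add (add_le_add hw.2.2.2.2 hy.2.2.2.2.1) hz.2.2.2.2.2), hs_wyz.2.2.trans (add_le_add (add_le_add hw.2.2.2.2 hy.2.2.2.2.2) hz.2.2.2.2.1), hs_wyz.2.2.trans (add_le_add (add_le_add hw.2.2.2.2 hy.2.2.2.2.2) hz.2.2.2.2.2)⟩ m_AB_M13_M23 m_BB_S2_M13 m_AB_S1_S3).elim
  · exact (P1_ABB_S3_M13_M23 n1 n2 n3 A1 A2 A3 B1 B2 B3 hb hp ⟨hy.1, hz.1, hw.1⟩ ⟨hs_wyz.1.trans (add_le_add (add_le_add hw.2.1 hy.2.1) hz.2.1), hs_wyz.1.trans (add_le_add (add_le_add hw.2.1 hy.2.1) hz.2.2.1), hs_wyz.1.trans (add_le_add (add_le_add hw.2.2.1 hy.2.1) hz.2.1), hs_wyz.1.trans (add_le_add (add_le_add hw.2.2.1 hy.2.1) hz.2.2.1), hs_wyz.2.1.trans (add_le_add (add_le_add hw.2.2.2.1 hy.2.2.1) hz.2.2.2.1), hs_wyz.2.1.trans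 (add_le_add (add_le_add hw.2.2.2.1 hy.2.2.2.1) hz.2.2.2.1), hs_wyz.2.1.trans (add_le_add (add_le_add hw.2.2.2.2.1 hy.2.2.1) hz.2.2.2.1), hs_wyz.2.1.trans (add_le_add (add_le_add hw.2.2.2.2.1 hy.2.2.2.1) hz.2.2.2.1), hs_wyz.2.2.trans (add_le_add (add_le_add hw.2.2.2.2.2 hy.2.2.2.2.1) hz.2.2.2.2.1), hs_wyz.2.2.trans (add_le_add (add_le_add hw.2.2.2.2.2 hy.2.2.2.2.1) hz.2.2.2.2.2), hs_wyz.2.2.trans (add_le_add (add_le_add hw.2.2.2.2.2 hy.2.2.2.2.2) hz.2.2.2.2.1), hs_wyz.2.2.trans (add_le_add (add_le_add hw.2.2.2.2.2 hy.2.2.2.2.2) hz.2.2.2.2.2)⟩ ).elim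
  · exact (P1_ABB_M13_M13_M23 n1 n2 n3 A1 A2 A3 B1 B2 B3 hb hp ⟨hy.1, hz.1⟩ ⟨hs_ywz.1.trans (add_le_add (add_le_add hy.2.1 hw.2.1) hz.2.1), hs_ywz.1.trans (add_le_add (add_le_add hy.2.1 hw.2.1) hz.2.2.1), hs_ywz.2.1.trans (add_le_add (add_le_add hy.2.2.1 hw.2.2.1) hz.2.2.2.1), hs_ywz.2.1.trans (add_le_add (add_le_add hy.2.2.1 hw.2.2.2.1) hz.2.2.2.1), hs_ywz.2.1.trans (add_le_add (add_le_add hy.2.2.2.1 hw.2.2.1) hz.2.2.2.1), hs_ywz.2.1.trans (add_le_add (add_le_add hy.2.2.2.1 hw.2.2.2.1) hz.2.2.2.1), hs_ywz.2.2.trans (add_le_add (add_le_add hy.2.2.2.2.1 hw.2.2.2.2.1) hz.2.2.2.2.1), hs_ywz.2.2.trans (add_le_add (add_le_add hy.2.2.2.2.1 hw.2.2.2.2.1) hz.2.2.2.2.2), hs_ywz.2.2.trans (add_le_add (add_le_add hy.2.2.2.2.1 hw.2.2.2.2.2) hz.2.2.2.2.1), hs_ywz.2.2.trans (add_le_add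 (add_le_add hy.2.2.2.2.1 hw.2.2.2.2.2) hz.2.2.2.2.2), hs_ywz.2.2.trans (add_le_add (add_le_add hy.2.2.2.2.2 hw.2.2.2.2.1) hz.2.2.2.2.1), hs_ywz.2.2.trans (add_le_add (add_le_add hy.2.2.2.2.2 hw.2.2.2.2.1) hz.2.2.2.2.2), hs_ywz.2.2.trans (add_le_add (add_le_add hy.2.2.2.2.2 hw.2.2.2.2.2) hz.2.2.2.2.1), hs_ywz.2.2.trans (add_le_add (add_le_add hy.2.2.2.2.2 hw.2.2.2.2.2) hz.2.2.2.2.2)⟩ m_AB_M13_M23).elim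
  · exact (P1_ABB_M13_M23_M23 n1 n2 n3 A1 A2 A3 B1 B2 B3 hb hp ⟨hy.1, hz.1⟩ ⟨hs.1.trans (add_le_add (add_le_add hy.2.1 hz.2.1) hw.2.1), hs.1.trans (add_le_add (add_le_add hy.2.1 hz.2.1) hw.2.2.1), hs.1.trans (add_le_add (add_le_add hy.2.1 hz.2.2.1) hw.2.1), hs.1.trans (add_le_add (add_le_add hy.2.1 hz.2.2.1) hw.2.2.1), hs.2.1.trans (add_le_add (add_le_add hy.2.2.1 hz.2.2.2.1) hw.2.2.2.1), hs.2.1.trans (add_le_add (add_le_add hy.2.2.2.1 hz.2.2.2.1) hw.2.2.2.1), hs.2.2.trans (add_le_add (add_le_add hy.2.2.2.2.1 hz.2.2.2.2.1) hw.2.2.2.2.1), hs.2.2.trans (add_le_add (add_le_add hy.2.2.2.2.1 hz.2.2.2.2.1) hw.2.2.2.2.2), hs.2.2.trans (add_le_add (add_le_add hy.2.2.2.2.1 hz.2.2.2.2.2) hw.2.2.2.2.1), hs.2.2.trans (add_le_add (add_le_add hy.2.2.2.2.1 hz.2.2.2.2.2) hw.2.2.2.2.2),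 hs.2.2.trans (add_le_add (add_le_add hy.2.2.2.2.2 hz.2.2.2.2.1) hw.2.2.2.2.1), hs.2.2.trans (add_le_add (add_le_add hy.2.2.2.2.2 hz.2.2.2.2.1) hw.2.2.2.2.2), hs.2.2.trans (add_le_add (add_le_add hy.2.2.2.2.2 hz.2.2.2.2.2) hw.2.2.2.2.1), hs.2.2.trans (add_le_add (add_le_add hy.2.2.2.2.2 hz.2.2.2.2.2) hw.2.2.2.2.2)⟩ m_AB_M13_M23).elim
  · exact (P1_ABB_S1_S1_M23 n1 n2 n3 A1 A2 A3 B1 B2 B3 hb hp ⟨hy.1, hz.1⟩ ⟨hs_zwy.1.trans (add_le_add (add_le_add hz.2.1 hw.2.1) hy.2.1), hs_zwy.1.trans (add_le_add (add_le_add hz.2.1 hw.2.1) hy.2.2.1), hs_zwy.2.1.trans (add_le_add (add_le_add hz.2.2.1 hw.2.2.1) hy.2.2.2.1), hs_zwy.2.2.trans (add_le_add (add_le_add hz.2.2.2 hw.2.2.2) hy.2.2.2.2.1), hs_zwy.2.2.trans (add_le_add (add_le_add hz.2.2.2 hw.2.2.2) hy.2.2.2.2.2)⟩ m_AB_S1_S3).elim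
  · exact (P1_ABB_S1_S2_M23 n1 n2 n3 A1 A2 A3 B1 B2 B3 hb hp ⟨hy.1, hz.1, hw.1⟩ ⟨hs_zwy.1.trans (add_le_add (add_le_add hz.2.1 hw.2.1) hy.2.1), hs_zwy.1.trans (add_le_add (add_le_add hz.2.1 hw.2.1) hy.2.2.1), hs_zwy.1.trans (add_le_add (add_le_add hz.2.1 hw.2.2.1) hy.2.1), hs_zwy.1.trans (add_le_add (add_le_add hz.2.1 hw.2.2.1) hy.2.2.1), hs_zwy.2.1.trans (add_le_add (add_le_add hz.2.2.1 hw.2.2.2.1) hy.2.2.2.1), hs_zwy.2.2.trans (add_le_add (add_le_add hz.2.2.2 hw.2.2.2.2) hy.2.2.2.2.1), hs_zwy.2.2.trans (add_le_add (add_le_add hz.2.2.2 hw.2.2.2.2) hy.2.2.2.2.2)⟩ m_BB_S1_M23).elim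
  · exact (P1_ABB_S1_S3_M23 n1 n2 n3 A1 A2 A3 B1 B2 B3 hb hp ⟨hy.1, hw.1, hz.1⟩ ⟨hs_zwy.1.trans (add_le_add (add_le_add hz.2.1 hw.2.1) hy.2.1), hs_zwy.1.trans (add_le_add (add_le_add hz.2.1 hw.2.1) hy.2.2.1), hs_zwy.1.trans (add_le_add (add_le_add hz.2.1 hw.2.2.1) hy.2.1), hs_zwy.1.trans (add_le_add (add_le_add hz.2.1 hw.2.2.1) hy.2.2.1), hs_zwy.2.1.trans (add_le_add (add_le_add hz.2.2.1 hw.2.2.2.1) hy.2.2.2.1), hs_zwy.2.1.trans (add_le_add (add_le_add hz.2.2.1 hw.2.2.2.2.1) hy.2.2.2.1), hs_zwy.2.2.trans (add_le_add (add_le_add hz.2.2.2 hw.2.2.2.2.2) hy.2.2.2.2.1), hs_zwy.2.2.trans (add_le_add (add_le_add hz.2.2.2 hw.2.2.2.2.2) hy.2.2.2.2.2)⟩ m_AB_S1_S3 m_AB_M13_M23 m_BB_S1_S3).elim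
  · exact (P1_ABB_S1_M13_M23 n1 n2 n3 A1 A2 A3 B1 B2 B3 hb hp ⟨hw.1, hy.1, hz.1⟩ ⟨hs_zwy.1.trans (add_le_add (add_le_add hz.2.1 hw.2.1) hy.2.1), hs_zwy.1.trans (add_le_add (add_le_add hz.2.1 hw.2.1) hy.2.2.1), hs_zwy.2.1.trans (add_le_add (add_le_add hz.2.2.1 hw.2.2.1) hy.2.2.2.1), hs_zwy.2.1.trans (add_le_add (add_le_add hz.2.2.1 hw.2.2.2.1) hy.2.2.2.1), hs_zwy.2.2.trans (add_le_add (add_le_add hz.2.2.2 hw.2.2.2.2.1) hy.2.2.2.2.1), hs_zwy.2.2.trans (add_le_add (add_le_add hz.2.2.2 hw.2.2.2.2.1) hy.2.2.2.2.2), hs_zwy.2.2.trans (add_le_add (add_le_add hz.2.2.2 hw.2.2.2.2.2) hy.2.2.2.2.1), hs_zwy.2.2.trans (add_le_add (add_le_add hz.2.2.2 hw.2.2.2.2.2) hy.2.2.2.2.2)⟩ m_AB_M13_M23 m_BB_S1_M23 m_AB_S2_M13).elim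
  · exact (P1_ABB_S1_M23_M23 n1 n2 n3 A1 A2 A3 B1 B2 B3 hb hp ⟨hy.1, hz.1⟩ ⟨hs_zyw.1.trans (add_le_add (add_le_add hz.2.1 hy.2.1) hw.2.1), hs_zyw.1.trans (add_le_add (add_le_add hz.2.1 hy.2.1) hw.2.2.1), hs_zyw.1.trans (add_le_add (add_le_add hz.2.1 hy.2.2.1) hw.2.1), hs_zyw.1.trans (add_le_add (add_le_add hz.2.1 hy.2.2.1) hw.2.2.1), hs_zyw.2.1.trans (add_le_add (add_le_add hz.2.2.1 hy.2.2.2.1) hw.2.2.2.1), hs_zyw.2.2.trans (add_le_add (add_le_add hz.2.2.2 hy.2.2.2.2.1) hw.2.2.2.2.1), hs_zyw.2.2.trans (add_le_add (add_le_add hz.2.2.2 hy.2.2.2.2.1) hw.2.2.2.2.2), hs_zyw.2.2.trans (add_le_add (add_le_add hz.2.2.2 hy.2.2.2.2.2) hw.2.2.2.2.1), hs_zyw.2.2.trans (add_le_add (add_le_add hz.2.2.2 hy.2.2.2.2.2) hw.2.2.2.2.2)⟩ m_BB_S1_M23 m_AB_M13_M23).elim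
  · exact (P1_ABB_S1_S2_M23 n1 n2 n3 A1 A2 A3 B1 B2 B3 hb hp ⟨hy.1, hw.1, hz.1⟩ ⟨hs_wzy.1.trans (add_le_add (add_le_add hw.2.1 hz.2.1) hy.2.1), hs_wzy.1.trans (add_le_add (add_le_add hw.2.1 hz.2.1) hy.2.2.1), hs_wzy.1.trans (add_le_add (add_le_add hw.2.1 hz.2.2.1) hy.2.1), hs_wzy.1.trans (add_le_add (add_le_add hw.2.1 hz.2.2.1) hy.2.2.1), hs_wzy.2.1.trans (add_le_add (add_le_add hw.2.2.1 hz.2.2.2.1) hy.2.2.2.1), hs_wzy.2.2.trans (add_le_add (add_le_add hw.2.2.2 hz.2.2.2.2) hy.2.2.2.2.1), hs_wzy.2.2.trans (add_le_add (add_le_add hw.2.2.2 hz.2.2.2.2) hy.2.2.2.2.2)⟩ m_BB_S1_M23).elim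
  · exact (P1_ABB_S2_S2_M23 n1 n2 n3 A1 A2 A3 B1 B2 B3 hb hp ⟨hy.1, hz.1⟩ ⟨hs_zwy.1.trans (add_le_add (add_le_add hz.2.1 hw.2.1) hy.2.1), hs_zwy.1.trans (add_le_add (add_le_add hz.2.1 hw.2.1) hy.2.2.1), hs_zwy.1.trans (add_le_add (add_le_add hz.2.1 hw.2.2.1) hy.2.1), hs_zwy.1.trans (add_le_add (add_le_add hz.2.1 hw.2.2.1) hy.2.2.1), hs_zwy.1.trans (add_le_add (add_le_add hz.2.2.1 hw.2.1) hy.2.1), hs_zwy.1.trans (add_le_add (add_le_add hz.2.2.1 hw.2.1) hy.2.2.1), hs_zwy.1.trans (add_le_add (add_le_add hz.2.2.1 hw.2.2.1) hy.2.1), hs_zwy.1.trans (add_le_add (add_le_add hz.2.2.1 hw.2.2.1) hy.2.2.1), hs_zwy.2.1.trans (add_le_add (add_le_add hz.2.2.2.1 hw.2.2.2.1) hy.2.2.2.1), hs_zwy.2.2.trans (add_le_add (add_le_add hz.2.2.2.2 hw.2.2.2.2) hy.2.2.2.2.1), hs_zwy.2.2.trans (add_le_add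 (add_le_add hz.2.2.2.2 hw.2.2.2.2) hy.2.2.2.2.2)⟩ ).elim
  · exact (P1_ABB_S2_S3_M23 n1 n2 n3 A1 A2 A3 B1 B2 B3 hb hp ⟨hy.1, hw.1, hz.1⟩ ⟨hs_zwy.1.trans (add_le_add (add_le_add hz.2.1 hw.2.1) hy.2.1), hs_zwy.1.trans (add_le_add (add_le_add hz.2.1 hw.2.1) hy.2.2.1), hs_zwy.1.trans (add_le_add (add_le_add hz.2.1 hw.2.2.1) hy.2.1), hs_zwy.1.trans (add_le_add (add_le_add hz.2.1 hw.2.2.1) hy.2.2.1), hs_zwy.1.trans (add_le_add (add_le_add hz.2.2.1 hw.2.1) hy.2.1), hs_zwy.1.trans (add_le_add (add_le_add hz.2.2.1 hw.2.1) hy.2.2.1), hs_zwy.1.trans (add_le_add (add_le_add hz.2.2.1 hw.2.2.1) hy.2.1), hs_zwy.1.trans (add_le_add (add_le_add hz.2.2.1 hw.2.2.1) hy.2.2.1), hs_zwy.2.1.trans (add_le_add (add_le_add hz.2.2.2.1 hw.2.2.2.1) hy.2.2.2.1), hs_zwy.2.1.trans (add_le_add (add_le_add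 hz.2.2.2.1 hw.2.2.2.2.1) hy.2.2.2.1), hs_zwy.2.2.trans (add_le_add (add_le_add hz.2.2.2.2 hw.2.2.2.2.2) hy.2.2.2.2.1), hs_zwy.2.2.trans (add_le_add (add_le_add hz.2.2.2.2 hw.2.2.2.2.2) hy.2.2.2.2.2)⟩ m_AB_S2_S3 m_BB_S2_M23).elim
  · exact (P1_ABB_S2_M13_M23 n1 n2 n3 A1 A2 A3 B1 B2 B3 hb hp ⟨hw.1, hy.1, hz.1⟩ ⟨hs_zwy.1.trans (add_le_add (add_le_add hz.2.1 hw.2.1) hy.2.1), hs_zwy.1.trans (add_le_add (add_le_add hz.2.1 hw.2.1) hy.2.2.1), hs_zwy.1.trans (add_le_add (add_le_add hz.2.2.1 hw.2.1) hy.2.1), hs_zwy.1.trans (add_le_add (add_le_add hz.2.2.1 hw.2.1) hy.2.2.1), hs_zwy.2.1.trans (add_le_add (add_le_add hz.2.2.2.1 hw.2.2.1) hy.2.2.2.1), hs_zwy.2.1.trans (add_le_add (add_le_add hz.2.2.2.1 hw.2.2.2.1) hy.2.2.2.1), hs_zwy.2.2.trans (add_le_add (add_le_add hz.2.2.2.2 hw.2.2.2.2.1)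 hy.2.2.2.2.1), hs_zwy.2.2.trans (add_le_add (add_le_add hz.2.2.2.2 hw.2.2.2.2.1) hy.2.2.2.2.2), hs_zwy.2.2.trans (add_le_add (add_le_add hz.2.2.2.2 hw.2.2.2.2.2) hy.2.2.2.2.1), hs_zwy.2.2.trans (add_le_add (add_le_add hz.2.2.2.2 hw.2.2.2.2.2) hy.2.2.2.2.2)⟩ m_AB_M13_M23 m_BB_S2_M13 m_AB_S1_S3).elim
  · exact (P1_ABB_S2_M23_M23 n1 n2 n3 A1 A2 A3 B1 B2 B3 hb hp ⟨hy.1, hz.1⟩ ⟨hs_zyw.1.trans (add_le_add (add_le_add hz.2.1 hy.2.1) hw.2.1), hs_zyw.1.trans (add_le_add (add_le_add hz.2.1 hy.2.1) hw.2.2.1), hs_zyw.1.trans (add_le_add (add_le_add hz.2.1 hy.2.2.1) hw.2.1), hs_zyw.1.trans (add_le_add (add_le_add hz.2.1 hy.2.2.1) hw.2.2.1), hs_zyw.1.trans (add_le_add (add_le_add hz.2.2.1 hy.2.1) hw.2.1), hs_zyw.1.trans (add_le_add (add_le_add hz.2.2.1 hy.2.1) hw.2.2.1), hs_zyw.1.trans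 (add_le_add (add_le_add hz.2.2.1 hy.2.2.1) hw.2.1), hs_zyw.1.trans (add_le_add (add_le_add hz.2.2.1 hy.2.2.1) hw.2.2.1), hs_zyw.2.1.trans (add_le_add (add_le_add hz.2.2.2.1 hy.2.2.2.1) hw.2.2.2.1), hs_zyw.2.2.trans (add_le_add (add_le_add hz.2.2.2.2 hy.2.2.2.2.1) hw.2.2.2.2.1), hs_zyw.2.2.trans (add_le_add (add_le_add hz.2.2.2.2 hy.2.2.2.2.1) hw.2.2.2.2.2), hs_zyw.2.2.trans (add_le_add (add_le_add hz.2.2.2.2 hy.2.2.2.2.2) hw.2.2.2.2.1), hs_zyw.2.2.trans (add_le_add (add_le_add hz.2.2.2.2 hy.2.2.2.2.2) hw.2.2.2.2.2)⟩ m_AB_M23_M23 m_BB_S2_M23).elim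
  · exact (P1_ABB_S1_S3_M23 n1 n2 n3 A1 A2 A3 B1 B2 B3 hb hp ⟨hy.1, hz.1, hw.1⟩ ⟨hs_wzy.1.trans (add_le_add (add_le_add hw.2.1 hz.2.1) hy.2.1), hs_wzy.1.trans (add_le_add (add_le_add hw.2.1 hz.2.1) hy.2.2.1), hs_wzy.1.trans (add_le_add (add_le_add hw.2.1 hz.2.2.1) hy.2.1), hs_wzy.1.trans (add_le_add (add_le_add hw.2.1 hz.2.2.1) hy.2.2.1), hs_wzy.2.1.trans (add_le_add (add_le_add hw.2.2.1 hz.2.2.2.1) hy.2.2.2.1), hs_wzy.2.1.trans (add_le_add (add_le_add hw.2.2.1 hz.2.2.2.2.1) hy.2.2.2.1), hs_wzy.2.2.trans (add_le_add (add_le_add hw.2.2.2 hz.2.2.2.2.2) hy.2.2.2.2.1), hs_wzy.2.2.trans (add_le_add (add_le_add hw.2.2.2 hz.2.2.2.2.2) hy.2.2.2.2.2)⟩ m_AB_S1_S3 m_AB_M13_M23 m_BB_S1_S3).elim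
  · exact (P1_ABB_S2_S3_M23 n1 n2 n3 A1 A2 A3 B1 B2 B3 hb hp ⟨hy.1, hz.1, hw.1⟩ ⟨hs_wzy.1.trans (add_le_add (add_le_add hw.2.1 hz.2.1) hy.2.1), hs_wzy.1.trans (add_le_add (add_le_add hw.2.1 hz.2.1) hy.2.2.1), hs_wzy.1.trans (add_le_add (add_le_add hw.2.1 hz.2.2.1) hy.2.1), hs_wzy.1.trans (add_le_add (add_le_add hw.2.1 hz.2.2.1) hy.2.2.1), hs_wzy.1.trans (add_le_add (add_le_add hw.2.2.1 hz.2.1) hy.2.1), hs_wzy.1.trans (add_le_add (add_le_add hw.2.2.1 hz.2.1) hy.2.2.1), hs_wzy.1.trans (add_le_add (add_le_add hw.2.2.1 hz.2.2.1) hy.2.1), hs_wzy.1.trans (add_le_add (add_le_add hw.2.2.1 hz.2.2.1) hy.2.2.1), hs_wzy.2.1.trans (add_le_add (add_le_add hw.2.2.2.1 hz.2.2.2.1) hy.2.2.2.1), hs_wzy.2.1.trans (add_le_add (add_le_add hw.2.2.2.1 hz.2.2.2.2.1) hy.2.2.2.1), hs_wzy.2.2.trans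 (add_le_add (add_le_add hw.2.2.2.2 hz.2.2.2.2.2) hy.2.2.2.2.1), hs_wzy.2.2.trans (add_le_add (add_le_add hw.2.2.2.2 hz.2.2.2.2.2) hy.2.2.2.2.2)⟩ m_AB_S2_S3 m_BB_S2_M23).elim
  · exact (P1_ABB_S3_S3_M23 n1 n2 n3 A1 A2 A3 B1 B2 B3 hb hp ⟨hy.1, hz.1⟩ ⟨hs_zwy.1.trans (add_le_add (add_le_add hz.2.1 hw.2.1) hy.2.1), hs_zwy.1.trans (add_le_add (add_le_add hz.2.1 hw.2.1) hy.2.2.1), hs_zwy.1.trans (add_le_add (add_le_add hz.2.1 hw.2.2.1) hy.2.1), hs_zwy.1.trans (add_le_add (add_le_add hz.2.1 hw.2.2.1) hy.2.2.1), hs_zwy.1.trans (add_le_add (add_le_add hz.2.2.1 hw.2.1) hy.2.1), hs_zwy.1.trans (add_le_add (add_le_add hz.2.2.1 hw.2.1) hy.2.2.1), hs_zwy.1.trans (add_le_add (add_le_add hz.2.2.1 hw.2.2.1) hy.2.1), hs_zwy.1.trans (add_le_add (add_le_add hz.2.2.1 hw.2.2.1) hy.2.2.1), hs_zwy.2.1.trans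 (add_le_add (add_le_add hz.2.2.2.1 hw.2.2.2.1) hy.2.2.2.1), hs_zwy.2.1.trans (add_le_add (add_le_add hz.2.2.2.1 hw.2.2.2.2.1) hy.2.2.2.1), hs_zwy.2.1.trans (add_le_add (add_le_add hz.2.2.2.2.1 hw.2.2.2.1) hy.2.2.2.1), hs_zwy.2.1.trans (add_le_add (add_le_add hz.2.2.2.2.1 hw.2.2.2.2.1) hy.2.2.2.1), hs_zwy.2.2.trans (add_le_add (add_le_add hz.2.2.2.2.2 hw.2.2.2.2.2) hy.2.2.2.2.1), hs_zwy.2.2.trans (add_le_add (add_le_add hz.2.2.2.2.2 hw.2.2.2.2.2) hy.2.2.2.2.2)⟩ ).elim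
  · exact (P1_ABB_S3_M13_M23 n1 n2 n3 A1 A2 A3 B1 B2 B3 hb hp ⟨hw.1, hy.1, hz.1⟩ ⟨hs_zwy.1.trans (add_le_add (add_le_add hz.2.1 hw.2.1) hy.2.1), hs_zwy.1.trans (add_le_add (add_le_add hz.2.1 hw.2.1) hy.2.2.1), hs_zwy.1.trans (add_le_add (add_le_add hz.2.2.1 hw.2.1) hy.2.1), hs_zwy.1.trans (add_le_add (add_le_add hz.2.2.1 hw.2.1) hy.2.2.1), hs_zwy.2.1.trans (add_le_add (add_le_add hz.2.2.2.1 hw.2.2.1) hy.2.2.2.1), hs_zwy.2.1.trans (add_le_add (add_le_add hz.2.2.2.1 hw.2.2.2.1) hy.2.2.2.1), hs_zwy.2.1.trans (add_le_add (add_le_add hz.2.2.2.2.1 hw.2.2.1) hy.2.2.2.1), hs_zwy.2.1.trans (add_le_add (add_le_add hz.2.2.2.2.1 hw.2.2.2.1) hy.2.2.2.1), hs_zwy.2.2.trans (add_le_add (add_le_add hz.2.2.2.2.2 hw.2.2.2.2.1) hy.2.2.2.2.1), hs_zwy.2.2.trans (add_le_add (add_le_add hz.2.2.2.2.2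 hw.2.2.2.2.1) hy.2.2.2.2.2), hs_zwy.2.2.trans (add_le_add (add_le_add hz.2.2.2.2.2 hw.2.2.2.2.2) hy.2.2.2.2.1), hs_zwy.2.2.trans (add_le_add (add_le_add hz.2.2.2.2.2 hw.2.2.2.2.2) hy.2.2.2.2.2)⟩ ).elim
  · exact (P1_ABB_S3_M23_M23 n1 n2 n3 A1 A2 A3 B1 B2 B3 hb hp ⟨hy.1, hz.1⟩ ⟨hs_zyw.1.trans (add_le_add (add_le_add hz.2.1 hy.2.1) hw.2.1), hs_zyw.1.trans (add_le_add (add_le_add hz.2.1 hy.2.1) hw.2.2.1), hs_zyw.1.trans (add_le_add (add_le_add hz.2.1 hy.2.2.1) hw.2.1), hs_zyw.1.trans (add_le_add (add_le_add hz.2.1 hy.2.2.1) hw.2.2.1), hs_zyw.1.trans (add_le_add (add_le_add hz.2.2.1 hy.2.1) hw.2.1), hs_zyw.1.trans (add_le_add (add_le_add hz.2.2.1 hy.2.1) hw.2.2.1), hs_zyw.1.trans (add_le_add (add_le_add hz.2.2.1 hy.2.2.1) hw.2.1), hs_zyw.1.trans (add_le_add (add_le_add hz.2.2.1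 hy.2.2.1) hw.2.2.1), hs_zyw.2.1.trans (add_le_add (add_le_add hz.2.2.2.1 hy.2.2.2.1) hw.2.2.2.1), hs_zyw.2.1.trans (add_le_add (add_le_add hz.2.2.2.2.1 hy.2.2.2.1) hw.2.2.2.1), hs_zyw.2.2.trans (add_le_add (add_le_add hz.2.2.2.2.2 hy.2.2.2.2.1) hw.2.2.2.2.1), hs_zyw.2.2.trans (add_le_add (add_le_add hz.2.2.2.2.2 hy.2.2.2.2.1) hw.2.2.2.2.2), hs_zyw.2.2.trans (add_le_add (add_le_add hz.2.2.2.2.2 hy.2.2.2.2.2) hw.2.2.2.2.1), hs_zyw.2.2.trans (add_le_add (add_le_add hz.2.2.2.2.2 hy.2.2.2.2.2) hw.2.2.2.2.2)⟩ ).elim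
  · exact (P1_ABB_S1_M13_M23 n1 n2 n3 A1 A2 A3 B1 B2 B3 hb hp ⟨hz.1, hy.1, hw.1⟩ ⟨hs_wzy.1.trans (add_le_add (add_le_add hw.2.1 hz.2.1) hy.2.1), hs_wzy.1.trans (add_le_add (add_le_add hw.2.1 hz.2.1) hy.2.2.1), hs_wzy.2.1.trans (add_le_add (add_le_add hw.2.2.1 hz.2.2.1) hy.2.2.2.1), hs_wzy.2.1.trans (add_le_add (add_le_add hw.2.2.1 hz.2.2.2.1) hy.2.2.2.1), hs_wzy.2.2.trans (add_le_add (add_le_add hw.2.2.2 hz.2.2.2.2.1) hy.2.2.2.2.1), hs_wzy.2.2.trans (add_le_add (add_le_add hw.2.2.2 hz.2.2.2.2.1) hy.2.2.2.2.2), hs_wzy.2.2.trans (add_le_add (add_le_add hw.2.2.2 hz.2.2.2.2.2) hy.2.2.2.2.1), hs_wzy.2.2.trans (add_le_add (add_le_add hw.2.2.2 hz.2.2.2.2.2) hy.2.2.2.2.2)⟩ m_AB_M13_M23 m_BB_S1_M23 m_AB_S2_M13).elim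
  · exact (P1_ABB_S2_M13_M23 n1 n2 n3 A1 A2 A3 B1 B2 B3 hb hp ⟨hz.1, hy.1, hw.1⟩ ⟨hs_wzy.1.trans (add_le_add (add_le_add hw.2.1 hz.2.1) hy.2.1), hs_wzy.1.trans (add_le_add (add_le_add hw.2.1 hz.2.1) hy.2.2.1), hs_wzy.1.trans (add_le_add (add_le_add hw.2.2.1 hz.2.1) hy.2.1), hs_wzy.1.trans (add_le_add (add_le_add hw.2.2.1 hz.2.1) hy.2.2.1), hs_wzy.2.1.trans (add_le_add (add_le_add hw.2.2.2.1 hz.2.2.1) hy.2.2.2.1), hs_wzy.2.1.trans (add_le_add (add_le_add hw.2.2.2.1 hz.2.2.2.1) hy.2.2.2.1), hs_wzy.2.2.trans (add_le_add (add_le_add hw.2.2.2.2 hz.2.2.2.2.1) hy.2.2.2.2.1), hs_wzy.2.2.trans (add_le_add (add_le_add hw.2.2.2.2 hz.2.2.2.2.1) hy.2.2.2.2.2), hs_wzy.2.2.trans (add_le_add (add_le_add hw.2.2.2.2 hz.2.2.2.2.2) hy.2.2.2.2.1), hs_wzy.2.2.trans (add_le_add (add_le_add hw.2.2.2.2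 hz.2.2.2.2.2) hy.2.2.2.2.2)⟩ m_AB_M13_M23 m_BB_S2_M13 m_AB_S1_S3).elim
  · exact (P1_ABB_S3_M13_M23 n1 n2 n3 A1 A2 A3 B1 B2 B3 hb hp ⟨hz.1, hy.1, hw.1⟩ ⟨hs_wzy.1.trans (add_le_add (add_le_add hw.2.1 hz.2.1) hy.2.1), hs_wzy.1.trans (add_le_add (add_le_add hw.2.1 hz.2.1) hy.2.2.1), hs_wzy.1.trans (add_le_add (add_le_add hw.2.2.1 hz.2.1) hy.2.1), hs_wzy.1.trans (add_le_add (add_le_add hw.2.2.1 hz.2.1) hy.2.2.1), hs_wzy.2.1.trans (add_le_add (add_le_add hw.2.2.2.1 hz.2.2.1) hy.2.2.2.1), hs_wzy.2.1.trans (add_le_add (add_le_add hw.2.2.2.1 hz.2.2.2.1) hy.2.2.2.1), hs_wzy.2.1.trans (add_le_add (add_le_add hw.2.2.2.2.1 hz.2.2.1) hy.2.2.2.1), hs_wzy.2.1.trans (add_le_add (add_le_add hw.2.2.2.2.1 hz.2.2.2.1) hy.2.2.2.1), hs_wzy.2.2.trans (add_le_add (add_le_add hw.2.2.2.2.2 hz.2.2.2.2.1)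 hy.2.2.2.2.1), hs_wzy.2.2.trans (add_le_add (add_le_add hw.2.2.2.2.2 hz.2.2.2.2.1) hy.2.2.2.2.2), hs_wzy.2.2.trans (add_le_add (add_le_add hw.2.2.2.2.2 hz.2.2.2.2.2) hy.2.2.2.2.1), hs_wzy.2.2.trans (add_le_add (add_le_add hw.2.2.2.2.2 hz.2.2.2.2.2) hy.2.2.2.2.2)⟩ ).elim
  · exact (P1_ABB_M13_M13_M23 n1 n2 n3 A1 A2 A3 B1 B2 B3 hb hp ⟨hz.1, hy.1⟩ ⟨hs_zwy.1.trans (add_le_add (add_le_add hz.2.1 hw.2.1) hy.2.1), hs_zwy.1.trans (add_le_add (add_le_add hz.2.1 hw.2.1) hy.2.2.1), hs_zwy.2.1.trans (add_le_add (add_le_add hz.2.2.1 hw.2.2.1) hy.2.2.2.1), hs_zwy.2.1.trans (add_le_add (add_le_add hz.2.2.1 hw.2.2.2.1) hy.2.2.2.1), hs_zwy.2.1.trans (add_le_add (add_le_add hz.2.2.2.1 hw.2.2.1) hy.2.2.2.1), hs_zwy.2.1.trans (add_le_add (add_le_add hz.2.2.2.1 hw.2.2.2.1) hy.2.2.2.1), hs_zwy.2.2.trans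 (add_le_add (add_le_add hz.2.2.2.2.1 hw.2.2.2.2.1) hy.2.2.2.2.1), hs_zwy.2.2.trans (add_le_add (add_le_add hz.2.2.2.2.1 hw.2.2.2.2.1) hy.2.2.2.2.2), hs_zwy.2.2.trans (add_le_add (add_le_add hz.2.2.2.2.1 hw.2.2.2.2.2) hy.2.2.2.2.1), hs_zwy.2.2.trans (add_le_add (add_le_add hz.2.2.2.2.1 hw.2.2.2.2.2) hy.2.2.2.2.2), hs_zwy.2.2.trans (add_le_add (add_le_add hz.2.2.2.2.2 hw.2.2.2.2.1) hy.2.2.2.2.1), hs_zwy.2.2.trans (add_le_add (add_le_add hz.2.2.2.2.2 hw.2.2.2.2.1) hy.2.2.2.2.2), hs_zwy.2.2.trans (add_le_add (add_le_add hz.2.2.2.2.2 hw.2.2.2.2.2) hy.2.2.2.2.1), hs_zwy.2.2.trans (add_le_add (add_le_add hz.2.2.2.2.2 hw.2.2.2.2.2) hy.2.2.2.2.2)⟩ m_AB_M13_M23).elim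
  · exact (P1_ABB_M13_M23_M23 n1 n2 n3 A1 A2 A3 B1 B2 B3 hb hp ⟨hz.1, hy.1⟩ ⟨hs_zyw.1.trans (add_le_add (add_le_add hz.2.1 hy.2.1) hw.2.1), hs_zyw.1.trans (add_le_add (add_le_add hz.2.1 hy.2.1) hw.2.2.1), hs_zyw.1.trans (add_le_add (add_le_add hz.2.1 hy.2.2.1) hw.2.1), hs_zyw.1.trans (add_le_add (add_le_add hz.2.1 hy.2.2.1) hw.2.2.1), hs_zyw.2.1.trans (add_le_add (add_le_add hz.2.2.1 hy.2.2.2.1) hw.2.2.2.1), hs_zyw.2.1.trans (add_le_add (add_le_add hz.2.2.2.1 hy.2.2.2.1) hw.2.2.2.1), hs_zyw.2.2.trans (add_le_add (add_le_add hz.2.2.2.2.1 hy.2.2.2.2.1) hw.2.2.2.2.1), hs_zyw.2.2.trans (add_le_add (add_le_add hz.2.2.2.2.1 hy.2.2.2.2.1) hw.2.2.2.2.2), hs_zyw.2.2.trans (add_le_add (add_le_add hz.2.2.2.2.1 hy.2.2.2.2.2) hw.2.2.2.2.1), hs_zyw.2.2.trans (add_le_add (add_le_add hz.2.2.2.2.1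 hy.2.2.2.2.2) hw.2.2.2.2.2), hs_zyw.2.2.trans (add_le_add (add_le_add hz.2.2.2.2.2 hy.2.2.2.2.1) hw.2.2.2.2.1), hs_zyw.2.2.trans (add_le_add (add_le_add hz.2.2.2.2.2 hy.2.2.2.2.1) hw.2.2.2.2.2), hs_zyw.2.2.trans (add_le_add (add_le_add hz.2.2.2.2.2 hy.2.2.2.2.2) hw.2.2.2.2.1), hs_zyw.2.2.trans (add_le_add (add_le_add hz.2.2.2.2.2 hy.2.2.2.2.2) hw.2.2.2.2.2)⟩ m_AB_M13_M23).elim
  · exact (P1_ABB_S1_M23_M23 n1 n2 n3 A1 A2 A3 B1 B2 B3 hb hp ⟨hy.1, hw.1⟩ ⟨hs_wyz.1.trans (add_le_add (add_le_add hw.2.1 hy.2.1) hz.2.1), hs_wyz.1.trans (add_le_add (add_le_add hw.2.1 hy.2.1) hz.2.2.1), hs_wyz.1.trans (add_le_add (add_le_add hw.2.1 hy.2.2.1) hz.2.1), hs_wyz.1.trans (add_le_add (add_le_add hw.2.1 hy.2.2.1) hz.2.2.1), hs_wyz.2.1.trans (add_le_add (add_le_add hw.2.2.1 hy.2.2.2.1) hz.2.2.2.1),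 hs_wyz.2.2.trans (add_le_add (add_le_add hw.2.2.2 hy.2.2.2.2.1) hz.2.2.2.2.1), hs_wyz.2.2.trans (add_le_add (add_le_add hw.2.2.2 hy.2.2.2.2.1) hz.2.2.2.2.2), hs_wyz.2.2.trans (add_le_add (add_le_add hw.2.2.2 hy.2.2.2.2.2) hz.2.2.2.2.1), hs_wyz.2.2.trans (add_le_add (add_le_add hw.2.2.2 hy.2.2.2.2.2) hz.2.2.2.2.2)⟩ m_BB_S1_M23 m_AB_M13_M23).elim
  · exact (P1_ABB_S2_M23_M23 n1 n2 n3 A1 A2 A3 B1 B2 B3 hb hp ⟨hy.1, hw.1⟩ ⟨hs_wyz.1.trans (add_le_add (add_le_add hw.2.1 hy.2.1) hz.2.1), hs_wyz.1.trans (add_le_add (add_le_add hw.2.1 hy.2.1) hz.2.2.1), hs_wyz.1.trans (add_le_add (add_le_add hw.2.1 hy.2.2.1) hz.2.1), hs_wyz.1.trans (add_le_add (add_le_add hw.2.1 hy.2.2.1) hz.2.2.1), hs_wyz.1.trans (add_le_add (add_le_add hw.2.2.1 hy.2.1) hz.2.1), hs_wyz.1.trans (add_le_add (add_le_add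 hw.2.2.1 hy.2.1) hz.2.2.1), hs_wyz.1.trans (add_le_add (add_le_add hw.2.2.1 hy.2.2.1) hz.2.1), hs_wyz.1.trans (add_le_add (add_le_add hw.2.2.1 hy.2.2.1) hz.2.2.1), hs_wyz.2.1.trans (add_le_add (add_le_add hw.2.2.2.1 hy.2.2.2.1) hz.2.2.2.1), hs_wyz.2.2.trans (add_le_add (add_le_add hw.2.2.2.2 hy.2.2.2.2.1) hz.2.2.2.2.1), hs_wyz.2.2.trans (add_le_add (add_le_add hw.2.2.2.2 hy.2.2.2.2.1) hz.2.2.2.2.2), hs_wyz.2.2.trans (add_le_add (add_le_add hw.2.2.2.2 hy.2.2.2.2.2) hz.2.2.2.2.1), hs_wyz.2.2.trans (add_le_add (add_le_add hw.2.2.2.2 hy.2.2.2.2.2) hz.2.2.2.2.2)⟩ m_AB_M23_M23 m_BB_S2_M23).elim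
  · exact (P1_ABB_S3_M23_M23 n1 n2 n3 A1 A2 A3 B1 B2 B3 hb hp ⟨hy.1, hw.1⟩ ⟨hs_wyz.1.trans (add_le_add (add_le_add hw.2.1 hy.2.1) hz.2.1), hs_wyz.1.trans (add_le_add (add_le_add hw.2.1 hy.2.1) hz.2.2.1), hs_wyz.1.trans (add_le_add (add_le_add hw.2.1 hy.2.2.1) hz.2.1), hs_wyz.1.trans (add_le_add (add_le_add hw.2.1 hy.2.2.1) hz.2.2.1), hs_wyz.1.trans (add_le_add (add_le_add hw.2.2.1 hy.2.1) hz.2.1), hs_wyz.1.trans (add_le_add (add_le_add hw.2.2.1 hy.2.1) hz.2.2.1), hs_wyz.1.trans (add_le_add (add_le_add hw.2.2.1 hy.2.2.1) hz.2.1), hs_wyz.1.trans (add_le_add (add_le_add hw.2.2.1 hy.2.2.1) hz.2.2.1), hs_wyz.2.1.trans (add_le_add (add_le_add hw.2.2.2.1 hy.2.2.2.1) hz.2.2.2.1), hs_wyz.2.1.trans (add_le_add (add_le_add hw.2.2.2.2.1 hy.2.2.2.1) hz.2.2.2.1), hs_wyz.2.2.trans (add_le_add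 (add_le_add hw.2.2.2.2.2 hy.2.2.2.2.1) hz.2.2.2.2.1), hs_wyz.2.2.trans (add_le_add (add_le_add hw.2.2.2.2.2 hy.2.2.2.2.1) hz.2.2.2.2.2), hs_wyz.2.2.trans (add_le_add (add_le_add hw.2.2.2.2.2 hy.2.2.2.2.2) hz.2.2.2.2.1), hs_wyz.2.2.trans (add_le_add (add_le_add hw.2.2.2.2.2 hy.2.2.2.2.2) hz.2.2.2.2.2)⟩ ).elim
  · exact (P1_ABB_M13_M23_M23 n1 n2 n3 A1 A2 A3 B1 B2 B3 hb hp ⟨hw.1, hy.1⟩ ⟨hs_wyz.1.trans (add_le_add (add_le_add hw.2.1 hy.2.1) hz.2.1), hs_wyz.1.trans (add_le_add (add_le_add hw.2.1 hy.2.1) hz.2.2.1), hs_wyz.1.trans (add_le_add (add_le_add hw.2.1 hy.2.2.1) hz.2.1), hs_wyz.1.trans (add_le_add (add_le_add hw.2.1 hy.2.2.1) hz.2.2.1), hs_wyz.2.1.trans (add_le_add (add_le_add hw.2.2.1 hy.2.2.2.1) hz.2.2.2.1), hs_wyz.2.1.trans (add_le_add (add_le_add hw.2.2.2.1 hy.2.2.2.1)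 hz.2.2.2.1), hs_wyz.2.2.trans (add_le_add (add_le_add hw.2.2.2.2.1 hy.2.2.2.2.1) hz.2.2.2.2.1), hs_wyz.2.2.trans (add_le_add (add_le_add hw.2.2.2.2.1 hy.2.2.2.2.1) hz.2.2.2.2.2), hs_wyz.2.2.trans (add_le_add (add_le_add hw.2.2.2.2.1 hy.2.2.2.2.2) hz.2.2.2.2.1), hs_wyz.2.2.trans (add_le_add (add_le_add hw.2.2.2.2.1 hy.2.2.2.2.2) hz.2.2.2.2.2), hs_wyz.2.2.trans (add_le_add (add_le_add hw.2.2.2.2.2 hy.2.2.2.2.1) hz.2.2.2.2.1), hs_wyz.2.2.trans (add_le_add (add_le_add hw.2.2.2.2.2 hy.2.2.2.2.1) hz.2.2.2.2.2), hs_wyz.2.2.trans (add_le_add (add_le_add hw.2.2.2.2.2 hy.2.2.2.2.2) hz.2.2.2.2.1), hs_wyz.2.2.trans (add_le_add (add_le_add hw.2.2.2.2.2 hy.2.2.2.2.2) hz.2.2.2.2.2)⟩ m_AB_M13_M23).elim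
  · exact (P1_ABB_M23_M23_M23 n1 n2 n3 A1 A2 A3 B1 B2 B3 hb hp hy.1 ⟨hs.1.trans (add_le_add (add_le_add hy.2.1 hz.2.1) hw.2.1), hs.1.trans (add_le_add (add_le_add hy.2.1 hz.2.1) hw.2.2.1), hs.1.trans (add_le_add (add_le_add hy.2.1 hz.2.2.1) hw.2.1), hs.1.trans (add_le_add (add_le_add hy.2.1 hz.2.2.1) hw.2.2.1), hs.1.trans (add_le_add (add_le_add hy.2.2.1 hz.2.1) hw.2.1), hs.1.trans (add_le_add (add_le_add hy.2.2.1 hz.2.1) hw.2.2.1), hs.1.trans (add_le_add (add_le_add hy.2.2.1 hz.2.2.1) hw.2.1), hs.1.trans (add_le_add (add_le_add hy.2.2.1 hz.2.2.1) hw.2.2.1), hs.2.1.trans (add_le_add (add_le_add hy.2.2.2.1 hz.2.2.2.1) hw.2.2.2.1), hs.2.2.trans (add_le_add (add_le_add hy.2.2.2.2.1 hz.2.2.2.2.1) hw.2.2.2.2.1), hs.2.2.trans (add_le_add (add_le_add hy.2.2.2.2.1 hz.2.2.2.2.1)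 hw.2.2.2.2.2), hs.2.2.trans (add_le_add (add_le_add hy.2.2.2.2.1 hz.2.2.2.2.2) hw.2.2.2.2.1), hs.2.2.trans (add_le_add (add_le_add hy.2.2.2.2.1 hz.2.2.2.2.2) hw.2.2.2.2.2), hs.2.2.trans (add_le_add (add_le_add hy.2.2.2.2.2 hz.2.2.2.2.1) hw.2.2.2.2.1), hs.2.2.trans (add_le_add (add_le_add hy.2.2.2.2.2 hz.2.2.2.2.1) hw.2.2.2.2.2), hs.2.2.trans (add_le_add (add_le_add hy.2.2.2.2.2 hz.2.2.2.2.2) hw.2.2.2.2.1), hs.2.2.trans (add_le_add (add_le_add hy.2.2.2.2.2 hz.2.2.2.2.2) hw.2.2.2.2.2)⟩ m_AB_M23_M23).elim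

theorem coreP1BBB (n1 n2 n3 A1 A2 A3 B1 B2 B3 y1 y2 y3 z1 z2 z3 w1 w2 w3 : ℤ) (hb : Base n1 n2 n3 A1 A2 A3 B1 B2 B3) (hp : B1 ≤ A1 ∧ B2 ≤ A2 ∧ A3 < B3 ∧ (B1 < A1 ∨ B2 < A2))
    (hNT : NoTwo n1 n2 n3 A1 A2 A3 B1 B2 B3)
    (hy : KindP1 n1 n2 n3 A1 A2 A3 B1 B2 B3 y1 y2 y3) (hz : KindP1 n1 n2 n3 A1 A2 A3 B1 B2 B3 z1 z2 z3) (hw : KindP1 n1 n2 n3 A1 A2 A3 B1 B2 B3 w1 w2 w3)
    (hs : B1 + B1 + B1 ≤ y1 + z1 + w1 ∧ B2 + B2 + B2 ≤ y2 + z2 + w2 ∧ B3 + B3 + B3 ≤ y3 + z3 + w3) :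
    Fam n1 n2 n3 A1 A2 A3 B1 B2 B3 := by
  have m_BB_S1_M13 := NP1_BB_S1_M13 n1 n2 n3 A1 A2 A3 B1 B2 B3 hb hp hNT
  have m_BB_S1_M23 := NP1_BB_S1_M23 n1 n2 n3 A1 A2 A3 B1 B2 B3 hb hp hNT
  have m_BB_S2_M13 := NP1_BB_S2_M13 n1 n2 n3 A1 A2 A3 B1 B2 B3 hb hp hNT
  have m_BB_S1_S2 := NP1_BB_S1_S2 n1 n2 n3 A1 A2 A3 B1 B2 B3 hb hp hNT
  have m_AB_S1_S3 := NP1_AB_S1_S3 n1 n2 n3 A1 A2 A3 B1 B2 B3 hb hp hNT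
  have m_AB_S2_M13 := NP1_AB_S2_M13 n1 n2 n3 A1 A2 A3 B1 B2 B3 hb hp hNT
  have m_BB_S1_S3 := NP1_BB_S1_S3 n1 n2 n3 A1 A2 A3 B1 B2 B3 hb hp hNT
  have m_BB_S2_M23 := NP1_BB_S2_M23 n1 n2 n3 A1 A2 A3 B1 B2 B3 hb hp hNT
  have m_AB_S2_S3 := NP1_AB_S2_S3 n1 n2 n3 A1 A2 A3 B1 B2 B3 hb hp hNT
  have m_BB_S2_S3 := NP1_BB_S2_S3 n1 n2 n3 A1 A2 A3 B1 B2 B3 hb hp hNT
  have hs_ywz : B1 + B1 + B1 ≤ y1 + w1 + z1 ∧ B2 + B2 + B2 ≤ y2 + w2 + z2 ∧ B3 + B3 + B3 ≤ y3 + w3 + z3 := by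
    clear m_BB_S1_M13 m_BB_S1_M23 m_BB_S2_M13 m_BB_S1_S2 m_AB_S1_S3 m_AB_S2_M13 m_BB_S1_S3 m_BB_S2_M23 m_AB_S2_S3 m_BB_S2_S3 hy hz hw hNT hb hp
    omega
  have hs_zyw : B1 + B1 + B1 ≤ z1 + y1 + w1 ∧ B2 + B2 + B2 ≤ z2 + y2 + w2 ∧ B3 + B3 + B3 ≤ z3 + y3 + w3 := by
    clear m_BB_S1_M13 m_BB_S1_M23 m_BB_S2_M13 m_BB_S1_S2 m_AB_S1_S3 m_AB_S2_M13 m_BB_S1_S3 m_BB_S2_M23 m_AB_S2_S3 m_BB_S2_S3 hy hz hw hNT hb hp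
    omega
  have hs_zwy : B1 + B1 + B1 ≤ z1 + w1 + y1 ∧ B2 + B2 + B2 ≤ z2 + w2 + y2 ∧ B3 + B3 + B3 ≤ z3 + w3 + y3 := by
    clear m_BB_S1_M13 m_BB_S1_M23 m_BB_S2_M13 m_BB_S1_S2 m_AB_S1_S3 m_AB_S2_M13 m_BB_S1_S3 m_BB_S2_M23 m_AB_S2_S3 m_BB_S2_S3 hy hz hw hNT hb hp
    omega
  have hs_wyz : B1 + B1 + B1 ≤ w1 + y1 + z1 ∧ B2 + B2 + B2 ≤ w2 + y2 + z2 ∧ B3 + B3 + B3 ≤ w3 + y3 + z3 := by
    clear m_BB_S1_M13 m_BB_S1_M23 m_BB_S2_M13 m_BB_S1_S2 m_AB_S1_S3 m_AB_S2_M13 m_BB_S1_S3 m_BB_S2_M23 m_AB_S2_S3 m_BB_S2_S3 hy hz hw hNT hb hp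
    omega
  have hs_wzy : B1 + B1 + B1 ≤ w1 + z1 + y1 ∧ B2 + B2 + B2 ≤ w2 + z2 + y2 ∧ B3 + B3 + B3 ≤ w3 + z3 + y3 := by
    clear m_BB_S1_M13 m_BB_S1_M23 m_BB_S2_M13 m_BB_S1_S2 m_AB_S1_S3 m_AB_S2_M13 m_BB_S1_S3 m_BB_S2_M23 m_AB_S2_S3 m_BB_S2_S3 hy hz hw hNT hb hp
    omega
  rcases hy with hy | hy | hy | hy | hy <;> rcases hz with hz | hz | hz | hz | hz <;>
    rcases hw with hw | hw | hw | hw | hw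
  · exact (P1_BBB_S1_S1_S1 n1 n2 n3 A1 A2 A3 B1 B2 B3 hb hp hy.1 ⟨hs.1.trans (add_le_add (add_le_add hy.2.1 hz.2.1) hw.2.1), hs.2.1.trans (add_le_add (add_le_add hy.2.2.1 hz.2.2.1) hw.2.2.1), hs.2.2.trans (add_le_add (add_le_add hy.2.2.2 hz.2.2.2) hw.2.2.2)⟩ ).elim
  · exact (P1_BBB_S1_S1_S2 n1 n2 n3 A1 A2 A3 B1 B2 B3 hb hp ⟨hy.1, hw.1⟩ ⟨hs.1.trans (add_le_add (add_le_add hy.2.1 hz.2.1) hw.2.1), hs.1.trans (add_le_add (add_le_add hy.2.1 hz.2.1) hw.2.2.1), hs.2.1.trans (add_le_add (add_le_add hy.2.2.1 hz.2.2.1) hw.2.2.2.1), hs.2.2.trans (add_le_add (add_le_add hy.2.2.2 hz.2.2.2) hw.2.2.2.2)⟩ m_BB_S1_S2).elim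
  · exact (P1_BBB_S1_S1_S3 n1 n2 n3 A1 A2 A3 B1 B2 B3 hb hp ⟨hw.1, hy.1⟩ ⟨hs.1.trans (add_le_add (add_le_add hy.2.1 hz.2.1) hw.2.1), hs.1.trans (add_le_add (add_le_add hy.2.1 hz.2.1) hw.2.2.1), hs.2.1.trans (add_le_add (add_le_add hy.2.2.1 hz.2.2.1) hw.2.2.2.1), hs.2.1.trans (add_le_add (add_le_add hy.2.2.1 hz.2.2.1) hw.2.2.2.2.1), hs.2.2.trans (add_le_add (add_le_add hy.2.2.2 hz.2.2.2) hw.2.2.2.2.2)⟩ m_BB_S1_M23 m_AB_S1_S3 m_BB_S1_M13).elim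
  · exact (P1_BBB_S1_S1_M13 n1 n2 n3 A1 A2 A3 B1 B2 B3 hb hp ⟨hw.1, hy.1⟩ ⟨hs.1.trans (add_le_add (add_le_add hy.2.1 hz.2.1) hw.2.1), hs.2.1.trans (add_le_add (add_le_add hy.2.2.1 hz.2.2.1) hw.2.2.1), hs.2.1.trans (add_le_add (add_le_add hy.2.2.1 hz.2.2.1) hw.2.2.2.1), hs.2.2.trans (add_le_add (add_le_add hy.2.2.2 hz.2.2.2) hw.2.2.2.2.1), hs.2.2.trans (add_le_add (add_le_add hy.2.2.2 hz.2.2.2) hw.2.2.2.2.2)⟩ m_BB_S1_M13).elim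
  · exact (P1_BBB_S1_S1_M23 n1 n2 n3 A1 A2 A3 B1 B2 B3 hb hp ⟨hw.1, hy.1⟩ ⟨hs.1.trans (add_le_add (add_le_add hy.2.1 hz.2.1) hw.2.1), hs.1.trans (add_le_add (add_le_add hy.2.1 hz.2.1) hw.2.2.1), hs.2.1.trans (add_le_add (add_le_add hy.2.2.1 hz.2.2.1) hw.2.2.2.1), hs.2.2.trans (add_le_add (add_le_add hy.2.2.2 hz.2.2.2) hw.2.2.2.2.1), hs.2.2.trans (add_le_add (add_le_add hy.2.2.2 hz.2.2.2) hw.2.2.2.2.2)⟩ m_BB_S1_M23).elim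
  · exact (P1_BBB_S1_S1_S2 n1 n2 n3 A1 A2 A3 B1 B2 B3 hb hp ⟨hy.1, hz.1⟩ ⟨hs_ywz.1.trans (add_le_add (add_le_add hy.2.1 hw.2.1) hz.2.1), hs_ywz.1.trans (add_le_add (add_le_add hy.2.1 hw.2.1) hz.2.2.1), hs_ywz.2.1.trans (add_le_add (add_le_add hy.2.2.1 hw.2.2.1) hz.2.2.2.1), hs_ywz.2.2.trans (add_le_add (add_le_add hy.2.2.2 hw.2.2.2) hz.2.2.2.2)⟩ m_BB_S1_S2).elim
  · exact (P1_BBB_S1_S2_S2 n1 n2 n3 A1 A2 A3 B1 B2 B3 hb hp ⟨hy.1, hz.1⟩ ⟨hs.1.trans (add_le_add (add_le_add hy.2.1 hz.2.1) hw.2.1), hs.1.trans (add_le_add (add_le_add hy.2.1 hz.2.1) hw.2.2.1), hs.1.trans (add_le_add (add_le_add hy.2.1 hz.2.2.1) hw.2.1), hs.1.trans (add_le_add (add_le_add hy.2.1 hz.2.2.1) hw.2.2.1), hs.2.1.trans (add_le_add (add_le_add hy.2.2.1 hz.2.2.2.1) hw.2.2.2.1), hs.2.2.trans (add_le_add (add_le_add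 hy.2.2.2 hz.2.2.2.2) hw.2.2.2.2)⟩ m_BB_S1_S2).elim
  · exact (P1_BBB_S1_S2_S3 n1 n2 n3 A1 A2 A3 B1 B2 B3 hb hp ⟨hw.1, hy.1, hz.1⟩ ⟨hs.1.trans (add_le_add (add_le_add hy.2.1 hz.2.1) hw.2.1), hs.1.trans (add_le_add (add_le_add hy.2.1 hz.2.1) hw.2.2.1), hs.1.trans (add_le_add (add_le_add hy.2.1 hz.2.2.1) hw.2.1), hs.1.trans (add_le_add (add_le_add hy.2.1 hz.2.2.1) hw.2.2.1), hs.2.1.trans (add_le_add (add_le_add hy.2.2.1 hz.2.2.2.1) hw.2.2.2.1), hs.2.1.trans (add_le_add (add_le_add hy.2.2.1 hz.2.2.2.1) hw.2.2.2.2.1), hs.2.2.trans (add_le_add (add_le_add hy.2.2.2 hz.2.2.2.2) hw.2.2.2.2.2)⟩ m_BB_S1_S3 m_BB_S2_M13 m_AB_S1_S3).elim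
  · exact (P1_BBB_S1_S2_M13 n1 n2 n3 A1 A2 A3 B1 B2 B3 hb hp ⟨hw.1, hy.1, hz.1⟩ ⟨hs.1.trans (add_le_add (add_le_add hy.2.1 hz.2.1) hw.2.1), hs.1.trans (add_le_add (add_le_add hy.2.1 hz.2.2.1) hw.2.1), hs.2.1.trans (add_le_add (add_le_add hy.2.2.1 hz.2.2.2.1) hw.2.2.1), hs.2.1.trans (add_le_add (add_le_add hy.2.2.1 hz.2.2.2.1) hw.2.2.2.1), hs.2.2.trans (add_le_add (add_le_add hy.2.2.2 hz.2.2.2.2) hw.2.2.2.2.1), hs.2.2.trans (add_le_add (add_le_add hy.2.2.2 hz.2.2.2.2) hw.2.2.2.2.2)⟩ m_AB_S2_M13 m_BB_S1_M23).elim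
  · exact (P1_BBB_S1_S2_M23 n1 n2 n3 A1 A2 A3 B1 B2 B3 hb hp ⟨hw.1, hy.1, hz.1⟩ ⟨hs.1.trans (add_le_add (add_le_add hy.2.1 hz.2.1) hw.2.1), hs.1.trans (add_le_add (add_le_add hy.2.1 hz.2.1) hw.2.2.1), hs.1.trans (add_le_add (add_le_add hy.2.1 hz.2.2.1) hw.2.1), hs.1.trans (add_le_add (add_le_add hy.2.1 hz.2.2.1) hw.2.2.1), hs.2.1.trans (add_le_add (add_le_add hy.2.2.1 hz.2.2.2.1) hw.2.2.2.1), hs.2.2.trans (add_le_add (add_le_add hy.2.2.2 hz.2.2.2.2) hw.2.2.2.2.1), hs.2.2.trans (add_le_add (add_le_add hy.2.2.2 hz.2.2.2.2) hw.2.2.2.2.2)⟩ m_BB_S1_M23).elim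
  · exact (P1_BBB_S1_S1_S3 n1 n2 n3 A1 A2 A3 B1 B2 B3 hb hp ⟨hz.1, hy.1⟩ ⟨hs_ywz.1.trans (add_le_add (add_le_add hy.2.1 hw.2.1) hz.2.1), hs_ywz.1.trans (add_le_add (add_le_add hy.2.1 hw.2.1) hz.2.2.1), hs_ywz.2.1.trans (add_le_add (add_le_add hy.2.2.1 hw.2.2.1) hz.2.2.2.1), hs_ywz.2.1.trans (add_le_add (add_le_add hy.2.2.1 hw.2.2.1) hz.2.2.2.2.1), hs_ywz.2.2.trans (add_le_add (add_le_add hy.2.2.2 hw.2.2.2) hz.2.2.2.2.2)⟩ m_BB_S1_M23 m_AB_S1_S3 m_BB_S1_M13).elim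
  · exact (P1_BBB_S1_S2_S3 n1 n2 n3 A1 A2 A3 B1 B2 B3 hb hp ⟨hz.1, hy.1, hw.1⟩ ⟨hs_ywz.1.trans (add_le_add (add_le_add hy.2.1 hw.2.1) hz.2.1), hs_ywz.1.trans (add_le_add (add_le_add hy.2.1 hw.2.1) hz.2.2.1), hs_ywz.1.trans (add_le_add (add_le_add hy.2.1 hw.2.2.1) hz.2.1), hs_ywz.1.trans (add_le_add (add_le_add hy.2.1 hw.2.2.1) hz.2.2.1), hs_ywz.2.1.trans (add_le_add (add_le_add hy.2.2.1 hw.2.2.2.1) hz.2.2.2.1), hs_ywz.2.1.trans (add_le_add (add_le_add hy.2.2.1 hw.2.2.2.1) hz.2.2.2.2.1), hs_ywz.2.2.trans (add_le_add (add_le_add hy.2.2.2 hw.2.2.2.2) hz.2.2.2.2.2)⟩ m_BB_S1_S3 m_BB_S2_M13 m_AB_S1_S3).elim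
  · exact (P1_BBB_S1_S3_S3 n1 n2 n3 A1 A2 A3 B1 B2 B3 hb hp ⟨hz.1, hy.1⟩ ⟨hs.1.trans (add_le_add (add_le_add hy.2.1 hz.2.1) hw.2.1), hs.1.trans (add_le_add (add_le_add hy.2.1 hz.2.1) hw.2.2.1), hs.1.trans (add_le_add (add_le_add hy.2.1 hz.2.2.1) hw.2.1), hs.1.trans (add_le_add (add_le_add hy.2.1 hz.2.2.1) hw.2.2.1), hs.2.1.trans (add_le_add (add_le_add hy.2.2.1 hz.2.2.2.1) hw.2.2.2.1), hs.2.1.trans (add_le_add (add_le_add hy.2.2.1 hz.2.2.2.1) hw.2.2.2.2.1), hs.2.1.trans (add_le_add (add_le_add hy.2.2.1 hz.2.2.2.2.1) hw.2.2.2.1), hs.2.1.trans (add_le_add (add_le_add hy.2.2.1 hz.2.2.2.2.1) hw.2.2.2.2.1), hs.2.2.trans (add_le_add (add_le_add hy.2.2.2 hz.2.2.2.2.2) hw.2.2.2.2.2)⟩ m_BB_S1_S3).elim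
  · exact (P1_BBB_S1_S3_M13 n1 n2 n3 A1 A2 A3 B1 B2 B3 hb hp ⟨hw.1, hz.1, hy.1⟩ ⟨hs.1.trans (add_le_add (add_le_add hy.2.1 hz.2.1) hw.2.1), hs.1.trans (add_le_add (add_le_add hy.2.1 hz.2.2.1) hw.2.1), hs.2.1.trans (add_le_add (add_le_add hy.2.2.1 hz.2.2.2.1) hw.2.2.1), hs.2.1.trans (add_le_add (add_le_add hy.2.2.1 hz.2.2.2.1) hw.2.2.2.1), hs.2.1.trans (add_le_add (add_le_add hy.2.2.1 hz.2.2.2.2.1) hw.2.2.1), hs.2.1.trans (add_le_add (add_le_add hy.2.2.1 hz.2.2.2.2.1) hw.2.2.2.1), hs.2.2.trans (add_le_add (add_le_add hy.2.2.2 hz.2.2.2.2.2) hw.2.2.2.2.1), hs.2.2.trans (add_le_add (add_le_add hy.2.2.2 hz.2.2.2.2.2) hw.2.2.2.2.2)⟩ m_BB_S1_S3 m_BB_S2_M13).elim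
  · exact (P1_BBB_S1_S3_M23 n1 n2 n3 A1 A2 A3 B1 B2 B3 hb hp ⟨hw.1, hz.1, hy.1⟩ ⟨hs.1.trans (add_le_add (add_le_add hy.2.1 hz.2.1) hw.2.1), hs.1.trans (add_le_add (add_le_add hy.2.1 hz.2.1) hw.2.2.1), hs.1.trans (add_le_add (add_le_add hy.2.1 hz.2.2.1) hw.2.1), hs.1.trans (add_le_add (add_le_add hy.2.1 hz.2.2.1) hw.2.2.1), hs.2.1.trans (add_le_add (add_le_add hy.2.2.1 hz.2.2.2.1) hw.2.2.2.1), hs.2.1.trans (add_le_add (add_le_add hy.2.2.1 hz.2.2.2.2.1) hw.2.2.2.1), hs.2.2.trans (add_le_add (add_le_add hy.2.2.2 hz.2.2.2.2.2) hw.2.2.2.2.1), hs.2.2.trans (add_le_add (add_le_add hy.2.2.2 hz.2.2.2.2.2) hw.2.2.2.2.2)⟩ m_BB_S1_S3).elim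
  · exact (P1_BBB_S1_S1_M13 n1 n2 n3 A1 A2 A3 B1 B2 B3 hb hp ⟨hz.1, hy.1⟩ ⟨hs_ywz.1.trans (add_le_add (add_le_add hy.2.1 hw.2.1) hz.2.1), hs_ywz.2.1.trans (add_le_add (add_le_add hy.2.2.1 hw.2.2.1) hz.2.2.1), hs_ywz.2.1.trans (add_le_add (add_le_add hy.2.2.1 hw.2.2.1) hz.2.2.2.1), hs_ywz.2.2.trans (add_le_add (add_le_add hy.2.2.2 hw.2.2.2) hz.2.2.2.2.1), hs_ywz.2.2.trans (add_le_add (add_le_add hy.2.2.2 hw.2.2.2) hz.2.2.2.2.2)⟩ m_BB_S1_M13).elim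
  · exact (P1_BBB_S1_S2_M13 n1 n2 n3 A1 A2 A3 B1 B2 B3 hb hp ⟨hz.1, hy.1, hw.1⟩ ⟨hs_ywz.1.trans (add_le_add (add_le_add hy.2.1 hw.2.1) hz.2.1), hs_ywz.1.trans (add_le_add (add_le_add hy.2.1 hw.2.2.1) hz.2.1), hs_ywz.2.1.trans (add_le_add (add_le_add hy.2.2.1 hw.2.2.2.1) hz.2.2.1), hs_ywz.2.1.trans (add_le_add (add_le_add hy.2.2.1 hw.2.2.2.1) hz.2.2.2.1), hs_ywz.2.2.trans (add_le_add (add_le_add hy.2.2.2 hw.2.2.2.2) hz.2.2.2.2.1), hs_ywz.2.2.trans (add_le_add (add_le_add hy.2.2.2 hw.2.2.2.2) hz.2.2.2.2.2)⟩ m_AB_S2_M13 m_BB_S1_M23).elim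
  · exact (P1_BBB_S1_S3_M13 n1 n2 n3 A1 A2 A3 B1 B2 B3 hb hp ⟨hz.1, hw.1, hy.1⟩ ⟨hs_ywz.1.trans (add_le_add (add_le_add hy.2.1 hw.2.1) hz.2.1), hs_ywz.1.trans (add_le_add (add_le_add hy.2.1 hw.2.2.1) hz.2.1), hs_ywz.2.1.trans (add_le_add (add_le_add hy.2.2.1 hw.2.2.2.1) hz.2.2.1), hs_ywz.2.1.trans (add_le_add (add_le_add hy.2.2.1 hw.2.2.2.1) hz.2.2.2.1), hs_ywz.2.1.trans (add_le_add (add_le_add hy.2.2.1 hw.2.2.2.2.1) hz.2.2.1), hs_ywz.2.1.trans (add_le_add (add_le_add hy.2.2.1 hw.2.2.2.2.1) hz.2.2.2.1), hs_ywz.2.2.trans (add_le_add (add_le_add hy.2.2.2 hw.2.2.2.2.2) hz.2.2.2.2.1), hs_ywz.2.2.trans (add_le_add (add_le_add hy.2.2.2 hw.2.2.2.2.2) hz.2.2.2.2.2)⟩ m_BB_S1_S3 m_BB_S2_M13).elim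
  · exact (P1_BBB_S1_M13_M13 n1 n2 n3 A1 A2 A3 B1 B2 B3 hb hp ⟨hz.1, hy.1⟩ ⟨hs.1.trans (add_le_add (add_le_add hy.2.1 hz.2.1) hw.2.1), hs.2.1.trans (add_le_add (add_le_add hy.2.2.1 hz.2.2.1) hw.2.2.1), hs.2.1.trans (add_le_add (add_le_add hy.2.2.1 hz.2.2.1) hw.2.2.2.1), hs.2.1.trans (add_le_add (add_le_add hy.2.2.1 hz.2.2.2.1) hw.2.2.1), hs.2.1.trans (add_le_add (add_le_add hy.2.2.1 hz.2.2.2.1) hw.2.2.2.1), hs.2.2.trans (add_le_add (add_le_add hy.2.2.2 hz.2.2.2.2.1) hw.2.2.2.2.1), hs.2.2.trans (add_le_add (add_le_add hy.2.2.2 hz.2.2.2.2.1) hw.2.2.2.2.2), hs.2.2.trans (add_le_add (add_le_add hy.2.2.2 hz.2.2.2.2.2) hw.2.2.2.2.1), hs.2.2.trans (add_le_add (add_le_add hy.2.2.2 hz.2.2.2.2.2) hw.2.2.2.2.2)⟩ m_BB_S1_M13).elim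
  · exact (P1_BBB_S1_M13_M23 n1 n2 n3 A1 A2 A3 B1 B2 B3 hb hp ⟨hz.1, hw.1, hy.1⟩ ⟨hs.1.trans (add_le_add (add_le_add hy.2.1 hz.2.1) hw.2.1), hs.1.trans (add_le_add (add_le_add hy.2.1 hz.2.1) hw.2.2.1), hs.2.1.trans (add_le_add (add_le_add hy.2.2.1 hz.2.2.1) hw.2.2.2.1), hs.2.1.trans (add_le_add (add_le_add hy.2.2.1 hz.2.2.2.1) hw.2.2.2.1), hs.2.2.trans (add_le_add (add_le_add hy.2.2.2 hz.2.2.2.2.1) hw.2.2.2.2.1), hs.2.2.trans (add_le_add (add_le_add hy.2.2.2 hz.2.2.2.2.1) hw.2.2.2.2.2), hs.2.2.trans (add_le_add (add_le_add hy.2.2.2 hz.2.2.2.2.2) hw.2.2.2.2.1), hs.2.2.trans (add_le_add (add_le_add hy.2.2.2 hz.2.2.2.2.2) hw.2.2.2.2.2)⟩ m_BB_S1_M23 m_BB_S2_M13).elim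
  · exact (P1_BBB_S1_S1_M23 n1 n2 n3 A1 A2 A3 B1 B2 B3 hb hp ⟨hz.1, hy.1⟩ ⟨hs_ywz.1.trans (add_le_add (add_le_add hy.2.1 hw.2.1) hz.2.1), hs_ywz.1.trans (add_le_add (add_le_add hy.2.1 hw.2.1) hz.2.2.1), hs_ywz.2.1.trans (add_le_add (add_le_add hy.2.2.1 hw.2.2.1) hz.2.2.2.1), hs_ywz.2.2.trans (add_le_add (add_le_add hy.2.2.2 hw.2.2.2) hz.2.2.2.2.1), hs_ywz.2.2.trans (add_le_add (add_le_add hy.2.2.2 hw.2.2.2) hz.2.2.2.2.2)⟩ m_BB_S1_M23).elim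
  · exact (P1_BBB_S1_S2_M23 n1 n2 n3 A1 A2 A3 B1 B2 B3 hb hp ⟨hz.1, hy.1, hw.1⟩ ⟨hs_ywz.1.trans (add_le_add (add_le_add hy.2.1 hw.2.1) hz.2.1), hs_ywz.1.trans (add_le_add (add_le_add hy.2.1 hw.2.1) hz.2.2.1), hs_ywz.1.trans (add_le_add (add_le_add hy.2.1 hw.2.2.1) hz.2.1), hs_ywz.1.trans (add_le_add (add_le_add hy.2.1 hw.2.2.1) hz.2.2.1), hs_ywz.2.1.trans (add_le_add (add_le_add hy.2.2.1 hw.2.2.2.1) hz.2.2.2.1), hs_ywz.2.2.trans (add_le_add (add_le_add hy.2.2.2 hw.2.2.2.2) hz.2.2.2.2.1), hs_ywz.2.2.trans (add_le_add (add_le_add hy.2.2.2 hw.2.2.2.2) hz.2.2.2.2.2)⟩ m_BB_S1_M23).elim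
  · exact (P1_BBB_S1_S3_M23 n1 n2 n3 A1 A2 A3 B1 B2 B3 hb hp ⟨hz.1, hw.1, hy.1⟩ ⟨hs_ywz.1.trans (add_le_add (add_le_add hy.2.1 hw.2.1) hz.2.1), hs_ywz.1.trans (add_le_add (add_le_add hy.2.1 hw.2.1) hz.2.2.1), hs_ywz.1.trans (add_le_add (add_le_add hy.2.1 hw.2.2.1) hz.2.1), hs_ywz.1.trans (add_le_add (add_le_add hy.2.1 hw.2.2.1) hz.2.2.1), hs_ywz.2.1.trans (add_le_add (add_le_add hy.2.2.1 hw.2.2.2.1) hz.2.2.2.1), hs_ywz.2.1.trans (add_le_add (add_le_add hy.2.2.1 hw.2.2.2.2.1) hz.2.2.2.1), hs_ywz.2.2.trans (add_le_add (add_le_add hy.2.2.2 hw.2.2.2.2.2) hz.2.2.2.2.1), hs_ywz.2.2.trans (add_le_add (add_le_add hy.2.2.2 hw.2.2.2.2.2) hz.2.2.2.2.2)⟩ m_BB_S1_S3).elim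
  · exact (P1_BBB_S1_M13_M23 n1 n2 n3 A1 A2 A3 B1 B2 B3 hb hp ⟨hw.1, hz.1, hy.1⟩ ⟨hs_ywz.1.trans (add_le_add (add_le_add hy.2.1 hw.2.1) hz.2.1), hs_ywz.1.trans (add_le_add (add_le_add hy.2.1 hw.2.1) hz.2.2.1), hs_ywz.2.1.trans (add_le_add (add_le_add hy.2.2.1 hw.2.2.1) hz.2.2.2.1), hs_ywz.2.1.trans (add_le_add (add_le_add hy.2.2.1 hw.2.2.2.1) hz.2.2.2.1), hs_ywz.2.2.trans (add_le_add (add_le_add hy.2.2.2 hw.2.2.2.2.1) hz.2.2.2.2.1), hs_ywz.2.2.trans (add_le_add (add_le_add hy.2.2.2 hw.2.2.2.2.1) hz.2.2.2.2.2), hs_ywz.2.2.trans (add_le_add (add_le_add hy.2.2.2 hw.2.2.2.2.2) hz.2.2.2.2.1), hs_ywz.2.2.trans (add_le_add (add_le_add hy.2.2.2 hw.2.2.2.2.2) hz.2.2.2.2.2)⟩ m_BB_S1_M23 m_BB_S2_M13).elim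
  · exact (P1_BBB_S1_M23_M23 n1 n2 n3 A1 A2 A3 B1 B2 B3 hb hp ⟨hz.1, hy.1⟩ ⟨hs.1.trans (add_le_add (add_le_add hy.2.1 hz.2.1) hw.2.1), hs.1.trans (add_le_add (add_le_add hy.2.1 hz.2.1) hw.2.2.1), hs.1.trans (add_le_add (add_le_add hy.2.1 hz.2.2.1) hw.2.1), hs.1.trans (add_le_add (add_le_add hy.2.1 hz.2.2.1) hw.2.2.1), hs.2.1.trans (add_le_add (add_le_add hy.2.2.1 hz.2.2.2.1) hw.2.2.2.1), hs.2.2.trans (add_le_add (add_le_add hy.2.2.2 hz.2.2.2.2.1) hw.2.2.2.2.1), hs.2.2.trans (add_le_add (add_le_add hy.2.2.2 hz.2.2.2.2.1) hw.2.2.2.2.2), hs.2.2.trans (add_le_add (add_le_add hy.2.2.2 hz.2.2.2.2.2) hw.2.2.2.2.1), hs.2.2.trans (add_le_add (add_le_add hy.2.2.2 hz.2.2.2.2.2) hw.2.2.2.2.2)⟩ m_BB_S1_M23).elim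
  · exact (P1_BBB_S1_S1_S2 n1 n2 n3 A1 A2 A3 B1 B2 B3 hb hp ⟨hz.1, hy.1⟩ ⟨hs_zwy.1.trans (add_le_add (add_le_add hz.2.1 hw.2.1) hy.2.1), hs_zwy.1.trans (add_le_add (add_le_add hz.2.1 hw.2.1) hy.2.2.1), hs_zwy.2.1.trans (add_le_add (add_le_add hz.2.2.1 hw.2.2.1) hy.2.2.2.1), hs_zwy.2.2.trans (add_le_add (add_le_add hz.2.2.2 hw.2.2.2) hy.2.2.2.2)⟩ m_BB_S1_S2).elim
  · exact (P1_BBB_S1_S2_S2 n1 n2 n3 A1 A2 A3 B1 B2 B3 hb hp ⟨hz.1, hy.1⟩ ⟨hs_zyw.1.trans (add_le_add (add_le_add hz.2.1 hy.2.1) hw.2.1), hs_zyw.1.trans (add_le_add (add_le_add hz.2.1 hy.2.1) hw.2.2.1), hs_zyw.1.trans (add_le_add (add_le_add hz.2.1 hy.2.2.1) hw.2.1), hs_zyw.1.trans (add_le_add (add_le_add hz.2.1 hy.2.2.1) hw.2.2.1), hs_zyw.2.1.trans (add_le_add (add_le_add hz.2.2.1 hy.2.2.2.1) hw.2.2.2.1), hs_zyw.2.2.trans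 (add_le_add (add_le_add hz.2.2.2 hy.2.2.2.2) hw.2.2.2.2)⟩ m_BB_S1_S2).elim
  · exact (P1_BBB_S1_S2_S3 n1 n2 n3 A1 A2 A3 B1 B2 B3 hb hp ⟨hw.1, hz.1, hy.1⟩ ⟨hs_zyw.1.trans (add_le_add (add_le_add hz.2.1 hy.2.1) hw.2.1), hs_zyw.1.trans (add_le_add (add_le_add hz.2.1 hy.2.1) hw.2.2.1), hs_zyw.1.trans (add_le_add (add_le_add hz.2.1 hy.2.2.1) hw.2.1), hs_zyw.1.trans (add_le_add (add_le_add hz.2.1 hy.2.2.1) hw.2.2.1), hs_zyw.2.1.trans (add_le_add (add_le_add hz.2.2.1 hy.2.2.2.1) hw.2.2.2.1), hs_zyw.2.1.trans (add_le_add (add_le_add hz.2.2.1 hy.2.2.2.1) hw.2.2.2.2.1), hs_zyw.2.2.trans (add_le_add (add_le_add hz.2.2.2 hy.2.2.2.2) hw.2.2.2.2.2)⟩ m_BB_S1_S3 m_BB_S2_M13 m_AB_S1_S3).elim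
  · exact (P1_BBB_S1_S2_M13 n1 n2 n3 A1 A2 A3 B1 B2 B3 hb hp ⟨hw.1, hz.1, hy.1⟩ ⟨hs_zyw.1.trans (add_le_add (add_le_add hz.2.1 hy.2.1) hw.2.1), hs_zyw.1.trans (add_le_add (add_le_add hz.2.1 hy.2.2.1) hw.2.1), hs_zyw.2.1.trans (add_le_add (add_le_add hz.2.2.1 hy.2.2.2.1) hw.2.2.1), hs_zyw.2.1.trans (add_le_add (add_le_add hz.2.2.1 hy.2.2.2.1) hw.2.2.2.1), hs_zyw.2.2.trans (add_le_add (add_le_add hz.2.2.2 hy.2.2.2.2) hw.2.2.2.2.1), hs_zyw.2.2.trans (add_le_add (add_le_add hz.2.2.2 hy.2.2.2.2) hw.2.2.2.2.2)⟩ m_AB_S2_M13 m_BB_S1_M23).elim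
  · exact (P1_BBB_S1_S2_M23 n1 n2 n3 A1 A2 A3 B1 B2 B3 hb hp ⟨hw.1, hz.1, hy.1⟩ ⟨hs_zyw.1.trans (add_le_add (add_le_add hz.2.1 hy.2.1) hw.2.1), hs_zyw.1.trans (add_le_add (add_le_add hz.2.1 hy.2.1) hw.2.2.1), hs_zyw.1.trans (add_le_add (add_le_add hz.2.1 hy.2.2.1) hw.2.1), hs_zyw.1.trans (add_le_add (add_le_add hz.2.1 hy.2.2.1) hw.2.2.1), hs_zyw.2.1.trans (add_le_add (add_le_add hz.2.2.1 hy.2.2.2.1) hw.2.2.2.1), hs_zyw.2.2.trans (add_le_add (add_le_add hz.2.2.2 hy.2.2.2.2) hw.2.2.2.2.1), hs_zyw.2.2.trans (add_le_add (add_le_add hz.2.2.2 hy.2.2.2.2) hw.2.2.2.2.2)⟩ m_BB_S1_M23).elim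
  · exact (P1_BBB_S1_S2_S2 n1 n2 n3 A1 A2 A3 B1 B2 B3 hb hp ⟨hw.1, hy.1⟩ ⟨hs_wyz.1.trans (add_le_add (add_le_add hw.2.1 hy.2.1) hz.2.1), hs_wyz.1.trans (add_le_add (add_le_add hw.2.1 hy.2.1) hz.2.2.1), hs_wyz.1.trans (add_le_add (add_le_add hw.2.1 hy.2.2.1) hz.2.1), hs_wyz.1.trans (add_le_add (add_le_add hw.2.1 hy.2.2.1) hz.2.2.1), hs_wyz.2.1.trans (add_le_add (add_le_add hw.2.2.1 hy.2.2.2.1) hz.2.2.2.1), hs_wyz.2.2.trans (add_le_add (add_le_add hw.2.2.2 hy.2.2.2.2) hz.2.2.2.2)⟩ m_BB_S1_S2).elim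
  · exact (P1_BBB_S2_S2_S2 n1 n2 n3 A1 A2 A3 B1 B2 B3 hb hp hy.1 ⟨hs.1.trans (add_le_add (add_le_add hy.2.1 hz.2.1) hw.2.1), hs.1.trans (add_le_add (add_le_add hy.2.1 hz.2.1) hw.2.2.1), hs.1.trans (add_le_add (add_le_add hy.2.1 hz.2.2.1) hw.2.1), hs.1.trans (add_le_add (add_le_add hy.2.1 hz.2.2.1) hw.2.2.1), hs.1.trans (add_le_add (add_le_add hy.2.2.1 hz.2.1) hw.2.1), hs.1.trans (add_le_add (add_le_add hy.2.2.1 hz.2.1) hw.2.2.1), hs.1.trans (add_le_add (add_le_add hy.2.2.1 hz.2.2.1) hw.2.1), hs.1.trans (add_le_add (add_le_add hy.2.2.1 hz.2.2.1) hw.2.2.1), hs.2.1.trans (add_le_add (add_le_add hy.2.2.2.1 hz.2.2.2.1) hw.2.2.2.1), hs.2.2.trans (add_le_add (add_le_add hy.2.2.2.2 hz.2.2.2.2) hw.2.2.2.2)⟩ ).elim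
  · exact (P1_BBB_S2_S2_S3 n1 n2 n3 A1 A2 A3 B1 B2 B3 hb hp ⟨hw.1, hy.1⟩ ⟨hs.1.trans (add_le_add (add_le_add hy.2.1 hz.2.1) hw.2.1), hs.1.trans (add_le_add (add_le_add hy.2.1 hz.2.1) hw.2.2.1), hs.1.trans (add_le_add (add_le_add hy.2.1 hz.2.2.1) hw.2.1), hs.1.trans (add_le_add (add_le_add hy.2.1 hz.2.2.1) hw.2.2.1), hs.1.trans (add_le_add (add_le_add hy.2.2.1 hz.2.1) hw.2.1), hs.1.trans (add_le_add (add_le_add hy.2.2.1 hz.2.1) hw.2.2.1), hs.1.trans (add_le_add (add_le_add hy.2.2.1 hz.2.2.1) hw.2.1), hs.1.trans (add_le_add (add_le_add hy.2.2.1 hz.2.2.1) hw.2.2.1), hs.2.1.trans (add_le_add (add_le_add hy.2.2.2.1 hz.2.2.2.1) hw.2.2.2.1), hs.2.1.trans (add_le_add (add_le_add hy.2.2.2.1 hz.2.2.2.1) hw.2.2.2.2.1), hs.2.2.trans (add_le_add (add_le_add hy.2.2.2.2 hz.2.2.2.2) hw.2.2.2.2.2)⟩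 m_AB_S2_S3 m_BB_S2_M23).elim
  · exact (P1_BBB_S2_S2_M13 n1 n2 n3 A1 A2 A3 B1 B2 B3 hb hp ⟨hw.1, hy.1⟩ ⟨hs.1.trans (add_le_add (add_le_add hy.2.1 hz.2.1) hw.2.1), hs.1.trans (add_le_add (add_le_add hy.2.1 hz.2.2.1) hw.2.1), hs.1.trans (add_le_add (add_le_add hy.2.2.1 hz.2.1) hw.2.1), hs.1.trans (add_le_add (add_le_add hy.2.2.1 hz.2.2.1) hw.2.1), hs.2.1.trans (add_le_add (add_le_add hy.2.2.2.1 hz.2.2.2.1) hw.2.2.1), hs.2.1.trans (add_le_add (add_le_add hy.2.2.2.1 hz.2.2.2.1) hw.2.2.2.1), hs.2.2.trans (add_le_add (add_le_add hy.2.2.2.2 hz.2.2.2.2) hw.2.2.2.2.1), hs.2.2.trans (add_le_add (add_le_add hy.2.2.2.2 hz.2.2.2.2) hw.2.2.2.2.2)⟩ m_BB_S2_M13).elim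
  · exact (P1_BBB_S2_S2_M23 n1 n2 n3 A1 A2 A3 B1 B2 B3 hb hp ⟨hw.1, hy.1⟩ ⟨hs.1.trans (add_le_add (add_le_add hy.2.1 hz.2.1) hw.2.1), hs.1.trans (add_le_add (add_le_add hy.2.1 hz.2.1) hw.2.2.1), hs.1.trans (add_le_add (add_le_add hy.2.1 hz.2.2.1) hw.2.1), hs.1.trans (add_le_add (add_le_add hy.2.1 hz.2.2.1) hw.2.2.1), hs.1.trans (add_le_add (add_le_add hy.2.2.1 hz.2.1) hw.2.1), hs.1.trans (add_le_add (add_le_add hy.2.2.1 hz.2.1) hw.2.2.1), hs.1.trans (add_le_add (add_le_add hy.2.2.1 hz.2.2.1) hw.2.1), hs.1.trans (add_le_add (add_le_add hy.2.2.1 hz.2.2.1) hw.2.2.1), hs.2.1.trans (add_le_add (add_le_add hy.2.2.2.1 hz.2.2.2.1) hw.2.2.2.1), hs.2.2.trans (add_le_add (add_le_add hy.2.2.2.2 hz.2.2.2.2) hw.2.2.2.2.1), hs.2.2.trans (add_le_add (add_le_add hy.2.2.2.2 hz.2.2.2.2) hw.2.2.2.2.2)⟩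 m_BB_S2_M23).elim
  · exact (P1_BBB_S1_S2_S3 n1 n2 n3 A1 A2 A3 B1 B2 B3 hb hp ⟨hz.1, hw.1, hy.1⟩ ⟨hs_wyz.1.trans (add_le_add (add_le_add hw.2.1 hy.2.1) hz.2.1), hs_wyz.1.trans (add_le_add (add_le_add hw.2.1 hy.2.1) hz.2.2.1), hs_wyz.1.trans (add_le_add (add_le_add hw.2.1 hy.2.2.1) hz.2.1), hs_wyz.1.trans (add_le_add (add_le_add hw.2.1 hy.2.2.1) hz.2.2.1), hs_wyz.2.1.trans (add_le_add (add_le_add hw.2.2.1 hy.2.2.2.1) hz.2.2.2.1), hs_wyz.2.1.trans (add_le_add (add_le_add hw.2.2.1 hy.2.2.2.1) hz.2.2.2.2.1), hs_wyz.2.2.trans (add_le_add (add_le_add hw.2.2.2 hy.2.2.2.2) hz.2.2.2.2.2)⟩ m_BB_S1_S3 m_BB_S2_M13 m_AB_S1_S3).elim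
  · exact (P1_BBB_S2_S2_S3 n1 n2 n3 A1 A2 A3 B1 B2 B3 hb hp ⟨hz.1, hy.1⟩ ⟨hs_ywz.1.trans (add_le_add (add_le_add hy.2.1 hw.2.1) hz.2.1), hs_ywz.1.trans (add_le_add (add_le_add hy.2.1 hw.2.1) hz.2.2.1), hs_ywz.1.trans (add_le_add (add_le_add hy.2.1 hw.2.2.1) hz.2.1), hs_ywz.1.trans (add_le_add (add_le_add hy.2.1 hw.2.2.1) hz.2.2.1), hs_ywz.1.trans (add_le_add (add_le_add hy.2.2.1 hw.2.1) hz.2.1), hs_ywz.1.trans (add_le_add (add_le_add hy.2.2.1 hw.2.1) hz.2.2.1), hs_ywz.1.trans (add_le_add (add_le_add hy.2.2.1 hw.2.2.1) hz.2.1), hs_ywz.1.trans (add_le_add (add_le_add hy.2.2.1 hw.2.2.1) hz.2.2.1), hs_ywz.2.1.trans (add_le_add (add_le_add hy.2.2.2.1 hw.2.2.2.1) hz.2.2.2.1), hs_ywz.2.1.trans (add_le_add (add_le_add hy.2.2.2.1 hw.2.2.2.1) hz.2.2.2.2.1), hs_ywz.2.2.trans (add_le_add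 (add_le_add hy.2.2.2.2 hw.2.2.2.2) hz.2.2.2.2.2)⟩ m_AB_S2_S3 m_BB_S2_M23).elim
  · exact (P1_BBB_S2_S3_S3 n1 n2 n3 A1 A2 A3 B1 B2 B3 hb hp ⟨hz.1, hy.1⟩ ⟨hs.1.trans (add_le_add (add_le_add hy.2.1 hz.2.1) hw.2.1), hs.1.trans (add_le_add (add_le_add hy.2.1 hz.2.1) hw.2.2.1), hs.1.trans (add_le_add (add_le_add hy.2.1 hz.2.2.1) hw.2.1), hs.1.trans (add_le_add (add_le_add hy.2.1 hz.2.2.1) hw.2.2.1), hs.1.trans (add_le_add (add_le_add hy.2.2.1 hz.2.1) hw.2.1), hs.1.trans (add_le_add (add_le_add hy.2.2.1 hz.2.1) hw.2.2.1), hs.1.trans (add_le_add (add_le_add hy.2.2.1 hz.2.2.1) hw.2.1), hs.1.trans (add_le_add (add_le_add hy.2.2.1 hz.2.2.1) hw.2.2.1), hs.2.1.trans (add_le_add (add_le_add hy.2.2.2.1 hz.2.2.2.1) hw.2.2.2.1), hs.2.1.trans (add_le_add (add_le_add hy.2.2.2.1 hz.2.2.2.1)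 hw.2.2.2.2.1), hs.2.1.trans (add_le_add (add_le_add hy.2.2.2.1 hz.2.2.2.2.1) hw.2.2.2.1), hs.2.1.trans (add_le_add (add_le_add hy.2.2.2.1 hz.2.2.2.2.1) hw.2.2.2.2.1), hs.2.2.trans (add_le_add (add_le_add hy.2.2.2.2 hz.2.2.2.2.2) hw.2.2.2.2.2)⟩ m_BB_S2_S3).elim
  · exact (P1_BBB_S2_S3_M13 n1 n2 n3 A1 A2 A3 B1 B2 B3 hb hp ⟨hw.1, hz.1, hy.1⟩ ⟨hs.1.trans (add_le_add (add_le_add hy.2.1 hz.2.1) hw.2.1), hs.1.trans (add_le_add (add_le_add hy.2.1 hz.2.2.1) hw.2.1), hs.1.trans (add_le_add (add_le_add hy.2.2.1 hz.2.1) hw.2.1), hs.1.trans (add_le_add (add_le_add hy.2.2.1 hz.2.2.1) hw.2.1), hs.2.1.trans (add_le_add (add_le_add hy.2.2.2.1 hz.2.2.2.1) hw.2.2.1), hs.2.1.trans (add_le_add (add_le_add hy.2.2.2.1 hz.2.2.2.1) hw.2.2.2.1), hs.2.1.trans (add_le_add (add_le_add hy.2.2.2.1 hz.2.2.2.2.1)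 hw.2.2.1), hs.2.1.trans (add_le_add (add_le_add hy.2.2.2.1 hz.2.2.2.2.1) hw.2.2.2.1), hs.2.2.trans (add_le_add (add_le_add hy.2.2.2.2 hz.2.2.2.2.2) hw.2.2.2.2.1), hs.2.2.trans (add_le_add (add_le_add hy.2.2.2.2 hz.2.2.2.2.2) hw.2.2.2.2.2)⟩ m_BB_S2_M13 m_AB_S2_S3 m_BB_S1_S3).elim
  · exact (P1_BBB_S2_S3_M23 n1 n2 n3 A1 A2 A3 B1 B2 B3 hb hp ⟨hw.1, hz.1, hy.1⟩ ⟨hs.1.trans (add_le_add (add_le_add hy.2.1 hz.2.1) hw.2.1), hs.1.trans (add_le_add (add_le_add hy.2.1 hz.2.1) hw.2.2.1), hs.1.trans (add_le_add (add_le_add hy.2.1 hz.2.2.1) hw.2.1), hs.1.trans (add_le_add (add_le_add hy.2.1 hz.2.2.1) hw.2.2.1), hs.1.trans (add_le_add (add_le_add hy.2.2.1 hz.2.1) hw.2.1), hs.1.trans (add_le_add (add_le_add hy.2.2.1 hz.2.1) hw.2.2.1), hs.1.trans (add_le_add (add_le_add hy.2.2.1 hz.2.2.1)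 hw.2.1), hs.1.trans (add_le_add (add_le_add hy.2.2.1 hz.2.2.1) hw.2.2.1), hs.2.1.trans (add_le_add (add_le_add hy.2.2.2.1 hz.2.2.2.1) hw.2.2.2.1), hs.2.1.trans (add_le_add (add_le_add hy.2.2.2.1 hz.2.2.2.2.1) hw.2.2.2.1), hs.2.2.trans (add_le_add (add_le_add hy.2.2.2.2 hz.2.2.2.2.2) hw.2.2.2.2.1), hs.2.2.trans (add_le_add (add_le_add hy.2.2.2.2 hz.2.2.2.2.2) hw.2.2.2.2.2)⟩ m_BB_S2_S3).elim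
  · exact (P1_BBB_S1_S2_M13 n1 n2 n3 A1 A2 A3 B1 B2 B3 hb hp ⟨hz.1, hw.1, hy.1⟩ ⟨hs_wyz.1.trans (add_le_add (add_le_add hw.2.1 hy.2.1) hz.2.1), hs_wyz.1.trans (add_le_add (add_le_add hw.2.1 hy.2.2.1) hz.2.1), hs_wyz.2.1.trans (add_le_add (add_le_add hw.2.2.1 hy.2.2.2.1) hz.2.2.1), hs_wyz.2.1.trans (add_le_add (add_le_add hw.2.2.1 hy.2.2.2.1) hz.2.2.2.1), hs_wyz.2.2.trans (add_le_add (add_le_add hw.2.2.2 hy.2.2.2.2) hz.2.2.2.2.1), hs_wyz.2.2.trans (add_le_add (add_le_add hw.2.2.2 hy.2.2.2.2) hz.2.2.2.2.2)⟩ m_AB_S2_M13 m_BB_S1_M23).elim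
  · exact (P1_BBB_S2_S2_M13 n1 n2 n3 A1 A2 A3 B1 B2 B3 hb hp ⟨hz.1, hy.1⟩ ⟨hs_ywz.1.trans (add_le_add (add_le_add hy.2.1 hw.2.1) hz.2.1), hs_ywz.1.trans (add_le_add (add_le_add hy.2.1 hw.2.2.1) hz.2.1), hs_ywz.1.trans (add_le_add (add_le_add hy.2.2.1 hw.2.1) hz.2.1), hs_ywz.1.trans (add_le_add (add_le_add hy.2.2.1 hw.2.2.1) hz.2.1), hs_ywz.2.1.trans (add_le_add (add_le_add hy.2.2.2.1 hw.2.2.2.1) hz.2.2.1), hs_ywz.2.1.trans (add_le_add (add_le_add hy.2.2.2.1 hw.2.2.2.1) hz.2.2.2.1), hs_ywz.2.2.trans (add_le_add (add_le_add hy.2.2.2.2 hw.2.2.2.2) hz.2.2.2.2.1), hs_ywz.2.2.trans (add_le_add (add_le_add hy.2.2.2.2 hw.2.2.2.2) hz.2.2.2.2.2)⟩ m_BB_S2_M13).elim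
  · exact (P1_BBB_S2_S3_M13 n1 n2 n3 A1 A2 A3 B1 B2 B3 hb hp ⟨hz.1, hw.1, hy.1⟩ ⟨hs_ywz.1.trans (add_le_add (add_le_add hy.2.1 hw.2.1) hz.2.1), hs_ywz.1.trans (add_le_add (add_le_add hy.2.1 hw.2.2.1) hz.2.1), hs_ywz.1.trans (add_le_add (add_le_add hy.2.2.1 hw.2.1) hz.2.1), hs_ywz.1.trans (add_le_add (add_le_add hy.2.2.1 hw.2.2.1) hz.2.1), hs_ywz.2.1.trans (add_le_add (add_le_add hy.2.2.2.1 hw.2.2.2.1) hz.2.2.1), hs_ywz.2.1.trans (add_le_add (add_le_add hy.2.2.2.1 hw.2.2.2.1) hz.2.2.2.1), hs_ywz.2.1.trans (add_le_add (add_le_add hy.2.2.2.1 hw.2.2.2.2.1) hz.2.2.1), hs_ywz.2.1.trans (add_le_add (add_le_add hy.2.2.2.1 hw.2.2.2.2.1) hz.2.2.2.1), hs_ywz.2.2.trans (add_le_add (add_le_add hy.2.2.2.2 hw.2.2.2.2.2) hz.2.2.2.2.1), hs_ywz.2.2.trans (add_le_add (add_le_add hy.2.2.2.2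 hw.2.2.2.2.2) hz.2.2.2.2.2)⟩ m_BB_S2_M13 m_AB_S2_S3 m_BB_S1_S3).elim
  · exact (P1_BBB_S2_M13_M13 n1 n2 n3 A1 A2 A3 B1 B2 B3 hb hp ⟨hz.1, hy.1⟩ ⟨hs.1.trans (add_le_add (add_le_add hy.2.1 hz.2.1) hw.2.1), hs.1.trans (add_le_add (add_le_add hy.2.2.1 hz.2.1) hw.2.1), hs.2.1.trans (add_le_add (add_le_add hy.2.2.2.1 hz.2.2.1) hw.2.2.1), hs.2.1.trans (add_le_add (add_le_add hy.2.2.2.1 hz.2.2.1) hw.2.2.2.1), hs.2.1.trans (add_le_add (add_le_add hy.2.2.2.1 hz.2.2.2.1) hw.2.2.1), hs.2.1.trans (add_le_add (add_le_add hy.2.2.2.1 hz.2.2.2.1) hw.2.2.2.1), hs.2.2.trans (add_le_add (add_le_add hy.2.2.2.2 hz.2.2.2.2.1) hw.2.2.2.2.1), hs.2.2.trans (add_le_add (add_le_add hy.2.2.2.2 hz.2.2.2.2.1) hw.2.2.2.2.2), hs.2.2.trans (add_le_add (add_le_add hy.2.2.2.2 hz.2.2.2.2.2) hw.2.2.2.2.1),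 hs.2.2.trans (add_le_add (add_le_add hy.2.2.2.2 hz.2.2.2.2.2) hw.2.2.2.2.2)⟩ m_BB_S2_M13).elim
  · exact (P1_BBB_S2_M13_M23 n1 n2 n3 A1 A2 A3 B1 B2 B3 hb hp ⟨hz.1, hw.1, hy.1⟩ ⟨hs.1.trans (add_le_add (add_le_add hy.2.1 hz.2.1) hw.2.1), hs.1.trans (add_le_add (add_le_add hy.2.1 hz.2.1) hw.2.2.1), hs.1.trans (add_le_add (add_le_add hy.2.2.1 hz.2.1) hw.2.1), hs.1.trans (add_le_add (add_le_add hy.2.2.1 hz.2.1) hw.2.2.1), hs.2.1.trans (add_le_add (add_le_add hy.2.2.2.1 hz.2.2.1) hw.2.2.2.1), hs.2.1.trans (add_le_add (add_le_add hy.2.2.2.1 hz.2.2.2.1) hw.2.2.2.1), hs.2.2.trans (add_le_add (add_le_add hy.2.2.2.2 hz.2.2.2.2.1) hw.2.2.2.2.1), hs.2.2.trans (add_le_add (add_le_add hy.2.2.2.2 hz.2.2.2.2.1) hw.2.2.2.2.2), hs.2.2.trans (add_le_add (add_le_add hy.2.2.2.2 hz.2.2.2.2.2)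 hw.2.2.2.2.1), hs.2.2.trans (add_le_add (add_le_add hy.2.2.2.2 hz.2.2.2.2.2) hw.2.2.2.2.2)⟩ m_BB_S2_M13 m_BB_S1_M23).elim
  · exact (P1_BBB_S1_S2_M23 n1 n2 n3 A1 A2 A3 B1 B2 B3 hb hp ⟨hz.1, hw.1, hy.1⟩ ⟨hs_wyz.1.trans (add_le_add (add_le_add hw.2.1 hy.2.1) hz.2.1), hs_wyz.1.trans (add_le_add (add_le_add hw.2.1 hy.2.1) hz.2.2.1), hs_wyz.1.trans (add_le_add (add_le_add hw.2.1 hy.2.2.1) hz.2.1), hs_wyz.1.trans (add_le_add (add_le_add hw.2.1 hy.2.2.1) hz.2.2.1), hs_wyz.2.1.trans (add_le_add (add_le_add hw.2.2.1 hy.2.2.2.1) hz.2.2.2.1), hs_wyz.2.2.trans (add_le_add (add_le_add hw.2.2.2 hy.2.2.2.2) hz.2.2.2.2.1), hs_wyz.2.2.trans (add_le_add (add_le_add hw.2.2.2 hy.2.2.2.2) hz.2.2.2.2.2)⟩ m_BB_S1_M23).elim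
  · exact (P1_BBB_S2_S2_M23 n1 n2 n3 A1 A2 A3 B1 B2 B3 hb hp ⟨hz.1, hy.1⟩ ⟨hs_ywz.1.trans (add_le_add (add_le_add hy.2.1 hw.2.1) hz.2.1), hs_ywz.1.trans (add_le_add (add_le_add hy.2.1 hw.2.1) hz.2.2.1), hs_ywz.1.trans (add_le_add (add_le_add hy.2.1 hw.2.2.1) hz.2.1), hs_ywz.1.trans (add_le_add (add_le_add hy.2.1 hw.2.2.1) hz.2.2.1), hs_ywz.1.trans (add_le_add (add_le_add hy.2.2.1 hw.2.1) hz.2.1), hs_ywz.1.trans (add_le_add (add_le_add hy.2.2.1 hw.2.1) hz.2.2.1), hs_ywz.1.trans (add_le_add (add_le_add hy.2.2.1 hw.2.2.1) hz.2.1), hs_ywz.1.trans (add_le_add (add_le_add hy.2.2.1 hw.2.2.1) hz.2.2.1), hs_ywz.2.1.trans (add_le_add (add_le_add hy.2.2.2.1 hw.2.2.2.1) hz.2.2.2.1), hs_ywz.2.2.trans (add_le_add (add_le_add hy.2.2.2.2 hw.2.2.2.2) hz.2.2.2.2.1), hs_ywz.2.2.trans (add_le_add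 (add_le_add hy.2.2.2.2 hw.2.2.2.2) hz.2.2.2.2.2)⟩ m_BB_S2_M23).elim
  · exact (P1_BBB_S2_S3_M23 n1 n2 n3 A1 A2 A3 B1 B2 B3 hb hp ⟨hz.1, hw.1, hy.1⟩ ⟨hs_ywz.1.trans (add_le_add (add_le_add hy.2.1 hw.2.1) hz.2.1), hs_ywz.1.trans (add_le_add (add_le_add hy.2.1 hw.2.1) hz.2.2.1), hs_ywz.1.trans (add_le_add (add_le_add hy.2.1 hw.2.2.1) hz.2.1), hs_ywz.1.trans (add_le_add (add_le_add hy.2.1 hw.2.2.1) hz.2.2.1), hs_ywz.1.trans (add_le_add (add_le_add hy.2.2.1 hw.2.1) hz.2.1), hs_ywz.1.trans (add_le_add (add_le_add hy.2.2.1 hw.2.1) hz.2.2.1), hs_ywz.1.trans (add_le_add (add_le_add hy.2.2.1 hw.2.2.1) hz.2.1), hs_ywz.1.trans (add_le_add (add_le_add hy.2.2.1 hw.2.2.1) hz.2.2.1), hs_ywz.2.1.trans (add_le_add (add_le_add hy.2.2.2.1 hw.2.2.2.1) hz.2.2.2.1), hs_ywz.2.1.trans (add_le_add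 (add_le_add hy.2.2.2.1 hw.2.2.2.2.1) hz.2.2.2.1), hs_ywz.2.2.trans (add_le_add (add_le_add hy.2.2.2.2 hw.2.2.2.2.2) hz.2.2.2.2.1), hs_ywz.2.2.trans (add_le_add (add_le_add hy.2.2.2.2 hw.2.2.2.2.2) hz.2.2.2.2.2)⟩ m_BB_S2_S3).elim
  · exact (P1_BBB_S2_M13_M23 n1 n2 n3 A1 A2 A3 B1 B2 B3 hb hp ⟨hw.1, hz.1, hy.1⟩ ⟨hs_ywz.1.trans (add_le_add (add_le_add hy.2.1 hw.2.1) hz.2.1), hs_ywz.1.trans (add_le_add (add_le_add hy.2.1 hw.2.1) hz.2.2.1), hs_ywz.1.trans (add_le_add (add_le_add hy.2.2.1 hw.2.1) hz.2.1), hs_ywz.1.trans (add_le_add (add_le_add hy.2.2.1 hw.2.1) hz.2.2.1), hs_ywz.2.1.trans (add_le_add (add_le_add hy.2.2.2.1 hw.2.2.1) hz.2.2.2.1), hs_ywz.2.1.trans (add_le_add (add_le_add hy.2.2.2.1 hw.2.2.2.1) hz.2.2.2.1), hs_ywz.2.2.trans (add_le_add (add_le_add hy.2.2.2.2 hw.2.2.2.2.1)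 hz.2.2.2.2.1), hs_ywz.2.2.trans (add_le_add (add_le_add hy.2.2.2.2 hw.2.2.2.2.1) hz.2.2.2.2.2), hs_ywz.2.2.trans (add_le_add (add_le_add hy.2.2.2.2 hw.2.2.2.2.2) hz.2.2.2.2.1), hs_ywz.2.2.trans (add_le_add (add_le_add hy.2.2.2.2 hw.2.2.2.2.2) hz.2.2.2.2.2)⟩ m_BB_S2_M13 m_BB_S1_M23).elim
  · exact (P1_BBB_S2_M23_M23 n1 n2 n3 A1 A2 A3 B1 B2 B3 hb hp ⟨hz.1, hy.1⟩ ⟨hs.1.trans (add_le_add (add_le_add hy.2.1 hz.2.1) hw.2.1), hs.1.trans (add_le_add (add_le_add hy.2.1 hz.2.1) hw.2.2.1), hs.1.trans (add_le_add (add_le_add hy.2.1 hz.2.2.1) hw.2.1), hs.1.trans (add_le_add (add_le_add hy.2.1 hz.2.2.1) hw.2.2.1), hs.1.trans (add_le_add (add_le_add hy.2.2.1 hz.2.1) hw.2.1), hs.1.trans (add_le_add (add_le_add hy.2.2.1 hz.2.1) hw.2.2.1), hs.1.trans (add_le_add (add_le_add hy.2.2.1 hz.2.2.1)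 hw.2.1), hs.1.trans (add_le_add (add_le_add hy.2.2.1 hz.2.2.1) hw.2.2.1), hs.2.1.trans (add_le_add (add_le_add hy.2.2.2.1 hz.2.2.2.1) hw.2.2.2.1), hs.2.2.trans (add_le_add (add_le_add hy.2.2.2.2 hz.2.2.2.2.1) hw.2.2.2.2.1), hs.2.2.trans (add_le_add (add_le_add hy.2.2.2.2 hz.2.2.2.2.1) hw.2.2.2.2.2), hs.2.2.trans (add_le_add (add_le_add hy.2.2.2.2 hz.2.2.2.2.2) hw.2.2.2.2.1), hs.2.2.trans (add_le_add (add_le_add hy.2.2.2.2 hz.2.2.2.2.2) hw.2.2.2.2.2)⟩ m_BB_S2_M23).elim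
  · exact (P1_BBB_S1_S1_S3 n1 n2 n3 A1 A2 A3 B1 B2 B3 hb hp ⟨hy.1, hz.1⟩ ⟨hs_zwy.1.trans (add_le_add (add_le_add hz.2.1 hw.2.1) hy.2.1), hs_zwy.1.trans (add_le_add (add_le_add hz.2.1 hw.2.1) hy.2.2.1), hs_zwy.2.1.trans (add_le_add (add_le_add hz.2.2.1 hw.2.2.1) hy.2.2.2.1), hs_zwy.2.1.trans (add_le_add (add_le_add hz.2.2.1 hw.2.2.1) hy.2.2.2.2.1), hs_zwy.2.2.trans (add_le_add (add_le_add hz.2.2.2 hw.2.2.2) hy.2.2.2.2.2)⟩ m_BB_S1_M23 m_AB_S1_S3 m_BB_S1_M13).elim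
  · exact (P1_BBB_S1_S2_S3 n1 n2 n3 A1 A2 A3 B1 B2 B3 hb hp ⟨hy.1, hz.1, hw.1⟩ ⟨hs_zwy.1.trans (add_le_add (add_le_add hz.2.1 hw.2.1) hy.2.1), hs_zwy.1.trans (add_le_add (add_le_add hz.2.1 hw.2.1) hy.2.2.1), hs_zwy.1.trans (add_le_add (add_le_add hz.2.1 hw.2.2.1) hy.2.1), hs_zwy.1.trans (add_le_add (add_le_add hz.2.1 hw.2.2.1) hy.2.2.1), hs_zwy.2.1.trans (add_le_add (add_le_add hz.2.2.1 hw.2.2.2.1) hy.2.2.2.1), hs_zwy.2.1.trans (add_le_add (add_le_add hz.2.2.1 hw.2.2.2.1) hy.2.2.2.2.1), hs_zwy.2.2.trans (add_le_add (add_le_add hz.2.2.2 hw.2.2.2.2) hy.2.2.2.2.2)⟩ m_BB_S1_S3 m_BB_S2_M13 m_AB_S1_S3).elim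
  · exact (P1_BBB_S1_S3_S3 n1 n2 n3 A1 A2 A3 B1 B2 B3 hb hp ⟨hy.1, hz.1⟩ ⟨hs_zyw.1.trans (add_le_add (add_le_add hz.2.1 hy.2.1) hw.2.1), hs_zyw.1.trans (add_le_add (add_le_add hz.2.1 hy.2.1) hw.2.2.1), hs_zyw.1.trans (add_le_add (add_le_add hz.2.1 hy.2.2.1) hw.2.1), hs_zyw.1.trans (add_le_add (add_le_add hz.2.1 hy.2.2.1) hw.2.2.1), hs_zyw.2.1.trans (add_le_add (add_le_add hz.2.2.1 hy.2.2.2.1) hw.2.2.2.1), hs_zyw.2.1.trans (add_le_add (add_le_add hz.2.2.1 hy.2.2.2.1) hw.2.2.2.2.1), hs_zyw.2.1.trans (add_le_add (add_le_add hz.2.2.1 hy.2.2.2.2.1) hw.2.2.2.1), hs_zyw.2.1.trans (add_le_add (add_le_add hz.2.2.1 hy.2.2.2.2.1) hw.2.2.2.2.1), hs_zyw.2.2.trans (add_le_add (add_le_add hz.2.2.2 hy.2.2.2.2.2) hw.2.2.2.2.2)⟩ m_BB_S1_S3).elim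
  · exact (P1_BBB_S1_S3_M13 n1 n2 n3 A1 A2 A3 B1 B2 B3 hb hp ⟨hw.1, hy.1, hz.1⟩ ⟨hs_zyw.1.trans (add_le_add (add_le_add hz.2.1 hy.2.1) hw.2.1), hs_zyw.1.trans (add_le_add (add_le_add hz.2.1 hy.2.2.1) hw.2.1), hs_zyw.2.1.trans (add_le_add (add_le_add hz.2.2.1 hy.2.2.2.1) hw.2.2.1), hs_zyw.2.1.trans (add_le_add (add_le_add hz.2.2.1 hy.2.2.2.1) hw.2.2.2.1), hs_zyw.2.1.trans (add_le_add (add_le_add hz.2.2.1 hy.2.2.2.2.1) hw.2.2.1), hs_zyw.2.1.trans (add_le_add (add_le_add hz.2.2.1 hy.2.2.2.2.1) hw.2.2.2.1), hs_zyw.2.2.trans (add_le_add (add_le_add hz.2.2.2 hy.2.2.2.2.2) hw.2.2.2.2.1), hs_zyw.2.2.trans (add_le_add (add_le_add hz.2.2.2 hy.2.2.2.2.2) hw.2.2.2.2.2)⟩ m_BB_S1_S3 m_BB_S2_M13).elim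
  · exact (P1_BBB_S1_S3_M23 n1 n2 n3 A1 A2 A3 B1 B2 B3 hb hp ⟨hw.1, hy.1, hz.1⟩ ⟨hs_zyw.1.trans (add_le_add (add_le_add hz.2.1 hy.2.1) hw.2.1), hs_zyw.1.trans (add_le_add (add_le_add hz.2.1 hy.2.1) hw.2.2.1), hs_zyw.1.trans (add_le_add (add_le_add hz.2.1 hy.2.2.1) hw.2.1), hs_zyw.1.trans (add_le_add (add_le_add hz.2.1 hy.2.2.1) hw.2.2.1), hs_zyw.2.1.trans (add_le_add (add_le_add hz.2.2.1 hy.2.2.2.1) hw.2.2.2.1), hs_zyw.2.1.trans (add_le_add (add_le_add hz.2.2.1 hy.2.2.2.2.1) hw.2.2.2.1), hs_zyw.2.2.trans (add_le_add (add_le_add hz.2.2.2 hy.2.2.2.2.2) hw.2.2.2.2.1), hs_zyw.2.2.trans (add_le_add (add_le_add hz.2.2.2 hy.2.2.2.2.2) hw.2.2.2.2.2)⟩ m_BB_S1_S3).elim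
  · exact (P1_BBB_S1_S2_S3 n1 n2 n3 A1 A2 A3 B1 B2 B3 hb hp ⟨hy.1, hw.1, hz.1⟩ ⟨hs_wzy.1.trans (add_le_add (add_le_add hw.2.1 hz.2.1) hy.2.1), hs_wzy.1.trans (add_le_add (add_le_add hw.2.1 hz.2.1) hy.2.2.1), hs_wzy.1.trans (add_le_add (add_le_add hw.2.1 hz.2.2.1) hy.2.1), hs_wzy.1.trans (add_le_add (add_le_add hw.2.1 hz.2.2.1) hy.2.2.1), hs_wzy.2.1.trans (add_le_add (add_le_add hw.2.2.1 hz.2.2.2.1) hy.2.2.2.1), hs_wzy.2.1.trans (add_le_add (add_le_add hw.2.2.1 hz.2.2.2.1) hy.2.2.2.2.1), hs_wzy.2.2.trans (add_le_add (add_le_add hw.2.2.2 hz.2.2.2.2) hy.2.2.2.2.2)⟩ m_BB_S1_S3 m_BB_S2_M13 m_AB_S1_S3).elim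
  · exact (P1_BBB_S2_S2_S3 n1 n2 n3 A1 A2 A3 B1 B2 B3 hb hp ⟨hy.1, hz.1⟩ ⟨hs_zwy.1.trans (add_le_add (add_le_add hz.2.1 hw.2.1) hy.2.1), hs_zwy.1.trans (add_le_add (add_le_add hz.2.1 hw.2.1) hy.2.2.1), hs_zwy.1.trans (add_le_add (add_le_add hz.2.1 hw.2.2.1) hy.2.1), hs_zwy.1.trans (add_le_add (add_le_add hz.2.1 hw.2.2.1) hy.2.2.1), hs_zwy.1.trans (add_le_add (add_le_add hz.2.2.1 hw.2.1) hy.2.1), hs_zwy.1.trans (add_le_add (add_le_add hz.2.2.1 hw.2.1) hy.2.2.1), hs_zwy.1.trans (add_le_add (add_le_add hz.2.2.1 hw.2.2.1) hy.2.1), hs_zwy.1.trans (add_le_add (add_le_add hz.2.2.1 hw.2.2.1) hy.2.2.1), hs_zwy.2.1.trans (add_le_add (add_le_add hz.2.2.2.1 hw.2.2.2.1) hy.2.2.2.1), hs_zwy.2.1.trans (add_le_add (add_le_add hz.2.2.2.1 hw.2.2.2.1) hy.2.2.2.2.1), hs_zwy.2.2.trans (add_le_add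 (add_le_add hz.2.2.2.2 hw.2.2.2.2) hy.2.2.2.2.2)⟩ m_AB_S2_S3 m_BB_S2_M23).elim
  · exact (P1_BBB_S2_S3_S3 n1 n2 n3 A1 A2 A3 B1 B2 B3 hb hp ⟨hy.1, hz.1⟩ ⟨hs_zyw.1.trans (add_le_add (add_le_add hz.2.1 hy.2.1) hw.2.1), hs_zyw.1.trans (add_le_add (add_le_add hz.2.1 hy.2.1) hw.2.2.1), hs_zyw.1.trans (add_le_add (add_le_add hz.2.1 hy.2.2.1) hw.2.1), hs_zyw.1.trans (add_le_add (add_le_add hz.2.1 hy.2.2.1) hw.2.2.1), hs_zyw.1.trans (add_le_add (add_le_add hz.2.2.1 hy.2.1) hw.2.1), hs_zyw.1.trans (add_le_add (add_le_add hz.2.2.1 hy.2.1) hw.2.2.1), hs_zyw.1.trans (add_le_add (add_le_add hz.2.2.1 hy.2.2.1) hw.2.1), hs_zyw.1.trans (add_le_add (add_le_add hz.2.2.1 hy.2.2.1) hw.2.2.1), hs_zyw.2.1.trans (add_le_add (add_le_add hz.2.2.2.1 hy.2.2.2.1) hw.2.2.2.1), hs_zyw.2.1.trans (add_le_add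 (add_le_add hz.2.2.2.1 hy.2.2.2.1) hw.2.2.2.2.1), hs_zyw.2.1.trans (add_le_add (add_le_add hz.2.2.2.1 hy.2.2.2.2.1) hw.2.2.2.1), hs_zyw.2.1.trans (add_le_add (add_le_add hz.2.2.2.1 hy.2.2.2.2.1) hw.2.2.2.2.1), hs_zyw.2.2.trans (add_le_add (add_le_add hz.2.2.2.2 hy.2.2.2.2.2) hw.2.2.2.2.2)⟩ m_BB_S2_S3).elim
  · exact (P1_BBB_S2_S3_M13 n1 n2 n3 A1 A2 A3 B1 B2 B3 hb hp ⟨hw.1, hy.1, hz.1⟩ ⟨hs_zyw.1.trans (add_le_add (add_le_add hz.2.1 hy.2.1) hw.2.1), hs_zyw.1.trans (add_le_add (add_le_add hz.2.1 hy.2.2.1) hw.2.1), hs_zyw.1.trans (add_le_add (add_le_add hz.2.2.1 hy.2.1) hw.2.1), hs_zyw.1.trans (add_le_add (add_le_add hz.2.2.1 hy.2.2.1) hw.2.1), hs_zyw.2.1.trans (add_le_add (add_le_add hz.2.2.2.1 hy.2.2.2.1) hw.2.2.1), hs_zyw.2.1.trans (add_le_add (add_le_add hz.2.2.2.1 hy.2.2.2.1)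 hw.2.2.2.1), hs_zyw.2.1.trans (add_le_add (add_le_add hz.2.2.2.1 hy.2.2.2.2.1) hw.2.2.1), hs_zyw.2.1.trans (add_le_add (add_le_add hz.2.2.2.1 hy.2.2.2.2.1) hw.2.2.2.1), hs_zyw.2.2.trans (add_le_add (add_le_add hz.2.2.2.2 hy.2.2.2.2.2) hw.2.2.2.2.1), hs_zyw.2.2.trans (add_le_add (add_le_add hz.2.2.2.2 hy.2.2.2.2.2) hw.2.2.2.2.2)⟩ m_BB_S2_M13 m_AB_S2_S3 m_BB_S1_S3).elim
  · exact (P1_BBB_S2_S3_M23 n1 n2 n3 A1 A2 A3 B1 B2 B3 hb hp ⟨hw.1, hy.1, hz.1⟩ ⟨hs_zyw.1.trans (add_le_add (add_le_add hz.2.1 hy.2.1) hw.2.1), hs_zyw.1.trans (add_le_add (add_le_add hz.2.1 hy.2.1) hw.2.2.1), hs_zyw.1.trans (add_le_add (add_le_add hz.2.1 hy.2.2.1) hw.2.1), hs_zyw.1.trans (add_le_add (add_le_add hz.2.1 hy.2.2.1) hw.2.2.1), hs_zyw.1.trans (add_le_add (add_le_add hz.2.2.1 hy.2.1) hw.2.1), hs_zyw.1.trans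 (add_le_add (add_le_add hz.2.2.1 hy.2.1) hw.2.2.1), hs_zyw.1.trans (add_le_add (add_le_add hz.2.2.1 hy.2.2.1) hw.2.1), hs_zyw.1.trans (add_le_add (add_le_add hz.2.2.1 hy.2.2.1) hw.2.2.1), hs_zyw.2.1.trans (add_le_add (add_le_add hz.2.2.2.1 hy.2.2.2.1) hw.2.2.2.1), hs_zyw.2.1.trans (add_le_add (add_le_add hz.2.2.2.1 hy.2.2.2.2.1) hw.2.2.2.1), hs_zyw.2.2.trans (add_le_add (add_le_add hz.2.2.2.2 hy.2.2.2.2.2) hw.2.2.2.2.1), hs_zyw.2.2.trans (add_le_add (add_le_add hz.2.2.2.2 hy.2.2.2.2.2) hw.2.2.2.2.2)⟩ m_BB_S2_S3).elim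
  · exact (P1_BBB_S1_S3_S3 n1 n2 n3 A1 A2 A3 B1 B2 B3 hb hp ⟨hy.1, hw.1⟩ ⟨hs_wyz.1.trans (add_le_add (add_le_add hw.2.1 hy.2.1) hz.2.1), hs_wyz.1.trans (add_le_add (add_le_add hw.2.1 hy.2.1) hz.2.2.1), hs_wyz.1.trans (add_le_add (add_le_add hw.2.1 hy.2.2.1) hz.2.1), hs_wyz.1.trans (add_le_add (add_le_add hw.2.1 hy.2.2.1) hz.2.2.1), hs_wyz.2.1.trans (add_le_add (add_le_add hw.2.2.1 hy.2.2.2.1) hz.2.2.2.1), hs_wyz.2.1.trans (add_le_add (add_le_add hw.2.2.1 hy.2.2.2.1) hz.2.2.2.2.1), hs_wyz.2.1.trans (add_le_add (add_le_add hw.2.2.1 hy.2.2.2.2.1) hz.2.2.2.1), hs_wyz.2.1.trans (add_le_add (add_le_add hw.2.2.1 hy.2.2.2.2.1) hz.2.2.2.2.1), hs_wyz.2.2.trans (add_le_add (add_le_add hw.2.2.2 hy.2.2.2.2.2) hz.2.2.2.2.2)⟩ m_BB_S1_S3).elim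
  · exact (P1_BBB_S2_S3_S3 n1 n2 n3 A1 A2 A3 B1 B2 B3 hb hp ⟨hy.1, hw.1⟩ ⟨hs_wyz.1.trans (add_le_add (add_le_add hw.2.1 hy.2.1) hz.2.1), hs_wyz.1.trans (add_le_add (add_le_add hw.2.1 hy.2.1) hz.2.2.1), hs_wyz.1.trans (add_le_add (add_le_add hw.2.1 hy.2.2.1) hz.2.1), hs_wyz.1.trans (add_le_add (add_le_add hw.2.1 hy.2.2.1) hz.2.2.1), hs_wyz.1.trans (add_le_add (add_le_add hw.2.2.1 hy.2.1) hz.2.1), hs_wyz.1.trans (add_le_add (add_le_add hw.2.2.1 hy.2.1) hz.2.2.1), hs_wyz.1.trans (add_le_add (add_le_add hw.2.2.1 hy.2.2.1) hz.2.1), hs_wyz.1.trans (add_le_add (add_le_add hw.2.2.1 hy.2.2.1) hz.2.2.1), hs_wyz.2.1.trans (add_le_add (add_le_add hw.2.2.2.1 hy.2.2.2.1) hz.2.2.2.1), hs_wyz.2.1.trans (add_le_add (add_le_add hw.2.2.2.1 hy.2.2.2.1) hz.2.2.2.2.1), hs_wyz.2.1.trans (add_le_add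 (add_le_add hw.2.2.2.1 hy.2.2.2.2.1) hz.2.2.2.1), hs_wyz.2.1.trans (add_le_add (add_le_add hw.2.2.2.1 hy.2.2.2.2.1) hz.2.2.2.2.1), hs_wyz.2.2.trans (add_le_add (add_le_add hw.2.2.2.2 hy.2.2.2.2.2) hz.2.2.2.2.2)⟩ m_BB_S2_S3).elim
  · exact (P1_BBB_S3_S3_S3 n1 n2 n3 A1 A2 A3 B1 B2 B3 hb hp hy.1 ⟨hs.1.trans (add_le_add (add_le_add hy.2.1 hz.2.1) hw.2.1), hs.1.trans (add_le_add (add_le_add hy.2.1 hz.2.1) hw.2.2.1), hs.1.trans (add_le_add (add_le_add hy.2.1 hz.2.2.1) hw.2.1), hs.1.trans (add_le_add (add_le_add hy.2.1 hz.2.2.1) hw.2.2.1), hs.1.trans (add_le_add (add_le_add hy.2.2.1 hz.2.1) hw.2.1), hs.1.trans (add_le_add (add_le_add hy.2.2.1 hz.2.1) hw.2.2.1), hs.1.trans (add_le_add (add_le_add hy.2.2.1 hz.2.2.1) hw.2.1), hs.1.trans (add_le_add (add_le_add hy.2.2.1 hz.2.2.1)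 hw.2.2.1), hs.2.1.trans (add_le_add (add_le_add hy.2.2.2.1 hz.2.2.2.1) hw.2.2.2.1), hs.2.1.trans (add_le_add (add_le_add hy.2.2.2.1 hz.2.2.2.1) hw.2.2.2.2.1), hs.2.1.trans (add_le_add (add_le_add hy.2.2.2.1 hz.2.2.2.2.1) hw.2.2.2.1), hs.2.1.trans (add_le_add (add_le_add hy.2.2.2.1 hz.2.2.2.2.1) hw.2.2.2.2.1), hs.2.1.trans (add_le_add (add_le_add hy.2.2.2.2.1 hz.2.2.2.1) hw.2.2.2.1), hs.2.1.trans (add_le_add (add_le_add hy.2.2.2.2.1 hz.2.2.2.1) hw.2.2.2.2.1), hs.2.1.trans (add_le_add (add_le_add hy.2.2.2.2.1 hz.2.2.2.2.1) hw.2.2.2.1), hs.2.1.trans (add_le_add (add_le_add hy.2.2.2.2.1 hz.2.2.2.2.1) hw.2.2.2.2.1), hs.2.2.trans (add_le_add (add_le_add hy.2.2.2.2.2 hz.2.2.2.2.2) hw.2.2.2.2.2)⟩ ).elim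
  · exact (P1_BBB_S3_S3_M13 n1 n2 n3 A1 A2 A3 B1 B2 B3 hb hp ⟨hw.1, hy.1⟩ ⟨hs.1.trans (add_le_add (add_le_add hy.2.1 hz.2.1) hw.2.1), hs.1.trans (add_le_add (add_le_add hy.2.1 hz.2.2.1) hw.2.1), hs.1.trans (add_le_add (add_le_add hy.2.2.1 hz.2.1) hw.2.1), hs.1.trans (add_le_add (add_le_add hy.2.2.1 hz.2.2.1) hw.2.1), hs.2.1.trans (add_le_add (add_le_add hy.2.2.2.1 hz.2.2.2.1) hw.2.2.1), hs.2.1.trans (add_le_add (add_le_add hy.2.2.2.1 hz.2.2.2.1) hw.2.2.2.1), hs.2.1.trans (add_le_add (add_le_add hy.2.2.2.1 hz.2.2.2.2.1) hw.2.2.1), hs.2.1.trans (add_le_add (add_le_add hy.2.2.2.1 hz.2.2.2.2.1) hw.2.2.2.1), hs.2.1.trans (add_le_add (add_le_add hy.2.2.2.2.1 hz.2.2.2.1) hw.2.2.1), hs.2.1.trans (add_le_add (add_le_add hy.2.2.2.2.1 hz.2.2.2.1) hw.2.2.2.1), hs.2.1.trans (add_le_add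 (add_le_add hy.2.2.2.2.1 hz.2.2.2.2.1) hw.2.2.1), hs.2.1.trans (add_le_add (add_le_add hy.2.2.2.2.1 hz.2.2.2.2.1) hw.2.2.2.1), hs.2.2.trans (add_le_add (add_le_add hy.2.2.2.2.2 hz.2.2.2.2.2) hw.2.2.2.2.1), hs.2.2.trans (add_le_add (add_le_add hy.2.2.2.2.2 hz.2.2.2.2.2) hw.2.2.2.2.2)⟩ ).elim
  · exact (P1_BBB_S3_S3_M23 n1 n2 n3 A1 A2 A3 B1 B2 B3 hb hp ⟨hw.1, hy.1⟩ ⟨hs.1.trans (add_le_add (add_le_add hy.2.1 hz.2.1) hw.2.1), hs.1.trans (add_le_add (add_le_add hy.2.1 hz.2.1) hw.2.2.1), hs.1.trans (add_le_add (add_le_add hy.2.1 hz.2.2.1) hw.2.1), hs.1.trans (add_le_add (add_le_add hy.2.1 hz.2.2.1) hw.2.2.1), hs.1.trans (add_le_add (add_le_add hy.2.2.1 hz.2.1) hw.2.1), hs.1.trans (add_le_add (add_le_add hy.2.2.1 hz.2.1) hw.2.2.1), hs.1.trans (add_le_add (add_le_add hy.2.2.1 hz.2.2.1)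 hw.2.1), hs.1.trans (add_le_add (add_le_add hy.2.2.1 hz.2.2.1) hw.2.2.1), hs.2.1.trans (add_le_add (add_le_add hy.2.2.2.1 hz.2.2.2.1) hw.2.2.2.1), hs.2.1.trans (add_le_add (add_le_add hy.2.2.2.1 hz.2.2.2.2.1) hw.2.2.2.1), hs.2.1.trans (add_le_add (add_le_add hy.2.2.2.2.1 hz.2.2.2.1) hw.2.2.2.1), hs.2.1.trans (add_le_add (add_le_add hy.2.2.2.2.1 hz.2.2.2.2.1) hw.2.2.2.1), hs.2.2.trans (add_le_add (add_le_add hy.2.2.2.2.2 hz.2.2.2.2.2) hw.2.2.2.2.1), hs.2.2.trans (add_le_add (add_le_add hy.2.2.2.2.2 hz.2.2.2.2.2) hw.2.2.2.2.2)⟩ ).elim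
  · exact (P1_BBB_S1_S3_M13 n1 n2 n3 A1 A2 A3 B1 B2 B3 hb hp ⟨hz.1, hy.1, hw.1⟩ ⟨hs_wyz.1.trans (add_le_add (add_le_add hw.2.1 hy.2.1) hz.2.1), hs_wyz.1.trans (add_le_add (add_le_add hw.2.1 hy.2.2.1) hz.2.1), hs_wyz.2.1.trans (add_le_add (add_le_add hw.2.2.1 hy.2.2.2.1) hz.2.2.1), hs_wyz.2.1.trans (add_le_add (add_le_add hw.2.2.1 hy.2.2.2.1) hz.2.2.2.1), hs_wyz.2.1.trans (add_le_add (add_le_add hw.2.2.1 hy.2.2.2.2.1) hz.2.2.1), hs_wyz.2.1.trans (add_le_add (add_le_add hw.2.2.1 hy.2.2.2.2.1) hz.2.2.2.1), hs_wyz.2.2.trans (add_le_add (add_le_add hw.2.2.2 hy.2.2.2.2.2) hz.2.2.2.2.1), hs_wyz.2.2.trans (add_le_add (add_le_add hw.2.2.2 hy.2.2.2.2.2) hz.2.2.2.2.2)⟩ m_BB_S1_S3 m_BB_S2_M13).elim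
  · exact (P1_BBB_S2_S3_M13 n1 n2 n3 A1 A2 A3 B1 B2 B3 hb hp ⟨hz.1, hy.1, hw.1⟩ ⟨hs_wyz.1.trans (add_le_add (add_le_add hw.2.1 hy.2.1) hz.2.1), hs_wyz.1.trans (add_le_add (add_le_add hw.2.1 hy.2.2.1) hz.2.1), hs_wyz.1.trans (add_le_add (add_le_add hw.2.2.1 hy.2.1) hz.2.1), hs_wyz.1.trans (add_le_add (add_le_add hw.2.2.1 hy.2.2.1) hz.2.1), hs_wyz.2.1.trans (add_le_add (add_le_add hw.2.2.2.1 hy.2.2.2.1) hz.2.2.1), hs_wyz.2.1.trans (add_le_add (add_le_add hw.2.2.2.1 hy.2.2.2.1) hz.2.2.2.1), hs_wyz.2.1.trans (add_le_add (add_le_add hw.2.2.2.1 hy.2.2.2.2.1) hz.2.2.1), hs_wyz.2.1.trans (add_le_add (add_le_add hw.2.2.2.1 hy.2.2.2.2.1) hz.2.2.2.1), hs_wyz.2.2.trans (add_le_add (add_le_add hw.2.2.2.2 hy.2.2.2.2.2) hz.2.2.2.2.1), hs_wyz.2.2.trans (add_le_add (add_le_add hw.2.2.2.2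 hy.2.2.2.2.2) hz.2.2.2.2.2)⟩ m_BB_S2_M13 m_AB_S2_S3 m_BB_S1_S3).elim
  · exact (P1_BBB_S3_S3_M13 n1 n2 n3 A1 A2 A3 B1 B2 B3 hb hp ⟨hz.1, hy.1⟩ ⟨hs_ywz.1.trans (add_le_add (add_le_add hy.2.1 hw.2.1) hz.2.1), hs_ywz.1.trans (add_le_add (add_le_add hy.2.1 hw.2.2.1) hz.2.1), hs_ywz.1.trans (add_le_add (add_le_add hy.2.2.1 hw.2.1) hz.2.1), hs_ywz.1.trans (add_le_add (add_le_add hy.2.2.1 hw.2.2.1) hz.2.1), hs_ywz.2.1.trans (add_le_add (add_le_add hy.2.2.2.1 hw.2.2.2.1) hz.2.2.1), hs_ywz.2.1.trans (add_le_add (add_le_add hy.2.2.2.1 hw.2.2.2.1) hz.2.2.2.1), hs_ywz.2.1.trans (add_le_add (add_le_add hy.2.2.2.1 hw.2.2.2.2.1) hz.2.2.1), hs_ywz.2.1.trans (add_le_add (add_le_add hy.2.2.2.1 hw.2.2.2.2.1) hz.2.2.2.1), hs_ywz.2.1.trans (add_le_add (add_le_add hy.2.2.2.2.1 hw.2.2.2.1) hz.2.2.1),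 hs_ywz.2.1.trans (add_le_add (add_le_add hy.2.2.2.2.1 hw.2.2.2.1) hz.2.2.2.1), hs_ywz.2.1.trans (add_le_add (add_le_add hy.2.2.2.2.1 hw.2.2.2.2.1) hz.2.2.1), hs_ywz.2.1.trans (add_le_add (add_le_add hy.2.2.2.2.1 hw.2.2.2.2.1) hz.2.2.2.1), hs_ywz.2.2.trans (add_le_add (add_le_add hy.2.2.2.2.2 hw.2.2.2.2.2) hz.2.2.2.2.1), hs_ywz.2.2.trans (add_le_add (add_le_add hy.2.2.2.2.2 hw.2.2.2.2.2) hz.2.2.2.2.2)⟩ ).elim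
  · exact (P1_BBB_S3_M13_M13 n1 n2 n3 A1 A2 A3 B1 B2 B3 hb hp ⟨hz.1, hy.1⟩ ⟨hs.1.trans (add_le_add (add_le_add hy.2.1 hz.2.1) hw.2.1), hs.1.trans (add_le_add (add_le_add hy.2.2.1 hz.2.1) hw.2.1), hs.2.1.trans (add_le_add (add_le_add hy.2.2.2.1 hz.2.2.1) hw.2.2.1), hs.2.1.trans (add_le_add (add_le_add hy.2.2.2.1 hz.2.2.1) hw.2.2.2.1), hs.2.1.trans (add_le_add (add_le_add hy.2.2.2.1 hz.2.2.2.1) hw.2.2.1), hs.2.1.trans (add_le_add (add_le_add hy.2.2.2.1 hz.2.2.2.1) hw.2.2.2.1), hs.2.1.trans (add_le_add (add_le_add hy.2.2.2.2.1 hz.2.2.1) hw.2.2.1), hs.2.1.trans (add_le_add (add_le_add hy.2.2.2.2.1 hz.2.2.1) hw.2.2.2.1), hs.2.1.trans (add_le_add (add_le_add hy.2.2.2.2.1 hz.2.2.2.1) hw.2.2.1), hs.2.1.trans (add_le_add (add_le_add hy.2.2.2.2.1 hz.2.2.2.1) hw.2.2.2.1), hs.2.2.trans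 (add_le_add (add_le_add hy.2.2.2.2.2 hz.2.2.2.2.1) hw.2.2.2.2.1), hs.2.2.trans (add_le_add (add_le_add hy.2.2.2.2.2 hz.2.2.2.2.1) hw.2.2.2.2.2), hs.2.2.trans (add_le_add (add_le_add hy.2.2.2.2.2 hz.2.2.2.2.2) hw.2.2.2.2.1), hs.2.2.trans (add_le_add (add_le_add hy.2.2.2.2.2 hz.2.2.2.2.2) hw.2.2.2.2.2)⟩ ).elim
  · exact (P1_BBB_S3_M13_M23 n1 n2 n3 A1 A2 A3 B1 B2 B3 hb hp ⟨hz.1, hw.1, hy.1⟩ ⟨hs.1.trans (add_le_add (add_le_add hy.2.1 hz.2.1) hw.2.1), hs.1.trans (add_le_add (add_le_add hy.2.1 hz.2.1) hw.2.2.1), hs.1.trans (add_le_add (add_le_add hy.2.2.1 hz.2.1) hw.2.1), hs.1.trans (add_le_add (add_le_add hy.2.2.1 hz.2.1) hw.2.2.1), hs.2.1.trans (add_le_add (add_le_add hy.2.2.2.1 hz.2.2.1) hw.2.2.2.1), hs.2.1.trans (add_le_add (add_le_add hy.2.2.2.1 hz.2.2.2.1) hw.2.2.2.1),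 hs.2.1.trans (add_le_add (add_le_add hy.2.2.2.2.1 hz.2.2.1) hw.2.2.2.1), hs.2.1.trans (add_le_add (add_le_add hy.2.2.2.2.1 hz.2.2.2.1) hw.2.2.2.1), hs.2.2.trans (add_le_add (add_le_add hy.2.2.2.2.2 hz.2.2.2.2.1) hw.2.2.2.2.1), hs.2.2.trans (add_le_add (add_le_add hy.2.2.2.2.2 hz.2.2.2.2.1) hw.2.2.2.2.2), hs.2.2.trans (add_le_add (add_le_add hy.2.2.2.2.2 hz.2.2.2.2.2) hw.2.2.2.2.1), hs.2.2.trans (add_le_add (add_le_add hy.2.2.2.2.2 hz.2.2.2.2.2) hw.2.2.2.2.2)⟩ ).elim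
  · exact (P1_BBB_S1_S3_M23 n1 n2 n3 A1 A2 A3 B1 B2 B3 hb hp ⟨hz.1, hy.1, hw.1⟩ ⟨hs_wyz.1.trans (add_le_add (add_le_add hw.2.1 hy.2.1) hz.2.1), hs_wyz.1.trans (add_le_add (add_le_add hw.2.1 hy.2.1) hz.2.2.1), hs_wyz.1.trans (add_le_add (add_le_add hw.2.1 hy.2.2.1) hz.2.1), hs_wyz.1.trans (add_le_add (add_le_add hw.2.1 hy.2.2.1) hz.2.2.1), hs_wyz.2.1.trans (add_le_add (add_le_add hw.2.2.1 hy.2.2.2.1) hz.2.2.2.1), hs_wyz.2.1.trans (add_le_add (add_le_add hw.2.2.1 hy.2.2.2.2.1) hz.2.2.2.1), hs_wyz.2.2.trans (add_le_add (add_le_add hw.2.2.2 hy.2.2.2.2.2) hz.2.2.2.2.1), hs_wyz.2.2.trans (add_le_add (add_le_add hw.2.2.2 hy.2.2.2.2.2) hz.2.2.2.2.2)⟩ m_BB_S1_S3).elim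
  · exact (P1_BBB_S2_S3_M23 n1 n2 n3 A1 A2 A3 B1 B2 B3 hb hp ⟨hz.1, hy.1, hw.1⟩ ⟨hs_wyz.1.trans (add_le_add (add_le_add hw.2.1 hy.2.1) hz.2.1), hs_wyz.1.trans (add_le_add (add_le_add hw.2.1 hy.2.1) hz.2.2.1), hs_wyz.1.trans (add_le_add (add_le_add hw.2.1 hy.2.2.1) hz.2.1), hs_wyz.1.trans (add_le_add (add_le_add hw.2.1 hy.2.2.1) hz.2.2.1), hs_wyz.1.trans (add_le_add (add_le_add hw.2.2.1 hy.2.1) hz.2.1), hs_wyz.1.trans (add_le_add (add_le_add hw.2.2.1 hy.2.1) hz.2.2.1), hs_wyz.1.trans (add_le_add (add_le_add hw.2.2.1 hy.2.2.1) hz.2.1), hs_wyz.1.trans (add_le_add (add_le_add hw.2.2.1 hy.2.2.1) hz.2.2.1), hs_wyz.2.1.trans (add_le_add (add_le_add hw.2.2.2.1 hy.2.2.2.1) hz.2.2.2.1), hs_wyz.2.1.trans (add_le_add (add_le_add hw.2.2.2.1 hy.2.2.2.2.1) hz.2.2.2.1), hs_wyz.2.2.trans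 (add_le_add (add_le_add hw.2.2.2.2 hy.2.2.2.2.2) hz.2.2.2.2.1), hs_wyz.2.2.trans (add_le_add (add_le_add hw.2.2.2.2 hy.2.2.2.2.2) hz.2.2.2.2.2)⟩ m_BB_S2_S3).elim
  · exact (P1_BBB_S3_S3_M23 n1 n2 n3 A1 A2 A3 B1 B2 B3 hb hp ⟨hz.1, hy.1⟩ ⟨hs_ywz.1.trans (add_le_add (add_le_add hy.2.1 hw.2.1) hz.2.1), hs_ywz.1.trans (add_le_add (add_le_add hy.2.1 hw.2.1) hz.2.2.1), hs_ywz.1.trans (add_le_add (add_le_add hy.2.1 hw.2.2.1) hz.2.1), hs_ywz.1.trans (add_le_add (add_le_add hy.2.1 hw.2.2.1) hz.2.2.1), hs_ywz.1.trans (add_le_add (add_le_add hy.2.2.1 hw.2.1) hz.2.1), hs_ywz.1.trans (add_le_add (add_le_add hy.2.2.1 hw.2.1) hz.2.2.1), hs_ywz.1.trans (add_le_add (add_le_add hy.2.2.1 hw.2.2.1) hz.2.1), hs_ywz.1.trans (add_le_add (add_le_add hy.2.2.1 hw.2.2.1) hz.2.2.1), hs_ywz.2.1.trans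 (add_le_add (add_le_add hy.2.2.2.1 hw.2.2.2.1) hz.2.2.2.1), hs_ywz.2.1.trans (add_le_add (add_le_add hy.2.2.2.1 hw.2.2.2.2.1) hz.2.2.2.1), hs_ywz.2.1.trans (add_le_add (add_le_add hy.2.2.2.2.1 hw.2.2.2.1) hz.2.2.2.1), hs_ywz.2.1.trans (add_le_add (add_le_add hy.2.2.2.2.1 hw.2.2.2.2.1) hz.2.2.2.1), hs_ywz.2.2.trans (add_le_add (add_le_add hy.2.2.2.2.2 hw.2.2.2.2.2) hz.2.2.2.2.1), hs_ywz.2.2.trans (add_le_add (add_le_add hy.2.2.2.2.2 hw.2.2.2.2.2) hz.2.2.2.2.2)⟩ ).elim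
  · exact (P1_BBB_S3_M13_M23 n1 n2 n3 A1 A2 A3 B1 B2 B3 hb hp ⟨hw.1, hz.1, hy.1⟩ ⟨hs_ywz.1.trans (add_le_add (add_le_add hy.2.1 hw.2.1) hz.2.1), hs_ywz.1.trans (add_le_add (add_le_add hy.2.1 hw.2.1) hz.2.2.1), hs_ywz.1.trans (add_le_add (add_le_add hy.2.2.1 hw.2.1) hz.2.1), hs_ywz.1.trans (add_le_add (add_le_add hy.2.2.1 hw.2.1) hz.2.2.1), hs_ywz.2.1.trans (add_le_add (add_le_add hy.2.2.2.1 hw.2.2.1) hz.2.2.2.1), hs_ywz.2.1.trans (add_le_add (add_le_add hy.2.2.2.1 hw.2.2.2.1) hz.2.2.2.1), hs_ywz.2.1.trans (add_le_add (add_le_add hy.2.2.2.2.1 hw.2.2.1) hz.2.2.2.1), hs_ywz.2.1.trans (add_le_add (add_le_add hy.2.2.2.2.1 hw.2.2.2.1) hz.2.2.2.1), hs_ywz.2.2.trans (add_le_add (add_le_add hy.2.2.2.2.2 hw.2.2.2.2.1) hz.2.2.2.2.1), hs_ywz.2.2.trans (add_le_add (add_le_add hy.2.2.2.2.2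 hw.2.2.2.2.1) hz.2.2.2.2.2), hs_ywz.2.2.trans (add_le_add (add_le_add hy.2.2.2.2.2 hw.2.2.2.2.2) hz.2.2.2.2.1), hs_ywz.2.2.trans (add_le_add (add_le_add hy.2.2.2.2.2 hw.2.2.2.2.2) hz.2.2.2.2.2)⟩ ).elim
  · exact (P1_BBB_S3_M23_M23 n1 n2 n3 A1 A2 A3 B1 B2 B3 hb hp ⟨hz.1, hy.1⟩ ⟨hs.1.trans (add_le_add (add_le_add hy.2.1 hz.2.1) hw.2.1), hs.1.trans (add_le_add (add_le_add hy.2.1 hz.2.1) hw.2.2.1), hs.1.trans (add_le_add (add_le_add hy.2.1 hz.2.2.1) hw.2.1), hs.1.trans (add_le_add (add_le_add hy.2.1 hz.2.2.1) hw.2.2.1), hs.1.trans (add_le_add (add_le_add hy.2.2.1 hz.2.1) hw.2.1), hs.1.trans (add_le_add (add_le_add hy.2.2.1 hz.2.1) hw.2.2.1), hs.1.trans (add_le_add (add_le_add hy.2.2.1 hz.2.2.1) hw.2.1), hs.1.trans (add_le_add (add_le_add hy.2.2.1 hz.2.2.1) hw.2.2.1), hs.2.1.trans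 (add_le_add (add_le_add hy.2.2.2.1 hz.2.2.2.1) hw.2.2.2.1), hs.2.1.trans (add_le_add (add_le_add hy.2.2.2.2.1 hz.2.2.2.1) hw.2.2.2.1), hs.2.2.trans (add_le_add (add_le_add hy.2.2.2.2.2 hz.2.2.2.2.1) hw.2.2.2.2.1), hs.2.2.trans (add_le_add (add_le_add hy.2.2.2.2.2 hz.2.2.2.2.1) hw.2.2.2.2.2), hs.2.2.trans (add_le_add (add_le_add hy.2.2.2.2.2 hz.2.2.2.2.2) hw.2.2.2.2.1), hs.2.2.trans (add_le_add (add_le_add hy.2.2.2.2.2 hz.2.2.2.2.2) hw.2.2.2.2.2)⟩ ).elim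
  · exact (P1_BBB_S1_S1_M13 n1 n2 n3 A1 A2 A3 B1 B2 B3 hb hp ⟨hy.1, hz.1⟩ ⟨hs_zwy.1.trans (add_le_add (add_le_add hz.2.1 hw.2.1) hy.2.1), hs_zwy.2.1.trans (add_le_add (add_le_add hz.2.2.1 hw.2.2.1) hy.2.2.1), hs_zwy.2.1.trans (add_le_add (add_le_add hz.2.2.1 hw.2.2.1) hy.2.2.2.1), hs_zwy.2.2.trans (add_le_add (add_le_add hz.2.2.2 hw.2.2.2) hy.2.2.2.2.1), hs_zwy.2.2.trans (add_le_add (add_le_add hz.2.2.2 hw.2.2.2) hy.2.2.2.2.2)⟩ m_BB_S1_M13).elim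
  · exact (P1_BBB_S1_S2_M13 n1 n2 n3 A1 A2 A3 B1 B2 B3 hb hp ⟨hy.1, hz.1, hw.1⟩ ⟨hs_zwy.1.trans (add_le_add (add_le_add hz.2.1 hw.2.1) hy.2.1), hs_zwy.1.trans (add_le_add (add_le_add hz.2.1 hw.2.2.1) hy.2.1), hs_zwy.2.1.trans (add_le_add (add_le_add hz.2.2.1 hw.2.2.2.1) hy.2.2.1), hs_zwy.2.1.trans (add_le_add (add_le_add hz.2.2.1 hw.2.2.2.1) hy.2.2.2.1), hs_zwy.2.2.trans (add_le_add (add_le_add hz.2.2.2 hw.2.2.2.2) hy.2.2.2.2.1), hs_zwy.2.2.trans (add_le_add (add_le_add hz.2.2.2 hw.2.2.2.2) hy.2.2.2.2.2)⟩ m_AB_S2_M13 m_BB_S1_M23).elim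
  · exact (P1_BBB_S1_S3_M13 n1 n2 n3 A1 A2 A3 B1 B2 B3 hb hp ⟨hy.1, hw.1, hz.1⟩ ⟨hs_zwy.1.trans (add_le_add (add_le_add hz.2.1 hw.2.1) hy.2.1), hs_zwy.1.trans (add_le_add (add_le_add hz.2.1 hw.2.2.1) hy.2.1), hs_zwy.2.1.trans (add_le_add (add_le_add hz.2.2.1 hw.2.2.2.1) hy.2.2.1), hs_zwy.2.1.trans (add_le_add (add_le_add hz.2.2.1 hw.2.2.2.1) hy.2.2.2.1), hs_zwy.2.1.trans (add_le_add (add_le_add hz.2.2.1 hw.2.2.2.2.1) hy.2.2.1), hs_zwy.2.1.trans (add_le_add (add_le_add hz.2.2.1 hw.2.2.2.2.1) hy.2.2.2.1), hs_zwy.2.2.trans (add_le_add (add_le_add hz.2.2.2 hw.2.2.2.2.2) hy.2.2.2.2.1), hs_zwy.2.2.trans (add_le_add (add_le_add hz.2.2.2 hw.2.2.2.2.2) hy.2.2.2.2.2)⟩ m_BB_S1_S3 m_BB_S2_M13).elim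
  · exact (P1_BBB_S1_M13_M13 n1 n2 n3 A1 A2 A3 B1 B2 B3 hb hp ⟨hy.1, hz.1⟩ ⟨hs_zyw.1.trans (add_le_add (add_le_add hz.2.1 hy.2.1) hw.2.1), hs_zyw.2.1.trans (add_le_add (add_le_add hz.2.2.1 hy.2.2.1) hw.2.2.1), hs_zyw.2.1.trans (add_le_add (add_le_add hz.2.2.1 hy.2.2.1) hw.2.2.2.1), hs_zyw.2.1.trans (add_le_add (add_le_add hz.2.2.1 hy.2.2.2.1) hw.2.2.1), hs_zyw.2.1.trans (add_le_add (add_le_add hz.2.2.1 hy.2.2.2.1) hw.2.2.2.1), hs_zyw.2.2.trans (add_le_add (add_le_add hz.2.2.2 hy.2.2.2.2.1) hw.2.2.2.2.1), hs_zyw.2.2.trans (add_le_add (add_le_add hz.2.2.2 hy.2.2.2.2.1) hw.2.2.2.2.2), hs_zyw.2.2.trans (add_le_add (add_le_add hz.2.2.2 hy.2.2.2.2.2) hw.2.2.2.2.1), hs_zyw.2.2.trans (add_le_add (add_le_add hz.2.2.2 hy.2.2.2.2.2) hw.2.2.2.2.2)⟩ m_BB_S1_M13).elim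
  · exact (P1_BBB_S1_M13_M23 n1 n2 n3 A1 A2 A3 B1 B2 B3 hb hp ⟨hy.1, hw.1, hz.1⟩ ⟨hs_zyw.1.trans (add_le_add (add_le_add hz.2.1 hy.2.1) hw.2.1), hs_zyw.1.trans (add_le_add (add_le_add hz.2.1 hy.2.1) hw.2.2.1), hs_zyw.2.1.trans (add_le_add (add_le_add hz.2.2.1 hy.2.2.1) hw.2.2.2.1), hs_zyw.2.1.trans (add_le_add (add_le_add hz.2.2.1 hy.2.2.2.1) hw.2.2.2.1), hs_zyw.2.2.trans (add_le_add (add_le_add hz.2.2.2 hy.2.2.2.2.1) hw.2.2.2.2.1), hs_zyw.2.2.trans (add_le_add (add_le_add hz.2.2.2 hy.2.2.2.2.1) hw.2.2.2.2.2), hs_zyw.2.2.trans (add_le_add (add_le_add hz.2.2.2 hy.2.2.2.2.2) hw.2.2.2.2.1), hs_zyw.2.2.trans (add_le_add (add_le_add hz.2.2.2 hy.2.2.2.2.2) hw.2.2.2.2.2)⟩ m_BB_S1_M23 m_BB_S2_M13).elim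
  · exact (P1_BBB_S1_S2_M13 n1 n2 n3 A1 A2 A3 B1 B2 B3 hb hp ⟨hy.1, hw.1, hz.1⟩ ⟨hs_wzy.1.trans (add_le_add (add_le_add hw.2.1 hz.2.1) hy.2.1), hs_wzy.1.trans (add_le_add (add_le_add hw.2.1 hz.2.2.1) hy.2.1), hs_wzy.2.1.trans (add_le_add (add_le_add hw.2.2.1 hz.2.2.2.1) hy.2.2.1), hs_wzy.2.1.trans (add_le_add (add_le_add hw.2.2.1 hz.2.2.2.1) hy.2.2.2.1), hs_wzy.2.2.trans (add_le_add (add_le_add hw.2.2.2 hz.2.2.2.2) hy.2.2.2.2.1), hs_wzy.2.2.trans (add_le_add (add_le_add hw.2.2.2 hz.2.2.2.2) hy.2.2.2.2.2)⟩ m_AB_S2_M13 m_BB_S1_M23).elim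
  · exact (P1_BBB_S2_S2_M13 n1 n2 n3 A1 A2 A3 B1 B2 B3 hb hp ⟨hy.1, hz.1⟩ ⟨hs_zwy.1.trans (add_le_add (add_le_add hz.2.1 hw.2.1) hy.2.1), hs_zwy.1.trans (add_le_add (add_le_add hz.2.1 hw.2.2.1) hy.2.1), hs_zwy.1.trans (add_le_add (add_le_add hz.2.2.1 hw.2.1) hy.2.1), hs_zwy.1.trans (add_le_add (add_le_add hz.2.2.1 hw.2.2.1) hy.2.1), hs_zwy.2.1.trans (add_le_add (add_le_add hz.2.2.2.1 hw.2.2.2.1) hy.2.2.1), hs_zwy.2.1.trans (add_le_add (add_le_add hz.2.2.2.1 hw.2.2.2.1) hy.2.2.2.1), hs_zwy.2.2.trans (add_le_add (add_le_add hz.2.2.2.2 hw.2.2.2.2) hy.2.2.2.2.1), hs_zwy.2.2.trans (add_le_add (add_le_add hz.2.2.2.2 hw.2.2.2.2) hy.2.2.2.2.2)⟩ m_BB_S2_M13).elim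
  · exact (P1_BBB_S2_S3_M13 n1 n2 n3 A1 A2 A3 B1 B2 B3 hb hp ⟨hy.1, hw.1, hz.1⟩ ⟨hs_zwy.1.trans (add_le_add (add_le_add hz.2.1 hw.2.1) hy.2.1), hs_zwy.1.trans (add_le_add (add_le_add hz.2.1 hw.2.2.1) hy.2.1), hs_zwy.1.trans (add_le_add (add_le_add hz.2.2.1 hw.2.1) hy.2.1), hs_zwy.1.trans (add_le_add (add_le_add hz.2.2.1 hw.2.2.1) hy.2.1), hs_zwy.2.1.trans (add_le_add (add_le_add hz.2.2.2.1 hw.2.2.2.1) hy.2.2.1), hs_zwy.2.1.trans (add_le_add (add_le_add hz.2.2.2.1 hw.2.2.2.1) hy.2.2.2.1), hs_zwy.2.1.trans (add_le_add (add_le_add hz.2.2.2.1 hw.2.2.2.2.1) hy.2.2.1), hs_zwy.2.1.trans (add_le_add (add_le_add hz.2.2.2.1 hw.2.2.2.2.1) hy.2.2.2.1), hs_zwy.2.2.trans (add_le_add (add_le_add hz.2.2.2.2 hw.2.2.2.2.2) hy.2.2.2.2.1), hs_zwy.2.2.trans (add_le_add (add_le_add hz.2.2.2.2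 hw.2.2.2.2.2) hy.2.2.2.2.2)⟩ m_BB_S2_M13 m_AB_S2_S3 m_BB_S1_S3).elim
  · exact (P1_BBB_S2_M13_M13 n1 n2 n3 A1 A2 A3 B1 B2 B3 hb hp ⟨hy.1, hz.1⟩ ⟨hs_zyw.1.trans (add_le_add (add_le_add hz.2.1 hy.2.1) hw.2.1), hs_zyw.1.trans (add_le_add (add_le_add hz.2.2.1 hy.2.1) hw.2.1), hs_zyw.2.1.trans (add_le_add (add_le_add hz.2.2.2.1 hy.2.2.1) hw.2.2.1), hs_zyw.2.1.trans (add_le_add (add_le_add hz.2.2.2.1 hy.2.2.1) hw.2.2.2.1), hs_zyw.2.1.trans (add_le_add (add_le_add hz.2.2.2.1 hy.2.2.2.1) hw.2.2.1), hs_zyw.2.1.trans (add_le_add (add_le_add hz.2.2.2.1 hy.2.2.2.1) hw.2.2.2.1), hs_zyw.2.2.trans (add_le_add (add_le_add hz.2.2.2.2 hy.2.2.2.2.1) hw.2.2.2.2.1), hs_zyw.2.2.trans (add_le_add (add_le_add hz.2.2.2.2 hy.2.2.2.2.1) hw.2.2.2.2.2), hs_zyw.2.2.trans (add_le_add (add_le_add hz.2.2.2.2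 hy.2.2.2.2.2) hw.2.2.2.2.1), hs_zyw.2.2.trans (add_le_add (add_le_add hz.2.2.2.2 hy.2.2.2.2.2) hw.2.2.2.2.2)⟩ m_BB_S2_M13).elim
  · exact (P1_BBB_S2_M13_M23 n1 n2 n3 A1 A2 A3 B1 B2 B3 hb hp ⟨hy.1, hw.1, hz.1⟩ ⟨hs_zyw.1.trans (add_le_add (add_le_add hz.2.1 hy.2.1) hw.2.1), hs_zyw.1.trans (add_le_add (add_le_add hz.2.1 hy.2.1) hw.2.2.1), hs_zyw.1.trans (add_le_add (add_le_add hz.2.2.1 hy.2.1) hw.2.1), hs_zyw.1.trans (add_le_add (add_le_add hz.2.2.1 hy.2.1) hw.2.2.1), hs_zyw.2.1.trans (add_le_add (add_le_add hz.2.2.2.1 hy.2.2.1) hw.2.2.2.1), hs_zyw.2.1.trans (add_le_add (add_le_add hz.2.2.2.1 hy.2.2.2.1) hw.2.2.2.1), hs_zyw.2.2.trans (add_le_add (add_le_add hz.2.2.2.2 hy.2.2.2.2.1) hw.2.2.2.2.1), hs_zyw.2.2.trans (add_le_add (add_le_add hz.2.2.2.2 hy.2.2.2.2.1) hw.2.2.2.2.2),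 hs_zyw.2.2.trans (add_le_add (add_le_add hz.2.2.2.2 hy.2.2.2.2.2) hw.2.2.2.2.1), hs_zyw.2.2.trans (add_le_add (add_le_add hz.2.2.2.2 hy.2.2.2.2.2) hw.2.2.2.2.2)⟩ m_BB_S2_M13 m_BB_S1_M23).elim
  · exact (P1_BBB_S1_S3_M13 n1 n2 n3 A1 A2 A3 B1 B2 B3 hb hp ⟨hy.1, hz.1, hw.1⟩ ⟨hs_wzy.1.trans (add_le_add (add_le_add hw.2.1 hz.2.1) hy.2.1), hs_wzy.1.trans (add_le_add (add_le_add hw.2.1 hz.2.2.1) hy.2.1), hs_wzy.2.1.trans (add_le_add (add_le_add hw.2.2.1 hz.2.2.2.1) hy.2.2.1), hs_wzy.2.1.trans (add_le_add (add_le_add hw.2.2.1 hz.2.2.2.1) hy.2.2.2.1), hs_wzy.2.1.trans (add_le_add (add_le_add hw.2.2.1 hz.2.2.2.2.1) hy.2.2.1), hs_wzy.2.1.trans (add_le_add (add_le_add hw.2.2.1 hz.2.2.2.2.1) hy.2.2.2.1), hs_wzy.2.2.trans (add_le_add (add_le_add hw.2.2.2 hz.2.2.2.2.2) hy.2.2.2.2.1),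 hs_wzy.2.2.trans (add_le_add (add_le_add hw.2.2.2 hz.2.2.2.2.2) hy.2.2.2.2.2)⟩ m_BB_S1_S3 m_BB_S2_M13).elim
  · exact (P1_BBB_S2_S3_M13 n1 n2 n3 A1 A2 A3 B1 B2 B3 hb hp ⟨hy.1, hz.1, hw.1⟩ ⟨hs_wzy.1.trans (add_le_add (add_le_add hw.2.1 hz.2.1) hy.2.1), hs_wzy.1.trans (add_le_add (add_le_add hw.2.1 hz.2.2.1) hy.2.1), hs_wzy.1.trans (add_le_add (add_le_add hw.2.2.1 hz.2.1) hy.2.1), hs_wzy.1.trans (add_le_add (add_le_add hw.2.2.1 hz.2.2.1) hy.2.1), hs_wzy.2.1.trans (add_le_add (add_le_add hw.2.2.2.1 hz.2.2.2.1) hy.2.2.1), hs_wzy.2.1.trans (add_le_add (add_le_add hw.2.2.2.1 hz.2.2.2.1) hy.2.2.2.1), hs_wzy.2.1.trans (add_le_add (add_le_add hw.2.2.2.1 hz.2.2.2.2.1) hy.2.2.1), hs_wzy.2.1.trans (add_le_add (add_le_add hw.2.2.2.1 hz.2.2.2.2.1) hy.2.2.2.1), hs_wzy.2.2.trans (add_le_add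 (add_le_add hw.2.2.2.2 hz.2.2.2.2.2) hy.2.2.2.2.1), hs_wzy.2.2.trans (add_le_add (add_le_add hw.2.2.2.2 hz.2.2.2.2.2) hy.2.2.2.2.2)⟩ m_BB_S2_M13 m_AB_S2_S3 m_BB_S1_S3).elim
  · exact (P1_BBB_S3_S3_M13 n1 n2 n3 A1 A2 A3 B1 B2 B3 hb hp ⟨hy.1, hz.1⟩ ⟨hs_zwy.1.trans (add_le_add (add_le_add hz.2.1 hw.2.1) hy.2.1), hs_zwy.1.trans (add_le_add (add_le_add hz.2.1 hw.2.2.1) hy.2.1), hs_zwy.1.trans (add_le_add (add_le_add hz.2.2.1 hw.2.1) hy.2.1), hs_zwy.1.trans (add_le_add (add_le_add hz.2.2.1 hw.2.2.1) hy.2.1), hs_zwy.2.1.trans (add_le_add (add_le_add hz.2.2.2.1 hw.2.2.2.1) hy.2.2.1), hs_zwy.2.1.trans (add_le_add (add_le_add hz.2.2.2.1 hw.2.2.2.1) hy.2.2.2.1), hs_zwy.2.1.trans (add_le_add (add_le_add hz.2.2.2.1 hw.2.2.2.2.1) hy.2.2.1), hs_zwy.2.1.trans (add_le_add (add_le_add hz.2.2.2.1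 hw.2.2.2.2.1) hy.2.2.2.1), hs_zwy.2.1.trans (add_le_add (add_le_add hz.2.2.2.2.1 hw.2.2.2.1) hy.2.2.1), hs_zwy.2.1.trans (add_le_add (add_le_add hz.2.2.2.2.1 hw.2.2.2.1) hy.2.2.2.1), hs_zwy.2.1.trans (add_le_add (add_le_add hz.2.2.2.2.1 hw.2.2.2.2.1) hy.2.2.1), hs_zwy.2.1.trans (add_le_add (add_le_add hz.2.2.2.2.1 hw.2.2.2.2.1) hy.2.2.2.1), hs_zwy.2.2.trans (add_le_add (add_le_add hz.2.2.2.2.2 hw.2.2.2.2.2) hy.2.2.2.2.1), hs_zwy.2.2.trans (add_le_add (add_le_add hz.2.2.2.2.2 hw.2.2.2.2.2) hy.2.2.2.2.2)⟩ ).elim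
  · exact (P1_BBB_S3_M13_M13 n1 n2 n3 A1 A2 A3 B1 B2 B3 hb hp ⟨hy.1, hz.1⟩ ⟨hs_zyw.1.trans (add_le_add (add_le_add hz.2.1 hy.2.1) hw.2.1), hs_zyw.1.trans (add_le_add (add_le_add hz.2.2.1 hy.2.1) hw.2.1), hs_zyw.2.1.trans (add_le_add (add_le_add hz.2.2.2.1 hy.2.2.1) hw.2.2.1), hs_zyw.2.1.trans (add_le_add (add_le_add hz.2.2.2.1 hy.2.2.1) hw.2.2.2.1), hs_zyw.2.1.trans (add_le_add (add_le_add hz.2.2.2.1 hy.2.2.2.1) hw.2.2.1), hs_zyw.2.1.trans (add_le_add (add_le_add hz.2.2.2.1 hy.2.2.2.1) hw.2.2.2.1), hs_zyw.2.1.trans (add_le_add (add_le_add hz.2.2.2.2.1 hy.2.2.1) hw.2.2.1), hs_zyw.2.1.trans (add_le_add (add_le_add hz.2.2.2.2.1 hy.2.2.1) hw.2.2.2.1), hs_zyw.2.1.trans (add_le_add (add_le_add hz.2.2.2.2.1 hy.2.2.2.1) hw.2.2.1), hs_zyw.2.1.trans (add_le_add (add_le_add hz.2.2.2.2.1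 hy.2.2.2.1) hw.2.2.2.1), hs_zyw.2.2.trans (add_le_add (add_le_add hz.2.2.2.2.2 hy.2.2.2.2.1) hw.2.2.2.2.1), hs_zyw.2.2.trans (add_le_add (add_le_add hz.2.2.2.2.2 hy.2.2.2.2.1) hw.2.2.2.2.2), hs_zyw.2.2.trans (add_le_add (add_le_add hz.2.2.2.2.2 hy.2.2.2.2.2) hw.2.2.2.2.1), hs_zyw.2.2.trans (add_le_add (add_le_add hz.2.2.2.2.2 hy.2.2.2.2.2) hw.2.2.2.2.2)⟩ ).elim
  · exact (P1_BBB_S3_M13_M23 n1 n2 n3 A1 A2 A3 B1 B2 B3 hb hp ⟨hy.1, hw.1, hz.1⟩ ⟨hs_zyw.1.trans (add_le_add (add_le_add hz.2.1 hy.2.1) hw.2.1), hs_zyw.1.trans (add_le_add (add_le_add hz.2.1 hy.2.1) hw.2.2.1), hs_zyw.1.trans (add_le_add (add_le_add hz.2.2.1 hy.2.1) hw.2.1), hs_zyw.1.trans (add_le_add (add_le_add hz.2.2.1 hy.2.1) hw.2.2.1), hs_zyw.2.1.trans (add_le_add (add_le_add hz.2.2.2.1 hy.2.2.1) hw.2.2.2.1),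 hs_zyw.2.1.trans (add_le_add (add_le_add hz.2.2.2.1 hy.2.2.2.1) hw.2.2.2.1), hs_zyw.2.1.trans (add_le_add (add_le_add hz.2.2.2.2.1 hy.2.2.1) hw.2.2.2.1), hs_zyw.2.1.trans (add_le_add (add_le_add hz.2.2.2.2.1 hy.2.2.2.1) hw.2.2.2.1), hs_zyw.2.2.trans (add_le_add (add_le_add hz.2.2.2.2.2 hy.2.2.2.2.1) hw.2.2.2.2.1), hs_zyw.2.2.trans (add_le_add (add_le_add hz.2.2.2.2.2 hy.2.2.2.2.1) hw.2.2.2.2.2), hs_zyw.2.2.trans (add_le_add (add_le_add hz.2.2.2.2.2 hy.2.2.2.2.2) hw.2.2.2.2.1), hs_zyw.2.2.trans (add_le_add (add_le_add hz.2.2.2.2.2 hy.2.2.2.2.2) hw.2.2.2.2.2)⟩ ).elim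
  · exact (P1_BBB_S1_M13_M13 n1 n2 n3 A1 A2 A3 B1 B2 B3 hb hp ⟨hy.1, hw.1⟩ ⟨hs_wyz.1.trans (add_le_add (add_le_add hw.2.1 hy.2.1) hz.2.1), hs_wyz.2.1.trans (add_le_add (add_le_add hw.2.2.1 hy.2.2.1) hz.2.2.1), hs_wyz.2.1.trans (add_le_add (add_le_add hw.2.2.1 hy.2.2.1) hz.2.2.2.1), hs_wyz.2.1.trans (add_le_add (add_le_add hw.2.2.1 hy.2.2.2.1) hz.2.2.1), hs_wyz.2.1.trans (add_le_add (add_le_add hw.2.2.1 hy.2.2.2.1) hz.2.2.2.1), hs_wyz.2.2.trans (add_le_add (add_le_add hw.2.2.2 hy.2.2.2.2.1) hz.2.2.2.2.1), hs_wyz.2.2.trans (add_le_add (add_le_add hw.2.2.2 hy.2.2.2.2.1) hz.2.2.2.2.2), hs_wyz.2.2.trans (add_le_add (add_le_add hw.2.2.2 hy.2.2.2.2.2) hz.2.2.2.2.1), hs_wyz.2.2.trans (add_le_add (add_le_add hw.2.2.2 hy.2.2.2.2.2) hz.2.2.2.2.2)⟩ m_BB_S1_M13).elim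
  · exact (P1_BBB_S2_M13_M13 n1 n2 n3 A1 A2 A3 B1 B2 B3 hb hp ⟨hy.1, hw.1⟩ ⟨hs_wyz.1.trans (add_le_add (add_le_add hw.2.1 hy.2.1) hz.2.1), hs_wyz.1.trans (add_le_add (add_le_add hw.2.2.1 hy.2.1) hz.2.1), hs_wyz.2.1.trans (add_le_add (add_le_add hw.2.2.2.1 hy.2.2.1) hz.2.2.1), hs_wyz.2.1.trans (add_le_add (add_le_add hw.2.2.2.1 hy.2.2.1) hz.2.2.2.1), hs_wyz.2.1.trans (add_le_add (add_le_add hw.2.2.2.1 hy.2.2.2.1) hz.2.2.1), hs_wyz.2.1.trans (add_le_add (add_le_add hw.2.2.2.1 hy.2.2.2.1) hz.2.2.2.1), hs_wyz.2.2.trans (add_le_add (add_le_add hw.2.2.2.2 hy.2.2.2.2.1) hz.2.2.2.2.1), hs_wyz.2.2.trans (add_le_add (add_le_add hw.2.2.2.2 hy.2.2.2.2.1) hz.2.2.2.2.2), hs_wyz.2.2.trans (add_le_add (add_le_add hw.2.2.2.2 hy.2.2.2.2.2) hz.2.2.2.2.1), hs_wyz.2.2.trans (add_le_add (add_le_add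 hw.2.2.2.2 hy.2.2.2.2.2) hz.2.2.2.2.2)⟩ m_BB_S2_M13).elim
  · exact (P1_BBB_S3_M13_M13 n1 n2 n3 A1 A2 A3 B1 B2 B3 hb hp ⟨hy.1, hw.1⟩ ⟨hs_wyz.1.trans (add_le_add (add_le_add hw.2.1 hy.2.1) hz.2.1), hs_wyz.1.trans (add_le_add (add_le_add hw.2.2.1 hy.2.1) hz.2.1), hs_wyz.2.1.trans (add_le_add (add_le_add hw.2.2.2.1 hy.2.2.1) hz.2.2.1), hs_wyz.2.1.trans (add_le_add (add_le_add hw.2.2.2.1 hy.2.2.1) hz.2.2.2.1), hs_wyz.2.1.trans (add_le_add (add_le_add hw.2.2.2.1 hy.2.2.2.1) hz.2.2.1), hs_wyz.2.1.trans (add_le_add (add_le_add hw.2.2.2.1 hy.2.2.2.1) hz.2.2.2.1), hs_wyz.2.1.trans (add_le_add (add_le_add hw.2.2.2.2.1 hy.2.2.1) hz.2.2.1), hs_wyz.2.1.trans (add_le_add (add_le_add hw.2.2.2.2.1 hy.2.2.1) hz.2.2.2.1), hs_wyz.2.1.trans (add_le_add (add_le_add hw.2.2.2.2.1 hy.2.2.2.1)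 hz.2.2.1), hs_wyz.2.1.trans (add_le_add (add_le_add hw.2.2.2.2.1 hy.2.2.2.1) hz.2.2.2.1), hs_wyz.2.2.trans (add_le_add (add_le_add hw.2.2.2.2.2 hy.2.2.2.2.1) hz.2.2.2.2.1), hs_wyz.2.2.trans (add_le_add (add_le_add hw.2.2.2.2.2 hy.2.2.2.2.1) hz.2.2.2.2.2), hs_wyz.2.2.trans (add_le_add (add_le_add hw.2.2.2.2.2 hy.2.2.2.2.2) hz.2.2.2.2.1), hs_wyz.2.2.trans (add_le_add (add_le_add hw.2.2.2.2.2 hy.2.2.2.2.2) hz.2.2.2.2.2)⟩ ).elim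
  · exact (P1_BBB_M13_M13_M13 n1 n2 n3 A1 A2 A3 B1 B2 B3 hb hp hy.1 ⟨hs.1.trans (add_le_add (add_le_add hy.2.1 hz.2.1) hw.2.1), hs.2.1.trans (add_le_add (add_le_add hy.2.2.1 hz.2.2.1) hw.2.2.1), hs.2.1.trans (add_le_add (add_le_add hy.2.2.1 hz.2.2.1) hw.2.2.2.1), hs.2.1.trans (add_le_add (add_le_add hy.2.2.1 hz.2.2.2.1) hw.2.2.1), hs.2.1.trans (add_le_add (add_le_add hy.2.2.1 hz.2.2.2.1) hw.2.2.2.1), hs.2.1.trans (add_le_add (add_le_add hy.2.2.2.1 hz.2.2.1) hw.2.2.1), hs.2.1.trans (add_le_add (add_le_add hy.2.2.2.1 hz.2.2.1) hw.2.2.2.1), hs.2.1.trans (add_le_add (add_le_add hy.2.2.2.1 hz.2.2.2.1) hw.2.2.1), hs.2.1.trans (add_le_add (add_le_add hy.2.2.2.1 hz.2.2.2.1) hw.2.2.2.1), hs.2.2.trans (add_le_add (add_le_add hy.2.2.2.2.1 hz.2.2.2.2.1) hw.2.2.2.2.1), hs.2.2.trans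 (add_le_add (add_le_add hy.2.2.2.2.1 hz.2.2.2.2.1) hw.2.2.2.2.2), hs.2.2.trans (add_le_add (add_le_add hy.2.2.2.2.1 hz.2.2.2.2.2) hw.2.2.2.2.1), hs.2.2.trans (add_le_add (add_le_add hy.2.2.2.2.1 hz.2.2.2.2.2) hw.2.2.2.2.2), hs.2.2.trans (add_le_add (add_le_add hy.2.2.2.2.2 hz.2.2.2.2.1) hw.2.2.2.2.1), hs.2.2.trans (add_le_add (add_le_add hy.2.2.2.2.2 hz.2.2.2.2.1) hw.2.2.2.2.2), hs.2.2.trans (add_le_add (add_le_add hy.2.2.2.2.2 hz.2.2.2.2.2) hw.2.2.2.2.1), hs.2.2.trans (add_le_add (add_le_add hy.2.2.2.2.2 hz.2.2.2.2.2) hw.2.2.2.2.2)⟩ ).elim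
  · exact (P1_BBB_M13_M13_M23 n1 n2 n3 A1 A2 A3 B1 B2 B3 hb hp ⟨hy.1, hw.1⟩ ⟨hs.1.trans (add_le_add (add_le_add hy.2.1 hz.2.1) hw.2.1), hs.1.trans (add_le_add (add_le_add hy.2.1 hz.2.1) hw.2.2.1), hs.2.1.trans (add_le_add (add_le_add hy.2.2.1 hz.2.2.1) hw.2.2.2.1), hs.2.1.trans (add_le_add (add_le_add hy.2.2.1 hz.2.2.2.1) hw.2.2.2.1), hs.2.1.trans (add_le_add (add_le_add hy.2.2.2.1 hz.2.2.1) hw.2.2.2.1), hs.2.1.trans (add_le_add (add_le_add hy.2.2.2.1 hz.2.2.2.1) hw.2.2.2.1), hs.2.2.trans (add_le_add (add_le_add hy.2.2.2.2.1 hz.2.2.2.2.1) hw.2.2.2.2.1), hs.2.2.trans (add_le_add (add_le_add hy.2.2.2.2.1 hz.2.2.2.2.1) hw.2.2.2.2.2), hs.2.2.trans (add_le_add (add_le_add hy.2.2.2.2.1 hz.2.2.2.2.2) hw.2.2.2.2.1), hs.2.2.trans (add_le_add (add_le_add hy.2.2.2.2.1 hz.2.2.2.2.2)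 hw.2.2.2.2.2), hs.2.2.trans (add_le_add (add_le_add hy.2.2.2.2.2 hz.2.2.2.2.1) hw.2.2.2.2.1), hs.2.2.trans (add_le_add (add_le_add hy.2.2.2.2.2 hz.2.2.2.2.1) hw.2.2.2.2.2), hs.2.2.trans (add_le_add (add_le_add hy.2.2.2.2.2 hz.2.2.2.2.2) hw.2.2.2.2.1), hs.2.2.trans (add_le_add (add_le_add hy.2.2.2.2.2 hz.2.2.2.2.2) hw.2.2.2.2.2)⟩ ).elim
  · exact (P1_BBB_S1_M13_M23 n1 n2 n3 A1 A2 A3 B1 B2 B3 hb hp ⟨hy.1, hz.1, hw.1⟩ ⟨hs_wyz.1.trans (add_le_add (add_le_add hw.2.1 hy.2.1) hz.2.1), hs_wyz.1.trans (add_le_add (add_le_add hw.2.1 hy.2.1) hz.2.2.1), hs_wyz.2.1.trans (add_le_add (add_le_add hw.2.2.1 hy.2.2.1) hz.2.2.2.1), hs_wyz.2.1.trans (add_le_add (add_le_add hw.2.2.1 hy.2.2.2.1) hz.2.2.2.1), hs_wyz.2.2.trans (add_le_add (add_le_add hw.2.2.2 hy.2.2.2.2.1) hz.2.2.2.2.1), hs_wyz.2.2.trans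 (add_le_add (add_le_add hw.2.2.2 hy.2.2.2.2.1) hz.2.2.2.2.2), hs_wyz.2.2.trans (add_le_add (add_le_add hw.2.2.2 hy.2.2.2.2.2) hz.2.2.2.2.1), hs_wyz.2.2.trans (add_le_add (add_le_add hw.2.2.2 hy.2.2.2.2.2) hz.2.2.2.2.2)⟩ m_BB_S1_M23 m_BB_S2_M13).elim
  · exact (P1_BBB_S2_M13_M23 n1 n2 n3 A1 A2 A3 B1 B2 B3 hb hp ⟨hy.1, hz.1, hw.1⟩ ⟨hs_wyz.1.trans (add_le_add (add_le_add hw.2.1 hy.2.1) hz.2.1), hs_wyz.1.trans (add_le_add (add_le_add hw.2.1 hy.2.1) hz.2.2.1), hs_wyz.1.trans (add_le_add (add_le_add hw.2.2.1 hy.2.1) hz.2.1), hs_wyz.1.trans (add_le_add (add_le_add hw.2.2.1 hy.2.1) hz.2.2.1), hs_wyz.2.1.trans (add_le_add (add_le_add hw.2.2.2.1 hy.2.2.1) hz.2.2.2.1), hs_wyz.2.1.trans (add_le_add (add_le_add hw.2.2.2.1 hy.2.2.2.1) hz.2.2.2.1), hs_wyz.2.2.trans (add_le_add (add_le_add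 hw.2.2.2.2 hy.2.2.2.2.1) hz.2.2.2.2.1), hs_wyz.2.2.trans (add_le_add (add_le_add hw.2.2.2.2 hy.2.2.2.2.1) hz.2.2.2.2.2), hs_wyz.2.2.trans (add_le_add (add_le_add hw.2.2.2.2 hy.2.2.2.2.2) hz.2.2.2.2.1), hs_wyz.2.2.trans (add_le_add (add_le_add hw.2.2.2.2 hy.2.2.2.2.2) hz.2.2.2.2.2)⟩ m_BB_S2_M13 m_BB_S1_M23).elim
  · exact (P1_BBB_S3_M13_M23 n1 n2 n3 A1 A2 A3 B1 B2 B3 hb hp ⟨hy.1, hz.1, hw.1⟩ ⟨hs_wyz.1.trans (add_le_add (add_le_add hw.2.1 hy.2.1) hz.2.1), hs_wyz.1.trans (add_le_add (add_le_add hw.2.1 hy.2.1) hz.2.2.1), hs_wyz.1.trans (add_le_add (add_le_add hw.2.2.1 hy.2.1) hz.2.1), hs_wyz.1.trans (add_le_add (add_le_add hw.2.2.1 hy.2.1) hz.2.2.1), hs_wyz.2.1.trans (add_le_add (add_le_add hw.2.2.2.1 hy.2.2.1) hz.2.2.2.1), hs_wyz.2.1.trans (add_le_add (add_le_add hw.2.2.2.1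 hy.2.2.2.1) hz.2.2.2.1), hs_wyz.2.1.trans (add_le_add (add_le_add hw.2.2.2.2.1 hy.2.2.1) hz.2.2.2.1), hs_wyz.2.1.trans (add_le_add (add_le_add hw.2.2.2.2.1 hy.2.2.2.1) hz.2.2.2.1), hs_wyz.2.2.trans (add_le_add (add_le_add hw.2.2.2.2.2 hy.2.2.2.2.1) hz.2.2.2.2.1), hs_wyz.2.2.trans (add_le_add (add_le_add hw.2.2.2.2.2 hy.2.2.2.2.1) hz.2.2.2.2.2), hs_wyz.2.2.trans (add_le_add (add_le_add hw.2.2.2.2.2 hy.2.2.2.2.2) hz.2.2.2.2.1), hs_wyz.2.2.trans (add_le_add (add_le_add hw.2.2.2.2.2 hy.2.2.2.2.2) hz.2.2.2.2.2)⟩ ).elim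
  · exact (P1_BBB_M13_M13_M23 n1 n2 n3 A1 A2 A3 B1 B2 B3 hb hp ⟨hy.1, hz.1⟩ ⟨hs_ywz.1.trans (add_le_add (add_le_add hy.2.1 hw.2.1) hz.2.1), hs_ywz.1.trans (add_le_add (add_le_add hy.2.1 hw.2.1) hz.2.2.1), hs_ywz.2.1.trans (add_le_add (add_le_add hy.2.2.1 hw.2.2.1) hz.2.2.2.1), hs_ywz.2.1.trans (add_le_add (add_le_add hy.2.2.1 hw.2.2.2.1) hz.2.2.2.1), hs_ywz.2.1.trans (add_le_add (add_le_add hy.2.2.2.1 hw.2.2.1) hz.2.2.2.1), hs_ywz.2.1.trans (add_le_add (add_le_add hy.2.2.2.1 hw.2.2.2.1) hz.2.2.2.1), hs_ywz.2.2.trans (add_le_add (add_le_add hy.2.2.2.2.1 hw.2.2.2.2.1) hz.2.2.2.2.1), hs_ywz.2.2.trans (add_le_add (add_le_add hy.2.2.2.2.1 hw.2.2.2.2.1) hz.2.2.2.2.2), hs_ywz.2.2.trans (add_le_add (add_le_add hy.2.2.2.2.1 hw.2.2.2.2.2) hz.2.2.2.2.1), hs_ywz.2.2.trans (add_le_add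 (add_le_add hy.2.2.2.2.1 hw.2.2.2.2.2) hz.2.2.2.2.2), hs_ywz.2.2.trans (add_le_add (add_le_add hy.2.2.2.2.2 hw.2.2.2.2.1) hz.2.2.2.2.1), hs_ywz.2.2.trans (add_le_add (add_le_add hy.2.2.2.2.2 hw.2.2.2.2.1) hz.2.2.2.2.2), hs_ywz.2.2.trans (add_le_add (add_le_add hy.2.2.2.2.2 hw.2.2.2.2.2) hz.2.2.2.2.1), hs_ywz.2.2.trans (add_le_add (add_le_add hy.2.2.2.2.2 hw.2.2.2.2.2) hz.2.2.2.2.2)⟩ ).elim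
  · exact (P1_BBB_M13_M23_M23 n1 n2 n3 A1 A2 A3 B1 B2 B3 hb hp ⟨hy.1, hz.1⟩ ⟨hs.1.trans (add_le_add (add_le_add hy.2.1 hz.2.1) hw.2.1), hs.1.trans (add_le_add (add_le_add hy.2.1 hz.2.1) hw.2.2.1), hs.1.trans (add_le_add (add_le_add hy.2.1 hz.2.2.1) hw.2.1), hs.1.trans (add_le_add (add_le_add hy.2.1 hz.2.2.1) hw.2.2.1), hs.2.1.trans (add_le_add (add_le_add hy.2.2.1 hz.2.2.2.1) hw.2.2.2.1), hs.2.1.trans (add_le_add (add_le_add hy.2.2.2.1 hz.2.2.2.1) hw.2.2.2.1), hs.2.2.trans (add_le_add (add_le_add hy.2.2.2.2.1 hz.2.2.2.2.1) hw.2.2.2.2.1), hs.2.2.trans (add_le_add (add_le_add hy.2.2.2.2.1 hz.2.2.2.2.1) hw.2.2.2.2.2), hs.2.2.trans (add_le_add (add_le_add hy.2.2.2.2.1 hz.2.2.2.2.2) hw.2.2.2.2.1), hs.2.2.trans (add_le_add (add_le_add hy.2.2.2.2.1 hz.2.2.2.2.2) hw.2.2.2.2.2),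 hs.2.2.trans (add_le_add (add_le_add hy.2.2.2.2.2 hz.2.2.2.2.1) hw.2.2.2.2.1), hs.2.2.trans (add_le_add (add_le_add hy.2.2.2.2.2 hz.2.2.2.2.1) hw.2.2.2.2.2), hs.2.2.trans (add_le_add (add_le_add hy.2.2.2.2.2 hz.2.2.2.2.2) hw.2.2.2.2.1), hs.2.2.trans (add_le_add (add_le_add hy.2.2.2.2.2 hz.2.2.2.2.2) hw.2.2.2.2.2)⟩ ).elim
  · exact (P1_BBB_S1_S1_M23 n1 n2 n3 A1 A2 A3 B1 B2 B3 hb hp ⟨hy.1, hz.1⟩ ⟨hs_zwy.1.trans (add_le_add (add_le_add hz.2.1 hw.2.1) hy.2.1), hs_zwy.1.trans (add_le_add (add_le_add hz.2.1 hw.2.1) hy.2.2.1), hs_zwy.2.1.trans (add_le_add (add_le_add hz.2.2.1 hw.2.2.1) hy.2.2.2.1), hs_zwy.2.2.trans (add_le_add (add_le_add hz.2.2.2 hw.2.2.2) hy.2.2.2.2.1), hs_zwy.2.2.trans (add_le_add (add_le_add hz.2.2.2 hw.2.2.2) hy.2.2.2.2.2)⟩ m_BB_S1_M23).elim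
  · exact (P1_BBB_S1_S2_M23 n1 n2 n3 A1 A2 A3 B1 B2 B3 hb hp ⟨hy.1, hz.1, hw.1⟩ ⟨hs_zwy.1.trans (add_le_add (add_le_add hz.2.1 hw.2.1) hy.2.1), hs_zwy.1.trans (add_le_add (add_le_add hz.2.1 hw.2.1) hy.2.2.1), hs_zwy.1.trans (add_le_add (add_le_add hz.2.1 hw.2.2.1) hy.2.1), hs_zwy.1.trans (add_le_add (add_le_add hz.2.1 hw.2.2.1) hy.2.2.1), hs_zwy.2.1.trans (add_le_add (add_le_add hz.2.2.1 hw.2.2.2.1) hy.2.2.2.1), hs_zwy.2.2.trans (add_le_add (add_le_add hz.2.2.2 hw.2.2.2.2) hy.2.2.2.2.1), hs_zwy.2.2.trans (add_le_add (add_le_add hz.2.2.2 hw.2.2.2.2) hy.2.2.2.2.2)⟩ m_BB_S1_M23).elim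
  · exact (P1_BBB_S1_S3_M23 n1 n2 n3 A1 A2 A3 B1 B2 B3 hb hp ⟨hy.1, hw.1, hz.1⟩ ⟨hs_zwy.1.trans (add_le_add (add_le_add hz.2.1 hw.2.1) hy.2.1), hs_zwy.1.trans (add_le_add (add_le_add hz.2.1 hw.2.1) hy.2.2.1), hs_zwy.1.trans (add_le_add (add_le_add hz.2.1 hw.2.2.1) hy.2.1), hs_zwy.1.trans (add_le_add (add_le_add hz.2.1 hw.2.2.1) hy.2.2.1), hs_zwy.2.1.trans (add_le_add (add_le_add hz.2.2.1 hw.2.2.2.1) hy.2.2.2.1), hs_zwy.2.1.trans (add_le_add (add_le_add hz.2.2.1 hw.2.2.2.2.1) hy.2.2.2.1), hs_zwy.2.2.trans (add_le_add (add_le_add hz.2.2.2 hw.2.2.2.2.2) hy.2.2.2.2.1), hs_zwy.2.2.trans (add_le_add (add_le_add hz.2.2.2 hw.2.2.2.2.2) hy.2.2.2.2.2)⟩ m_BB_S1_S3).elim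
  · exact (P1_BBB_S1_M13_M23 n1 n2 n3 A1 A2 A3 B1 B2 B3 hb hp ⟨hw.1, hy.1, hz.1⟩ ⟨hs_zwy.1.trans (add_le_add (add_le_add hz.2.1 hw.2.1) hy.2.1), hs_zwy.1.trans (add_le_add (add_le_add hz.2.1 hw.2.1) hy.2.2.1), hs_zwy.2.1.trans (add_le_add (add_le_add hz.2.2.1 hw.2.2.1) hy.2.2.2.1), hs_zwy.2.1.trans (add_le_add (add_le_add hz.2.2.1 hw.2.2.2.1) hy.2.2.2.1), hs_zwy.2.2.trans (add_le_add (add_le_add hz.2.2.2 hw.2.2.2.2.1) hy.2.2.2.2.1), hs_zwy.2.2.trans (add_le_add (add_le_add hz.2.2.2 hw.2.2.2.2.1) hy.2.2.2.2.2), hs_zwy.2.2.trans (add_le_add (add_le_add hz.2.2.2 hw.2.2.2.2.2) hy.2.2.2.2.1), hs_zwy.2.2.trans (add_le_add (add_le_add hz.2.2.2 hw.2.2.2.2.2) hy.2.2.2.2.2)⟩ m_BB_S1_M23 m_BB_S2_M13).elim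
  · exact (P1_BBB_S1_M23_M23 n1 n2 n3 A1 A2 A3 B1 B2 B3 hb hp ⟨hy.1, hz.1⟩ ⟨hs_zyw.1.trans (add_le_add (add_le_add hz.2.1 hy.2.1) hw.2.1), hs_zyw.1.trans (add_le_add (add_le_add hz.2.1 hy.2.1) hw.2.2.1), hs_zyw.1.trans (add_le_add (add_le_add hz.2.1 hy.2.2.1) hw.2.1), hs_zyw.1.trans (add_le_add (add_le_add hz.2.1 hy.2.2.1) hw.2.2.1), hs_zyw.2.1.trans (add_le_add (add_le_add hz.2.2.1 hy.2.2.2.1) hw.2.2.2.1), hs_zyw.2.2.trans (add_le_add (add_le_add hz.2.2.2 hy.2.2.2.2.1) hw.2.2.2.2.1), hs_zyw.2.2.trans (add_le_add (add_le_add hz.2.2.2 hy.2.2.2.2.1) hw.2.2.2.2.2), hs_zyw.2.2.trans (add_le_add (add_le_add hz.2.2.2 hy.2.2.2.2.2) hw.2.2.2.2.1), hs_zyw.2.2.trans (add_le_add (add_le_add hz.2.2.2 hy.2.2.2.2.2) hw.2.2.2.2.2)⟩ m_BB_S1_M23).elim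
  · exact (P1_BBB_S1_S2_M23 n1 n2 n3 A1 A2 A3 B1 B2 B3 hb hp ⟨hy.1, hw.1, hz.1⟩ ⟨hs_wzy.1.trans (add_le_add (add_le_add hw.2.1 hz.2.1) hy.2.1), hs_wzy.1.trans (add_le_add (add_le_add hw.2.1 hz.2.1) hy.2.2.1), hs_wzy.1.trans (add_le_add (add_le_add hw.2.1 hz.2.2.1) hy.2.1), hs_wzy.1.trans (add_le_add (add_le_add hw.2.1 hz.2.2.1) hy.2.2.1), hs_wzy.2.1.trans (add_le_add (add_le_add hw.2.2.1 hz.2.2.2.1) hy.2.2.2.1), hs_wzy.2.2.trans (add_le_add (add_le_add hw.2.2.2 hz.2.2.2.2) hy.2.2.2.2.1), hs_wzy.2.2.trans (add_le_add (add_le_add hw.2.2.2 hz.2.2.2.2) hy.2.2.2.2.2)⟩ m_BB_S1_M23).elim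
  · exact (P1_BBB_S2_S2_M23 n1 n2 n3 A1 A2 A3 B1 B2 B3 hb hp ⟨hy.1, hz.1⟩ ⟨hs_zwy.1.trans (add_le_add (add_le_add hz.2.1 hw.2.1) hy.2.1), hs_zwy.1.trans (add_le_add (add_le_add hz.2.1 hw.2.1) hy.2.2.1), hs_zwy.1.trans (add_le_add (add_le_add hz.2.1 hw.2.2.1) hy.2.1), hs_zwy.1.trans (add_le_add (add_le_add hz.2.1 hw.2.2.1) hy.2.2.1), hs_zwy.1.trans (add_le_add (add_le_add hz.2.2.1 hw.2.1) hy.2.1), hs_zwy.1.trans (add_le_add (add_le_add hz.2.2.1 hw.2.1) hy.2.2.1), hs_zwy.1.trans (add_le_add (add_le_add hz.2.2.1 hw.2.2.1) hy.2.1), hs_zwy.1.trans (add_le_add (add_le_add hz.2.2.1 hw.2.2.1) hy.2.2.1), hs_zwy.2.1.trans (add_le_add (add_le_add hz.2.2.2.1 hw.2.2.2.1) hy.2.2.2.1), hs_zwy.2.2.trans (add_le_add (add_le_add hz.2.2.2.2 hw.2.2.2.2) hy.2.2.2.2.1), hs_zwy.2.2.trans (add_le_add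 (add_le_add hz.2.2.2.2 hw.2.2.2.2) hy.2.2.2.2.2)⟩ m_BB_S2_M23).elim
  · exact (P1_BBB_S2_S3_M23 n1 n2 n3 A1 A2 A3 B1 B2 B3 hb hp ⟨hy.1, hw.1, hz.1⟩ ⟨hs_zwy.1.trans (add_le_add (add_le_add hz.2.1 hw.2.1) hy.2.1), hs_zwy.1.trans (add_le_add (add_le_add hz.2.1 hw.2.1) hy.2.2.1), hs_zwy.1.trans (add_le_add (add_le_add hz.2.1 hw.2.2.1) hy.2.1), hs_zwy.1.trans (add_le_add (add_le_add hz.2.1 hw.2.2.1) hy.2.2.1), hs_zwy.1.trans (add_le_add (add_le_add hz.2.2.1 hw.2.1) hy.2.1), hs_zwy.1.trans (add_le_add (add_le_add hz.2.2.1 hw.2.1) hy.2.2.1), hs_zwy.1.trans (add_le_add (add_le_add hz.2.2.1 hw.2.2.1) hy.2.1), hs_zwy.1.trans (add_le_add (add_le_add hz.2.2.1 hw.2.2.1) hy.2.2.1), hs_zwy.2.1.trans (add_le_add (add_le_add hz.2.2.2.1 hw.2.2.2.1) hy.2.2.2.1), hs_zwy.2.1.trans (add_le_add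 (add_le_add hz.2.2.2.1 hw.2.2.2.2.1) hy.2.2.2.1), hs_zwy.2.2.trans (add_le_add (add_le_add hz.2.2.2.2 hw.2.2.2.2.2) hy.2.2.2.2.1), hs_zwy.2.2.trans (add_le_add (add_le_add hz.2.2.2.2 hw.2.2.2.2.2) hy.2.2.2.2.2)⟩ m_BB_S2_S3).elim
  · exact (P1_BBB_S2_M13_M23 n1 n2 n3 A1 A2 A3 B1 B2 B3 hb hp ⟨hw.1, hy.1, hz.1⟩ ⟨hs_zwy.1.trans (add_le_add (add_le_add hz.2.1 hw.2.1) hy.2.1), hs_zwy.1.trans (add_le_add (add_le_add hz.2.1 hw.2.1) hy.2.2.1), hs_zwy.1.trans (add_le_add (add_le_add hz.2.2.1 hw.2.1) hy.2.1), hs_zwy.1.trans (add_le_add (add_le_add hz.2.2.1 hw.2.1) hy.2.2.1), hs_zwy.2.1.trans (add_le_add (add_le_add hz.2.2.2.1 hw.2.2.1) hy.2.2.2.1), hs_zwy.2.1.trans (add_le_add (add_le_add hz.2.2.2.1 hw.2.2.2.1) hy.2.2.2.1), hs_zwy.2.2.trans (add_le_add (add_le_add hz.2.2.2.2 hw.2.2.2.2.1)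 hy.2.2.2.2.1), hs_zwy.2.2.trans (add_le_add (add_le_add hz.2.2.2.2 hw.2.2.2.2.1) hy.2.2.2.2.2), hs_zwy.2.2.trans (add_le_add (add_le_add hz.2.2.2.2 hw.2.2.2.2.2) hy.2.2.2.2.1), hs_zwy.2.2.trans (add_le_add (add_le_add hz.2.2.2.2 hw.2.2.2.2.2) hy.2.2.2.2.2)⟩ m_BB_S2_M13 m_BB_S1_M23).elim
  · exact (P1_BBB_S2_M23_M23 n1 n2 n3 A1 A2 A3 B1 B2 B3 hb hp ⟨hy.1, hz.1⟩ ⟨hs_zyw.1.trans (add_le_add (add_le_add hz.2.1 hy.2.1) hw.2.1), hs_zyw.1.trans (add_le_add (add_le_add hz.2.1 hy.2.1) hw.2.2.1), hs_zyw.1.trans (add_le_add (add_le_add hz.2.1 hy.2.2.1) hw.2.1), hs_zyw.1.trans (add_le_add (add_le_add hz.2.1 hy.2.2.1) hw.2.2.1), hs_zyw.1.trans (add_le_add (add_le_add hz.2.2.1 hy.2.1) hw.2.1), hs_zyw.1.trans (add_le_add (add_le_add hz.2.2.1 hy.2.1) hw.2.2.1), hs_zyw.1.trans (add_le_add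 (add_le_add hz.2.2.1 hy.2.2.1) hw.2.1), hs_zyw.1.trans (add_le_add (add_le_add hz.2.2.1 hy.2.2.1) hw.2.2.1), hs_zyw.2.1.trans (add_le_add (add_le_add hz.2.2.2.1 hy.2.2.2.1) hw.2.2.2.1), hs_zyw.2.2.trans (add_le_add (add_le_add hz.2.2.2.2 hy.2.2.2.2.1) hw.2.2.2.2.1), hs_zyw.2.2.trans (add_le_add (add_le_add hz.2.2.2.2 hy.2.2.2.2.1) hw.2.2.2.2.2), hs_zyw.2.2.trans (add_le_add (add_le_add hz.2.2.2.2 hy.2.2.2.2.2) hw.2.2.2.2.1), hs_zyw.2.2.trans (add_le_add (add_le_add hz.2.2.2.2 hy.2.2.2.2.2) hw.2.2.2.2.2)⟩ m_BB_S2_M23).elim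
  · exact (P1_BBB_S1_S3_M23 n1 n2 n3 A1 A2 A3 B1 B2 B3 hb hp ⟨hy.1, hz.1, hw.1⟩ ⟨hs_wzy.1.trans (add_le_add (add_le_add hw.2.1 hz.2.1) hy.2.1), hs_wzy.1.trans (add_le_add (add_le_add hw.2.1 hz.2.1) hy.2.2.1), hs_wzy.1.trans (add_le_add (add_le_add hw.2.1 hz.2.2.1) hy.2.1), hs_wzy.1.trans (add_le_add (add_le_add hw.2.1 hz.2.2.1) hy.2.2.1), hs_wzy.2.1.trans (add_le_add (add_le_add hw.2.2.1 hz.2.2.2.1) hy.2.2.2.1), hs_wzy.2.1.trans (add_le_add (add_le_add hw.2.2.1 hz.2.2.2.2.1) hy.2.2.2.1), hs_wzy.2.2.trans (add_le_add (add_le_add hw.2.2.2 hz.2.2.2.2.2) hy.2.2.2.2.1), hs_wzy.2.2.trans (add_le_add (add_le_add hw.2.2.2 hz.2.2.2.2.2) hy.2.2.2.2.2)⟩ m_BB_S1_S3).elim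
  · exact (P1_BBB_S2_S3_M23 n1 n2 n3 A1 A2 A3 B1 B2 B3 hb hp ⟨hy.1, hz.1, hw.1⟩ ⟨hs_wzy.1.trans (add_le_add (add_le_add hw.2.1 hz.2.1) hy.2.1), hs_wzy.1.trans (add_le_add (add_le_add hw.2.1 hz.2.1) hy.2.2.1), hs_wzy.1.trans (add_le_add (add_le_add hw.2.1 hz.2.2.1) hy.2.1), hs_wzy.1.trans (add_le_add (add_le_add hw.2.1 hz.2.2.1) hy.2.2.1), hs_wzy.1.trans (add_le_add (add_le_add hw.2.2.1 hz.2.1) hy.2.1), hs_wzy.1.trans (add_le_add (add_le_add hw.2.2.1 hz.2.1) hy.2.2.1), hs_wzy.1.trans (add_le_add (add_le_add hw.2.2.1 hz.2.2.1) hy.2.1), hs_wzy.1.trans (add_le_add (add_le_add hw.2.2.1 hz.2.2.1) hy.2.2.1), hs_wzy.2.1.trans (add_le_add (add_le_add hw.2.2.2.1 hz.2.2.2.1) hy.2.2.2.1), hs_wzy.2.1.trans (add_le_add (add_le_add hw.2.2.2.1 hz.2.2.2.2.1) hy.2.2.2.1), hs_wzy.2.2.trans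 (add_le_add (add_le_add hw.2.2.2.2 hz.2.2.2.2.2) hy.2.2.2.2.1), hs_wzy.2.2.trans (add_le_add (add_le_add hw.2.2.2.2 hz.2.2.2.2.2) hy.2.2.2.2.2)⟩ m_BB_S2_S3).elim
  · exact (P1_BBB_S3_S3_M23 n1 n2 n3 A1 A2 A3 B1 B2 B3 hb hp ⟨hy.1, hz.1⟩ ⟨hs_zwy.1.trans (add_le_add (add_le_add hz.2.1 hw.2.1) hy.2.1), hs_zwy.1.trans (add_le_add (add_le_add hz.2.1 hw.2.1) hy.2.2.1), hs_zwy.1.trans (add_le_add (add_le_add hz.2.1 hw.2.2.1) hy.2.1), hs_zwy.1.trans (add_le_add (add_le_add hz.2.1 hw.2.2.1) hy.2.2.1), hs_zwy.1.trans (add_le_add (add_le_add hz.2.2.1 hw.2.1) hy.2.1), hs_zwy.1.trans (add_le_add (add_le_add hz.2.2.1 hw.2.1) hy.2.2.1), hs_zwy.1.trans (add_le_add (add_le_add hz.2.2.1 hw.2.2.1) hy.2.1), hs_zwy.1.trans (add_le_add (add_le_add hz.2.2.1 hw.2.2.1) hy.2.2.1), hs_zwy.2.1.trans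 (add_le_add (add_le_add hz.2.2.2.1 hw.2.2.2.1) hy.2.2.2.1), hs_zwy.2.1.trans (add_le_add (add_le_add hz.2.2.2.1 hw.2.2.2.2.1) hy.2.2.2.1), hs_zwy.2.1.trans (add_le_add (add_le_add hz.2.2.2.2.1 hw.2.2.2.1) hy.2.2.2.1), hs_zwy.2.1.trans (add_le_add (add_le_add hz.2.2.2.2.1 hw.2.2.2.2.1) hy.2.2.2.1), hs_zwy.2.2.trans (add_le_add (add_le_add hz.2.2.2.2.2 hw.2.2.2.2.2) hy.2.2.2.2.1), hs_zwy.2.2.trans (add_le_add (add_le_add hz.2.2.2.2.2 hw.2.2.2.2.2) hy.2.2.2.2.2)⟩ ).elim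
  · exact (P1_BBB_S3_M13_M23 n1 n2 n3 A1 A2 A3 B1 B2 B3 hb hp ⟨hw.1, hy.1, hz.1⟩ ⟨hs_zwy.1.trans (add_le_add (add_le_add hz.2.1 hw.2.1) hy.2.1), hs_zwy.1.trans (add_le_add (add_le_add hz.2.1 hw.2.1) hy.2.2.1), hs_zwy.1.trans (add_le_add (add_le_add hz.2.2.1 hw.2.1) hy.2.1), hs_zwy.1.trans (add_le_add (add_le_add hz.2.2.1 hw.2.1) hy.2.2.1), hs_zwy.2.1.trans (add_le_add (add_le_add hz.2.2.2.1 hw.2.2.1) hy.2.2.2.1), hs_zwy.2.1.trans (add_le_add (add_le_add hz.2.2.2.1 hw.2.2.2.1) hy.2.2.2.1), hs_zwy.2.1.trans (add_le_add (add_le_add hz.2.2.2.2.1 hw.2.2.1) hy.2.2.2.1), hs_zwy.2.1.trans (add_le_add (add_le_add hz.2.2.2.2.1 hw.2.2.2.1) hy.2.2.2.1), hs_zwy.2.2.trans (add_le_add (add_le_add hz.2.2.2.2.2 hw.2.2.2.2.1) hy.2.2.2.2.1), hs_zwy.2.2.trans (add_le_add (add_le_add hz.2.2.2.2.2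 hw.2.2.2.2.1) hy.2.2.2.2.2), hs_zwy.2.2.trans (add_le_add (add_le_add hz.2.2.2.2.2 hw.2.2.2.2.2) hy.2.2.2.2.1), hs_zwy.2.2.trans (add_le_add (add_le_add hz.2.2.2.2.2 hw.2.2.2.2.2) hy.2.2.2.2.2)⟩ ).elim
  · exact (P1_BBB_S3_M23_M23 n1 n2 n3 A1 A2 A3 B1 B2 B3 hb hp ⟨hy.1, hz.1⟩ ⟨hs_zyw.1.trans (add_le_add (add_le_add hz.2.1 hy.2.1) hw.2.1), hs_zyw.1.trans (add_le_add (add_le_add hz.2.1 hy.2.1) hw.2.2.1), hs_zyw.1.trans (add_le_add (add_le_add hz.2.1 hy.2.2.1) hw.2.1), hs_zyw.1.trans (add_le_add (add_le_add hz.2.1 hy.2.2.1) hw.2.2.1), hs_zyw.1.trans (add_le_add (add_le_add hz.2.2.1 hy.2.1) hw.2.1), hs_zyw.1.trans (add_le_add (add_le_add hz.2.2.1 hy.2.1) hw.2.2.1), hs_zyw.1.trans (add_le_add (add_le_add hz.2.2.1 hy.2.2.1) hw.2.1), hs_zyw.1.trans (add_le_add (add_le_add hz.2.2.1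 hy.2.2.1) hw.2.2.1), hs_zyw.2.1.trans (add_le_add (add_le_add hz.2.2.2.1 hy.2.2.2.1) hw.2.2.2.1), hs_zyw.2.1.trans (add_le_add (add_le_add hz.2.2.2.2.1 hy.2.2.2.1) hw.2.2.2.1), hs_zyw.2.2.trans (add_le_add (add_le_add hz.2.2.2.2.2 hy.2.2.2.2.1) hw.2.2.2.2.1), hs_zyw.2.2.trans (add_le_add (add_le_add hz.2.2.2.2.2 hy.2.2.2.2.1) hw.2.2.2.2.2), hs_zyw.2.2.trans (add_le_add (add_le_add hz.2.2.2.2.2 hy.2.2.2.2.2) hw.2.2.2.2.1), hs_zyw.2.2.trans (add_le_add (add_le_add hz.2.2.2.2.2 hy.2.2.2.2.2) hw.2.2.2.2.2)⟩ ).elim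
  · exact (P1_BBB_S1_M13_M23 n1 n2 n3 A1 A2 A3 B1 B2 B3 hb hp ⟨hz.1, hy.1, hw.1⟩ ⟨hs_wzy.1.trans (add_le_add (add_le_add hw.2.1 hz.2.1) hy.2.1), hs_wzy.1.trans (add_le_add (add_le_add hw.2.1 hz.2.1) hy.2.2.1), hs_wzy.2.1.trans (add_le_add (add_le_add hw.2.2.1 hz.2.2.1) hy.2.2.2.1), hs_wzy.2.1.trans (add_le_add (add_le_add hw.2.2.1 hz.2.2.2.1) hy.2.2.2.1), hs_wzy.2.2.trans (add_le_add (add_le_add hw.2.2.2 hz.2.2.2.2.1) hy.2.2.2.2.1), hs_wzy.2.2.trans (add_le_add (add_le_add hw.2.2.2 hz.2.2.2.2.1) hy.2.2.2.2.2), hs_wzy.2.2.trans (add_le_add (add_le_add hw.2.2.2 hz.2.2.2.2.2) hy.2.2.2.2.1), hs_wzy.2.2.trans (add_le_add (add_le_add hw.2.2.2 hz.2.2.2.2.2) hy.2.2.2.2.2)⟩ m_BB_S1_M23 m_BB_S2_M13).elim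
  · exact (P1_BBB_S2_M13_M23 n1 n2 n3 A1 A2 A3 B1 B2 B3 hb hp ⟨hz.1, hy.1, hw.1⟩ ⟨hs_wzy.1.trans (add_le_add (add_le_add hw.2.1 hz.2.1) hy.2.1), hs_wzy.1.trans (add_le_add (add_le_add hw.2.1 hz.2.1) hy.2.2.1), hs_wzy.1.trans (add_le_add (add_le_add hw.2.2.1 hz.2.1) hy.2.1), hs_wzy.1.trans (add_le_add (add_le_add hw.2.2.1 hz.2.1) hy.2.2.1), hs_wzy.2.1.trans (add_le_add (add_le_add hw.2.2.2.1 hz.2.2.1) hy.2.2.2.1), hs_wzy.2.1.trans (add_le_add (add_le_add hw.2.2.2.1 hz.2.2.2.1) hy.2.2.2.1), hs_wzy.2.2.trans (add_le_add (add_le_add hw.2.2.2.2 hz.2.2.2.2.1) hy.2.2.2.2.1), hs_wzy.2.2.trans (add_le_add (add_le_add hw.2.2.2.2 hz.2.2.2.2.1) hy.2.2.2.2.2), hs_wzy.2.2.trans (add_le_add (add_le_add hw.2.2.2.2 hz.2.2.2.2.2) hy.2.2.2.2.1), hs_wzy.2.2.trans (add_le_add (add_le_add hw.2.2.2.2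 hz.2.2.2.2.2) hy.2.2.2.2.2)⟩ m_BB_S2_M13 m_BB_S1_M23).elim
  · exact (P1_BBB_S3_M13_M23 n1 n2 n3 A1 A2 A3 B1 B2 B3 hb hp ⟨hz.1, hy.1, hw.1⟩ ⟨hs_wzy.1.trans (add_le_add (add_le_add hw.2.1 hz.2.1) hy.2.1), hs_wzy.1.trans (add_le_add (add_le_add hw.2.1 hz.2.1) hy.2.2.1), hs_wzy.1.trans (add_le_add (add_le_add hw.2.2.1 hz.2.1) hy.2.1), hs_wzy.1.trans (add_le_add (add_le_add hw.2.2.1 hz.2.1) hy.2.2.1), hs_wzy.2.1.trans (add_le_add (add_le_add hw.2.2.2.1 hz.2.2.1) hy.2.2.2.1), hs_wzy.2.1.trans (add_le_add (add_le_add hw.2.2.2.1 hz.2.2.2.1) hy.2.2.2.1), hs_wzy.2.1.trans (add_le_add (add_le_add hw.2.2.2.2.1 hz.2.2.1) hy.2.2.2.1), hs_wzy.2.1.trans (add_le_add (add_le_add hw.2.2.2.2.1 hz.2.2.2.1) hy.2.2.2.1), hs_wzy.2.2.trans (add_le_add (add_le_add hw.2.2.2.2.2 hz.2.2.2.2.1) hy.2.2.2.2.1),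 hs_wzy.2.2.trans (add_le_add (add_le_add hw.2.2.2.2.2 hz.2.2.2.2.1) hy.2.2.2.2.2), hs_wzy.2.2.trans (add_le_add (add_le_add hw.2.2.2.2.2 hz.2.2.2.2.2) hy.2.2.2.2.1), hs_wzy.2.2.trans (add_le_add (add_le_add hw.2.2.2.2.2 hz.2.2.2.2.2) hy.2.2.2.2.2)⟩ ).elim
  · exact (P1_BBB_M13_M13_M23 n1 n2 n3 A1 A2 A3 B1 B2 B3 hb hp ⟨hz.1, hy.1⟩ ⟨hs_zwy.1.trans (add_le_add (add_le_add hz.2.1 hw.2.1) hy.2.1), hs_zwy.1.trans (add_le_add (add_le_add hz.2.1 hw.2.1) hy.2.2.1), hs_zwy.2.1.trans (add_le_add (add_le_add hz.2.2.1 hw.2.2.1) hy.2.2.2.1), hs_zwy.2.1.trans (add_le_add (add_le_add hz.2.2.1 hw.2.2.2.1) hy.2.2.2.1), hs_zwy.2.1.trans (add_le_add (add_le_add hz.2.2.2.1 hw.2.2.1) hy.2.2.2.1), hs_zwy.2.1.trans (add_le_add (add_le_add hz.2.2.2.1 hw.2.2.2.1) hy.2.2.2.1), hs_zwy.2.2.trans (add_le_add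 (add_le_add hz.2.2.2.2.1 hw.2.2.2.2.1) hy.2.2.2.2.1), hs_zwy.2.2.trans (add_le_add (add_le_add hz.2.2.2.2.1 hw.2.2.2.2.1) hy.2.2.2.2.2), hs_zwy.2.2.trans (add_le_add (add_le_add hz.2.2.2.2.1 hw.2.2.2.2.2) hy.2.2.2.2.1), hs_zwy.2.2.trans (add_le_add (add_le_add hz.2.2.2.2.1 hw.2.2.2.2.2) hy.2.2.2.2.2), hs_zwy.2.2.trans (add_le_add (add_le_add hz.2.2.2.2.2 hw.2.2.2.2.1) hy.2.2.2.2.1), hs_zwy.2.2.trans (add_le_add (add_le_add hz.2.2.2.2.2 hw.2.2.2.2.1) hy.2.2.2.2.2), hs_zwy.2.2.trans (add_le_add (add_le_add hz.2.2.2.2.2 hw.2.2.2.2.2) hy.2.2.2.2.1), hs_zwy.2.2.trans (add_le_add (add_le_add hz.2.2.2.2.2 hw.2.2.2.2.2) hy.2.2.2.2.2)⟩ ).elim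
  · exact (P1_BBB_M13_M23_M23 n1 n2 n3 A1 A2 A3 B1 B2 B3 hb hp ⟨hz.1, hy.1⟩ ⟨hs_zyw.1.trans (add_le_add (add_le_add hz.2.1 hy.2.1) hw.2.1), hs_zyw.1.trans (add_le_add (add_le_add hz.2.1 hy.2.1) hw.2.2.1), hs_zyw.1.trans (add_le_add (add_le_add hz.2.1 hy.2.2.1) hw.2.1), hs_zyw.1.trans (add_le_add (add_le_add hz.2.1 hy.2.2.1) hw.2.2.1), hs_zyw.2.1.trans (add_le_add (add_le_add hz.2.2.1 hy.2.2.2.1) hw.2.2.2.1), hs_zyw.2.1.trans (add_le_add (add_le_add hz.2.2.2.1 hy.2.2.2.1) hw.2.2.2.1), hs_zyw.2.2.trans (add_le_add (add_le_add hz.2.2.2.2.1 hy.2.2.2.2.1) hw.2.2.2.2.1), hs_zyw.2.2.trans (add_le_add (add_le_add hz.2.2.2.2.1 hy.2.2.2.2.1) hw.2.2.2.2.2), hs_zyw.2.2.trans (add_le_add (add_le_add hz.2.2.2.2.1 hy.2.2.2.2.2) hw.2.2.2.2.1), hs_zyw.2.2.trans (add_le_add (add_le_add hz.2.2.2.2.1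 hy.2.2.2.2.2) hw.2.2.2.2.2), hs_zyw.2.2.trans (add_le_add (add_le_add hz.2.2.2.2.2 hy.2.2.2.2.1) hw.2.2.2.2.1), hs_zyw.2.2.trans (add_le_add (add_le_add hz.2.2.2.2.2 hy.2.2.2.2.1) hw.2.2.2.2.2), hs_zyw.2.2.trans (add_le_add (add_le_add hz.2.2.2.2.2 hy.2.2.2.2.2) hw.2.2.2.2.1), hs_zyw.2.2.trans (add_le_add (add_le_add hz.2.2.2.2.2 hy.2.2.2.2.2) hw.2.2.2.2.2)⟩ ).elim
  · exact (P1_BBB_S1_M23_M23 n1 n2 n3 A1 A2 A3 B1 B2 B3 hb hp ⟨hy.1, hw.1⟩ ⟨hs_wyz.1.trans (add_le_add (add_le_add hw.2.1 hy.2.1) hz.2.1), hs_wyz.1.trans (add_le_add (add_le_add hw.2.1 hy.2.1) hz.2.2.1), hs_wyz.1.trans (add_le_add (add_le_add hw.2.1 hy.2.2.1) hz.2.1), hs_wyz.1.trans (add_le_add (add_le_add hw.2.1 hy.2.2.1) hz.2.2.1), hs_wyz.2.1.trans (add_le_add (add_le_add hw.2.2.1 hy.2.2.2.1) hz.2.2.2.1), hs_wyz.2.2.trans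 (add_le_add (add_le_add hw.2.2.2 hy.2.2.2.2.1) hz.2.2.2.2.1), hs_wyz.2.2.trans (add_le_add (add_le_add hw.2.2.2 hy.2.2.2.2.1) hz.2.2.2.2.2), hs_wyz.2.2.trans (add_le_add (add_le_add hw.2.2.2 hy.2.2.2.2.2) hz.2.2.2.2.1), hs_wyz.2.2.trans (add_le_add (add_le_add hw.2.2.2 hy.2.2.2.2.2) hz.2.2.2.2.2)⟩ m_BB_S1_M23).elim
  · exact (P1_BBB_S2_M23_M23 n1 n2 n3 A1 A2 A3 B1 B2 B3 hb hp ⟨hy.1, hw.1⟩ ⟨hs_wyz.1.trans (add_le_add (add_le_add hw.2.1 hy.2.1) hz.2.1), hs_wyz.1.trans (add_le_add (add_le_add hw.2.1 hy.2.1) hz.2.2.1), hs_wyz.1.trans (add_le_add (add_le_add hw.2.1 hy.2.2.1) hz.2.1), hs_wyz.1.trans (add_le_add (add_le_add hw.2.1 hy.2.2.1) hz.2.2.1), hs_wyz.1.trans (add_le_add (add_le_add hw.2.2.1 hy.2.1) hz.2.1), hs_wyz.1.trans (add_le_add (add_le_add hw.2.2.1 hy.2.1) hz.2.2.1),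 hs_wyz.1.trans (add_le_add (add_le_add hw.2.2.1 hy.2.2.1) hz.2.1), hs_wyz.1.trans (add_le_add (add_le_add hw.2.2.1 hy.2.2.1) hz.2.2.1), hs_wyz.2.1.trans (add_le_add (add_le_add hw.2.2.2.1 hy.2.2.2.1) hz.2.2.2.1), hs_wyz.2.2.trans (add_le_add (add_le_add hw.2.2.2.2 hy.2.2.2.2.1) hz.2.2.2.2.1), hs_wyz.2.2.trans (add_le_add (add_le_add hw.2.2.2.2 hy.2.2.2.2.1) hz.2.2.2.2.2), hs_wyz.2.2.trans (add_le_add (add_le_add hw.2.2.2.2 hy.2.2.2.2.2) hz.2.2.2.2.1), hs_wyz.2.2.trans (add_le_add (add_le_add hw.2.2.2.2 hy.2.2.2.2.2) hz.2.2.2.2.2)⟩ m_BB_S2_M23).elim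
  · exact (P1_BBB_S3_M23_M23 n1 n2 n3 A1 A2 A3 B1 B2 B3 hb hp ⟨hy.1, hw.1⟩ ⟨hs_wyz.1.trans (add_le_add (add_le_add hw.2.1 hy.2.1) hz.2.1), hs_wyz.1.trans (add_le_add (add_le_add hw.2.1 hy.2.1) hz.2.2.1), hs_wyz.1.trans (add_le_add (add_le_add hw.2.1 hy.2.2.1) hz.2.1), hs_wyz.1.trans (add_le_add (add_le_add hw.2.1 hy.2.2.1) hz.2.2.1), hs_wyz.1.trans (add_le_add (add_le_add hw.2.2.1 hy.2.1) hz.2.1), hs_wyz.1.trans (add_le_add (add_le_add hw.2.2.1 hy.2.1) hz.2.2.1), hs_wyz.1.trans (add_le_add (add_le_add hw.2.2.1 hy.2.2.1) hz.2.1), hs_wyz.1.trans (add_le_add (add_le_add hw.2.2.1 hy.2.2.1) hz.2.2.1), hs_wyz.2.1.trans (add_le_add (add_le_add hw.2.2.2.1 hy.2.2.2.1) hz.2.2.2.1), hs_wyz.2.1.trans (add_le_add (add_le_add hw.2.2.2.2.1 hy.2.2.2.1) hz.2.2.2.1), hs_wyz.2.2.trans (add_le_add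 (add_le_add hw.2.2.2.2.2 hy.2.2.2.2.1) hz.2.2.2.2.1), hs_wyz.2.2.trans (add_le_add (add_le_add hw.2.2.2.2.2 hy.2.2.2.2.1) hz.2.2.2.2.2), hs_wyz.2.2.trans (add_le_add (add_le_add hw.2.2.2.2.2 hy.2.2.2.2.2) hz.2.2.2.2.1), hs_wyz.2.2.trans (add_le_add (add_le_add hw.2.2.2.2.2 hy.2.2.2.2.2) hz.2.2.2.2.2)⟩ ).elim
  · exact (P1_BBB_M13_M23_M23 n1 n2 n3 A1 A2 A3 B1 B2 B3 hb hp ⟨hw.1, hy.1⟩ ⟨hs_wyz.1.trans (add_le_add (add_le_add hw.2.1 hy.2.1) hz.2.1), hs_wyz.1.trans (add_le_add (add_le_add hw.2.1 hy.2.1) hz.2.2.1), hs_wyz.1.trans (add_le_add (add_le_add hw.2.1 hy.2.2.1) hz.2.1), hs_wyz.1.trans (add_le_add (add_le_add hw.2.1 hy.2.2.1) hz.2.2.1), hs_wyz.2.1.trans (add_le_add (add_le_add hw.2.2.1 hy.2.2.2.1) hz.2.2.2.1), hs_wyz.2.1.trans (add_le_add (add_le_add hw.2.2.2.1 hy.2.2.2.1)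 hz.2.2.2.1), hs_wyz.2.2.trans (add_le_add (add_le_add hw.2.2.2.2.1 hy.2.2.2.2.1) hz.2.2.2.2.1), hs_wyz.2.2.trans (add_le_add (add_le_add hw.2.2.2.2.1 hy.2.2.2.2.1) hz.2.2.2.2.2), hs_wyz.2.2.trans (add_le_add (add_le_add hw.2.2.2.2.1 hy.2.2.2.2.2) hz.2.2.2.2.1), hs_wyz.2.2.trans (add_le_add (add_le_add hw.2.2.2.2.1 hy.2.2.2.2.2) hz.2.2.2.2.2), hs_wyz.2.2.trans (add_le_add (add_le_add hw.2.2.2.2.2 hy.2.2.2.2.1) hz.2.2.2.2.1), hs_wyz.2.2.trans (add_le_add (add_le_add hw.2.2.2.2.2 hy.2.2.2.2.1) hz.2.2.2.2.2), hs_wyz.2.2.trans (add_le_add (add_le_add hw.2.2.2.2.2 hy.2.2.2.2.2) hz.2.2.2.2.1), hs_wyz.2.2.trans (add_le_add (add_le_add hw.2.2.2.2.2 hy.2.2.2.2.2) hz.2.2.2.2.2)⟩ ).elim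
  · exact (P1_BBB_M23_M23_M23 n1 n2 n3 A1 A2 A3 B1 B2 B3 hb hp hy.1 ⟨hs.1.trans (add_le_add (add_le_add hy.2.1 hz.2.1) hw.2.1), hs.1.trans (add_le_add (add_le_add hy.2.1 hz.2.1) hw.2.2.1), hs.1.trans (add_le_add (add_le_add hy.2.1 hz.2.2.1) hw.2.1), hs.1.trans (add_le_add (add_le_add hy.2.1 hz.2.2.1) hw.2.2.1), hs.1.trans (add_le_add (add_le_add hy.2.2.1 hz.2.1) hw.2.1), hs.1.trans (add_le_add (add_le_add hy.2.2.1 hz.2.1) hw.2.2.1), hs.1.trans (add_le_add (add_le_add hy.2.2.1 hz.2.2.1) hw.2.1), hs.1.trans (add_le_add (add_le_add hy.2.2.1 hz.2.2.1) hw.2.2.1), hs.2.1.trans (add_le_add (add_le_add hy.2.2.2.1 hz.2.2.2.1) hw.2.2.2.1), hs.2.2.trans (add_le_add (add_le_add hy.2.2.2.2.1 hz.2.2.2.2.1) hw.2.2.2.2.1), hs.2.2.trans (add_le_add (add_le_add hy.2.2.2.2.1 hz.2.2.2.2.1)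 hw.2.2.2.2.2), hs.2.2.trans (add_le_add (add_le_add hy.2.2.2.2.1 hz.2.2.2.2.2) hw.2.2.2.2.1), hs.2.2.trans (add_le_add (add_le_add hy.2.2.2.2.1 hz.2.2.2.2.2) hw.2.2.2.2.2), hs.2.2.trans (add_le_add (add_le_add hy.2.2.2.2.2 hz.2.2.2.2.1) hw.2.2.2.2.1), hs.2.2.trans (add_le_add (add_le_add hy.2.2.2.2.2 hz.2.2.2.2.1) hw.2.2.2.2.2), hs.2.2.trans (add_le_add (add_le_add hy.2.2.2.2.2 hz.2.2.2.2.2) hw.2.2.2.2.1), hs.2.2.trans (add_le_add (add_le_add hy.2.2.2.2.2 hz.2.2.2.2.2) hw.2.2.2.2.2)⟩ ).elim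

theorem coreP1 (n1 n2 n3 A1 A2 A3 B1 B2 B3 : ℤ) (hb : Base n1 n2 n3 A1 A2 A3 B1 B2 B3) (hp : B1 ≤ A1 ∧ B2 ≤ A2 ∧ A3 < B3 ∧ (B1 < A1 ∨ B2 < A2))
    (hNT : NoTwo n1 n2 n3 A1 A2 A3 B1 B2 B3) (hTh : Three n1 n2 n3 A1 A2 A3 B1 B2 B3) : Fam n1 n2 n3 A1 A2 A3 B1 B2 B3 := by
  obtain ⟨x1, x2, x3, x1', x2', x3', x1'', x2'', x3'', y1, y2, y3, z1, z2, z3, w1, w2, w3, -, -, -,
    ly, lz, lw, wx, wx', wx'', wy, wz, ww, e1, e2, e3⟩ := hTh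
  have hy := kindP1 n1 n2 n3 A1 A2 A3 B1 B2 B3 y1 y2 y3 hb hp ly wy
  have hz := kindP1 n1 n2 n3 A1 A2 A3 B1 B2 B3 z1 z2 z3 hb hp lz wz
  have hw := kindP1 n1 n2 n3 A1 A2 A3 B1 B2 B3 w1 w2 w3 hb hp lw ww
  clear ly lz lw wy wz ww
  have h : (A1 + A1 + A1 ≤ y1 + z1 + w1 ∧ A2 + A2 + A2 ≤ y2 + z2 + w2 ∧ A3 + A3 + A3 ≤ y3 + z3 + w3) ∨
      (A1 + A1 + B1 ≤ y1 + z1 + w1 ∧ A2 + A2 + B2 ≤ y2 + z2 + w2 ∧ A3 + A3 + B3 ≤ y3 + z3 + w3) ∨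
      (A1 + B1 + B1 ≤ y1 + z1 + w1 ∧ A2 + B2 + B2 ≤ y2 + z2 + w2 ∧ A3 + B3 + B3 ≤ y3 + z3 + w3) ∨
      (B1 + B1 + B1 ≤ y1 + z1 + w1 ∧ B2 + B2 + B2 ≤ y2 + z2 + w2 ∧ B3 + B3 + B3 ≤ y3 + z3 + w3) := by
    clear hy hz hw hb hp hNT
    rcases wx with wx | wx <;> rcases wx' with wx' | wx' <;> rcases wx'' with wx'' | wx'' <;>
      first
      | exact Or.inl (by omega)
      | exact Or.inr (Or.inl (by omega))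
      | exact Or.inr (Or.inr (Or.inl (by omega)))
      | exact Or.inr (Or.inr (Or.inr (by omega)))
  rcases h with h | h | h | h
  · exact coreP1AAA n1 n2 n3 A1 A2 A3 B1 B2 B3 y1 y2 y3 z1 z2 z3 w1 w2 w3 hb hp hNT hy hz hw h
  · exact coreP1AAB n1 n2 n3 A1 A2 A3 B1 B2 B3 y1 y2 y3 z1 z2 z3 w1 w2 w3 hb hp hNT hy hz hw h
  · exact coreP1ABB n1 n2 n3 A1 A2 A3 B1 B2 B3 y1 y2 y3 z1 z2 z3 w1 w2 w3 hb hp hNT hy hz hw h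
  · exact coreP1BBB n1 n2 n3 A1 A2 A3 B1 B2 B3 y1 y2 y3 z1 z2 z3 w1 w2 w3 hb hp hNT hy hz hw h

end Pool.Agent.H698.TT
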