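import Mathlib
import Pool.Graph.R_pool_sql_team_seeded_3997aac3.Q102.TradeVec

/-!
Complete simple games with three types of voters and two shift-minimal winning vectors:
vectors of partial sums, statements of the auxiliary lemmas.
-/

namespace Pool.Agent.H698.TT

open Finset Classical Pool.Agent.Q102.Trade

/-- `(x1, x2, x3)` are the partial sums of an integer vector `c` with `0 ≤ c k ≤ n k`. -/
abbrev Lat (n1 n2 n3 x1 x2 x3 : ℤ) : Prop :=
  0 ≤ x1 ∧ x1 ≤ n1 ∧ x1 ≤ x2 ∧ x2 ≤ x1 + n2 ∧ x2 ≤ x3 ∧ x3 ≤ x2 + n3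

/-- the vector of partial sums `x` is at least `A` or at least `B` -/
abbrev Win (A1 A2 A3 B1 B2 B3 x1 x2 x3 : ℤ) : Prop :=
  (A1 ≤ x1 ∧ A2 ≤ x2 ∧ A3 ≤ x3) ∨ (B1 ≤ x1 ∧ B2 ≤ x2 ∧ B3 ≤ x3)

/-- no two losing vectors whose sum is at least `R + R'`, `R, R' ∈ {A, B}` -/
def NoTwo (n1 n2 n3 A1 A2 A3 B1 B2 B3 : ℤ) : Prop :=
  ∀ y1 y2 y3 z1 z2 z3 : ℤ, Lat n1 n2 n3 y1 y2 y3 → Lat n1 n2 n3 z1 z2 z3 →
    ¬ Win A1 A2 A3 B1 B2 B3 y1 y2 y3 → ¬ Win A1 A2 A3 B1 B2 B3 z1 z2 z3 →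
    ¬ (A1 + A1 ≤ y1 + z1 ∧ A2 + A2 ≤ y2 + z2 ∧ A3 + A3 ≤ y3 + z3) ∧
    ¬ (A1 + B1 ≤ y1 + z1 ∧ A2 + B2 ≤ y2 + z2 ∧ A3 + B3 ≤ y3 + z3) ∧
    ¬ (B1 + B1 ≤ y1 + z1 ∧ B2 + B2 ≤ y2 + z2 ∧ B3 + B3 ≤ y3 + z3)

/-- three winning and three losing vectors with the same sum -/
def Three (n1 n2 n3 A1 A2 A3 B1 B2 B3 : ℤ) : Prop :=
  ∃ x1 x2 x3 x1' x2' x3' x1'' x2'' x3'' y1 y2 y3 y1' y2' y3' y1'' y2'' y3'' : ℤ,
    Lat n1 n2 n3 x1 x2 x3 ∧ Lat n1 n2 n3 x1' x2' x3' ∧ Lat n1 n2 n3 x1'' x2'' x3'' ∧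
    Lat n1 n2 n3 y1 y2 y3 ∧ Lat n1 n2 n3 y1' y2' y3' ∧ Lat n1 n2 n3 y1'' y2'' y3'' ∧
    Win A1 A2 A3 B1 B2 B3 x1 x2 x3 ∧ Win A1 A2 A3 B1 B2 B3 x1' x2' x3' ∧
    Win A1 A2 A3 B1 B2 B3 x1'' x2'' x3'' ∧
    ¬ Win A1 A2 A3 B1 B2 B3 y1 y2 y3 ∧ ¬ Win A1 A2 A3 B1 B2 B3 y1' y2' y3' ∧
    ¬ Win A1 A2 A3 B1 B2 B3 y1'' y2'' y3'' ∧
    x1 + x1' + x1'' = y1 + y1' + y1'' ∧ x2 + x2' + x2'' = y2 + y2' + y2'' ∧
    x3 + x3' + x3'' = y3 + y3' + y3''

/-- isomorphism of a game on `N` with a game on `Pl n` -/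
def Iso {N : Type} {t : ℕ} {n : Fin t → ℕ} (W : Finset N → Prop) (V : Finset (Pl n) → Prop) :
    Prop :=
  ∃ e : N ≃ Pl n, ∀ S : Finset N, W S ↔ V (S.map e.toEmbedding)

/-- the parameters of the family `F1` -/
def n1 (k1 k2 k3 l : ℕ) : Fin 3 → ℕ := ![2 * l + 3 + k1, k2 + 3, 2 * l + 5 + k3]

/-- the rows of the family `F1` -/
noncomputable def R1 (k1 k2 k3 l : ℕ) : Finset (Fin 3 → ℕ) :=
  {![2 * l + 3 + k1 - l - 1, k2 + 3 - 1, 2 * l + 5 + k3 - l - 2],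
    ![2 * l + 3 + k1 - 2 * l - 2, k2 + 3 - 1, 2 * l + 5 + k3]}

/-- the parameters of the family `F2` -/
def n2 (k1 k2 l : ℕ) : Fin 3 → ℕ := ![2 * l + 3 + k1, k2 + 3, 2 * l + 5]

/-- the rows of the family `F2` -/
noncomputable def R2 (l : ℕ) : Finset (Fin 3 → ℕ) := {![l + 1, 1, l + 2], ![0, 1, 2 * l + 4]}

/-- a complete simple game with three types and two shift-minimal winning vectors, namely `R`,
which is 2-trade robust but not 3-trade robust -/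
def Good (n : Fin 3 → ℕ) (R : Finset (Fin 3 → ℕ)) : Prop :=
  IsSimple (rgame n R) ∧ Complete (rgame n R) ∧ numTypes (rgame n R) = 3 ∧
    numShiftMin (rgame n R) = 2 ∧ (∀ S : Finset (Pl n), ShiftMin (rgame n R) S ↔ cnt S ∈ R) ∧
    TradeRobust 2 (rgame n R) ∧ ¬ TradeRobust 3 (rgame n R)

/-! ### statements -/

/-- T1: two sums can be made equal.
Proof. Strong induction on `m = (l1 + m1 - r1 - s1) + (l2 + m2 - r2 - s2) + (l3 + m3 - r3 - s3)`
(as a natural number, `Int.toNat`), all three summands being nonnegative. If `m = 0`, take the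
vectors themselves. If `m > 0`, one of the following twelve moves is possible, it preserves the
hypotheses and lowers `m` by one: for some `k` with `l_k + m_k - r_k - s_k > 0` lower `l_k` by one
(possible if the new vector is still in `Lat`), or lower `m_k` by one, or raise `r_k` by one, or
raise `s_k` by one. One of the moves is possible: let `k` be the LEAST index with a positive
difference. Then `(l_k - l_{k-1}) + (m_k - m_{k-1}) > (r_k - r_{k-1}) + (s_k - s_{k-1})`, so one of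
`l, m` has a positive `k`-th entry (say `l`) and one of `r, s` has a `k`-th entry smaller than `n_k`
(say `r`). If `k = 3`, lower `l_3`. If `l_k` can not be lowered, then `l_{k+1} - l_k = n_{k+1}`; if
`r_k` can not be raised, then `r_{k+1} - r_k = 0`; so the difference at `k + 1` is positive too, and
`l_{k+1} - l_k = n_{k+1} > 0`, `r_{k+1} - r_k = 0 < n_{k+1}`: repeat with `k + 1`. At the end `l_3`
can be lowered. In Lean: a case distinction on which of `l, m` and which of `r, s`, then `omega` for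
each step; do not ask `omega` for the twelve-fold disjunction at once (it may need too much memory),
give it one implication at a time. -/
def S_interp : Prop := ∀ n1 n2 n3 r1 r2 r3 s1 s2 s3 l1 l2 l3 m1 m2 m3 : ℤ,
  1 ≤ n1 → 1 ≤ n2 → 1 ≤ n3 →
  Lat n1 n2 n3 r1 r2 r3 → Lat n1 n2 n3 s1 s2 s3 → Lat n1 n2 n3 l1 l2 l3 →
  Lat n1 n2 n3 m1 m2 m3 → r1 + s1 ≤ l1 + m1 → r2 + s2 ≤ l2 + m2 → r3 + s3 ≤ l3 + m3 →
  ∃ r1' r2' r3' s1' s2' s3' l1' l2' l3' m1' m2' m3' : ℤ,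
    Lat n1 n2 n3 r1' r2' r3' ∧ Lat n1 n2 n3 s1' s2' s3' ∧ Lat n1 n2 n3 l1' l2' l3' ∧
    Lat n1 n2 n3 m1' m2' m3' ∧ r1 ≤ r1' ∧ r2 ≤ r2' ∧ r3 ≤ r3' ∧ s1 ≤ s1' ∧ s2 ≤ s2' ∧ s3 ≤ s3' ∧
    l1' ≤ l1 ∧ l2' ≤ l2 ∧ l3' ≤ l3 ∧ m1' ≤ m1 ∧ m2' ≤ m2 ∧ m3' ≤ m3 ∧
    r1' + s1' = l1' + m1' ∧ r2' + s2' = l2' + m2' ∧ r3' + s3' = l3' + m3'

/-- T2: 2-trade robust games have no weak 2-trades of vectors (from T1 and `exists_trade`). -/
def S_noTwo : Prop := ∀ (n a b : Fin 3 → ℕ), (∀ k, 1 ≤ n k) → (∀ k, a k ≤ n k) →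
  (∀ k, b k ≤ n k) → TradeRobust 2 (rgame n {a, b}) →
  NoTwo (n 0) (n 1) (n 2) (a 0) (a 0 + a 1) (a 0 + a 1 + a 2)
    (b 0) (b 0 + b 1) (b 0 + b 1 + b 2)

/-- T3: a 3-trade of vectors -/
def S_three : Prop := ∀ (n a b : Fin 3 → ℕ), TradeRobust 2 (rgame n {a, b}) →
  ¬ TradeRobust 3 (rgame n {a, b}) →
  Three (n 0) (n 1) (n 2) (a 0) (a 0 + a 1) (a 0 + a 1 + a 2)
    (b 0) (b 0 + b 1) (b 0 + b 1 + b 2)

/-- T4: types of a complete game with three types.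
Proof. `Ge W` is reflexive and transitive (`Ge.refl`, `Ge.trans`) and total. For `i : N` let
`cls i = univ.filter (Same W i)`, as in the definition of `numTypes`, and let
`rk i = #((univ.filter fun j => Ge W j i ∧ ¬ Ge W i j).image cls)` be the number of classes strictly
above the one of `i`. If `Ge W i j`, then `rk i ≤ rk j` (subset); if moreover not `Ge W j i`, then
`rk i < rk j` (`cls i` is counted for `j` and not for `i`). `rk i < 3`, because `cls i` itself is not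
counted and there are 3 classes in all. So `τ i = rk i` satisfies the equivalence, with totality.
Surjective: `τ` factors through the classes injectively (`τ i = τ j` gives `Same W i j`, hence
`cls i = cls j`), so the image of `τ` has exactly `numTypes W = 3` elements. (Another way: the
`Antisymmetrization` of the preorder is a linear order with 3 elements,
`Fintype.orderIsoFinOfCardEq`.) -/
def S_types : Prop := ∀ (N : Type) [Fintype N] [DecidableEq N] (W : Finset N → Prop),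
  Complete W → numTypes W = 3 →
  ∃ τ : N → Fin 3, Function.Surjective τ ∧ ∀ i j, Ge W i j ↔ τ i ≤ τ j

/-- T5: dominance implies desirability.
Proof. Induction on `#(S \ T)` (for all `S`). If `S ⊆ T`, use monotonicity. Otherwise choose
`s ∈ S \ T` of least type `k`. Since `psum (cnt T) k ≥ psum (cnt S) k` (these are the numbers of
elements of type `≤ k` of `T`, `S`) and `S \ T` has an element of type `≤ k`, also `T \ S` has an
element `t` of type `m ≤ k`. Let `S' = insert t (S.erase s)`. `W S'` holds, by `Ge W t s` applied to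
`S.erase s`. `#(S' \ T) = #(S \ T) - 1`. `DomV (cnt T) (cnt S')`: `psum (cnt S') j = psum (cnt S) j
+ [m ≤ j] - [k ≤ j]`; for `j ≥ k` or `j < m` nothing changes; for `m ≤ j < k` no element of `S \ T`
has type `≤ j`, but `t ∈ T \ S` has, so `psum (cnt T) j ≥ psum (cnt S) j + 1`. Useful:
`psum_cnt_insert`, `cnt_insert`, `cnt_mono` in `TradeVec.lean`, and
`psum (cnt S) j = #(S.filter fun x => x.1 ≤ j)`. -/
def S_dom : Prop := ∀ (n : Fin 3 → ℕ) (W : Finset (Pl n) → Prop), IsSimple W →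
  (∀ x y : Pl n, x.1 ≤ y.1 → Ge W x y) →
  ∀ S T : Finset (Pl n), DomV (cnt T) (cnt S) → W S → W T

/-- T6: a game with ordered types is given by its shift-minimal winning vectors (from T5).
Proof. `Same W x y ↔ x.1 = y.1`, `typeVec W S x = cnt S x.1`, `upCount W S x = psum (cnt S) x.1`,
`Dom W S T ↔ DomV (cnt S) (cnt T)` as in `TradeVec.lean` (`same_iff`, `typeVec_eq`, `upCount_eq`,
`dom_iff`, the same proofs with the hypothesis on `Ge W` in place of `ge_iff`). Let `R` be the image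
of the shift-minimal winning coalitions under `cnt`. `numShiftMin W = #R = 2` (`typeVec W S` is
`cnt S` composed with the surjective map `x ↦ x.1`), so `R = {a, b}`, `a ≠ b` (`Finset.card_eq_two`).
`a k ≤ n k` by `cnt_le`. `¬ DomV a b`: otherwise, if `a = cnt S`, `b = cnt T`, then `S` dominates
`T`, `T` is winning and `cnt T ≠ cnt S`, against `ShiftMin W S`; in the same way `¬ DomV b a`.
`W S ↔ rgame n {a, b} S`: `←` is T5 (dominance implies winning). `→`: by strong induction on the sum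
of the `psum (cnt S) k`; if `S` is not shift-minimal, there is `T` with `Dom W S T`, `W T` and
`typeVec W T ≠ typeVec W S`, and the sum of the partial sums of `T` is smaller (`DomV.antisymm`).
The last two conditions: for `k = 0` (the first one) take a voter `x` of type `0` and `y` of type
`1` (`n k ≥ 1`). `¬ Ge W y x`, so there is `S` with `x, y ∉ S`, `W (insert x S)` and
`¬ W (insert y S)`. Let `c = cnt (insert x S)`; `c 0 ≥ 1`, `c 1 < n 1`, since `y` is missing. Take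
`r ∈ {a, b}` with `DomV c r`, and let `c' = cnt (insert y S) = c - e_0 + e_1`; `¬ DomV c' r`. The
partial sums of `c'` and `c` differ only at index `0`, so `r 0 = c 0 > 0` and
`r 0 + r 1 ≤ c 0 + c 1 < c 0 + n 1 = r 0 + n 1`, that is `r 1 < n 1`. The second condition in the
same way with types `1`, `2`: `r 0 + r 1 = c 0 + c 1`, `r 0 + r 1 + r 2 ≤ c 0 + c 1 + c 2 <
r 0 + r 1 + n 2`, so `r 2 < n 2`; and `r 1 > 0`, because `r 0 ≤ c 0` and `r 0 + r 1 = c 0 + c 1` with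
`c 1 ≥ 1`. The theorem `domV_iff` (file Assemble.lean) writes `DomV` out. -/
def S_rep : Prop := ∀ (n : Fin 3 → ℕ) (W : Finset (Pl n) → Prop), (∀ k, 1 ≤ n k) →
  IsSimple W → (∀ x y : Pl n, Ge W x y ↔ x.1 ≤ y.1) → numShiftMin W = 2 →
  ∃ a b : Fin 3 → ℕ, a ≠ b ∧ (∀ k, a k ≤ n k) ∧ (∀ k, b k ≤ n k) ∧ ¬ DomV a b ∧ ¬ DomV b a ∧
    (∀ S, W S ↔ rgame n {a, b} S) ∧
    ((0 < a 0 ∧ a 1 < n 1) ∨ (0 < b 0 ∧ b 1 < n 1)) ∧
    ((0 < a 1 ∧ a 2 < n 2) ∨ (0 < b 1 ∧ b 2 < n 2))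

/-- T7: transport to `Pl n` (from T4).
Proof. Take `τ` from T4, `n k = Fintype.card {x // τ x = k}`, positive as `τ` is surjective, and
`e : N ≃ Pl n` with `(e x).1 = τ x`, exactly as in the proof of `weighted_of_le_three` in the library
file `Pool/Graph/R_pool_sql_team_seeded_3997aac3/Q102/Trade3Main.lean` (do not import it, copy the
lines), `V S = W (S.map e.symm.toEmbedding)`. `Iso W V` by `e` (`(S.map e).map e.symm = S`).
`Ge V x y ↔ Ge W (e.symm x) (e.symm y) ↔ τ (e.symm x) ≤ τ (e.symm y) ↔ x.1 ≤ y.1`.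
`numShiftMin V = 2`: `ShiftMin V S ↔ ShiftMin W (S.map e.symm)`, `typeVec V S x = typeVec W (S.map
e.symm) (e.symm x)`, so the two images in the definition of `numShiftMin` correspond to each other
under the bijection `f ↦ f ∘ e` (`Finset.card_bij` or `card_image_of_injective`). Trade robustness
of `V` from the one of `W` as in `weighted_of_le_three` (`hrob'`), and conversely. -/
def S_iso : Prop := ∀ (N : Type) [Fintype N] [DecidableEq N] (W : Finset N → Prop),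
  IsSimple W → Complete W → numTypes W = 3 → numShiftMin W = 2 → TradeRobust 2 W →
  ¬ TradeRobust 3 W →
  ∃ (n : Fin 3 → ℕ) (V : Finset (Pl n) → Prop), (∀ k, 1 ≤ n k) ∧ Iso W V ∧ IsSimple V ∧
    (∀ x y : Pl n, Ge V x y ↔ x.1 ≤ y.1) ∧ numShiftMin V = 2 ∧ TradeRobust 2 V ∧
    ¬ TradeRobust 3 V

/-- T8: the family `F1`.
Proof. `n = ![2l+3+k1, k2+3, 2l+5+k3]`, rows `a = ![l+2+k1, k2+2, l+3+k3]`, `b = ![k1+1, k2+2,
2l+5+k3]`, partial sums `A = (l+2+k1, l+4+k1+k2, 2l+7+k1+k2+k3)`, `B = (k1+1, k1+k2+3,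
2l+8+k1+k2+k3)`. `IsSimple`, `Complete`, `numTypes`, `numShiftMin` and `ShiftMin` by the theorems
`rgame_simple, rgame_complete, rgame_numTypes, rgame_numShiftMin, shiftMin_iff` of the library file
TradeVec.lean. `Distinct n R`: for types 0, 1 take `c = b` (`b 0 > 0`, `b 1 < n 1`), for types 1, 2
take `c = a` (`a 1 > 0`, `a 2 < n 2`); the shifted vector does not dominate `a` or `b`. 2-trade
robust: a trade of length `j ≤ 2` with all `X i` winning and all `Y i` losing gives by `trade_cnt`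
equal sums of `cnt`; write `DomV` out (`domV_iff` in Assemble.lean) and use `omega` (`j = 1` and
`j = 2`; in the partial sums: winning = `≥ A` or `≥ B`; all cnt are bounded by `n`, `cnt_le`). Not
3-trade robust: `exists_trade` (TradeVec.lean) with the winning vectors `a, a, a` and the losing
vectors (entries, `n = (n0, n1, n2)`) of sum `3 a = (3l+6+3 k1, 3 k2 + 6, 3l+9+3 k3)`:
`y1 = (k1, k2+3, 2l+5+k3)` [first entry `< b 0`], `y2 = (2l+3+k1, k2+3, k3)` [total `2l+6+k1+k2+k3 <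
A3 < B3`] and `y3 = (l+3+k1, k2, l+4+k3)` [first two `l+3+k1+k2 < A2`, total `2l+7+k1+k2+k3 < B3`].
Please check the numbers; here `n0 = 2l+3+k1`, `n1 = k2+3`, `n2 = 2l+5+k3`. -/
def S_F1 : Prop := ∀ k1 k2 k3 l : ℕ, Good (n1 k1 k2 k3 l) (R1 k1 k2 k3 l)

/-- T9: the family `F2`.
Proof. As for `F1`: `n = ![2l+3+k1, k2+3, 2l+5]`, rows `a = ![l+1, 1, l+2]`, `b = ![0, 1, 2l+4]`,
partial sums `A = (l+1, l+2, 2l+4)`, `B = (0, 1, 2l+5)`. `Distinct`: types 0, 1: `c = a` (`a 0 > 0`,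
`a 1 = 1 < n 1`), types 1, 2: `c = a` (`a 1 = 1 > 0`, `a 2 = l + 2 < 2 l + 5`). Not 3-trade robust:
winning vectors `a, a, a`, sum `(3l+3, 3, 3l+6)`; losing vectors `y1 = (0, 0, 2l+5)` [first two
`0 < 1`], `y2 = (2l+3, 0, 0)` [total `2l+3 < 2l+4`] and `y3 = (l, 3, l+1)` [first `< l+1`, total
`2l+4 < 2l+5`]. -/
def S_F2 : Prop := ∀ k1 k2 l : ℕ, Good (n2 k1 k2 l) (R2 l)

/-- the members of `F1` and `F2` in terms of partial sums -/
abbrev Fam (n1 n2 n3 A1 A2 A3 B1 B2 B3 : ℤ) : Prop :=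
  ((A1 = B1 + (n1 - A1) ∧ A2 - A1 = n2 - 1 ∧ B2 - B1 = n2 - 1 ∧ A3 - A2 = n3 - (n1 - A1) - 1 ∧
    B3 - B2 = n3 ∧ 1 ≤ n1 - A1 ∧ 2 * (n1 - A1) + 1 ≤ n1 ∧ 3 ≤ n2 ∧ 2 * (n1 - A1) + 3 ≤ n3) ∨
  (B1 = 0 ∧ A2 - A1 = 1 ∧ B2 - B1 = 1 ∧ A3 - A2 = A1 + 1 ∧ B3 - B2 = 2 * A1 + 2 ∧
    n3 = 2 * A1 + 3 ∧ 1 ≤ A1 ∧ 2 * A1 + 1 ≤ n1 ∧ 3 ≤ n2))

/-- the arithmetic core (generated case analysis) -/
def S_core : Prop := ∀ n1 n2 n3 A1 A2 A3 B1 B2 B3 : ℤ, 1 ≤ n1 → 1 ≤ n2 → 1 ≤ n3 →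
  Lat n1 n2 n3 A1 A2 A3 → Lat n1 n2 n3 B1 B2 B3 →
  ((0 < A1 ∧ A2 - A1 < n2) ∨ (0 < B1 ∧ B2 - B1 < n2)) →
  ((0 < A2 - A1 ∧ A3 - A2 < n3) ∨ (0 < B2 - B1 ∧ B3 - B2 < n3)) →
  (B1 < A1 ∨ (B1 = A1 ∧ B2 < A2)) → (A1 < B1 ∨ A2 < B2 ∨ A3 < B3) →
  NoTwo n1 n2 n3 A1 A2 A3 B1 B2 B3 → Three n1 n2 n3 A1 A2 A3 B1 B2 B3 →
  Fam n1 n2 n3 A1 A2 A3 B1 B2 B3

end Pool.Agent.H698.TT
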