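import Pool.Agent.H698.TT.Assemble

/-!
Dominance implies desirability.
-/

namespace Pool.Agent.H698.TT

open Finset Classical Pool.Agent.Q102.Trade

namespace DomL

theorem psum_cnt {n : Fin 3 → ℕ} (j : Fin 3) (S : Finset (Pl n)) :
    psum (cnt S) j = #(S.filter fun x => x.1 ≤ j) := by
  induction S using Finset.induction_on with
  | empty =>
    unfold psum cnt
    simp
  | insert x S hx ih =>
    rw [psum_cnt_insert hx, ih, Finset.filter_insert]
    split_ifs with h
    · rw [Finset.card_insert_of_notMem (by simp [hx])]
    · simp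

theorem main {n : Fin 3 → ℕ} {W : Finset (Pl n) → Prop} (hW : IsSimple W)
    (hge : ∀ x y : Pl n, x.1 ≤ y.1 → Ge W x y) :
    ∀ (m : ℕ) (S T : Finset (Pl n)), #(S \ T) = m → DomV (cnt T) (cnt S) → W S → W T := by
  intro m
  induction m with
  | zero =>
    intro S T hm _ hS
    have hsub : S ⊆ T := by
      rw [Finset.card_eq_zero, Finset.sdiff_eq_empty_iff_subset] at hm
      exact hm
    exact hW.1 S T hsub hS
  | succ m ih =>
    intro S T hm hdom hS
    have hne : (S \ T).Nonempty := by
      rw [← Finset.card_pos, hm]
      omega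
    obtain ⟨s, hs, hmin⟩ := Finset.exists_min_image (S \ T) (fun x => x.1) hne
    rw [Finset.mem_sdiff] at hs
    obtain ⟨hsS, hsT⟩ := hs
    -- an element of `T \ S`
    have hex : ∃ t ∈ T, t ∉ S ∧ t.1 ≤ s.1 := by
      by_contra hcon
      push Not at hcon
      have h1 := hdom s.1
      rw [psum_cnt, psum_cnt] at h1
      have h2 : T.filter (fun x => x.1 ≤ s.1) ⊂ S.filter (fun x => x.1 ≤ s.1) := by
        refine Finset.ssubset_iff_subset_ne.2 ⟨?_, ?_⟩
        · intro x hx
          rw [Finset.mem_filter] at hx ⊢
          refine ⟨?_, hx.2⟩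
          by_contra hxS
          exact absurd hx.2 (not_le.2 (hcon x hx.1 hxS))
        · intro he
          have h3 : s ∈ S.filter (fun x => x.1 ≤ s.1) :=
            Finset.mem_filter.2 ⟨hsS, le_refl _⟩
          rw [← he, Finset.mem_filter] at h3
          exact hsT h3.1
      have h3 := Finset.card_lt_card h2
      omega
    obtain ⟨t, htT, htS, hts⟩ := hex
    have hSe : insert s (S.erase s) = S := Finset.insert_erase hsS
    have hs0 : s ∉ S.erase s := Finset.notMem_erase s S
    have ht0 : t ∉ S.erase s := fun h => htS (Finset.mem_of_mem_erase h)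
    have hWS' : W (insert t (S.erase s)) := by
      refine hge t s hts (S.erase s) ht0 hs0 ?_
      rw [hSe]
      exact hS
    refine ih (insert t (S.erase s)) T ?_ ?_ hWS'
    · have h1 : insert t (S.erase s) \ T = (S \ T).erase s := by
        ext x
        simp only [Finset.mem_sdiff, Finset.mem_insert, Finset.mem_erase]
        constructor
        · rintro ⟨rfl | ⟨h2, h3⟩, h4⟩
          · exact absurd htT h4
          · exact ⟨h2, h3, h4⟩
        · rintro ⟨h2, h3, h4⟩
          exact ⟨Or.inr ⟨h2, h3⟩, h4⟩
      rw [h1, Finset.card_erase_of_mem (Finset.mem_sdiff.2 ⟨hsS, hsT⟩), hm]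
      omega
    · intro j
      have h1 := hdom j
      have h2 : psum (cnt S) j = psum (cnt (S.erase s)) j + if s.1 ≤ j then 1 else 0 := by
        conv_lhs => rw [← hSe]
        exact psum_cnt_insert hs0 j
      rw [psum_cnt_insert ht0]
      by_cases hj : s.1 ≤ j
      · rw [if_pos hj] at h2
        rw [if_pos (hts.trans hj)]
        omega
      · rw [if_neg hj] at h2
        by_cases hj' : t.1 ≤ j
        · rw [if_pos hj']
          have h3 : S.filter (fun x => x.1 ≤ j) ⊂ T.filter (fun x => x.1 ≤ j) := by
            refine Finset.ssubset_iff_subset_ne.2 ⟨?_, ?_⟩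
            · intro x hx
              rw [Finset.mem_filter] at hx ⊢
              refine ⟨?_, hx.2⟩
              by_contra hxT
              have h4 := hmin x (Finset.mem_sdiff.2 ⟨hx.1, hxT⟩)
              exact hj (le_trans h4 hx.2)
            · intro he
              have h4 : t ∈ T.filter (fun x => x.1 ≤ j) := Finset.mem_filter.2 ⟨htT, hj'⟩
              rw [← he, Finset.mem_filter] at h4
              exact htS h4.1
          have h4 := Finset.card_lt_card h3
          rw [← psum_cnt, ← psum_cnt] at h4
          omega
        · rw [if_neg hj']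
          omega

end DomL

theorem dom : S_dom := by
  intro n W hW hge S T hdom hS
  exact DomL.main hW hge _ S T rfl hdom hS

end Pool.Agent.H698.TT
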