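import Pool.Agent.H698.TT.Assemble

/-!
The family `F1`.
-/

namespace Pool.Agent.H698.TT

open Finset Classical Pool.Agent.Q102.Trade

namespace FamOneL

/-- the first row -/
def ra (k1 k2 k3 l : ℕ) : Fin 3 → ℕ :=
  ![2 * l + 3 + k1 - l - 1, k2 + 3 - 1, 2 * l + 5 + k3 - l - 2]

/-- the second row -/
def rb (k1 k2 k3 l : ℕ) : Fin 3 → ℕ :=
  ![2 * l + 3 + k1 - 2 * l - 2, k2 + 3 - 1, 2 * l + 5 + k3]

theorem R1_eq (k1 k2 k3 l : ℕ) : R1 k1 k2 k3 l = {ra k1 k2 k3 l, rb k1 k2 k3 l} := rfl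

section vals

variable (k1 k2 k3 l : ℕ)

theorem n_0 : n1 k1 k2 k3 l 0 = 2 * l + 3 + k1 := rfl
theorem n_1 : n1 k1 k2 k3 l 1 = k2 + 3 := rfl
theorem n_2 : n1 k1 k2 k3 l 2 = 2 * l + 5 + k3 := rfl
theorem a_0 : ra k1 k2 k3 l 0 = l + 2 + k1 := by
  show 2 * l + 3 + k1 - l - 1 = l + 2 + k1
  omega
theorem a_1 : ra k1 k2 k3 l 1 = k2 + 2 := by
  show k2 + 3 - 1 = k2 + 2
  omega
theorem a_2 : ra k1 k2 k3 l 2 = l + 3 + k3 := by
  show 2 * l + 5 + k3 - l - 2 = l + 3 + k3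
  omega
theorem b_0 : rb k1 k2 k3 l 0 = k1 + 1 := by
  show 2 * l + 3 + k1 - 2 * l - 2 = k1 + 1
  omega
theorem b_1 : rb k1 k2 k3 l 1 = k2 + 2 := by
  show k2 + 3 - 1 = k2 + 2
  omega
theorem b_2 : rb k1 k2 k3 l 2 = 2 * l + 5 + k3 := rfl

end vals

variable {k1 k2 k3 l : ℕ}

theorem fin3 {p : Fin 3 → Prop} (h0 : p 0) (h1 : p 1) (h2 : p 2) : ∀ k, p k := by
  intro k
  fin_cases k
  · exact h0
  · exact h1
  · exact h2

theorem domA {c : Fin 3 → ℕ} : DomV c (ra k1 k2 k3 l) ↔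
    l + 2 + k1 ≤ c 0 ∧ l + 4 + k1 + k2 ≤ c 0 + c 1 ∧
      2 * l + 7 + k1 + k2 + k3 ≤ c 0 + c 1 + c 2 := by
  rw [domV_iff, a_0, a_1, a_2]
  omega

theorem domB {c : Fin 3 → ℕ} : DomV c (rb k1 k2 k3 l) ↔
    k1 + 1 ≤ c 0 ∧ 3 + k1 + k2 ≤ c 0 + c 1 ∧
      2 * l + 8 + k1 + k2 + k3 ≤ c 0 + c 1 + c 2 := by
  rw [domV_iff, b_0, b_1, b_2]
  omega

theorem ndomA {c : Fin 3 → ℕ} {x y z : ℕ} (h0 : c 0 = x) (h1 : c 1 = y) (h2 : c 2 = z)
    (h : ¬ (l + 2 + k1 ≤ x ∧ l + 4 + k1 + k2 ≤ x + y ∧ 2 * l + 7 + k1 + k2 + k3 ≤ x + y + z)) :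
    ¬ DomV c (ra k1 k2 k3 l) := by
  rw [domA, h0, h1, h2]
  exact h

theorem ndomB {c : Fin 3 → ℕ} {x y z : ℕ} (h0 : c 0 = x) (h1 : c 1 = y) (h2 : c 2 = z)
    (h : ¬ (k1 + 1 ≤ x ∧ 3 + k1 + k2 ≤ x + y ∧ 2 * l + 8 + k1 + k2 + k3 ≤ x + y + z)) :
    ¬ DomV c (rb k1 k2 k3 l) := by
  rw [domB, h0, h1, h2]
  exact h

theorem hn : ∀ k, 1 ≤ n1 k1 k2 k3 l k := by
  refine fin3 ?_ ?_ ?_
  · rw [n_0]; omega
  · rw [n_1]; omega
  · rw [n_2]; omega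

theorem boxA : ∀ k, ra k1 k2 k3 l k ≤ n1 k1 k2 k3 l k := by
  refine fin3 ?_ ?_ ?_
  · rw [n_0, a_0]; omega
  · rw [n_1, a_1]; omega
  · rw [n_2, a_2]; omega

theorem boxB : ∀ k, rb k1 k2 k3 l k ≤ n1 k1 k2 k3 l k := by
  refine fin3 ?_ ?_ ?_
  · rw [n_0, b_0]; omega
  · rw [n_1, b_1]; omega
  · rw [n_2, b_2]

theorem hbox : ∀ r ∈ R1 k1 k2 k3 l, ∀ k, r k ≤ n1 k1 k2 k3 l k := by
  intro r hr
  rw [R1_eq, Finset.mem_insert, Finset.mem_singleton] at hr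
  rcases hr with rfl | rfl
  · exact boxA
  · exact boxB

theorem nAB : ¬ DomV (ra k1 k2 k3 l) (rb k1 k2 k3 l) := by
  rw [domB, a_0, a_1, a_2]
  omega

theorem nBA : ¬ DomV (rb k1 k2 k3 l) (ra k1 k2 k3 l) := by
  rw [domA, b_0, b_1, b_2]
  omega

theorem hanti : ∀ r ∈ R1 k1 k2 k3 l, ∀ r' ∈ R1 k1 k2 k3 l, DomV r r' → r = r' := by
  intro r hr r' hr' hd
  rw [R1_eq, Finset.mem_insert, Finset.mem_singleton] at hr hr'
  rcases hr with rfl | rfl <;> rcases hr' with rfl | rfl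
  · rfl
  · exact absurd hd nAB
  · exact absurd hd nBA
  · rfl

theorem hne : ra k1 k2 k3 l ≠ rb k1 k2 k3 l := by
  intro h
  apply nAB (k1 := k1) (k2 := k2) (k3 := k3) (l := l)
  rw [h]
  exact DomV.refl _

theorem win_iff {S : Finset (Pl (n1 k1 k2 k3 l))} :
    rgame (n1 k1 k2 k3 l) (R1 k1 k2 k3 l) S ↔
    (l + 2 + k1 ≤ cnt S 0 ∧ l + 4 + k1 + k2 ≤ cnt S 0 + cnt S 1 ∧
      2 * l + 7 + k1 + k2 + k3 ≤ cnt S 0 + cnt S 1 + cnt S 2) ∨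
    (k1 + 1 ≤ cnt S 0 ∧ 3 + k1 + k2 ≤ cnt S 0 + cnt S 1 ∧
      2 * l + 8 + k1 + k2 + k3 ≤ cnt S 0 + cnt S 1 + cnt S 2) := by
  rw [← domA (c := cnt S), ← domB (c := cnt S)]
  unfold rgame
  rw [R1_eq]
  constructor
  · rintro ⟨r, hr, hd⟩
    rw [Finset.mem_insert, Finset.mem_singleton] at hr
    rcases hr with rfl | rfl
    · exact Or.inl hd
    · exact Or.inr hd
  · rintro (h | h)
    · exact ⟨_, Finset.mem_insert_self _ _, h⟩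
    · exact ⟨_, Finset.mem_insert_of_mem (Finset.mem_singleton_self _), h⟩

theorem distinct : Distinct (n1 k1 k2 k3 l) (R1 k1 k2 k3 l) := by
  intro k m hkm
  have hcases : (k = 0 ∧ m = 1) ∨ (k = 1 ∧ m = 2) := by
    revert k m
    decide
  rcases hcases with ⟨rfl, rfl⟩ | ⟨rfl, rfl⟩
  · refine ⟨rb k1 k2 k3 l, boxB, ?_, ?_, ⟨_, ?_, DomV.refl _⟩, ?_⟩
    · rw [b_0]; omega
    · rw [b_1, n_1]; omega
    · rw [R1_eq]
      exact Finset.mem_insert_of_mem (Finset.mem_singleton_self _)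
    · intro r hr
      rw [R1_eq, Finset.mem_insert, Finset.mem_singleton] at hr
      have e0 : (fun i : Fin 3 => if i = 0 then rb k1 k2 k3 l i - 1 else
        if i = 1 then rb k1 k2 k3 l i + 1 else rb k1 k2 k3 l i) 0 = k1 := by
        show rb k1 k2 k3 l 0 - 1 = k1
        rw [b_0]; omega
      have e1 : (fun i : Fin 3 => if i = 0 then rb k1 k2 k3 l i - 1 else
        if i = 1 then rb k1 k2 k3 l i + 1 else rb k1 k2 k3 l i) 1 = k2 + 3 := by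
        show rb k1 k2 k3 l 1 + 1 = k2 + 3
        rw [b_1]
      have e2 : (fun i : Fin 3 => if i = 0 then rb k1 k2 k3 l i - 1 else
        if i = 1 then rb k1 k2 k3 l i + 1 else rb k1 k2 k3 l i) 2 = 2 * l + 5 + k3 := by
        show rb k1 k2 k3 l 2 = 2 * l + 5 + k3
        rw [b_2]
      rcases hr with rfl | rfl
      · exact ndomA e0 e1 e2 (by omega)
      · exact ndomB e0 e1 e2 (by omega)
  · refine ⟨ra k1 k2 k3 l, boxA, ?_, ?_, ⟨_, ?_, DomV.refl _⟩, ?_⟩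
    · rw [a_1]; omega
    · rw [a_2, n_2]; omega
    · rw [R1_eq]
      exact Finset.mem_insert_self _ _
    · intro r hr
      rw [R1_eq, Finset.mem_insert, Finset.mem_singleton] at hr
      have e0 : (fun i : Fin 3 => if i = 1 then ra k1 k2 k3 l i - 1 else
        if i = 2 then ra k1 k2 k3 l i + 1 else ra k1 k2 k3 l i) 0 = l + 2 + k1 := by
        show ra k1 k2 k3 l 0 = l + 2 + k1
        rw [a_0]
      have e1 : (fun i : Fin 3 => if i = 1 then ra k1 k2 k3 l i - 1 else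
        if i = 2 then ra k1 k2 k3 l i + 1 else ra k1 k2 k3 l i) 1 = k2 + 1 := by
        show ra k1 k2 k3 l 1 - 1 = k2 + 1
        rw [a_1]; omega
      have e2 : (fun i : Fin 3 => if i = 1 then ra k1 k2 k3 l i - 1 else
        if i = 2 then ra k1 k2 k3 l i + 1 else ra k1 k2 k3 l i) 2 = l + 4 + k3 := by
        show ra k1 k2 k3 l 2 + 1 = l + 4 + k3
        rw [a_2]; omega
      rcases hr with rfl | rfl
      · exact ndomA e0 e1 e2 (by omega)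
      · exact ndomB e0 e1 e2 (by omega)

/-- arithmetic of the 2-trades -/
theorem arith (x0 x1 x2 x0' x1' x2' y0 y1 y2 y0' y1' y2' : ℕ)
    (c0 : y0 ≤ 2 * l + 3 + k1) (c1 : y1 ≤ k2 + 3) (c2 : y2 ≤ 2 * l + 5 + k3)
    (c0' : y0' ≤ 2 * l + 3 + k1) (c1' : y1' ≤ k2 + 3) (c2' : y2' ≤ 2 * l + 5 + k3)
    (hx : (l + 2 + k1 ≤ x0 ∧ l + 4 + k1 + k2 ≤ x0 + x1 ∧
      2 * l + 7 + k1 + k2 + k3 ≤ x0 + x1 + x2) ∨
    (k1 + 1 ≤ x0 ∧ 3 + k1 + k2 ≤ x0 + x1 ∧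
      2 * l + 8 + k1 + k2 + k3 ≤ x0 + x1 + x2))
    (hx' : (l + 2 + k1 ≤ x0' ∧ l + 4 + k1 + k2 ≤ x0' + x1' ∧
      2 * l + 7 + k1 + k2 + k3 ≤ x0' + x1' + x2') ∨
    (k1 + 1 ≤ x0' ∧ 3 + k1 + k2 ≤ x0' + x1' ∧
      2 * l + 8 + k1 + k2 + k3 ≤ x0' + x1' + x2'))
    (h0 : x0 + x0' = y0 + y0') (h1 : x1 + x1' = y1 + y1') (h2 : x2 + x2' = y2 + y2')
    (hy : ¬ (l + 2 + k1 ≤ y0 ∧ l + 4 + k1 + k2 ≤ y0 + y1 ∧
      2 * l + 7 + k1 + k2 + k3 ≤ y0 + y1 + y2))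
    (hyb : ¬ (k1 + 1 ≤ y0 ∧ 3 + k1 + k2 ≤ y0 + y1 ∧
      2 * l + 8 + k1 + k2 + k3 ≤ y0 + y1 + y2))
    (hy' : ¬ (l + 2 + k1 ≤ y0' ∧ l + 4 + k1 + k2 ≤ y0' + y1' ∧
      2 * l + 7 + k1 + k2 + k3 ≤ y0' + y1' + y2'))
    (hyb' : ¬ (k1 + 1 ≤ y0' ∧ 3 + k1 + k2 ≤ y0' + y1' ∧
      2 * l + 8 + k1 + k2 + k3 ≤ y0' + y1' + y2')) : False := by
  rw [not_and_or, not_and_or, not_le, not_le, not_le] at hy hyb hy' hyb'
  rcases hx with ⟨p1, p2, p3⟩ | ⟨p1, p2, p3⟩ <;>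
  rcases hx' with ⟨q1, q2, q3⟩ | ⟨q1, q2, q3⟩ <;>
  rcases hy with r | r | r <;> rcases hyb with s | s | s <;>
  rcases hy' with t | t | t <;> rcases hyb' with u | u | u <;> omega

theorem robust : TradeRobust 2 (rgame (n1 k1 k2 k3 l) (R1 k1 k2 k3 l)) := by
  intro j hj1 hj2 X Y htr hX
  by_contra hno
  have hY : ∀ i, ¬ rgame (n1 k1 k2 k3 l) (R1 k1 k2 k3 l) (Y i) := fun i h => hno ⟨i, h⟩
  have hc := fun k => trade_cnt htr k
  rcases (by omega : j = 1 ∨ j = 2) with rfl | rfl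
  · have e : ∀ k, cnt (X 0) k = cnt (Y 0) k := by
      intro k
      have := hc k
      rwa [Fin.sum_univ_one, Fin.sum_univ_one] at this
    have h1 := hX 0
    have h2 := hY 0
    rw [win_iff] at h1 h2
    rw [e 0, e 1, e 2] at h1
    exact h2 h1
  · have e : ∀ k, cnt (X 0) k + cnt (X 1) k = cnt (Y 0) k + cnt (Y 1) k := by
      intro k
      have := hc k
      rwa [Fin.sum_univ_two, Fin.sum_univ_two] at this
    have h1 := hX 0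
    have h2 := hX 1
    have h3 := hY 0
    have h4 := hY 1
    rw [win_iff] at h1 h2 h3 h4
    rw [not_or] at h3 h4
    have b0 := cnt_le (Y 0) 0
    have b1 := cnt_le (Y 0) 1
    have b2 := cnt_le (Y 0) 2
    have b0' := cnt_le (Y 1) 0
    have b1' := cnt_le (Y 1) 1
    have b2' := cnt_le (Y 1) 2
    rw [n_0] at b0 b0'
    rw [n_1] at b1 b1'
    rw [n_2] at b2 b2'
    exact arith _ _ _ _ _ _ _ _ _ _ _ _ b0 b1 b2 b0' b1' b2' h1 h2 (e 0) (e 1) (e 2)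
      h3.1 h3.2 h4.1 h4.2

theorem notRobust : ¬ TradeRobust 3 (rgame (n1 k1 k2 k3 l) (R1 k1 k2 k3 l)) := by
  intro hrob
  let y1 : Fin 3 → ℕ := ![k1, k2 + 3, 2 * l + 5 + k3]
  let y2 : Fin 3 → ℕ := ![2 * l + 3 + k1, k2 + 3, k3]
  let y3 : Fin 3 → ℕ := ![l + 3 + k1, k2, l + 4 + k3]
  obtain ⟨X, Y, htr, hX, hY⟩ := exists_trade (n := n1 k1 k2 k3 l) (j := 3)
    (fun _ => ra k1 k2 k3 l) ![y1, y2, y3] (fun _ k => boxA k) (by
      refine fin3 ?_ ?_ ?_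
      · refine fin3 ?_ ?_ ?_
        · show k1 ≤ 2 * l + 3 + k1
          omega
        · show k2 + 3 ≤ k2 + 3
          omega
        · show 2 * l + 5 + k3 ≤ 2 * l + 5 + k3
          omega
      · refine fin3 ?_ ?_ ?_
        · show 2 * l + 3 + k1 ≤ 2 * l + 3 + k1
          omega
        · show k2 + 3 ≤ k2 + 3
          omega
        · show k3 ≤ 2 * l + 5 + k3
          omega
      · refine fin3 ?_ ?_ ?_
        · show l + 3 + k1 ≤ 2 * l + 3 + k1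
          omega
        · show k2 ≤ k2 + 3
          omega
        · show l + 4 + k3 ≤ 2 * l + 5 + k3
          omega) (by
      refine fin3 ?_ ?_ ?_
      · rw [Fin.sum_univ_three, Fin.sum_univ_three, a_0]
        show l + 2 + k1 + (l + 2 + k1) + (l + 2 + k1) =
          k1 + (2 * l + 3 + k1) + (l + 3 + k1)
        omega
      · rw [Fin.sum_univ_three, Fin.sum_univ_three, a_1]
        show k2 + 2 + (k2 + 2) + (k2 + 2) = (k2 + 3) + (k2 + 3) + k2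
        omega
      · rw [Fin.sum_univ_three, Fin.sum_univ_three, a_2]
        show l + 3 + k3 + (l + 3 + k3) + (l + 3 + k3) =
          2 * l + 5 + k3 + k3 + (l + 4 + k3)
        omega)
  obtain ⟨i, hi⟩ := hrob 3 (by norm_num) le_rfl X Y htr (fun i => by
    refine ⟨ra k1 k2 k3 l, ?_, ?_⟩
    · rw [R1_eq]
      exact Finset.mem_insert_self _ _
    · rw [hX i]
      exact DomV.refl _)
  rw [win_iff, hY i] at hi
  revert i
  refine fin3 ?_ ?_ ?_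
  · intro hi
    have hi' : (l + 2 + k1 ≤ k1 ∧ l + 4 + k1 + k2 ≤ k1 + (k2 + 3) ∧
        2 * l + 7 + k1 + k2 + k3 ≤ k1 + (k2 + 3) + (2 * l + 5 + k3)) ∨
      (k1 + 1 ≤ k1 ∧ 3 + k1 + k2 ≤ k1 + (k2 + 3) ∧
        2 * l + 8 + k1 + k2 + k3 ≤ k1 + (k2 + 3) + (2 * l + 5 + k3)) := hi
    omega
  · intro hi
    have hi' : (l + 2 + k1 ≤ 2 * l + 3 + k1 ∧ l + 4 + k1 + k2 ≤ 2 * l + 3 + k1 + (k2 + 3) ∧
        2 * l + 7 + k1 + k2 + k3 ≤ 2 * l + 3 + k1 + (k2 + 3) + k3) ∨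
      (k1 + 1 ≤ 2 * l + 3 + k1 ∧ 3 + k1 + k2 ≤ 2 * l + 3 + k1 + (k2 + 3) ∧
        2 * l + 8 + k1 + k2 + k3 ≤ 2 * l + 3 + k1 + (k2 + 3) + k3) := hi
    omega
  · intro hi
    have hi' : (l + 2 + k1 ≤ l + 3 + k1 ∧ l + 4 + k1 + k2 ≤ l + 3 + k1 + k2 ∧
        2 * l + 7 + k1 + k2 + k3 ≤ l + 3 + k1 + k2 + (l + 4 + k3)) ∨
      (k1 + 1 ≤ l + 3 + k1 ∧ 3 + k1 + k2 ≤ l + 3 + k1 + k2 ∧
        2 * l + 8 + k1 + k2 + k3 ≤ l + 3 + k1 + k2 + (l + 4 + k3)) := hi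
    omega

end FamOneL

open FamOneL

theorem famOne : S_F1 := by
  intro k1 k2 k3 l
  refine ⟨?_, rgame_complete, rgame_numTypes hn distinct, ?_, ?_, robust, notRobust⟩
  · refine rgame_simple hbox ?_ ?_
    · rw [R1_eq]
      exact ⟨_, Finset.mem_insert_self _ _⟩
    · intro h
      rw [R1_eq, Finset.mem_insert, Finset.mem_singleton] at h
      rcases h with h | h
      · have := congrFun h 1
        rw [a_1] at this
        omega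
      · have := congrFun h 1
        rw [b_1] at this
        omega
  · rw [rgame_numShiftMin hn distinct hbox hanti, R1_eq, Finset.card_pair hne]
  · intro S
    exact shiftMin_iff hn distinct hbox hanti

end Pool.Agent.H698.TT
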