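import Pool.Agent.H698.TT.Assemble

/-!
Verification of the family `F2`.
-/

namespace Pool.Agent.H698.TT

open Finset Classical Pool.Agent.Q102.Trade

namespace FamTwoL

/-- first row -/
def ra (l : ℕ) : Fin 3 → ℕ := ![l + 1, 1, l + 2]

/-- second row -/
def rb (l : ℕ) : Fin 3 → ℕ := ![0, 1, 2 * l + 4]

theorem mem_R2 {l : ℕ} {r : Fin 3 → ℕ} : r ∈ R2 l ↔ r = ra l ∨ r = rb l := by
  unfold R2 ra rb
  rw [Finset.mem_insert, Finset.mem_singleton]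

theorem domV_ra {l : ℕ} {c : Fin 3 → ℕ} : DomV c (ra l) ↔
    l + 1 ≤ c 0 ∧ l + 1 + 1 ≤ c 0 + c 1 ∧ l + 1 + 1 + (l + 2) ≤ c 0 + c 1 + c 2 := by
  rw [domV_iff]
  exact Iff.rfl

theorem domV_rb {l : ℕ} {c : Fin 3 → ℕ} : DomV c (rb l) ↔
    0 ≤ c 0 ∧ 0 + 1 ≤ c 0 + c 1 ∧ 0 + 1 + (2 * l + 4) ≤ c 0 + c 1 + c 2 := by
  rw [domV_iff]
  exact Iff.rfl

theorem win_iff {n : Fin 3 → ℕ} {l : ℕ} {S : Finset (Pl n)} : rgame n (R2 l) S ↔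
    (l + 1 ≤ cnt S 0 ∧ l + 1 + 1 ≤ cnt S 0 + cnt S 1 ∧
      l + 1 + 1 + (l + 2) ≤ cnt S 0 + cnt S 1 + cnt S 2) ∨
    (0 ≤ cnt S 0 ∧ 0 + 1 ≤ cnt S 0 + cnt S 1 ∧
      0 + 1 + (2 * l + 4) ≤ cnt S 0 + cnt S 1 + cnt S 2) := by
  rw [← domV_ra, ← domV_rb]
  unfold rgame
  constructor
  · rintro ⟨r, hr, hd⟩
    rcases mem_R2.mp hr with rfl | rfl
    · exact Or.inl hd
    · exact Or.inr hd
  · rintro (h | h)
    · exact ⟨_, mem_R2.mpr (Or.inl rfl), h⟩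
    · exact ⟨_, mem_R2.mpr (Or.inr rfl), h⟩

theorem n_pos (k1 k2 l : ℕ) (k : Fin 3) : 1 ≤ n2 k1 k2 l k := by
  fin_cases k
  · show 1 ≤ 2 * l + 3 + k1; omega
  · show 1 ≤ k2 + 3; omega
  · show 1 ≤ 2 * l + 5; omega

theorem ra_le (k1 k2 l : ℕ) (k : Fin 3) : ra l k ≤ n2 k1 k2 l k := by
  fin_cases k
  · show l + 1 ≤ 2 * l + 3 + k1; omega
  · show 1 ≤ k2 + 3; omega
  · show l + 2 ≤ 2 * l + 5; omega

theorem rb_le (k1 k2 l : ℕ) (k : Fin 3) : rb l k ≤ n2 k1 k2 l k := by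
  fin_cases k
  · show 0 ≤ 2 * l + 3 + k1; omega
  · show 1 ≤ k2 + 3; omega
  · show 2 * l + 4 ≤ 2 * l + 5; omega

theorem box (k1 k2 l : ℕ) : ∀ r ∈ R2 l, ∀ k, r k ≤ n2 k1 k2 l k := by
  intro r hr
  rcases mem_R2.mp hr with rfl | rfl
  · exact ra_le k1 k2 l
  · exact rb_le k1 k2 l

theorem anti (l : ℕ) : ∀ r ∈ R2 l, ∀ r' ∈ R2 l, DomV r r' → r = r' := by
  intro r hr r' hr' hd
  rcases mem_R2.mp hr with rfl | rfl
  · rcases mem_R2.mp hr' with rfl | rfl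
    · rfl
    · exfalso
      rw [domV_rb] at hd
      have h : 0 + 1 + (2 * l + 4) ≤ (l + 1) + 1 + (l + 2) := hd.2.2
      omega
  · rcases mem_R2.mp hr' with rfl | rfl
    · exfalso
      rw [domV_ra] at hd
      have h : l + 1 ≤ 0 := hd.1
      omega
    · rfl

theorem distinct (k1 k2 l : ℕ) : Distinct (n2 k1 k2 l) (R2 l) := by
  intro k m hkm
  have hcase : (k = 0 ∧ m = 1) ∨ (k = 1 ∧ m = 2) := by
    have hk := k.isLt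
    have hm := m.isLt
    have h2 : k.val = 0 ∨ k.val = 1 := by omega
    rcases h2 with h | h
    · exact Or.inl ⟨Fin.ext h, Fin.ext (by show m.val = 1; omega)⟩
    · exact Or.inr ⟨Fin.ext h, Fin.ext (by show m.val = 2; omega)⟩
  rcases hcase with ⟨rfl, rfl⟩ | ⟨rfl, rfl⟩
  · refine ⟨ra l, ra_le k1 k2 l, ?_, ?_, ⟨ra l, mem_R2.mpr (Or.inl rfl), DomV.refl _⟩, ?_⟩
    · show 1 ≤ l + 1; omega
    · show 1 < k2 + 3; omega
    · intro r hr hd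
      rcases mem_R2.mp hr with rfl | rfl
      · rw [domV_ra] at hd
        have h : l + 1 ≤ (l + 1) - 1 := hd.1
        omega
      · rw [domV_rb] at hd
        have h : 0 + 1 + (2 * l + 4) ≤ ((l + 1) - 1) + (1 + 1) + (l + 2) := hd.2.2
        omega
  · refine ⟨ra l, ra_le k1 k2 l, ?_, ?_, ⟨ra l, mem_R2.mpr (Or.inl rfl), DomV.refl _⟩, ?_⟩
    · show 1 ≤ 1; omega
    · show l + 2 < 2 * l + 5; omega
    · intro r hr hd
      rcases mem_R2.mp hr with rfl | rfl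
      · rw [domV_ra] at hd
        have h : l + 1 + 1 ≤ (l + 1) + (1 - 1) := hd.2.1
        omega
      · rw [domV_rb] at hd
        have h : 0 + 1 + (2 * l + 4) ≤ (l + 1) + (1 - 1) + ((l + 2) + 1) := hd.2.2
        omega

theorem arith2 (l x0 x1 x2 u0 u1 u2 y0 y1 y2 z0 z1 z2 : ℕ)
    (hx : (l + 1 ≤ x0 ∧ l + 1 + 1 ≤ x0 + x1 ∧ l + 1 + 1 + (l + 2) ≤ x0 + x1 + x2) ∨
      (0 ≤ x0 ∧ 0 + 1 ≤ x0 + x1 ∧ 0 + 1 + (2 * l + 4) ≤ x0 + x1 + x2))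
    (hu : (l + 1 ≤ u0 ∧ l + 1 + 1 ≤ u0 + u1 ∧ l + 1 + 1 + (l + 2) ≤ u0 + u1 + u2) ∨
      (0 ≤ u0 ∧ 0 + 1 ≤ u0 + u1 ∧ 0 + 1 + (2 * l + 4) ≤ u0 + u1 + u2))
    (hy : ¬ ((l + 1 ≤ y0 ∧ l + 1 + 1 ≤ y0 + y1 ∧ l + 1 + 1 + (l + 2) ≤ y0 + y1 + y2) ∨
      (0 ≤ y0 ∧ 0 + 1 ≤ y0 + y1 ∧ 0 + 1 + (2 * l + 4) ≤ y0 + y1 + y2)))
    (hz : ¬ ((l + 1 ≤ z0 ∧ l + 1 + 1 ≤ z0 + z1 ∧ l + 1 + 1 + (l + 2) ≤ z0 + z1 + z2) ∨
      (0 ≤ z0 ∧ 0 + 1 ≤ z0 + z1 ∧ 0 + 1 + (2 * l + 4) ≤ z0 + z1 + z2)))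
    (h0 : x0 + u0 = y0 + z0) (h1 : x1 + u1 = y1 + z1) (h2 : x2 + u2 = y2 + z2)
    (hy2 : y2 ≤ 2 * l + 5) (hz2 : z2 ≤ 2 * l + 5) : False := by
  omega

theorem robust (k1 k2 l : ℕ) : TradeRobust 2 (rgame (n2 k1 k2 l) (R2 l)) := by
  intro j hj1 hj2 X Y hXY hX
  have ht := trade_cnt hXY
  by_contra hY
  push Not at hY
  interval_cases j
  · have a0 := ht 0
    have a1 := ht 1
    have a2 := ht 2
    rw [Fin.sum_univ_one, Fin.sum_univ_one] at a0 a1 a2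
    have b := hX 0
    have c := hY 0
    rw [win_iff] at b c
    omega
  · have a0 := ht 0
    have a1 := ht 1
    have a2 := ht 2
    rw [Fin.sum_univ_two, Fin.sum_univ_two] at a0 a1 a2
    have b0 := hX 0
    have b1 := hX 1
    have c0 := hY 0
    have c1 := hY 1
    rw [win_iff] at b0 b1 c0 c1
    have d0 : cnt (Y 0) 2 ≤ 2 * l + 5 := cnt_le (Y 0) 2
    have d1 : cnt (Y 1) 2 ≤ 2 * l + 5 := cnt_le (Y 1) 2
    exact arith2 l _ _ _ _ _ _ _ _ _ _ _ _ b0 b1 c0 c1 a0 a1 a2 d0 d1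

/-- the losing vectors of the trade of length three -/
def ld (l : ℕ) : Fin 3 → Fin 3 → ℕ := ![![0, 0, 2 * l + 5], ![2 * l + 3, 0, 0], ![l, 3, l + 1]]

theorem not_robust (k1 k2 l : ℕ) : ¬ TradeRobust 3 (rgame (n2 k1 k2 l) (R2 l)) := by
  intro h
  obtain ⟨X, Y, hXY, hX, hY⟩ := exists_trade (n := n2 k1 k2 l) (j := 3) (fun _ => ra l) (ld l)
    (fun _ k => ra_le k1 k2 l k) (by
      intro i k
      fin_cases i
      · fin_cases k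
        · show 0 ≤ 2 * l + 3 + k1; omega
        · show 0 ≤ k2 + 3; omega
        · show 2 * l + 5 ≤ 2 * l + 5; omega
      · fin_cases k
        · show 2 * l + 3 ≤ 2 * l + 3 + k1; omega
        · show 0 ≤ k2 + 3; omega
        · show 0 ≤ 2 * l + 5; omega
      · fin_cases k
        · show l ≤ 2 * l + 3 + k1; omega
        · show 3 ≤ k2 + 3; omega
        · show l + 1 ≤ 2 * l + 5; omega) (by
      intro k
      rw [Fin.sum_univ_three, Fin.sum_univ_three]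
      fin_cases k
      · show (l + 1) + (l + 1) + (l + 1) = 0 + (2 * l + 3) + l; omega
      · show 1 + 1 + 1 = 0 + 0 + 3; omega
      · show (l + 2) + (l + 2) + (l + 2) = (2 * l + 5) + 0 + (l + 1); omega)
  obtain ⟨i, hi⟩ := h 3 (by omega) le_rfl X Y hXY (by
    intro i
    refine ⟨ra l, mem_R2.mpr (Or.inl rfl), ?_⟩
    rw [hX i]
    exact DomV.refl _)
  rw [win_iff, hY i] at hi
  fin_cases i
  · have h' : (l + 1 ≤ 0 ∧ l + 1 + 1 ≤ 0 + 0 ∧ l + 1 + 1 + (l + 2) ≤ 0 + 0 + (2 * l + 5)) ∨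
        (0 ≤ 0 ∧ 0 + 1 ≤ 0 + 0 ∧ 0 + 1 + (2 * l + 4) ≤ 0 + 0 + (2 * l + 5)) := hi
    omega
  · have h' : (l + 1 ≤ 2 * l + 3 ∧ l + 1 + 1 ≤ (2 * l + 3) + 0 ∧
        l + 1 + 1 + (l + 2) ≤ (2 * l + 3) + 0 + 0) ∨
        (0 ≤ 2 * l + 3 ∧ 0 + 1 ≤ (2 * l + 3) + 0 ∧
          0 + 1 + (2 * l + 4) ≤ (2 * l + 3) + 0 + 0) := hi
    omega
  · have h' : (l + 1 ≤ l ∧ l + 1 + 1 ≤ l + 3 ∧ l + 1 + 1 + (l + 2) ≤ l + 3 + (l + 1)) ∨
        (0 ≤ l ∧ 0 + 1 ≤ l + 3 ∧ 0 + 1 + (2 * l + 4) ≤ l + 3 + (l + 1)) := hi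
    omega

end FamTwoL

open FamTwoL in
/-- T9: the family `F2`. -/
theorem famTwo : S_F2 := by
  intro k1 k2 l
  have hn := n_pos k1 k2 l
  have hd := distinct k1 k2 l
  have hb := box k1 k2 l
  have ha := anti l
  refine ⟨rgame_simple hb ⟨ra l, mem_R2.mpr (Or.inl rfl)⟩ ?_, rgame_complete,
    rgame_numTypes hn hd, ?_, fun S => shiftMin_iff hn hd hb ha, robust k1 k2 l,
    not_robust k1 k2 l⟩
  · intro h
    rcases mem_R2.mp h with h | h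
    · have h1 : (0 : ℕ) = 1 := congrFun h 1
      omega
    · have h1 : (0 : ℕ) = 1 := congrFun h 1
      omega
  · rw [rgame_numShiftMin hn hd hb ha]
    unfold R2
    rw [Finset.card_pair]
    intro h
    have h1 : l + 1 = 0 := congrFun h 0
    omega

end Pool.Agent.H698.TT
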