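import Pool.Agent.H698.TT.Base

/-!
Generated case analysis: three losing vectors of prescribed kinds whose sum is at least the sum of
three rows (part of the classification of MP_5465ec_co Q2).
-/

set_option linter.unusedVariables false
set_option linter.style.longLine false

namespace Pool.Agent.H698.TT

theorem P1_AAA_M13_M13_M13 (n1 n2 n3 A1 A2 A3 B1 B2 B3 : ℤ)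
    (hb : Base n1 n2 n3 A1 A2 A3 B1 B2 B3)
    (hp : B1 ≤ A1 ∧ B2 ≤ A2 ∧ A3 < B3 ∧ (B1 < A1 ∨ B2 < A2))
    (he : 1 ≤ A1)
    (hs : A1 + A1 + A1 ≤ (A1 - 1) + (A1 - 1) + (A1 - 1) ∧ A2 + A2 + A2 ≤ (A1 - 1 + n2) + (A1 - 1 + n2) + (A1 - 1 + n2) ∧ A2 + A2 + A2 ≤ (A1 - 1 + n2) + (A1 - 1 + n2) + (B3 - 1) ∧ A2 + A2 + A2 ≤ (A1 - 1 + n2) + (B3 - 1) + (A1 - 1 + n2) ∧ A2 + A2 + A2 ≤ (A1 - 1 + n2) + (B3 - 1) + (B3 - 1) ∧ A2 + A2 + A2 ≤ (B3 - 1) + (A1 - 1 + n2) + (A1 - 1 + n2) ∧ A2 + A2 + A2 ≤ (B3 - 1) + (A1 - 1 + n2) + (B3 - 1) ∧ A2 + A2 + A2 ≤ (B3 - 1) + (B3 - 1) + (A1 - 1 + n2) ∧ A2 + A2 + A2 ≤ (B3 - 1) + (B3 - 1) + (B3 - 1) ∧ A3 + A3 + A3 ≤ (A1 - 1 + n2 + n3) + (A1 - 1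 + n2 + n3) + (A1 - 1 + n2 + n3) ∧ A3 + A3 + A3 ≤ (A1 - 1 + n2 + n3) + (A1 - 1 + n2 + n3) + (B3 - 1) ∧ A3 + A3 + A3 ≤ (A1 - 1 + n2 + n3) + (B3 - 1) + (A1 - 1 + n2 + n3) ∧ A3 + A3 + A3 ≤ (A1 - 1 + n2 + n3) + (B3 - 1) + (B3 - 1) ∧ A3 + A3 + A3 ≤ (B3 - 1) + (A1 - 1 + n2 + n3) + (A1 - 1 + n2 + n3) ∧ A3 + A3 + A3 ≤ (B3 - 1) + (A1 - 1 + n2 + n3) + (B3 - 1) ∧ A3 + A3 + A3 ≤ (B3 - 1) + (B3 - 1) + (A1 - 1 + n2 + n3) ∧ A3 + A3 + A3 ≤ (B3 - 1) + (B3 - 1) + (B3 - 1))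
    : False := by
  omega

theorem P1_AAA_M13_M13_M23 (n1 n2 n3 A1 A2 A3 B1 B2 B3 : ℤ)
    (hb : Base n1 n2 n3 A1 A2 A3 B1 B2 B3)
    (hp : B1 ≤ A1 ∧ B2 ≤ A2 ∧ A3 < B3 ∧ (B1 < A1 ∨ B2 < A2))
    (he : 1 ≤ A1 ∧ 1 ≤ A2)
    (hs : A1 + A1 + A1 ≤ (A1 - 1) + (A1 - 1) + n1 ∧ A1 + A1 + A1 ≤ (A1 - 1) + (A1 - 1) + (A2 - 1) ∧ A2 + A2 + A2 ≤ (A1 - 1 + n2) + (A1 - 1 + n2) + (A2 - 1) ∧ A2 + A2 + A2 ≤ (A1 - 1 + n2) + (B3 - 1) + (A2 - 1) ∧ A2 + A2 + A2 ≤ (B3 - 1) + (A1 - 1 + n2) + (A2 - 1) ∧ A2 + A2 + A2 ≤ (B3 - 1) + (B3 - 1) + (A2 - 1) ∧ A3 + A3 + A3 ≤ (A1 - 1 + n2 + n3) + (A1 - 1 + n2 + n3) + (A2 - 1 + n3) ∧ A3 + A3 + A3 ≤ (A1 - 1 + n2 + n3) + (A1 - 1 + n2 + n3) + (B3 - 1)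 ∧ A3 + A3 + A3 ≤ (A1 - 1 + n2 + n3) + (B3 - 1) + (A2 - 1 + n3) ∧ A3 + A3 + A3 ≤ (A1 - 1 + n2 + n3) + (B3 - 1) + (B3 - 1) ∧ A3 + A3 + A3 ≤ (B3 - 1) + (A1 - 1 + n2 + n3) + (A2 - 1 + n3) ∧ A3 + A3 + A3 ≤ (B3 - 1) + (A1 - 1 + n2 + n3) + (B3 - 1) ∧ A3 + A3 + A3 ≤ (B3 - 1) + (B3 - 1) + (A2 - 1 + n3) ∧ A3 + A3 + A3 ≤ (B3 - 1) + (B3 - 1) + (B3 - 1))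
    (h0 : (A1 ≤ 0 ∨ A2 ≤ 0 ∨ (A1 - 1) + (min n1 (A2 - 1)) < A1 + A1 ∨ (min (A1 - 1 + n2) (B3 - 1)) + (A2 - 1) < A2 + A2 ∨ (min (A1 - 1 + n2 + n3) (B3 - 1)) + (min (A2 - 1 + n3) (B3 - 1)) < A3 + A3))
    : False := by
  omega

theorem P1_AAA_M13_M23_M23 (n1 n2 n3 A1 A2 A3 B1 B2 B3 : ℤ)
    (hb : Base n1 n2 n3 A1 A2 A3 B1 B2 B3)
    (hp : B1 ≤ A1 ∧ B2 ≤ A2 ∧ A3 < B3 ∧ (B1 < A1 ∨ B2 < A2))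
    (he : 1 ≤ A1 ∧ 1 ≤ A2)
    (hs : A1 + A1 + A1 ≤ (A1 - 1) + n1 + n1 ∧ A1 + A1 + A1 ≤ (A1 - 1) + n1 + (A2 - 1) ∧ A1 + A1 + A1 ≤ (A1 - 1) + (A2 - 1) + n1 ∧ A1 + A1 + A1 ≤ (A1 - 1) + (A2 - 1) + (A2 - 1) ∧ A2 + A2 + A2 ≤ (A1 - 1 + n2) + (A2 - 1) + (A2 - 1) ∧ A2 + A2 + A2 ≤ (B3 - 1) + (A2 - 1) + (A2 - 1) ∧ A3 + A3 + A3 ≤ (A1 - 1 + n2 + n3) + (A2 - 1 + n3) + (A2 - 1 + n3) ∧ A3 + A3 + A3 ≤ (A1 - 1 + n2 + n3) + (A2 - 1 + n3) + (B3 - 1) ∧ A3 + A3 + A3 ≤ (A1 - 1 + n2 + n3) + (B3 - 1) + (A2 - 1 + n3) ∧ A3 + A3 + A3 ≤ (A1 - 1 + n2 + n3) + (B3 - 1) + (B3 - 1) ∧ A3 + A3 + A3 ≤ (B3 - 1) + (A2 - 1 + n3) + (A2 - 1 + n3) ∧ A3 + A3 + A3 ≤ (B3 - 1) + (A2 - 1 + n3) + (B3 - 1)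 ∧ A3 + A3 + A3 ≤ (B3 - 1) + (B3 - 1) + (A2 - 1 + n3) ∧ A3 + A3 + A3 ≤ (B3 - 1) + (B3 - 1) + (B3 - 1))
    (h0 : (A1 ≤ 0 ∨ A2 ≤ 0 ∨ (A1 - 1) + (min n1 (A2 - 1)) < A1 + A1 ∨ (min (A1 - 1 + n2) (B3 - 1)) + (A2 - 1) < A2 + A2 ∨ (min (A1 - 1 + n2 + n3) (B3 - 1)) + (min (A2 - 1 + n3) (B3 - 1)) < A3 + A3))
    : False := by
  omega

theorem P1_AAA_M23_M23_M23 (n1 n2 n3 A1 A2 A3 B1 B2 B3 : ℤ)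
    (hb : Base n1 n2 n3 A1 A2 A3 B1 B2 B3)
    (hp : B1 ≤ A1 ∧ B2 ≤ A2 ∧ A3 < B3 ∧ (B1 < A1 ∨ B2 < A2))
    (he : 1 ≤ A2)
    (hs : A1 + A1 + A1 ≤ n1 + n1 + n1 ∧ A1 + A1 + A1 ≤ n1 + n1 + (A2 - 1) ∧ A1 + A1 + A1 ≤ n1 + (A2 - 1) + n1 ∧ A1 + A1 + A1 ≤ n1 + (A2 - 1) + (A2 - 1) ∧ A1 + A1 + A1 ≤ (A2 - 1) + n1 + n1 ∧ A1 + A1 + A1 ≤ (A2 - 1) + n1 + (A2 - 1) ∧ A1 + A1 + A1 ≤ (A2 - 1) + (A2 - 1) + n1 ∧ A1 + A1 + A1 ≤ (A2 - 1) + (A2 - 1) + (A2 - 1) ∧ A2 + A2 + A2 ≤ (A2 - 1) + (A2 - 1) + (A2 - 1) ∧ A3 + A3 + A3 ≤ (A2 - 1 + n3) + (A2 - 1 + n3) + (A2 - 1 + n3) ∧ A3 + A3 + A3 ≤ (A2 - 1 + n3) + (A2 - 1 + n3) + (B3 - 1) ∧ A3 + A3 + A3 ≤ (A2 - 1 + n3) + (B3 - 1) + (A2 - 1 + n3)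 ∧ A3 + A3 + A3 ≤ (A2 - 1 + n3) + (B3 - 1) + (B3 - 1) ∧ A3 + A3 + A3 ≤ (B3 - 1) + (A2 - 1 + n3) + (A2 - 1 + n3) ∧ A3 + A3 + A3 ≤ (B3 - 1) + (A2 - 1 + n3) + (B3 - 1) ∧ A3 + A3 + A3 ≤ (B3 - 1) + (B3 - 1) + (A2 - 1 + n3) ∧ A3 + A3 + A3 ≤ (B3 - 1) + (B3 - 1) + (B3 - 1))
    : False := by
  omega

theorem P1_AAA_S1_M13_M13 (n1 n2 n3 A1 A2 A3 B1 B2 B3 : ℤ)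
    (hb : Base n1 n2 n3 A1 A2 A3 B1 B2 B3)
    (hp : B1 ≤ A1 ∧ B2 ≤ A2 ∧ A3 < B3 ∧ (B1 < A1 ∨ B2 < A2))
    (he : 1 ≤ A1 ∧ 1 ≤ B1)
    (hs : A1 + A1 + A1 ≤ (B1 - 1) + (A1 - 1) + (A1 - 1) ∧ A2 + A2 + A2 ≤ (B1 - 1 + n2) + (A1 - 1 + n2) + (A1 - 1 + n2) ∧ A2 + A2 + A2 ≤ (B1 - 1 + n2) + (A1 - 1 + n2) + (B3 - 1) ∧ A2 + A2 + A2 ≤ (B1 - 1 + n2) + (B3 - 1) + (A1 - 1 + n2) ∧ A2 + A2 + A2 ≤ (B1 - 1 + n2) + (B3 - 1) + (B3 - 1) ∧ A3 + A3 + A3 ≤ (B1 - 1 + n2 + n3) + (A1 - 1 + n2 + n3) + (A1 - 1 + n2 + n3) ∧ A3 + A3 + A3 ≤ (B1 - 1 + n2 + n3) + (A1 - 1 + n2 + n3) + (B3 - 1) ∧ A3 + A3 + A3 ≤ (B1 - 1 + n2 + n3) + (B3 - 1) + (A1 - 1 + n2 + n3) ∧ A3 + A3 + A3 ≤ (B1 - 1 + n2 + n3)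 + (B3 - 1) + (B3 - 1))
    : False := by
  omega

theorem P1_AAA_S1_M13_M23 (n1 n2 n3 A1 A2 A3 B1 B2 B3 : ℤ)
    (hb : Base n1 n2 n3 A1 A2 A3 B1 B2 B3)
    (hp : B1 ≤ A1 ∧ B2 ≤ A2 ∧ A3 < B3 ∧ (B1 < A1 ∨ B2 < A2))
    (he : 1 ≤ A1 ∧ 1 ≤ A2 ∧ 1 ≤ B1)
    (hs : A1 + A1 + A1 ≤ (B1 - 1) + (A1 - 1) + n1 ∧ A1 + A1 + A1 ≤ (B1 - 1) + (A1 - 1) + (A2 - 1) ∧ A2 + A2 + A2 ≤ (B1 - 1 + n2) + (A1 - 1 + n2) + (A2 - 1) ∧ A2 + A2 + A2 ≤ (B1 - 1 + n2) + (B3 - 1) + (A2 - 1) ∧ A3 + A3 + A3 ≤ (B1 - 1 + n2 + n3) + (A1 - 1 + n2 + n3) + (A2 - 1 + n3) ∧ A3 + A3 + A3 ≤ (B1 - 1 + n2 + n3) + (A1 - 1 + n2 + n3) + (B3 - 1) ∧ A3 + A3 + A3 ≤ (B1 - 1 + n2 + n3) + (B3 - 1) + (A2 - 1 + n3) ∧ A3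 + A3 + A3 ≤ (B1 - 1 + n2 + n3) + (B3 - 1) + (B3 - 1))
    (h0 : (B1 ≤ 0 ∨ A3 ≤ 0 ∨ (B1 - 1) + (min n1 (A3 - 1)) < A1 + A1 ∨ (B1 - 1 + n2) + (min (n1 + n2) (A3 - 1)) < A2 + A2 ∨ (B1 - 1 + n2 + n3) + (A3 - 1) < A3 + A3))
    (h1 : (A3 ≤ 0 ∨ A1 ≤ 0 ∨ (min n1 (A3 - 1)) + (A1 - 1) < A1 + A1 ∨ (min (n1 + n2) (A3 - 1)) + (min (A1 - 1 + n2) (B3 - 1)) < A2 + A2 ∨ (A3 - 1) + (min (A1 - 1 + n2 + n3) (B3 - 1)) < A3 + A3))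
    (h2 : (A1 ≤ 0 ∨ A2 ≤ 0 ∨ (A1 - 1) + (min n1 (A2 - 1)) < A1 + A1 ∨ (min (A1 - 1 + n2) (B3 - 1)) + (A2 - 1) < A2 + A2 ∨ (min (A1 - 1 + n2 + n3) (B3 - 1)) + (min (A2 - 1 + n3) (B3 - 1)) < A3 + A3))
    : False := by
  omega

theorem P1_AAA_S1_M23_M23 (n1 n2 n3 A1 A2 A3 B1 B2 B3 : ℤ)
    (hb : Base n1 n2 n3 A1 A2 A3 B1 B2 B3)
    (hp : B1 ≤ A1 ∧ B2 ≤ A2 ∧ A3 < B3 ∧ (B1 < A1 ∨ B2 < A2))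
    (he : 1 ≤ A2 ∧ 1 ≤ B1)
    (hs : A1 + A1 + A1 ≤ (B1 - 1) + n1 + n1 ∧ A1 + A1 + A1 ≤ (B1 - 1) + n1 + (A2 - 1) ∧ A1 + A1 + A1 ≤ (B1 - 1) + (A2 - 1) + n1 ∧ A1 + A1 + A1 ≤ (B1 - 1) + (A2 - 1) + (A2 - 1) ∧ A2 + A2 + A2 ≤ (B1 - 1 + n2) + (A2 - 1) + (A2 - 1) ∧ A3 + A3 + A3 ≤ (B1 - 1 + n2 + n3) + (A2 - 1 + n3) + (A2 - 1 + n3) ∧ A3 + A3 + A3 ≤ (B1 - 1 + n2 + n3) + (A2 - 1 + n3) + (B3 - 1) ∧ A3 + A3 + A3 ≤ (B1 - 1 + n2 + n3) + (B3 - 1) + (A2 - 1 + n3) ∧ A3 + A3 + A3 ≤ (B1 - 1 + n2 + n3) + (B3 - 1) + (B3 - 1))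
    (h0 : (B1 ≤ 0 ∨ A3 ≤ 0 ∨ (B1 - 1) + (min n1 (A3 - 1)) < A1 + B1 ∨ (B1 - 1 + n2) + (min (n1 + n2) (A3 - 1)) < A2 + B2 ∨ (B1 - 1 + n2 + n3) + (A3 - 1) < A3 + B3))
    : False := by
  omega

theorem P1_AAA_S1_S1_M13 (n1 n2 n3 A1 A2 A3 B1 B2 B3 : ℤ)
    (hb : Base n1 n2 n3 A1 A2 A3 B1 B2 B3)
    (hp : B1 ≤ A1 ∧ B2 ≤ A2 ∧ A3 < B3 ∧ (B1 < A1 ∨ B2 < A2))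
    (he : 1 ≤ A1 ∧ 1 ≤ B1)
    (hs : A1 + A1 + A1 ≤ (B1 - 1) + (B1 - 1) + (A1 - 1) ∧ A2 + A2 + A2 ≤ (B1 - 1 + n2) + (B1 - 1 + n2) + (A1 - 1 + n2) ∧ A2 + A2 + A2 ≤ (B1 - 1 + n2) + (B1 - 1 + n2) + (B3 - 1) ∧ A3 + A3 + A3 ≤ (B1 - 1 + n2 + n3) + (B1 - 1 + n2 + n3) + (A1 - 1 + n2 + n3) ∧ A3 + A3 + A3 ≤ (B1 - 1 + n2 + n3) + (B1 - 1 + n2 + n3) + (B3 - 1))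
    : False := by
  omega

theorem P1_AAA_S1_S1_M23 (n1 n2 n3 A1 A2 A3 B1 B2 B3 : ℤ)
    (hb : Base n1 n2 n3 A1 A2 A3 B1 B2 B3)
    (hp : B1 ≤ A1 ∧ B2 ≤ A2 ∧ A3 < B3 ∧ (B1 < A1 ∨ B2 < A2))
    (he : 1 ≤ A2 ∧ 1 ≤ B1)
    (hs : A1 + A1 + A1 ≤ (B1 - 1) + (B1 - 1) + n1 ∧ A1 + A1 + A1 ≤ (B1 - 1) + (B1 - 1) + (A2 - 1) ∧ A2 + A2 + A2 ≤ (B1 - 1 + n2) + (B1 - 1 + n2) + (A2 - 1) ∧ A3 + A3 + A3 ≤ (B1 - 1 + n2 + n3) + (B1 - 1 + n2 + n3) + (A2 - 1 + n3) ∧ A3 + A3 + A3 ≤ (B1 - 1 + n2 + n3) + (B1 - 1 + n2 + n3) + (B3 - 1))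
    (h0 : (B1 ≤ 0 ∨ A3 ≤ 0 ∨ (B1 - 1) + (min n1 (A3 - 1)) < A1 + A1 ∨ (B1 - 1 + n2) + (min (n1 + n2) (A3 - 1)) < A2 + A2 ∨ (B1 - 1 + n2 + n3) + (A3 - 1) < A3 + A3))
    : False := by
  omega

theorem P1_AAA_S1_S1_S1 (n1 n2 n3 A1 A2 A3 B1 B2 B3 : ℤ)
    (hb : Base n1 n2 n3 A1 A2 A3 B1 B2 B3)
    (hp : B1 ≤ A1 ∧ B2 ≤ A2 ∧ A3 < B3 ∧ (B1 < A1 ∨ B2 < A2))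
    (he : 1 ≤ B1)
    (hs : A1 + A1 + A1 ≤ (B1 - 1) + (B1 - 1) + (B1 - 1) ∧ A2 + A2 + A2 ≤ (B1 - 1 + n2) + (B1 - 1 + n2) + (B1 - 1 + n2) ∧ A3 + A3 + A3 ≤ (B1 - 1 + n2 + n3) + (B1 - 1 + n2 + n3) + (B1 - 1 + n2 + n3))
    : False := by
  omega

theorem P1_AAA_S1_S1_S2 (n1 n2 n3 A1 A2 A3 B1 B2 B3 : ℤ)
    (hb : Base n1 n2 n3 A1 A2 A3 B1 B2 B3)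
    (hp : B1 ≤ A1 ∧ B2 ≤ A2 ∧ A3 < B3 ∧ (B1 < A1 ∨ B2 < A2))
    (he : 1 ≤ B1 ∧ 1 ≤ B2)
    (hs : A1 + A1 + A1 ≤ (B1 - 1) + (B1 - 1) + n1 ∧ A1 + A1 + A1 ≤ (B1 - 1) + (B1 - 1) + (B2 - 1) ∧ A2 + A2 + A2 ≤ (B1 - 1 + n2) + (B1 - 1 + n2) + (B2 - 1) ∧ A3 + A3 + A3 ≤ (B1 - 1 + n2 + n3) + (B1 - 1 + n2 + n3) + (B2 - 1 + n3))
    (h0 : (B1 ≤ 0 ∨ A3 ≤ 0 ∨ (B1 - 1) + (min n1 (A3 - 1)) < A1 + A1 ∨ (B1 - 1 + n2) + (min (n1 + n2) (A3 - 1)) < A2 + A2 ∨ (B1 - 1 + n2 + n3) + (A3 - 1) < A3 + A3))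
    : False := by
  omega

theorem P1_AAA_S1_S1_S3 (n1 n2 n3 A1 A2 A3 B1 B2 B3 : ℤ)
    (hb : Base n1 n2 n3 A1 A2 A3 B1 B2 B3)
    (hp : B1 ≤ A1 ∧ B2 ≤ A2 ∧ A3 < B3 ∧ (B1 < A1 ∨ B2 < A2))
    (he : 1 ≤ A3 ∧ 1 ≤ B1)
    (hs : A1 + A1 + A1 ≤ (B1 - 1) + (B1 - 1) + n1 ∧ A1 + A1 + A1 ≤ (B1 - 1) + (B1 - 1) + (A3 - 1) ∧ A2 + A2 + A2 ≤ (B1 - 1 + n2) + (B1 - 1 + n2) + (n1 + n2) ∧ A2 + A2 + A2 ≤ (B1 - 1 + n2) + (B1 - 1 + n2) + (A3 - 1) ∧ A3 + A3 + A3 ≤ (B1 - 1 + n2 + n3) + (B1 - 1 + n2 + n3) + (A3 - 1))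
    (h0 : (B1 ≤ 0 ∨ A3 ≤ 0 ∨ (B1 - 1) + (min n1 (A3 - 1)) < A1 + A1 ∨ (B1 - 1 + n2) + (min (n1 + n2) (A3 - 1)) < A2 + A2 ∨ (B1 - 1 + n2 + n3) + (A3 - 1) < A3 + A3))
    : False := by
  omega

theorem P1_AAA_S1_S2_M13 (n1 n2 n3 A1 A2 A3 B1 B2 B3 : ℤ)
    (hb : Base n1 n2 n3 A1 A2 A3 B1 B2 B3)
    (hp : B1 ≤ A1 ∧ B2 ≤ A2 ∧ A3 < B3 ∧ (B1 < A1 ∨ B2 < A2))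
    (he : 1 ≤ A1 ∧ 1 ≤ B1 ∧ 1 ≤ B2)
    (hs : A1 + A1 + A1 ≤ (B1 - 1) + n1 + (A1 - 1) ∧ A1 + A1 + A1 ≤ (B1 - 1) + (B2 - 1) + (A1 - 1) ∧ A2 + A2 + A2 ≤ (B1 - 1 + n2) + (B2 - 1) + (A1 - 1 + n2) ∧ A2 + A2 + A2 ≤ (B1 - 1 + n2) + (B2 - 1) + (B3 - 1) ∧ A3 + A3 + A3 ≤ (B1 - 1 + n2 + n3) + (B2 - 1 + n3) + (A1 - 1 + n2 + n3) ∧ A3 + A3 + A3 ≤ (B1 - 1 + n2 + n3) + (B2 - 1 + n3) + (B3 - 1))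
    (h0 : (B1 ≤ 0 ∨ A3 ≤ 0 ∨ (B1 - 1) + (min n1 (A3 - 1)) < A1 + A1 ∨ (B1 - 1 + n2) + (min (n1 + n2) (A3 - 1)) < A2 + A2 ∨ (B1 - 1 + n2 + n3) + (A3 - 1) < A3 + A3))
    (h1 : (B2 ≤ 0 ∨ A1 ≤ 0 ∨ (min n1 (B2 - 1)) + (A1 - 1) < A1 + A1 ∨ (B2 - 1) + (min (A1 - 1 + n2) (B3 - 1)) < A2 + A2 ∨ (B2 - 1 + n3) + (min (A1 - 1 + n2 + n3) (B3 - 1)) < A3 + A3))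
    : False := by
  omega

theorem P1_AAA_S1_S2_M23 (n1 n2 n3 A1 A2 A3 B1 B2 B3 : ℤ)
    (hb : Base n1 n2 n3 A1 A2 A3 B1 B2 B3)
    (hp : B1 ≤ A1 ∧ B2 ≤ A2 ∧ A3 < B3 ∧ (B1 < A1 ∨ B2 < A2))
    (he : 1 ≤ A2 ∧ 1 ≤ B1 ∧ 1 ≤ B2)
    (hs : A1 + A1 + A1 ≤ (B1 - 1) + n1 + n1 ∧ A1 + A1 + A1 ≤ (B1 - 1) + n1 + (A2 - 1) ∧ A1 + A1 + A1 ≤ (B1 - 1) + (B2 - 1) + n1 ∧ A1 + A1 + A1 ≤ (B1 - 1) + (B2 - 1) + (A2 - 1) ∧ A2 + A2 + A2 ≤ (B1 - 1 + n2) + (B2 - 1) + (A2 - 1) ∧ A3 + A3 + A3 ≤ (B1 - 1 + n2 + n3) + (B2 - 1 + n3) + (A2 - 1 + n3) ∧ A3 + A3 + A3 ≤ (B1 - 1 + n2 + n3) + (B2 - 1 + n3) + (B3 - 1))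
    (h0 : (B1 ≤ 0 ∨ A3 ≤ 0 ∨ (B1 - 1) + (min n1 (A3 - 1)) < A1 + B1 ∨ (B1 - 1 + n2) + (min (n1 + n2) (A3 - 1)) < A2 + B2 ∨ (B1 - 1 + n2 + n3) + (A3 - 1) < A3 + B3))
    : False := by
  omega

theorem P1_AAA_S1_S2_S2 (n1 n2 n3 A1 A2 A3 B1 B2 B3 : ℤ)
    (hb : Base n1 n2 n3 A1 A2 A3 B1 B2 B3)
    (hp : B1 ≤ A1 ∧ B2 ≤ A2 ∧ A3 < B3 ∧ (B1 < A1 ∨ B2 < A2))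
    (he : 1 ≤ B1 ∧ 1 ≤ B2)
    (hs : A1 + A1 + A1 ≤ (B1 - 1) + n1 + n1 ∧ A1 + A1 + A1 ≤ (B1 - 1) + n1 + (B2 - 1) ∧ A1 + A1 + A1 ≤ (B1 - 1) + (B2 - 1) + n1 ∧ A1 + A1 + A1 ≤ (B1 - 1) + (B2 - 1) + (B2 - 1) ∧ A2 + A2 + A2 ≤ (B1 - 1 + n2) + (B2 - 1) + (B2 - 1) ∧ A3 + A3 + A3 ≤ (B1 - 1 + n2 + n3) + (B2 - 1 + n3) + (B2 - 1 + n3))
    (h0 : (B1 ≤ 0 ∨ B2 ≤ 0 ∨ (B1 - 1) + (min n1 (B2 - 1)) < A1 + B1 ∨ (B1 - 1 + n2) + (B2 - 1) < A2 + B2 ∨ (B1 - 1 + n2 + n3) + (B2 - 1 + n3) < A3 + B3))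
    : False := by
  omega

theorem P1_AAA_S1_S2_S3 (n1 n2 n3 A1 A2 A3 B1 B2 B3 : ℤ)
    (hb : Base n1 n2 n3 A1 A2 A3 B1 B2 B3)
    (hp : B1 ≤ A1 ∧ B2 ≤ A2 ∧ A3 < B3 ∧ (B1 < A1 ∨ B2 < A2))
    (he : 1 ≤ A3 ∧ 1 ≤ B1 ∧ 1 ≤ B2)
    (hs : A1 + A1 + A1 ≤ (B1 - 1) + n1 + n1 ∧ A1 + A1 + A1 ≤ (B1 - 1) + n1 + (A3 - 1) ∧ A1 + A1 + A1 ≤ (B1 - 1) + (B2 - 1) + n1 ∧ A1 + A1 + A1 ≤ (B1 - 1) + (B2 - 1) + (A3 - 1) ∧ A2 + A2 + A2 ≤ (B1 - 1 + n2) + (B2 - 1) + (n1 + n2) ∧ A2 + A2 + A2 ≤ (B1 - 1 + n2) + (B2 - 1) + (A3 - 1) ∧ A3 + A3 + A3 ≤ (B1 - 1 + n2 + n3) + (B2 - 1 + n3) + (A3 - 1))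
    (h0 : (B1 ≤ 0 ∨ A3 ≤ 0 ∨ (B1 - 1) + (min n1 (A3 - 1)) < A1 + A1 ∨ (B1 - 1 + n2) + (min (n1 + n2) (A3 - 1)) < A2 + A2 ∨ (B1 - 1 + n2 + n3) + (A3 - 1) < A3 + A3))
    (h1 : (B2 ≤ 0 ∨ A3 ≤ 0 ∨ (min n1 (B2 - 1)) + (min n1 (A3 - 1)) < A1 + A1 ∨ (B2 - 1) + (min (n1 + n2) (A3 - 1)) < A2 + A2 ∨ (B2 - 1 + n3) + (A3 - 1) < A3 + A3))
    (h2 : (A1 ≤ 0 ∨ A2 ≤ 0 ∨ (A1 - 1) + (min n1 (A2 - 1)) < A1 + A1 ∨ (min (A1 - 1 + n2) (B3 - 1)) + (A2 - 1) < A2 + A2 ∨ (min (A1 - 1 + n2 + n3) (B3 - 1)) + (min (A2 - 1 + n3) (B3 - 1)) < A3 + A3))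
    (h3 : (B1 ≤ 0 ∨ B2 ≤ 0 ∨ (B1 - 1) + (min n1 (B2 - 1)) < A1 + B1 ∨ (B1 - 1 + n2) + (B2 - 1) < A2 + B2 ∨ (B1 - 1 + n2 + n3) + (B2 - 1 + n3) < A3 + B3))
    : False := by
  omega

theorem P1_AAA_S1_S3_M13 (n1 n2 n3 A1 A2 A3 B1 B2 B3 : ℤ)
    (hb : Base n1 n2 n3 A1 A2 A3 B1 B2 B3)
    (hp : B1 ≤ A1 ∧ B2 ≤ A2 ∧ A3 < B3 ∧ (B1 < A1 ∨ B2 < A2))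
    (he : 1 ≤ A1 ∧ 1 ≤ A3 ∧ 1 ≤ B1)
    (hs : A1 + A1 + A1 ≤ (B1 - 1) + n1 + (A1 - 1) ∧ A1 + A1 + A1 ≤ (B1 - 1) + (A3 - 1) + (A1 - 1) ∧ A2 + A2 + A2 ≤ (B1 - 1 + n2) + (n1 + n2) + (A1 - 1 + n2) ∧ A2 + A2 + A2 ≤ (B1 - 1 + n2) + (n1 + n2) + (B3 - 1) ∧ A2 + A2 + A2 ≤ (B1 - 1 + n2) + (A3 - 1) + (A1 - 1 + n2) ∧ A2 + A2 + A2 ≤ (B1 - 1 + n2) + (A3 - 1) + (B3 - 1) ∧ A3 + A3 + A3 ≤ (B1 - 1 + n2 + n3) + (A3 - 1) + (A1 - 1 + n2 + n3) ∧ A3 + A3 + A3 ≤ (B1 - 1 + n2 + n3) + (A3 - 1) + (B3 - 1))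
    (h0 : (B1 ≤ 0 ∨ A3 ≤ 0 ∨ (B1 - 1) + (min n1 (A3 - 1)) < A1 + A1 ∨ (B1 - 1 + n2) + (min (n1 + n2) (A3 - 1)) < A2 + A2 ∨ (B1 - 1 + n2 + n3) + (A3 - 1) < A3 + A3))
    (h1 : (A1 ≤ 0 ∨ A2 ≤ 0 ∨ (A1 - 1) + (min n1 (A2 - 1)) < A1 + A1 ∨ (min (A1 - 1 + n2) (B3 - 1)) + (A2 - 1) < A2 + A2 ∨ (min (A1 - 1 + n2 + n3) (B3 - 1)) + (min (A2 - 1 + n3) (B3 - 1)) < A3 + A3))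
    : False := by
  omega

theorem P1_AAA_S1_S3_M23_c0 (n1 n2 n3 A1 A2 A3 B1 B2 B3 : ℤ)
    (hb : Base n1 n2 n3 A1 A2 A3 B1 B2 B3)
    (hp : B1 ≤ A1 ∧ B2 ≤ A2 ∧ A3 < B3 ∧ (B1 < A1 ∨ B2 < A2))
    (he : 1 ≤ A2 ∧ 1 ≤ A3 ∧ 1 ≤ B1)
    (hs : A1 + A1 + A1 ≤ (B1 - 1) + n1 + n1 ∧ A1 + A1 + A1 ≤ (B1 - 1) + n1 + (A2 - 1) ∧ A1 + A1 + A1 ≤ (B1 - 1) + (A3 - 1) + n1 ∧ A1 + A1 + A1 ≤ (B1 - 1) + (A3 - 1) + (A2 - 1) ∧ A2 + A2 + A2 ≤ (B1 - 1 + n2) + (n1 + n2) + (A2 - 1) ∧ A2 + A2 + A2 ≤ (B1 - 1 + n2) + (A3 - 1) + (A2 - 1) ∧ A3 + A3 + A3 ≤ (B1 - 1 + n2 + n3) + (A3 - 1) + (A2 - 1 + n3) ∧ A3 + A3 + A3 ≤ (B1 - 1 + n2 + n3) + (A3 - 1) + (B3 - 1))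
    (h0 : (B1 ≤ 0 ∨ A3 ≤ 0 ∨ (B1 - 1) + (min n1 (A3 - 1)) < A1 + A1 ∨ (B1 - 1 + n2) + (min (n1 + n2) (A3 - 1)) < A2 + A2 ∨ (B1 - 1 + n2 + n3) + (A3 - 1) < A3 + A3))
    (h1 : (B2 ≤ 0 ∨ A3 ≤ 0 ∨ (min n1 (B2 - 1)) + (min n1 (A3 - 1)) < A1 + A1 ∨ (B2 - 1) + (min (n1 + n2) (A3 - 1)) < A2 + A2 ∨ (B2 - 1 + n3) + (A3 - 1) < A3 + A3))
    (h2 : (A1 ≤ 0 ∨ A2 ≤ 0 ∨ (A1 - 1) + (min n1 (A2 - 1)) < A1 + A1 ∨ (min (A1 - 1 + n2) (B3 - 1)) + (A2 - 1) < A2 + A2 ∨ (min (A1 - 1 + n2 + n3) (B3 - 1)) + (min (A2 - 1 + n3) (B3 - 1)) < A3 + A3))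
    (h3 : (B1 ≤ 0 ∨ A3 ≤ 0 ∨ (B1 - 1) + (min n1 (A3 - 1)) < A1 + B1 ∨ (B1 - 1 + n2) + (min (n1 + n2) (A3 - 1)) < A2 + B2 ∨ (B1 - 1 + n2 + n3) + (A3 - 1) < A3 + B3))
    : A1 = B1 + (n1 - A1) := by
  omega

theorem P1_AAA_S1_S3_M23_c1 (n1 n2 n3 A1 A2 A3 B1 B2 B3 : ℤ)
    (hb : Base n1 n2 n3 A1 A2 A3 B1 B2 B3)
    (hp : B1 ≤ A1 ∧ B2 ≤ A2 ∧ A3 < B3 ∧ (B1 < A1 ∨ B2 < A2))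
    (he : 1 ≤ A2 ∧ 1 ≤ A3 ∧ 1 ≤ B1)
    (hs : A1 + A1 + A1 ≤ (B1 - 1) + n1 + n1 ∧ A1 + A1 + A1 ≤ (B1 - 1) + n1 + (A2 - 1) ∧ A1 + A1 + A1 ≤ (B1 - 1) + (A3 - 1) + n1 ∧ A1 + A1 + A1 ≤ (B1 - 1) + (A3 - 1) + (A2 - 1) ∧ A2 + A2 + A2 ≤ (B1 - 1 + n2) + (n1 + n2) + (A2 - 1) ∧ A2 + A2 + A2 ≤ (B1 - 1 + n2) + (A3 - 1) + (A2 - 1) ∧ A3 + A3 + A3 ≤ (B1 - 1 + n2 + n3) + (A3 - 1) + (A2 - 1 + n3) ∧ A3 + A3 + A3 ≤ (B1 - 1 + n2 + n3) + (A3 - 1) + (B3 - 1))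
    (h0 : (B1 ≤ 0 ∨ A3 ≤ 0 ∨ (B1 - 1) + (min n1 (A3 - 1)) < A1 + A1 ∨ (B1 - 1 + n2) + (min (n1 + n2) (A3 - 1)) < A2 + A2 ∨ (B1 - 1 + n2 + n3) + (A3 - 1) < A3 + A3))
    (h1 : (B2 ≤ 0 ∨ A3 ≤ 0 ∨ (min n1 (B2 - 1)) + (min n1 (A3 - 1)) < A1 + A1 ∨ (B2 - 1) + (min (n1 + n2) (A3 - 1)) < A2 + A2 ∨ (B2 - 1 + n3) + (A3 - 1) < A3 + A3))
    (h2 : (A1 ≤ 0 ∨ A2 ≤ 0 ∨ (A1 - 1) + (min n1 (A2 - 1)) < A1 + A1 ∨ (min (A1 - 1 + n2) (B3 - 1)) + (A2 - 1) < A2 + A2 ∨ (min (A1 - 1 + n2 + n3) (B3 - 1)) + (min (A2 - 1 + n3) (B3 - 1)) < A3 + A3))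
    (h3 : (B1 ≤ 0 ∨ A3 ≤ 0 ∨ (B1 - 1) + (min n1 (A3 - 1)) < A1 + B1 ∨ (B1 - 1 + n2) + (min (n1 + n2) (A3 - 1)) < A2 + B2 ∨ (B1 - 1 + n2 + n3) + (A3 - 1) < A3 + B3))
    : A2 - A1 = n2 - 1 := by
  omega

theorem P1_AAA_S1_S3_M23_c2 (n1 n2 n3 A1 A2 A3 B1 B2 B3 : ℤ)
    (hb : Base n1 n2 n3 A1 A2 A3 B1 B2 B3)
    (hp : B1 ≤ A1 ∧ B2 ≤ A2 ∧ A3 < B3 ∧ (B1 < A1 ∨ B2 < A2))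
    (he : 1 ≤ A2 ∧ 1 ≤ A3 ∧ 1 ≤ B1)
    (hs : A1 + A1 + A1 ≤ (B1 - 1) + n1 + n1 ∧ A1 + A1 + A1 ≤ (B1 - 1) + n1 + (A2 - 1) ∧ A1 + A1 + A1 ≤ (B1 - 1) + (A3 - 1) + n1 ∧ A1 + A1 + A1 ≤ (B1 - 1) + (A3 - 1) + (A2 - 1) ∧ A2 + A2 + A2 ≤ (B1 - 1 + n2) + (n1 + n2) + (A2 - 1) ∧ A2 + A2 + A2 ≤ (B1 - 1 + n2) + (A3 - 1) + (A2 - 1) ∧ A3 + A3 + A3 ≤ (B1 - 1 + n2 + n3) + (A3 - 1) + (A2 - 1 + n3) ∧ A3 + A3 + A3 ≤ (B1 - 1 + n2 + n3) + (A3 - 1) + (B3 - 1))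
    (h0 : (B1 ≤ 0 ∨ A3 ≤ 0 ∨ (B1 - 1) + (min n1 (A3 - 1)) < A1 + A1 ∨ (B1 - 1 + n2) + (min (n1 + n2) (A3 - 1)) < A2 + A2 ∨ (B1 - 1 + n2 + n3) + (A3 - 1) < A3 + A3))
    (h1 : (B2 ≤ 0 ∨ A3 ≤ 0 ∨ (min n1 (B2 - 1)) + (min n1 (A3 - 1)) < A1 + A1 ∨ (B2 - 1) + (min (n1 + n2) (A3 - 1)) < A2 + A2 ∨ (B2 - 1 + n3) + (A3 - 1) < A3 + A3))
    (h2 : (A1 ≤ 0 ∨ A2 ≤ 0 ∨ (A1 - 1) + (min n1 (A2 - 1)) < A1 + A1 ∨ (min (A1 - 1 + n2) (B3 - 1)) + (A2 - 1) < A2 + A2 ∨ (min (A1 - 1 + n2 + n3) (B3 - 1)) + (min (A2 - 1 + n3) (B3 - 1)) < A3 + A3))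
    (h3 : (B1 ≤ 0 ∨ A3 ≤ 0 ∨ (B1 - 1) + (min n1 (A3 - 1)) < A1 + B1 ∨ (B1 - 1 + n2) + (min (n1 + n2) (A3 - 1)) < A2 + B2 ∨ (B1 - 1 + n2 + n3) + (A3 - 1) < A3 + B3))
    : B2 - B1 = n2 - 1 := by
  omega

theorem P1_AAA_S1_S3_M23_c3 (n1 n2 n3 A1 A2 A3 B1 B2 B3 : ℤ)
    (hb : Base n1 n2 n3 A1 A2 A3 B1 B2 B3)
    (hp : B1 ≤ A1 ∧ B2 ≤ A2 ∧ A3 < B3 ∧ (B1 < A1 ∨ B2 < A2))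
    (he : 1 ≤ A2 ∧ 1 ≤ A3 ∧ 1 ≤ B1)
    (hs : A1 + A1 + A1 ≤ (B1 - 1) + n1 + n1 ∧ A1 + A1 + A1 ≤ (B1 - 1) + n1 + (A2 - 1) ∧ A1 + A1 + A1 ≤ (B1 - 1) + (A3 - 1) + n1 ∧ A1 + A1 + A1 ≤ (B1 - 1) + (A3 - 1) + (A2 - 1) ∧ A2 + A2 + A2 ≤ (B1 - 1 + n2) + (n1 + n2) + (A2 - 1) ∧ A2 + A2 + A2 ≤ (B1 - 1 + n2) + (A3 - 1) + (A2 - 1) ∧ A3 + A3 + A3 ≤ (B1 - 1 + n2 + n3) + (A3 - 1) + (A2 - 1 + n3) ∧ A3 + A3 + A3 ≤ (B1 - 1 + n2 + n3) + (A3 - 1) + (B3 - 1))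
    (h0 : (B1 ≤ 0 ∨ A3 ≤ 0 ∨ (B1 - 1) + (min n1 (A3 - 1)) < A1 + A1 ∨ (B1 - 1 + n2) + (min (n1 + n2) (A3 - 1)) < A2 + A2 ∨ (B1 - 1 + n2 + n3) + (A3 - 1) < A3 + A3))
    (h1 : (B2 ≤ 0 ∨ A3 ≤ 0 ∨ (min n1 (B2 - 1)) + (min n1 (A3 - 1)) < A1 + A1 ∨ (B2 - 1) + (min (n1 + n2) (A3 - 1)) < A2 + A2 ∨ (B2 - 1 + n3) + (A3 - 1) < A3 + A3))
    (h2 : (A1 ≤ 0 ∨ A2 ≤ 0 ∨ (A1 - 1) + (min n1 (A2 - 1)) < A1 + A1 ∨ (min (A1 - 1 + n2) (B3 - 1)) + (A2 - 1) < A2 + A2 ∨ (min (A1 - 1 + n2 + n3) (B3 - 1)) + (min (A2 - 1 + n3) (B3 - 1)) < A3 + A3))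
    (h3 : (B1 ≤ 0 ∨ A3 ≤ 0 ∨ (B1 - 1) + (min n1 (A3 - 1)) < A1 + B1 ∨ (B1 - 1 + n2) + (min (n1 + n2) (A3 - 1)) < A2 + B2 ∨ (B1 - 1 + n2 + n3) + (A3 - 1) < A3 + B3))
    : A3 - A2 = n3 - (n1 - A1) - 1 := by
  omega

theorem P1_AAA_S1_S3_M23_c4 (n1 n2 n3 A1 A2 A3 B1 B2 B3 : ℤ)
    (hb : Base n1 n2 n3 A1 A2 A3 B1 B2 B3)
    (hp : B1 ≤ A1 ∧ B2 ≤ A2 ∧ A3 < B3 ∧ (B1 < A1 ∨ B2 < A2))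
    (he : 1 ≤ A2 ∧ 1 ≤ A3 ∧ 1 ≤ B1)
    (hs : A1 + A1 + A1 ≤ (B1 - 1) + n1 + n1 ∧ A1 + A1 + A1 ≤ (B1 - 1) + n1 + (A2 - 1) ∧ A1 + A1 + A1 ≤ (B1 - 1) + (A3 - 1) + n1 ∧ A1 + A1 + A1 ≤ (B1 - 1) + (A3 - 1) + (A2 - 1) ∧ A2 + A2 + A2 ≤ (B1 - 1 + n2) + (n1 + n2) + (A2 - 1) ∧ A2 + A2 + A2 ≤ (B1 - 1 + n2) + (A3 - 1) + (A2 - 1) ∧ A3 + A3 + A3 ≤ (B1 - 1 + n2 + n3) + (A3 - 1) + (A2 - 1 + n3) ∧ A3 + A3 + A3 ≤ (B1 - 1 + n2 + n3) + (A3 - 1) + (B3 - 1))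
    (h0 : (B1 ≤ 0 ∨ A3 ≤ 0 ∨ (B1 - 1) + (min n1 (A3 - 1)) < A1 + A1 ∨ (B1 - 1 + n2) + (min (n1 + n2) (A3 - 1)) < A2 + A2 ∨ (B1 - 1 + n2 + n3) + (A3 - 1) < A3 + A3))
    (h1 : (B2 ≤ 0 ∨ A3 ≤ 0 ∨ (min n1 (B2 - 1)) + (min n1 (A3 - 1)) < A1 + A1 ∨ (B2 - 1) + (min (n1 + n2) (A3 - 1)) < A2 + A2 ∨ (B2 - 1 + n3) + (A3 - 1) < A3 + A3))
    (h2 : (A1 ≤ 0 ∨ A2 ≤ 0 ∨ (A1 - 1) + (min n1 (A2 - 1)) < A1 + A1 ∨ (min (A1 - 1 + n2) (B3 - 1)) + (A2 - 1) < A2 + A2 ∨ (min (A1 - 1 + n2 + n3) (B3 - 1)) + (min (A2 - 1 + n3) (B3 - 1)) < A3 + A3))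
    (h3 : (B1 ≤ 0 ∨ A3 ≤ 0 ∨ (B1 - 1) + (min n1 (A3 - 1)) < A1 + B1 ∨ (B1 - 1 + n2) + (min (n1 + n2) (A3 - 1)) < A2 + B2 ∨ (B1 - 1 + n2 + n3) + (A3 - 1) < A3 + B3))
    : B3 - B2 = n3 := by
  omega

theorem P1_AAA_S1_S3_M23_c5 (n1 n2 n3 A1 A2 A3 B1 B2 B3 : ℤ)
    (hb : Base n1 n2 n3 A1 A2 A3 B1 B2 B3)
    (hp : B1 ≤ A1 ∧ B2 ≤ A2 ∧ A3 < B3 ∧ (B1 < A1 ∨ B2 < A2))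
    (he : 1 ≤ A2 ∧ 1 ≤ A3 ∧ 1 ≤ B1)
    (hs : A1 + A1 + A1 ≤ (B1 - 1) + n1 + n1 ∧ A1 + A1 + A1 ≤ (B1 - 1) + n1 + (A2 - 1) ∧ A1 + A1 + A1 ≤ (B1 - 1) + (A3 - 1) + n1 ∧ A1 + A1 + A1 ≤ (B1 - 1) + (A3 - 1) + (A2 - 1) ∧ A2 + A2 + A2 ≤ (B1 - 1 + n2) + (n1 + n2) + (A2 - 1) ∧ A2 + A2 + A2 ≤ (B1 - 1 + n2) + (A3 - 1) + (A2 - 1) ∧ A3 + A3 + A3 ≤ (B1 - 1 + n2 + n3) + (A3 - 1) + (A2 - 1 + n3) ∧ A3 + A3 + A3 ≤ (B1 - 1 + n2 + n3) + (A3 - 1) + (B3 - 1))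
    (h0 : (B1 ≤ 0 ∨ A3 ≤ 0 ∨ (B1 - 1) + (min n1 (A3 - 1)) < A1 + A1 ∨ (B1 - 1 + n2) + (min (n1 + n2) (A3 - 1)) < A2 + A2 ∨ (B1 - 1 + n2 + n3) + (A3 - 1) < A3 + A3))
    (h1 : (B2 ≤ 0 ∨ A3 ≤ 0 ∨ (min n1 (B2 - 1)) + (min n1 (A3 - 1)) < A1 + A1 ∨ (B2 - 1) + (min (n1 + n2) (A3 - 1)) < A2 + A2 ∨ (B2 - 1 + n3) + (A3 - 1) < A3 + A3))
    (h2 : (A1 ≤ 0 ∨ A2 ≤ 0 ∨ (A1 - 1) + (min n1 (A2 - 1)) < A1 + A1 ∨ (min (A1 - 1 + n2) (B3 - 1)) + (A2 - 1) < A2 + A2 ∨ (min (A1 - 1 + n2 + n3) (B3 - 1)) + (min (A2 - 1 + n3) (B3 - 1)) < A3 + A3))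
    (h3 : (B1 ≤ 0 ∨ A3 ≤ 0 ∨ (B1 - 1) + (min n1 (A3 - 1)) < A1 + B1 ∨ (B1 - 1 + n2) + (min (n1 + n2) (A3 - 1)) < A2 + B2 ∨ (B1 - 1 + n2 + n3) + (A3 - 1) < A3 + B3))
    : 1 ≤ n1 - A1 := by
  omega

theorem P1_AAA_S1_S3_M23_c6 (n1 n2 n3 A1 A2 A3 B1 B2 B3 : ℤ)
    (hb : Base n1 n2 n3 A1 A2 A3 B1 B2 B3)
    (hp : B1 ≤ A1 ∧ B2 ≤ A2 ∧ A3 < B3 ∧ (B1 < A1 ∨ B2 < A2))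
    (he : 1 ≤ A2 ∧ 1 ≤ A3 ∧ 1 ≤ B1)
    (hs : A1 + A1 + A1 ≤ (B1 - 1) + n1 + n1 ∧ A1 + A1 + A1 ≤ (B1 - 1) + n1 + (A2 - 1) ∧ A1 + A1 + A1 ≤ (B1 - 1) + (A3 - 1) + n1 ∧ A1 + A1 + A1 ≤ (B1 - 1) + (A3 - 1) + (A2 - 1) ∧ A2 + A2 + A2 ≤ (B1 - 1 + n2) + (n1 + n2) + (A2 - 1) ∧ A2 + A2 + A2 ≤ (B1 - 1 + n2) + (A3 - 1) + (A2 - 1) ∧ A3 + A3 + A3 ≤ (B1 - 1 + n2 + n3) + (A3 - 1) + (A2 - 1 + n3) ∧ A3 + A3 + A3 ≤ (B1 - 1 + n2 + n3) + (A3 - 1) + (B3 - 1))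
    (h0 : (B1 ≤ 0 ∨ A3 ≤ 0 ∨ (B1 - 1) + (min n1 (A3 - 1)) < A1 + A1 ∨ (B1 - 1 + n2) + (min (n1 + n2) (A3 - 1)) < A2 + A2 ∨ (B1 - 1 + n2 + n3) + (A3 - 1) < A3 + A3))
    (h1 : (B2 ≤ 0 ∨ A3 ≤ 0 ∨ (min n1 (B2 - 1)) + (min n1 (A3 - 1)) < A1 + A1 ∨ (B2 - 1) + (min (n1 + n2) (A3 - 1)) < A2 + A2 ∨ (B2 - 1 + n3) + (A3 - 1) < A3 + A3))
    (h2 : (A1 ≤ 0 ∨ A2 ≤ 0 ∨ (A1 - 1) + (min n1 (A2 - 1)) < A1 + A1 ∨ (min (A1 - 1 + n2) (B3 - 1)) + (A2 - 1) < A2 + A2 ∨ (min (A1 - 1 + n2 + n3) (B3 - 1)) + (min (A2 - 1 + n3) (B3 - 1)) < A3 + A3))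
    (h3 : (B1 ≤ 0 ∨ A3 ≤ 0 ∨ (B1 - 1) + (min n1 (A3 - 1)) < A1 + B1 ∨ (B1 - 1 + n2) + (min (n1 + n2) (A3 - 1)) < A2 + B2 ∨ (B1 - 1 + n2 + n3) + (A3 - 1) < A3 + B3))
    : 2 * (n1 - A1) + 1 ≤ n1 := by
  omega

theorem P1_AAA_S1_S3_M23_c7 (n1 n2 n3 A1 A2 A3 B1 B2 B3 : ℤ)
    (hb : Base n1 n2 n3 A1 A2 A3 B1 B2 B3)
    (hp : B1 ≤ A1 ∧ B2 ≤ A2 ∧ A3 < B3 ∧ (B1 < A1 ∨ B2 < A2))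
    (he : 1 ≤ A2 ∧ 1 ≤ A3 ∧ 1 ≤ B1)
    (hs : A1 + A1 + A1 ≤ (B1 - 1) + n1 + n1 ∧ A1 + A1 + A1 ≤ (B1 - 1) + n1 + (A2 - 1) ∧ A1 + A1 + A1 ≤ (B1 - 1) + (A3 - 1) + n1 ∧ A1 + A1 + A1 ≤ (B1 - 1) + (A3 - 1) + (A2 - 1) ∧ A2 + A2 + A2 ≤ (B1 - 1 + n2) + (n1 + n2) + (A2 - 1) ∧ A2 + A2 + A2 ≤ (B1 - 1 + n2) + (A3 - 1) + (A2 - 1) ∧ A3 + A3 + A3 ≤ (B1 - 1 + n2 + n3) + (A3 - 1) + (A2 - 1 + n3) ∧ A3 + A3 + A3 ≤ (B1 - 1 + n2 + n3) + (A3 - 1) + (B3 - 1))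
    (h0 : (B1 ≤ 0 ∨ A3 ≤ 0 ∨ (B1 - 1) + (min n1 (A3 - 1)) < A1 + A1 ∨ (B1 - 1 + n2) + (min (n1 + n2) (A3 - 1)) < A2 + A2 ∨ (B1 - 1 + n2 + n3) + (A3 - 1) < A3 + A3))
    (h1 : (B2 ≤ 0 ∨ A3 ≤ 0 ∨ (min n1 (B2 - 1)) + (min n1 (A3 - 1)) < A1 + A1 ∨ (B2 - 1) + (min (n1 + n2) (A3 - 1)) < A2 + A2 ∨ (B2 - 1 + n3) + (A3 - 1) < A3 + A3))
    (h2 : (A1 ≤ 0 ∨ A2 ≤ 0 ∨ (A1 - 1) + (min n1 (A2 - 1)) < A1 + A1 ∨ (min (A1 - 1 + n2) (B3 - 1)) + (A2 - 1) < A2 + A2 ∨ (min (A1 - 1 + n2 + n3) (B3 - 1)) + (min (A2 - 1 + n3) (B3 - 1)) < A3 + A3))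
    (h3 : (B1 ≤ 0 ∨ A3 ≤ 0 ∨ (B1 - 1) + (min n1 (A3 - 1)) < A1 + B1 ∨ (B1 - 1 + n2) + (min (n1 + n2) (A3 - 1)) < A2 + B2 ∨ (B1 - 1 + n2 + n3) + (A3 - 1) < A3 + B3))
    : 3 ≤ n2 := by
  omega

theorem P1_AAA_S1_S3_M23_c8 (n1 n2 n3 A1 A2 A3 B1 B2 B3 : ℤ)
    (hb : Base n1 n2 n3 A1 A2 A3 B1 B2 B3)
    (hp : B1 ≤ A1 ∧ B2 ≤ A2 ∧ A3 < B3 ∧ (B1 < A1 ∨ B2 < A2))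
    (he : 1 ≤ A2 ∧ 1 ≤ A3 ∧ 1 ≤ B1)
    (hs : A1 + A1 + A1 ≤ (B1 - 1) + n1 + n1 ∧ A1 + A1 + A1 ≤ (B1 - 1) + n1 + (A2 - 1) ∧ A1 + A1 + A1 ≤ (B1 - 1) + (A3 - 1) + n1 ∧ A1 + A1 + A1 ≤ (B1 - 1) + (A3 - 1) + (A2 - 1) ∧ A2 + A2 + A2 ≤ (B1 - 1 + n2) + (n1 + n2) + (A2 - 1) ∧ A2 + A2 + A2 ≤ (B1 - 1 + n2) + (A3 - 1) + (A2 - 1) ∧ A3 + A3 + A3 ≤ (B1 - 1 + n2 + n3) + (A3 - 1) + (A2 - 1 + n3) ∧ A3 + A3 + A3 ≤ (B1 - 1 + n2 + n3) + (A3 - 1) + (B3 - 1))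
    (h0 : (B1 ≤ 0 ∨ A3 ≤ 0 ∨ (B1 - 1) + (min n1 (A3 - 1)) < A1 + A1 ∨ (B1 - 1 + n2) + (min (n1 + n2) (A3 - 1)) < A2 + A2 ∨ (B1 - 1 + n2 + n3) + (A3 - 1) < A3 + A3))
    (h1 : (B2 ≤ 0 ∨ A3 ≤ 0 ∨ (min n1 (B2 - 1)) + (min n1 (A3 - 1)) < A1 + A1 ∨ (B2 - 1) + (min (n1 + n2) (A3 - 1)) < A2 + A2 ∨ (B2 - 1 + n3) + (A3 - 1) < A3 + A3))
    (h2 : (A1 ≤ 0 ∨ A2 ≤ 0 ∨ (A1 - 1) + (min n1 (A2 - 1)) < A1 + A1 ∨ (min (A1 - 1 + n2) (B3 - 1)) + (A2 - 1) < A2 + A2 ∨ (min (A1 - 1 + n2 + n3) (B3 - 1)) + (min (A2 - 1 + n3) (B3 - 1)) < A3 + A3))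
    (h3 : (B1 ≤ 0 ∨ A3 ≤ 0 ∨ (B1 - 1) + (min n1 (A3 - 1)) < A1 + B1 ∨ (B1 - 1 + n2) + (min (n1 + n2) (A3 - 1)) < A2 + B2 ∨ (B1 - 1 + n2 + n3) + (A3 - 1) < A3 + B3))
    : 2 * (n1 - A1) + 3 ≤ n3 := by
  omega

theorem P1_AAA_S1_S3_M23 (n1 n2 n3 A1 A2 A3 B1 B2 B3 : ℤ)
    (hb : Base n1 n2 n3 A1 A2 A3 B1 B2 B3)
    (hp : B1 ≤ A1 ∧ B2 ≤ A2 ∧ A3 < B3 ∧ (B1 < A1 ∨ B2 < A2))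
    (he : 1 ≤ A2 ∧ 1 ≤ A3 ∧ 1 ≤ B1)
    (hs : A1 + A1 + A1 ≤ (B1 - 1) + n1 + n1 ∧ A1 + A1 + A1 ≤ (B1 - 1) + n1 + (A2 - 1) ∧ A1 + A1 + A1 ≤ (B1 - 1) + (A3 - 1) + n1 ∧ A1 + A1 + A1 ≤ (B1 - 1) + (A3 - 1) + (A2 - 1) ∧ A2 + A2 + A2 ≤ (B1 - 1 + n2) + (n1 + n2) + (A2 - 1) ∧ A2 + A2 + A2 ≤ (B1 - 1 + n2) + (A3 - 1) + (A2 - 1) ∧ A3 + A3 + A3 ≤ (B1 - 1 + n2 + n3) + (A3 - 1) + (A2 - 1 + n3) ∧ A3 + A3 + A3 ≤ (B1 - 1 + n2 + n3) + (A3 - 1) + (B3 - 1))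
    (h0 : (B1 ≤ 0 ∨ A3 ≤ 0 ∨ (B1 - 1) + (min n1 (A3 - 1)) < A1 + A1 ∨ (B1 - 1 + n2) + (min (n1 + n2) (A3 - 1)) < A2 + A2 ∨ (B1 - 1 + n2 + n3) + (A3 - 1) < A3 + A3))
    (h1 : (B2 ≤ 0 ∨ A3 ≤ 0 ∨ (min n1 (B2 - 1)) + (min n1 (A3 - 1)) < A1 + A1 ∨ (B2 - 1) + (min (n1 + n2) (A3 - 1)) < A2 + A2 ∨ (B2 - 1 + n3) + (A3 - 1) < A3 + A3))
    (h2 : (A1 ≤ 0 ∨ A2 ≤ 0 ∨ (A1 - 1) + (min n1 (A2 - 1)) < A1 + A1 ∨ (min (A1 - 1 + n2) (B3 - 1)) + (A2 - 1) < A2 + A2 ∨ (min (A1 - 1 + n2 + n3) (B3 - 1)) + (min (A2 - 1 + n3) (B3 - 1)) < A3 + A3))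
    (h3 : (B1 ≤ 0 ∨ A3 ≤ 0 ∨ (B1 - 1) + (min n1 (A3 - 1)) < A1 + B1 ∨ (B1 - 1 + n2) + (min (n1 + n2) (A3 - 1)) < A2 + B2 ∨ (B1 - 1 + n2 + n3) + (A3 - 1) < A3 + B3))
    : Fam n1 n2 n3 A1 A2 A3 B1 B2 B3 :=
  Or.inl ⟨P1_AAA_S1_S3_M23_c0 n1 n2 n3 A1 A2 A3 B1 B2 B3 hb hp he hs h0 h1 h2 h3,
    P1_AAA_S1_S3_M23_c1 n1 n2 n3 A1 A2 A3 B1 B2 B3 hb hp he hs h0 h1 h2 h3,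
    P1_AAA_S1_S3_M23_c2 n1 n2 n3 A1 A2 A3 B1 B2 B3 hb hp he hs h0 h1 h2 h3,
    P1_AAA_S1_S3_M23_c3 n1 n2 n3 A1 A2 A3 B1 B2 B3 hb hp he hs h0 h1 h2 h3,
    P1_AAA_S1_S3_M23_c4 n1 n2 n3 A1 A2 A3 B1 B2 B3 hb hp he hs h0 h1 h2 h3,
    P1_AAA_S1_S3_M23_c5 n1 n2 n3 A1 A2 A3 B1 B2 B3 hb hp he hs h0 h1 h2 h3,
    P1_AAA_S1_S3_M23_c6 n1 n2 n3 A1 A2 A3 B1 B2 B3 hb hp he hs h0 h1 h2 h3,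
    P1_AAA_S1_S3_M23_c7 n1 n2 n3 A1 A2 A3 B1 B2 B3 hb hp he hs h0 h1 h2 h3,
    P1_AAA_S1_S3_M23_c8 n1 n2 n3 A1 A2 A3 B1 B2 B3 hb hp he hs h0 h1 h2 h3⟩

theorem P1_AAA_S1_S3_S3 (n1 n2 n3 A1 A2 A3 B1 B2 B3 : ℤ)
    (hb : Base n1 n2 n3 A1 A2 A3 B1 B2 B3)
    (hp : B1 ≤ A1 ∧ B2 ≤ A2 ∧ A3 < B3 ∧ (B1 < A1 ∨ B2 < A2))
    (he : 1 ≤ A3 ∧ 1 ≤ B1)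
    (hs : A1 + A1 + A1 ≤ (B1 - 1) + n1 + n1 ∧ A1 + A1 + A1 ≤ (B1 - 1) + n1 + (A3 - 1) ∧ A1 + A1 + A1 ≤ (B1 - 1) + (A3 - 1) + n1 ∧ A1 + A1 + A1 ≤ (B1 - 1) + (A3 - 1) + (A3 - 1) ∧ A2 + A2 + A2 ≤ (B1 - 1 + n2) + (n1 + n2) + (n1 + n2) ∧ A2 + A2 + A2 ≤ (B1 - 1 + n2) + (n1 + n2) + (A3 - 1) ∧ A2 + A2 + A2 ≤ (B1 - 1 + n2) + (A3 - 1) + (n1 + n2) ∧ A2 + A2 + A2 ≤ (B1 - 1 + n2) + (A3 - 1) + (A3 - 1) ∧ A3 + A3 + A3 ≤ (B1 - 1 + n2 + n3) + (A3 - 1) + (A3 - 1))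
    (h0 : (B1 ≤ 0 ∨ A3 ≤ 0 ∨ (B1 - 1) + (min n1 (A3 - 1)) < A1 + B1 ∨ (B1 - 1 + n2) + (min (n1 + n2) (A3 - 1)) < A2 + B2 ∨ (B1 - 1 + n2 + n3) + (A3 - 1) < A3 + B3))
    (h1 : (A3 ≤ 0 ∨ A1 ≤ 0 ∨ (min n1 (A3 - 1)) + (A1 - 1) < A1 + A1 ∨ (min (n1 + n2) (A3 - 1)) + (min (A1 - 1 + n2) (B3 - 1)) < A2 + A2 ∨ (A3 - 1) + (min (A1 - 1 + n2 + n3) (B3 - 1)) < A3 + A3))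
    : False := by
  omega

theorem P1_AAA_S2_M13_M13 (n1 n2 n3 A1 A2 A3 B1 B2 B3 : ℤ)
    (hb : Base n1 n2 n3 A1 A2 A3 B1 B2 B3)
    (hp : B1 ≤ A1 ∧ B2 ≤ A2 ∧ A3 < B3 ∧ (B1 < A1 ∨ B2 < A2))
    (he : 1 ≤ A1 ∧ 1 ≤ B2)
    (hs : A1 + A1 + A1 ≤ n1 + (A1 - 1) + (A1 - 1) ∧ A1 + A1 + A1 ≤ (B2 - 1) + (A1 - 1) + (A1 - 1) ∧ A2 + A2 + A2 ≤ (B2 - 1) + (A1 - 1 + n2) + (A1 - 1 + n2) ∧ A2 + A2 + A2 ≤ (B2 - 1) + (A1 - 1 + n2) + (B3 - 1) ∧ A2 + A2 + A2 ≤ (B2 - 1) + (B3 - 1) + (A1 - 1 + n2) ∧ A2 + A2 + A2 ≤ (B2 - 1) + (B3 - 1) + (B3 - 1) ∧ A3 + A3 + A3 ≤ (B2 - 1 + n3) + (A1 - 1 + n2 + n3) + (A1 - 1 + n2 + n3) ∧ A3 + A3 + A3 ≤ (B2 - 1 + n3) + (A1 - 1 + n2 + n3) + (B3 - 1) ∧ A3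 + A3 + A3 ≤ (B2 - 1 + n3) + (B3 - 1) + (A1 - 1 + n2 + n3) ∧ A3 + A3 + A3 ≤ (B2 - 1 + n3) + (B3 - 1) + (B3 - 1))
    (h0 : (A1 ≤ 0 ∨ A2 ≤ 0 ∨ (A1 - 1) + (min n1 (A2 - 1)) < A1 + A1 ∨ (min (A1 - 1 + n2) (B3 - 1)) + (A2 - 1) < A2 + A2 ∨ (min (A1 - 1 + n2 + n3) (B3 - 1)) + (min (A2 - 1 + n3) (B3 - 1)) < A3 + A3))
    : False := by
  omega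

theorem P1_AAA_S2_M13_M23 (n1 n2 n3 A1 A2 A3 B1 B2 B3 : ℤ)
    (hb : Base n1 n2 n3 A1 A2 A3 B1 B2 B3)
    (hp : B1 ≤ A1 ∧ B2 ≤ A2 ∧ A3 < B3 ∧ (B1 < A1 ∨ B2 < A2))
    (he : 1 ≤ A1 ∧ 1 ≤ A2 ∧ 1 ≤ B2)
    (hs : A1 + A1 + A1 ≤ n1 + (A1 - 1) + n1 ∧ A1 + A1 + A1 ≤ n1 + (A1 - 1) + (A2 - 1) ∧ A1 + A1 + A1 ≤ (B2 - 1) + (A1 - 1) + n1 ∧ A1 + A1 + A1 ≤ (B2 - 1) + (A1 - 1) + (A2 - 1) ∧ A2 + A2 + A2 ≤ (B2 - 1) + (A1 - 1 + n2) + (A2 - 1) ∧ A2 + A2 + A2 ≤ (B2 - 1) + (B3 - 1) + (A2 - 1) ∧ A3 + A3 + A3 ≤ (B2 - 1 + n3) + (A1 - 1 + n2 + n3) + (A2 - 1 + n3) ∧ A3 + A3 + A3 ≤ (B2 - 1 + n3) + (A1 - 1 + n2 + n3) + (B3 - 1) ∧ A3 + A3 + A3 ≤ (B2 - 1 + n3) + (B3 - 1) + (A2 - 1 + n3) ∧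 A3 + A3 + A3 ≤ (B2 - 1 + n3) + (B3 - 1) + (B3 - 1))
    (h0 : (A1 ≤ 0 ∨ A2 ≤ 0 ∨ (A1 - 1) + (min n1 (A2 - 1)) < A1 + A1 ∨ (min (A1 - 1 + n2) (B3 - 1)) + (A2 - 1) < A2 + A2 ∨ (min (A1 - 1 + n2 + n3) (B3 - 1)) + (min (A2 - 1 + n3) (B3 - 1)) < A3 + A3))
    : False := by
  omega

theorem P1_AAA_S2_M23_M23 (n1 n2 n3 A1 A2 A3 B1 B2 B3 : ℤ)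
    (hb : Base n1 n2 n3 A1 A2 A3 B1 B2 B3)
    (hp : B1 ≤ A1 ∧ B2 ≤ A2 ∧ A3 < B3 ∧ (B1 < A1 ∨ B2 < A2))
    (he : 1 ≤ A2 ∧ 1 ≤ B2)
    (hs : A1 + A1 + A1 ≤ n1 + n1 + n1 ∧ A1 + A1 + A1 ≤ n1 + n1 + (A2 - 1) ∧ A1 + A1 + A1 ≤ n1 + (A2 - 1) + n1 ∧ A1 + A1 + A1 ≤ n1 + (A2 - 1) + (A2 - 1) ∧ A1 + A1 + A1 ≤ (B2 - 1) + n1 + n1 ∧ A1 + A1 + A1 ≤ (B2 - 1) + n1 + (A2 - 1) ∧ A1 + A1 + A1 ≤ (B2 - 1) + (A2 - 1) + n1 ∧ A1 + A1 + A1 ≤ (B2 - 1) + (A2 - 1) + (A2 - 1) ∧ A2 + A2 + A2 ≤ (B2 - 1) + (A2 - 1) + (A2 - 1) ∧ A3 + A3 + A3 ≤ (B2 - 1 + n3) + (A2 - 1 + n3) + (A2 - 1 + n3) ∧ A3 + A3 + A3 ≤ (B2 - 1 + n3) + (A2 - 1 + n3) + (B3 - 1) ∧ A3 + A3 + A3 ≤ (B2 - 1 + n3) + (B3 - 1) + (A2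 - 1 + n3) ∧ A3 + A3 + A3 ≤ (B2 - 1 + n3) + (B3 - 1) + (B3 - 1))
    : False := by
  omega

theorem P1_AAA_S2_S2_M13 (n1 n2 n3 A1 A2 A3 B1 B2 B3 : ℤ)
    (hb : Base n1 n2 n3 A1 A2 A3 B1 B2 B3)
    (hp : B1 ≤ A1 ∧ B2 ≤ A2 ∧ A3 < B3 ∧ (B1 < A1 ∨ B2 < A2))
    (he : 1 ≤ A1 ∧ 1 ≤ B2)
    (hs : A1 + A1 + A1 ≤ n1 + n1 + (A1 - 1) ∧ A1 + A1 + A1 ≤ n1 + (B2 - 1) + (A1 - 1) ∧ A1 + A1 + A1 ≤ (B2 - 1) + n1 + (A1 - 1) ∧ A1 + A1 + A1 ≤ (B2 - 1) + (B2 - 1) + (A1 - 1) ∧ A2 + A2 + A2 ≤ (B2 - 1) + (B2 - 1) + (A1 - 1 + n2) ∧ A2 + A2 + A2 ≤ (B2 - 1) + (B2 - 1) + (B3 - 1) ∧ A3 + A3 + A3 ≤ (B2 - 1 + n3) + (B2 - 1 + n3) + (A1 - 1 + n2 + n3) ∧ A3 + A3 + A3 ≤ (B2 - 1 + n3) + (B2 - 1 +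 n3) + (B3 - 1))
    (h0 : (B2 ≤ 0 ∨ A1 ≤ 0 ∨ (min n1 (B2 - 1)) + (A1 - 1) < A1 + A1 ∨ (B2 - 1) + (min (A1 - 1 + n2) (B3 - 1)) < A2 + A2 ∨ (B2 - 1 + n3) + (min (A1 - 1 + n2 + n3) (B3 - 1)) < A3 + A3))
    : False := by
  omega

theorem P1_AAA_S2_S2_M23 (n1 n2 n3 A1 A2 A3 B1 B2 B3 : ℤ)
    (hb : Base n1 n2 n3 A1 A2 A3 B1 B2 B3)
    (hp : B1 ≤ A1 ∧ B2 ≤ A2 ∧ A3 < B3 ∧ (B1 < A1 ∨ B2 < A2))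
    (he : 1 ≤ A2 ∧ 1 ≤ B2)
    (hs : A1 + A1 + A1 ≤ n1 + n1 + n1 ∧ A1 + A1 + A1 ≤ n1 + n1 + (A2 - 1) ∧ A1 + A1 + A1 ≤ n1 + (B2 - 1) + n1 ∧ A1 + A1 + A1 ≤ n1 + (B2 - 1) + (A2 - 1) ∧ A1 + A1 + A1 ≤ (B2 - 1) + n1 + n1 ∧ A1 + A1 + A1 ≤ (B2 - 1) + n1 + (A2 - 1) ∧ A1 + A1 + A1 ≤ (B2 - 1) + (B2 - 1) + n1 ∧ A1 + A1 + A1 ≤ (B2 - 1) + (B2 - 1) + (A2 - 1) ∧ A2 + A2 + A2 ≤ (B2 - 1) + (B2 - 1) + (A2 - 1) ∧ A3 + A3 + A3 ≤ (B2 - 1 + n3) + (B2 - 1 + n3) + (A2 - 1 + n3) ∧ A3 + A3 + A3 ≤ (B2 - 1 + n3) + (B2 - 1 + n3) + (B3 - 1))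
    : False := by
  omega

theorem P1_AAA_S2_S2_S2 (n1 n2 n3 A1 A2 A3 B1 B2 B3 : ℤ)
    (hb : Base n1 n2 n3 A1 A2 A3 B1 B2 B3)
    (hp : B1 ≤ A1 ∧ B2 ≤ A2 ∧ A3 < B3 ∧ (B1 < A1 ∨ B2 < A2))
    (he : 1 ≤ B2)
    (hs : A1 + A1 + A1 ≤ n1 + n1 + n1 ∧ A1 + A1 + A1 ≤ n1 + n1 + (B2 - 1) ∧ A1 + A1 + A1 ≤ n1 + (B2 - 1) + n1 ∧ A1 + A1 + A1 ≤ n1 + (B2 - 1) + (B2 - 1) ∧ A1 + A1 + A1 ≤ (B2 - 1) + n1 + n1 ∧ A1 + A1 + A1 ≤ (B2 - 1) + n1 + (B2 - 1) ∧ A1 + A1 + A1 ≤ (B2 - 1) + (B2 - 1) + n1 ∧ A1 + A1 + A1 ≤ (B2 - 1) + (B2 - 1) + (B2 - 1) ∧ A2 + A2 + A2 ≤ (B2 - 1) + (B2 - 1) + (B2 - 1) ∧ A3 + A3 + A3 ≤ (B2 - 1 + n3) + (B2 - 1 + n3) + (B2 - 1 + n3))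
    : False := by
  omega

theorem P1_AAA_S2_S2_S3 (n1 n2 n3 A1 A2 A3 B1 B2 B3 : ℤ)
    (hb : Base n1 n2 n3 A1 A2 A3 B1 B2 B3)
    (hp : B1 ≤ A1 ∧ B2 ≤ A2 ∧ A3 < B3 ∧ (B1 < A1 ∨ B2 < A2))
    (he : 1 ≤ A3 ∧ 1 ≤ B2)
    (hs : A1 + A1 + A1 ≤ n1 + n1 + n1 ∧ A1 + A1 + A1 ≤ n1 + n1 + (A3 - 1) ∧ A1 + A1 + A1 ≤ n1 + (B2 - 1) + n1 ∧ A1 + A1 + A1 ≤ n1 + (B2 - 1) + (A3 - 1) ∧ A1 + A1 + A1 ≤ (B2 - 1) + n1 + n1 ∧ A1 + A1 + A1 ≤ (B2 - 1) + n1 + (A3 - 1) ∧ A1 + A1 + A1 ≤ (B2 - 1) + (B2 - 1) + n1 ∧ A1 + A1 + A1 ≤ (B2 - 1) + (B2 - 1) + (A3 - 1) ∧ A2 + A2 + A2 ≤ (B2 - 1) + (B2 - 1) + (n1 + n2) ∧ A2 + A2 + A2 ≤ (B2 - 1) + (B2 - 1) + (A3 - 1) ∧ A3 + A3 + A3 ≤ (B2 - 1 + n3) + (B2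 - 1 + n3) + (A3 - 1))
    (h0 : (B2 ≤ 0 ∨ A3 ≤ 0 ∨ (min n1 (B2 - 1)) + (min n1 (A3 - 1)) < A1 + A1 ∨ (B2 - 1) + (min (n1 + n2) (A3 - 1)) < A2 + A2 ∨ (B2 - 1 + n3) + (A3 - 1) < A3 + A3))
    : False := by
  omega

theorem P1_AAA_S2_S3_M13_c0 (n1 n2 n3 A1 A2 A3 B1 B2 B3 : ℤ)
    (hb : Base n1 n2 n3 A1 A2 A3 B1 B2 B3)
    (hp : B1 ≤ A1 ∧ B2 ≤ A2 ∧ A3 < B3 ∧ (B1 < A1 ∨ B2 < A2))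
    (he : 1 ≤ A1 ∧ 1 ≤ A3 ∧ 1 ≤ B2)
    (hs : A1 + A1 + A1 ≤ n1 + n1 + (A1 - 1) ∧ A1 + A1 + A1 ≤ n1 + (A3 - 1) + (A1 - 1) ∧ A1 + A1 + A1 ≤ (B2 - 1) + n1 + (A1 - 1) ∧ A1 + A1 + A1 ≤ (B2 - 1) + (A3 - 1) + (A1 - 1) ∧ A2 + A2 + A2 ≤ (B2 - 1) + (n1 + n2) + (A1 - 1 + n2) ∧ A2 + A2 + A2 ≤ (B2 - 1) + (n1 + n2) + (B3 - 1) ∧ A2 + A2 + A2 ≤ (B2 - 1) + (A3 - 1) + (A1 - 1 + n2) ∧ A2 + A2 + A2 ≤ (B2 - 1) + (A3 - 1) + (B3 - 1) ∧ A3 + A3 + A3 ≤ (B2 - 1 + n3) + (A3 - 1) + (A1 - 1 + n2 + n3) ∧ A3 + A3 + A3 ≤ (B2 - 1 + n3) + (A3 - 1) + (B3 - 1))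
    (h0 : (B2 ≤ 0 ∨ A3 ≤ 0 ∨ (min n1 (B2 - 1)) + (min n1 (A3 - 1)) < A1 + A1 ∨ (B2 - 1) + (min (n1 + n2) (A3 - 1)) < A2 + A2 ∨ (B2 - 1 + n3) + (A3 - 1) < A3 + A3))
    (h1 : (A1 ≤ 0 ∨ A2 ≤ 0 ∨ (A1 - 1) + (min n1 (A2 - 1)) < A1 + A1 ∨ (min (A1 - 1 + n2) (B3 - 1)) + (A2 - 1) < A2 + A2 ∨ (min (A1 - 1 + n2 + n3) (B3 - 1)) + (min (A2 - 1 + n3) (B3 - 1)) < A3 + A3))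
    (h2 : (B2 ≤ 0 ∨ A1 ≤ 0 ∨ (min n1 (B2 - 1)) + (A1 - 1) < A1 + B1 ∨ (B2 - 1) + (min (A1 - 1 + n2) (B3 - 1)) < A2 + B2 ∨ (B2 - 1 + n3) + (min (A1 - 1 + n2 + n3) (B3 - 1)) < A3 + B3))
    (h3 : (B2 ≤ 0 ∨ A3 ≤ 0 ∨ (min n1 (B2 - 1)) + (min n1 (A3 - 1)) < A1 + B1 ∨ (B2 - 1) + (min (n1 + n2) (A3 - 1)) < A2 + B2 ∨ (B2 - 1 + n3) + (A3 - 1) < A3 + B3))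
    (h4 : (A3 ≤ 0 ∨ A1 ≤ 0 ∨ (min n1 (A3 - 1)) + (A1 - 1) < A1 + A1 ∨ (min (n1 + n2) (A3 - 1)) + (min (A1 - 1 + n2) (B3 - 1)) < A2 + A2 ∨ (A3 - 1) + (min (A1 - 1 + n2 + n3) (B3 - 1)) < A3 + A3))
    (h5 : (B1 ≤ 0 ∨ A3 ≤ 0 ∨ (B1 - 1) + (min n1 (A3 - 1)) < A1 + A1 ∨ (B1 - 1 + n2) + (min (n1 + n2) (A3 - 1)) < A2 + A2 ∨ (B1 - 1 + n2 + n3) + (A3 - 1) < A3 + A3))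
    : B1 = 0 := by
  omega

theorem P1_AAA_S2_S3_M13_c1 (n1 n2 n3 A1 A2 A3 B1 B2 B3 : ℤ)
    (hb : Base n1 n2 n3 A1 A2 A3 B1 B2 B3)
    (hp : B1 ≤ A1 ∧ B2 ≤ A2 ∧ A3 < B3 ∧ (B1 < A1 ∨ B2 < A2))
    (he : 1 ≤ A1 ∧ 1 ≤ A3 ∧ 1 ≤ B2)
    (hs : A1 + A1 + A1 ≤ n1 + n1 + (A1 - 1) ∧ A1 + A1 + A1 ≤ n1 + (A3 - 1) + (A1 - 1) ∧ A1 + A1 + A1 ≤ (B2 - 1) + n1 + (A1 - 1) ∧ A1 + A1 + A1 ≤ (B2 - 1) + (A3 - 1) + (A1 - 1) ∧ A2 + A2 + A2 ≤ (B2 - 1) + (n1 + n2) + (A1 - 1 + n2) ∧ A2 + A2 + A2 ≤ (B2 - 1) + (n1 + n2) + (B3 - 1) ∧ A2 + A2 + A2 ≤ (B2 - 1) + (A3 - 1) + (A1 - 1 + n2) ∧ A2 + A2 + A2 ≤ (B2 - 1) + (A3 - 1) + (B3 - 1) ∧ A3 + A3 + A3 ≤ (B2 - 1 + n3) + (A3 - 1) + (A1 - 1 + n2 +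 n3) ∧ A3 + A3 + A3 ≤ (B2 - 1 + n3) + (A3 - 1) + (B3 - 1))
    (h0 : (B2 ≤ 0 ∨ A3 ≤ 0 ∨ (min n1 (B2 - 1)) + (min n1 (A3 - 1)) < A1 + A1 ∨ (B2 - 1) + (min (n1 + n2) (A3 - 1)) < A2 + A2 ∨ (B2 - 1 + n3) + (A3 - 1) < A3 + A3))
    (h1 : (A1 ≤ 0 ∨ A2 ≤ 0 ∨ (A1 - 1) + (min n1 (A2 - 1)) < A1 + A1 ∨ (min (A1 - 1 + n2) (B3 - 1)) + (A2 - 1) < A2 + A2 ∨ (min (A1 - 1 + n2 + n3) (B3 - 1)) + (min (A2 - 1 + n3) (B3 - 1)) < A3 + A3))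
    (h2 : (B2 ≤ 0 ∨ A1 ≤ 0 ∨ (min n1 (B2 - 1)) + (A1 - 1) < A1 + B1 ∨ (B2 - 1) + (min (A1 - 1 + n2) (B3 - 1)) < A2 + B2 ∨ (B2 - 1 + n3) + (min (A1 - 1 + n2 + n3) (B3 - 1)) < A3 + B3))
    (h3 : (B2 ≤ 0 ∨ A3 ≤ 0 ∨ (min n1 (B2 - 1)) + (min n1 (A3 - 1)) < A1 + B1 ∨ (B2 - 1) + (min (n1 + n2) (A3 - 1)) < A2 + B2 ∨ (B2 - 1 + n3) + (A3 - 1) < A3 + B3))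
    (h4 : (A3 ≤ 0 ∨ A1 ≤ 0 ∨ (min n1 (A3 - 1)) + (A1 - 1) < A1 + A1 ∨ (min (n1 + n2) (A3 - 1)) + (min (A1 - 1 + n2) (B3 - 1)) < A2 + A2 ∨ (A3 - 1) + (min (A1 - 1 + n2 + n3) (B3 - 1)) < A3 + A3))
    (h5 : (B1 ≤ 0 ∨ A3 ≤ 0 ∨ (B1 - 1) + (min n1 (A3 - 1)) < A1 + A1 ∨ (B1 - 1 + n2) + (min (n1 + n2) (A3 - 1)) < A2 + A2 ∨ (B1 - 1 + n2 + n3) + (A3 - 1) < A3 + A3))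
    : A2 - A1 = 1 := by
  omega

theorem P1_AAA_S2_S3_M13_c2 (n1 n2 n3 A1 A2 A3 B1 B2 B3 : ℤ)
    (hb : Base n1 n2 n3 A1 A2 A3 B1 B2 B3)
    (hp : B1 ≤ A1 ∧ B2 ≤ A2 ∧ A3 < B3 ∧ (B1 < A1 ∨ B2 < A2))
    (he : 1 ≤ A1 ∧ 1 ≤ A3 ∧ 1 ≤ B2)
    (hs : A1 + A1 + A1 ≤ n1 + n1 + (A1 - 1) ∧ A1 + A1 + A1 ≤ n1 + (A3 - 1) + (A1 - 1) ∧ A1 + A1 + A1 ≤ (B2 - 1) + n1 + (A1 - 1) ∧ A1 + A1 + A1 ≤ (B2 - 1) + (A3 - 1) + (A1 - 1) ∧ A2 + A2 + A2 ≤ (B2 - 1) + (n1 + n2) + (A1 - 1 + n2) ∧ A2 + A2 + A2 ≤ (B2 - 1) + (n1 + n2) + (B3 - 1) ∧ A2 + A2 + A2 ≤ (B2 - 1) + (A3 - 1) + (A1 - 1 + n2) ∧ A2 + A2 + A2 ≤ (B2 - 1) + (A3 - 1) + (B3 - 1) ∧ A3 + A3 + A3 ≤ (B2 - 1 + n3) + (A3 - 1) + (A1 - 1 +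 n2 + n3) ∧ A3 + A3 + A3 ≤ (B2 - 1 + n3) + (A3 - 1) + (B3 - 1))
    (h0 : (B2 ≤ 0 ∨ A3 ≤ 0 ∨ (min n1 (B2 - 1)) + (min n1 (A3 - 1)) < A1 + A1 ∨ (B2 - 1) + (min (n1 + n2) (A3 - 1)) < A2 + A2 ∨ (B2 - 1 + n3) + (A3 - 1) < A3 + A3))
    (h1 : (A1 ≤ 0 ∨ A2 ≤ 0 ∨ (A1 - 1) + (min n1 (A2 - 1)) < A1 + A1 ∨ (min (A1 - 1 + n2) (B3 - 1)) + (A2 - 1) < A2 + A2 ∨ (min (A1 - 1 + n2 + n3) (B3 - 1)) + (min (A2 - 1 + n3) (B3 - 1)) < A3 + A3))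
    (h2 : (B2 ≤ 0 ∨ A1 ≤ 0 ∨ (min n1 (B2 - 1)) + (A1 - 1) < A1 + B1 ∨ (B2 - 1) + (min (A1 - 1 + n2) (B3 - 1)) < A2 + B2 ∨ (B2 - 1 + n3) + (min (A1 - 1 + n2 + n3) (B3 - 1)) < A3 + B3))
    (h3 : (B2 ≤ 0 ∨ A3 ≤ 0 ∨ (min n1 (B2 - 1)) + (min n1 (A3 - 1)) < A1 + B1 ∨ (B2 - 1) + (min (n1 + n2) (A3 - 1)) < A2 + B2 ∨ (B2 - 1 + n3) + (A3 - 1) < A3 + B3))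
    (h4 : (A3 ≤ 0 ∨ A1 ≤ 0 ∨ (min n1 (A3 - 1)) + (A1 - 1) < A1 + A1 ∨ (min (n1 + n2) (A3 - 1)) + (min (A1 - 1 + n2) (B3 - 1)) < A2 + A2 ∨ (A3 - 1) + (min (A1 - 1 + n2 + n3) (B3 - 1)) < A3 + A3))
    (h5 : (B1 ≤ 0 ∨ A3 ≤ 0 ∨ (B1 - 1) + (min n1 (A3 - 1)) < A1 + A1 ∨ (B1 - 1 + n2) + (min (n1 + n2) (A3 - 1)) < A2 + A2 ∨ (B1 - 1 + n2 + n3) + (A3 - 1) < A3 + A3))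
    : B2 - B1 = 1 := by
  omega

theorem P1_AAA_S2_S3_M13_c3 (n1 n2 n3 A1 A2 A3 B1 B2 B3 : ℤ)
    (hb : Base n1 n2 n3 A1 A2 A3 B1 B2 B3)
    (hp : B1 ≤ A1 ∧ B2 ≤ A2 ∧ A3 < B3 ∧ (B1 < A1 ∨ B2 < A2))
    (he : 1 ≤ A1 ∧ 1 ≤ A3 ∧ 1 ≤ B2)
    (hs : A1 + A1 + A1 ≤ n1 + n1 + (A1 - 1) ∧ A1 + A1 + A1 ≤ n1 + (A3 - 1) + (A1 - 1) ∧ A1 + A1 + A1 ≤ (B2 - 1) + n1 + (A1 - 1) ∧ A1 + A1 + A1 ≤ (B2 - 1) + (A3 - 1) + (A1 - 1) ∧ A2 + A2 + A2 ≤ (B2 - 1) + (n1 + n2) + (A1 - 1 + n2) ∧ A2 + A2 + A2 ≤ (B2 - 1) + (n1 + n2) + (B3 - 1) ∧ A2 + A2 + A2 ≤ (B2 - 1) + (A3 - 1) + (A1 - 1 + n2) ∧ A2 + A2 + A2 ≤ (B2 - 1) + (A3 - 1) + (B3 - 1) ∧ A3 + A3 + A3 ≤ (B2 - 1 + n3) + (A3 - 1) + (A1 - 1 +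 n2 + n3) ∧ A3 + A3 + A3 ≤ (B2 - 1 + n3) + (A3 - 1) + (B3 - 1))
    (h0 : (B2 ≤ 0 ∨ A3 ≤ 0 ∨ (min n1 (B2 - 1)) + (min n1 (A3 - 1)) < A1 + A1 ∨ (B2 - 1) + (min (n1 + n2) (A3 - 1)) < A2 + A2 ∨ (B2 - 1 + n3) + (A3 - 1) < A3 + A3))
    (h1 : (A1 ≤ 0 ∨ A2 ≤ 0 ∨ (A1 - 1) + (min n1 (A2 - 1)) < A1 + A1 ∨ (min (A1 - 1 + n2) (B3 - 1)) + (A2 - 1) < A2 + A2 ∨ (min (A1 - 1 + n2 + n3) (B3 - 1)) + (min (A2 - 1 + n3) (B3 - 1)) < A3 + A3))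
    (h2 : (B2 ≤ 0 ∨ A1 ≤ 0 ∨ (min n1 (B2 - 1)) + (A1 - 1) < A1 + B1 ∨ (B2 - 1) + (min (A1 - 1 + n2) (B3 - 1)) < A2 + B2 ∨ (B2 - 1 + n3) + (min (A1 - 1 + n2 + n3) (B3 - 1)) < A3 + B3))
    (h3 : (B2 ≤ 0 ∨ A3 ≤ 0 ∨ (min n1 (B2 - 1)) + (min n1 (A3 - 1)) < A1 + B1 ∨ (B2 - 1) + (min (n1 + n2) (A3 - 1)) < A2 + B2 ∨ (B2 - 1 + n3) + (A3 - 1) < A3 + B3))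
    (h4 : (A3 ≤ 0 ∨ A1 ≤ 0 ∨ (min n1 (A3 - 1)) + (A1 - 1) < A1 + A1 ∨ (min (n1 + n2) (A3 - 1)) + (min (A1 - 1 + n2) (B3 - 1)) < A2 + A2 ∨ (A3 - 1) + (min (A1 - 1 + n2 + n3) (B3 - 1)) < A3 + A3))
    (h5 : (B1 ≤ 0 ∨ A3 ≤ 0 ∨ (B1 - 1) + (min n1 (A3 - 1)) < A1 + A1 ∨ (B1 - 1 + n2) + (min (n1 + n2) (A3 - 1)) < A2 + A2 ∨ (B1 - 1 + n2 + n3) + (A3 - 1) < A3 + A3))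
    : A3 - A2 = A1 + 1 := by
  omega

theorem P1_AAA_S2_S3_M13_c4 (n1 n2 n3 A1 A2 A3 B1 B2 B3 : ℤ)
    (hb : Base n1 n2 n3 A1 A2 A3 B1 B2 B3)
    (hp : B1 ≤ A1 ∧ B2 ≤ A2 ∧ A3 < B3 ∧ (B1 < A1 ∨ B2 < A2))
    (he : 1 ≤ A1 ∧ 1 ≤ A3 ∧ 1 ≤ B2)
    (hs : A1 + A1 + A1 ≤ n1 + n1 + (A1 - 1) ∧ A1 + A1 + A1 ≤ n1 + (A3 - 1) + (A1 - 1) ∧ A1 + A1 + A1 ≤ (B2 - 1) + n1 + (A1 - 1) ∧ A1 + A1 + A1 ≤ (B2 - 1) + (A3 - 1) + (A1 - 1) ∧ A2 + A2 + A2 ≤ (B2 - 1) + (n1 + n2) + (A1 - 1 + n2) ∧ A2 + A2 + A2 ≤ (B2 - 1) + (n1 + n2) + (B3 - 1) ∧ A2 + A2 + A2 ≤ (B2 - 1) + (A3 - 1) + (A1 - 1 + n2) ∧ A2 + A2 + A2 ≤ (B2 - 1) + (A3 - 1) + (B3 - 1) ∧ A3 + A3 + A3 ≤ (B2 - 1 + n3) + (A3 - 1) + (A1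 - 1 + n2 + n3) ∧ A3 + A3 + A3 ≤ (B2 - 1 + n3) + (A3 - 1) + (B3 - 1))
    (h0 : (B2 ≤ 0 ∨ A3 ≤ 0 ∨ (min n1 (B2 - 1)) + (min n1 (A3 - 1)) < A1 + A1 ∨ (B2 - 1) + (min (n1 + n2) (A3 - 1)) < A2 + A2 ∨ (B2 - 1 + n3) + (A3 - 1) < A3 + A3))
    (h1 : (A1 ≤ 0 ∨ A2 ≤ 0 ∨ (A1 - 1) + (min n1 (A2 - 1)) < A1 + A1 ∨ (min (A1 - 1 + n2) (B3 - 1)) + (A2 - 1) < A2 + A2 ∨ (min (A1 - 1 + n2 + n3) (B3 - 1)) + (min (A2 - 1 + n3) (B3 - 1)) < A3 + A3))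
    (h2 : (B2 ≤ 0 ∨ A1 ≤ 0 ∨ (min n1 (B2 - 1)) + (A1 - 1) < A1 + B1 ∨ (B2 - 1) + (min (A1 - 1 + n2) (B3 - 1)) < A2 + B2 ∨ (B2 - 1 + n3) + (min (A1 - 1 + n2 + n3) (B3 - 1)) < A3 + B3))
    (h3 : (B2 ≤ 0 ∨ A3 ≤ 0 ∨ (min n1 (B2 - 1)) + (min n1 (A3 - 1)) < A1 + B1 ∨ (B2 - 1) + (min (n1 + n2) (A3 - 1)) < A2 + B2 ∨ (B2 - 1 + n3) + (A3 - 1) < A3 + B3))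
    (h4 : (A3 ≤ 0 ∨ A1 ≤ 0 ∨ (min n1 (A3 - 1)) + (A1 - 1) < A1 + A1 ∨ (min (n1 + n2) (A3 - 1)) + (min (A1 - 1 + n2) (B3 - 1)) < A2 + A2 ∨ (A3 - 1) + (min (A1 - 1 + n2 + n3) (B3 - 1)) < A3 + A3))
    (h5 : (B1 ≤ 0 ∨ A3 ≤ 0 ∨ (B1 - 1) + (min n1 (A3 - 1)) < A1 + A1 ∨ (B1 - 1 + n2) + (min (n1 + n2) (A3 - 1)) < A2 + A2 ∨ (B1 - 1 + n2 + n3) + (A3 - 1) < A3 + A3))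
    : B3 - B2 = 2 * A1 + 2 := by
  omega

theorem P1_AAA_S2_S3_M13_c5 (n1 n2 n3 A1 A2 A3 B1 B2 B3 : ℤ)
    (hb : Base n1 n2 n3 A1 A2 A3 B1 B2 B3)
    (hp : B1 ≤ A1 ∧ B2 ≤ A2 ∧ A3 < B3 ∧ (B1 < A1 ∨ B2 < A2))
    (he : 1 ≤ A1 ∧ 1 ≤ A3 ∧ 1 ≤ B2)
    (hs : A1 + A1 + A1 ≤ n1 + n1 + (A1 - 1) ∧ A1 + A1 + A1 ≤ n1 + (A3 - 1) + (A1 - 1) ∧ A1 + A1 + A1 ≤ (B2 - 1) + n1 + (A1 - 1) ∧ A1 + A1 + A1 ≤ (B2 - 1) + (A3 - 1) + (A1 - 1) ∧ A2 + A2 + A2 ≤ (B2 - 1) + (n1 + n2) + (A1 - 1 + n2) ∧ A2 + A2 + A2 ≤ (B2 - 1) + (n1 + n2) + (B3 - 1) ∧ A2 + A2 + A2 ≤ (B2 - 1) + (A3 - 1) + (A1 - 1 + n2) ∧ A2 + A2 + A2 ≤ (B2 - 1) + (A3 - 1) + (B3 - 1) ∧ A3 + A3 + A3 ≤ (B2 - 1 + n3) + (A3 - 1) +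 (A1 - 1 + n2 + n3) ∧ A3 + A3 + A3 ≤ (B2 - 1 + n3) + (A3 - 1) + (B3 - 1))
    (h0 : (B2 ≤ 0 ∨ A3 ≤ 0 ∨ (min n1 (B2 - 1)) + (min n1 (A3 - 1)) < A1 + A1 ∨ (B2 - 1) + (min (n1 + n2) (A3 - 1)) < A2 + A2 ∨ (B2 - 1 + n3) + (A3 - 1) < A3 + A3))
    (h1 : (A1 ≤ 0 ∨ A2 ≤ 0 ∨ (A1 - 1) + (min n1 (A2 - 1)) < A1 + A1 ∨ (min (A1 - 1 + n2) (B3 - 1)) + (A2 - 1) < A2 + A2 ∨ (min (A1 - 1 + n2 + n3) (B3 - 1)) + (min (A2 - 1 + n3) (B3 - 1)) < A3 + A3))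
    (h2 : (B2 ≤ 0 ∨ A1 ≤ 0 ∨ (min n1 (B2 - 1)) + (A1 - 1) < A1 + B1 ∨ (B2 - 1) + (min (A1 - 1 + n2) (B3 - 1)) < A2 + B2 ∨ (B2 - 1 + n3) + (min (A1 - 1 + n2 + n3) (B3 - 1)) < A3 + B3))
    (h3 : (B2 ≤ 0 ∨ A3 ≤ 0 ∨ (min n1 (B2 - 1)) + (min n1 (A3 - 1)) < A1 + B1 ∨ (B2 - 1) + (min (n1 + n2) (A3 - 1)) < A2 + B2 ∨ (B2 - 1 + n3) + (A3 - 1) < A3 + B3))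
    (h4 : (A3 ≤ 0 ∨ A1 ≤ 0 ∨ (min n1 (A3 - 1)) + (A1 - 1) < A1 + A1 ∨ (min (n1 + n2) (A3 - 1)) + (min (A1 - 1 + n2) (B3 - 1)) < A2 + A2 ∨ (A3 - 1) + (min (A1 - 1 + n2 + n3) (B3 - 1)) < A3 + A3))
    (h5 : (B1 ≤ 0 ∨ A3 ≤ 0 ∨ (B1 - 1) + (min n1 (A3 - 1)) < A1 + A1 ∨ (B1 - 1 + n2) + (min (n1 + n2) (A3 - 1)) < A2 + A2 ∨ (B1 - 1 + n2 + n3) + (A3 - 1) < A3 + A3))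
    : n3 = 2 * A1 + 3 := by
  omega

theorem P1_AAA_S2_S3_M13_c6 (n1 n2 n3 A1 A2 A3 B1 B2 B3 : ℤ)
    (hb : Base n1 n2 n3 A1 A2 A3 B1 B2 B3)
    (hp : B1 ≤ A1 ∧ B2 ≤ A2 ∧ A3 < B3 ∧ (B1 < A1 ∨ B2 < A2))
    (he : 1 ≤ A1 ∧ 1 ≤ A3 ∧ 1 ≤ B2)
    (hs : A1 + A1 + A1 ≤ n1 + n1 + (A1 - 1) ∧ A1 + A1 + A1 ≤ n1 + (A3 - 1) + (A1 - 1) ∧ A1 + A1 + A1 ≤ (B2 - 1) + n1 + (A1 - 1) ∧ A1 + A1 + A1 ≤ (B2 - 1) + (A3 - 1) + (A1 - 1) ∧ A2 + A2 + A2 ≤ (B2 - 1) + (n1 + n2) + (A1 - 1 + n2) ∧ A2 + A2 + A2 ≤ (B2 - 1) + (n1 + n2) + (B3 - 1) ∧ A2 + A2 + A2 ≤ (B2 - 1) + (A3 - 1) + (A1 - 1 + n2) ∧ A2 + A2 + A2 ≤ (B2 - 1) + (A3 - 1) + (B3 - 1) ∧ A3 + A3 + A3 ≤ (B2 - 1 + n3) + (A3 - 1) + (A1 -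 1 + n2 + n3) ∧ A3 + A3 + A3 ≤ (B2 - 1 + n3) + (A3 - 1) + (B3 - 1))
    (h0 : (B2 ≤ 0 ∨ A3 ≤ 0 ∨ (min n1 (B2 - 1)) + (min n1 (A3 - 1)) < A1 + A1 ∨ (B2 - 1) + (min (n1 + n2) (A3 - 1)) < A2 + A2 ∨ (B2 - 1 + n3) + (A3 - 1) < A3 + A3))
    (h1 : (A1 ≤ 0 ∨ A2 ≤ 0 ∨ (A1 - 1) + (min n1 (A2 - 1)) < A1 + A1 ∨ (min (A1 - 1 + n2) (B3 - 1)) + (A2 - 1) < A2 + A2 ∨ (min (A1 - 1 + n2 + n3) (B3 - 1)) + (min (A2 - 1 + n3) (B3 - 1)) < A3 + A3))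
    (h2 : (B2 ≤ 0 ∨ A1 ≤ 0 ∨ (min n1 (B2 - 1)) + (A1 - 1) < A1 + B1 ∨ (B2 - 1) + (min (A1 - 1 + n2) (B3 - 1)) < A2 + B2 ∨ (B2 - 1 + n3) + (min (A1 - 1 + n2 + n3) (B3 - 1)) < A3 + B3))
    (h3 : (B2 ≤ 0 ∨ A3 ≤ 0 ∨ (min n1 (B2 - 1)) + (min n1 (A3 - 1)) < A1 + B1 ∨ (B2 - 1) + (min (n1 + n2) (A3 - 1)) < A2 + B2 ∨ (B2 - 1 + n3) + (A3 - 1) < A3 + B3))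
    (h4 : (A3 ≤ 0 ∨ A1 ≤ 0 ∨ (min n1 (A3 - 1)) + (A1 - 1) < A1 + A1 ∨ (min (n1 + n2) (A3 - 1)) + (min (A1 - 1 + n2) (B3 - 1)) < A2 + A2 ∨ (A3 - 1) + (min (A1 - 1 + n2 + n3) (B3 - 1)) < A3 + A3))
    (h5 : (B1 ≤ 0 ∨ A3 ≤ 0 ∨ (B1 - 1) + (min n1 (A3 - 1)) < A1 + A1 ∨ (B1 - 1 + n2) + (min (n1 + n2) (A3 - 1)) < A2 + A2 ∨ (B1 - 1 + n2 + n3) + (A3 - 1) < A3 + A3))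
    : 1 ≤ A1 := by
  omega

theorem P1_AAA_S2_S3_M13_c7 (n1 n2 n3 A1 A2 A3 B1 B2 B3 : ℤ)
    (hb : Base n1 n2 n3 A1 A2 A3 B1 B2 B3)
    (hp : B1 ≤ A1 ∧ B2 ≤ A2 ∧ A3 < B3 ∧ (B1 < A1 ∨ B2 < A2))
    (he : 1 ≤ A1 ∧ 1 ≤ A3 ∧ 1 ≤ B2)
    (hs : A1 + A1 + A1 ≤ n1 + n1 + (A1 - 1) ∧ A1 + A1 + A1 ≤ n1 + (A3 - 1) + (A1 - 1) ∧ A1 + A1 + A1 ≤ (B2 - 1) + n1 + (A1 - 1) ∧ A1 + A1 + A1 ≤ (B2 - 1) + (A3 - 1) + (A1 - 1) ∧ A2 + A2 + A2 ≤ (B2 - 1) + (n1 + n2) + (A1 - 1 + n2) ∧ A2 + A2 + A2 ≤ (B2 - 1) + (n1 + n2) + (B3 - 1) ∧ A2 + A2 + A2 ≤ (B2 - 1) + (A3 - 1) + (A1 - 1 + n2) ∧ A2 + A2 + A2 ≤ (B2 - 1) + (A3 - 1) + (B3 - 1) ∧ A3 + A3 + A3 ≤ (B2 - 1 + n3) + (A3 - 1) + (A1 - 1 + n2 +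 n3) ∧ A3 + A3 + A3 ≤ (B2 - 1 + n3) + (A3 - 1) + (B3 - 1))
    (h0 : (B2 ≤ 0 ∨ A3 ≤ 0 ∨ (min n1 (B2 - 1)) + (min n1 (A3 - 1)) < A1 + A1 ∨ (B2 - 1) + (min (n1 + n2) (A3 - 1)) < A2 + A2 ∨ (B2 - 1 + n3) + (A3 - 1) < A3 + A3))
    (h1 : (A1 ≤ 0 ∨ A2 ≤ 0 ∨ (A1 - 1) + (min n1 (A2 - 1)) < A1 + A1 ∨ (min (A1 - 1 + n2) (B3 - 1)) + (A2 - 1) < A2 + A2 ∨ (min (A1 - 1 + n2 + n3) (B3 - 1)) + (min (A2 - 1 + n3) (B3 - 1)) < A3 + A3))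
    (h2 : (B2 ≤ 0 ∨ A1 ≤ 0 ∨ (min n1 (B2 - 1)) + (A1 - 1) < A1 + B1 ∨ (B2 - 1) + (min (A1 - 1 + n2) (B3 - 1)) < A2 + B2 ∨ (B2 - 1 + n3) + (min (A1 - 1 + n2 + n3) (B3 - 1)) < A3 + B3))
    (h3 : (B2 ≤ 0 ∨ A3 ≤ 0 ∨ (min n1 (B2 - 1)) + (min n1 (A3 - 1)) < A1 + B1 ∨ (B2 - 1) + (min (n1 + n2) (A3 - 1)) < A2 + B2 ∨ (B2 - 1 + n3) + (A3 - 1) < A3 + B3))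
    (h4 : (A3 ≤ 0 ∨ A1 ≤ 0 ∨ (min n1 (A3 - 1)) + (A1 - 1) < A1 + A1 ∨ (min (n1 + n2) (A3 - 1)) + (min (A1 - 1 + n2) (B3 - 1)) < A2 + A2 ∨ (A3 - 1) + (min (A1 - 1 + n2 + n3) (B3 - 1)) < A3 + A3))
    (h5 : (B1 ≤ 0 ∨ A3 ≤ 0 ∨ (B1 - 1) + (min n1 (A3 - 1)) < A1 + A1 ∨ (B1 - 1 + n2) + (min (n1 + n2) (A3 - 1)) < A2 + A2 ∨ (B1 - 1 + n2 + n3) + (A3 - 1) < A3 + A3))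
    : 2 * A1 + 1 ≤ n1 := by
  omega

theorem P1_AAA_S2_S3_M13_c8 (n1 n2 n3 A1 A2 A3 B1 B2 B3 : ℤ)
    (hb : Base n1 n2 n3 A1 A2 A3 B1 B2 B3)
    (hp : B1 ≤ A1 ∧ B2 ≤ A2 ∧ A3 < B3 ∧ (B1 < A1 ∨ B2 < A2))
    (he : 1 ≤ A1 ∧ 1 ≤ A3 ∧ 1 ≤ B2)
    (hs : A1 + A1 + A1 ≤ n1 + n1 + (A1 - 1) ∧ A1 + A1 + A1 ≤ n1 + (A3 - 1) + (A1 - 1) ∧ A1 + A1 + A1 ≤ (B2 - 1) + n1 + (A1 - 1) ∧ A1 + A1 + A1 ≤ (B2 - 1) + (A3 - 1) + (A1 - 1) ∧ A2 + A2 + A2 ≤ (B2 - 1) + (n1 + n2) + (A1 - 1 + n2) ∧ A2 + A2 + A2 ≤ (B2 - 1) + (n1 + n2) + (B3 - 1) ∧ A2 + A2 + A2 ≤ (B2 - 1) + (A3 - 1) + (A1 - 1 + n2) ∧ A2 + A2 + A2 ≤ (B2 - 1) + (A3 - 1) + (B3 - 1) ∧ A3 + A3 + A3 ≤ (B2 - 1 + n3) + (A3 - 1) + (A1 -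 1 + n2 + n3) ∧ A3 + A3 + A3 ≤ (B2 - 1 + n3) + (A3 - 1) + (B3 - 1))
    (h0 : (B2 ≤ 0 ∨ A3 ≤ 0 ∨ (min n1 (B2 - 1)) + (min n1 (A3 - 1)) < A1 + A1 ∨ (B2 - 1) + (min (n1 + n2) (A3 - 1)) < A2 + A2 ∨ (B2 - 1 + n3) + (A3 - 1) < A3 + A3))
    (h1 : (A1 ≤ 0 ∨ A2 ≤ 0 ∨ (A1 - 1) + (min n1 (A2 - 1)) < A1 + A1 ∨ (min (A1 - 1 + n2) (B3 - 1)) + (A2 - 1) < A2 + A2 ∨ (min (A1 - 1 + n2 + n3) (B3 - 1)) + (min (A2 - 1 + n3) (B3 - 1)) < A3 + A3))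
    (h2 : (B2 ≤ 0 ∨ A1 ≤ 0 ∨ (min n1 (B2 - 1)) + (A1 - 1) < A1 + B1 ∨ (B2 - 1) + (min (A1 - 1 + n2) (B3 - 1)) < A2 + B2 ∨ (B2 - 1 + n3) + (min (A1 - 1 + n2 + n3) (B3 - 1)) < A3 + B3))
    (h3 : (B2 ≤ 0 ∨ A3 ≤ 0 ∨ (min n1 (B2 - 1)) + (min n1 (A3 - 1)) < A1 + B1 ∨ (B2 - 1) + (min (n1 + n2) (A3 - 1)) < A2 + B2 ∨ (B2 - 1 + n3) + (A3 - 1) < A3 + B3))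
    (h4 : (A3 ≤ 0 ∨ A1 ≤ 0 ∨ (min n1 (A3 - 1)) + (A1 - 1) < A1 + A1 ∨ (min (n1 + n2) (A3 - 1)) + (min (A1 - 1 + n2) (B3 - 1)) < A2 + A2 ∨ (A3 - 1) + (min (A1 - 1 + n2 + n3) (B3 - 1)) < A3 + A3))
    (h5 : (B1 ≤ 0 ∨ A3 ≤ 0 ∨ (B1 - 1) + (min n1 (A3 - 1)) < A1 + A1 ∨ (B1 - 1 + n2) + (min (n1 + n2) (A3 - 1)) < A2 + A2 ∨ (B1 - 1 + n2 + n3) + (A3 - 1) < A3 + A3))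
    : 3 ≤ n2 := by
  omega

theorem P1_AAA_S2_S3_M13 (n1 n2 n3 A1 A2 A3 B1 B2 B3 : ℤ)
    (hb : Base n1 n2 n3 A1 A2 A3 B1 B2 B3)
    (hp : B1 ≤ A1 ∧ B2 ≤ A2 ∧ A3 < B3 ∧ (B1 < A1 ∨ B2 < A2))
    (he : 1 ≤ A1 ∧ 1 ≤ A3 ∧ 1 ≤ B2)
    (hs : A1 + A1 + A1 ≤ n1 + n1 + (A1 - 1) ∧ A1 + A1 + A1 ≤ n1 + (A3 - 1) + (A1 - 1) ∧ A1 + A1 + A1 ≤ (B2 - 1) + n1 + (A1 - 1) ∧ A1 + A1 + A1 ≤ (B2 - 1) + (A3 - 1) + (A1 - 1) ∧ A2 + A2 + A2 ≤ (B2 - 1) + (n1 + n2) + (A1 - 1 + n2) ∧ A2 + A2 + A2 ≤ (B2 - 1) + (n1 + n2) + (B3 - 1) ∧ A2 + A2 + A2 ≤ (B2 - 1) + (A3 - 1) + (A1 - 1 + n2) ∧ A2 + A2 + A2 ≤ (B2 - 1) + (A3 - 1) + (B3 - 1) ∧ A3 + A3 + A3 ≤ (B2 - 1 + n3) + (A3 - 1) + (A1 - 1 + n2 + n3)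 ∧ A3 + A3 + A3 ≤ (B2 - 1 + n3) + (A3 - 1) + (B3 - 1))
    (h0 : (B2 ≤ 0 ∨ A3 ≤ 0 ∨ (min n1 (B2 - 1)) + (min n1 (A3 - 1)) < A1 + A1 ∨ (B2 - 1) + (min (n1 + n2) (A3 - 1)) < A2 + A2 ∨ (B2 - 1 + n3) + (A3 - 1) < A3 + A3))
    (h1 : (A1 ≤ 0 ∨ A2 ≤ 0 ∨ (A1 - 1) + (min n1 (A2 - 1)) < A1 + A1 ∨ (min (A1 - 1 + n2) (B3 - 1)) + (A2 - 1) < A2 + A2 ∨ (min (A1 - 1 + n2 + n3) (B3 - 1)) + (min (A2 - 1 + n3) (B3 - 1)) < A3 + A3))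
    (h2 : (B2 ≤ 0 ∨ A1 ≤ 0 ∨ (min n1 (B2 - 1)) + (A1 - 1) < A1 + B1 ∨ (B2 - 1) + (min (A1 - 1 + n2) (B3 - 1)) < A2 + B2 ∨ (B2 - 1 + n3) + (min (A1 - 1 + n2 + n3) (B3 - 1)) < A3 + B3))
    (h3 : (B2 ≤ 0 ∨ A3 ≤ 0 ∨ (min n1 (B2 - 1)) + (min n1 (A3 - 1)) < A1 + B1 ∨ (B2 - 1) + (min (n1 + n2) (A3 - 1)) < A2 + B2 ∨ (B2 - 1 + n3) + (A3 - 1) < A3 + B3))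
    (h4 : (A3 ≤ 0 ∨ A1 ≤ 0 ∨ (min n1 (A3 - 1)) + (A1 - 1) < A1 + A1 ∨ (min (n1 + n2) (A3 - 1)) + (min (A1 - 1 + n2) (B3 - 1)) < A2 + A2 ∨ (A3 - 1) + (min (A1 - 1 + n2 + n3) (B3 - 1)) < A3 + A3))
    (h5 : (B1 ≤ 0 ∨ A3 ≤ 0 ∨ (B1 - 1) + (min n1 (A3 - 1)) < A1 + A1 ∨ (B1 - 1 + n2) + (min (n1 + n2) (A3 - 1)) < A2 + A2 ∨ (B1 - 1 + n2 + n3) + (A3 - 1) < A3 + A3))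
    : Fam n1 n2 n3 A1 A2 A3 B1 B2 B3 :=
  Or.inr ⟨P1_AAA_S2_S3_M13_c0 n1 n2 n3 A1 A2 A3 B1 B2 B3 hb hp he hs h0 h1 h2 h3 h4 h5,
    P1_AAA_S2_S3_M13_c1 n1 n2 n3 A1 A2 A3 B1 B2 B3 hb hp he hs h0 h1 h2 h3 h4 h5,
    P1_AAA_S2_S3_M13_c2 n1 n2 n3 A1 A2 A3 B1 B2 B3 hb hp he hs h0 h1 h2 h3 h4 h5,
    P1_AAA_S2_S3_M13_c3 n1 n2 n3 A1 A2 A3 B1 B2 B3 hb hp he hs h0 h1 h2 h3 h4 h5,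
    P1_AAA_S2_S3_M13_c4 n1 n2 n3 A1 A2 A3 B1 B2 B3 hb hp he hs h0 h1 h2 h3 h4 h5,
    P1_AAA_S2_S3_M13_c5 n1 n2 n3 A1 A2 A3 B1 B2 B3 hb hp he hs h0 h1 h2 h3 h4 h5,
    P1_AAA_S2_S3_M13_c6 n1 n2 n3 A1 A2 A3 B1 B2 B3 hb hp he hs h0 h1 h2 h3 h4 h5,
    P1_AAA_S2_S3_M13_c7 n1 n2 n3 A1 A2 A3 B1 B2 B3 hb hp he hs h0 h1 h2 h3 h4 h5,
    P1_AAA_S2_S3_M13_c8 n1 n2 n3 A1 A2 A3 B1 B2 B3 hb hp he hs h0 h1 h2 h3 h4 h5⟩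

theorem P1_AAA_S2_S3_M23 (n1 n2 n3 A1 A2 A3 B1 B2 B3 : ℤ)
    (hb : Base n1 n2 n3 A1 A2 A3 B1 B2 B3)
    (hp : B1 ≤ A1 ∧ B2 ≤ A2 ∧ A3 < B3 ∧ (B1 < A1 ∨ B2 < A2))
    (he : 1 ≤ A2 ∧ 1 ≤ A3 ∧ 1 ≤ B2)
    (hs : A1 + A1 + A1 ≤ n1 + n1 + n1 ∧ A1 + A1 + A1 ≤ n1 + n1 + (A2 - 1) ∧ A1 + A1 + A1 ≤ n1 + (A3 - 1) + n1 ∧ A1 + A1 + A1 ≤ n1 + (A3 - 1) + (A2 - 1) ∧ A1 + A1 + A1 ≤ (B2 - 1) + n1 + n1 ∧ A1 + A1 + A1 ≤ (B2 - 1) + n1 + (A2 - 1) ∧ A1 + A1 + A1 ≤ (B2 - 1) + (A3 - 1) + n1 ∧ A1 + A1 + A1 ≤ (B2 - 1) + (A3 - 1) + (A2 - 1) ∧ A2 + A2 + A2 ≤ (B2 - 1) + (n1 + n2) + (A2 - 1) ∧ A2 + A2 + A2 ≤ (B2 - 1) + (A3 - 1) + (A2 - 1) ∧ A3 + A3 + A3 ≤ (B2 - 1 + n3) + (A3 - 1) + (A2 - 1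 + n3) ∧ A3 + A3 + A3 ≤ (B2 - 1 + n3) + (A3 - 1) + (B3 - 1))
    (h0 : (B2 ≤ 0 ∨ A3 ≤ 0 ∨ (min n1 (B2 - 1)) + (min n1 (A3 - 1)) < A1 + A1 ∨ (B2 - 1) + (min (n1 + n2) (A3 - 1)) < A2 + A2 ∨ (B2 - 1 + n3) + (A3 - 1) < A3 + A3))
    (h1 : (A1 ≤ 0 ∨ A2 ≤ 0 ∨ (A1 - 1) + (min n1 (A2 - 1)) < A1 + A1 ∨ (min (A1 - 1 + n2) (B3 - 1)) + (A2 - 1) < A2 + A2 ∨ (min (A1 - 1 + n2 + n3) (B3 - 1)) + (min (A2 - 1 + n3) (B3 - 1)) < A3 + A3))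
    : False := by
  omega

theorem P1_AAA_S2_S3_S3 (n1 n2 n3 A1 A2 A3 B1 B2 B3 : ℤ)
    (hb : Base n1 n2 n3 A1 A2 A3 B1 B2 B3)
    (hp : B1 ≤ A1 ∧ B2 ≤ A2 ∧ A3 < B3 ∧ (B1 < A1 ∨ B2 < A2))
    (he : 1 ≤ A3 ∧ 1 ≤ B2)
    (hs : A1 + A1 + A1 ≤ n1 + n1 + n1 ∧ A1 + A1 + A1 ≤ n1 + n1 + (A3 - 1) ∧ A1 + A1 + A1 ≤ n1 + (A3 - 1) + n1 ∧ A1 + A1 + A1 ≤ n1 + (A3 - 1) + (A3 - 1) ∧ A1 + A1 + A1 ≤ (B2 - 1) + n1 + n1 ∧ A1 + A1 + A1 ≤ (B2 - 1) + n1 + (A3 - 1) ∧ A1 + A1 + A1 ≤ (B2 - 1) + (A3 - 1) + n1 ∧ A1 + A1 + A1 ≤ (B2 - 1) + (A3 - 1) + (A3 - 1) ∧ A2 + A2 + A2 ≤ (B2 - 1) + (n1 + n2) + (n1 + n2) ∧ A2 + A2 + A2 ≤ (B2 - 1) + (n1 + n2) + (A3 - 1) ∧ A2 + A2 + A2 ≤ (B2 - 1) + (A3 -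 1) + (n1 + n2) ∧ A2 + A2 + A2 ≤ (B2 - 1) + (A3 - 1) + (A3 - 1) ∧ A3 + A3 + A3 ≤ (B2 - 1 + n3) + (A3 - 1) + (A3 - 1))
    (h0 : (A3 ≤ 0 ∨ A2 ≤ 0 ∨ (min n1 (A3 - 1)) + (min n1 (A2 - 1)) < A1 + A1 ∨ (min (n1 + n2) (A3 - 1)) + (A2 - 1) < A2 + A2 ∨ (A3 - 1) + (min (A2 - 1 + n3) (B3 - 1)) < A3 + A3))
    (h1 : (B2 ≤ 0 ∨ A3 ≤ 0 ∨ (min n1 (B2 - 1)) + (min n1 (A3 - 1)) < A1 + B1 ∨ (B2 - 1) + (min (n1 + n2) (A3 - 1)) < A2 + B2 ∨ (B2 - 1 + n3) + (A3 - 1) < A3 + B3))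
    : False := by
  omega

theorem P1_AAA_S3_M13_M13 (n1 n2 n3 A1 A2 A3 B1 B2 B3 : ℤ)
    (hb : Base n1 n2 n3 A1 A2 A3 B1 B2 B3)
    (hp : B1 ≤ A1 ∧ B2 ≤ A2 ∧ A3 < B3 ∧ (B1 < A1 ∨ B2 < A2))
    (he : 1 ≤ A1 ∧ 1 ≤ A3)
    (hs : A1 + A1 + A1 ≤ n1 + (A1 - 1) + (A1 - 1) ∧ A1 + A1 + A1 ≤ (A3 - 1) + (A1 - 1) + (A1 - 1) ∧ A2 + A2 + A2 ≤ (n1 + n2) + (A1 - 1 + n2) + (A1 - 1 + n2) ∧ A2 + A2 + A2 ≤ (n1 + n2) + (A1 - 1 + n2) + (B3 - 1) ∧ A2 + A2 + A2 ≤ (n1 + n2) + (B3 - 1) + (A1 - 1 + n2) ∧ A2 + A2 + A2 ≤ (n1 + n2) + (B3 - 1) + (B3 - 1) ∧ A2 + A2 + A2 ≤ (A3 - 1) + (A1 - 1 + n2) + (A1 - 1 + n2) ∧ A2 + A2 + A2 ≤ (A3 - 1) + (A1 - 1 + n2) + (B3 - 1) ∧ A2 + A2 + A2 ≤ (A3 - 1)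 + (B3 - 1) + (A1 - 1 + n2) ∧ A2 + A2 + A2 ≤ (A3 - 1) + (B3 - 1) + (B3 - 1) ∧ A3 + A3 + A3 ≤ (A3 - 1) + (A1 - 1 + n2 + n3) + (A1 - 1 + n2 + n3) ∧ A3 + A3 + A3 ≤ (A3 - 1) + (A1 - 1 + n2 + n3) + (B3 - 1) ∧ A3 + A3 + A3 ≤ (A3 - 1) + (B3 - 1) + (A1 - 1 + n2 + n3) ∧ A3 + A3 + A3 ≤ (A3 - 1) + (B3 - 1) + (B3 - 1))
    (h0 : (A3 ≤ 0 ∨ A1 ≤ 0 ∨ (min n1 (A3 - 1)) + (A1 - 1) < A1 + A1 ∨ (min (n1 + n2) (A3 - 1)) + (min (A1 - 1 + n2) (B3 - 1)) < A2 + A2 ∨ (A3 - 1) + (min (A1 - 1 + n2 + n3) (B3 - 1)) < A3 + A3))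
    : False := by
  omega

theorem P1_AAA_S3_M13_M23 (n1 n2 n3 A1 A2 A3 B1 B2 B3 : ℤ)
    (hb : Base n1 n2 n3 A1 A2 A3 B1 B2 B3)
    (hp : B1 ≤ A1 ∧ B2 ≤ A2 ∧ A3 < B3 ∧ (B1 < A1 ∨ B2 < A2))
    (he : 1 ≤ A1 ∧ 1 ≤ A2 ∧ 1 ≤ A3)
    (hs : A1 + A1 + A1 ≤ n1 + (A1 - 1) + n1 ∧ A1 + A1 + A1 ≤ n1 + (A1 - 1) + (A2 - 1) ∧ A1 + A1 + A1 ≤ (A3 - 1) + (A1 - 1) + n1 ∧ A1 + A1 + A1 ≤ (A3 - 1) + (A1 - 1) + (A2 - 1) ∧ A2 + A2 + A2 ≤ (n1 + n2) + (A1 - 1 + n2) + (A2 - 1) ∧ A2 + A2 + A2 ≤ (n1 + n2) + (B3 - 1) + (A2 - 1) ∧ A2 + A2 + A2 ≤ (A3 - 1) + (A1 - 1 + n2) + (A2 - 1) ∧ A2 + A2 + A2 ≤ (A3 - 1) + (B3 - 1) + (A2 - 1) ∧ A3 + A3 + A3 ≤ (A3 - 1) + (A1 - 1 + n2 + n3) + (A2 - 1 + n3)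 ∧ A3 + A3 + A3 ≤ (A3 - 1) + (A1 - 1 + n2 + n3) + (B3 - 1) ∧ A3 + A3 + A3 ≤ (A3 - 1) + (B3 - 1) + (A2 - 1 + n3) ∧ A3 + A3 + A3 ≤ (A3 - 1) + (B3 - 1) + (B3 - 1))
    (h0 : (A3 ≤ 0 ∨ A1 ≤ 0 ∨ (min n1 (A3 - 1)) + (A1 - 1) < A1 + A1 ∨ (min (n1 + n2) (A3 - 1)) + (min (A1 - 1 + n2) (B3 - 1)) < A2 + A2 ∨ (A3 - 1) + (min (A1 - 1 + n2 + n3) (B3 - 1)) < A3 + A3))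
    : False := by
  omega

theorem P1_AAA_S3_M23_M23 (n1 n2 n3 A1 A2 A3 B1 B2 B3 : ℤ)
    (hb : Base n1 n2 n3 A1 A2 A3 B1 B2 B3)
    (hp : B1 ≤ A1 ∧ B2 ≤ A2 ∧ A3 < B3 ∧ (B1 < A1 ∨ B2 < A2))
    (he : 1 ≤ A2 ∧ 1 ≤ A3)
    (hs : A1 + A1 + A1 ≤ n1 + n1 + n1 ∧ A1 + A1 + A1 ≤ n1 + n1 + (A2 - 1) ∧ A1 + A1 + A1 ≤ n1 + (A2 - 1) + n1 ∧ A1 + A1 + A1 ≤ n1 + (A2 - 1) + (A2 - 1) ∧ A1 + A1 + A1 ≤ (A3 - 1) + n1 + n1 ∧ A1 + A1 + A1 ≤ (A3 - 1) + n1 + (A2 - 1) ∧ A1 + A1 + A1 ≤ (A3 - 1) + (A2 - 1) + n1 ∧ A1 + A1 + A1 ≤ (A3 - 1) + (A2 - 1) + (A2 - 1) ∧ A2 + A2 + A2 ≤ (n1 + n2) + (A2 - 1) + (A2 - 1) ∧ A2 + A2 + A2 ≤ (A3 - 1) + (A2 - 1) + (A2 - 1) ∧ A3 + A3 + A3 ≤ (A3 - 1) + (A2 -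 1 + n3) + (A2 - 1 + n3) ∧ A3 + A3 + A3 ≤ (A3 - 1) + (A2 - 1 + n3) + (B3 - 1) ∧ A3 + A3 + A3 ≤ (A3 - 1) + (B3 - 1) + (A2 - 1 + n3) ∧ A3 + A3 + A3 ≤ (A3 - 1) + (B3 - 1) + (B3 - 1))
    (h0 : (A3 ≤ 0 ∨ A2 ≤ 0 ∨ (min n1 (A3 - 1)) + (min n1 (A2 - 1)) < A1 + A1 ∨ (min (n1 + n2) (A3 - 1)) + (A2 - 1) < A2 + A2 ∨ (A3 - 1) + (min (A2 - 1 + n3) (B3 - 1)) < A3 + A3))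
    : False := by
  omega

theorem P1_AAA_S3_S3_M13 (n1 n2 n3 A1 A2 A3 B1 B2 B3 : ℤ)
    (hb : Base n1 n2 n3 A1 A2 A3 B1 B2 B3)
    (hp : B1 ≤ A1 ∧ B2 ≤ A2 ∧ A3 < B3 ∧ (B1 < A1 ∨ B2 < A2))
    (he : 1 ≤ A1 ∧ 1 ≤ A3)
    (hs : A1 + A1 + A1 ≤ n1 + n1 + (A1 - 1) ∧ A1 + A1 + A1 ≤ n1 + (A3 - 1) + (A1 - 1) ∧ A1 + A1 + A1 ≤ (A3 - 1) + n1 + (A1 - 1) ∧ A1 + A1 + A1 ≤ (A3 - 1) + (A3 - 1) + (A1 - 1) ∧ A2 + A2 + A2 ≤ (n1 + n2) + (n1 + n2) + (A1 - 1 + n2) ∧ A2 + A2 + A2 ≤ (n1 + n2) + (n1 + n2) + (B3 - 1) ∧ A2 + A2 + A2 ≤ (n1 + n2) + (A3 - 1) + (A1 - 1 + n2) ∧ A2 + A2 + A2 ≤ (n1 + n2) + (A3 - 1) + (B3 - 1) ∧ A2 + A2 + A2 ≤ (A3 - 1) + (n1 + n2) + (A1 - 1 + n2) ∧ A2 + A2 + A2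 ≤ (A3 - 1) + (n1 + n2) + (B3 - 1) ∧ A2 + A2 + A2 ≤ (A3 - 1) + (A3 - 1) + (A1 - 1 + n2) ∧ A2 + A2 + A2 ≤ (A3 - 1) + (A3 - 1) + (B3 - 1) ∧ A3 + A3 + A3 ≤ (A3 - 1) + (A3 - 1) + (A1 - 1 + n2 + n3) ∧ A3 + A3 + A3 ≤ (A3 - 1) + (A3 - 1) + (B3 - 1))
    (h0 : (A3 ≤ 0 ∨ A1 ≤ 0 ∨ (min n1 (A3 - 1)) + (A1 - 1) < A1 + A1 ∨ (min (n1 + n2) (A3 - 1)) + (min (A1 - 1 + n2) (B3 - 1)) < A2 + A2 ∨ (A3 - 1) + (min (A1 - 1 + n2 + n3) (B3 - 1)) < A3 + A3))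
    : False := by
  omega

theorem P1_AAA_S3_S3_M23 (n1 n2 n3 A1 A2 A3 B1 B2 B3 : ℤ)
    (hb : Base n1 n2 n3 A1 A2 A3 B1 B2 B3)
    (hp : B1 ≤ A1 ∧ B2 ≤ A2 ∧ A3 < B3 ∧ (B1 < A1 ∨ B2 < A2))
    (he : 1 ≤ A2 ∧ 1 ≤ A3)
    (hs : A1 + A1 + A1 ≤ n1 + n1 + n1 ∧ A1 + A1 + A1 ≤ n1 + n1 + (A2 - 1) ∧ A1 + A1 + A1 ≤ n1 + (A3 - 1) + n1 ∧ A1 + A1 + A1 ≤ n1 + (A3 - 1) + (A2 - 1) ∧ A1 + A1 + A1 ≤ (A3 - 1) + n1 + n1 ∧ A1 + A1 + A1 ≤ (A3 - 1) + n1 + (A2 - 1) ∧ A1 + A1 + A1 ≤ (A3 - 1) + (A3 - 1) + n1 ∧ A1 + A1 + A1 ≤ (A3 - 1) + (A3 - 1) + (A2 - 1) ∧ A2 + A2 + A2 ≤ (n1 + n2) + (n1 + n2) + (A2 - 1) ∧ A2 + A2 + A2 ≤ (n1 + n2) + (A3 - 1) + (A2 - 1) ∧ A2 + A2 + A2 ≤ (A3 - 1) + (n1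 + n2) + (A2 - 1) ∧ A2 + A2 + A2 ≤ (A3 - 1) + (A3 - 1) + (A2 - 1) ∧ A3 + A3 + A3 ≤ (A3 - 1) + (A3 - 1) + (A2 - 1 + n3) ∧ A3 + A3 + A3 ≤ (A3 - 1) + (A3 - 1) + (B3 - 1))
    (h0 : (A3 ≤ 0 ∨ A2 ≤ 0 ∨ (min n1 (A3 - 1)) + (min n1 (A2 - 1)) < A1 + A1 ∨ (min (n1 + n2) (A3 - 1)) + (A2 - 1) < A2 + A2 ∨ (A3 - 1) + (min (A2 - 1 + n3) (B3 - 1)) < A3 + A3))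
    : False := by
  omega

theorem P1_AAA_S3_S3_S3 (n1 n2 n3 A1 A2 A3 B1 B2 B3 : ℤ)
    (hb : Base n1 n2 n3 A1 A2 A3 B1 B2 B3)
    (hp : B1 ≤ A1 ∧ B2 ≤ A2 ∧ A3 < B3 ∧ (B1 < A1 ∨ B2 < A2))
    (he : 1 ≤ A3)
    (hs : A1 + A1 + A1 ≤ n1 + n1 + n1 ∧ A1 + A1 + A1 ≤ n1 + n1 + (A3 - 1) ∧ A1 + A1 + A1 ≤ n1 + (A3 - 1) + n1 ∧ A1 + A1 + A1 ≤ n1 + (A3 - 1) + (A3 - 1) ∧ A1 + A1 + A1 ≤ (A3 - 1) + n1 + n1 ∧ A1 + A1 + A1 ≤ (A3 - 1) + n1 + (A3 - 1) ∧ A1 + A1 + A1 ≤ (A3 - 1) + (A3 - 1) + n1 ∧ A1 + A1 + A1 ≤ (A3 - 1) + (A3 - 1) + (A3 - 1) ∧ A2 + A2 + A2 ≤ (n1 + n2) + (n1 + n2) + (n1 + n2) ∧ A2 + A2 + A2 ≤ (n1 + n2) + (n1 + n2) + (A3 - 1) ∧ A2 + A2 + A2 ≤ (n1 + n2) + (A3 - 1) +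 (n1 + n2) ∧ A2 + A2 + A2 ≤ (n1 + n2) + (A3 - 1) + (A3 - 1) ∧ A2 + A2 + A2 ≤ (A3 - 1) + (n1 + n2) + (n1 + n2) ∧ A2 + A2 + A2 ≤ (A3 - 1) + (n1 + n2) + (A3 - 1) ∧ A2 + A2 + A2 ≤ (A3 - 1) + (A3 - 1) + (n1 + n2) ∧ A2 + A2 + A2 ≤ (A3 - 1) + (A3 - 1) + (A3 - 1) ∧ A3 + A3 + A3 ≤ (A3 - 1) + (A3 - 1) + (A3 - 1))
    : False := by
  omega

end Pool.Agent.H698.TT
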