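import Pool.Agent.H698.TT.Assemble

/-!
# T1: two sums of lattice vectors can be made equal
-/

set_option autoImplicit false

namespace Pool.Agent.H698.TT

open Finset Classical Pool.Agent.Q102.Trade

namespace InterpL

theorem chain (Q : Prop) (n1 n2 n3 r1 r2 r3 s1 s2 s3 l1 l2 l3 m1 m2 m3 : ℤ)
    (h1 : 1 ≤ n1) (h2 : 1 ≤ n2) (h3 : 1 ≤ n3)
    (hr : Lat n1 n2 n3 r1 r2 r3) (hs : Lat n1 n2 n3 s1 s2 s3) (hl : Lat n1 n2 n3 l1 l2 l3)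
    (hm : Lat n1 n2 n3 m1 m2 m3)
    (fl1 : r1 + s1 < l1 + m1 → Lat n1 n2 n3 (l1 - 1) l2 l3 → Q)
    (fl2 : r2 + s2 < l2 + m2 → Lat n1 n2 n3 l1 (l2 - 1) l3 → Q)
    (fl3 : r3 + s3 < l3 + m3 → Lat n1 n2 n3 l1 l2 (l3 - 1) → Q)
    (fr1 : r1 + s1 < l1 + m1 → Lat n1 n2 n3 (r1 + 1) r2 r3 → Q)
    (fr2 : r2 + s2 < l2 + m2 → Lat n1 n2 n3 r1 (r2 + 1) r3 → Q)
    (h : (r1 + s1 < l1 + m1 ∧ 0 < l1 ∧ r1 < n1) ∨ (r2 + s2 < l2 + m2 ∧ l1 < l2 ∧ r2 - r1 < n2) ∨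
      (r3 + s3 < l3 + m3 ∧ l2 < l3)) : Q := by
  unfold Lat at *
  have c3 : r3 + s3 < l3 + m3 ∧ l2 < l3 → Q := fun h => fl3 h.1 (by omega)
  have c2 : r2 + s2 < l2 + m2 ∧ l1 < l2 ∧ r2 - r1 < n2 → Q := by
    rintro ⟨ha, hb, hc⟩
    by_cases hd : l3 - l2 < n3
    · exact fl2 ha (by omega)
    · by_cases he : r2 < r3
      · exact fr2 ha (by omega)
      · exact c3 ⟨by omega, by omega⟩
  rcases h with ⟨ha, hb, hc⟩ | h | h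
  · by_cases hd : l2 - l1 < n2
    · exact fl1 ha (by omega)
    · by_cases he : r1 < r2
      · exact fr1 ha (by omega)
      · exact c2 ⟨by omega, by omega, by omega⟩
  · exact c2 h
  · exact c3 h

/-- the conclusion -/
def Con (n1 n2 n3 r1 r2 r3 s1 s2 s3 l1 l2 l3 m1 m2 m3 : ℤ) : Prop :=
  ∃ r1' r2' r3' s1' s2' s3' l1' l2' l3' m1' m2' m3' : ℤ,
    Lat n1 n2 n3 r1' r2' r3' ∧ Lat n1 n2 n3 s1' s2' s3' ∧ Lat n1 n2 n3 l1' l2' l3' ∧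
    Lat n1 n2 n3 m1' m2' m3' ∧ r1 ≤ r1' ∧ r2 ≤ r2' ∧ r3 ≤ r3' ∧ s1 ≤ s1' ∧ s2 ≤ s2' ∧ s3 ≤ s3' ∧
    l1' ≤ l1 ∧ l2' ≤ l2 ∧ l3' ≤ l3 ∧ m1' ≤ m1 ∧ m2' ≤ m2 ∧ m3' ≤ m3 ∧
    r1' + s1' = l1' + m1' ∧ r2' + s2' = l2' + m2' ∧ r3' + s3' = l3' + m3'

theorem Con.mono {n1 n2 n3 r1 r2 r3 s1 s2 s3 l1 l2 l3 m1 m2 m3 r1' r2' r3' s1' s2' s3' l1' l2' l3'
    m1' m2' m3' : ℤ} (h : Con n1 n2 n3 r1' r2' r3' s1' s2' s3' l1' l2' l3' m1' m2' m3')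
    (a1 : r1 ≤ r1') (a2 : r2 ≤ r2') (a3 : r3 ≤ r3') (b1 : s1 ≤ s1') (b2 : s2 ≤ s2')
    (b3 : s3 ≤ s3') (c1 : l1' ≤ l1) (c2 : l2' ≤ l2) (c3 : l3' ≤ l3) (d1 : m1' ≤ m1)
    (d2 : m2' ≤ m2) (d3 : m3' ≤ m3) : Con n1 n2 n3 r1 r2 r3 s1 s2 s3 l1 l2 l3 m1 m2 m3 := by
  obtain ⟨x1, x2, x3, y1, y2, y3, z1, z2, z3, w1, w2, w3, e1, e2, e3, e4, f1, f2, f3, g1, g2, g3,
    k1, k2, k3, p1, p2, p3, q1, q2, q3⟩ := h
  exact ⟨x1, x2, x3, y1, y2, y3, z1, z2, z3, w1, w2, w3, e1, e2, e3, e4, a1.trans f1,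
    a2.trans f2, a3.trans f3, b1.trans g1, b2.trans g2, b3.trans g3, k1.trans c1, k2.trans c2,
    k3.trans c3, p1.trans d1, p2.trans d2, p3.trans d3, q1, q2, q3⟩

theorem main (n1 n2 n3 : ℤ) (h1 : 1 ≤ n1) (h2 : 1 ≤ n2) (h3 : 1 ≤ n3) : ∀ (N : ℕ)
    (r1 r2 r3 s1 s2 s3 l1 l2 l3 m1 m2 m3 : ℤ),
    (l1 + m1 - r1 - s1) + (l2 + m2 - r2 - s2) + (l3 + m3 - r3 - s3) = N →
    Lat n1 n2 n3 r1 r2 r3 → Lat n1 n2 n3 s1 s2 s3 → Lat n1 n2 n3 l1 l2 l3 →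
    Lat n1 n2 n3 m1 m2 m3 → r1 + s1 ≤ l1 + m1 → r2 + s2 ≤ l2 + m2 → r3 + s3 ≤ l3 + m3 →
    Con n1 n2 n3 r1 r2 r3 s1 s2 s3 l1 l2 l3 m1 m2 m3 := by
  intro N
  induction N with
  | zero =>
    intro r1 r2 r3 s1 s2 s3 l1 l2 l3 m1 m2 m3 hN hr hs hl hm e1 e2 e3
    push_cast at hN
    exact ⟨r1, r2, r3, s1, s2, s3, l1, l2, l3, m1, m2, m3, hr, hs, hl, hm, le_rfl, le_rfl, le_rfl,
      le_rfl, le_rfl, le_rfl, le_rfl, le_rfl, le_rfl, le_rfl, le_rfl, le_rfl, by omega, by omega,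
      by omega⟩
  | succ N ih =>
    intro r1 r2 r3 s1 s2 s3 l1 l2 l3 m1 m2 m3 hN hr hs hl hm e1 e2 e3
    push_cast at hN
    have fl1 : r1 + s1 < l1 + m1 → Lat n1 n2 n3 (l1 - 1) l2 l3 →
        Con n1 n2 n3 r1 r2 r3 s1 s2 s3 l1 l2 l3 m1 m2 m3 := fun a b =>
      (ih r1 r2 r3 s1 s2 s3 (l1 - 1) l2 l3 m1 m2 m3 (by linarith) hr hs b hm (by omega) e2 e3).mono
        le_rfl le_rfl le_rfl le_rfl le_rfl le_rfl (by omega) le_rfl le_rfl le_rfl le_rfl le_rfl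
    have fl2 : r2 + s2 < l2 + m2 → Lat n1 n2 n3 l1 (l2 - 1) l3 →
        Con n1 n2 n3 r1 r2 r3 s1 s2 s3 l1 l2 l3 m1 m2 m3 := fun a b =>
      (ih r1 r2 r3 s1 s2 s3 l1 (l2 - 1) l3 m1 m2 m3 (by linarith) hr hs b hm e1 (by omega) e3).mono
        le_rfl le_rfl le_rfl le_rfl le_rfl le_rfl le_rfl (by omega) le_rfl le_rfl le_rfl le_rfl
    have fl3 : r3 + s3 < l3 + m3 → Lat n1 n2 n3 l1 l2 (l3 - 1) →
        Con n1 n2 n3 r1 r2 r3 s1 s2 s3 l1 l2 l3 m1 m2 m3 := fun a b =>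
      (ih r1 r2 r3 s1 s2 s3 l1 l2 (l3 - 1) m1 m2 m3 (by linarith) hr hs b hm e1 e2 (by omega)).mono
        le_rfl le_rfl le_rfl le_rfl le_rfl le_rfl le_rfl le_rfl (by omega) le_rfl le_rfl le_rfl
    have fm1 : r1 + s1 < l1 + m1 → Lat n1 n2 n3 (m1 - 1) m2 m3 →
        Con n1 n2 n3 r1 r2 r3 s1 s2 s3 l1 l2 l3 m1 m2 m3 := fun a b =>
      (ih r1 r2 r3 s1 s2 s3 l1 l2 l3 (m1 - 1) m2 m3 (by linarith) hr hs hl b (by omega) e2 e3).mono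
        le_rfl le_rfl le_rfl le_rfl le_rfl le_rfl le_rfl le_rfl le_rfl (by omega) le_rfl le_rfl
    have fm2 : r2 + s2 < l2 + m2 → Lat n1 n2 n3 m1 (m2 - 1) m3 →
        Con n1 n2 n3 r1 r2 r3 s1 s2 s3 l1 l2 l3 m1 m2 m3 := fun a b =>
      (ih r1 r2 r3 s1 s2 s3 l1 l2 l3 m1 (m2 - 1) m3 (by linarith) hr hs hl b e1 (by omega) e3).mono
        le_rfl le_rfl le_rfl le_rfl le_rfl le_rfl le_rfl le_rfl le_rfl le_rfl (by omega) le_rfl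
    have fm3 : r3 + s3 < l3 + m3 → Lat n1 n2 n3 m1 m2 (m3 - 1) →
        Con n1 n2 n3 r1 r2 r3 s1 s2 s3 l1 l2 l3 m1 m2 m3 := fun a b =>
      (ih r1 r2 r3 s1 s2 s3 l1 l2 l3 m1 m2 (m3 - 1) (by linarith) hr hs hl b e1 e2 (by omega)).mono
        le_rfl le_rfl le_rfl le_rfl le_rfl le_rfl le_rfl le_rfl le_rfl le_rfl le_rfl (by omega)
    have fr1 : r1 + s1 < l1 + m1 → Lat n1 n2 n3 (r1 + 1) r2 r3 →
        Con n1 n2 n3 r1 r2 r3 s1 s2 s3 l1 l2 l3 m1 m2 m3 := fun a b =>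
      (ih (r1 + 1) r2 r3 s1 s2 s3 l1 l2 l3 m1 m2 m3 (by linarith) b hs hl hm (by omega) e2 e3).mono
        (by omega) le_rfl le_rfl le_rfl le_rfl le_rfl le_rfl le_rfl le_rfl le_rfl le_rfl le_rfl
    have fr2 : r2 + s2 < l2 + m2 → Lat n1 n2 n3 r1 (r2 + 1) r3 →
        Con n1 n2 n3 r1 r2 r3 s1 s2 s3 l1 l2 l3 m1 m2 m3 := fun a b =>
      (ih r1 (r2 + 1) r3 s1 s2 s3 l1 l2 l3 m1 m2 m3 (by linarith) b hs hl hm e1 (by omega) e3).mono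
        le_rfl (by omega) le_rfl le_rfl le_rfl le_rfl le_rfl le_rfl le_rfl le_rfl le_rfl le_rfl
    have fs1 : r1 + s1 < l1 + m1 → Lat n1 n2 n3 (s1 + 1) s2 s3 →
        Con n1 n2 n3 r1 r2 r3 s1 s2 s3 l1 l2 l3 m1 m2 m3 := fun a b =>
      (ih r1 r2 r3 (s1 + 1) s2 s3 l1 l2 l3 m1 m2 m3 (by linarith) hr b hl hm (by omega) e2 e3).mono
        le_rfl le_rfl le_rfl (by omega) le_rfl le_rfl le_rfl le_rfl le_rfl le_rfl le_rfl le_rfl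
    have fs2 : r2 + s2 < l2 + m2 → Lat n1 n2 n3 s1 (s2 + 1) s3 →
        Con n1 n2 n3 r1 r2 r3 s1 s2 s3 l1 l2 l3 m1 m2 m3 := fun a b =>
      (ih r1 r2 r3 s1 (s2 + 1) s3 l1 l2 l3 m1 m2 m3 (by linarith) hr b hl hm e1 (by omega) e3).mono
        le_rfl le_rfl le_rfl le_rfl (by omega) le_rfl le_rfl le_rfl le_rfl le_rfl le_rfl le_rfl
    -- the four cases
    have clr := chain (Con n1 n2 n3 r1 r2 r3 s1 s2 s3 l1 l2 l3 m1 m2 m3) n1 n2 n3 r1 r2 r3 s1 s2 s3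
      l1 l2 l3 m1 m2 m3 h1 h2 h3 hr hs hl hm fl1 fl2 fl3 fr1 fr2
    have cls := chain (Con n1 n2 n3 r1 r2 r3 s1 s2 s3 l1 l2 l3 m1 m2 m3) n1 n2 n3 s1 s2 s3 r1 r2 r3
      l1 l2 l3 m1 m2 m3 h1 h2 h3 hs hr hl hm (fun a => fl1 (by omega)) (fun a => fl2 (by omega))
      (fun a => fl3 (by omega)) (fun a => fs1 (by omega)) (fun a => fs2 (by omega))
    have cmr := chain (Con n1 n2 n3 r1 r2 r3 s1 s2 s3 l1 l2 l3 m1 m2 m3) n1 n2 n3 r1 r2 r3 s1 s2 s3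
      m1 m2 m3 l1 l2 l3 h1 h2 h3 hr hs hm hl (fun a => fm1 (by omega)) (fun a => fm2 (by omega))
      (fun a => fm3 (by omega)) (fun a => fr1 (by omega)) (fun a => fr2 (by omega))
    have cms := chain (Con n1 n2 n3 r1 r2 r3 s1 s2 s3 l1 l2 l3 m1 m2 m3) n1 n2 n3 s1 s2 s3 r1 r2 r3
      m1 m2 m3 l1 l2 l3 h1 h2 h3 hs hr hm hl (fun a => fm1 (by omega)) (fun a => fm2 (by omega))
      (fun a => fm3 (by omega)) (fun a => fs1 (by omega)) (fun a => fs2 (by omega))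
    clear fl1 fl2 fl3 fm1 fm2 fm3 fr1 fr2 fs1 fs2 ih
    unfold Lat at hr hs hl hm
    by_cases k1 : r1 + s1 < l1 + m1
    · by_cases x : 0 < l1
      · by_cases y : r1 < n1
        · exact clr (Or.inl ⟨k1, x, y⟩)
        · exact cls (Or.inl ⟨by omega, x, by omega⟩)
      · by_cases y : r1 < n1
        · exact cmr (Or.inl ⟨by omega, by omega, y⟩)
        · exact cms (Or.inl ⟨by omega, by omega, by omega⟩)
    · by_cases k2 : r2 + s2 < l2 + m2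
      · by_cases x : l1 < l2
        · by_cases y : r2 - r1 < n2
          · exact clr (Or.inr (Or.inl ⟨k2, x, y⟩))
          · exact cls (Or.inr (Or.inl ⟨by omega, x, by omega⟩))
        · by_cases y : r2 - r1 < n2
          · exact cmr (Or.inr (Or.inl ⟨by omega, by omega, y⟩))
          · exact cms (Or.inr (Or.inl ⟨by omega, by omega, by omega⟩))
      · by_cases x : l2 < l3
        · exact clr (Or.inr (Or.inr ⟨by omega, x⟩))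
        · exact cmr (Or.inr (Or.inr ⟨by omega, by omega⟩))

end InterpL

theorem interp : S_interp := by
  intro n1 n2 n3 r1 r2 r3 s1 s2 s3 l1 l2 l3 m1 m2 m3 h1 h2 h3 hr hs hl hm e1 e2 e3
  exact InterpL.main n1 n2 n3 h1 h2 h3
    ((l1 + m1 - r1 - s1) + (l2 + m2 - r2 - s2) + (l3 + m3 - r3 - s3)).toNat
    r1 r2 r3 s1 s2 s3 l1 l2 l3 m1 m2 m3 (by omega) hr hs hl hm e1 e2 e3

end Pool.Agent.H698.TT
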