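import Pool.Agent.H698.TT.Assemble

/-!
Transport of a game to `Pl n`.
-/

namespace Pool.Agent.H698.TT

open Finset Classical Pool.Agent.Q102.Trade

namespace IsoL

variable {M N : Type*} [Fintype M] [DecidableEq M] [Fintype N] [DecidableEq N]

/-- transport of a game -/
def tr (f : M ≃ N) (W : Finset N → Prop) : Finset M → Prop := fun S => W (S.map f.toEmbedding)

omit [Fintype M] [DecidableEq M] [Fintype N] [DecidableEq N] in
theorem map_map_symm (f : M ≃ N) (S : Finset N) :
    (S.map f.symm.toEmbedding).map f.toEmbedding = S := by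
  rw [Finset.map_map]
  ext x; simp

omit [Fintype M] [DecidableEq M] [Fintype N] [DecidableEq N] in
theorem map_symm_map (f : M ≃ N) (S : Finset M) :
    (S.map f.toEmbedding).map f.symm.toEmbedding = S := by
  rw [Finset.map_map]
  ext x; simp

omit [Fintype M] [Fintype N] in
theorem map_insert' (f : M ≃ N) (x : M) (S : Finset M) :
    (insert x S).map f.toEmbedding = insert (f x) (S.map f.toEmbedding) := by
  rw [Finset.map_insert]
  rfl

omit [Fintype M] [DecidableEq M] [Fintype N] [DecidableEq N] in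
theorem mem_map' (f : M ≃ N) (x : M) (S : Finset M) :
    f x ∈ S.map f.toEmbedding ↔ x ∈ S := by
  simp

theorem tr_simple (f : M ≃ N) {W : Finset N → Prop} (hW : IsSimple W) : IsSimple (tr f W) := by
  refine ⟨fun S T h hS => hW.1 _ _ (Finset.map_subset_map.mpr h) hS, ?_, ?_⟩
  · show ¬ W _
    rw [Finset.map_empty]; exact hW.2.1
  · show W _
    rw [Finset.map_univ_equiv]; exact hW.2.2

theorem tr_ge (f : M ≃ N) (W : Finset N → Prop) (x y : M) :
    Ge (tr f W) x y ↔ Ge W (f x) (f y) := by
  constructor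
  · intro h S hx hy hS
    have h1 := h (S.map f.symm.toEmbedding)
      (by rw [← mem_map' f, map_map_symm]; exact hx)
      (by rw [← mem_map' f, map_map_symm]; exact hy)
      (by
        show W _
        rw [map_insert', map_map_symm]; exact hS)
    have h2 : W ((insert x (S.map f.symm.toEmbedding)).map f.toEmbedding) := h1
    rwa [map_insert', map_map_symm] at h2
  · intro h S hx hy hS
    show W _
    rw [map_insert']
    refine h (S.map f.toEmbedding) (by rwa [mem_map']) (by rwa [mem_map']) ?_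
    have h2 : W ((insert y S).map f.toEmbedding) := hS
    rwa [map_insert'] at h2

theorem tr_same (f : M ≃ N) (W : Finset N → Prop) (x y : M) :
    Same (tr f W) x y ↔ Same W (f x) (f y) := by
  unfold Same
  rw [tr_ge, tr_ge]

theorem tr_upCount (f : M ≃ N) (W : Finset N → Prop) (S : Finset M) (x : M) :
    upCount (tr f W) S x = upCount W (S.map f.toEmbedding) (f x) := by
  unfold upCount
  rw [← Finset.card_map f.toEmbedding]
  congr 1
  ext y
  simp only [Finset.mem_filter, Finset.mem_map, Equiv.coe_toEmbedding]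
  constructor
  · rintro ⟨z, ⟨hz, h⟩, rfl⟩
    exact ⟨⟨z, hz, rfl⟩, (tr_ge f W z x).1 h⟩
  · rintro ⟨⟨z, hz, rfl⟩, h⟩
    exact ⟨z, ⟨hz, (tr_ge f W z x).2 h⟩, rfl⟩

theorem tr_typeVec (f : M ≃ N) (W : Finset N → Prop) (S : Finset M) (x : M) :
    typeVec (tr f W) S x = typeVec W (S.map f.toEmbedding) (f x) := by
  unfold typeVec
  rw [← Finset.card_map f.toEmbedding]
  congr 1
  ext y
  simp only [Finset.mem_filter, Finset.mem_map, Equiv.coe_toEmbedding]
  constructor
  · rintro ⟨z, ⟨hz, h⟩, rfl⟩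
    exact ⟨⟨z, hz, rfl⟩, (tr_same f W x z).1 h⟩
  · rintro ⟨⟨z, hz, rfl⟩, h⟩
    exact ⟨z, ⟨hz, (tr_same f W x z).2 h⟩, rfl⟩

theorem tr_dom (f : M ≃ N) (W : Finset N → Prop) (S T : Finset M) :
    Dom (tr f W) S T ↔ Dom W (S.map f.toEmbedding) (T.map f.toEmbedding) := by
  constructor
  · intro h i
    have := h (f.symm i)
    rw [tr_upCount, tr_upCount, Equiv.apply_symm_apply] at this
    exact this
  · intro h x
    rw [tr_upCount, tr_upCount]
    exact h (f x)

theorem tr_typeVec_eq (f : M ≃ N) (W : Finset N → Prop) (S T : Finset M) :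
    typeVec (tr f W) S = typeVec (tr f W) T ↔
      typeVec W (S.map f.toEmbedding) = typeVec W (T.map f.toEmbedding) := by
  constructor
  · intro h
    funext i
    have := congrFun h (f.symm i)
    rw [tr_typeVec, tr_typeVec, Equiv.apply_symm_apply] at this
    exact this
  · intro h
    funext x
    rw [tr_typeVec, tr_typeVec, h]

theorem tr_shiftMin (f : M ≃ N) (W : Finset N → Prop) (S : Finset M) :
    ShiftMin (tr f W) S ↔ ShiftMin W (S.map f.toEmbedding) := by
  constructor
  · rintro ⟨h1, h2⟩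
    refine ⟨h1, fun T hd hne hT => ?_⟩
    have h3 := h2 (T.map f.symm.toEmbedding)
      (by rw [tr_dom, map_map_symm]; exact hd)
      (by rw [Ne, tr_typeVec_eq, map_map_symm]; exact hne)
    refine h3 ?_
    show W _
    rw [map_map_symm]; exact hT
  · rintro ⟨h1, h2⟩
    refine ⟨h1, fun T hd hne hT => ?_⟩
    exact h2 (T.map f.toEmbedding) ((tr_dom f W S T).1 hd)
      (fun h => hne ((tr_typeVec_eq f W T S).2 h)) hT

theorem tr_numShiftMin (f : M ≃ N) (W : Finset N → Prop) :
    numShiftMin (tr f W) = numShiftMin W := by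
  unfold numShiftMin
  refine Finset.card_bij (fun g _ => fun i => g (f.symm i)) ?_ ?_ ?_
  · intro g hg
    obtain ⟨S, hS, rfl⟩ := Finset.mem_image.1 hg
    refine Finset.mem_image.2 ⟨S.map f.toEmbedding, ?_, ?_⟩
    · exact Finset.mem_filter.2 ⟨Finset.mem_univ _,
        (tr_shiftMin f W S).1 (Finset.mem_filter.1 hS).2⟩
    · funext i
      rw [tr_typeVec, Equiv.apply_symm_apply]
  · intro g _ g' _ h
    funext x
    have := congrFun h (f x)
    simpa using this
  · intro g hg
    obtain ⟨S, hS, rfl⟩ := Finset.mem_image.1 hg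
    refine ⟨typeVec (tr f W) (S.map f.symm.toEmbedding), ?_, ?_⟩
    · refine Finset.mem_image.2 ⟨S.map f.symm.toEmbedding, ?_, rfl⟩
      refine Finset.mem_filter.2 ⟨Finset.mem_univ _, ?_⟩
      rw [tr_shiftMin, map_map_symm]
      exact (Finset.mem_filter.1 hS).2
    · funext i
      rw [tr_typeVec, map_map_symm, Equiv.apply_symm_apply]

theorem tr_robust (f : M ≃ N) {W : Finset N → Prop} {m : ℕ} (h : TradeRobust m W) :
    TradeRobust m (tr f W) := by
  intro j h1 h3 S T hST hS
  refine h j h1 h3 (fun i => (S i).map f.toEmbedding) (fun i => (T i).map f.toEmbedding) ?_ hS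
  intro p
  have := hST (f.symm p)
  have hmem : ∀ U : Finset M, p ∈ U.map f.toEmbedding ↔ f.symm p ∈ U := by
    intro U
    rw [Finset.mem_map_equiv]
  simp only [hmem]
  exact this

theorem tr_tr (f : M ≃ N) (W : Finset N → Prop) : tr f.symm (tr f W) = W := by
  funext S
  unfold tr
  rw [map_map_symm]

end IsoL

theorem iso (hT4 : S_types) : S_iso := by
  intro N _ _ W hW hc ht hsm h2 h3
  obtain ⟨τ, hsur, hτ⟩ := hT4 N W hc ht
  let n : Fin 3 → ℕ := fun k => Fintype.card {x // τ x = k}
  let e : N ≃ Pl n := (Equiv.sigmaFiberEquiv τ).symm.trans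
    (Equiv.sigmaCongrRight fun k => Fintype.equivFin _)
  have he : ∀ x, (e x).1 = τ x := fun x => rfl
  have he' : ∀ x, τ (e.symm x) = x.1 := by
    intro x
    rw [← he, Equiv.apply_symm_apply]
  refine ⟨n, IsoL.tr e.symm W, ?_, ⟨e, ?_⟩, IsoL.tr_simple e.symm hW, ?_, ?_,
    IsoL.tr_robust e.symm h2, ?_⟩
  · intro k
    obtain ⟨x, hx⟩ := hsur k
    exact Fintype.card_pos_iff.2 ⟨⟨x, hx⟩⟩
  · intro S
    show W S ↔ W ((S.map e.toEmbedding).map e.symm.toEmbedding)
    rw [IsoL.map_symm_map]
  · intro x y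
    rw [IsoL.tr_ge, hτ, he', he']
  · rw [IsoL.tr_numShiftMin]
    exact hsm
  · intro h
    have h4 := IsoL.tr_robust e.symm.symm h
    rw [IsoL.tr_tr] at h4
    exact h3 h4

end Pool.Agent.H698.TT

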