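import Pool.Agent.H698.TT.Assemble

/-!
A game with ordered types is given by its shift-minimal winning vectors.
-/

namespace Pool.Agent.H698.TT

open Finset Classical Pool.Agent.Q102.Trade

namespace RepL

variable {n : Fin 3 → ℕ} {W : Finset (Pl n) → Prop}

theorem same_iff (hge : ∀ x y : Pl n, Ge W x y ↔ x.1 ≤ y.1) {x y : Pl n} :
    Same W x y ↔ x.1 = y.1 := by
  unfold Same
  rw [hge, hge]
  exact ⟨fun h => le_antisymm h.1 h.2, fun h => ⟨h.le, h.ge⟩⟩

theorem typeVec_eq (hge : ∀ x y : Pl n, Ge W x y ↔ x.1 ≤ y.1) (S : Finset (Pl n)) (x : Pl n) :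
    typeVec W S x = cnt S x.1 := by
  unfold typeVec cnt
  congr 1
  ext j
  simp [same_iff hge, eq_comm]

theorem upCount_eq (hge : ∀ x y : Pl n, Ge W x y ↔ x.1 ≤ y.1) (S : Finset (Pl n)) (x : Pl n) :
    upCount W S x = psum (cnt S) x.1 := by
  unfold upCount psum cnt
  rw [← Finset.card_biUnion]
  · congr 1
    ext j
    simp [hge, and_comm]
  · intro a _ b _ hab
    rw [Function.onFun, Finset.disjoint_left]
    intro j h1 h2
    rw [Finset.mem_filter] at h1 h2
    exact hab (h1.2.symm.trans h2.2)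

theorem dom_iff (hn : ∀ k, 1 ≤ n k) (hge : ∀ x y : Pl n, Ge W x y ↔ x.1 ≤ y.1)
    {S T : Finset (Pl n)} : Dom W S T ↔ DomV (cnt S) (cnt T) := by
  constructor
  · intro h k
    have := h ⟨k, ⟨0, hn k⟩⟩
    rwa [upCount_eq hge, upCount_eq hge] at this
  · intro h x
    rw [upCount_eq hge, upCount_eq hge]
    exact h x.1

theorem typeVec_eq_iff (hn : ∀ k, 1 ≤ n k) (hge : ∀ x y : Pl n, Ge W x y ↔ x.1 ≤ y.1)
    {S T : Finset (Pl n)} : typeVec W S = typeVec W T ↔ cnt S = cnt T := by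
  constructor
  · intro h
    funext k
    have := congrFun h ⟨k, ⟨0, hn k⟩⟩
    rwa [typeVec_eq hge, typeVec_eq hge] at this
  · intro h
    funext x
    rw [typeVec_eq hge, typeVec_eq hge, h]

theorem shiftMin_iff (hn : ∀ k, 1 ≤ n k) (hge : ∀ x y : Pl n, Ge W x y ↔ x.1 ≤ y.1)
    {S : Finset (Pl n)} :
    ShiftMin W S ↔ W S ∧ ∀ T, DomV (cnt S) (cnt T) → cnt T ≠ cnt S → ¬ W T := by
  unfold ShiftMin
  refine and_congr_right fun _ => forall_congr' fun T => ?_
  rw [dom_iff hn hge, Ne, typeVec_eq_iff hn hge]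

/-- the number of shift-minimal winning vectors -/
theorem numShiftMin_eq (hn : ∀ k, 1 ≤ n k) (hge : ∀ x y : Pl n, Ge W x y ↔ x.1 ≤ y.1) :
    numShiftMin W =
      #((Finset.univ.filter fun S : Finset (Pl n) => ShiftMin W S).image
        (cnt : Finset (Pl n) → Fin 3 → ℕ)) := by
  unfold numShiftMin
  have h1 : ((Finset.univ.filter fun S : Finset (Pl n) => ShiftMin W S).image (typeVec W)) =
      ((Finset.univ.filter fun S : Finset (Pl n) => ShiftMin W S).image
        (cnt : Finset (Pl n) → Fin 3 → ℕ)).image fun (r : Fin 3 → ℕ) (x : Pl n) => r x.1 := by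
    rw [Finset.image_image]
    apply Finset.image_congr
    intro S _
    funext x
    exact typeVec_eq hge S x
  rw [h1, Finset.card_image_of_injective]
  intro r r' h
  funext k
  exact congrFun h ⟨k, ⟨0, hn k⟩⟩

/-- below every winning coalition there is a shift-minimal one -/
theorem exists_shiftMin (hn : ∀ k, 1 ≤ n k) (hge : ∀ x y : Pl n, Ge W x y ↔ x.1 ≤ y.1) :
    ∀ (m : ℕ) (S : Finset (Pl n)), ∑ k, psum (cnt S) k = m → W S →
      ∃ T, ShiftMin W T ∧ DomV (cnt S) (cnt T) := by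
  intro m
  induction m using Nat.strong_induction_on with
  | _ m ih =>
    intro S hm hS
    by_cases h : ShiftMin W S
    · exact ⟨S, h, DomV.refl _⟩
    · rw [shiftMin_iff hn hge] at h
      push Not at h
      obtain ⟨T, hT1, hT2, hT3⟩ := h hS
      have hle : ∑ k, psum (cnt T) k ≤ ∑ k, psum (cnt S) k :=
        Finset.sum_le_sum fun k _ => hT1 k
      have hne : ∑ k, psum (cnt T) k ≠ ∑ k, psum (cnt S) k := by
        intro he
        have h2 := (Finset.sum_eq_sum_iff_of_le fun k _ => hT1 k).mp he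
        apply hT2
        exact DomV.antisymm (fun k => (h2 k (Finset.mem_univ k)).ge) hT1
      obtain ⟨U, hU1, hU2⟩ := ih _ (by omega) T rfl hT3
      exact ⟨U, hU1, hT1.trans hU2⟩

/-- the swap of a voter against a voter of a later type -/
theorem swap {R : Finset (Fin 3 → ℕ)} (hge : ∀ x y : Pl n, Ge W x y ↔ x.1 ≤ y.1)
    (hR : ∀ S, W S ↔ rgame n R S) {x y : Pl n} (hxy : x.1 < y.1) :
    ∃ r ∈ R, ∃ c : Fin 3 → ℕ, c y.1 + 1 ≤ n y.1 ∧
      DomV (fun k => c k + if x.1 = k then 1 else 0) r ∧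
      ¬ DomV (fun k => c k + if y.1 = k then 1 else 0) r := by
  have h : ¬ Ge W y x := by
    rw [hge, not_le]
    exact hxy
  unfold Ge at h
  push Not at h
  obtain ⟨S, hyS, hxS, hW, hL⟩ := h
  rw [hR] at hW hL
  obtain ⟨r, hr, hd⟩ := hW
  refine ⟨r, hr, cnt S, ?_, ?_, ?_⟩
  · have h1 := cnt_le (insert y S) y.1
    rw [cnt_insert hyS, if_pos rfl] at h1
    exact h1
  · have h1 : cnt (insert x S) = fun k => cnt S k + if x.1 = k then 1 else 0 := by
      funext k
      exact cnt_insert hxS k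
    rwa [h1] at hd
  · intro hd'
    apply hL
    refine ⟨r, hr, ?_⟩
    have h1 : cnt (insert y S) = fun k => cnt S k + if y.1 = k then 1 else 0 := by
      funext k
      exact cnt_insert hyS k
    rwa [h1]

end RepL

open RepL in
/-- **T6.** -/
theorem rep (hT5 : S_dom) : S_rep := by
  intro n W hn hs hge hnum
  rw [numShiftMin_eq hn hge] at hnum
  obtain ⟨a, b, hab, hR⟩ := Finset.card_eq_two.mp hnum
  have hmem : ∀ r : Fin 3 → ℕ, (r = a ∨ r = b) ↔ ∃ S : Finset (Pl n), ShiftMin W S ∧ cnt S = r := by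
    intro r
    have h1 : r ∈ ({a, b} : Finset (Fin 3 → ℕ)) ↔ (r = a ∨ r = b) := by simp
    rw [← h1, ← hR]
    simp
  obtain ⟨Sa, hSa, hca⟩ := (hmem a).mp (Or.inl rfl)
  obtain ⟨Sb, hSb, hcb⟩ := (hmem b).mp (Or.inr rfl)
  have hSa' := (shiftMin_iff hn hge).mp hSa
  have hSb' := (shiftMin_iff hn hge).mp hSb
  have hW : ∀ S, W S ↔ rgame n {a, b} S := by
    intro S
    constructor
    · intro hS
      obtain ⟨T, hT1, hT2⟩ := exists_shiftMin hn hge _ S rfl hS
      have h1 := (hmem (cnt T)).mpr ⟨T, hT1, rfl⟩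
      exact ⟨cnt T, by simpa using h1, hT2⟩
    · rintro ⟨r, hr, hd⟩
      have hr' : r = a ∨ r = b := by simpa using hr
      obtain ⟨T, hT1, hT2⟩ := (hmem r).mp hr'
      refine hT5 n W hs (fun x y h => (hge x y).mpr h) T S ?_ hT1.1
      rw [hT2]
      exact hd
  refine ⟨a, b, hab, ?_, ?_, ?_, ?_, hW, ?_, ?_⟩
  · intro k
    rw [← hca]
    exact cnt_le _ _
  · intro k
    rw [← hcb]
    exact cnt_le _ _
  · intro h
    exact hSa'.2 Sb (by rw [hca, hcb]; exact h) (by rw [hca, hcb]; exact fun e => hab e.symm) hSb.1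
  · intro h
    exact hSb'.2 Sa (by rw [hca, hcb]; exact h) (by rw [hca, hcb]; exact hab) hSa.1
  · have hx : (⟨0, ⟨0, hn 0⟩⟩ : Pl n).1 < (⟨1, ⟨0, hn 1⟩⟩ : Pl n).1 := by
      show (0 : Fin 3) < 1
      decide
    obtain ⟨r, hr, c, h1, h2, h3⟩ := swap hge hW hx
    have hr' : r = a ∨ r = b := by simpa using hr
    rw [domV_iff] at h2 h3
    have e01 : ((0 : Fin 3) = 1) = False := by simp
    have e02 : ((0 : Fin 3) = 2) = False := by simp
    have e10 : ((1 : Fin 3) = 0) = False := by simp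
    have e12 : ((1 : Fin 3) = 2) = False := by simp
    simp only [e01, e02, e10, e12, if_true, if_false] at h1 h2 h3
    have key : 0 < r 0 ∧ r 1 < n 1 := by omega
    rcases hr' with rfl | rfl
    · exact Or.inl key
    · exact Or.inr key
  · have hx : (⟨1, ⟨0, hn 1⟩⟩ : Pl n).1 < (⟨2, ⟨0, hn 2⟩⟩ : Pl n).1 := by
      show (1 : Fin 3) < 2
      decide
    obtain ⟨r, hr, c, h1, h2, h3⟩ := swap hge hW hx
    have hr' : r = a ∨ r = b := by simpa using hr
    rw [domV_iff] at h2 h3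
    have e10 : ((1 : Fin 3) = 0) = False := by simp
    have e12 : ((1 : Fin 3) = 2) = False := by simp
    have e20 : ((2 : Fin 3) = 0) = False := by simp
    have e21 : ((2 : Fin 3) = 1) = False := by simp
    simp only [e10, e12, e20, e21, if_true, if_false] at h1 h2 h3
    have key : 0 < r 1 ∧ r 2 < n 2 := by omega
    rcases hr' with rfl | rfl
    · exact Or.inl key
    · exact Or.inr key

end Pool.Agent.H698.TT
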