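import Pool.Agent.H698.TT.Assemble

/-!
Trades of coalitions and trades of vectors.
-/

namespace Pool.Agent.H698.TT

open Finset Classical Pool.Agent.Q102.Trade

/-- winning in terms of the partial sums of the vector of a coalition -/
theorem rgame_iff {n a b : Fin 3 → ℕ} (S : Finset (Pl n)) : rgame n {a, b} S ↔
    Win (a 0) (a 0 + a 1) (a 0 + a 1 + a 2) (b 0) (b 0 + b 1) (b 0 + b 1 + b 2)
      (cnt S 0) (cnt S 0 + cnt S 1) (cnt S 0 + cnt S 1 + cnt S 2) := by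
  unfold rgame
  simp only [Finset.mem_insert, Finset.mem_singleton, exists_eq_or_imp, exists_eq_left]
  rw [domV_iff, domV_iff]
  constructor
  · rintro (h | h)
    · left; omega
    · right; omega
  · rintro (h | h)
    · left; omega
    · right; omega

theorem lat_cnt {n : Fin 3 → ℕ} (S : Finset (Pl n)) :
    Lat (n 0) (n 1) (n 2) (cnt S 0) (cnt S 0 + cnt S 1) (cnt S 0 + cnt S 1 + cnt S 2) := by
  have h0 := cnt_le S 0
  have h1 := cnt_le S 1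
  have h2 := cnt_le S 2
  omega

/-- the vector with given partial sums -/
def vec (x1 x2 x3 : ℤ) : Fin 3 → ℕ := ![x1.toNat, (x2 - x1).toNat, (x3 - x2).toNat]

theorem vec_le {n : Fin 3 → ℕ} {x1 x2 x3 : ℤ} (h : Lat (n 0) (n 1) (n 2) x1 x2 x3) (k : Fin 3) :
    vec x1 x2 x3 k ≤ n k := by
  fin_cases k
  · show x1.toNat ≤ n 0; omega
  · show (x2 - x1).toNat ≤ n 1; omega
  · show (x3 - x2).toNat ≤ n 2; omega

theorem vec_sums {n1 n2 n3 x1 x2 x3 : ℤ} (h : Lat n1 n2 n3 x1 x2 x3) :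
    ((vec x1 x2 x3 0 : ℕ) : ℤ) = x1 ∧ ((vec x1 x2 x3 1 : ℕ) : ℤ) = x2 - x1 ∧
    ((vec x1 x2 x3 2 : ℕ) : ℤ) = x3 - x2 := by
  refine ⟨?_, ?_, ?_⟩
  · show ((x1.toNat : ℕ) : ℤ) = x1; omega
  · show (((x2 - x1).toNat : ℕ) : ℤ) = x2 - x1; omega
  · show (((x3 - x2).toNat : ℕ) : ℤ) = x3 - x2; omega

/-- a coalition with a given vector wins iff the partial sums do -/
theorem rgame_vec {n a b : Fin 3 → ℕ} {S : Finset (Pl n)} {x1 x2 x3 : ℤ}
    (h : Lat (n 0) (n 1) (n 2) x1 x2 x3) (hS : cnt S = vec x1 x2 x3) :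
    rgame n {a, b} S ↔
    Win (a 0) (a 0 + a 1) (a 0 + a 1 + a 2) (b 0) (b 0 + b 1) (b 0 + b 1 + b 2) x1 x2 x3 := by
  rw [rgame_iff, hS]
  obtain ⟨h0, h1, h2⟩ := vec_sums h
  rw [h0, h1, h2]
  constructor
  · rintro (h | h)
    · left; omega
    · right; omega
  · rintro (h | h)
    · left; omega
    · right; omega

/-- a trade of two vectors -/
theorem no_pair {n a b : Fin 3 → ℕ} (h2 : TradeRobust 2 (rgame n {a, b}))
    {r1 r2 r3 s1 s2 s3 y1 y2 y3 z1 z2 z3 : ℤ}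
    (hr : Lat (n 0) (n 1) (n 2) r1 r2 r3) (hs : Lat (n 0) (n 1) (n 2) s1 s2 s3)
    (hy : Lat (n 0) (n 1) (n 2) y1 y2 y3) (hz : Lat (n 0) (n 1) (n 2) z1 z2 z3)
    (wr : Win (a 0) (a 0 + a 1) (a 0 + a 1 + a 2) (b 0) (b 0 + b 1) (b 0 + b 1 + b 2) r1 r2 r3)
    (ws : Win (a 0) (a 0 + a 1) (a 0 + a 1 + a 2) (b 0) (b 0 + b 1) (b 0 + b 1 + b 2) s1 s2 s3)
    (wy : ¬ Win (a 0) (a 0 + a 1) (a 0 + a 1 + a 2) (b 0) (b 0 + b 1) (b 0 + b 1 + b 2) y1 y2 y3)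
    (wz : ¬ Win (a 0) (a 0 + a 1) (a 0 + a 1 + a 2) (b 0) (b 0 + b 1) (b 0 + b 1 + b 2) z1 z2 z3)
    (e1 : r1 + s1 = y1 + z1) (e2 : r2 + s2 = y2 + z2) (e3 : r3 + s3 = y3 + z3) : False := by
  obtain ⟨X, Y, hXY, hX, hY⟩ := exists_trade (n := n) ![vec r1 r2 r3, vec s1 s2 s3]
    ![vec y1 y2 y3, vec z1 z2 z3] (by
      intro i k
      fin_cases i
      · exact vec_le hr k
      · exact vec_le hs k) (by
      intro i k
      fin_cases i
      · exact vec_le hy k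
      · exact vec_le hz k) (by
      intro k
      rw [Fin.sum_univ_two, Fin.sum_univ_two]
      show vec r1 r2 r3 k + vec s1 s2 s3 k = vec y1 y2 y3 k + vec z1 z2 z3 k
      obtain ⟨a0, a1, a2⟩ := vec_sums hr
      obtain ⟨b0, b1, b2⟩ := vec_sums hs
      obtain ⟨c0, c1, c2⟩ := vec_sums hy
      obtain ⟨d0, d1, d2⟩ := vec_sums hz
      fin_cases k
      · show vec r1 r2 r3 0 + vec s1 s2 s3 0 = vec y1 y2 y3 0 + vec z1 z2 z3 0
        omega
      · show vec r1 r2 r3 1 + vec s1 s2 s3 1 = vec y1 y2 y3 1 + vec z1 z2 z3 1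
        omega
      · show vec r1 r2 r3 2 + vec s1 s2 s3 2 = vec y1 y2 y3 2 + vec z1 z2 z3 2
        omega)
  obtain ⟨i, hi⟩ := h2 2 (by norm_num) le_rfl X Y hXY (by
    intro i
    fin_cases i
    · exact (rgame_vec hr (hX 0)).2 wr
    · exact (rgame_vec hs (hX 1)).2 ws)
  fin_cases i
  · exact wy ((rgame_vec hy (hY 0)).1 hi)
  · exact wz ((rgame_vec hz (hY 1)).1 hi)

theorem noTwo (hI : S_interp) : S_noTwo := by
  intro n a b hn ha hb h2 y1 y2 y3 z1 z2 z3 hy hz wy wz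
  have n0 := hn 0
  have n1 := hn 1
  have n2 := hn 2
  have a0 := ha 0
  have a1 := ha 1
  have a2 := ha 2
  have b0 := hb 0
  have b1 := hb 1
  have b2 := hb 2
  have hA : Lat (n 0) (n 1) (n 2) (a 0) (a 0 + a 1) (a 0 + a 1 + a 2) := by omega
  have hB : Lat (n 0) (n 1) (n 2) (b 0) (b 0 + b 1) (b 0 + b 1 + b 2) := by omega
  have key : ∀ r1 r2 r3 s1 s2 s3 : ℤ, Lat (n 0) (n 1) (n 2) r1 r2 r3 →
      Lat (n 0) (n 1) (n 2) s1 s2 s3 →
      Win (a 0) (a 0 + a 1) (a 0 + a 1 + a 2) (b 0) (b 0 + b 1) (b 0 + b 1 + b 2) r1 r2 r3 →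
      Win (a 0) (a 0 + a 1) (a 0 + a 1 + a 2) (b 0) (b 0 + b 1) (b 0 + b 1 + b 2) s1 s2 s3 →
      ¬ (r1 + s1 ≤ y1 + z1 ∧ r2 + s2 ≤ y2 + z2 ∧ r3 + s3 ≤ y3 + z3) := by
    rintro r1 r2 r3 s1 s2 s3 hr hs wr ws ⟨h1, h2', h3⟩
    obtain ⟨r1', r2', r3', s1', s2', s3', l1', l2', l3', m1', m2', m3', lr, ls, ll, lm, c1, c2, c3,
      d1, d2, d3, e1, e2, e3, f1, f2, f3, g1, g2, g3⟩ :=
      hI (n 0) (n 1) (n 2) r1 r2 r3 s1 s2 s3 y1 y2 y3 z1 z2 z3 (by omega) (by omega) (by omega)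
        hr hs hy hz h1 h2' h3
    refine no_pair h2 lr ls ll lm ?_ ?_ ?_ ?_ g1 g2 g3
    · rcases wr with wr | wr
      · left; omega
      · right; omega
    · rcases ws with ws | ws
      · left; omega
      · right; omega
    · intro h
      apply wy
      rcases h with h | h
      · left; omega
      · right; omega
    · intro h
      apply wz
      rcases h with h | h
      · left; omega
      · right; omega
  refine ⟨?_, ?_, ?_⟩
  · exact key _ _ _ _ _ _ hA hA (Or.inl ⟨le_rfl, le_rfl, le_rfl⟩) (Or.inl ⟨le_rfl, le_rfl, le_rfl⟩)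
  · exact key _ _ _ _ _ _ hA hB (Or.inl ⟨le_rfl, le_rfl, le_rfl⟩) (Or.inr ⟨le_rfl, le_rfl, le_rfl⟩)
  · exact key _ _ _ _ _ _ hB hB (Or.inr ⟨le_rfl, le_rfl, le_rfl⟩) (Or.inr ⟨le_rfl, le_rfl, le_rfl⟩)

theorem three : S_three := by
  intro n a b h2 h3
  unfold TradeRobust at h3
  push Not at h3
  obtain ⟨j, hj1, hj3, X, Y, hXY, hX, hY⟩ := h3
  have hj : j = 3 := by
    by_contra hne
    obtain ⟨i, hi⟩ := h2 j hj1 (by omega) X Y hXY hX
    exact hY i hi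
  subst hj
  have hc := fun k => trade_cnt hXY k
  simp only [Fin.sum_univ_three] at hc
  have c0 := hc 0
  have c1 := hc 1
  have c2 := hc 2
  refine ⟨_, _, _, _, _, _, _, _, _, _, _, _, _, _, _, _, _, _, lat_cnt (X 0), lat_cnt (X 1),
    lat_cnt (X 2), lat_cnt (Y 0), lat_cnt (Y 1), lat_cnt (Y 2),
    (rgame_iff _).1 (hX 0), (rgame_iff _).1 (hX 1), (rgame_iff _).1 (hX 2),
    fun h => hY 0 ((rgame_iff _).2 h), fun h => hY 1 ((rgame_iff _).2 h),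
    fun h => hY 2 ((rgame_iff _).2 h), ?_, ?_, ?_⟩
  · omega
  · omega
  · omega

end Pool.Agent.H698.TT
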