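import Pool.Agent.H698.TT.Assemble

/-!
T4: the types of a complete game with three types.
-/

set_option autoImplicit false

namespace Pool.Agent.H698.TT

open Finset Classical Pool.Agent.Q102.Trade

namespace TypesL

variable {N : Type} [Fintype N] [DecidableEq N] (W : Finset N → Prop)

/-- the class of a player -/
noncomputable def cls (i : N) : Finset N := Finset.univ.filter fun j : N => Same W i j

theorem mem_cls {i j : N} : j ∈ cls W i ↔ Same W i j := by
  unfold cls
  rw [Finset.mem_filter]
  exact ⟨fun h => h.2, fun h => ⟨Finset.mem_univ _, h⟩⟩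

theorem cls_eq {i j : N} : cls W i = cls W j ↔ Same W i j := by
  constructor
  · intro h
    have h1 : j ∈ cls W j := (mem_cls W).2 (Same.refl W j)
    rw [← h] at h1
    exact (mem_cls W).1 h1
  · intro h
    ext l
    rw [mem_cls, mem_cls]
    exact ⟨fun h1 => h.symm.trans h1, fun h1 => h.trans h1⟩

/-- the classes strictly above `i` -/
noncomputable def up (i : N) : Finset (Finset N) :=
  (Finset.univ.filter fun j : N => Ge W j i ∧ ¬ Ge W i j).image (cls W)

theorem mem_up {i : N} {c : Finset N} :
    c ∈ up W i ↔ ∃ j, (Ge W j i ∧ ¬ Ge W i j) ∧ cls W j = c := by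
  unfold up
  rw [Finset.mem_image]
  constructor
  · rintro ⟨j, hj, h⟩
    exact ⟨j, (Finset.mem_filter.1 hj).2, h⟩
  · rintro ⟨j, hj, h⟩
    exact ⟨j, Finset.mem_filter.2 ⟨Finset.mem_univ _, hj⟩, h⟩

theorem up_subset {i j : N} (h : Ge W i j) : up W i ⊆ up W j := by
  intro c hc
  rw [mem_up] at hc ⊢
  obtain ⟨l, hl, hc⟩ := hc
  exact ⟨l, ⟨hl.1.trans h, fun h1 => hl.2 (h.trans h1)⟩, hc⟩

theorem cls_notMem_up (i : N) : cls W i ∉ up W i := by
  intro h
  rw [mem_up] at h
  obtain ⟨j, hj, hc⟩ := h
  exact hj.2 ((cls_eq W).1 hc).2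

theorem card_lt {i j : N} (h : Ge W i j) (h' : ¬ Ge W j i) : #(up W i) < #(up W j) := by
  refine Finset.card_lt_card ((Finset.ssubset_iff_of_subset (up_subset W h)).2 ?_)
  exact ⟨cls W i, (mem_up W).2 ⟨i, ⟨h, h'⟩, rfl⟩, cls_notMem_up W i⟩

theorem card_up_lt (i : N) : #(up W i) < #(Finset.univ.image (cls W)) := by
  refine Finset.card_lt_card ((Finset.ssubset_iff_of_subset ?_).2 ?_)
  · unfold up
    exact Finset.image_subset_image (Finset.filter_subset _ _)
  · exact ⟨cls W i, Finset.mem_image_of_mem _ (Finset.mem_univ i), cls_notMem_up W i⟩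

end TypesL

open TypesL in
theorem types : S_types := by
  intro N _ _ W hc hn
  have h3 : #(Finset.univ.image (cls W)) = 3 := hn
  have hlt : ∀ i, #(up W i) < 3 := fun i => h3 ▸ card_up_lt W i
  have hge : ∀ i j, Ge W i j ↔ #(up W i) ≤ #(up W j) := by
    intro i j
    constructor
    · intro h
      exact Finset.card_le_card (up_subset W h)
    · intro h
      by_contra h1
      have h2 : Ge W j i := (hc i j).resolve_left h1
      exact absurd (card_lt W h2 h1) (not_lt.2 h)
  refine ⟨fun i => ⟨#(up W i), hlt i⟩, ?_, fun i j => ?_⟩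
  · -- surjective
    set τ : N → Fin 3 := fun i => ⟨#(up W i), hlt i⟩ with hτ
    have hτe : ∀ i j, τ i = τ j → cls W i = cls W j := by
      intro i j h
      have h1 : #(up W i) = #(up W j) := congrArg Fin.val h
      exact (cls_eq W).2 ⟨(hge i j).2 h1.le, (hge j i).2 h1.ge⟩
    set P : Finset (Finset N × Fin 3) := Finset.univ.image fun i : N => (cls W i, τ i) with hP
    have hP1 : P.image Prod.fst = Finset.univ.image (cls W) := by
      rw [hP, Finset.image_image]
      rfl
    have hP2 : P.image Prod.snd = Finset.univ.image τ := by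
      rw [hP, Finset.image_image]
      rfl
    have hP3 : #(P.image Prod.snd) = #P := by
      refine Finset.card_image_of_injOn ?_
      intro p hp p' hp' h
      obtain ⟨i, _, rfl⟩ := Finset.mem_image.1 (Finset.mem_coe.1 hp)
      obtain ⟨j, _, rfl⟩ := Finset.mem_image.1 (Finset.mem_coe.1 hp')
      have h1 : τ i = τ j := h
      show (cls W i, τ i) = (cls W j, τ j)
      rw [h1, hτe i j h1]
    have h4 : 3 ≤ #(Finset.univ.image τ) := by
      have h6 : #(P.image Prod.fst) ≤ #P := Finset.card_image_le
      rw [hP1, h3] at h6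
      rw [← hP2, hP3]
      exact h6
    have h5 : Finset.univ.image τ = Finset.univ := by
      refine Finset.eq_of_subset_of_card_le (Finset.subset_univ _) ?_
      rw [Finset.card_univ, Fintype.card_fin]
      exact h4
    intro t
    have h6 : t ∈ Finset.univ.image τ := h5 ▸ Finset.mem_univ t
    obtain ⟨i, _, hi⟩ := Finset.mem_image.1 h6
    exact ⟨i, hi⟩
  · rw [hge i j]
    exact Iff.rfl

end Pool.Agent.H698.TT
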